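import Pool.Agent.Lib.MP_7ae50b_co.AsLift

set_option autoImplicit false
set_option linter.unusedSectionVars false

/-! The asymptotic theorem: the densities of the colours are a convex combination of roles. -/

namespace Pool.Agent.Lib.MP_7ae50b_co.ML

open Finset
open scoped Classical

theorem as_abel {I : Type} [DecidableEq I] {S : Finset I} {a : I} {w θ x x' : I → ℝ} (ha : a ∉ S)
    (hw : ∀ i ∈ S, w a ≤ w i) (hx : ∀ i ∈ S, x' i = x i)
    (ih : ∀ μ, (∀ i ∈ S, μ ≤ w i) → ∑ i ∈ S, (w i - μ) * θ i ≤ ∑ i ∈ S, (w i - μ) * x i)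
    (hs : ∑ i ∈ insert a S, θ i ≤ ∑ i ∈ insert a S, x' i) (μ : ℝ)
    (hμ : ∀ i ∈ insert a S, μ ≤ w i) :
    ∑ i ∈ insert a S, (w i - μ) * θ i ≤ ∑ i ∈ insert a S, (w i - μ) * x' i := by
  have e : ∀ y : I → ℝ, ∑ i ∈ insert a S, (w i - μ) * y i =
      ∑ i ∈ S, (w i - w a) * y i + (w a - μ) * ∑ i ∈ insert a S, y i := fun y => by
    rw [sum_insert ha, sum_insert ha, mul_add, mul_sum, add_left_comm, ← sum_add_distrib]
    exact congrArg _ (sum_congr rfl fun i _ => by ring)
  rw [e, e, sum_congr rfl (f := fun i => (w i - w a) * x' i) fun i hi => by rw [hx i hi]]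
  exact add_le_add (ih _ hw) (mul_le_mul_of_nonneg_left hs
    (sub_nonneg.2 (hμ a (mem_insert_self _ _))))

variable {G : Type} [AddCommGroup G] [Fintype G] {ab : G → G} {Hv : Finset G}

/-- The multiplicity of a heavy colour. -/
noncomputable def cn (C : Multiset G) (i : Option Hv) : ℕ := i.elim 0 fun a => C.count (a : G)

/-- The densities of the colours in a role. -/
noncomputable def dens (K : AddSubgroup G) (C : Multiset G) (b : Option (Option Hv))
    (i : Option Hv) : ℝ := ((cn C i : ℝ) + if b = some i then 1 else 0) / Nat.card K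

/-- Every coset of `K` is a path with colours `C`; the cosets are linked by colour `b`. -/
def Role (ab : G → G) (T : ℕ) (K : AddSubgroup G) (x : Option Hv → ℝ) : Prop :=
  ∃ C b, Snake ab K C ∧ Nat.card K ≤ T ∧ (∀ a : Hv, b = some (some a) →
    T ≤ Nat.card (K ⊔ AddSubgroup.zmultiples (a : G) : AddSubgroup G)) ∧ x = dens K C b

theorem as_kpos (K : AddSubgroup G) : (0 : ℝ) < Nat.card K := Nat.cast_pos.2 Nat.card_pos

theorem as_greedy (H : Ab ab) (hab : ∀ a ∈ Hv, ab a = a) {T : ℕ} (hT : 1 ≤ T)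
    {θ : Option Hv → ℝ} (h1 : ∀ S : Finset (Option Hv), ∑ i ∈ S, θ i ≤ 1)
    (h2 : ∀ (K : AddSubgroup G) (S : Finset (Option Hv)),
      (∀ i ∈ S, ∃ a : Hv, i = some a ∧ (a : G) ∈ K) → ∑ i ∈ S, θ i ≤ 1 - 1 / Nat.card K)
    (w : Option Hv → ℝ) (S : Finset (Option Hv)) : ∃ K C b, Snake ab K C ∧ Nat.card K ≤ T ∧
      (∀ a : Hv, b = some (some a) →
        T ≤ Nat.card (K ⊔ AddSubgroup.zmultiples (a : G) : AddSubgroup G)) ∧
      (∀ i, i ∉ S → dens K C b i = 0) ∧
      (b = none → (∀ i ∈ S, ∃ a : Hv, i = some a ∧ (a : G) ∈ K) ∧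
        ∑ i ∈ S, dens K C b i = 1 - 1 / Nat.card K) ∧
      (b ≠ none → ∑ i ∈ S, dens K C b i = 1) ∧
      ∀ μ, (∀ i ∈ S, μ ≤ w i) → ∑ i ∈ S, (w i - μ) * θ i ≤ ∑ i ∈ S, (w i - μ) * dens K C b i := by
  induction S using Finset.induction_on_min_value w with
  | empty =>
    refine ⟨⊥, 0, none, snake_bot, by simpa using hT, by simp, fun i _ => ?_, by simp, by simp,
      by simp⟩
    cases i <;> simp [dens, cn]
  | insert a S ha hw ih =>
    obtain ⟨K, C, b, s1, s2, s3, s4, s5, s6, s7⟩ := ih
    have hK := as_kpos K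
    by_cases hb : b = none
    · subst hb
      obtain ⟨s5, s8⟩ := s5 rfl
      have s9 : ∀ i, i ∉ S → cn C i = 0 := fun i hi => by simpa [dens, hK.ne'] using s4 i hi
      by_cases hc : ∀ a' : Hv, a = some a' →
          T ≤ Nat.card (K ⊔ AddSubgroup.zmultiples (a' : G) : AddSubgroup G)
      · have e : ∀ i, i ≠ a → dens K C (some a) i = dens K C none i := fun i hi => by
          simp [dens, hi.symm]
        have e1 : ∀ i ∈ S, dens K C (some a) i = dens K C none i := fun i hi =>
          e i (ne_of_mem_of_not_mem hi ha)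
        have e2 : ∑ i ∈ insert a S, dens K C (some a) i = 1 := by
          rw [sum_insert ha, sum_congr rfl e1, s8]
          simp [dens, s9 a ha]
        refine ⟨K, C, some a, s1, s2, fun a' h => hc a' (Option.some.inj h), fun i hi => ?_,
          by simp, fun _ => e2, as_abel ha hw e1 s7 (e2 ▸ h1 _)⟩
        rw [mem_insert, not_or] at hi
        rw [e i hi.1, s4 i hi.2]
      · push Not at hc
        obtain ⟨a, rfl, hc⟩ := hc
        obtain ⟨q, q1, q2⟩ := s1.step H (hab a a.2)
        have hq : (0 : ℝ) < q + 1 := by positivity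
        have e0 : ∀ i, cn (Multiset.replicate q (a : G) + (q + 1) • C) i =
            (if i = some a then q else 0) + (q + 1) * cn C i := fun i => by
          cases i with
          | none => simp [cn]
          | some i =>
            simp only [cn, Option.elim_some, Multiset.count_add, Multiset.count_replicate,
              Multiset.count_nsmul, Option.some.injEq, Subtype.ext_iff, @eq_comm _ (a : G)]
        have e : ∀ i, i ≠ some a → dens (K ⊔ AddSubgroup.zmultiples (a : G))
            (Multiset.replicate q (a : G) + (q + 1) • C) none i = dens K C none i := fun i hi => by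
          simp only [dens, e0, if_neg hi, q1]
          simp only [reduceCtorEq, if_false]
          push_cast
          field_simp
          ring
        have e1 := fun i (hi : i ∈ S) => e i (ne_of_mem_of_not_mem hi ha)
        have e2 : ∑ i ∈ insert (some a) S, dens (K ⊔ AddSubgroup.zmultiples (a : G))
            (Multiset.replicate q (a : G) + (q + 1) • C) none i =
            1 - 1 / Nat.card (K ⊔ AddSubgroup.zmultiples (a : G) : AddSubgroup G) := by
          rw [sum_insert ha, sum_congr rfl e1, s8]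
          simp only [dens, e0, s9 _ ha, q1, if_true]
          simp only [reduceCtorEq, if_false]
          push_cast
          field_simp
          ring
        have e3 : ∀ i ∈ insert (some a) S, ∃ a' : Hv, i = some a' ∧
            (a' : G) ∈ K ⊔ AddSubgroup.zmultiples (a : G) := fun i hi => by
          rcases mem_insert.1 hi with rfl | hi
          · exact ⟨a, rfl, AddSubgroup.mem_sup_right (AddSubgroup.mem_zmultiples _)⟩
          · obtain ⟨a', h3, h4⟩ := s5 i hi
            exact ⟨a', h3, AddSubgroup.mem_sup_left h4⟩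
        refine ⟨_, _, none, q2, hc.le, by simp, fun i hi => ?_, fun _ => ⟨e3, e2⟩, by simp,
          as_abel ha hw e1 s7 (e2 ▸ h2 _ _ e3)⟩
        rw [mem_insert, not_or] at hi
        rw [e i hi.1, s4 i hi.2]
    · have e2 : ∑ i ∈ insert a S, dens K C b i = 1 := by
        rw [sum_insert ha, s4 a ha, s6 hb, zero_add]
      exact ⟨K, C, b, s1, s2, s3, fun i hi => s4 i fun h => hi (mem_insert_of_mem h),
        fun h => absurd h hb, fun _ => e2, as_abel ha hw (fun _ _ => rfl) s7 (e2 ▸ h1 _)⟩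

theorem as_cn_le (C : Multiset G) (i : Option Hv) : cn C i ≤ Multiset.card C := by
  cases i with
  | none => exact Nat.zero_le _
  | some a => exact Multiset.count_le_card _ _

theorem as_conv (H : Ab ab) (hab : ∀ a ∈ Hv, ab a = a) {T : ℕ} (hT : 1 ≤ T)
    {θ : Option Hv → ℝ} (h0 : ∀ i, 0 ≤ θ i) (h1 : ∀ S : Finset (Option Hv), ∑ i ∈ S, θ i ≤ 1)
    (h2 : ∀ (K : AddSubgroup G) (S : Finset (Option Hv)),
      (∀ i ∈ S, ∃ a : Hv, i = some a ∧ (a : G) ∈ K) → ∑ i ∈ S, θ i ≤ 1 - 1 / Nat.card K) :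
    ∃ (ι : Type) (_ : Fintype ι) (lam : ι → ℝ) (K : ι → AddSubgroup G) (z : ι → Option Hv → ℝ),
      Fintype.card ι ≤ Hv.card + 2 ∧ (∀ j, 0 ≤ lam j) ∧ ∑ j, lam j = 1 ∧
      (∀ j, Role ab T (K j) (z j)) ∧ ∀ i, ∑ j, lam j * z j i = θ i := by
  have hfin : {x : Option Hv → ℝ | ∃ K, Role ab T K x}.Finite := by
    refine (Set.Finite.pi' (t := fun _ : Option Hv => Set.range fun p : Fin (T + 1) × Fin (T + 1) =>
      ((p.1 : ℕ) : ℝ) / (p.2 : ℕ)) fun _ => Set.finite_range _).subset ?_
    rintro x ⟨K, C, b, s1, s2, -, rfl⟩ i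
    have h3 := s1.card
    have h4 := as_cn_le C i
    refine ⟨(⟨cn C i + if b = some i then 1 else 0, by split_ifs <;> omega⟩,
      ⟨Nat.card K, by omega⟩), ?_⟩
    simp [dens]
  have hmem : θ ∈ convexHull ℝ {x : Option Hv → ℝ | ∃ K, Role ab T K x} := by
    by_contra h
    obtain ⟨f, u, f1, f2⟩ := geometric_hahn_banach_closed_point (convex_convexHull ℝ _)
      (hfin.isClosed_convexHull ℝ) h
    obtain ⟨w, hw⟩ : ∃ w : Option Hv → ℝ, ∀ x, f x = ∑ i, w i * x i :=
      ⟨fun i => f fun j => if i = j then 1 else 0, fun x => by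
        refine (f.toLinearMap.pi_apply_eq_sum_univ x).trans (sum_congr rfl fun i _ => ?_)
        rw [smul_eq_mul, mul_comm]
        congr⟩
    obtain ⟨K, C, b, s1, s2, s3, s4, -, -, s7⟩ := as_greedy H hab hT h1 h2 w
      (univ.filter fun i => 0 ≤ w i)
    have h3 := f1 _ (subset_convexHull ℝ _ ⟨K, C, b, s1, s2, s3, rfl⟩)
    have h4 := s7 0 fun i hi => (mem_filter.1 hi).2
    simp only [sub_zero] at h4
    rw [sum_subset (f := fun i => w i * dens K C b i) (subset_univ _) fun i _ hi => by
      rw [s4 i hi, mul_zero], ← hw] at h4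
    have h5 : f θ ≤ ∑ i ∈ univ.filter fun i => 0 ≤ w i, w i * θ i := by
      rw [hw, sum_filter]
      refine sum_le_sum fun i _ => ?_
      split_ifs with h6
      · rfl
      · exact mul_nonpos_of_nonpos_of_nonneg (not_le.1 h6).le (h0 i)
    linarith
  obtain ⟨ι, _, z, lam, c1, c2, c3, c4, c5⟩ := eq_pos_convex_span_of_mem_convexHull hmem
  choose K hK using fun j => c1 ⟨j, rfl⟩
  refine ⟨ι, inferInstance, lam, K, z, c2.card_le_finrank_succ.trans (Nat.succ_le_succ
    ((Submodule.finrank_le _).trans (by simp))), fun j => (c3 j).le, c4, hK, fun i => ?_⟩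
  rw [← c5, Finset.sum_apply]
  rfl

end Pool.Agent.Lib.MP_7ae50b_co.ML
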