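import Pool.Agent.Lib.MP_7ae50b_co.AsRole

set_option autoImplicit false
set_option linter.unusedSectionVars false

/-! The asymptotic theorem: all roles together. -/

namespace Pool.Agent.Lib.MP_7ae50b_co.ML

open Finset Pool.Agent.Lib.MP_34bdde_co
open scoped Classical

variable {G : Type} [AddCommGroup G] [Fintype G]

theorem as_card_filter (X : Multiset G) (p : G → Prop) [DecidablePred p] :
    Multiset.card (X.filter p) = ∑ c ∈ univ.filter p, X.count c := by
  rw [← Multiset.sum_count_eq_card (s := univ.filter p) fun a ha => by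
    simpa using (Multiset.mem_filter.1 ha).2]
  exact sum_congr rfl fun c hc => Multiset.count_filter_of_pos (mem_filter.1 hc).2

theorem as_cn_sum {Hv : Finset G} (C : Multiset G) (S : Finset (Option Hv)) (p : G → Prop)
    [DecidablePred p] (h : ∀ a : Hv, some a ∈ S → p a) : ∑ i ∈ S, cn C i ≤ Multiset.card (C.filter p) := by
  calc _ ≤ ∑ i ∈ S, cn (C.filter p) i := sum_le_sum fun i hi => by
        cases i with
        | none => rfl
        | some a => exact (Multiset.count_filter_of_pos (h a hi)).ge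
    _ ≤ ∑ i : Option Hv, cn (C.filter p) i := sum_le_sum_of_subset (subset_univ _)
    _ = ∑ a ∈ Hv, (C.filter p).count a := by
        rw [Fintype.sum_option, ← sum_coe_sort Hv]
        exact zero_add _
    _ ≤ ∑ a, (C.filter p).count a := sum_le_sum_of_subset (subset_univ _)
    _ = _ := Multiset.sum_count_eq_card fun a _ => mem_univ a

theorem as_cover {P ι : Type} [Fintype P] [Fintype ι] (pc : G → P) (r : P → ι) :
    ∑ j, (pre pc (univ.filter fun p => r p = j)).val = univ.val := by
  ext x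
  simp [Multiset.count_sum', Multiset.count_filter, pre]

theorem as_core {τ : ℝ} (hτ : 0 < τ) (hτ1 : τ ≤ 1) (K : ℕ) : ∃ F : ℕ,
    ∀ (G : Type) [AddCommGroup G] [Fintype G] (ab : G → G) (σ : ℝ) (Hv : Finset G)
      (Lh Ll : Multiset G), Ab ab → F ≤ Fintype.card G → 0 ≤ σ → σ < 1 → Hv.card ≤ K →
      (∀ a ∈ Hv, ab a = a) → (∀ c ∈ Lh, c ∈ Hv) → (∀ c ∈ Ll, ab c = c) →
      (∀ c, F * Ll.count c ≤ Fintype.card G) →
      (∀ H : AddSubgroup G, (Multiset.card (Lh.filter (· ∈ H)) : ℝ) ≤
        (1 - σ) * Fintype.card G * (1 - 1 / Nat.card H)) →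
      (Multiset.card Lh + Multiset.card Ll : ℝ) ≤ (1 - σ) * Fintype.card G →
      ∃ (R : Finset G) (n : ℕ) (V C : Multiset G), R.val + V = univ.val ∧ Sys ab n V C ∧
        (Multiset.card (Lh + Ll - C) : ℝ) ≤ 2 * τ * Fintype.card G ∧
        ∀ c, (σ ^ 2 - τ) * Fintype.card G ≤ prs R c := by
  obtain ⟨t, ht0, ht⟩ : ∃ t : ℝ, 0 < t ∧ 3 * (K + 1) * (K + 2) * t = τ :=
    ⟨τ / (3 * (K + 1) * (K + 2)), by positivity, by field_simp⟩
  have hK0 : (0 : ℝ) ≤ K := Nat.cast_nonneg _
  have ht1 : t ≤ τ := by nlinarith [mul_nonneg hK0 ht0.le, mul_nonneg hK0 (mul_nonneg hK0 ht0.le)]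
  obtain ⟨T0, hT0⟩ := exists_nat_gt (1 / t)
  have hT1 : 1 ≤ T0 := Nat.cast_pos.1 (lt_trans (by positivity) hT0)
  rw [div_lt_iff₀' ht0] at hT0
  obtain ⟨T, hT, hcarve⟩ := as_carve K (T0 ^ (K + 2)) ht0
  have hη : (0 : ℝ) < 1 / (K + 4) := by positivity
  have hη1 : (1 : ℝ) / (K + 4) ≤ 1 := (div_le_one (by positivity)).2 (by linarith)
  obtain ⟨γ, N, hγ, hrole⟩ := as_role hT ht0 (ht1.trans hτ1) hη hη1 hT0.le
  obtain ⟨γ', N', hγ', hstat⟩ := as_stat hT hτ hτ1 hη hη1
  refine ⟨max (max N N') (max T0 ⌈1 / γ⌉₊), ?_⟩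
  intro G _ _ ab σ Hv Lh Ll H hv s0 s1 hK hab hh hl hc h1 h2
  have hv0 : (0 : ℝ) < Fintype.card G := by exact_mod_cast Fintype.card_pos
  have hw : 0 < (1 - σ) * Fintype.card G := mul_pos (by linarith) hv0
  have hv1 : 1 ≤ t * Fintype.card G := hT0.le.trans (mul_le_mul_of_nonneg_left
    (Nat.cast_le.2 (le_of_max_le_left (le_of_max_le_right hv))) ht0.le)
  obtain ⟨ι, _, lam, Kf, z, c1, c2, c3, c4, c5⟩ := as_conv H hab hT1
    (θ := fun i => ((cn Lh i : ℝ) + if i = none then Multiset.card Ll else 0) /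
      ((1 - σ) * Fintype.card G)) (fun i => by positivity) (fun S => by
      rw [← sum_div, div_le_one hw, sum_add_distrib]
      refine le_trans (add_le_add ?_ ?_) h2
      · exact_mod_cast (as_cn_sum Lh S (fun _ => True) fun _ _ => trivial).trans
          (Multiset.card_le_card (Multiset.filter_le _ _))
      · rw [← Nat.cast_sum, sum_ite_eq']
        split_ifs <;> simp) fun H' S hS => by
      rw [← sum_div, div_le_iff₀' hw, sum_congr rfl (g := fun i => (cn Lh i : ℝ)) fun i hi => by
        obtain ⟨a, rfl, -⟩ := hS i hi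
        simp]
      refine le_trans ?_ (h1 H')
      exact_mod_cast as_cn_sum Lh S _ fun a ha => by
        obtain ⟨a', e, h⟩ := hS _ ha
        rwa [Option.some.inj e]
  obtain ⟨P, _, pc, Δ, p1, p2, p3, p4⟩ := hcarve G Hv (univ.sup Kf) hK
    ((as_card_fsup univ Kf fun j => let ⟨_, _, _, h, _⟩ := c4 j; h).trans
      (Nat.pow_le_pow_right hT1 (c1.trans (by omega))))
  have c6 : ∀ i, ∑ j, (1 - σ) * lam j * z j i * Fintype.card G =
      (cn Lh i : ℝ) + if i = none then Multiset.card Ll else 0 := fun i => by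
    rw [← (eq_div_iff hw.ne').1 (c5 i), sum_mul]
    exact sum_congr rfl fun j _ => by ring
  have c7 : ∀ j, 0 ≤ (1 - σ) * lam j := fun j => mul_nonneg (by linarith) (c2 j)
  have c8 : σ + ∑ j, (1 - σ) * lam j = 1 := by
    rw [← mul_sum, c3]
    ring
  have c9 : ∑ j, (1 - σ) * lam j * z j none * Fintype.card G = Multiset.card Ll := by
    simpa [cn] using c6 none
  obtain ⟨D, d1, d2⟩ := as_parts (fun j => ⌊(1 - σ) * lam j * z j none * Fintype.card G⌋₊) univ Ll
    (by
      refine Nat.cast_le.1 (le_of_le_of_eq ?_ c9)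
      rw [Nat.cast_sum]
      refine sum_le_sum fun j _ => Nat.floor_le (mul_nonneg (mul_nonneg (c7 j) ?_) hv0.le)
      obtain ⟨C, b, -, -, -, e⟩ := c4 j
      rw [e, dens]
      positivity)
  have d3 : ∀ j, D j ≤ Ll := fun j =>
    (single_le_sum (fun _ _ => Multiset.zero_le _) (mem_univ j)).trans d2
  have hι : (Fintype.card ι : ℝ) ≤ K + 2 := by exact_mod_cast c1.trans (by omega)
  obtain ⟨r, hr⟩ := as_roles (P := P) (ρ := fun j : Option ι => j.elim σ fun j => (1 - σ) * lam j)
    (fun j => by cases j; exacts [s0, c7 _]) (by rw [Fintype.sum_option]; exact c8)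
    (fun j A => j.elim (¬Stat σ τ 0 (pre pc A)) fun j =>
      ¬Fine ab (z j) ((1 - σ) * lam j) t (D j) (pre pc A)) (by
      refine (sum_le_card_nsmul _ _ (1 / (K + 4) : ℝ) fun j _ => ?_).trans_lt ?_
      · cases j with
        | none =>
          exact hstat G P pc 0 σ (le_of_max_le_right (le_of_max_le_left hv)) s0 s1.le
            (as_piece p1 p2) (Nat.zero_le _) fun c => by simpa using mul_nonneg hγ'.le hv0.le
        | some j =>
          refine hrole G ab Hv P pc Δ (Kf j) (z j) _ (D j) H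
            (le_of_max_le_left (le_of_max_le_left hv)) hab p1 p2
            (fun x y h => p3 x y (le_sup (f := Kf) (mem_univ j) h)) p4 (c4 j) (c7 j) ?_
            (fun c h => hl c (Multiset.mem_of_le (d3 j) h)) (fun c => ?_) (d1 j (mem_univ j))
          · exact (single_le_sum (fun j _ => c7 j) (mem_univ j)).trans (by linarith)
          · have a1 : (⌈1 / γ⌉₊ : ℝ) * (D j).count c ≤ Fintype.card G := by
              exact_mod_cast (Nat.mul_le_mul ((le_max_right _ _).trans (le_max_right _ _))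
                (Multiset.count_le_of_le c (d3 j))).trans (hc c)
            have a2 := mul_le_mul_of_nonneg_right (Nat.le_ceil (1 / γ))
              (Nat.cast_nonneg ((D j).count c))
            rw [← div_le_iff₀' hγ, div_eq_inv_mul, ← one_div]
            exact a2.trans a1
      · rw [card_univ, Fintype.card_option, nsmul_eq_mul, mul_one_div, div_lt_one (by positivity)]
        push_cast
        linarith)
  choose n E D₁ f1 f2 f3 f4 using fun j => not_not.1 (hr (some j))
  obtain ⟨n₁, g1⟩ := as_sys_sum univ _ _ fun j _ => ⟨n j, f1 j⟩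
  refine ⟨_, n₁, _, _, (Fintype.sum_option _).symm.trans (as_cover pc r), g1, ?_,
    (not_not.1 (hr none)).lo⟩
  have g2 : ∑ j, D₁ j ≤ Ll := (sum_le_sum fun j _ => f2 j).trans d2
  have g3 := Multiset.card_le_card (add_tsub_add_le_tsub_add_tsub (a := Lh) (b := Ll)
    (c := ∑ j, E j) (d := ∑ j, D₁ j))
  have g4 : (Multiset.card (Lh - ∑ j, E j) : ℝ) ≤ K * ((K + 2) * (3 * t * Fintype.card G)) := by
    rw [← Multiset.sum_count_eq_card (s := Hv) fun a ha =>
      hh a (Multiset.mem_of_le tsub_le_self ha), Nat.cast_sum]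
    refine (sum_le_card_nsmul _ _ ((K + 2) * (3 * t * Fintype.card G)) fun a ha => ?_).trans
      (by rw [nsmul_eq_mul]; gcongr)
    have a1 := sum_le_sum fun j (_ : j ∈ univ) => f4 j ⟨a, ha⟩
    have a2 := c6 (some ⟨a, ha⟩)
    simp only [sub_mul, sum_sub_distrib, sum_const, card_univ, nsmul_eq_mul] at a1 a2
    simp only [cn, Option.elim_some, reduceCtorEq, if_false, Nat.cast_zero, add_zero] at a2
    rw [← Nat.cast_sum, ← Multiset.count_sum'] at a1
    have a3 := mul_le_mul_of_nonneg_right hι (show 0 ≤ 3 * t * Fintype.card G by positivity)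
    rw [Multiset.count_sub]
    rcases le_total (Lh.count a) ((∑ j, E j).count a) with e | e
    · rw [Nat.sub_eq_zero_of_le e, Nat.cast_zero]
      positivity
    · rw [Nat.cast_sub e]
      linarith
  have g5 : (Multiset.card (Ll - ∑ j, D₁ j) : ℝ) ≤ (K + 2) * (2 * t * Fintype.card G) := by
    have a1 := sum_le_sum (s := univ) (f := fun j => (1 - σ) * lam j * z j none * Fintype.card G)
      (g := fun j => Multiset.card (D₁ j) + 2 * t * Fintype.card G) fun j _ => by
        linarith [f3 j, Nat.lt_floor_add_one ((1 - σ) * lam j * z j none * Fintype.card G),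
          congrArg (Nat.cast (R := ℝ)) (d1 j (mem_univ j))]
    rw [c9, sum_add_distrib, sum_const, card_univ, nsmul_eq_mul, ← Nat.cast_sum,
      ← Multiset.card_sum] at a1
    rw [Multiset.card_sub g2, Nat.cast_sub (Multiset.card_le_card g2)]
    linarith [mul_le_mul_of_nonneg_right hι (show 0 ≤ 2 * t * Fintype.card G by positivity)]
  rw [sum_add_distrib]
  refine (Nat.cast_le.2 g3).trans ?_
  rw [Multiset.card_add, Nat.cast_add, ← ht]
  have g6 : 0 ≤ t * Fintype.card G := by positivity
  linarith [mul_nonneg hK0 g6, mul_nonneg hK0 (mul_nonneg hK0 g6)]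

end Pool.Agent.Lib.MP_7ae50b_co.ML
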