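import Pool.Agent.Lib.MP_7ae50b_co.MLMain

set_option autoImplicit false
set_option linter.unusedSectionVars false

/-! The asymptotic theorem: lifting walks from quotient groups. -/

namespace Pool.Agent.Lib.MP_7ae50b_co.ML

open Finset
open scoped Classical

theorem as_exists_ab (G : Type) [AddCommGroup G] : ∃ ab : G → G, Ab ab := by
  refine ⟨fun g => Classical.epsilon fun y => y = g ∨ y = -g, fun g => ?_, fun g => ?_⟩
  · simp only [neg_neg, or_comm]
  · exact Classical.epsilon_spec (p := fun y => y = g ∨ y = -g) ⟨g, Or.inl rfl⟩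

theorem as_map_split {α β : Type} (f : α → β) (C₁ : Multiset β) : ∀ (D : Multiset α)
    (C₂ : Multiset β), D.map f = C₁ + C₂ →
      ∃ D₁ D₂, D = D₁ + D₂ ∧ D₁.map f = C₁ ∧ D₂.map f = C₂ := by
  induction C₁ using Multiset.induction_on with
  | empty => exact fun D C₂ h => ⟨0, D, (zero_add _).symm, rfl, by simpa using h⟩
  | cons c C₁ ih =>
    intro D C₂ h
    rw [Multiset.cons_add] at h
    obtain ⟨a, ha, h1, h2⟩ := (Multiset.map_eq_cons f D _ c).2 h
    obtain ⟨D₁, D₂, e1, e2, e3⟩ := ih _ _ h2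
    refine ⟨a ::ₘ D₁, D₂, ?_, by rw [Multiset.map_cons, h1, e2], e3⟩
    rw [Multiset.cons_add, ← e1, Multiset.cons_erase ha]

theorem as_map_le {α β : Type} (f : α → β) {D : Multiset α} {C : Multiset β} (h : C ≤ D.map f) :
    ∃ D₁ ≤ D, D₁.map f = C := by
  obtain ⟨C₂, e⟩ := Multiset.le_iff_exists_add.1 h
  obtain ⟨D₁, D₂, e1, e2, -⟩ := as_map_split f C D C₂ e
  exact ⟨D₁, e1 ▸ Multiset.le_add_right _ _, e2⟩

theorem as_take {α : Type} (n : ℕ) : ∀ L : Multiset α, n ≤ Multiset.card L →
    ∃ D ≤ L, Multiset.card D = n := by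
  intro L
  induction L using Quotient.inductionOn with
  | _ l =>
    intro h
    refine ⟨(l.take n : List α), (List.take_sublist n l).subperm, ?_⟩
    simpa using h

/-- Disjoint parts of given sizes. -/
theorem as_parts {α ι : Type} (n : ι → ℕ) (s : Finset ι) : ∀ L : Multiset α,
    ∑ i ∈ s, n i ≤ Multiset.card L →
      ∃ f : ι → Multiset α, (∀ i ∈ s, Multiset.card (f i) = n i) ∧ ∑ i ∈ s, f i ≤ L := by
  induction s using Finset.induction_on with
  | empty => exact fun L _ => ⟨fun _ => 0, by simp, by simp⟩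
  | insert a s ha ih =>
    intro L h
    rw [sum_insert ha] at h
    obtain ⟨D, h1, h2⟩ := as_take (n a) L (by omega)
    obtain ⟨f, h3, h4⟩ := ih (L - D) (by rw [Multiset.card_sub h1]; omega)
    have e : ∀ i ∈ s, Function.update f a D i = f i := fun i hi =>
      Function.update_of_ne (ne_of_mem_of_not_mem hi ha) _ _
    refine ⟨Function.update f a D, fun i hi => ?_, ?_⟩
    · rcases mem_insert.1 hi with rfl | hi
      · rw [Function.update_self, h2]
      · rw [e i hi, h3 i hi]
    · rw [sum_insert ha, Function.update_self, sum_congr rfl e]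
      exact (add_le_add_right h4 D).trans (add_tsub_cancel_of_le h1).le

variable {G G' : Type} [AddCommGroup G] [Fintype G] [AddCommGroup G'] [Fintype G']
  {ab : G → G} {ab' : G' → G'}

theorem as_quot (K : AddSubgroup G) : ∃ (Q : Type) (_ : AddCommGroup Q) (_ : Fintype Q)
    (φ : G →+ Q), Function.Surjective φ ∧ φ.ker = K :=
  ⟨G ⧸ K, inferInstance, Fintype.ofFinite _, QuotientAddGroup.mk' K,
    QuotientAddGroup.mk'_surjective K, QuotientAddGroup.ker_mk' K⟩

/-- The fibre of a map as a multiset. -/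
noncomputable def fib (φ : G → G') (z : G') : Multiset G := (univ.filter fun x => φ x = z).val

/-- The coset of a point. -/
noncomputable def cst (K : AddSubgroup G) (x : G) : Finset G := univ.filter fun z => z - x ∈ K

@[simp] theorem mem_cst {K : AddSubgroup G} {x z : G} : z ∈ cst K x ↔ z - x ∈ K := by
  simp [cst]

/-- From every point there is a Hamiltonian path of its coset with colours `C`. -/
def Snake (ab : G → G) (K : AddSubgroup G) (C : Multiset G) : Prop :=
  ∀ x, ∃ y, y - x ∈ K ∧ Pth ab x y (cst K x).val C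

theorem as_bind (φ : G → G') (S : Finset G') :
    S.val.bind (fib φ) = (univ.filter fun x => φ x ∈ S).val := by
  induction S using Finset.induction_on with
  | empty => simp
  | insert a S ha ih =>
    rw [insert_val_of_notMem ha, Multiset.cons_bind, ih, fib, ← disjUnion_val _ _
      (disjoint_filter.2 fun x _ (h1 : φ x = a) (h2 : φ x ∈ S) => ha (h1 ▸ h2))]
    congr 1
    ext x
    simp

theorem as_coset_card (K : AddSubgroup G) (x : G) :
    (cst K x).card = Nat.card K := by
  rw [Nat.card_eq_fintype_card, Fintype.card_subtype]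
  exact card_bij (fun z _ => z - x) (fun z hz => by simpa using hz)
    (fun _ _ _ _ e => sub_left_injective e) fun y hy => ⟨y + x, by simpa using hy, by simp⟩

theorem Snake.card {K : AddSubgroup G} {C : Multiset G} (h : Snake ab K C) :
    Multiset.card C + 1 = Nat.card K := by
  obtain ⟨y, -, h1⟩ := h 0
  rw [← h1.card, card_val, as_coset_card]

theorem as_fib_eq (φ : G →+ G') (x : G) :
    fib φ (φ x) = (cst φ.ker x).val := by
  rw [fib]
  congr 1
  ext z
  simp [sub_eq_zero]

theorem as_pre_card {φ : G →+ G'} (hφ : Function.Surjective φ) (S : Finset G') :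
    (univ.filter fun x => φ x ∈ S).card = S.card * Nat.card φ.ker := by
  rw [← card_val, ← as_bind, Multiset.card_bind, Multiset.map_congr rfl
    (g := fun _ => Nat.card φ.ker) fun z _ => ?_]
  · simp
  · obtain ⟨x, rfl⟩ := hφ z
    rw [Function.comp_apply, as_fib_eq, card_val, as_coset_card]

theorem as_card_eq {φ : G →+ G'} (hφ : Function.Surjective φ) :
    Fintype.card G = Fintype.card G' * Nat.card φ.ker := by
  simpa using as_pre_card hφ univ

theorem as_lift_pth (φ : G →+ G') (H : Ab ab) (H' : Ab ab') {C0 : Multiset G}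
    (hs : Snake ab φ.ker C0) {a b : G'} {V C : Multiset G'} (h : Pth ab' a b V C) :
    ∀ D : Multiset G, (∀ c ∈ D, ab c = c) → D.map (fun c => ab' (φ c)) = C → ∀ x, φ x = a →
      ∃ y, φ y = b ∧ Pth ab x y (V.bind (fib φ)) (D + Multiset.card V • C0) := by
  induction h with
  | one a =>
    rintro D - hD x rfl
    obtain ⟨y, h1, h2⟩ := hs x
    rw [AddMonoidHom.mem_ker, map_sub, sub_eq_zero] at h1
    rw [Multiset.map_eq_zero.1 hD]
    exact ⟨y, h1, h2.cast (by simp [as_fib_eq]) (by simp)⟩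
  | @cons a z b V C _ ih =>
    rintro D hD hC x rfl
    obtain ⟨c, hc, h1, h2⟩ := (Multiset.map_eq_cons _ D _ _).2 hC
    obtain ⟨y, h3, h4⟩ := hs x
    rw [AddMonoidHom.mem_ker, map_sub, sub_eq_zero] at h3
    obtain ⟨c', h5, h6⟩ : ∃ c', ab c' = c ∧ φ c' = z - φ x := by
      rcases H'.eq_or h1 with e | e
      · exact ⟨c, hD c hc, e⟩
      · exact ⟨-c, by rw [H.neg, hD c hc], by rw [map_neg, e, neg_neg]⟩
    obtain ⟨y', h7, h8⟩ := ih (D.erase c) (fun d hd => hD d (Multiset.mem_of_mem_erase hd)) h2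
      (y + c') (by rw [map_add, h3, h6, add_sub_cancel])
    refine ⟨y', h7, (h4.join h8).cast (by rw [Multiset.cons_bind, as_fib_eq]) ?_⟩
    rw [add_sub_cancel_left, h5, Multiset.card_cons, succ_nsmul]
    conv_rhs => rw [← Multiset.cons_erase hc]
    simp only [← Multiset.singleton_add]
    abel

theorem as_lift_sys {φ : G →+ G'} (hφ : Function.Surjective φ) (H : Ab ab) (H' : Ab ab')
    {C0 : Multiset G} (hs : Snake ab φ.ker C0) (n : ℕ) : ∀ (V C : Multiset G'), Sys ab' n V C →
    ∀ D : Multiset G, (∀ c ∈ D, ab c = c) → D.map (fun c => ab' (φ c)) = C →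
      Sys ab n (V.bind (fib φ)) (D + Multiset.card V • C0) := by
  induction n with
  | zero =>
    intro V C h D _ hD
    obtain ⟨rfl, rfl⟩ := h.eq_zero
    rw [Multiset.map_eq_zero.1 hD]
    exact Sys.zero.cast rfl (by simp) (by simp)
  | succ n ih =>
    intro V C h D hD hC
    obtain ⟨a, b, V₁, C₁, V₂, C₂, h1, h2, rfl, rfl⟩ := h.succ
    obtain ⟨D₁, D₂, rfl, e1, e2⟩ := as_map_split _ _ _ _ hC
    obtain ⟨x, hx⟩ := hφ a
    obtain ⟨y, -, h3⟩ := as_lift_pth φ H H' hs h1 D₁
      (fun c hc => hD c (Multiset.mem_add.2 (Or.inl hc))) e1 x hx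
    refine (h3.sys.add (ih V₂ C₂ h2 D₂ (fun c hc => hD c (Multiset.mem_add.2 (Or.inr hc)))
      e2)).cast (add_comm _ _) (Multiset.add_bind _ _ _).symm ?_
    rw [Multiset.card_add, add_nsmul]
    abel

theorem as_line (a : G) (j : ℕ) : ∀ x, Pth ab x (x + j • a)
    ((range (j + 1)).val.map fun t => x + t • a) (Multiset.replicate j (ab a)) := by
  induction j with
  | zero => exact fun x => by simpa using Pth.one x
  | succ j ih =>
    intro x
    have h := (ih x).join (Pth.one (x + (j + 1) • a))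
    refine h.cast ?_ ?_
    · rw [range_val, range_val, Multiset.range_succ (j + 1), Multiset.map_cons, add_comm,
        Multiset.singleton_add]
    · rw [add_zero, Multiset.replicate_succ, succ_nsmul, ← add_assoc, add_sub_cancel_left]

theorem as_line_set (a x : G) : ((range (addOrderOf a)).val.map fun t => x + t • a) =
    (cst (AddSubgroup.zmultiples a) x).val := by
  refine (Multiset.Nodup.ext (Multiset.Nodup.map_on (fun i hi j hj e => ?_) (range _).nodup)
    (Finset.nodup _)).2 fun z => ?_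
  · exact nsmul_injOn_Iio_addOrderOf (Set.mem_Iio.2 (mem_range.1 hi))
      (Set.mem_Iio.2 (mem_range.1 hj)) (add_left_cancel e)
  · simp only [Multiset.mem_map, mem_val, mem_cst,
      mem_zmultiples_iff_mem_range_addOrderOf, mem_image]
    exact exists_congr fun t => and_congr_right fun _ => eq_sub_iff_add_eq'.symm

theorem snake_bot : Snake ab ⊥ 0 := fun x =>
  ⟨x, by simp, (Pth.one x).cast (by
    rw [show cst ⊥ x = {x} from Finset.ext fun z => by simp [sub_eq_zero], singleton_val]) rfl⟩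

theorem as_mem_sup (φ : G →+ G') (a z : G) :
    φ z ∈ AddSubgroup.zmultiples (φ a) ↔ z ∈ φ.ker ⊔ AddSubgroup.zmultiples a := by
  rw [sup_comm, ← AddSubgroup.comap_map_eq, AddMonoidHom.map_zmultiples, AddSubgroup.mem_comap]

theorem as_sup_card {φ : G →+ G'} (hφ : Function.Surjective φ) (a : G) :
    Nat.card (φ.ker ⊔ AddSubgroup.zmultiples a : AddSubgroup G) =
      addOrderOf (φ a) * Nat.card φ.ker := by
  rw [← as_coset_card _ 0, ← Nat.card_zmultiples, ← as_coset_card (AddSubgroup.zmultiples _) 0,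
    ← as_pre_card hφ]
  congr 1
  ext z
  simp [as_mem_sup]

theorem Snake.step (H : Ab ab) {K : AddSubgroup G} {C : Multiset G} (hs : Snake ab K C) {a : G}
    (ha : ab a = a) : ∃ q : ℕ, Nat.card (K ⊔ AddSubgroup.zmultiples a : AddSubgroup G) =
      (q + 1) * Nat.card K ∧
      Snake ab (K ⊔ AddSubgroup.zmultiples a) (Multiset.replicate q a + (q + 1) • C) := by
  obtain ⟨Q, _, _, φ, hφ, rfl⟩ := as_quot K
  obtain ⟨ab', H'⟩ := as_exists_ab Q
  obtain ⟨q, hq⟩ : ∃ q, addOrderOf (φ a) = q + 1 :=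
    Nat.exists_eq_succ_of_ne_zero (addOrderOf_pos _).ne'
  refine ⟨q, by rw [as_sup_card hφ, hq], fun x => ?_⟩
  obtain ⟨y, h1, h2⟩ := as_lift_pth φ H H' hs (as_line (φ a) q (φ x)) (Multiset.replicate q a)
    (fun c hc => by rw [Multiset.eq_of_mem_replicate hc, ha]) (by simp) x rfl
  refine ⟨y, ?_, h2.cast ?_ (by simp)⟩
  · rw [← as_mem_sup, map_sub, h1, add_sub_cancel_left]
    exact AddSubgroup.nsmul_mem_zmultiples _ _
  · rw [← hq, as_line_set, as_bind]
    congr 1
    ext z
    simp only [mem_filter, mem_univ, true_and, mem_cst, ← map_sub, as_mem_sup]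

theorem as_lam (a : G) : ∃ lam : G → ZMod (addOrderOf a), ∀ x, lam (x + a) = lam x + 1 := by
  obtain ⟨Q, _, _, φ, hφ, hk⟩ := as_quot (AddSubgroup.zmultiples a)
  have h : ∀ x, ∃ t : ℤ, t • a = x - Function.surjInv hφ (φ x) := fun x => by
    rw [← AddSubgroup.mem_zmultiples_iff, ← hk, AddMonoidHom.mem_ker, map_sub,
      Function.surjInv_eq hφ, sub_self]
  choose t ht using h
  have h0 : φ a = 0 := by
    rw [← AddMonoidHom.mem_ker, hk]
    exact AddSubgroup.mem_zmultiples a
  refine ⟨fun x => t x, fun x => ?_⟩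
  have h1 : t (x + a) • a = (t x + 1) • a := by
    rw [add_zsmul, one_zsmul, ht, ht, map_add, h0, add_zero]
    abel
  have h2 := (ZMod.intCast_eq_intCast_iff _ _ _).2 (zsmul_eq_zsmul_iff_modEq.1 h1)
  simpa using h2

/-- Paths of one colour that cover a set. -/
theorem as_one (a : G) (U : Finset G) : ∃ n k, Sys ab n U.val (Multiset.replicate k (ab a)) ∧
    (n : ℝ) ≤ (U.filter fun x => x + a ∉ U).card + (Fintype.card G : ℝ) / addOrderOf a := by
  obtain ⟨lam, hl⟩ := as_lam a
  have : NeZero (addOrderOf a) := ⟨(addOrderOf_pos a).ne'⟩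
  have hM : (0 : ℝ) < addOrderOf a := Nat.cast_pos.2 (addOrderOf_pos a)
  obtain ⟨k, -, hk⟩ : ∃ k ∈ (univ : Finset (ZMod (addOrderOf a))),
      ((univ.filter fun x => lam (x + a) = k).card : ℝ) ≤ (Fintype.card G : ℝ) / addOrderOf a := by
    refine exists_le_of_sum_le univ_nonempty (le_of_eq ?_)
    rw [← Nat.cast_sum, ← card_eq_sum_card_fiberwise fun i _ => mem_univ _, sum_const, card_univ,
      card_univ, ZMod.card, nsmul_eq_mul, mul_div_cancel₀ _ hM.ne']
  obtain ⟨n, hn⟩ := arc (ab := ab) (fun x : G => x) (fun x => x + a) (fun x => (lam x - k).val) U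
    (U.filter fun x => x + a ∈ U ∧ lam (x + a) ≠ k) (fun _ _ _ _ h => h)
    (fun _ _ _ _ h => add_right_cancel h)
    (fun x hx => ⟨(mem_filter.1 hx).1, (mem_filter.1 hx).2.1⟩) fun x hx => by
      have h4 := sub_ne_zero.2 (mem_filter.1 hx).2.2
      rw [hl, ← sub_add_eq_add_sub] at h4 ⊢
      exact mlround_val h4
  refine ⟨n, (U.filter fun x => x + a ∈ U ∧ lam (x + a) ≠ k).card, hn.cast rfl rfl ?_, ?_⟩
  · simp only [add_sub_cancel_left, Multiset.map_const', card_val]
  · have h1 := hn.card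
    rw [Multiset.card_map, card_val, card_val] at h1
    have h2 := card_filter_add_card_filter_not (s := U) fun x => x + a ∈ U ∧ lam (x + a) ≠ k
    have h3 : (U.filter fun x => ¬(x + a ∈ U ∧ lam (x + a) ≠ k)).card ≤
        (U.filter fun x => x + a ∉ U).card + (univ.filter fun x => lam (x + a) = k).card := by
      refine (card_le_card fun x hx => ?_).trans (card_union_le _ _)
      simp only [mem_filter, mem_union, mem_univ, true_and] at hx ⊢
      tauto
    have h4 : (n : ℝ) ≤ (U.filter fun x => x + a ∉ U).card +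
        (univ.filter fun x => lam (x + a) = k).card := by exact_mod_cast (by omega)
    linarith

theorem as_sys_sum {ι : Type} (s : Finset ι) (V C : ι → Multiset G)
    (h : ∀ i ∈ s, ∃ n, Sys ab n (V i) (C i)) : ∃ n, Sys ab n (∑ i ∈ s, V i) (∑ i ∈ s, C i) := by
  induction s using Finset.induction_on with
  | empty => exact ⟨0, Sys.zero⟩
  | insert a s ha ih =>
    obtain ⟨n, h1⟩ := h a (mem_insert_self _ _)
    obtain ⟨n', h2⟩ := ih fun i hi => h i (mem_insert_of_mem hi)
    rw [sum_insert ha, sum_insert ha]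
    exact ⟨_, h1.add h2⟩

/-- Joining all walks of a system. -/
theorem as_join (n : ℕ) : ∀ V C : Multiset G, Sys ab (n + 1) V C →
    ∃ a b C', Pth ab a b V C' ∧ C ≤ C' := by
  induction n with
  | zero =>
    intro V C h
    obtain ⟨a, b, V₁, C₁, V₂, C₂, h1, h2, rfl, rfl⟩ := h.succ
    obtain ⟨rfl, rfl⟩ := h2.eq_zero
    exact ⟨a, b, _, h1.cast (add_zero _).symm rfl, (add_zero _).le⟩
  | succ n ih =>
    intro V C h
    obtain ⟨a, b, V₁, C₁, V₂, C₂, h1, h2, rfl, rfl⟩ := h.succ
    obtain ⟨a', b', C', h3, h4⟩ := ih _ _ h2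
    exact ⟨a, b', _, h1.join h3, (add_le_add_right h4 _).trans (Multiset.le_cons_self _ _)⟩

theorem as_card_sup (K K' : AddSubgroup G) :
    Nat.card (K ⊔ K' : AddSubgroup G) ≤ Nat.card K * Nat.card K' := by
  rw [← Nat.card_prod]
  refine Nat.card_le_card_of_surjective (fun p : K × K' => (⟨p.1 + p.2,
    AddSubgroup.add_mem_sup p.1.2 p.2.2⟩ : (K ⊔ K' : AddSubgroup G))) ?_
  rintro ⟨x, hx⟩
  obtain ⟨y, hy, z, hz, rfl⟩ := AddSubgroup.mem_sup.1 hx
  exact ⟨(⟨y, hy⟩, ⟨z, hz⟩), rfl⟩

theorem as_card_fsup {ι : Type} (s : Finset ι) (K : ι → AddSubgroup G) {T : ℕ}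
    (h : ∀ i, Nat.card (K i) ≤ T) : Nat.card (s.sup K : AddSubgroup G) ≤ T ^ s.card := by
  induction s using Finset.induction_on with
  | empty => simp
  | insert a s ha ih =>
    rw [sup_insert, card_insert_of_notMem ha, pow_succ']
    exact (as_card_sup _ _).trans (Nat.mul_le_mul (h a) ih)

/-- Pieces that are unions of cosets of a small subgroup. -/
theorem as_carve (k M : ℕ) {ε : ℝ} (hε : 0 < ε) : ∃ T : ℕ, 1 ≤ T ∧
    ∀ (G : Type) [AddCommGroup G] [Fintype G] (Hv : Finset G) (K : AddSubgroup G), Hv.card ≤ k →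
      Nat.card K ≤ M → ∃ (P : Type) (_ : Fintype P) (pc : G → P) (Δ : Finset G), Δ.card ≤ T ∧
        (∀ x y, pc x = pc y → x - y ∈ Δ) ∧ (∀ x y, x - y ∈ K → pc x = pc y) ∧
        ∀ a ∈ Hv, ((univ.filter fun x => pc (x + a) ≠ pc x).card : ℝ) ≤ ε * Fintype.card G := by
  obtain ⟨T, hT, h⟩ := carve k hε
  refine ⟨T * (M + 1), Nat.mul_pos hT M.succ_pos, fun G _ _ Hv K hk hK => ?_⟩
  obtain ⟨Q, _, _, φ, hφ, rfl⟩ := as_quot K
  obtain ⟨pc, Δ, h1, h2, h3⟩ := h Q (Hv.image φ) (card_image_le.trans hk)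
  refine ⟨Q, inferInstance, fun x => pc (φ x), univ.filter fun x => φ x ∈ Δ, ?_, fun x y e => ?_,
    fun x y e => ?_, fun a ha => ?_⟩
  · rw [as_pre_card hφ]
    exact Nat.mul_le_mul h1 (by omega)
  · simpa using h2 _ _ e
  · rw [AddMonoidHom.mem_ker, map_sub, sub_eq_zero] at e
    simp only [e]
  · have h4 := as_pre_card hφ (univ.filter fun z => pc (z + φ a) ≠ pc z)
    simp only [mem_filter, mem_univ, true_and, ← map_add] at h4
    rw [h4, as_card_eq hφ, Nat.cast_mul, Nat.cast_mul, ← mul_assoc]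
    exact mul_le_mul_of_nonneg_right (h3 _ (mem_image_of_mem _ ha)) (Nat.cast_nonneg _)

end Pool.Agent.Lib.MP_7ae50b_co.ML
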