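import Pool.Agent.Lib.MP_7ae50b_co.AsCore

set_option autoImplicit false
set_option linter.unusedSectionVars false

/-! The asymptotic theorem for finite abelian groups and for `ZMod v`. -/

namespace Pool.Agent.Lib.MP_7ae50b_co.ML

open Finset
open scoped Classical

theorem as_scale {G : Type} [AddCommGroup G] [Fintype G] (Z : Multiset G) {δ : ℝ} (h0 : 0 ≤ δ)
    (h1 : δ ≤ 1) : ∃ X ≤ Z, (∀ H : AddSubgroup G, (Multiset.card (X.filter (· ∈ H)) : ℝ) ≤
      δ * Multiset.card (Z.filter (· ∈ H))) ∧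
      δ * Multiset.card Z ≤ Multiset.card X + Z.toFinset.card := by
  obtain ⟨X, hX⟩ : ∃ X : Multiset G, ∀ c, X.count c = ⌊δ * Z.count c⌋₊ :=
    ⟨∑ a, Multiset.replicate ⌊δ * Z.count a⌋₊ a, fun c => by
      simp [Multiset.count_sum', Multiset.count_replicate]⟩
  have h2 : ∀ c, (X.count c : ℝ) ≤ δ * Z.count c := fun c => hX c ▸ Nat.floor_le (by positivity)
  have h3 : X ≤ Z := Multiset.le_iff_count.2 fun c =>
    Nat.cast_le.1 ((h2 c).trans (mul_le_of_le_one_left (Nat.cast_nonneg _) h1))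
  refine ⟨X, h3, fun H => ?_, ?_⟩
  · rw [as_card_filter, as_card_filter, Nat.cast_sum, Nat.cast_sum, mul_sum]
    exact sum_le_sum fun c _ => h2 c
  · rw [← Multiset.toFinset_sum_count_eq Z, ← Multiset.sum_count_eq_card (s := Z.toFinset)
      fun a ha => Multiset.mem_toFinset.2 (Multiset.mem_of_le h3 ha), Nat.cast_sum, Nat.cast_sum,
      mul_sum, card_eq_sum_ones, Nat.cast_sum, ← sum_add_distrib]
    exact sum_le_sum fun c _ => by simpa [hX] using (Nat.lt_floor_add_one _).le

theorem as_group {ε : ℝ} (hε : 0 < ε) (hε1 : ε ≤ 1) : ∃ N : ℕ,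
    ∀ (G : Type) [AddCommGroup G] [Fintype G] (ab : G → G) (L₀ Z : Multiset G), Ab ab →
      N ≤ Fintype.card G → (∀ c ∈ L₀ + Z, ab c = c ∧ c ≠ 0) →
      (∀ H : AddSubgroup G, (Multiset.card ((L₀ + Z).filter (· ∈ H)) : ℝ) ≤
        Fintype.card G * (1 - 1 / Nat.card H)) →
      (∀ H : AddSubgroup G, (Multiset.card (L₀.filter (· ∈ H)) : ℝ) ≤
        (1 - ε) * (Fintype.card G * (1 - 1 / Nat.card H))) →
      ∃ a b C B, Pth ab a b univ.val C ∧ L₀ ≤ C ∧ L₀ + Z ≤ B + C ∧
        (Multiset.card B : ℝ) ≤ ε * Fintype.card G := by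
  obtain ⟨τ, hτ, ht⟩ : ∃ τ : ℝ, 0 < τ ∧ 14 * τ = (ε ^ 2 / 2) ^ 2 :=
    ⟨(ε ^ 2 / 2) ^ 2 / 14, by positivity, by ring⟩
  have e1 : ε ^ 2 ≤ ε := pow_le_of_le_one hε.le hε1 two_ne_zero
  have e2 : (ε ^ 2 / 2) ^ 2 ≤ ε ^ 2 / 2 := pow_le_of_le_one (by positivity) (by linarith) two_ne_zero
  obtain ⟨J, hJ⟩ := exists_nat_gt (1 / τ)
  have hJ0 : 0 < J := Nat.cast_pos.1 (lt_trans (by positivity) hJ)
  rw [div_lt_iff₀' hτ] at hJ
  choose F hF using as_core hτ (by linarith)
  obtain ⟨N, hN⟩ := pig hJ0 F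
  refine ⟨(N + 1) * J, fun G _ _ ab L₀ Z H hv hab h1 h2 => ?_⟩
  have hv0 : (0 : ℝ) < Fintype.card G := by exact_mod_cast Fintype.card_pos
  have b1 : ∀ H : AddSubgroup G, (Fintype.card G : ℝ) * (1 - 1 / Nat.card H) < Fintype.card G :=
    fun H => mul_lt_of_lt_one_right hv0 (sub_lt_self _ (one_div_pos.2 (as_kpos H)))
  have top : ∀ W : Multiset G, W.filter (· ∈ (⊤ : AddSubgroup G)) = W := fun W =>
    Multiset.filter_eq_self.2 fun _ _ => AddSubgroup.mem_top _
  have b2 := (h1 ⊤).trans_lt (b1 ⊤)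
  have b3 := (h2 ⊤).trans (mul_le_mul_of_nonneg_left (b1 ⊤).le (by linarith))
  rw [top] at b2 b3
  have b4 : Multiset.card (L₀ + Z) < Fintype.card G := by exact_mod_cast b2
  obtain ⟨K, k1, k2, k3⟩ := hN G (L₀ + Z) _ b4.le
  obtain ⟨p, hp⟩ : ∃ p : G → Prop, p = fun c => Fintype.card G ≤ K * (L₀ + Z).count c := ⟨_, rfl⟩
  obtain ⟨q, hq⟩ : ∃ q : G → Prop, q = fun c => K * (L₀ + Z).count c < Fintype.card G ∧
    F K * (L₀ + Z).count c ≤ Fintype.card G := ⟨_, rfl⟩
  obtain ⟨m, hm⟩ : ∃ m : G → Prop, m = fun c => Fintype.card G < F K * (L₀ + Z).count c ∧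
    K * (L₀ + Z).count c < Fintype.card G := ⟨_, rfl⟩
  have sp : ∀ W : Multiset G, W = W.filter p + W.filter q + W.filter m := fun W => by
    ext c
    rw [Multiset.count_add, Multiset.count_add]
    simp only [Multiset.count_filter, hp, hq, hm]
    split_ifs <;> omega
  have b5 : (Multiset.card (L₀.filter m) + Multiset.card (Z.filter m) : ℝ) ≤ τ * Fintype.card G := by
    have a1 : (J : ℝ) * (Multiset.card (L₀.filter m) + Multiset.card (Z.filter m)) ≤
        Fintype.card G := by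
      rw [← Nat.cast_add, ← Multiset.card_add, ← Multiset.filter_add, hm]
      exact_mod_cast le_of_eq_of_le (by congr) k3
    linarith [mul_le_mul_of_nonneg_left a1 hτ.le, mul_le_mul_of_nonneg_right hJ.le
      (show (0 : ℝ) ≤ Multiset.card (L₀.filter m) + Multiset.card (Z.filter m) by positivity)]
  have b6 : ((L₀ + Z).toFinset.filter p).card ≤ K :=
    core_few _ b4 _ fun c hc => by simpa only [hp] using (mem_filter.1 hc).2
  have b7 : (K + 1 : ℝ) ≤ τ * Fintype.card G := by
    have a1 : (K + 1 : ℝ) * J ≤ Fintype.card G := by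
      exact_mod_cast (Nat.mul_le_mul_right _ (Nat.succ_le_succ k2)).trans hv
    linarith [mul_le_mul_of_nonneg_left a1 hτ.le, mul_le_mul_of_nonneg_left hJ.le
      (show (0 : ℝ) ≤ K + 1 by positivity)]
  obtain ⟨X, x1, x2, x3⟩ := as_scale (Z.filter p) (δ := 1 - ε / 2) (by linarith) (by linarith)
  have y0 := Nat.floor_le (show 0 ≤ (1 - ε / 2) * Multiset.card (Z.filter q) from
    mul_nonneg (by linarith) (Nat.cast_nonneg _))
  obtain ⟨Y, y1, y2⟩ := as_take ⌊(1 - ε / 2) * Multiset.card (Z.filter q)⌋₊ (Z.filter q)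
    (Nat.cast_le.1 (y0.trans (mul_le_of_le_one_left (Nat.cast_nonneg _) (by linarith))))
  have y3 := Nat.lt_floor_add_one ((1 - ε / 2) * Multiset.card (Z.filter q))
  rw [← y2] at y0 y3
  have w1 : L₀.filter p + X ≤ (L₀ + Z).filter p := by
    rw [Multiset.filter_add]
    exact add_le_add_right x1 _
  have w2 : L₀.filter q + Y ≤ (L₀ + Z).filter q := by
    rw [Multiset.filter_add]
    exact add_le_add_right y1 _
  have c1 : (Multiset.card L₀ : ℝ) = Multiset.card (L₀.filter p) + Multiset.card (L₀.filter q) +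
      Multiset.card (L₀.filter m) := by exact_mod_cast by simpa using congrArg Multiset.card (sp L₀)
  have c2 : (Multiset.card Z : ℝ) = Multiset.card (Z.filter p) + Multiset.card (Z.filter q) +
      Multiset.card (Z.filter m) := by exact_mod_cast by simpa using congrArg Multiset.card (sp Z)
  have c3 : (0 : ℝ) ≤ Multiset.card (L₀.filter m) := Nat.cast_nonneg _
  have c4 : (0 : ℝ) ≤ Multiset.card (Z.filter m) := Nat.cast_nonneg _
  have c5 : 0 ≤ 1 - ε / 2 := by linarith
  rw [Multiset.card_add, Nat.cast_add] at b2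
  obtain ⟨R, n, V, C, r1, r2, r3, r4⟩ := hF K G ab (ε ^ 2 / 2) ((L₀ + Z).toFinset.filter p)
    (L₀.filter p + X) (L₀.filter q + Y) H (k1.trans (le_trans (by nlinarith) hv)) (by positivity)
    (by linarith) b6 (fun a ha => (hab a (Multiset.mem_toFinset.1 (mem_filter.1 ha).1)).1)
    (fun c hc => let h := Multiset.mem_filter.1 (Multiset.mem_of_le w1 hc)
      mem_filter.2 ⟨Multiset.mem_toFinset.2 h.1, h.2⟩)
    (fun c hc => (hab c (Multiset.mem_of_le (w2.trans (Multiset.filter_le _ _)) hc)).1)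
    (fun c => (Nat.mul_le_mul_left _ (Multiset.count_le_of_le c w2)).trans (by
      rw [Multiset.count_filter]
      split_ifs with h
      · exact (hq ▸ h).2
      · exact Nat.zero_le _))
    (fun H' => by
      have a1 := h1 H'
      have a2 : ∀ W : Multiset G, (Multiset.card ((W.filter p).filter (· ∈ H')) : ℝ) ≤
          Multiset.card (W.filter (· ∈ H')) := fun W => Nat.cast_le.2
        (Multiset.card_le_card (Multiset.filter_le_filter _ (Multiset.filter_le _ _)))
      rw [Multiset.filter_add, Multiset.card_add, Nat.cast_add] at a1 ⊢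
      linarith [a2 L₀, x2 H', mul_le_mul_of_nonneg_left (a2 Z) c5, mul_le_mul_of_nonneg_left a1 c5,
        mul_le_mul_of_nonneg_left (h2 H') hε.le])
    (by
      have a1 := x2 ⊤
      rw [top, top] at a1
      simp only [Multiset.card_add, Nat.cast_add]
      linarith [mul_le_mul_of_nonneg_left (c2 ▸ b2.le) c5, mul_le_mul_of_nonneg_left b3 hε.le,
        mul_nonneg c5 c4])
  have j1 : (Multiset.card (L₀ - C) : ℝ) ≤ 3 * τ * Fintype.card G := by
    have a1 : L₀ - C ≤ L₀.filter p + X + (L₀.filter q + Y) - C + L₀.filter m := by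
      refine le_trans (tsub_le_tsub_right ((sp L₀).trans_le (add_le_add_left (add_le_add
        (Multiset.le_add_right _ _) (Multiset.le_add_right _ _)) _)) _) add_tsub_le_tsub_add
    have a2 := Nat.cast_le (α := ℝ).2 (Multiset.card_le_card a1)
    rw [Multiset.card_add, Nat.cast_add] at a2
    linarith
  obtain ⟨I, i1, -, i2⟩ := junk (ab := ab) (pairP_of (S := R) (φ := 2 * Multiset.card (L₀ - C))
    fun c => Nat.cast_lt (α := ℝ).1 (by
      have := r4 c
      rw [← ht] at this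
      push_cast
      linarith [mul_pos hτ hv0])) (L₀ - C)
    (fun c hc => hab c (Multiset.mem_of_le (tsub_le_self.trans (Multiset.le_add_right _ _)) hc))
    le_rfl
  have i3 : I ≤ R.val := (Multiset.le_iff_subset i1.1).2 fun x hx => (i1.2 x hx).1
  have s1 := ((Sys.singles (R.val - I)).add i2).add r2
  rw [tsub_add_cancel_of_le i3, r1, zero_add] at s1
  generalize Multiset.card (R.val - I) + Multiset.card (L₀ - C) + n = n' at s1
  cases n' with
  | zero => exact absurd (val_eq_zero.1 s1.eq_zero.1) univ_nonempty.ne_empty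
  | succ n' =>
    obtain ⟨a, b, C', s2, s3⟩ := as_join _ _ _ s1
    refine ⟨a, b, C', _, s2, le_tsub_add.trans s3, le_tsub_add, ?_⟩
    have w3 : L₀.filter p + X + (L₀.filter q + Y) ≤ L₀ + Z := (add_le_add w1 w2).trans
      ((Multiset.le_add_right _ _).trans (sp _).ge)
    have a1 : L₀ + Z - C' ≤ L₀.filter p + X + (L₀.filter q + Y) - C +
        (L₀ + Z - (L₀.filter p + X + (L₀.filter q + Y))) :=
      (tsub_le_tsub (add_tsub_cancel_of_le w3).ge ((Multiset.le_add_left _ _).trans s3)).trans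
        add_tsub_le_tsub_add
    have a2 := Nat.cast_le (α := ℝ).2 (Multiset.card_le_card a1)
    rw [Multiset.card_add, Nat.cast_add, Multiset.card_sub w3,
      Nat.cast_sub (Multiset.card_le_card w3)] at a2
    simp only [Multiset.card_add, Nat.cast_add] at a2
    have a3 : ((Z.filter p).toFinset.card : ℝ) ≤ K := Nat.cast_le.2 (le_trans (card_le_card
      fun c hc => by simp at hc; simp [hc]) b6)
    have a4 : (Multiset.card (Z.filter p) + Multiset.card (Z.filter q) : ℝ) ≤ Fintype.card G := by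
      linarith [(Nat.cast_nonneg (Multiset.card L₀) : (0 : ℝ) ≤ _)]
    linarith [mul_le_mul_of_nonneg_left a4 hε.le, mul_pos hτ hv0,
      mul_le_mul_of_nonneg_right (show 14 * τ ≤ ε / 2 by linarith) hv0.le]

theorem as_zsub {v : ℕ} [NeZero v] (H : AddSubgroup (ZMod v)) : ∃ d : ℕ, d ∣ v ∧
    (Fintype.card (ZMod v) : ℝ) * (1 - 1 / Nat.card H) = (v - d : ℕ) ∧
    ∀ L : Multiset ℕ, Multiset.card ((L.map (Nat.cast : ℕ → ZMod v)).filter (· ∈ H)) ≤
      Multiset.card (L.filter (d ∣ ·)) := by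
  have h1 : Nat.card H * H.index = v := by rw [H.card_mul_index, Nat.card_zmod]
  have h2 : H.index ∣ v := Dvd.intro_left _ h1
  refine ⟨H.index, h2, ?_, fun L => ?_⟩
  · have := as_kpos H
    have h3 : (v : ℝ) = Nat.card H * H.index := by exact_mod_cast h1.symm
    rw [ZMod.card, Nat.cast_sub (Nat.le_of_dvd (NeZero.pos v) h2), h3]
    field_simp
  · rw [Multiset.filter_map, Multiset.card_map]
    refine Multiset.card_le_card (Multiset.monotone_filter_right _ fun x hx => ?_)
    have h3 := congrArg Subtype.val (card_nsmul_eq_zero' (x := (⟨x, hx⟩ : H)))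
    rw [AddSubgroup.coe_nsmul, AddSubgroup.coe_zero, nsmul_eq_mul, ← Nat.cast_mul,
      ZMod.natCast_eq_zero_iff] at h3
    exact Nat.dvd_of_mul_dvd_mul_left Nat.card_pos (h1.dvd.trans h3)

theorem as_main (n : ℕ) : ∃ N : ℕ, ∀ (v : ℕ) (L L₀ : Multiset ℕ), N ≤ v →
    (∀ x ∈ L, 1 ≤ x ∧ x ≤ v / 2) →
    (∀ d : ℕ, d ∣ v → Multiset.card (L.filter fun x => d ∣ x) ≤ v - d) → L₀ ≤ L →
    (∀ d : ℕ, d ∣ v → (n + 1) * Multiset.card (L₀.filter fun x => d ∣ x) ≤ n * (v - d)) →
    ∃ P : List ℕ, P.Perm (List.range v) ∧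
      L₀ ≤ Multiset.ofList
        (List.zipWith (fun a b => min (a - b + (b - a)) (v - (a - b + (b - a)))) P P.tail) ∧
      (n + 1) * Multiset.card (L - Multiset.ofList
        (List.zipWith (fun a b => min (a - b + (b - a)) (v - (a - b + (b - a)))) P P.tail)) ≤ v := by
  have hn : (0 : ℝ) < n + 1 := by positivity
  obtain ⟨N, hN⟩ := as_group (ε := 1 / (n + 1)) (by positivity)
    ((div_le_one hn).2 (by linarith [(Nat.cast_nonneg n : (0 : ℝ) ≤ n)]))
  refine ⟨N + 1, fun v L L₀ hv hx h1 hL h2 => ?_⟩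
  have : NeZero v := ⟨by omega⟩
  obtain ⟨Z, rfl⟩ := Multiset.le_iff_exists_add.1 hL
  have hval : ∀ x ∈ L₀ + Z, (x : ZMod v).val = x := fun x h =>
    ZMod.val_cast_of_lt (by have := hx x h; omega)
  obtain ⟨a, b, C, B, hp, c1, c3, c2⟩ := hN (ZMod v) (zab v) (L₀.map Nat.cast) (Z.map Nat.cast) zab_ab
    (by rw [ZMod.card]; omega)
    (fun c hc => by
      rw [← Multiset.map_add] at hc
      obtain ⟨x, h, rfl⟩ := Multiset.mem_map.1 hc
      refine ⟨if_pos (by rw [hval x h]; exact (hx x h).2), fun e => ?_⟩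
      have := hval x h
      rw [e, ZMod.val_zero] at this
      have := (hx x h).1
      omega)
    (fun H => by
      obtain ⟨d, d1, d2, d3⟩ := as_zsub H
      rw [d2, ← Multiset.map_add]
      exact_mod_cast (d3 _).trans (h1 d d1))
    (fun H => by
      obtain ⟨d, d1, d2, d3⟩ := as_zsub H
      rw [d2, show (1 - 1 / (n + 1) : ℝ) = n / (n + 1) by field_simp; ring, div_mul_eq_mul_div,
        le_div_iff₀' hn]
      exact_mod_cast (Nat.mul_le_mul_left _ (d3 _)).trans (h2 d d1))
  obtain ⟨l, l1, l2⟩ := hp.exists_list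
  have e : ∀ W ≤ L₀ + Z, W = (W.map (Nat.cast : ℕ → ZMod v)).map ZMod.val := fun W hW => by
    rw [Multiset.map_map]
    exact (Multiset.map_id W).symm.trans (Multiset.map_congr rfl fun x h =>
      (hval x (Multiset.mem_of_le hW h)).symm)
  have e2 : Multiset.ofList (List.zipWith (fun a b => min (a - b + (b - a)) (v - (a - b + (b - a))))
      ((a :: l).map ZMod.val) ((a :: l).map ZMod.val).tail) = C.map ZMod.val := by
    rw [← l2, Multiset.map_coe, ← List.map_tail, List.tail_cons, List.zipWith_map,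
      List.map_zipWith]
    simp only [zab_sub]
  refine ⟨(a :: l).map ZMod.val, Multiset.coe_eq_coe.1 ?_, ?_, ?_⟩
  · rw [← Multiset.map_coe, l1]
    refine (Multiset.Nodup.ext (univ.nodup.map (ZMod.val_injective v))
      (Multiset.nodup_range v)).2 fun x => ?_
    simp only [Multiset.mem_map, mem_val, mem_univ, true_and, Multiset.mem_range]
    exact ⟨fun ⟨g, e⟩ => e ▸ ZMod.val_lt g, fun h => ⟨x, ZMod.val_cast_of_lt h⟩⟩
  · rw [e2, e L₀ hL]
    exact Multiset.map_le_map c1
  · rw [ZMod.card, one_div, le_inv_mul_iff₀ hn] at c2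
    replace c3 := Multiset.map_le_map (f := ZMod.val) c3
    rw [← Multiset.map_add Nat.cast, ← e _ le_rfl, Multiset.map_add, ← tsub_le_iff_right] at c3
    have c4 := Multiset.card_le_card c3
    rw [Multiset.card_map] at c4
    rw [e2]
    exact (Nat.mul_le_mul_left _ c4).trans (by exact_mod_cast c2)

end Pool.Agent.Lib.MP_7ae50b_co.ML
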