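import Pool.Agent.Lib.MP_7ae50b_co.AsConv

set_option autoImplicit false
set_option linter.unusedSectionVars false

/-! The asymptotic theorem: random roles of the pieces. -/

namespace Pool.Agent.Lib.MP_7ae50b_co.ML

open Finset Pool.Agent.Lib.MP_34bdde_co
open scoped Classical

theorem as_push {P ι : Type} [Fintype P] [Fintype ι] {ρ : ι → ℝ} (h1 : ∑ j, ρ j = 1) (i : ι)
    (f : Finset P → ℝ) : ∑ r : P → ι, (∏ p, ρ (r p)) * f (univ.filter fun p => r p = i) =
      Ex (fun _ => ρ i) f := by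
  rw [← sum_fiberwise univ fun r : P → ι => univ.filter fun p => r p = i]
  refine sum_congr rfl fun A _ => ?_
  rw [sum_congr rfl (g := fun r => (∏ p, ρ (r p)) * f A) fun r hr => by rw [(mem_filter.1 hr).2],
    ← sum_mul]
  congr 1
  have h2 := prod_univ_sum (fun p => if p ∈ A then {i} else univ.erase i) fun _ j => ρ j
  refine Eq.trans (sum_congr ?_ fun _ _ => rfl) (h2.symm.trans (prod_congr rfl fun p _ => ?_))
  · ext r
    simp only [mem_filter, mem_univ, true_and, Fintype.mem_piFinset, Finset.ext_iff]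
    refine forall_congr' fun p => ?_
    split_ifs with h <;> simp [h]
  · split_ifs
    · simp
    · rw [sum_erase_eq_sub (mem_univ i), h1]

theorem as_roles {P ι : Type} [Fintype P] [Fintype ι] {ρ : ι → ℝ} (h0 : ∀ j, 0 ≤ ρ j)
    (h1 : ∑ j, ρ j = 1) (bad : ι → Finset P → Prop) (h : ∑ j, Pr (fun _ => ρ j) (bad j) < 1) :
    ∃ r : P → ι, ∀ j, ¬bad j (univ.filter fun p => r p = j) := by
  by_contra hc
  push Not at hc
  refine h.not_ge ?_
  have h2 : ∑ r : P → ι, ∏ p, ρ (r p) = 1 := by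
    rw [← Fintype.prod_sum fun (_ : P) j => ρ j]
    simp [h1]
  simp only [Pr, ← as_push h1]
  rw [sum_comm]
  refine h2.ge.trans (sum_le_sum fun r _ => ?_)
  obtain ⟨j, hj⟩ := hc r
  rw [← mul_sum]
  refine le_mul_of_one_le_right (prod_nonneg fun p _ => h0 _) ((if_pos hj).ge.trans
    (single_le_sum (f := fun j => if bad j (univ.filter fun p => r p = j) then (1 : ℝ) else 0)
      (fun j _ => mlranda_nn _) (mem_univ j)))

variable {G : Type} [AddCommGroup G] [Fintype G]

/-- The union of the chosen pieces. -/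
noncomputable def pre {P : Type} (pc : G → P) (A : Finset P) : Finset G :=
  univ.filter fun x => pc x ∈ A

/-- The statistics of a random union of pieces. -/
structure Stat (ρ ε : ℝ) (L : Multiset G) (U : Finset G) : Prop where
  cU : |(U.card : ℝ) - ρ * Fintype.card G| ≤ ε * Fintype.card G
  lo : ∀ c, (ρ ^ 2 - ε) * Fintype.card G ≤ prs U c
  nb : ((univ.filter fun x => 2 * ρ * Multiset.card L + 2 * ε * Fintype.card G <
    nb L U x).card : ℝ) ≤ ε * Fintype.card G

theorem as_stat {T : ℕ} (hT : 1 ≤ T) {ε η : ℝ} (hε : 0 < ε) (hε1 : ε ≤ 1) (hη : 0 < η)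
    (hη1 : η ≤ 1) : ∃ (γ : ℝ) (N : ℕ), 0 < γ ∧ ∀ (G : Type) [AddCommGroup G] [Fintype G] (P : Type)
      [Fintype P] (pc : G → P) (L : Multiset G) (ρ : ℝ), N ≤ Fintype.card G → 0 ≤ ρ → ρ ≤ 1 →
      (∀ p, (univ.filter fun x => pc x = p).card ≤ T) → Multiset.card L ≤ Fintype.card G →
      (∀ c, (L.count c : ℝ) ≤ γ * Fintype.card G) →
      Pr (fun _ => ρ) (fun A => ¬Stat ρ ε L (pre pc A)) ≤ η := by
  have hT' : (0 : ℝ) < T := by exact_mod_cast hT
  obtain ⟨N, -, hN⟩ := small_union (κ := ε ^ 2 / (48 * T)) (by positivity)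
  refine ⟨(ε * η) ^ 3 / (192 * T), max N ⌈1 / η⌉₊, by positivity, ?_⟩
  intro G _ _ P _ pc L ρ hv r0 r1 hpc hL hc
  have hp : ∀ _ : P, 0 ≤ ρ ∧ ρ ≤ 1 := fun _ => ⟨r0, r1⟩
  have hb : Bits (fun x => ({pc x} : Finset P)) T :=
    ⟨fun _ => by simp, fun p => by simpa [eq_comm] using hpc p⟩
  have e : ∀ A, pre pc A = sel (fun x => ({pc x} : Finset P)) univ A := fun A => by
    simp [pre, sel]
  have h1 := hN _ (le_of_max_le_left hv)
  have h2 : 1 ≤ η * Fintype.card G := by
    rw [← div_le_iff₀' hη]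
    exact Nat.ceil_le.1 (le_of_max_le_right hv)
  have hv1 : (1 : ℝ) ≤ Fintype.card G := by exact_mod_cast Fintype.card_pos
  set δ := 2 * Real.exp (-(ε ^ 2 / (48 * T) * Fintype.card G)) with hδ
  have hδ0 : 0 ≤ δ := by positivity
  have d1 : Fintype.card G * δ ≤ η / 5 := by
    have a1 : Fintype.card G * δ * 1 ≤ Fintype.card G * δ * (η * Fintype.card G) :=
      mul_le_mul_of_nonneg_left h2 (by positivity)
    have a2 : η * (Fintype.card G ^ 2 * δ) * 1 ≤ η * (Fintype.card G ^ 2 * δ) * Fintype.card G :=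
      mul_le_mul_of_nonneg_left hv1 (by positivity)
    have a3 := mul_le_mul_of_nonneg_left h1.le hη.le
    linarith
  have d0 : δ ≤ η / 5 := (le_mul_of_one_le_left hδ0 hv1).trans d1
  have e1 := (card_tail hp hT hb univ hε.le hε1).trans
    ((mlrandc_exp (by positivity) (by positivity) (by linarith)).trans d0)
  have e2 := (Pr_exists hp _ fun c => (prs_tail hp hT hb c hε.le hε1).trans
    (mlrandc_exp (by positivity) (by positivity) le_rfl)).trans d1
  have e3 := (Pr_many hp _ (by positivity) hε fun x => mlrandc_nb hp hT hb L hL (mul_pos hε hη)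
    (mul_le_one₀ hε1 hη.le hη1) hc x).trans (show ε * η / 4 / ε ≤ η / 4 from le_of_eq (by field_simp))
  refine (Pr_mono hp fun A hA => ?_).trans ((mlrandc_or hp e1 (mlrandc_or hp e2 e3)).trans
    (by linarith))
  by_contra h
  simp only [not_or, not_exists, not_le, not_lt, ← e, prod_singleton, sum_const, card_univ,
    nsmul_eq_mul, Multiset.map_const', Multiset.sum_replicate] at h
  refine hA ⟨by simpa [mul_comm] using h.1.le, fun c => ?_, le_trans (Nat.cast_le.2
    (card_le_card fun x hx => ?_)) h.2.2⟩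
  · have a1 : (univ : Finset G).card • ρ ^ 2 ≤ ∑ x, ∏ _i ∈ ({pc x} : Finset P) ∪ {pc (x + c)}, ρ :=
      card_nsmul_le_sum _ _ _ fun x _ => mlrandc_prod r0 r1 (card_union_le _ _) fun _ _ => le_rfl
    rw [nsmul_eq_mul, card_univ] at a1
    linarith [(abs_lt.1 (h.2.1 c)).1]
  · rw [mem_filter] at hx ⊢
    refine ⟨hx.1, lt_of_lt_of_le ?_ (le_abs_self _)⟩
    have a1 : ε * η * Fintype.card G ≤ ε * Fintype.card G :=
      mul_le_mul_of_nonneg_right (mul_le_of_le_one_right hε.le hη1) (by positivity)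
    linarith [hx.2]

theorem as_light {τ : ℝ} (hτ : 0 < τ) (hτ1 : τ ≤ 1) : ∃ γ : ℝ, 0 < γ ∧
    ∀ (G : Type) [AddCommGroup G] [Fintype G] (ab : G → G) (L : Multiset G) (U : Finset G) (ρ : ℝ),
      Ab ab → (∀ c ∈ L, ab c = c ∧ c ≠ 0) → ρ ≤ 1 → (Multiset.card L : ℝ) ≤ ρ * Fintype.card G →
      (ρ - τ ^ 3 / 132) * Fintype.card G ≤ Multiset.card L →
      (∀ c, (L.count c : ℝ) ≤ γ * Fintype.card G) → Stat ρ (τ ^ 3 / 132) L U →
      ∃ n C, Sys ab n U.val C ∧ C ≤ L ∧
        (Multiset.card L : ℝ) ≤ Multiset.card C + τ * Fintype.card G := by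
  obtain ⟨a, ha, hround⟩ := round (τ := τ / 11) (by positivity)
  refine ⟨a * τ ^ 2 / 2, by positivity, fun G _ _ ab L U ρ H hab r1 h1 h2 hc S => ?_⟩
  have hv : (0 : ℝ) < Fintype.card G := by exact_mod_cast Fintype.card_pos
  rcases le_total ρ τ with r | r
  · refine ⟨_, 0, Sys.singles _, Multiset.zero_le _, ?_⟩
    simpa using h1.trans (mul_le_mul_of_nonneg_right r hv.le)
  obtain ⟨E, _, col, rfl⟩ := exists_index L
  obtain ⟨s1, s2, s3⟩ := S
  have t1 : τ ^ 3 ≤ τ ^ 2 := pow_le_pow_of_le_one hτ.le hτ1 (by norm_num)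
  have t2 : τ ^ 3 ≤ τ := pow_le_of_le_one hτ.le hτ1 (by norm_num)
  have t3 : τ ^ 2 ≤ ρ ^ 2 := pow_le_pow_left₀ hτ.le r 2
  have t4 : 0 < τ ^ 2 := by positivity
  have t5 := mul_le_mul_of_nonneg_right t2 hv.le
  have t6 := mul_le_mul_of_nonneg_right r1 hv.le
  have p1 : τ ^ 2 / 2 * Fintype.card G ≤ (ρ ^ 2 - τ ^ 3 / 132) * Fintype.card G :=
    mul_le_mul_of_nonneg_right (by linarith) hv.le
  have p0 := lt_of_lt_of_le (by positivity) p1
  obtain ⟨u1, u2, u3, u4, -, u6⟩ := u0_facts U ∅ col (p₁ := Fintype.card G) p0 fun c _ =>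
    ⟨s2 c, Nat.cast_le.2 (card_le_univ _)⟩
  have hE : (Multiset.card (univ.val.map col) : ℝ) = Fintype.card E := by simp
  simp only [notMem_empty, not_false_eq_true, Multiset.filter_true, if_false] at u3 u6
  suffices F : Frac U col (u0 U ∅ col) a (τ / 11) by
    obtain ⟨n, C, c1, c2, c3⟩ := hround G ab E col U (u0 U ∅ col) H
      (fun e => hab _ (Multiset.mem_map_of_mem _ (mem_univ e)))
      (by exact_mod_cast (show (Fintype.card E : ℝ) ≤ Fintype.card G by linarith)) F
    refine ⟨n, C, c1, c2, ?_⟩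
    have : (U.card : ℝ) = Multiset.card C + n := by exact_mod_cast c1.card
    linarith [(abs_le.1 s1).1]
  refine ⟨u1, u2, fun e => (u3 e).le, fun x c => (u4 x c).trans (by
    rw [div_le_iff₀ p0]
    linarith [hc c, mul_le_mul_of_nonneg_left p1 ha.le]), ?_, ?_⟩
  · generalize hL : univ.val.map col = L at *
    refine (sum_le_sum (g := fun x => 2 * τ / 33 + if 2 * ρ * Multiset.card L +
      2 * (τ ^ 3 / 132) * Fintype.card G < nb L U x then 4 / τ ^ 2 else 0) fun x _ => ?_).trans ?_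
    · have a0 : 0 < 4 / τ ^ 2 := by positivity
      refine max_le ?_ (by split_ifs <;> positivity)
      by_cases hx : x ∈ U
      · have a1 := (u6 x hx).2
        have a2 : (nb L U x : ℝ) ≤ Multiset.card L + Multiset.card L := by
          exact_mod_cast add_le_add (Multiset.card_le_card (Multiset.filter_le _ _))
            (Multiset.card_le_card (Multiset.filter_le _ _))
        split_ifs with h
        · have : (nb L U x : ℝ) / ((ρ ^ 2 - τ ^ 3 / 132) * Fintype.card G) ≤ 4 / τ ^ 2 := by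
            rw [div_le_div_iff₀ p0 t4]
            linarith [mul_le_mul_of_nonneg_right (show (nb L U x : ℝ) ≤ 2 * Fintype.card G by
              linarith) t4.le]
          linarith
        · have : (nb L U x : ℝ) / ((ρ ^ 2 - τ ^ 3 / 132) * Fintype.card G) ≤ 2 + 2 * τ / 33 := by
            rw [div_le_iff₀ p0]
            linarith [mul_le_mul_of_nonneg_left p1 hτ.le,
              mul_le_mul_of_nonneg_left h1 (hτ.le.trans r)]
          linarith
      · rw [deg_eq_zero u2 hx]
        split_ifs <;> linarith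
    · rw [sum_add_distrib, ← sum_filter, sum_const, sum_const, card_univ, nsmul_eq_mul,
        nsmul_eq_mul]
      have := mul_le_mul_of_nonneg_right s3 (show 0 ≤ 4 / τ ^ 2 by positivity)
      rw [show τ ^ 3 / 132 * Fintype.card G * (4 / τ ^ 2) = τ / 33 * Fintype.card G by
        field_simp
        norm_num] at this
      linarith
  · rw [sum_comm, sum_congr rfl fun e _ => u3 e, sum_const, card_univ, nsmul_eq_mul]
    linarith [(abs_le.1 s1).2, mul_pos hτ hv]

end Pool.Agent.Lib.MP_7ae50b_co.ML
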