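import Pool.Agent.Lib.MP_7ae50b_co.AsRand

set_option autoImplicit false
set_option linter.unusedSectionVars false

/-! The asymptotic theorem: the linear forest of one role. -/

namespace Pool.Agent.Lib.MP_7ae50b_co.ML

open Finset Pool.Agent.Lib.MP_34bdde_co
open scoped Classical

variable {G G' : Type} [AddCommGroup G] [Fintype G] [AddCommGroup G'] [Fintype G']

theorem as_piece {P : Type} {pc : G → P} {Δ : Finset G} {T : ℕ} (hT : Δ.card ≤ T)
    (h : ∀ x y, pc x = pc y → x - y ∈ Δ) (g : P) : (univ.filter fun y => pc y = g).card ≤ T := by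
  rcases (univ.filter fun y => pc y = g).eq_empty_or_nonempty with e | ⟨x, hx⟩
  · simp [e]
  · refine (card_le_card_of_injOn (fun y => y - x) (fun y hy => ?_)
      fun y _ z _ e => sub_left_injective e).trans hT
    exact h y x ((mem_filter.1 hy).2.trans (mem_filter.1 hx).2.symm)

theorem as_count_map {φ : G →+ G'} (hφ : Function.Surjective φ) {ab' : G' → G'} (H' : Ab ab')
    (D : Multiset G) {t : ℝ} (ht : 0 ≤ t) (h : ∀ c, (D.count c : ℝ) ≤ t) (c' : G') :
    ((D.map fun c => ab' (φ c)).count c' : ℝ) ≤ 2 * Nat.card φ.ker * t := by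
  have h1 := card_filter_mem_le D (univ.filter fun x => φ x ∈ ({c', -c'} : Finset G')) h
  have h2 : ((univ.filter fun x => φ x ∈ ({c', -c'} : Finset G')).card : ℝ) ≤
      2 * Nat.card φ.ker := by
    rw [as_pre_card hφ]
    exact_mod_cast Nat.mul_le_mul_right _ card_le_two
  refine le_trans (Nat.cast_le.2 ?_) (h1.trans (mul_le_mul_of_nonneg_right h2 ht))
  rw [Multiset.count_map]
  refine Multiset.card_le_card (Multiset.monotone_filter_right _ fun c hc => ?_)
  rcases H'.mem (φ c) with e | e <;> simp [hc, e]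

/-- The forest of a role on the set `U`. -/
def Fine (ab : G → G) {Hv : Finset G} (x : Option Hv → ℝ) (ρ τ : ℝ) (D : Multiset G)
    (U : Finset G) : Prop :=
  ∃ n E D₁, Sys ab n U.val (E + D₁) ∧ D₁ ≤ D ∧
    (Multiset.card D : ℝ) ≤ Multiset.card D₁ + τ * Fintype.card G ∧
    ∀ a : Hv, (ρ * x (some a) - 3 * τ) * Fintype.card G ≤ E.count (a : G)

theorem as_role {T T0 : ℕ} (hT : 1 ≤ T) {τ η : ℝ} (hτ : 0 < τ) (hτ1 : τ ≤ 1) (hη : 0 < η)
    (hη1 : η ≤ 1) (hT0 : 1 ≤ τ * T0) : ∃ (γ : ℝ) (N : ℕ), 0 < γ ∧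
    ∀ (G : Type) [AddCommGroup G] [Fintype G] (ab : G → G) (Hv : Finset G) (P : Type) [Fintype P]
      (pc : G → P) (Δ : Finset G) (K : AddSubgroup G) (x : Option Hv → ℝ) (ρ : ℝ) (D : Multiset G),
      Ab ab → N ≤ Fintype.card G → (∀ a ∈ Hv, ab a = a) → Δ.card ≤ T →
      (∀ x y, pc x = pc y → x - y ∈ Δ) → (∀ x y, x - y ∈ K → pc x = pc y) →
      (∀ a ∈ Hv, ((univ.filter fun x => pc (x + a) ≠ pc x).card : ℝ) ≤ τ * Fintype.card G) →
      Role ab T0 K x → 0 ≤ ρ → ρ ≤ 1 → (∀ c ∈ D, ab c = c) →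
      (∀ c, (D.count c : ℝ) ≤ γ * Fintype.card G) →
      Multiset.card D = ⌊ρ * x none * Fintype.card G⌋₊ →
      Pr (fun _ => ρ) (fun A => ¬Fine ab x ρ τ D (pre pc A)) ≤ η := by
  obtain ⟨γ₁, g1, hlight⟩ := as_light (half_pos hτ) (by linarith)
  set ε := (τ / 2) ^ 3 / 132 with hεd
  have hε : 0 < ε := by positivity
  have hε2 : ε ≤ τ / 2 := by
    have : (τ / 2) ^ 3 ≤ τ / 2 := pow_le_of_le_one (by positivity) (by linarith) (by norm_num)
    linarith
  clear_value ε
  obtain ⟨γ₂, N, g2, hstat⟩ := as_stat hT hε (by linarith) hη hη1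
  have hT1 : (0 : ℝ) < T0 := (mul_pos_iff_of_pos_left hτ).1 (one_pos.trans_le hT0)
  refine ⟨min (min γ₁ γ₂) (ε / 2) / (2 * T0 ^ 2), max N ⌈2 / ε⌉₊ * T0, by positivity, ?_⟩
  rintro G _ _ ab Hv P _ pc Δ K _ ρ D H hv hab hΔ hpc hK hcut ⟨C, b, s1, s2, s3, rfl⟩ r0 r1 hD hc hn
  obtain ⟨Q, _, _, φ, hφ, rfl⟩ := as_quot K
  obtain ⟨ab', H'⟩ := as_exists_ab Q
  obtain ⟨pc', e1⟩ : ∃ pc' : Q → P, ∀ x, pc' (φ x) = pc x :=
    ⟨fun z => pc (Function.surjInv hφ z), fun x => hK _ _ (by
      rw [AddMonoidHom.mem_ker, map_sub, Function.surjInv_eq hφ, sub_self])⟩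
  have e2 := as_card_eq hφ
  have hk := as_kpos φ.ker
  have hk1 : (1 : ℝ) ≤ Nat.card φ.ker := by exact_mod_cast Nat.card_pos
  have hk2 : (Nat.card φ.ker : ℝ) ≤ T0 := by exact_mod_cast s2
  have hw : max N ⌈2 / ε⌉₊ ≤ Fintype.card Q := Nat.le_of_mul_le_mul_right
    (hv.trans (e2.trans_le (Nat.mul_le_mul_left _ s2))) (by exact_mod_cast hT1)
  have e3 : (Fintype.card G : ℝ) = Fintype.card Q * Nat.card φ.ker := by exact_mod_cast e2
  have hw0 : (0 : ℝ) < Fintype.card Q := by exact_mod_cast Fintype.card_pos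
  have hwv : (Fintype.card Q : ℝ) ≤ Fintype.card G := e3 ▸ le_mul_of_one_le_right hw0.le hk1
  have hw2 : 2 ≤ ε * Fintype.card Q := by
    rw [← div_le_iff₀' hε]
    exact Nat.ceil_le.1 (le_of_max_le_right hw)
  have e4 : ∀ S : Finset Q, (S.card : ℝ) ≤ (univ.filter fun x => φ x ∈ S).card := fun S => by
    rw [as_pre_card hφ, Nat.cast_mul]
    exact le_mul_of_one_le_right (Nat.cast_nonneg _) hk1
  have c1 : ∀ c, ((D.map fun c => ab' (φ c)).count c : ℝ) ≤
      min (min γ₁ γ₂) (ε / 2) * Fintype.card Q := fun c => by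
    refine (as_count_map hφ H' D (by positivity) hc c).trans ?_
    rw [e3, show ∀ k g w : ℝ, 2 * k * (g / (2 * T0 ^ 2) * (w * k)) = g * w * (k / T0) ^ 2 from
      fun k g w => by field_simp]
    exact mul_le_of_le_one_right (by positivity)
      (pow_le_one₀ (by positivity) ((div_le_one hT1).2 hk2))
  have c2 : ∀ c t, min (min γ₁ γ₂) (ε / 2) ≤ t →
      (((D.map fun c => ab' (φ c)).filter (· ≠ 0)).count c : ℝ) ≤ t * Fintype.card Q :=
    fun c t ht => (Nat.cast_le.2 (Multiset.count_le_of_le c (Multiset.filter_le _ _))).trans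
      ((c1 c).trans (mul_le_mul_of_nonneg_right ht hw0.le))
  have c3 : (Multiset.card D : ℝ) ≤ Multiset.card ((D.map fun c => ab' (φ c)).filter (· ≠ 0)) +
      ε / 2 * Fintype.card Q := by
    have a1 := congrArg Multiset.card (Multiset.filter_add_not (· ≠ 0) (D.map fun c => ab' (φ c)))
    rw [Multiset.card_add, Multiset.card_map] at a1
    rw [← a1, Nat.cast_add]
    refine add_le_add_right (le_trans (Nat.cast_le.2 ?_) ((c1 0).trans
      (mul_le_mul_of_nonneg_right (min_le_right _ _) hw0.le))) _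
    rw [Multiset.count_eq_card_filter_eq]
    exact Multiset.card_le_card (Multiset.monotone_filter_right _ fun c hc => (not_not.1 hc).symm)
  have c4 : (Multiset.card ((D.map fun c => ab' (φ c)).filter (· ≠ 0)) : ℝ) ≤ Multiset.card D := by
    exact_mod_cast (Multiset.card_le_card (Multiset.filter_le _ _)).trans_eq (Multiset.card_map _ _)
  have c5 : ρ * dens φ.ker C b none * Fintype.card G =
      (if b = some none then 1 else 0) * (ρ * Fintype.card Q) := by
    simp only [dens, cn, e3, Option.elim_none, Nat.cast_zero, zero_add]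
    field_simp
  have c6 : ρ * Fintype.card Q ≤ Fintype.card Q := mul_le_of_le_one_left hw0.le r1
  have c7 : (Multiset.card D : ℝ) ≤ ρ * Fintype.card Q := by
    rw [hn, c5]
    refine (Nat.floor_le (by positivity)).trans (mul_le_of_le_one_left (by positivity) ?_)
    split_ifs <;> norm_num
  refine le_trans (Pr_mono (fun _ => ⟨r0, r1⟩) fun A => mt fun S => ?_)
    (hstat Q P pc' ((D.map fun c => ab' (φ c)).filter (· ≠ 0)) ρ (le_of_max_le_left hw) r0 r1
      (fun p => ?_) (by exact_mod_cast c4.trans (c7.trans c6))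
      fun c => c2 c _ ((min_le_left _ _).trans (min_le_right _ _)))
  swap
  · have a1 := e4 (univ.filter fun z => pc' z = p)
    simp only [mem_filter, mem_univ, true_and, e1] at a1
    exact (Nat.cast_le.1 a1).trans (as_piece hΔ hpc p)
  have e5 : (pre pc' A).val.bind (fib φ) = (pre pc A).val := by
    rw [as_bind]
    simp [pre, e1]
  have e6 : ∀ a : Hv, (ρ * dens φ.ker C b (some a) - τ) * Fintype.card G ≤ (pre pc' A).card *
      ((C.count (a : G) : ℝ) + if b = some (some a) then 1 else 0) := fun a => by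
    have a1 : ((C.count (a : G) : ℝ) + if b = some (some a) then 1 else 0) ≤ Nat.card φ.ker := by
      have : (C.count (a : G) : ℝ) + 1 ≤ Nat.card φ.ker := by
        exact_mod_cast (Nat.add_le_add_right (Multiset.count_le_card _ _) 1).trans_eq s1.card
      split_ifs <;> linarith
    have a2 : 0 ≤ ((C.count (a : G) : ℝ) + if b = some (some a) then 1 else 0) := by positivity
    have a3 : dens φ.ker C b (some a) * Nat.card φ.ker =
        (C.count (a : G) : ℝ) + if b = some (some a) then 1 else 0 := div_mul_cancel₀ _ hk.ne'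
    have a4 := mul_le_mul_of_nonneg_right (abs_le.1 S.cU).1 a2
    have a5 := mul_le_mul_of_nonneg_left a1 (show 0 ≤ ε * Fintype.card Q by positivity)
    have a6 := mul_le_mul_of_nonneg_right hε2 (show 0 ≤ (Fintype.card Q : ℝ) * Nat.card φ.ker by
      positivity)
    have a7 : 0 ≤ τ * (Fintype.card Q * Nat.card φ.ker) := by positivity
    rw [e3]
    rw [← a3] at a4 a5 ⊢
    linarith
  have e7 := fun n C' h D' h1 h2 => as_lift_sys hφ H H' s1 n (pre pc' A).val C' h D' h1 h2
  have e8 : 0 ≤ τ * Fintype.card G := by positivity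
  rw [e5] at e7
  by_cases hb : b = some none
  · obtain ⟨n, C', l1, l2, l3⟩ := hlight Q ab' _ _ ρ H' (fun c hc => by
      obtain ⟨h1, h2⟩ := Multiset.mem_filter.1 hc
      obtain ⟨d, -, rfl⟩ := Multiset.mem_map.1 h1
      refine ⟨?_, h2⟩
      rcases H'.mem (φ d) with e | e
      · rw [e, e]
      · rw [e, H'.neg, e]) r1 (c4.trans c7) (by
        have := Nat.lt_floor_add_one (ρ * dens φ.ker C b none * Fintype.card G)
        rw [← hn, c5, if_pos hb] at this
        linarith) (fun c => c2 c _ ((min_le_left _ _).trans (min_le_left _ _))) S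
    obtain ⟨D₁, d1, d2⟩ := as_map_le _ (l2.trans (Multiset.filter_le _ _))
    refine ⟨n, _, D₁, (e7 n C' l1 D₁ (fun c hc => hD c (Multiset.mem_of_le d1 hc)) d2).cast rfl rfl
      (add_comm _ _), d1, ?_, fun a => ?_⟩
    · rw [← d2, Multiset.card_map] at l3
      linarith [mul_le_mul_of_nonneg_right hε2 hw0.le, mul_le_mul_of_nonneg_left hwv hτ.le,
        mul_pos hτ hw0]
    · have := e6 a
      rw [if_neg (by simp [hb])] at this
      rw [Multiset.count_nsmul, card_val]
      push_cast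
      linarith
  have hD0 : (Multiset.card D : ℝ) ≤ Multiset.card (0 : Multiset G) + τ * Fintype.card G := by
    rw [hn, c5, if_neg hb]
    simpa using e8
  by_cases hb' : ∃ a, b = some (some a)
  · obtain ⟨a, rfl⟩ := hb'
    obtain ⟨n, m, l1, l2⟩ := as_one (ab := ab') (φ a) (pre pc' A)
    refine ⟨n, _, 0, (e7 n _ l1 (Multiset.replicate m a) (fun c hc => by
      rw [Multiset.eq_of_mem_replicate hc, hab a a.2]) (by simp)).cast rfl rfl (add_zero _).symm,
      Multiset.zero_le _, hD0, fun a' => ?_⟩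
    have a1 : ((pre pc' A).card : ℝ) = m + n := by simpa using congrArg (Nat.cast (R := ℝ)) l1.card
    have a2 : (((pre pc' A).filter fun z => z + φ a ∉ pre pc' A).card : ℝ) ≤ τ * Fintype.card G := by
      refine (e4 _).trans (le_trans (Nat.cast_le.2 (card_le_card fun y hy => ?_)) (hcut a a.2))
      simp only [pre, mem_filter, mem_univ, true_and, ← map_add, e1] at hy ⊢
      exact fun e => hy.2 (e ▸ hy.1)
    have a3 : (Fintype.card Q : ℝ) / addOrderOf (φ a) ≤ τ * Fintype.card G := by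
      have b1 : (T0 : ℝ) ≤ addOrderOf (φ a) * Nat.card φ.ker := by
        exact_mod_cast (s3 a rfl).trans_eq (as_sup_card hφ a)
      rw [div_le_iff₀ (Nat.cast_pos.2 (addOrderOf_pos _)), e3]
      linarith [mul_le_mul_of_nonneg_left hT0 hw0.le,
        mul_le_mul_of_nonneg_left b1 (mul_pos hτ hw0).le]
    have := e6 a'
    rw [Multiset.count_add, Multiset.count_nsmul, card_val, Multiset.count_replicate]
    simp only [Option.some.injEq, Subtype.ext_iff] at this
    split_ifs at this ⊢ <;> push_cast <;> linarith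
  · refine ⟨_, _, 0, (e7 _ 0 (Sys.singles _) 0 (by simp) rfl).cast rfl rfl (add_comm _ _),
      Multiset.zero_le _, hD0, fun a => ?_⟩
    have := e6 a
    rw [if_neg fun e => hb' ⟨a, e⟩] at this
    rw [Multiset.count_nsmul, card_val]
    push_cast
    linarith

end Pool.Agent.Lib.MP_7ae50b_co.ML
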