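import Pool.Agent.Lib.MP_7ae50b_co.Build

set_option autoImplicit false

namespace Pool.Agent.BHR

structure Base (v w M : ℕ) (A : Finset ℕ) (n : ℕ → ℤ) (I : Finset ℤ) (Dl S Err e0 : ℤ)
    (E0 : Multiset (ℤ × ℤ)) (s : ℤ) (Zs : Finset (ℕ × ℤ)) : Prop where
  good : Good v E0 s e0
  p0 : Pure E0 w e0 (e0 + Dl)
  ivl : ∀ lo ∈ I, ∃ z ∈ A, Pure E0 z lo (lo + Dl)
  zone : ∀ p ∈ Zs, p.1 ∈ A ∧ Pure E0 p.1 p.2 (p.2 + M) ∧ ∀ lo ∈ I, p.2 + M ≤ lo ∨ lo + Dl ≤ p.2
  disj : ∀ p ∈ Zs, ∀ q ∈ Zs, p ≠ q → p.2 + M ≤ q.2 ∨ q.2 + M ≤ p.2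
  zcard : Zs.card ≤ w + 1
  lc : ∀ Q : ℤ → ℤ → Prop, Equivalence Q → ∀ a, e0 < a → a ≤ e0 + Dl → ZI Q w a →
    (∀ c ∈ E0, (c.1 < a ∨ Av I Dl c.1) → Q c.1 c.2) → (∀ p ∈ Zs, ZI Q p.1 p.2) →
    ∀ t : ℤ, 0 < t → t < v → Left w E0 t ∨ Exc I Dl Q t
  cnt0 : ∀ l, l ∉ A → (lens v E0).count l = 0
  cnt : ∀ l ∈ A, ((lens v E0).count l : ℤ) ≤ n l + Err ∧ n l ≤ (lens v E0).count l + Err
  long : ∀ y ∈ A, ∃ b, Pure E0 y b (b + n y - S) ∧
    ∀ p ∈ Zs, p.2 + M ≤ b ∨ b + n y - S ≤ p.2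

theorem base_thin {v : ℕ} (hv : 2 ≤ v) {n : ℕ → ℤ} (hn : n 1 = v) {I : Finset ℤ}
    {Dl S Err : ℤ} (hD : Dl + 1 ≤ v) (hI : ∀ lo ∈ I, 0 ≤ lo ∧ lo + Dl + 1 ≤ v) (hS : 1 ≤ S)
    (hE : 1 ≤ Err) : ∃ E0 s Zs, Base v 1 0 {1} n I Dl S Err 0 E0 s Zs := by
  have hp : ∀ t : ℤ, 0 ≤ t → t < v - 1 →
      (t, t + (1 : ℕ)) ∈ run (Finset.Ico (0 : ℤ) (v - 1)) (1 : ℕ) :=
    fun t t1 t2 => mem_run (Finset.mem_Ico.2 ⟨t1, t2⟩)
  refine ⟨run (Finset.Ico 0 (v - 1)) (1 : ℕ), v - 1, ∅, ?_, ?_, ?_, by simp, by simp, by simp,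
    ?_, ?_, ?_, ?_⟩
  · intro t
    rw [deg_run]
    simp only [Finset.mem_Ico]
    split_ifs <;> omega
  · exact fun t t1 t2 => hp t t1 (by omega)
  · intro lo hlo
    have := hI lo hlo
    exact ⟨1, by simp, fun t t1 t2 => hp t (by omega) (by omega)⟩
  · intro Q _ a _ _ _ _ _ t t1 t2
    exact Or.inl ⟨1, le_rfl, le_rfl, by simpa using hp (t - 1) (by omega) (by omega)⟩
  · intro l hl
    rw [lens_run (by omega), Multiset.count_replicate, if_neg]
    rintro rfl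
    simp at hl
  · intro l hl
    obtain rfl : l = 1 := by simpa using hl
    rw [lens_run (by omega), Multiset.count_replicate, if_pos rfl, Int.card_Ico]
    omega
  · intro l hl
    obtain rfl : l = 1 := by simpa using hl
    exact ⟨0, fun t t1 t2 => hp t t1 (by omega), by simp⟩

theorem count_edges {A : Finset ℕ} {v w : ℕ} (hA : ∀ x ∈ A, 1 ≤ x ∧ x ≤ w) (hv : 2 * w ≤ v)
    {E : Multiset (ℤ × ℤ)} (hE : Edges A E) {l : ℕ} (hl : l ∉ A) : (lens v E).count l = 0 := by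
  rw [Multiset.count_eq_zero]
  intro h
  obtain ⟨c, hc, rfl⟩ := Multiset.mem_map.1 h
  obtain ⟨y, hy, hy2⟩ := hE c hc
  have h1 : c = (c.1, c.1 + y) := Prod.ext rfl hy2
  have := hA y hy
  rw [h1, len_add _ (by omega)] at hl
  exact hl hy

theorem base_thick {A : Finset ℕ} {v w M nI : ℕ} (hG : Gen A) (hA : ∀ x ∈ A, 1 ≤ x ∧ x ≤ w)
    (hw : w ∈ A) (hw2 : 2 ≤ w) (hM : w ≤ M) (hv : 2 * w ≤ v) {Dl S Err : ℤ} (hD : 5 * w ≤ Dl)
    (hS1 : nI * (Dl + (5 * w + M)) + (5 * w + M) ≤ S) (hS2 : M + 4 * w + Dl ≤ S)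
    (hE : w * (S + 12 * w + M) + (S + 12 * w + M) ≤ Err) {n : ℕ → ℤ}
    (hn : ∀ y ∈ A, S + w ≤ n y) (hsum : ∑ y ∈ A, n y = v) :
    ∃ e0 : ℤ, 0 ≤ e0 ∧ e0 ≤ M + 4 * w ∧ ∀ I : Finset ℤ, I.card ≤ nI →
      (∀ lo ∈ I, e0 ≤ lo ∧ lo + Dl + w ≤ v) →
      ∃ E0 s Zs, Base v w M A n I Dl (S + w) Err e0 E0 s Zs := by
  classical
  set l1 := (A.filter (fun y => y ≠ w ∧ y % 2 = w % 2)).toList with hl1
  set l2 := (A.filter (fun y => y % 2 ≠ w % 2)).toList with hl2
  have m1 : ∀ y, y ∈ l1 ↔ y ∈ A ∧ y ≠ w ∧ y % 2 = w % 2 := by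
    intro y; simp only [hl1, Finset.mem_toList, Finset.mem_filter]
  have m2 : ∀ y, y ∈ l2 ↔ y ∈ A ∧ y % 2 ≠ w % 2 := by
    intro y; simp only [hl2, Finset.mem_toList, Finset.mem_filter]
  have m3 : ∀ y, y ∈ l1 ++ l2 ↔ y ∈ A ∧ y ≠ w := by
    intro y
    rw [List.mem_append, m1, m2]
    constructor
    · rintro (h | h)
      · exact ⟨h.1, h.2.1⟩
      · exact ⟨h.1, fun h2 => h.2 (by rw [h2])⟩
    · intro h
      by_cases h2 : y % 2 = w % 2
      · exact Or.inl ⟨h.1, h.2, h2⟩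
      · exact Or.inr ⟨h.1, h2⟩
  have m4 : ∀ y, y ∈ w :: (l1 ++ l2) ↔ y ∈ A := by
    intro y
    rw [List.mem_cons, m3]
    constructor
    · rintro (h | h)
      · exact h ▸ hw
      · exact h.1
    · intro h
      by_cases h2 : y = w
      · exact Or.inl h2
      · exact Or.inr ⟨h, h2⟩
  have nd : (w :: (l1 ++ l2)).Nodup := by
    rw [List.nodup_cons, List.nodup_append]
    refine ⟨fun h => ((m3 w).1 h).2 rfl, Finset.nodup_toList _, Finset.nodup_toList _, ?_⟩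
    rintro a ha b hb rfl
    exact ((m2 a).1 hb).2 ((m1 a).1 ha).2.2
  have hp1 := pc_le w l1 l2 (fun y hy => ((m1 y).1 hy).2.2) (fun y hy => ((m2 y).1 hy).2)
  have hp2 := pc_mod w (l1 ++ l2)
  generalize l1 ++ l2 = ys at m3 m4 nd hp1 hp2
  have hfin : (w :: ys).toFinset = A := by
    ext y; rw [List.mem_toFinset, m4]
  have hsum2 : ((w :: ys).map n).sum = v := by
    rw [← List.sum_toFinset n nd, hfin, hsum]
  have hlen : ys.length + 1 ≤ w := by
    have h1 := List.toFinset_card_of_nodup nd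
    rw [hfin, List.length_cons] at h1
    have := card_le_of_bounds hA
    omega
  have hne : ys ≠ [] := by
    rintro rfl
    have := hG (AddSubgroup.zmultiples (w : ℤ)) (fun x hx => by
      have : x = w := by simpa using (m4 x).2 hx
      rw [this]; exact AddSubgroup.mem_zmultiples _)
    rw [Int.mem_zmultiples_iff] at this
    have h2 : w ∣ 1 := by exact_mod_cast this
    have := Nat.dvd_one.1 h2
    omega
  obtain ⟨x, hx⟩ : ∃ x, x = ys.getLastD w := ⟨_, rfl⟩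
  have hx1 : x ∈ ys := by
    rw [hx, List.getLastD_eq_getLast?, List.getLast?_eq_some_getLast hne]
    exact List.getLast_mem hne
  rw [← hx] at hp2
  obtain ⟨hxA, hxw⟩ := (m3 x).1 hx1
  have hx2 := hA x hxA
  have L0 : Line 0 x 0 x 0 := by
    intro t
    simp only [deg_zero, Multiset.count_zero]
    split_ifs <;> omega
  have L1 := L0.ext (h' := M) le_rfl (by omega)
  obtain ⟨F, U, f1, f2, f3, f4, f5, -, f7, f8⟩ := trans_core (j := 2 - pc w ys) hG hA L1
    (by omega) hxA hw hxw (by omega)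
  obtain ⟨e0, u1, u2, u3, u4, u5⟩ := f8 (by omega) (by omega)
  refine ⟨e0, by omega, by omega, fun I hI1 hI2 => ?_⟩
  have L2 := f1.ext (h' := e0 + Dl) (by omega) (by omega)
  set E1 := 0 + run (Finset.Ico (0 : ℤ) M) x + F + run (Finset.Ico (M + 5 * w : ℤ) (e0 + Dl)) w
    with hE1
  have q1 : Pure E1 w e0 (e0 + Dl) := by
    intro t t1 t2
    by_cases h : t < M + 5 * w
    · simp [hE1, u4 t t1 h]
    · exact pure_run _ _ _ _ t (by omega) t2
  have q2 : Pure E1 x 0 M := ((pure_run _ _ _ _).add _).add _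
  let P0 : (ℤ → ℤ → Prop) → Prop := fun Q => ∃ a, e0 < a ∧ a ≤ e0 + Dl ∧ ZI Q w a ∧
    ∀ c ∈ E1, c.1 < a → Q c.1 c.2
  have hInv : Inv A w x M I Dl P0 E1 (e0 + Dl) w (0 + U) {(x, 0)} := by
    refine ⟨L2, by omega, (((by simp [Edges] : Edges A 0).add (edges_run hxA _)).add f3).add
      (edges_run hw _), ?_, ?_, by simp, ?_⟩
    · intro lo hlo
      have := hI2 lo hlo
      exact Or.inr (fun t t1 t2 => q1 t (by omega) t2)
    · intro p hp
      obtain rfl : p = (x, 0) := by simpa using hp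
      refine ⟨hxA, by simpa using q2, by simp only; omega, fun lo hlo => ?_⟩
      have := hI2 lo hlo
      simp only
      omega
    · rintro Q hQ - r2 ⟨a, r3, r4, r5, r6⟩ t t1 t2
      by_cases h1 : t < x
      · refine Or.inr ⟨0, le_rfl, t1, fun lo hlo => ?_,
          r2 (x, 0) (by simp) t (by simp only; omega) (by simp only; omega)⟩
        have := hI2 lo hlo
        omega
      by_cases h2 : t < M + x
      · exact Or.inl (((left_run hx2.1 hx2.2 _ (by omega) h2).add _).add _)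
      by_cases h3 : t ≤ e0
      · have key : ∀ u : ℤ, M ≤ u → u < a + w → Q u a := by
          refine chain hQ r5 (fun u => (M : ℤ) ≤ u) (fun u v1 v2 => ?_)
          by_cases h4 : u < M + 5 * w
          · obtain ⟨t2, b1, b2, b3, b4⟩ := f7 (by omega) u v1 h4
            exact ⟨t2, by omega, b1, by omega, r6 (u, t2) (by simp [hE1, b4]) v2⟩
          · exact ⟨u + w, by omega, by omega, by omega,
              r6 (u, u + w) (q1 u (by omega) (by omega)) v2⟩
        refine Or.inr ⟨M, by omega, by omega, fun lo hlo => ?_,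
          hQ.trans (key t (by omega) (by omega)) (hQ.symm (key M le_rfl (by omega)))⟩
        have := hI2 lo hlo
        omega
      by_cases h4 : t < M + 5 * w + w
      · left
        have := (u5 t (by omega) h4).add (0 + run (Finset.Ico (0 : ℤ) M) x)
        rw [add_comm] at this
        exact this.add _
      · exact Or.inl (left_run (by omega) le_rfl _ (by omega) t2)
  have hS3 : I.card * (Dl + (5 * w + M)) + (5 * w + M) ≤ S := by
    have h1 : (I.card : ℤ) ≤ nI := by exact_mod_cast hI1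
    have h2 : (0 : ℤ) ≤ Dl + (5 * w + M) := by omega
    nlinarith
  obtain ⟨F2, U2, Zs, k1, k2, k3, -, k5, k6⟩ := build (v := v) hG hA hM hv (by omega) (c := x)
    (S := S) (Er := S + 12 * w + M) (by omega) hS3 (by omega) n ys w
    (fun y hy => ⟨(m4 y).1 hy, by have := hn y ((m4 y).1 hy); omega⟩) nd hInv (a := 0)
    (by omega) (by omega)
  rw [hsum2, zero_add, ← hx] at k1
  obtain ⟨U3, rfl⟩ := Multiset.exists_cons_of_mem u1
  obtain ⟨s, hs⟩ : ∃ s, U3 + U2 = {s} := by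
    rw [← Multiset.card_eq_one, Multiset.card_add, k2]
    rw [Multiset.card_cons] at f2
    clear * - f2 hp1
    omega
  have hU : 0 + e0 ::ₘ U3 + U2 = s ::ₘ e0 ::ₘ 0 := by
    rw [zero_add, Multiset.cons_add, hs, Multiset.cons_swap]
    rfl
  rw [hU] at k1
  refine ⟨E1 + F2 + run (Finset.Ico 0 x) (v - x), s, Zs, k1.line.close (by omega),
    (q1.add _).add _, ?_, ?_, k1.disj, ?_, ?_, ?_, ?_, ?_⟩
  · intro lo hlo
    have := hI2 lo hlo
    rcases k1.ivl lo hlo with ⟨_, z', b2, b3⟩ | b2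
    · exact ⟨z', b2, b3.add _⟩
    · exact ⟨x, hxA, fun t t1 t2 => b2.add _ t t1 (by omega)⟩
  · intro p hp
    obtain ⟨b1, b2, _, b4⟩ := k1.zone p hp
    exact ⟨b1, b2.add _, b4⟩
  · simp only [Finset.card_singleton] at k3
    omega
  · intro Q hQ a r1 r2 r3 r4 r5 t t1 t2
    refine (k1.lc Q hQ (fun c hc h => r4 c (Multiset.mem_add.2 (Or.inl hc)) (Or.inr h)) r5
      ⟨a, r1, r2, r3, fun c hc h => r4 c (by simp [hc]) (Or.inl h)⟩ t t1 (by omega)).imp
      (fun h => h.add _) id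
  · intro l hl
    rw [lens_add, Multiset.count_add, count_edges hA hv k1.edges hl, lens_close (by omega),
      Multiset.count_replicate, if_neg]
    rintro rfl
    exact hl hxA
  · intro l hl
    have c1 := k5 l
    rw [if_pos ((m4 l).2 hl)] at c1
    have c2 := count_lens_le v l E1
    have c3 := count_lens_le v l (run (Finset.Ico 0 x) (v - x))
    have c4 : (E1.card : ℤ) ≤ M + 11 * w + Dl := by
      simp only [hE1, Multiset.card_add, card_run, Int.card_Ico, Multiset.card_zero]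
      omega
    rw [card_run, Int.card_Ico] at c3
    have c5 : ((ys.length : ℤ) + 1) * (S + 12 * w + M) ≤ w * (S + 12 * w + M) := by
      have h1 : (ys.length : ℤ) + 1 ≤ w := by exact_mod_cast hlen
      have h2 : (0 : ℤ) ≤ S + 12 * w + M := by omega
      nlinarith
    rw [lens_add, lens_add, Multiset.count_add, Multiset.count_add]
    omega
  · intro y hy
    obtain ⟨b, _, c2, c3⟩ := k6 y ((m4 y).2 hy)
    refine ⟨b, fun t t1 t2 => c2.add _ t t1 (by omega), fun p hp => ?_⟩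
    have := c3 p hp
    omega

end Pool.Agent.BHR
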