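import Mathlib

set_option autoImplicit false

namespace Pool.Agent.BHR

/-- degree of `t` in the edge multiset `E` -/
def deg (E : Multiset (ℤ × ℤ)) (t : ℤ) : ℕ :=
  (E.map Prod.fst).count t + (E.map Prod.snd).count t

/-- all vertices of `[0,v)` have degree two, apart from the two ends -/
def Good (v : ℕ) (E : Multiset (ℤ × ℤ)) (s e : ℤ) : Prop :=
  ∀ t : ℤ, deg E t + (if t = s then 1 else 0) + (if t = e then 1 else 0) =
    if 0 ≤ t ∧ t < v then 2 else 0

def Conn (E : Multiset (ℤ × ℤ)) : ℤ → ℤ → Prop :=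
  Relation.EqvGen (fun a b => (a, b) ∈ E)

def len (v : ℕ) (c : ℤ × ℤ) : ℕ := min (c.2 - c.1).natAbs (v - (c.2 - c.1).natAbs)

def lens (v : ℕ) (E : Multiset (ℤ × ℤ)) : Multiset ℕ := E.map (len v)

def Pure (E : Multiset (ℤ × ℤ)) (z : ℕ) (a b : ℤ) : Prop :=
  ∀ t : ℤ, a ≤ t → t < b → (t, t + z) ∈ E

def ZI (Q : ℤ → ℤ → Prop) (z : ℕ) (a : ℤ) : Prop :=
  ∀ r : ℤ, a ≤ r → r < a + z → Q r a

def AllConn (v : ℕ) (E : Multiset (ℤ × ℤ)) : Prop :=
  ∀ a b : ℤ, 0 ≤ a → a < v → 0 ≤ b → b < v → Conn E a b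

theorem deg_zero (t : ℤ) : deg 0 t = 0 := by simp [deg]

theorem deg_cons (c : ℤ × ℤ) (E : Multiset (ℤ × ℤ)) (t : ℤ) :
    deg (c ::ₘ E) t = deg E t + (if t = c.1 then 1 else 0) + (if t = c.2 then 1 else 0) := by
  simp only [deg, Multiset.map_cons, Multiset.count_cons]
  omega

theorem deg_add (E F : Multiset (ℤ × ℤ)) (t : ℤ) : deg (E + F) t = deg E t + deg F t := by
  simp only [deg, Multiset.map_add, Multiset.count_add]
  omega

theorem deg_pos_fst {E : Multiset (ℤ × ℤ)} {c : ℤ × ℤ} (h : c ∈ E) : 0 < deg E c.1 := by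
  obtain ⟨F, rfl⟩ := Multiset.exists_cons_of_mem h
  rw [deg_cons]; simp

theorem deg_pos_snd {E : Multiset (ℤ × ℤ)} {c : ℤ × ℤ} (h : c ∈ E) : 0 < deg E c.2 := by
  obtain ⟨F, rfl⟩ := Multiset.exists_cons_of_mem h
  rw [deg_cons]; simp

theorem exists_edge {E : Multiset (ℤ × ℤ)} {t : ℤ} (h : 0 < deg E t) :
    ∃ c ∈ E, c.1 = t ∨ c.2 = t := by
  unfold deg at h
  by_cases h1 : 0 < (E.map Prod.fst).count t
  · rw [Multiset.count_pos, Multiset.mem_map] at h1
    obtain ⟨c, hc, h2⟩ := h1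
    exact ⟨c, hc, Or.inl h2⟩
  · have h2 : 0 < (E.map Prod.snd).count t := by omega
    rw [Multiset.count_pos, Multiset.mem_map] at h2
    obtain ⟨c, hc, h2⟩ := h2
    exact ⟨c, hc, Or.inr h2⟩

theorem Good.fst {v : ℕ} {E : Multiset (ℤ × ℤ)} {s e : ℤ} (h : Good v E s e) {c : ℤ × ℤ}
    (hc : c ∈ E) : 0 ≤ c.1 ∧ c.1 < v := by
  have h1 := h c.1
  have h2 := deg_pos_fst hc
  by_contra h3
  rw [if_neg h3] at h1
  omega

theorem Good.snd {v : ℕ} {E : Multiset (ℤ × ℤ)} {s e : ℤ} (h : Good v E s e) {c : ℤ × ℤ}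
    (hc : c ∈ E) : 0 ≤ c.2 ∧ c.2 < v := by
  have h1 := h c.2
  have h2 := deg_pos_snd hc
  by_contra h3
  rw [if_neg h3] at h1
  omega

theorem Good.e_mem {v : ℕ} {E : Multiset (ℤ × ℤ)} {s e : ℤ} (h : Good v E s e) :
    0 ≤ e ∧ e < v := by
  have h1 := h e
  by_contra h3
  rw [if_neg h3, if_pos rfl] at h1
  omega

theorem Good.s_mem {v : ℕ} {E : Multiset (ℤ × ℤ)} {s e : ℤ} (h : Good v E s e) :
    0 ≤ s ∧ s < v := by
  have h1 := h s
  by_contra h3
  rw [if_neg h3, if_pos rfl] at h1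
  omega

theorem conn_equiv (E : Multiset (ℤ × ℤ)) : Equivalence (Conn E) :=
  Relation.EqvGen.is_equivalence _

theorem conn_edge {E : Multiset (ℤ × ℤ)} {a b : ℤ} (h : (a, b) ∈ E) : Conn E a b :=
  Relation.EqvGen.rel _ _ h

theorem conn_le {E : Multiset (ℤ × ℤ)} {Q : ℤ → ℤ → Prop} (hQ : Equivalence Q)
    (h : ∀ c ∈ E, Q c.1 c.2) {a b : ℤ} (hab : Conn E a b) : Q a b := by
  induction hab with
  | rel a b hab => exact h (a, b) hab
  | refl a => exact hQ.refl a
  | symm a b _ ih => exact hQ.symm ih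
  | trans a b c _ _ ih1 ih2 => exact hQ.trans ih1 ih2

theorem conn_mono {E F : Multiset (ℤ × ℤ)} (h : ∀ c ∈ E, c ∈ F) {a b : ℤ} (hab : Conn E a b) :
    Conn F a b :=
  conn_le (conn_equiv F) (fun c hc => conn_edge (h c hc)) hab

theorem len_add {v : ℕ} (a : ℤ) {y : ℕ} (h : 2 * y ≤ v) : len v (a, a + y) = y := by
  simp only [len, add_sub_cancel_left, Int.natAbs_natCast]
  omega

theorem len_sub {v : ℕ} (a : ℤ) {y : ℕ} (h : 2 * y ≤ v) : len v (a, a - y) = y := by
  have : a - y - a = -(y : ℤ) := by ring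
  simp only [len, this, Int.natAbs_neg, Int.natAbs_natCast]
  omega

theorem len_swap (v : ℕ) (a b : ℤ) : len v (a, b) = len v (b, a) := by
  have : (b - a).natAbs = (a - b).natAbs := by omega
  simp only [len, this]

theorem lens_cons (v : ℕ) (c : ℤ × ℤ) (E : Multiset (ℤ × ℤ)) :
    lens v (c ::ₘ E) = len v c ::ₘ lens v E := by simp [lens]

theorem lens_add (v : ℕ) (E F : Multiset (ℤ × ℤ)) : lens v (E + F) = lens v E + lens v F := by
  simp [lens]

theorem handshake (S : Finset ℤ) (E : Multiset (ℤ × ℤ)) (h : ∀ c ∈ E, c.1 ∈ S ↔ c.2 ∈ S) :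
    Even (∑ t ∈ S, deg E t) := by
  induction E using Multiset.induction_on with
  | empty => simp [deg_zero]
  | cons c E ih =>
    have ih' := ih (fun d hd => h d (Multiset.mem_cons_of_mem hd))
    have hc := h c (Multiset.mem_cons_self _ _)
    simp only [deg_cons, Finset.sum_add_distrib, Finset.sum_ite_eq']
    obtain ⟨k, hk⟩ := ih'
    by_cases h1 : c.1 ∈ S
    · rw [if_pos h1, if_pos (hc.1 h1)]
      exact ⟨k + 1, by omega⟩
    · rw [if_neg h1, if_neg (fun h2 => h1 (hc.2 h2))]
      exact ⟨k, by omega⟩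

open Classical in
/-- every component contains an even number of loose ends -/
theorem parity {v : ℕ} {E : Multiset (ℤ × ℤ)} {O : Multiset ℤ}
    (h : ∀ t, deg E t + O.count t = if 0 ≤ t ∧ t < v then 2 else 0) (a : ℤ) :
    Even (O.filter (Conn E a)).card := by
  set S : Finset ℤ := (Finset.Ico (0 : ℤ) v).filter (Conn E a) with hS
  have hr : ∀ t, 0 < deg E t + O.count t → 0 ≤ t ∧ t < v := by
    intro t ht
    by_contra h3
    have := h t
    rw [if_neg h3] at this
    omega
  have h1 : Even (∑ t ∈ S, deg E t) := by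
    apply handshake
    intro c hc
    have a1 := hr c.1 (by have := deg_pos_fst hc; omega)
    have a2 := hr c.2 (by have := deg_pos_snd hc; omega)
    have a3 : Conn E c.1 c.2 := conn_edge hc
    simp only [hS, Finset.mem_filter, Finset.mem_Ico]
    exact ⟨fun h => ⟨a2, (conn_equiv E).trans h.2 a3⟩,
      fun h => ⟨a1, (conn_equiv E).trans h.2 ((conn_equiv E).symm a3)⟩⟩
  have h2 : ∑ t ∈ S, (deg E t + O.count t) = 2 * S.card := by
    rw [Finset.sum_congr rfl (g := fun _ => 2)]
    · simp [mul_comm]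
    · intro t ht
      simp only [hS, Finset.mem_filter, Finset.mem_Ico] at ht
      rw [h t, if_pos ht.1]
  have h3 : ∑ t ∈ S, O.count t = (O.filter (Conn E a)).card := by
    rw [← Multiset.sum_count_eq_card (s := S) (m := O.filter (Conn E a))]
    · apply Finset.sum_congr rfl
      intro t ht
      simp only [hS, Finset.mem_filter] at ht
      rw [Multiset.count_filter, if_pos ht.2]
    · intro t ht
      rw [Multiset.mem_filter] at ht
      simp only [hS, Finset.mem_filter, Finset.mem_Ico]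
      exact ⟨hr t (by have := Multiset.count_pos.2 ht.1; omega), ht.2⟩
  rw [Finset.sum_add_distrib, h3] at h2
  obtain ⟨k, hk⟩ := h1
  exact ⟨S.card - k, by omega⟩

theorem good_flip {v : ℕ} {E : Multiset (ℤ × ℤ)} {s e a b c d : ℤ}
    (h : Good v ((a, b) ::ₘ (c, d) ::ₘ E) s e) : Good v ((a, c) ::ₘ (b, d) ::ₘ E) s e := by
  intro t
  have := h t
  simp only [deg_cons] at this ⊢
  omega

/-- a flip between two different components keeps everything connected -/
theorem flip_merge {v : ℕ} {E : Multiset (ℤ × ℤ)} {s e a b c d : ℤ}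
    (h : Good v ((a, b) ::ₘ (c, d) ::ₘ E) s e) (hn : ¬ Conn ((a, b) ::ₘ (c, d) ::ₘ E) a c)
    {x y : ℤ} (hxy : Conn ((a, b) ::ₘ (c, d) ::ₘ E) x y) :
    Conn ((a, c) ::ₘ (b, d) ::ₘ E) x y := by
  classical
  have eq1 := conn_equiv ((a, b) ::ₘ (c, d) ::ₘ E)
  have eq2 := conn_equiv ((a, c) ::ₘ (b, d) ::ₘ E)
  have eq0 := conn_equiv E
  have up1 : ∀ {x y}, Conn E x y → Conn ((a, b) ::ₘ (c, d) ::ₘ E) x y := fun hh =>
    conn_mono (fun c hc => by simp [hc]) hh
  have up2 : ∀ {x y}, Conn E x y → Conn ((a, c) ::ₘ (b, d) ::ₘ E) x y := fun hh =>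
    conn_mono (fun c hc => by simp [hc]) hh
  have hab : Conn ((a, b) ::ₘ (c, d) ::ₘ E) a b := conn_edge (by simp)
  have hcd : Conn ((a, b) ::ₘ (c, d) ::ₘ E) c d := conn_edge (by simp)
  have hac : Conn ((a, c) ::ₘ (b, d) ::ₘ E) a c := conn_edge (by simp)
  have hbd : Conn ((a, c) ::ₘ (b, d) ::ₘ E) b d := conn_edge (by simp)
  have key : Conn E a b ∨ Conn E c d := by
    by_contra hcon
    push Not at hcon
    obtain ⟨n1, n2⟩ := hcon
    have n3 : ¬ Conn E a c := fun hh => hn (up1 hh)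
    have n4 : ¬ Conn E a d := fun hh => hn (eq1.trans (up1 hh) (eq1.symm hcd))
    have n5 : ¬ Conn E b c := fun hh => hn (eq1.trans hab (up1 hh))
    have n6 : ¬ Conn E b d := fun hh => hn (eq1.trans hab (eq1.trans (up1 hh) (eq1.symm hcd)))
    have hO : ∀ t, deg E t + (a ::ₘ b ::ₘ c ::ₘ d ::ₘ s ::ₘ e ::ₘ 0).count t =
        if 0 ≤ t ∧ t < v then 2 else 0 := by
      intro t
      have := h t
      simp only [deg_cons] at this
      simp only [Multiset.count_cons, Multiset.count_zero]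
      omega
    have pa := parity hO a
    have pb := parity hO b
    have pc := parity hO c
    have n1' : ¬ Conn E b a := fun hh => n1 (eq0.symm hh)
    have n3' : ¬ Conn E c a := fun hh => n3 (eq0.symm hh)
    have n5' : ¬ Conn E c b := fun hh => n5 (eq0.symm hh)
    have ra := eq0.refl a
    have rb := eq0.refl b
    have rc := eq0.refl c
    have qa : Conn E a s ∨ Conn E a e := by
      by_contra hh
      push Not at hh
      simp [Multiset.filter_singleton, n1, n3, n4, ra, hh.1, hh.2] at pa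
    have qb : Conn E b s ∨ Conn E b e := by
      by_contra hh
      push Not at hh
      simp [Multiset.filter_singleton, n1', n5, n6, rb, hh.1, hh.2] at pb
    have qc : Conn E c s ∨ Conn E c e := by
      by_contra hh
      push Not at hh
      simp [Multiset.filter_singleton, n2, n3', n5', rc, hh.1, hh.2] at pc
    rcases qa with qa | qa <;> rcases qb with qb | qb <;> rcases qc with qc | qc
    all_goals first
      | exact n1 (eq0.trans qa (eq0.symm qb))
      | exact n3 (eq0.trans qa (eq0.symm qc))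
      | exact n5 (eq0.trans qb (eq0.symm qc))
  have k2 : Conn ((a, c) ::ₘ (b, d) ::ₘ E) a b ∧ Conn ((a, c) ::ₘ (b, d) ::ₘ E) c d := by
    rcases key with key | key
    · exact ⟨up2 key, eq2.trans (eq2.symm hac) (eq2.trans (up2 key) hbd)⟩
    · exact ⟨eq2.trans hac (eq2.trans (up2 key) (eq2.symm hbd)), up2 key⟩
  refine conn_le eq2 ?_ hxy
  intro f hf
  simp only [Multiset.mem_cons] at hf
  rcases hf with rfl | rfl | hf
  · exact k2.1
  · exact k2.2
  · exact conn_edge (by simp [hf])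

/-- rotation at the end `e` -/
theorem rotate {v : ℕ} {E : Multiset (ℤ × ℤ)} {s e u p q : ℤ}
    (h : Good v ((u, p) ::ₘ (p, q) ::ₘ E) s e) (hc : AllConn v ((u, p) ::ₘ (p, q) ::ₘ E)) :
    (Good v ((e, p) ::ₘ (u, p) ::ₘ E) s q ∧ AllConn v ((e, p) ::ₘ (u, p) ::ₘ E)) ∨
    (Good v ((e, p) ::ₘ (p, q) ::ₘ E) s u ∧ AllConn v ((e, p) ::ₘ (p, q) ::ₘ E)) := by
  have eq0 := conn_equiv E
  have hp := h p
  simp only [deg_cons, if_true] at hp
  have hp0 : deg E p = 0 := by split_ifs at hp <;> omega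
  have hpe : p ≠ e := by
    intro h1
    rw [if_pos h1] at hp
    split_ifs at hp <;> omega
  have hpr : 0 ≤ p ∧ p < v := h.snd (c := (u, p)) (by simp)
  have n1 : ¬ Conn E e p := by
    intro hh
    have : e = p ↔ p = p := by
      refine conn_le (Q := fun x y => x = p ↔ y = p) ⟨fun _ => Iff.rfl, fun h => h.symm,
        fun h1 h2 => h1.trans h2⟩ ?_ hh
      intro c hc
      have a1 := deg_pos_fst hc
      have a2 := deg_pos_snd hc
      constructor
      · intro h3; rw [h3] at a1; omega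
      · intro h3; rw [h3] at a2; omega
    exact hpe (this.2 rfl).symm
  have key : Conn E e q ∨ Conn E e u := by
    by_contra hcon
    push Not at hcon
    have h1 := hc e p h.e_mem.1 h.e_mem.2 hpr.1 hpr.2
    have : Conn E e e ↔ Conn E e p := by
      refine conn_le (Q := fun x y => Conn E e x ↔ Conn E e y) ⟨fun _ => Iff.rfl, fun h => h.symm,
        fun h1 h2 => h1.trans h2⟩ ?_ h1
      intro c hc
      simp only [Multiset.mem_cons] at hc
      rcases hc with rfl | rfl | hc
      · simp [hcon.2, n1]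
      · simp [hcon.1, n1]
      · have := conn_edge (a := c.1) (b := c.2) hc
        exact ⟨fun h => eq0.trans h this, fun h => eq0.trans h (eq0.symm this)⟩
    exact n1 (this.1 (eq0.refl e))
  rcases key with key | key
  · left
    have eq2 := conn_equiv ((e, p) ::ₘ (u, p) ::ₘ E)
    refine ⟨?_, ?_⟩
    · intro t
      have := h t
      simp only [deg_cons] at this ⊢
      omega
    · intro a b a1 a2 b1 b2
      refine conn_le eq2 ?_ (hc a b a1 a2 b1 b2)
      intro c hc
      simp only [Multiset.mem_cons] at hc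
      rcases hc with rfl | rfl | hc
      · exact conn_edge (by simp)
      · exact eq2.trans (eq2.symm (conn_edge (a := e) (by simp)))
          (conn_mono (fun c hc => by simp [hc]) key)
      · exact conn_edge (by simp [hc])
  · right
    have eq2 := conn_equiv ((e, p) ::ₘ (p, q) ::ₘ E)
    refine ⟨?_, ?_⟩
    · intro t
      have := h t
      simp only [deg_cons] at this ⊢
      omega
    · intro a b a1 a2 b1 b2
      refine conn_le eq2 ?_ (hc a b a1 a2 b1 b2)
      intro c hc
      simp only [Multiset.mem_cons] at hc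
      rcases hc with rfl | rfl | hc
      · exact eq2.trans (eq2.symm (conn_mono (fun c hc => by simp [hc]) key))
          (conn_edge (by simp))
      · exact conn_edge (by simp)
      · exact conn_edge (by simp [hc])

/-- following a chain of edges to the right one reaches the zone -/
theorem chain {Q : ℤ → ℤ → Prop} (hQ : Equivalence Q) {z : ℕ} {a : ℤ} (hz : ZI Q z a)
    (P : ℤ → Prop) (h : ∀ t, P t → t < a → ∃ t2, P t2 ∧ t < t2 ∧ t2 < a + z ∧ Q t t2)
    (t : ℤ) (ht : P t) (ht2 : t < a + z) : Q t a := by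
  have : ∀ n : ℕ, ∀ t, P t → t < a + z → a - t ≤ n → Q t a := by
    intro n
    induction n with
    | zero => intro t _ h2 h3; exact hz t (by omega) h2
    | succ n ih =>
      intro t h1 h2 h3
      by_cases h4 : t < a
      · obtain ⟨t2, b1, b2, b3, b4⟩ := h t h1 h4
        exact hQ.trans b4 (ih t2 b1 b3 (by omega))
      · exact hz t (by omega) h2
  exact this (a - t).toNat t ht ht2 (by omega)

end Pool.Agent.BHR
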