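import Pool.Agent.Lib.MP_7ae50b_co.Main

set_option autoImplicit false

namespace Pool.Agent.Lib.MP_7ae50b_co.BoundedOld

/-- For all `m, k` there is `N` such that a list `L` of `v - 1` lengths is realized by a Hamiltonian
path of `K_v` as soon as (i) for some `u` coprime to `v` all but at most `k` entries of `L` are
congruent to `± u y` modulo `v` with `y ≤ m`, and (ii) for each prime `p ∣ v` at least `N` entries
of `L` are not divisible by `p`. -/
theorem result : ∀ m k : ℕ, ∃ N : ℕ, ∀ (v : ℕ) (L : Multiset ℕ) (u : ℕ), 2 ≤ v →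
    Nat.Coprime u v → Multiset.card L = v - 1 → (∀ x ∈ L, 1 ≤ x ∧ x ≤ v / 2) →
    Multiset.card (Multiset.filter
      (fun x => ¬ ∃ y ≤ m, u * y ≡ x [MOD v] ∨ u * y + x ≡ 0 [MOD v]) L) ≤ k →
    (∀ p : ℕ, p.Prime → p ∣ v → N ≤ Multiset.card (Multiset.filter (fun x => ¬ p ∣ x) L)) →
    ∃ P : List ℕ, P.Perm (List.range v) ∧
      Multiset.ofList
        (List.zipWith (fun a b => min (a - b + (b - a)) (v - (a - b + (b - a)))) P P.tail) = L :=
  Pool.Agent.BHR.main

end Pool.Agent.Lib.MP_7ae50b_co.BoundedOld
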