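import Pool.Agent.Lib.MP_7ae50b_co.Line

set_option autoImplicit false

namespace Pool.Agent.BHR

def Exc (I : Finset ℤ) (Dl : ℤ) (Q : ℤ → ℤ → Prop) (t : ℤ) : Prop :=
  ∃ t', 0 ≤ t' ∧ t' < t ∧ (∀ lo ∈ I, lo + Dl ≤ t' ∨ t ≤ lo) ∧ Q t t'

def Av (I : Finset ℤ) (Dl a : ℤ) : Prop := ∀ lo ∈ I, a < lo ∨ lo + Dl ≤ a

structure Inv (A : Finset ℕ) (w x M : ℕ) (I : Finset ℤ) (Dl : ℤ) (P0 : (ℤ → ℤ → Prop) → Prop)
    (E : Multiset (ℤ × ℤ)) (h : ℤ) (z : ℕ) (U : Multiset ℤ) (Zs : Finset (ℕ × ℤ)) : Prop where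
  line : Line E x h z U
  h0 : 0 ≤ h
  edges : Edges A E
  ivl : ∀ lo ∈ I, (lo + Dl ≤ h ∧ ∃ z' ∈ A, Pure E z' lo (lo + Dl)) ∨ Pure E z lo h
  zone : ∀ p ∈ Zs, p.1 ∈ A ∧ Pure E p.1 p.2 (p.2 + M) ∧ p.2 + M ≤ h ∧
    ∀ lo ∈ I, p.2 + M ≤ lo ∨ lo + Dl ≤ p.2
  disj : ∀ p ∈ Zs, ∀ q ∈ Zs, p ≠ q → p.2 + M ≤ q.2 ∨ q.2 + M ≤ p.2
  lc : ∀ Q : ℤ → ℤ → Prop, Equivalence Q → (∀ c ∈ E, Av I Dl c.1 → Q c.1 c.2) →
    (∀ p ∈ Zs, ZI Q p.1 p.2) → P0 Q → ∀ t, 0 < t → t < h + z → Left w E t ∨ Exc I Dl Q t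

theorem Pure.add {E : Multiset (ℤ × ℤ)} {z : ℕ} {a b : ℤ} (h : Pure E z a b)
    (F : Multiset (ℤ × ℤ)) : Pure (E + F) z a b :=
  fun t t1 t2 => Multiset.mem_add.2 (Or.inl (h t t1 t2))

theorem pure_run (E : Multiset (ℤ × ℤ)) (z : ℕ) (a b : ℤ) :
    Pure (E + run (Finset.Ico a b) z) z a b :=
  fun _ t1 t2 => Multiset.mem_add.2 (Or.inr (mem_run (Finset.mem_Ico.2 ⟨t1, t2⟩)))

theorem Left.add {w : ℕ} {E : Multiset (ℤ × ℤ)} {t : ℤ} (h : Left w E t)
    (F : Multiset (ℤ × ℤ)) : Left w (E + F) t := by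
  obtain ⟨y, y1, y2, y3⟩ := h
  exact ⟨y, y1, y2, Multiset.mem_add.2 (Or.inl y3)⟩

theorem Edges.add {A : Finset ℕ} {E F : Multiset (ℤ × ℤ)} (h : Edges A E) (h' : Edges A F) :
    Edges A (E + F) := by
  intro c hc
  rcases Multiset.mem_add.1 hc with hc | hc
  · exact h c hc
  · exact h' c hc

theorem edges_run {A : Finset ℕ} {z : ℕ} (hz : z ∈ A) (S : Finset ℤ) : Edges A (run S z) :=
  fun _ hc => ⟨z, hz, (of_mem_run hc).2⟩

theorem left_run {w z : ℕ} (h1 : 1 ≤ z) (h2 : z ≤ w) (E : Multiset (ℤ × ℤ)) {a b t : ℤ}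
    (t1 : a + z ≤ t) (t2 : t < b + z) : Left w (E + run (Finset.Ico a b) z) t :=
  ⟨z, h1, h2, by simpa using pure_run E z a b (t - z) (by omega) (by omega)⟩

section
variable {A : Finset ℕ} {w x M : ℕ} {I : Finset ℤ} {Dl : ℤ} {P0 : (ℤ → ℤ → Prop) → Prop}
  {E : Multiset (ℤ × ℤ)} {h : ℤ} {z : ℕ} {U : Multiset ℤ} {Zs : Finset (ℕ × ℤ)}

theorem Inv.ext (hA : ∀ x ∈ A, 1 ≤ x ∧ x ≤ w) (hz : z ∈ A) (hI : Inv A w x M I Dl P0 E h z U Zs)
    {h' : ℤ} (hh : h ≤ h') : Inv A w x M I Dl P0 (E + run (Finset.Ico h h') z) h' z U Zs := by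
  have h0 := hI.h0
  refine ⟨hI.line.ext h0 hh, by omega, hI.edges.add (edges_run hz _), ?_, ?_, hI.disj, ?_⟩
  · intro lo hlo
    rcases hI.ivl lo hlo with ⟨a1, z', a2, a3⟩ | a1
    · exact Or.inl ⟨by omega, z', a2, a3.add _⟩
    · refine Or.inr (fun t t1 t2 => ?_)
      by_cases h1 : t < h
      · exact a1.add _ t t1 h1
      · exact pure_run _ _ _ _ t (by omega) t2
  · intro p hp
    obtain ⟨a1, a2, a3, a4⟩ := hI.zone p hp
    exact ⟨a1, a2.add _, by omega, a4⟩
  · intro Q hQ q1 q2 q3 t t1 t2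
    by_cases h1 : t < h + z
    · exact (hI.lc Q hQ (fun c hc => q1 c (Multiset.mem_add.2 (Or.inl hc))) q2 q3 t t1 h1).imp
        (fun h => h.add _) id
    · exact Or.inl (left_run (hA z hz).1 (hA z hz).2 _ (by omega) t2)

theorem Inv.trans (hG : Gen A) (hA : ∀ x ∈ A, 1 ≤ x ∧ x ≤ w) (hM : w ≤ M) (hz : z ∈ A)
    (hI : Inv A w x M I Dl P0 E h z U Zs) {z' : ℕ} (hz' : z' ∈ A) (hzz : z ≠ z')
    (hav : ∀ lo ∈ I, h + (5 * w + M) ≤ lo ∨ lo + Dl ≤ h) :
    ∃ F U', Inv A w x M I Dl P0 (E + F) (h + (5 * w + M)) z' (U + U')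
      (insert (z', h + 5 * w) Zs) ∧ U'.card = (z + z') % 2 ∧ Edges A F ∧ F.card ≤ 11 * w + M := by
  have h0 := hI.h0
  have a1 := hA z hz
  have a2 := hA z' hz'
  obtain ⟨F, U', f1, f2, f3, f4, f5, f6, f7, -⟩ := trans_core hG hA hI.line h0 hz hz' hzz
    (Or.inl rfl)
  refine ⟨F + run (Finset.Ico (h + 5 * w) (h + (5 * w + M))) z', U', ?_, f2,
    f3.add (edges_run hz' _), ?_⟩
  · rw [← add_assoc]
    refine ⟨f1.ext (by omega) (by omega), by omega, (hI.edges.add f3).add (edges_run hz' _), ?_, ?_,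
      ?_, ?_⟩
    · intro lo hlo
      rcases hav lo hlo with b1 | b1
      · exact Or.inr (fun t t1 t2 => by omega)
      · left
        rcases hI.ivl lo hlo with ⟨_, z'', b2, b3⟩ | b2
        · exact ⟨by omega, z'', b2, (b3.add _).add _⟩
        · exact ⟨by omega, z, hz, fun t t1 t2 => (b2.add _).add _ t t1 (by omega)⟩
    · intro p hp
      rcases Finset.mem_insert.1 hp with rfl | hp
      · refine ⟨hz', fun t t1 t2 => pure_run _ _ _ _ t t1 (by simp only at t2; omega),
          by simp only; omega, fun lo hlo => ?_⟩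
        have := hav lo hlo
        simp only
        omega
      · obtain ⟨b1, b2, b3, b4⟩ := hI.zone p hp
        exact ⟨b1, (b2.add _).add _, by omega, b4⟩
    · intro p hp q hq hpq
      rcases Finset.mem_insert.1 hp with rfl | hp <;> rcases Finset.mem_insert.1 hq with rfl | hq
      · exact absurd rfl hpq
      · have := hI.zone q hq
        simp only
        omega
      · have := hI.zone p hp
        simp only
        omega
      · exact hI.disj p hp q hq hpq
    · intro Q hQ q1 q2 q3 t t1 t2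
      by_cases h1 : t < h + z
      · exact (hI.lc Q hQ (fun c hc => q1 c (by simp [hc]))
          (fun p hp => q2 p (Finset.mem_insert_of_mem hp)) q3 t t1 h1).imp
          (fun h => (h.add _).add _) id
      by_cases h2 : h + 5 * w + z' ≤ t
      · exact Or.inl (left_run a2.1 a2.2 _ h2 t2)
      rcases Nat.lt_or_gt_of_ne hzz with h3 | h3
      · right
        have hZ : ZI Q z' (h + 5 * w) := q2 _ (Finset.mem_insert_self _ _)
        have key : ∀ u, h ≤ u → u < h + 5 * w + z' → Q u (h + 5 * w) := by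
          refine chain hQ hZ (fun u => h ≤ u) (fun u u1 u2 => ?_)
          obtain ⟨t2, b1, b2, _, b4⟩ := f7 h3 u u1 u2
          refine ⟨t2, by omega, b1, b2, q1 (u, t2) (by simp [b4]) (fun lo hlo => ?_)⟩
          have := hav lo hlo
          simp only
          omega
        refine ⟨h, h0, by omega, fun lo hlo => ?_,
          hQ.trans (key t (by omega) (by omega)) (hQ.symm (key h le_rfl (by omega)))⟩
        have := hav lo hlo
        omega
      · left
        have := (f6 h3 t (by omega) (by omega)).add E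
        rw [add_comm] at this
        exact this.add _
  · rw [Multiset.card_add, card_run, Int.card_Ico]
    omega

end

theorem avoid (I : Finset ℤ) {Dl W : ℤ} (h : 0 ≤ Dl + W) (a : ℤ) :
    ∃ b, a ≤ b ∧ b ≤ a + I.card * (Dl + W) ∧ ∀ lo ∈ I, b + W ≤ lo ∨ lo + Dl ≤ b := by
  by_contra hcon
  push Not at hcon
  have h1 : ∀ j : ℕ, ∃ lo, j ∈ Finset.range (I.card + 1) →
      lo ∈ I ∧ lo < a + j * (Dl + W) + W ∧ a + j * (Dl + W) < lo + Dl := by
    intro j
    by_cases hj : j ∈ Finset.range (I.card + 1)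
    · have h2 : (j : ℤ) ≤ I.card := by
        have := Finset.mem_range.1 hj
        omega
      have h3 : (0 : ℤ) ≤ j * (Dl + W) := by positivity
      obtain ⟨lo, hlo⟩ := hcon (a + j * (Dl + W)) (by omega) (by nlinarith)
      exact ⟨lo, fun _ => hlo⟩
    · exact ⟨0, fun h => absurd h hj⟩
  choose f hf using h1
  obtain ⟨i, hi, j, hj, hij, h2⟩ := Finset.exists_ne_map_eq_of_card_lt_of_maps_to
    (s := Finset.range (I.card + 1)) (t := I) (by simp) (f := f) (fun j hj => (hf j hj).1)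
  obtain ⟨-, a1, a2⟩ := hf i hi
  obtain ⟨-, a3, a4⟩ := hf j hj
  rw [h2] at a1 a2
  rcases Nat.lt_or_gt_of_ne hij with h3 | h3
  · have : (i : ℤ) + 1 ≤ j := by omega
    nlinarith
  · have : (j : ℤ) + 1 ≤ i := by omega
    nlinarith

def pc : ℕ → List ℕ → ℕ
  | _, [] => 0
  | z, y :: ys => (z + y) % 2 + pc y ys

theorem pc_mod (z : ℕ) (ys : List ℕ) : pc z ys % 2 = (z + ys.getLastD z) % 2 := by
  induction ys generalizing z with
  | nil => simp only [pc, List.getLastD_nil]; omega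
  | cons y ys ih =>
    have := ih y
    simp only [pc, List.getLastD_cons]
    omega

theorem pc_same (z : ℕ) (ys : List ℕ) (h : ∀ y ∈ ys, y % 2 = z % 2) : pc z ys = 0 := by
  induction ys generalizing z with
  | nil => rfl
  | cons y ys ih =>
    have h1 := h y (by simp)
    have := ih y (fun u hu => by rw [h u (by simp [hu]), h1])
    simp only [pc]
    omega

theorem pc_le (z : ℕ) (l1 l2 : List ℕ) (h1 : ∀ y ∈ l1, y % 2 = z % 2)
    (h2 : ∀ y ∈ l2, y % 2 ≠ z % 2) : pc z (l1 ++ l2) ≤ 1 := by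
  induction l1 generalizing z with
  | nil =>
    cases l2 with
    | nil => simp [pc]
    | cons y ys =>
      have a1 := h2 y (by simp)
      have := pc_same y ys (fun u hu => by have := h2 u (by simp [hu]); omega)
      simp only [List.nil_append, pc]
      omega
  | cons y ys ih =>
    have a1 := h1 y (by simp)
    have := ih y (fun u hu => by rw [h1 u (by simp [hu]), a1]) (fun u hu => by
      rw [a1]; exact h2 u hu)
    simp only [List.cons_append, pc]
    omega

theorem count_lens_le (v l : ℕ) (F : Multiset (ℤ × ℤ)) : (lens v F).count l ≤ F.card := by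
  have := Multiset.count_le_card l (lens v F)
  simpa [lens] using this

theorem build {A : Finset ℕ} {v w x M : ℕ} {I : Finset ℤ} {Dl : ℤ}
    {P0 : (ℤ → ℤ → Prop) → Prop} (hG : Gen A) (hA : ∀ x ∈ A, 1 ≤ x ∧ x ≤ w) (hM : w ≤ M)
    (hv : 2 * w ≤ v) (hD : 0 ≤ Dl) {S c Er : ℤ} (hc : 0 ≤ c)
    (hS : I.card * (Dl + (5 * w + M)) + (5 * w + M) ≤ S) (hEr : S + c + 11 * w + M ≤ Er)
    (n : ℕ → ℤ) (ys : List ℕ) (z : ℕ) (hys : ∀ y ∈ z :: ys, y ∈ A ∧ S + c ≤ n y)
    (hnd : (z :: ys).Nodup) {E : Multiset (ℤ × ℤ)} {h : ℤ} {U : Multiset ℤ}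
    {Zs : Finset (ℕ × ℤ)} (hI : Inv A w x M I Dl P0 E h z U Zs) {a : ℤ} (a1 : a ≤ h)
    (a2 : h ≤ a + S) :
    ∃ F U' Zs', Inv A w x M I Dl P0 (E + F) (a + ((z :: ys).map n).sum - c) (ys.getLastD z)
        (U + U') Zs' ∧ U'.card = pc z ys ∧ Zs'.card ≤ Zs.card + ys.length ∧
      (∀ p ∈ Zs', p ∈ Zs ∨ h ≤ p.2) ∧
      (∀ l, ((lens v F).count l : ℤ) ≤ (if l ∈ z :: ys then n l else 0) + (ys.length + 1) * Er ∧
        (if l ∈ z :: ys then n l else 0) ≤ (lens v F).count l + (ys.length + 1) * Er) ∧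
      ∀ y ∈ z :: ys, ∃ b, h ≤ b ∧ Pure (E + F) y b (b + n y - S - c) ∧
        ∀ p ∈ Zs', p.2 + M ≤ b ∨ b + n y - S - c ≤ p.2 := by
  have hS0 : (0 : ℤ) ≤ I.card * (Dl + (5 * w + M)) := by positivity
  induction ys generalizing z E h U Zs a with
  | nil =>
    obtain ⟨b1, b2⟩ := hys z (by simp)
    have b3 := hA z b1
    refine ⟨run (Finset.Ico h (a + n z - c)) z, 0, Zs, ?_, by simp [pc], by simp,
      fun p hp => Or.inl hp, ?_, ?_⟩
    · simpa using hI.ext hA b1 (h' := a + n z - c) (by omega)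
    · intro l
      rw [lens_run (by omega), Multiset.count_replicate, Int.card_Ico]
      simp only [List.mem_singleton, List.length_nil]
      by_cases hl : l = z
      · subst hl
        simp only [if_true]
        omega
      · rw [if_neg hl, if_neg (Ne.symm hl)]
        omega
    · intro y hy
      obtain rfl : y = z := by simpa using hy
      refine ⟨h, le_rfl, fun t t1 t2 => pure_run _ _ _ _ t t1 (by omega), fun p hp => ?_⟩
      exact Or.inl (hI.zone p hp).2.2.1
  | cons y ys ih =>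
    obtain ⟨b1, b2⟩ := hys z (by simp)
    obtain ⟨b4, b5⟩ := hys y (by simp)
    have b3 := hA z b1
    have b6 : z ≠ y := by
      rintro rfl
      simp at hnd
    have b7 : z ∉ y :: ys := (List.nodup_cons.1 hnd).1
    obtain ⟨τ, t1, t2, t3⟩ := avoid I (Dl := Dl) (W := 5 * w + M) (by omega) (a + n z)
    obtain ⟨F1, U1, g1, g2, g3, g4⟩ := (hI.ext hA b1 (h' := τ) (by omega)).trans hG hA hM b1 b4 b6
      t3
    obtain ⟨F2, U2, Zs2, k1, k2, k3, k4, k5, k6⟩ := ih y
      (fun u hu => hys u (List.mem_cons_of_mem _ hu)) (List.nodup_cons.1 hnd).2 g1 (a := a + n z)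
      (by omega) (by omega)
    refine ⟨run (Finset.Ico h τ) z + F1 + F2, U1 + U2, Zs2, ?_, ?_, ?_, ?_, ?_, ?_⟩
    · have e1 : a + ((z :: y :: ys).map n).sum - c = a + n z + ((y :: ys).map n).sum - c := by
        simp only [List.map_cons, List.sum_cons]; ring
      rw [e1, List.getLastD_cons, ← add_assoc, ← add_assoc, ← add_assoc]
      exact k1
    · rw [Multiset.card_add, g2, k2, pc]
    · have := Finset.card_insert_le (y, τ + 5 * w) Zs
      rw [List.length_cons]
      omega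
    · intro p hp
      rcases k4 p hp with h1 | h1
      · rcases Finset.mem_insert.1 h1 with rfl | h1
        · right; simp only; omega
        · exact Or.inl h1
      · right; omega
    · intro l
      have c1 := k5 l
      have c2 := count_lens_le v l F1
      have c3 : ((y :: ys).length + 1 : ℤ) * Er = (ys.length + 1) * Er + Er := by
        rw [List.length_cons]; push_cast; ring
      rw [c3, lens_add, lens_add, lens_run (by omega), Multiset.count_add, Multiset.count_add,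
        Multiset.count_replicate, Int.card_Ico]
      by_cases hl : l = z
      · subst hl
        rw [if_neg b7] at c1
        rw [if_pos rfl, if_pos (by simp)]
        omega
      · rw [if_neg (Ne.symm hl)]
        have : l ∈ z :: y :: ys ↔ l ∈ y :: ys := by
          rw [List.mem_cons]; simp only [hl, false_or]
        simp only [this]
        omega
    · intro u hu
      rcases List.mem_cons.1 hu with rfl | hu
      · refine ⟨h, le_rfl, fun t t1 t2 => ?_, fun p hp => ?_⟩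
        · have := pure_run E u h τ t t1 (by omega)
          simp only [Multiset.mem_add] at this ⊢
          tauto
        · rcases k4 p hp with h1 | h1
          · rcases Finset.mem_insert.1 h1 with rfl | h1
            · right; simp only; omega
            · exact Or.inl (hI.zone p h1).2.2.1
          · right; omega
      · obtain ⟨b, c1, c2, c3⟩ := k6 u hu
        refine ⟨b, by omega, ?_, c3⟩
        rwa [← add_assoc, ← add_assoc]

end Pool.Agent.BHR
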