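import Pool.Agent.Lib.MP_7ae50b_co.Rot

set_option autoImplicit false

namespace Pool.Agent.BHR

theorem card_split (X : Multiset ℕ) (S : Finset ℕ) (z : ℕ) (hS : ∀ a ∈ X, a ∈ S) (hz : z ∈ S) :
    X.card = X.count z + ∑ l ∈ S.erase z, X.count l := by
  rw [Finset.add_sum_erase S (fun l => X.count l) hz, Multiset.sum_count_eq_card hS]

theorem par_total {X Y : Multiset ℕ} (h : X.card = Y.card) (z : ℕ)
    (h1 : ∀ l, l ≠ z → X.count l % 2 = Y.count l % 2) : X.count z % 2 = Y.count z % 2 := by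
  have a1 := card_split X (insert z (X + Y).toFinset) z (fun a ha => by simp [ha]) (by simp)
  have a2 := card_split Y (insert z (X + Y).toFinset) z (fun a ha => by simp [ha]) (by simp)
  have a3 : (∑ l ∈ (insert z (X + Y).toFinset).erase z, X.count l) % 2 =
      (∑ l ∈ (insert z (X + Y).toFinset).erase z, Y.count l) % 2 := by
    rw [Finset.sum_nat_mod, Finset.sum_congr rfl (fun l hl => h1 l (Finset.ne_of_mem_erase hl)),
      ← Finset.sum_nat_mod]
  omega

theorem eq_total {X Y : Multiset ℕ} (h : X.card = Y.card) (z : ℕ)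
    (h1 : ∀ l, l ≠ z → X.count l = Y.count l) : X = Y := by
  have a1 := card_split X (insert z (X + Y).toFinset) z (fun a ha => by simp [ha]) (by simp)
  have a2 := card_split Y (insert z (X + Y).toFinset) z (fun a ha => by simp [ha]) (by simp)
  rw [Finset.sum_congr rfl (fun l hl => h1 l (Finset.ne_of_mem_erase hl))] at a1
  ext l
  by_cases hl : l = z
  · subst hl; omega
  · exact h1 l hl

theorem sum_count_le (X : Multiset ℕ) (S : Finset ℕ) : ∑ l ∈ S, X.count l ≤ X.card := by
  have a1 := Multiset.sum_count_eq_card (s := S) (m := X.filter (· ∈ S))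
    (fun a ha => (Multiset.mem_filter.1 ha).2)
  rw [Finset.sum_congr rfl (fun l hl => Multiset.count_filter_of_pos (p := (· ∈ S)) hl)] at a1
  rw [a1]
  exact Multiset.card_le_card (Multiset.filter_le _ _)

theorem exists_odd {A : Finset ℕ} (hG : Gen A) : ∃ x ∈ A, Odd x := by
  by_contra hcon
  push Not at hcon
  have := hG (AddSubgroup.zmultiples (2 : ℤ)) (fun x hx => by
    rw [Int.mem_zmultiples_iff]
    have := even_iff_two_dvd.1 (Nat.not_odd_iff_even.1 (hcon x hx))
    exact_mod_cast this)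
  rw [Int.mem_zmultiples_iff] at this
  omega

theorem core_fixed {v w M k La ntr Dr Dl G G' Kt S Err NL T : ℕ} {A : Finset ℕ}
    (hG : Gen A) (hA : ∀ x ∈ A, 1 ≤ x ∧ x ≤ w) (hw : w ∈ A)
    (hM : 2 * w * (w * (w - 1)) ≤ M) (hn1 : ntr % 2 = 0)
    (hn3 : (w = 1 ∧ ntr = 0 ∧ M = 0) ∨ (2 ≤ w ∧ M + w ≤ ntr ∧ w ≤ M))
    (hDr : (k + 1) * (w + ntr * (2 * w)) + k * (La + w) + w * (2 * w) ≤ Dr)
    (hDl : Dr + M + 5 * w + 1 ≤ Dl) (hGG : M + 4 * w + Dl + w ≤ G) (hG' : G + k * La ≤ G')
    (hKt : (k + 1) * ntr + 2 * k + w + 2 * (w * w) * (w + 1 + (k + 1)) ≤ Kt)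
    (hS : (k + 1) * (Dl + (5 * w + M)) + (5 * w + M) + (M + 4 * w + Dl) ≤ S)
    (hE : w * (S + 12 * w + M) + (S + 12 * w + M) ≤ Err)
    (hNL : (w * w + 1) * (w * (Err + Kt)) ≤ NL)
    (hT : Err + Kt + S + w + (k + 1) * (Dl + NL) + NL + G ≤ T)
    {L : Multiset ℕ} (hL : L.card = v - 1) (hL2 : ∀ x ∈ L, 1 ≤ x ∧ 2 * x ≤ v)
    (hL3 : ∀ x ∈ A, T ≤ L.count x) (hL4 : (L.filter (· ∉ A)).card ≤ k)
    (g1 : ∀ x ∈ L.filter (· ∉ A), x ≤ La ∨ G' < x)
    (g2 : ∀ x ∈ L.filter (· ∉ A), ∀ y ∈ L.filter (· ∉ A), y ≤ x + La ∨ x + G' < y) :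
    ∃ E s e, Good v E s e ∧ AllConn v E ∧ lens v E = L := by
  classical
  have hw1 := hA w hw
  have hv1 : T ≤ v - 1 := by
    rw [← hL]
    exact le_trans (hL3 w hw) (Multiset.count_le_card _ _)
  have hv : 2 * w ≤ v := by omega
  obtain ⟨x, hxA, hx⟩ := exists_odd hG
  set R := L.filter (· ∉ A) with hR
  set Sm := R.filter (· ≤ La) with hSm
  set B := R.filter (fun y => ¬ y ≤ La) with hB
  have r1 : Sm + B = R := Multiset.filter_add_not _ _
  have r2 : ∀ y ∈ R, y ∈ L ∧ y ∉ A := fun y hy => Multiset.mem_filter.1 hy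
  have r3 : Sm.card + B.card ≤ k := by rw [← Multiset.card_add, r1]; exact hL4
  obtain ⟨σ, ρ, hZ⟩ := zigzag (v := v) hG' B (by omega) (fun y hy => by
    obtain ⟨a1, a2⟩ := Multiset.mem_filter.1 hy
    have := g1 y a1
    exact ⟨by omega, (hL2 y (r2 y a1).1).2⟩)
    (fun y hy y' hy' => g2 y (Multiset.mem_filter.1 hy).1 y' (Multiset.mem_filter.1 hy').1)
  obtain ⟨n, n1, n2, n3⟩ : ∃ n : ℕ → ℤ, (∀ y, y ≠ x → n y = L.count y - (Err + Kt : ℕ)) ∧
      (L.count x : ℤ) ≤ n x ∧ ∑ y ∈ A, n y = v := by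
    refine ⟨fun y => if y = x then v - ∑ y ∈ A.erase x, ((L.count y : ℤ) - (Err + Kt : ℕ))
      else L.count y - (Err + Kt : ℕ), fun y hy => if_neg hy, ?_, ?_⟩
    · have a1 := sum_count_le L A
      rw [← Finset.add_sum_erase A (fun l => L.count l) hxA] at a1
      have a2 : ∑ y ∈ A.erase x, ((L.count y : ℤ) - (Err + Kt : ℕ)) ≤
          ((∑ y ∈ A.erase x, L.count y : ℕ) : ℤ) := by
        push_cast
        exact Finset.sum_le_sum (fun y _ => by omega)
      simp only [if_true]
      omega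
    · rw [← Finset.add_sum_erase A _ hxA, if_pos rfl,
        Finset.sum_congr rfl (fun y hy => if_neg (Finset.ne_of_mem_erase hy))]
      ring
  have n4 : ∀ y ∈ A, (S : ℤ) + w ≤ n y := by
    intro y hy
    have := hL3 y hy
    by_cases h : y = x
    · subst h; omega
    · rw [n1 y h]; omega
  obtain ⟨e0, e1, e2, hBase⟩ : ∃ e0 : ℤ, 0 ≤ e0 ∧ e0 ≤ M + 4 * w ∧ ∀ I : Finset ℤ,
      I.card ≤ k + 1 → (∀ lo ∈ I, e0 ≤ lo ∧ lo + Dl + w ≤ v) →
      ∃ E0 s Zs, Base v w M A n I Dl (S + w) Err e0 E0 s Zs := by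
    rcases hn3 with ⟨h1, -, h2⟩ | ⟨h1, -, h2⟩
    · subst h1 h2
      have hA1 : A = {1} := by
        ext y
        rw [Finset.mem_singleton]
        exact ⟨fun hy => by have := hA y hy; omega, fun hy => hy ▸ hw⟩
      subst hA1
      refine ⟨0, le_rfl, by omega, fun I _ hI => ?_⟩
      exact base_thin (by omega) (by simpa using n3) (by omega)
        (fun lo hlo => by have := hI lo hlo; omega) (by omega) (by omega)
    · refine base_thick hG hA hw h1 h2 hv (by omega) ?_ (by omega) (by exact_mod_cast hE) n4 n3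
      have : (k + 1) * (Dl + (5 * w + M)) + (5 * w + M) ≤ S := by omega
      exact_mod_cast this
  set I := (Finset.range (B.card + 1)).image
    (fun i => e0 + σ i - (if i % 2 = 1 then w else 0 : ℕ)) with hI
  have i1 : I.card ≤ k + 1 := le_trans Finset.card_image_le (by simp; omega)
  obtain ⟨E0, s, Zs, hb⟩ := hBase I i1 (by
    intro lo hlo
    obtain ⟨i, hi, rfl⟩ := Finset.mem_image.1 hlo
    have a0 := Finset.mem_range.1 hi
    have a1 := hZ.s0
    by_cases h0 : i = 0
    · subst h0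
      simp only [Nat.zero_mod, zero_ne_one, if_false]
      omega
    have a2 := hZ.s5 (by omega)
    have a3 := hZ.s4 1 rfl (by omega)
    split_ifs with h
    · have a4 := hZ.s4 i h (by omega)
      have a5 := hZ.s1 1 i rfl h (by omega) (by omega)
      omega
    · have a4 := hZ.s2 i (by omega) (by omega) (by omega)
      omega)
  obtain ⟨F, e, zN, f1, f2, f3, f4, f5, f6⟩ := rot_stage (L := La) (Sm := Sm) hG hA hw hv hM hn1
    (by omega) hDr (by omega) (by omega) hKt (by omega) hZ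
    (fun y hy => (r2 y (Multiset.mem_filter.1 hy).1).2) (fun y hy => by
      obtain ⟨a1, a2⟩ := Multiset.mem_filter.1 hy
      have := hL2 y (r2 y a1).1
      exact ⟨this.1, a2, (r2 y a1).2, this.2⟩) (by omega) hb
    (fun i hi => Finset.mem_image.2 ⟨i, Finset.mem_range.2 (by omega), rfl⟩) (fun l => L.count l)
  have c0 : (lens v F).card = L.card := by rw [card_of_conn f1 f2, hL]
  have c1 : ∀ l, l ∉ A → (lens v F).count l = L.count l := fun l hl => by
    rw [f3 l hl, r1, hR, Multiset.count_filter_of_pos (p := (· ∉ A)) hl]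
  have c2 : ∀ l, (lens v F).count l % 2 = L.count l % 2 := by
    have : ∀ l, l ≠ zN → (lens v F).count l % 2 = L.count l % 2 := by
      intro l hl
      by_cases h : l ∈ A
      · exact f4 l h hl
      · rw [c1 l h]
    intro l
    by_cases h : l = zN
    · rw [h]; exact par_total c0 zN this
    · exact this l h
  have c3 : ∀ l ∈ A, l ≠ x → (lens v F).count l ≤ L.count l ∧
      L.count l ≤ (lens v F).count l + 2 * (Err + Kt) := by
    intro l hl hlx
    have a1 := f5 l hl
    have a2 := hb.cnt l hl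
    have a3 := n1 l hlx
    omega
  set Ys := ∑ l ∈ A.erase x, Multiset.replicate ((L.count l - (lens v F).count l) / 2) l with hYs
  have y1 : ∀ l, Ys.count l =
      if l ∈ A.erase x then (L.count l - (lens v F).count l) / 2 else 0 := by
    intro l
    rw [hYs, Multiset.count_sum']
    simp only [Multiset.count_replicate]
    rw [Finset.sum_ite_eq']
  have y2 : Ys.card ≤ w * (Err + Kt) := by
    rw [hYs, Multiset.card_sum]
    have := Finset.sum_le_card_nsmul (A.erase x)
      (fun l => (Multiset.replicate ((L.count l - (lens v F).count l) / 2) l).card) (Err + Kt)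
      (fun l hl => by
        have := c3 l (Finset.mem_of_mem_erase hl) (Finset.ne_of_mem_erase hl)
        rw [Multiset.card_replicate]
        omega)
    rw [smul_eq_mul] at this
    exact le_trans this (Nat.mul_le_mul_right _
      (le_trans (Finset.card_erase_le) (card_le_of_bounds hA)))
  obtain ⟨b, b1, b2⟩ := hb.long x hxA
  obtain ⟨τ, t1, t2, t3⟩ := avoid I (Dl := Dl) (W := NL) (by omega) b
  have t4 : (I.card : ℤ) * (Dl + NL) ≤ ((k + 1) * (Dl + NL) : ℕ) := by
    have : I.card * (Dl + NL) ≤ (k + 1) * (Dl + NL) := Nat.mul_le_mul_right _ i1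
    exact_mod_cast this
  have t5 : ((w : ℤ) * w + 1) * Ys.card ≤ NL := by
    have : (w * w + 1) * Ys.card ≤ NL := le_trans (Nat.mul_le_mul_left _ y2) hNL
    exact_mod_cast this
  have t6 := hL3 x hxA
  obtain ⟨F', k1, k2, k3⟩ := neutral_all hx (hA x hxA).2 hv Ys (fun y hy => by
    have a1 := Multiset.count_pos.2 hy
    rw [y1] at a1
    split_ifs at a1 with h
    · exact hA y (Finset.mem_of_mem_erase h)
    · omega) f1 f2 (a := τ) (fun t u1 u2 => f6 _ (b1 t (by omega) (by omega)) (fun lo hlo => by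
      have := t3 lo hlo
      simp only
      omega) (fun q hq => by
      have := b2 q hq
      simp only
      omega))
  refine ⟨F', s, e, k1, k2, eq_total (by rw [card_of_conn k1 k2, hL]) x (fun l hl => ?_)⟩
  have a1 := congrArg (Multiset.count l) k3
  simp only [Multiset.count_add, Multiset.count_replicate, y1] at a1
  rw [if_neg (Ne.symm hl)] at a1
  by_cases h : l ∈ A
  · rw [if_pos (Finset.mem_erase.2 ⟨hl, h⟩)] at a1
    have a2 := c2 l
    have a3 := c3 l h hl
    omega
  · rw [if_neg (fun hh => h (Finset.mem_of_mem_erase hh))] at a1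
    have a2 := c1 l h
    omega

theorem core (w k : ℕ) : ∃ T, ∀ (v : ℕ) (A : Finset ℕ) (L : Multiset ℕ), Gen A →
    (∀ x ∈ A, 1 ≤ x ∧ x ≤ w) → w ∈ A → L.card = v - 1 → (∀ x ∈ L, 1 ≤ x ∧ 2 * x ≤ v) →
    (∀ x ∈ A, T ≤ L.count x) → (L.filter (· ∉ A)).card ≤ k →
    ∃ E s e, Good v E s e ∧ AllConn v E ∧ lens v E = L := by
  classical
  let M := 2 * w * (w * (w - 1))
  let ntr := M + 2 * (w - 1)
  let Dr := fun La => (k + 1) * (w + ntr * (2 * w)) + k * (La + w) + w * (2 * w)
  let Dl := fun La => Dr La + M + 5 * w + 1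
  let G := fun La => M + 4 * w + Dl La + w
  let G' := fun La => G La + k * La + La
  let Kt := (k + 1) * ntr + 2 * k + w + 2 * (w * w) * (w + 1 + (k + 1))
  let S := fun La => (k + 1) * (Dl La + (5 * w + M)) + (5 * w + M) + (M + 4 * w + Dl La)
  let Err := fun La => w * (S La + 12 * w + M) + (S La + 12 * w + M)
  let NL := fun La => (w * w + 1) * (w * (Err La + Kt))
  let T := fun La => Err La + Kt + S La + w + (k + 1) * (Dl La + NL La) + NL La + G La
  refine ⟨(Finset.range (k + k * k + 1)).sup (fun j => T (G'^[j] 0)), ?_⟩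
  intro v A L hG hA hw h1 h2 h3 h4
  set R := (L.filter (· ∉ A)).toFinset with hR
  have r1 : R.card ≤ k := le_trans (Multiset.toFinset_card_le _) h4
  obtain ⟨j, hj, hX⟩ := scale G' (fun t => Nat.le_add_left _ _)
    (R ∪ (R ×ˢ R).image (fun p => p.2 - p.1)) (n := k + k * k) (by
      refine le_trans (Finset.card_union_le _ _) (Nat.add_le_add r1 ?_)
      refine le_trans Finset.card_image_le ?_
      rw [Finset.card_product]
      exact Nat.mul_le_mul r1 r1)
  have hw1 := hA w hw
  have hM : M % 2 = 0 := by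
    have : M = 2 * (w * (w * (w - 1))) := by simp only [M]; ring
    omega
  refine core_fixed (M := M) (La := G'^[j] 0) (ntr := ntr) (G' := G' (G'^[j] 0))
    (T := T (G'^[j] 0)) hG hA hw le_rfl (by simp only [ntr]; omega) ?_ le_rfl le_rfl le_rfl
    (Nat.le_add_right _ _) le_rfl le_rfl le_rfl le_rfl le_rfl h1 h2 (fun x hx => le_trans ?_
    (h3 x hx)) h4 (fun x hx => ?_) (fun x hx y hy => ?_)
  · by_cases h : w = 1
    · left
      simp only [ntr, M, h]
      simp
    · right
      have a1 : 1 ≤ w * (w - 1) := Nat.mul_pos (by omega) (by omega)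
      have a2 : 2 * w * 1 ≤ M := Nat.mul_le_mul_left _ a1
      simp only [ntr]
      omega
  · exact Finset.le_sup (f := fun j => T (G'^[j] 0)) (Finset.mem_range.2 (by omega))
  · exact hX x (Finset.mem_union_left _ (Multiset.mem_toFinset.2 hx))
  · have := hX (y - x) (Finset.mem_union_right _ (Finset.mem_image.2 ⟨(x, y),
      Finset.mem_product.2 ⟨Multiset.mem_toFinset.2 hx, Multiset.mem_toFinset.2 hy⟩, rfl⟩))
    omega

end Pool.Agent.BHR
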