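import Pool.Agent.Lib.MP_7ae50b_co.FewFlip

set_option autoImplicit false

namespace Pool.Agent.BHR.Few

theorem card_six (U : Finset ℤ) (a b c d e f : ℤ) :
    (insert a (insert b (insert c (insert d (insert e (insert f U)))))).card ≤ U.card + 6 := by
  have h1 := Finset.card_insert_le f U
  have h2 := Finset.card_insert_le e (insert f U)
  have h3 := Finset.card_insert_le d (insert e (insert f U))
  have h4 := Finset.card_insert_le c (insert d (insert e (insert f U)))
  have h5 := Finset.card_insert_le b (insert c (insert d (insert e (insert f U))))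
  have h6 := Finset.card_insert_le a (insert b (insert c (insert d (insert e (insert f U)))))
  omega

theorem adjust_one {v W x y : ℕ} (hx : Odd x) (hxW : x ≤ W) (hx2 : 2 * x ≤ v) (hy : 1 ≤ y)
    (hyW : y ≤ W) (hy2 : 2 * y ≤ v) (hxy : x ≠ y) {a a2 : ℤ} {Len : ℕ} (ha : a + Len ≤ a2)
    {s e : ℤ} (m : ℕ) : ∀ (E : Multiset (ℤ × ℤ)) (U : Finset ℤ), Good v E s e → AllConn v E →
      (∀ t, a ≤ t → t < a + Len → t ∉ U → (t, t + x) ∈ E) → Pure E x a2 (a2 + 2 * W) →
      7 * (U.card + 6 * m) + 4 * W < Len →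
      ∃ (F : Multiset (ℤ × ℤ)) (U' : Finset ℤ), Good v F s e ∧ AllConn v F ∧
        lens v F + Multiset.replicate (2 * m) x = lens v E + Multiset.replicate (2 * m) y ∧
        U'.card ≤ U.card + 6 * m ∧ U ⊆ U' ∧
        ∀ c ∈ E, (c.1 ∉ U' ∨ a + Len ≤ c.1) → (c.1 < a2 ∨ a2 + 2 * W ≤ c.1) → c ∈ F := by
  induction m using Nat.strong_induction_on with
  | _ m ih =>
  intro E U h hc hp hq hL
  have hx1 : 1 ≤ x := hx.pos
  have hx3 : x % 2 = 1 := Nat.odd_iff.1 hx
  rcases Nat.lt_or_ge m 2 with hm | hm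
  · rcases Nat.eq_zero_or_pos m with rfl | h0
    · exact ⟨E, U, h, hc, by simp, by omega, subset_rfl, fun c hc _ _ => hc⟩
    obtain rfl : m = 1 := by omega
    obtain ⟨F, f1, f2, f3, f4⟩ := neutral h hc hx hy hx2 hy2 (a := a2)
      (fun t t1 t2 => hq t t1 (by omega))
    refine ⟨F, U, f1, f2, ?_, by omega, subset_rfl, fun c hc _ h2 => f4 c hc (by omega)⟩
    ext l
    have c1 := congrArg (Multiset.count l) f3
    simp only [Multiset.count_cons, Multiset.count_add, Multiset.count_replicate] at c1 ⊢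
    split_ifs at c1 ⊢ <;> omega
  obtain ⟨t, t1, t2, t3⟩ := pick U [0, y, -x, x, -y - x, -y, -y + x] (a + 2 * W) (n := Len - 4 * W)
    (by simp only [List.length_cons, List.length_nil]; omega)
  have ed : ∀ u, u = t ∨ u = t + y ∨ u = t - x ∨ u = t + x ∨ u = t - y - x ∨ u = t - y ∨
      u = t - y + x → (u, u + x) ∈ E := by
    intro u hu
    refine hp u (by omega) (by omega) ?_
    have := t3 (u - t) (by simp only [List.mem_cons, List.not_mem_nil, or_false]; omega)
    simpa using this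
  obtain ⟨F, f1, f2, -, f4, j, j1, f5⟩ := flipB h hc hx1 hx2 (a := t) (b := t + y) (d := t - y)
    (by omega) (by omega) (ed _ (by omega)) (ed _ (by omega))
    (fun u hu => ⟨by omega, by omega, ed u (by omega)⟩)
  rw [len_add _ hy2, len_sub _ hy2] at f5
  have cs := card_six U t (t + y) (t - x) (t + x) (t - y - x) (t - y + x)
  set U1 := insert t (insert (t + y) (insert (t - x) (insert (t + x) (insert (t - y - x)
    (insert (t - y + x) U))))) with hU1
  have u1 : U ⊆ U1 := fun p hp => by simp [hU1, hp]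
  have pers : ∀ c ∈ E, (c.1 ∉ U1 ∨ a + Len ≤ c.1) → c ∈ F := by
    intro c hc h1
    simp only [hU1, Finset.mem_insert, not_or] at h1
    exact f4 c hc (by omega) (by omega) (by omega) (by omega) (by omega) (by omega)
  obtain ⟨G, U', g1, g2, g3, g4, g5, g6⟩ := ih (m - 1 - j) (by omega) F U1 f1 f2
    (fun u v1 v2 v3 => pers _ (hp u v1 v2 (fun hh => v3 (u1 hh))) (Or.inl v3))
    (fun u v1 v2 => pers _ (hq u v1 v2) (Or.inr (by simp only; omega))) (by omega)
  refine ⟨G, U', g1, g2, ?_, by omega, u1.trans g5, fun c hc h1 h2 =>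
    g6 c (pers c hc (h1.imp (fun h3 hh => h3 (g5 hh)) id)) h1 h2⟩
  ext l
  have c1 := congrArg (Multiset.count l) f5
  have c2 := congrArg (Multiset.count l) g3
  simp only [Multiset.count_add, Multiset.count_replicate] at c1 c2 ⊢
  split_ifs at c1 c2 ⊢ <;> omega

theorem adjust {v W x : ℕ} (hx : Odd x) (hxW : x ≤ W) (hx2 : 2 * x ≤ v) {a : ℤ} {Len : ℕ}
    {s e : ℤ} (m : ℕ → ℕ) (S : Finset ℕ) (hS : ∀ y ∈ S, 1 ≤ y ∧ y ≤ W ∧ 2 * y ≤ v ∧ x ≠ y) :
    ∀ (E : Multiset (ℤ × ℤ)) (U : Finset ℤ) (a2 : ℤ), a + Len ≤ a2 → Good v E s e →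
      AllConn v E → (∀ t, a ≤ t → t < a + Len → t ∉ U → (t, t + x) ∈ E) →
      Pure E x a2 (a2 + 2 * W * S.card) → 7 * (U.card + 6 * ∑ y ∈ S, m y) + 4 * W < Len →
      ∃ F, Good v F s e ∧ AllConn v F ∧ ∀ l, l ≠ x →
        (lens v F).count l = (lens v E).count l + if l ∈ S then 2 * m l else 0 := by
  induction S using Finset.induction_on with
  | empty => exact fun E _ _ _ h hc _ _ _ => ⟨E, h, hc, by simp⟩
  | insert y S hyS ih =>
    intro E U a2 ha h hc hp hq hL
    rw [Finset.card_insert_of_notMem hyS] at hq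
    rw [Finset.sum_insert hyS] at hL
    have hw : (0 : ℤ) ≤ 2 * W * S.card := by positivity
    have hb : (2 : ℤ) * W * ((S.card + 1 : ℕ) : ℤ) = 2 * W * S.card + 2 * W := by push_cast; ring
    rw [hb] at hq
    obtain ⟨y1, y2, y3, y4⟩ := hS y (Finset.mem_insert_self _ _)
    obtain ⟨F, U', f1, f2, f3, f4, f5, f6⟩ := adjust_one hx hxW hx2 y1 y2 y3 y4 ha (m y) E U h hc hp
      (fun t t1 t2 => hq t t1 (by omega)) (by omega)
    obtain ⟨G, g1, g2, g3⟩ := ih (fun p hp => hS p (Finset.mem_insert_of_mem hp)) F U'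
      (a2 + 2 * W) (by omega) f1 f2
      (fun t t1 t2 t3 => f6 _ (hp t t1 t2 (fun hh => t3 (f5 hh))) (Or.inl t3)
        (Or.inl (by simp only; omega)))
      (fun t t1 t2 => f6 _ (hq t (by omega) (by omega)) (Or.inr (by simp only; omega))
        (Or.inr t1)) (by omega)
    refine ⟨G, g1, g2, fun l hl => ?_⟩
    have c1 := congrArg (Multiset.count l) f3
    have c2 := g3 l hl
    simp only [Multiset.count_add, Multiset.count_replicate] at c1
    rw [if_neg (Ne.symm hl)] at c1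
    by_cases h1 : l = y
    · subst h1
      rw [if_neg hyS] at c2
      rw [if_pos rfl] at c1
      rw [if_pos (Finset.mem_insert_self _ _)]
      omega
    · rw [if_neg (Ne.symm h1)] at c1
      simp only [Finset.mem_insert, h1, false_or]
      omega

section
variable {v w : ℕ} {A : Finset ℕ} {x z : ℕ} {P P' : ℤ} {Dl : ℕ} {E : Multiset (ℤ × ℤ)} {s e : ℤ}
  {U : Finset ℤ}

/-- the result of inserting one pair of long edges between the windows at `P` and `P'` -/
def PairOut (v : ℕ) (A : Finset ℕ) (P P' : ℤ) (Dl : ℕ) (E : Multiset (ℤ × ℤ)) (s e : ℤ)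
    (U : Finset ℤ) : Prop :=
  ∃ (F : Multiset (ℤ × ℤ)) (U' : Finset ℤ), Good v F s e ∧ AllConn v F ∧
    Near A (lens v E + Multiset.replicate 2 (len v (P, P'))) (lens v F) 8 ∧
    U'.card ≤ U.card + 12 ∧ U ⊆ U' ∧
    ∀ c ∈ E, (c.1 ∉ U' ∨ ((c.1 < P ∨ P + Dl ≤ c.1) ∧ (c.1 < P' ∨ P' + Dl ≤ c.1))) → c ∈ F

theorem PairOut.symm (h : PairOut v A P P' Dl E s e U) : PairOut v A P' P Dl E s e U := by
  obtain ⟨F, U', f1, f2, f3, f4, f5, f6⟩ := h
  exact ⟨F, U', f1, f2, by rwa [len_swap], f4, f5, fun c hc h1 => f6 c hc (h1.imp id And.symm)⟩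

theorem len_nat (v : ℕ) {a b : ℤ} {y : ℕ} (h : 2 * y ≤ v) (hab : b - a = y ∨ a - b = y) :
    len v (a, b) = y := by
  simp only [len]
  omega

theorem pair_same (hA : ∀ x ∈ A, 1 ≤ x ∧ x ≤ w) (hv : 2 * w ≤ v) (hx : x ∈ A) (hz : z ∈ A)
    (hxz : z ≠ x) (hP : P + Dl ≤ P' ∨ P' + Dl ≤ P) (h : Good v E s e) (hc : AllConn v E)
    (p1 : ∀ t, P ≤ t → t < P + Dl → t ∉ U → (t, t + x) ∈ E)
    (p2 : ∀ t, P' ≤ t → t < P' + Dl → t ∉ U → (t, t + x) ∈ E)
    (hD : 13 * U.card + 4 * w < Dl) : PairOut v A P P' Dl E s e U := by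
  have x1 := hA x hx
  have z1 := hA z hz
  obtain ⟨t, t1, t2, t3⟩ := pick U [0, P' - P, -x, x, z - x, z, z + x] (P + 2 * w) (n := Dl - 4 * w)
    (by simp only [List.length_cons, List.length_nil]; omega)
  have nu : ∀ u, u = t ∨ u = t + (P' - P) ∨ u = t - x ∨ u = t + x ∨ u = t + z - x ∨ u = t + z ∨
      u = t + z + x → u ∉ U := by
    intro u hu
    have := t3 (u - t) (by simp only [List.mem_cons, List.not_mem_nil, or_false]; omega)
    simpa using this
  obtain ⟨F, f1, f2, -, f4, j, j1, f5⟩ := flipB h hc x1.1 (by omega) (a := t) (b := t + (P' - P))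
    (d := t + z) (by omega) (by omega) (p1 _ (by omega) (by omega) (nu _ (by omega)))
    (p2 _ (by omega) (by omega) (nu _ (by omega)))
    (fun u hu => ⟨by omega, by omega, p1 u (by omega) (by omega) (nu _ (by omega))⟩)
  rw [len_add _ (by omega), len_shift v (a' := P) (b' := P') (by ring)] at f5
  have cs := card_six U t (t + (P' - P)) (t - x) (t + x) (t + z - x) (t + z + x)
  refine ⟨F, _, f1, f2, fun l => ?_, le_trans cs (by omega), fun p hp => by simp [hp], ?_⟩
  · have c1 := congrArg (Multiset.count l) f5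
    simp only [Multiset.count_add, Multiset.count_replicate] at c1 ⊢
    refine ⟨by split_ifs at c1 ⊢ <;> omega, by split_ifs at c1 ⊢ <;> omega,
      by split_ifs at c1 ⊢ <;> omega, fun hl => ?_⟩
    rw [if_neg (fun hh : x = l => hl (hh ▸ hx)), if_neg (fun hh : z = l => hl (hh ▸ hz))] at c1
    omega
  · intro c hc h1
    simp only [Finset.mem_insert, not_or] at h1
    exact f4 c hc (by omega) (by omega) (by omega) (by omega) (by omega) (by omega)

theorem pair_diff (hA : ∀ x ∈ A, 1 ≤ x ∧ x ≤ w) (hv : 2 * w ≤ v) (hx : x ∈ A) (hz : z ∈ A)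
    (hxz : x < z) (hP : P + Dl ≤ P' ∨ P' + Dl ≤ P) (h : Good v E s e) (hc : AllConn v E)
    (p1 : ∀ t, P ≤ t → t < P + Dl → t ∉ U → (t, t + x) ∈ E)
    (p2 : ∀ t, P' ≤ t → t < P' + Dl → t ∉ U → (t, t + z) ∈ E)
    (hD : 13 * U.card + 4 * w < Dl) : PairOut v A P P' Dl E s e U := by
  have x1 := hA x hx
  have z1 := hA z hz
  obtain ⟨δ, hδ⟩ : ∃ δ, δ = P' - P := ⟨_, rfl⟩
  obtain ⟨t, t1, t2, t3⟩ := pick U [0, z, -x, x, -z - x, -z, -z + x, δ, δ - z, δ + z, δ + x - z,
    δ + x, δ + x + z] (P + 2 * w) (n := Dl - 4 * w)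
    (by simp only [List.length_cons, List.length_nil]; omega)
  have nu : ∀ u, u = t ∨ u = t + z ∨ u = t - x ∨ u = t + x ∨ u = t - z - x ∨ u = t - z ∨
      u = t - z + x → u ∉ U := by
    intro u hu
    have := t3 (u - t) (by simp only [List.mem_cons, List.not_mem_nil, or_false]; omega)
    simpa using this
  have nu' : ∀ u, u = t + δ ∨ u = t + δ - z ∨ u = t + δ + z ∨ u = t + δ + x - z ∨
      u = t + δ + x ∨ u = t + δ + x + z → u ∉ U := by
    intro u hu
    have := t3 (u - t) (by simp only [List.mem_cons, List.not_mem_nil, or_false]; omega)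
    simpa using this
  obtain ⟨F, f1, f2, f3, f4, j, j1, f5⟩ := flipB h hc x1.1 (by omega) (a := t) (b := t + z)
    (d := t - z) (by omega) (by omega) (p1 _ (by omega) (by omega) (nu _ (by omega)))
    (p1 _ (by omega) (by omega) (nu _ (by omega)))
    (fun u hu => ⟨by omega, by omega, p1 u (by omega) (by omega) (nu _ (by omega))⟩)
  rw [len_add _ (by omega), len_sub _ (by omega)] at f5
  have ed : ∀ u, u = t + δ ∨ u = t + δ - z ∨ u = t + δ + z ∨ u = t + δ + x - z ∨
      u = t + δ + x ∨ u = t + δ + x + z → (u, u + z) ∈ F := fun u hu =>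
    f4 _ (p2 u (by omega) (by omega) (nu' u hu)) (by simp only; omega) (by simp only; omega)
      (by simp only; omega) (by simp only; omega) (by simp only; omega) (by simp only; omega)
  obtain ⟨G, g1, g2, -, g4, i, i1, g5⟩ := flipB f1 f2 z1.1 (by omega) (a := t + δ) (b := t)
    (d := t + δ + x) (by omega) (by omega) (ed _ (by omega)) f3
    (fun u hu => ⟨by omega, by omega, ed u (by omega)⟩)
  rw [len_add _ (by omega), len_swap, len_shift v (a' := P) (b' := P') (by omega)] at g5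
  have cs := card_six U t (t + z) (t - x) (t + x) (t - z - x) (t - z + x)
  have cs' := card_six (insert t (insert (t + z) (insert (t - x) (insert (t + x)
    (insert (t - z - x) (insert (t - z + x) U)))))) (t + δ) t (t + δ - z) (t + δ + z)
    (t + δ + x - z) (t + δ + x + z)
  refine ⟨G, _, g1, g2, fun l => ?_, le_trans cs' (by omega), fun p hp => by simp [hp], ?_⟩
  · have c1 := congrArg (Multiset.count l) f5
    have c2 := congrArg (Multiset.count l) g5
    simp only [Multiset.count_add, Multiset.count_replicate] at c1 c2 ⊢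
    refine ⟨by split_ifs at c1 c2 ⊢ <;> omega, by split_ifs at c1 c2 ⊢ <;> omega,
      by split_ifs at c1 c2 ⊢ <;> omega, fun hl => ?_⟩
    rw [if_neg (fun hh : x = l => hl (hh ▸ hx)), if_neg (fun hh : z = l => hl (hh ▸ hz))] at c1 c2
    rw [if_neg (fun hh : z = l => hl (hh ▸ hz))] at c1
    omega
  · intro c hc h1
    simp only [Finset.mem_insert, not_or] at h1
    exact g4 c (f4 c hc (by omega) (by omega) (by omega) (by omega) (by omega) (by omega))
      (by omega) (by omega) (by omega) (by omega) (by omega) (by omega)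

theorem pair_one (hA : ∀ x ∈ A, 1 ≤ x ∧ x ≤ w) (hv : 2 * w ≤ v) (hx : x ∈ A) (hz : z ∈ A)
    (ho : ∃ y ∈ A, y ≠ x) (hP : P + Dl ≤ P') (h : Good v E s e) (hc : AllConn v E)
    (p1 : ∀ t, P ≤ t → t < P + Dl → t ∉ U → (t, t + x) ∈ E)
    (p2 : ∀ t, P' ≤ t → t < P' + Dl → t ∉ U → (t, t + z) ∈ E)
    (hD : 13 * U.card + 4 * w < Dl) : PairOut v A P P' Dl E s e U := by
  rcases Nat.lt_trichotomy x z with h1 | rfl | h1
  · exact pair_diff hA hv hx hz h1 (Or.inl hP) h hc p1 p2 hD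
  · obtain ⟨y, y1, y2⟩ := ho
    exact pair_same hA hv hx y1 y2 (Or.inl hP) h hc p1 p2 hD
  · exact (pair_diff hA hv hz hx h1 (Or.inr hP) h hc p2 p1 hD).symm

end

theorem near_add {A : Finset ℕ} {L L' : Multiset ℕ} {n : ℕ} (h : Near A L L' n) (X : Multiset ℕ) :
    Near A (L + X) (L' + X) n := by
  intro l
  obtain ⟨a1, a2, a3, a4⟩ := h l
  simp only [Multiset.count_add]
  exact ⟨by omega, by omega, by omega, fun hl => by rw [a4 hl]⟩

theorem pairs {v w Dl : ℕ} {A : Finset ℕ} (hA : ∀ x ∈ A, 1 ≤ x ∧ x ≤ w) (hv : 2 * w ≤ v)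
    {J : Finset ℤ} {lo : ℤ} (hlo : lo ∈ J) {s e : ℤ} (P : Multiset ℕ)
    (hP : ∀ c ∈ P, Dl ≤ c ∧ 2 * c ≤ v ∧ lo + c ∈ J ∧ ∀ x, ∃ y ∈ A, y ≠ x) :
    ∀ (E : Multiset (ℤ × ℤ)) (U : Finset ℤ), Good v E s e → AllConn v E →
      (∀ p ∈ J, ∃ z ∈ A, ∀ t, p ≤ t → t < p + Dl → t ∉ U → (t, t + z) ∈ E) →
      13 * (U.card + 12 * P.card) + 4 * w < Dl →
      ∃ F, Good v F s e ∧ AllConn v F ∧ Near A (lens v E + P + P) (lens v F) (8 * P.card) ∧
        ∀ c ∈ E, Av J Dl c.1 → c ∈ F := by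
  induction P using Multiset.induction_on with
  | empty => exact fun E _ h hc _ _ => ⟨E, h, hc, by simpa using Near.refl _ _ _, fun c hc _ => hc⟩
  | cons c P ih =>
    intro E U h hc hp hD
    rw [Multiset.card_cons] at hD ⊢
    obtain ⟨c1, c2, c3, c4⟩ := hP c (Multiset.mem_cons_self _ _)
    obtain ⟨x, x1, x2⟩ := hp lo hlo
    obtain ⟨z, z1, z2⟩ := hp _ c3
    obtain ⟨F, U', f1, f2, f3, f4, f5, f6⟩ := pair_one hA hv x1 z1 (c4 x) (by omega) h hc x2 z2
      (by omega)
    rw [len_add _ c2] at f3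
    obtain ⟨G, g1, g2, g3, g4⟩ := ih (fun p hp => hP p (Multiset.mem_cons_of_mem hp)) F U' f1 f2
      (fun p hp' => by
        obtain ⟨y, y1, y2⟩ := hp p hp'
        exact ⟨y, y1, fun t t1 t2 t3 => f6 _ (y2 t t1 t2 (fun hh => t3 (f5 hh))) (Or.inl t3)⟩)
      (by omega)
    refine ⟨G, g1, g2, ?_, fun d hd h1 => g4 d (f6 d hd (Or.inr ⟨h1 _ hlo, h1 _ c3⟩)) h1⟩
    have e1 : lens v E + c ::ₘ P + c ::ₘ P = lens v E + Multiset.replicate 2 c + P + P := by
      ext l
      simp only [Multiset.count_add, Multiset.count_cons, Multiset.count_replicate]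
      split_ifs <;> omega
    rw [e1]
    exact ((near_add (near_add f3 P) P).trans g3).mono (by omega)

end Pool.Agent.BHR.Few
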