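import Pool.Agent.Lib.MP_7ae50b_co.FewAdj

set_option autoImplicit false

namespace Pool.Agent.BHR.Few

theorem halve (X : Multiset ℕ) : ∃ B P : Multiset ℕ, B + P + P = X ∧ B.Nodup := by
  induction X using Multiset.induction_on with
  | empty => exact ⟨0, 0, by simp, by simp⟩
  | cons a X ih =>
    obtain ⟨B, P, rfl, h⟩ := ih
    by_cases ha : a ∈ B
    · obtain ⟨B1, rfl⟩ := Multiset.exists_cons_of_mem ha
      refine ⟨B1, a ::ₘ P, ?_, (Multiset.nodup_cons.1 h).2⟩
      ext l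
      simp only [Multiset.count_add, Multiset.count_cons]
      omega
    · exact ⟨a ::ₘ B, P, by simp, Multiset.nodup_cons.2 ⟨ha, h⟩⟩

theorem card_of_nodup {B L : Multiset ℕ} {k : ℕ} (h : B.Nodup) (hB : ∀ y ∈ B, y ∈ L)
    (hk : L.toFinset.card ≤ k) : B.card ≤ k := by
  rw [← Multiset.toFinset_card_of_nodup h]
  exact le_trans (Finset.card_le_card (fun y hy =>
    Multiset.mem_toFinset.2 (hB y (Multiset.mem_toFinset.1 hy)))) hk

theorem core_fixed {v w M k τ nB La Cd Dr Dl G G' Kt S Err Len NL T : ℕ} {A : Finset ℕ}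
    (hG : Gen A) (hA : ∀ x ∈ A, 1 ≤ x ∧ x ≤ w) (hw : w ∈ A)
    (hM : 5 * w * (A.card - 1) ≤ M)
    (hn3 : (w = 1 ∧ Cd = 0 ∧ M = 0 ∧ τ ≤ nB) ∨
      (2 ≤ w ∧ 3 * (M + w) + 4 * w ≤ Cd ∧ w ≤ M ∧ k ≤ nB))
    (hDr : (nB + 1) * (w + Cd) + k * (La + w) + k * (2 * w) ≤ Dr)
    (hDl : Dr + M + 5 * w + 1 ≤ Dl) (hDl2 : 156 * τ + 4 * w < Dl)
    (hGG : M + 4 * w + Dl + w ≤ G) (hG' : G + k * La ≤ G')
    (hKt : (nB + 1) * Cd + nB + 2 * k + M * (k + (nB + 1)) ≤ Kt)
    (hS : (7 * k + 9) * (Dl + (5 * w + M)) + (5 * w + M) + (M + 4 * w + Dl) ≤ S)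
    (hE : k * (S + 12 * w + M) + (S + 12 * w + M) ≤ Err)
    (hLen : 42 * (k * (Err + Kt + 9 * τ)) + 4 * (La + w) < Len)
    (hNL : Len + 2 * (La + w) * k ≤ NL)
    (hT : Err + Kt + 8 * τ + S + w + (7 * k + 9) * (Dl + NL) + NL + G +
      2 * (M + 5 * w + Dl + (6 * k + 8) * (k + 1) * (Dl + Dl)) ≤ T)
    {L : Multiset ℕ} (hL : L.card = v - 1) (hL2 : ∀ x ∈ L, 1 ≤ x ∧ 2 * x ≤ v)
    (hL3 : ∀ x ∈ A, T ≤ L.count x) (hL4 : (L.filter (· ∉ A)).card ≤ τ)
    (hL5 : L.toFinset.card ≤ k)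
    (g1 : ∀ x ∈ L.filter (· ∉ A), x ≤ La ∨ G' < x)
    (g2 : ∀ x ∈ L.filter (· ∉ A), ∀ y ∈ L.filter (· ∉ A), y ≤ x + La ∨ x + G' < y) :
    ∃ E s e, Good v E s e ∧ AllConn v E ∧ lens v E = L := by
  classical
  have hw1 := hA w hw
  have hv1 : T ≤ v - 1 := by
    rw [← hL]
    exact le_trans (hL3 w hw) (Multiset.count_le_card _ _)
  have hv : 2 * w ≤ v := by omega
  have hAL : ∀ y ∈ A, y ∈ L := fun y hy => by
    have := hL3 y hy
    exact Multiset.count_pos.1 (by omega)
  have hAk : A.card ≤ k := le_trans (Finset.card_le_card (fun y hy =>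
    Multiset.mem_toFinset.2 (hAL y hy))) hL5
  obtain ⟨x, hxA, hx⟩ := exists_odd hG
  set R := L.filter (· ∉ A) with hR
  set Rs := R.filter (· ≤ La) with hRs
  set Rl := R.filter (fun y => ¬ y ≤ La) with hRl
  have r1 : Rs + Rl = R := Multiset.filter_add_not _ _
  have r2 : ∀ y ∈ R, y ∈ L ∧ y ∉ A := fun y hy => Multiset.mem_filter.1 hy
  have r3 : Rs.card + Rl.card ≤ τ := by rw [← Multiset.card_add, r1]; exact hL4
  obtain ⟨Sm, Ps, s1, s2⟩ := halve Rs
  have s3 : ∀ y ∈ Sm, y ∈ Rs := fun y hy => by rw [← s1]; simp [hy]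
  obtain ⟨B, P, b1, b2, b3⟩ : ∃ B P : Multiset ℕ, B + P + P = Rl ∧ B.card ≤ nB ∧
      ∀ c ∈ P, 2 ≤ w := by
    rcases hn3 with h | h
    · exact ⟨Rl, 0, by simp, by omega, by simp⟩
    · obtain ⟨B, P, b1, b2⟩ := halve Rl
      refine ⟨B, P, b1, le_trans (card_of_nodup b2 (fun y hy => ?_) hL5) h.2.2.2, fun _ _ => h.1⟩
      have : y ∈ Rl := by rw [← b1]; simp [hy]
      exact (r2 y (Multiset.mem_filter.1 this).1).1
  have b4 : ∀ y ∈ B, y ∈ R ∧ ¬ y ≤ La := fun y hy =>
    Multiset.mem_filter.1 (show y ∈ Rl by rw [← b1]; simp [hy])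
  have b5 : ∀ y ∈ P, y ∈ R ∧ ¬ y ≤ La := fun y hy =>
    Multiset.mem_filter.1 (show y ∈ Rl by rw [← b1]; simp [hy])
  have b6 : P.card ≤ τ := by
    have := congrArg Multiset.card b1
    simp only [Multiset.card_add] at this
    omega
  obtain ⟨σ, ρ, hZ, T0, t01, t02⟩ := zigzag (v := v) hG' B (le_trans (Finset.card_le_card
    (fun y hy => Multiset.mem_toFinset.2 (r2 y (b4 y (Multiset.mem_toFinset.1 hy)).1).1)) hL5)
    (fun y hy => by
      obtain ⟨a1, a2⟩ := b4 y hy
      have := g1 y a1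
      exact ⟨by omega, (hL2 y (r2 y a1).1).2⟩)
    (fun y hy y' hy' => g2 y (b4 y hy).1 y' (b4 y' hy').1)
  obtain ⟨K, hK⟩ : ∃ K, K = Err + Kt + 8 * τ := ⟨_, rfl⟩
  obtain ⟨n, n1, n2, n3⟩ : ∃ n : ℕ → ℤ, (∀ y, y ≠ x → n y = L.count y - K) ∧
      (L.count x : ℤ) ≤ n x ∧ ∑ y ∈ A, n y = v := by
    refine ⟨fun y => if y = x then v - ∑ y ∈ A.erase x, ((L.count y : ℤ) - K)
      else L.count y - K, fun y hy => if_neg hy, ?_, ?_⟩
    · have a1 := sum_count_le L A
      rw [← Finset.add_sum_erase A (fun l => L.count l) hxA] at a1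
      have a2 : ∑ y ∈ A.erase x, ((L.count y : ℤ) - K) ≤
          ((∑ y ∈ A.erase x, L.count y : ℕ) : ℤ) := by
        push_cast
        exact Finset.sum_le_sum (fun y _ => by omega)
      simp only [if_true]
      omega
    · rw [← Finset.add_sum_erase A _ hxA, if_pos rfl,
        Finset.sum_congr rfl (fun y hy => if_neg (Finset.ne_of_mem_erase hy))]
      ring
  have n4 : ∀ y ∈ A, (S : ℤ) + w ≤ n y := by
    intro y hy
    have := hL3 y hy
    by_cases h : y = x
    · subst h; omega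
    · rw [n1 y h]; omega
  obtain ⟨e0, e1, e2, hBase⟩ : ∃ e0 : ℤ, 0 ≤ e0 ∧ e0 ≤ M + 4 * w ∧ ∀ I : Finset ℤ,
      I.card ≤ 7 * k + 9 → (∀ lo ∈ I, e0 ≤ lo ∧ lo + Dl + w ≤ v) →
      ∃ E0 s Zs, Base v w M A n I Dl (S + w) Err e0 E0 s Zs ∧ Zs.card ≤ k := by
    rcases hn3 with ⟨h1, -, h2, -⟩ | ⟨h1, -, h2, -⟩
    · subst h1 h2
      have hA1 : A = {1} := by
        ext y
        rw [Finset.mem_singleton]
        exact ⟨fun hy => by have := hA y hy; omega, fun hy => hy ▸ hw⟩
      subst hA1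
      refine ⟨0, le_rfl, by omega, fun I _ hI => ?_⟩
      obtain ⟨E0, s, Zs, hb⟩ := base_thin (v := v) (n := n) (I := I) (Dl := Dl) (S := S + (1 : ℕ))
        (Err := Err) (by omega) (by simpa using n3) (by omega)
        (fun lo hlo => by have := hI lo hlo; omega) (by omega) (by omega)
      exact ⟨E0, s, ∅, ⟨hb.good, hb.p0, hb.ivl, by simp, by simp, by simp,
        fun Q hQ a a1 a2 a3 a4 _ => hb.lc Q hQ a a1 a2 a3 a4 (fun p hp r r1 r2 => by
          have : p.1 = 1 := by simpa using (hb.zone p hp).1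
          obtain rfl : r = p.2 := by omega
          exact hQ.refl _), hb.cnt0, hb.cnt, fun y hy => by
            obtain ⟨b, c1, -⟩ := hb.long y hy
            exact ⟨b, c1, by simp⟩⟩, by simp⟩
    · refine base_thick hAk hG hA hw h1 h2 hv (by omega) ?_ (by omega) (by exact_mod_cast hE) n4 n3
      have : (7 * k + 9) * (Dl + (5 * w + M)) + (5 * w + M) ≤ S := by omega
      exact_mod_cast this
  set I0 := (Finset.range (B.card + 1)).image
    (fun i => e0 + σ i - (if i % 2 = 1 then w else 0 : ℕ)) with hI0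
  have i1 : I0.card ≤ 6 * k + 8 := by
    have a1 : I0 ⊆ T0.image (fun t => e0 + t) ∪ T0.image (fun t => e0 + t - w) := by
      intro lo hlo
      obtain ⟨i, hi, rfl⟩ := Finset.mem_image.1 hlo
      have a0 := t02 i (by have := Finset.mem_range.1 hi; omega)
      split_ifs
      · exact Finset.mem_union_right _ (Finset.mem_image_of_mem _ a0)
      · exact Finset.mem_union_left _ (Finset.mem_image.2 ⟨_, a0, by simp⟩)
    have a2 := le_trans (Finset.card_le_card a1) (Finset.card_union_le _ _)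
    have a3 := Finset.card_image_le (s := T0) (f := fun t => e0 + t)
    have a4 := Finset.card_image_le (s := T0) (f := fun t => e0 + t - w)
    omega
  set Cs : Finset ℕ := insert 0 L.toFinset with hCs
  have i2 : Cs.card ≤ k + 1 := le_trans (Finset.card_insert_le _ _) (by omega)
  have i3 : ∀ c ∈ Cs, 2 * c ≤ v := fun c hc => by
    rcases Finset.mem_insert.1 hc with rfl | hc
    · omega
    · exact (hL2 c (Multiset.mem_toFinset.1 hc)).2
  obtain ⟨lo, l1, l2, l3⟩ := avoid ((I0 ×ˢ Cs).image (fun p => p.1 - p.2)) (Dl := Dl) (W := Dl)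
    (by omega) e0
  have l4 : (((I0 ×ˢ Cs).image (fun p => p.1 - (p.2 : ℤ))).card : ℤ) * (Dl + Dl) ≤
      ((6 * k + 8) * (k + 1) * (Dl + Dl) : ℕ) := by
    have a1 : ((I0 ×ˢ Cs).image (fun p => p.1 - (p.2 : ℤ))).card ≤ (6 * k + 8) * (k + 1) := by
      refine le_trans Finset.card_image_le ?_
      rw [Finset.card_product]
      exact Nat.mul_le_mul i1 i2
    have := Nat.mul_le_mul_right (Dl + Dl) a1
    exact_mod_cast this
  set J := Cs.image (fun c : ℕ => lo + c) with hJ
  have i4 : J.card ≤ k + 1 := le_trans Finset.card_image_le i2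
  have i5 : (I0 ∪ J).card ≤ 7 * k + 9 := le_trans (Finset.card_union_le _ _) (by omega)
  obtain ⟨E0, s, Zs, hb, hZs⟩ := hBase (I0 ∪ J) i5 (by
    intro p hp
    rcases Finset.mem_union.1 hp with hp | hp
    swap
    · obtain ⟨c, hc, rfl⟩ := Finset.mem_image.1 hp
      have := i3 c hc
      omega
    obtain ⟨i, hi, rfl⟩ := Finset.mem_image.1 hp
    have a0 := Finset.mem_range.1 hi
    have a1 := hZ.s0
    by_cases h0 : i = 0
    · subst h0
      simp only [Nat.zero_mod, zero_ne_one, if_false]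
      omega
    have a2 := hZ.s5 (by omega)
    have a3 := hZ.s4 1 rfl (by omega)
    split_ifs with h
    · have a4 := hZ.s4 i h (by omega)
      have a5 := hZ.s1 1 i rfl h (by omega) (by omega)
      omega
    · have a4 := hZ.s2 i (by omega) (by omega) (by omega)
      omega)
  obtain ⟨F, e, zN, f1, f2, f3, f4, f5, f6⟩ := rot_stage (L := La) (Sm := Sm) (I0 := I0)
    hG hA hw hv hAk hM (by omega) hDr (by omega) (by omega) hKt b2 hZ
    (fun y hy => (r2 y (b4 y hy).1).2) (fun y hy => by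
      obtain ⟨a1, a2⟩ := Multiset.mem_filter.1 (s3 y hy)
      have := hL2 y (r2 y a1).1
      exact ⟨this.1, a2, (r2 y a1).2, this.2⟩)
    (card_of_nodup s2 (fun y hy => (r2 y (Multiset.mem_filter.1 (s3 y hy)).1).1) hL5) hb hZs
    Finset.subset_union_left
    (fun i hi => Finset.mem_image.2 ⟨i, Finset.mem_range.2 (by omega), rfl⟩) (fun l => L.count l)
  obtain ⟨F2, p1, p2, p3, p4⟩ := pairs (Dl := Dl) (J := J) (lo := lo) hA hv
    (Finset.mem_image.2 ⟨0, Finset.mem_insert_self _ _, by simp⟩) P (fun c hc => by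
      obtain ⟨a1, a2⟩ := b5 c hc
      have a3 := g1 c a1
      have a4 := (r2 c a1).1
      exact ⟨by omega, (hL2 c a4).2, Finset.mem_image.2 ⟨c, Finset.mem_insert_of_mem
        (Multiset.mem_toFinset.2 a4), rfl⟩, fun z => exists_other hG hw (b3 c hc)⟩) F ∅ f1 f2 (by
      intro p hp
      obtain ⟨z, z1, z2⟩ := hb.ivl p (Finset.mem_union_right _ hp)
      refine ⟨z, z1, fun t t1 t2 _ => f6 _ (z2 t t1 t2) (fun q hq => ?_) (fun q hq => ?_)⟩
      · obtain ⟨c, hc, rfl⟩ := Finset.mem_image.1 hp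
        have := l3 (q - c) (Finset.mem_image.2 ⟨(q, c), Finset.mem_product.2 ⟨hq, hc⟩, rfl⟩)
        simp only
        omega
      · have := (hb.zone q hq).2.2 p (Finset.mem_union_right _ hp)
        simp only
        omega) (by simp only [Finset.card_empty]; omega)
  have c0 : (lens v F2).card = L.card := by rw [card_of_conn p1 p2, hL]
  have cP : ∀ l ∈ A, P.count l = 0 := fun l hl =>
    Multiset.count_eq_zero.2 (fun hh => (r2 l (b5 l hh).1).2 hl)
  have c1 : ∀ l, l ∉ A → (lens v F2).count l + 2 * Ps.count l = L.count l := fun l hl => by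
    have a1 := (p3 l).2.2.2 hl
    have a2 := f3 l hl
    have a3 := congrArg (Multiset.count l) r1
    have a4 := congrArg (Multiset.count l) s1
    have a5 := congrArg (Multiset.count l) b1
    have a6 : R.count l = L.count l := Multiset.count_filter_of_pos (p := (· ∉ A)) hl
    simp only [Multiset.count_add] at a1 a2 a3 a4 a5
    omega
  have c2 : ∀ l, (lens v F2).count l % 2 = L.count l % 2 := by
    have : ∀ l, l ≠ zN → (lens v F2).count l % 2 = L.count l % 2 := by
      intro l hl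
      by_cases h : l ∈ A
      · have a1 := f4 l h hl
        have a2 := (p3 l).1
        simp only [Multiset.count_add] at a2
        omega
      · have := c1 l h
        omega
    intro l
    by_cases h : l = zN
    · rw [h]; exact par_total c0 zN this
    · exact this l h
  have c3 : ∀ l ∈ A, l ≠ x → (lens v F2).count l ≤ L.count l ∧
      L.count l ≤ (lens v F2).count l + 2 * K := by
    intro l hl hlx
    have a1 := f5 l hl
    have a2 := hb.cnt l hl
    have a3 := n1 l hlx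
    obtain ⟨-, a4, a5, -⟩ := p3 l
    have a6 := cP l hl
    simp only [Multiset.count_add] at a4 a5
    omega
  have c4 : ∀ l, Ps.count l ≤ τ ∧ (¬ l ≤ La → Ps.count l = 0) := fun l => by
    have a1 := Multiset.count_le_card l Ps
    have a2 := congrArg Multiset.card s1
    simp only [Multiset.card_add] at a2
    refine ⟨by omega, fun hl => Multiset.count_eq_zero.2 (fun hh => hl ?_)⟩
    exact (Multiset.mem_filter.1 (show l ∈ Rs by rw [← s1]; simp [hh])).2
  set Ys := L.toFinset.filter (fun l => l ≠ x ∧ (l ∈ A ∨ l ≤ La)) with hYs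
  have y0 : Ys.card ≤ k := le_trans (Finset.card_filter_le _ _) hL5
  have y1 : ∀ l, l ∈ Ys ↔ l ∈ L ∧ l ≠ x ∧ (l ∈ A ∨ l ≤ La) := fun l => by
    simp only [hYs, Finset.mem_filter, Multiset.mem_toFinset]
  have y2 : ∑ l ∈ Ys, (L.count l - (lens v F2).count l) / 2 ≤ k * (Err + Kt + 9 * τ) := by
    have := Finset.sum_le_card_nsmul Ys (fun l => (L.count l - (lens v F2).count l) / 2)
      (Err + Kt + 9 * τ) (fun l hl => by
        by_cases h : l ∈ A
        · have := c3 l h ((y1 l).1 hl).2.1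
          omega
        · have a1 := c1 l h
          have a2 := c4 l
          omega)
    rw [smul_eq_mul] at this
    exact le_trans this (Nat.mul_le_mul_right _ y0)
  obtain ⟨b, d1, d2⟩ := hb.long x hxA
  obtain ⟨θ, t1, t2, t3⟩ := avoid (I0 ∪ J) (Dl := Dl) (W := NL) (by omega) b
  have t4 : ((I0 ∪ J).card : ℤ) * (Dl + NL) ≤ ((7 * k + 9) * (Dl + NL) : ℕ) := by
    have : (I0 ∪ J).card * (Dl + NL) ≤ (7 * k + 9) * (Dl + NL) := Nat.mul_le_mul_right _ i5
    exact_mod_cast this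
  have t5 : (Len : ℤ) + 2 * (La + w : ℕ) * Ys.card ≤ NL := by
    have a1 : 2 * (La + w) * Ys.card ≤ 2 * (La + w) * k := Nat.mul_le_mul_left _ y0
    have : Len + 2 * (La + w) * Ys.card ≤ NL := by omega
    exact_mod_cast this
  have t6 := hL3 x hxA
  have t7 : (0 : ℤ) ≤ 2 * (La + w : ℕ) * Ys.card := by positivity
  have pu : Pure F2 x θ (θ + NL) := fun t u1 u2 =>
    p4 _ (f6 _ (d1 t (by omega) (by omega)) (fun q hq => by
      have := t3 q (Finset.mem_union_left _ hq)
      simp only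
      omega) (fun q hq => by
      have := d2 q hq
      simp only
      omega)) (fun q hq => by
      have := t3 q (Finset.mem_union_right _ hq)
      simp only
      omega)
  have hx1 := hA x hxA
  obtain ⟨F', k1, k2, k3⟩ := adjust (v := v) (W := La + w) hx (by omega) (by omega) (a := θ)
    (Len := Len) (fun l => (L.count l - (lens v F2).count l) / 2) Ys (fun y hy => by
      obtain ⟨a1, a2, a3⟩ := (y1 y).1 hy
      have a4 := hL2 y a1
      refine ⟨a4.1, ?_, a4.2, a2.symm⟩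
      rcases a3 with a3 | a3
      · have := hA y a3
        omega
      · omega) F2 ∅ (θ + Len) le_rfl p1 p2 (fun t u1 u2 _ => pu t u1 (by omega))
    (fun t u1 u2 => pu t (by omega) (by omega)) (by simp only [Finset.card_empty]; omega)
  refine ⟨F', s, e, k1, k2, eq_total (by rw [card_of_conn k1 k2, hL]) x (fun l hl => ?_)⟩
  have a1 := k3 l hl
  have a2 := c2 l
  by_cases h : l ∈ A
  · rw [if_pos ((y1 l).2 ⟨hAL l h, hl, Or.inl h⟩)] at a1
    have a3 := c3 l h hl
    omega
  · have a3 := c1 l h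
    have a4 := c4 l
    split_ifs at a1 with h1
    · omega
    · rw [y1] at h1
      by_cases h2 : l ∈ L
      · have h3 : ¬ l ≤ La := fun hh => h1 ⟨h2, hl, Or.inr hh⟩
        omega
      · have := Multiset.count_eq_zero.2 h2
        omega

end Pool.Agent.BHR.Few
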