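import Pool.Agent.Lib.MP_7ae50b_co.FewRot

set_option autoImplicit false

namespace Pool.Agent.BHR.Few

theorem len_shift (v : ℕ) {a b a' b' : ℤ} (h : b - a = b' - a') : len v (a, b) = len v (a', b') := by
  simp only [len, h]

theorem take_two {E : Multiset (ℤ × ℤ)} {c d : ℤ × ℤ} (hc : c ∈ E) (hd : d ∈ E) (h : c.1 ≠ d.1) :
    ∃ E2, E = c ::ₘ d ::ₘ E2 := by
  obtain ⟨E1, rfl⟩ := Multiset.exists_cons_of_mem hc
  have e3 : d ∈ E1 := by
    rcases Multiset.mem_cons.1 hd with e2 | e2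
    · exact absurd (by rw [e2]) h
    · exact e2
  obtain ⟨E2, rfl⟩ := Multiset.exists_cons_of_mem e3
  exact ⟨E2, rfl⟩

/-- a flip of two parallel edges -/
theorem par_flip {v : ℕ} {E : Multiset (ℤ × ℤ)} {s e : ℤ} (h : Good v E s e) {x : ℕ}
    (hx2 : 2 * x ≤ v) {a b : ℤ} (hab : a ≠ b) (ha : (a, a + x) ∈ E) (hb : (b, b + x) ∈ E) :
    ∃ F, Good v F s e ∧ (a, b) ∈ F ∧ (a + x, b + x) ∈ F ∧
      (∀ c ∈ E, c ≠ (a, a + x) → c ≠ (b, b + x) → c ∈ F) ∧
      lens v F + Multiset.replicate 2 x = lens v E + Multiset.replicate 2 (len v (a, b)) ∧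
      (¬ Conn E a b → ∀ p q, Conn E p q → Conn F p q) := by
  obtain ⟨E2, rfl⟩ := take_two ha hb hab
  refine ⟨(a, b) ::ₘ (a + x, b + x) ::ₘ E2, good_flip h, by simp, by simp, ?_, ?_,
    fun hn p q hpq => flip_merge h hn hpq⟩
  · intro c hc h1 h2
    simp only [Multiset.mem_cons] at hc ⊢
    tauto
  · simp only [lens_cons]
    rw [len_add a hx2, len_add b hx2, len_shift v (a := a + x) (b := b + x) (a' := a) (b' := b)
      (by ring)]
    ext l
    simp only [Multiset.count_add, Multiset.count_cons, Multiset.count_replicate]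
    split_ifs <;> omega

/-- a flip followed, if necessary, by a second flip that restores connectivity -/
theorem flipB {v : ℕ} {E : Multiset (ℤ × ℤ)} {s e : ℤ} (h : Good v E s e) (hc : AllConn v E)
    {x : ℕ} (hx : 1 ≤ x) (hx2 : 2 * x ≤ v) {a b d : ℤ} (hab : a ≠ b) (had : a ≠ d)
    (ha : (a, a + x) ∈ E) (hb : (b, b + x) ∈ E)
    (h5 : ∀ t, t = a - x ∨ t = a + x ∨ t = d - x ∨ t = d ∨ t = d + x →
      t ≠ a ∧ t ≠ b ∧ (t, t + x) ∈ E) :
    ∃ F, Good v F s e ∧ AllConn v F ∧ (a, b) ∈ F ∧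
      (∀ c ∈ E, c.1 ≠ a → c.1 ≠ b → c.1 ≠ a - x → c.1 ≠ a + x → c.1 ≠ d - x → c.1 ≠ d + x →
        c ∈ F) ∧
      ∃ j, j ≤ 1 ∧ lens v F + Multiset.replicate (2 + 2 * j) x =
        lens v E + Multiset.replicate 2 (len v (a, b)) +
          Multiset.replicate (2 * j) (len v (a, d)) := by
  obtain ⟨F, f1, f2, f3, f4, f5, -⟩ := par_flip h hx2 hab ha hb
  have eqF := conn_equiv F
  have pers : ∀ c ∈ E, c.1 ≠ a → c.1 ≠ b → c ∈ F := fun c hc h1 h2 =>
    f4 c hc (fun hh => h1 (by rw [hh])) (fun hh => h2 (by rw [hh]))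
  have fin : ∀ G, (∀ p q, Conn F p q → Conn G p q) → Conn G a (a + x) → AllConn v G := by
    intro G g1 g2 p q p1 p2 q1 q2
    have eqG := conn_equiv G
    refine conn_le eqG (fun c hcE => ?_) (hc p q p1 p2 q1 q2)
    by_cases c1 : c = (a, a + x)
    · rw [c1]; exact g2
    by_cases c2 : c = (b, b + x)
    · rw [c2]
      exact eqG.trans (eqG.symm (g1 _ _ (conn_edge f2))) (eqG.trans g2 (g1 _ _ (conn_edge f3)))
    · exact g1 _ _ (conn_edge (f4 c hcE c1 c2))
  by_cases hn : Conn F a (a + x)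
  · exact ⟨F, f1, fin F (fun _ _ h => h) hn, f2, fun c hc h1 h2 _ _ _ _ => pers c hc h1 h2,
      0, by omega, by simpa using f5⟩
  have ed : ∀ t, t = a - x ∨ t = a + x ∨ t = d - x ∨ t = d ∨ t = d + x → (t, t + x) ∈ F :=
    fun t ht => pers _ (h5 t ht).2.2 (h5 t ht).1 (h5 t ht).2.1
  have e1 := ed (a - x) (by omega)
  have e2 := ed (a + x) (by omega)
  have e3 := ed (d - x) (by omega)
  have e4 := ed d (by omega)
  have e5 := ed (d + x) (by omega)
  have c1 : Conn F (a - x) a := by simpa using conn_edge e1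
  have c3 : Conn F (d - x) d := by simpa using conn_edge e3
  have c4 : Conn F d (d + x) := conn_edge e4
  have dich : Conn F d a ∨ Conn F d (a + x) := by
    have d1 := h.fst ha
    have d2 := h.fst (h5 d (by omega)).2.2
    have := conn_le (E := E) (Q := fun p q => (Conn F p a ∨ Conn F p (a + x)) ↔
      (Conn F q a ∨ Conn F q (a + x))) ⟨fun _ => Iff.rfl, fun h => h.symm,
        fun h1 h2 => h1.trans h2⟩ (fun c hcE => ?_) (hc a d d1.1 d1.2 d2.1 d2.2)
    · exact this.1 (Or.inl (eqF.refl a))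
    by_cases k1 : c = (a, a + x)
    · rw [k1]
      exact iff_of_true (Or.inl (eqF.refl _)) (Or.inr (eqF.refl _))
    by_cases k2 : c = (b, b + x)
    · rw [k2]
      exact iff_of_true (Or.inl (eqF.symm (conn_edge f2))) (Or.inr (eqF.symm (conn_edge f3)))
    · have k3 : Conn F c.1 c.2 := conn_edge (f4 c hcE k1 k2)
      exact or_congr ⟨fun h => eqF.trans (eqF.symm k3) h, fun h => eqF.trans k3 h⟩
        ⟨fun h => eqF.trans (eqF.symm k3) h, fun h => eqF.trans k3 h⟩
  have key : ∃ a' d', d' - a' = d - a ∧ (a' = a - x ∨ a' = a + x) ∧ (a', a' + x) ∈ F ∧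
      (d', d' + x) ∈ F ∧ ¬ Conn F a' d' ∧ ∀ G, (∀ p q, Conn F p q → Conn G p q) →
        Conn G a' d' → Conn G a (a + x) := by
    rcases dich with k | k
    · refine ⟨a + x, d + x, by ring, Or.inr rfl, e2, e5, fun hh => hn ?_, fun G g1 g2 => ?_⟩
      · exact eqF.trans (eqF.symm k) (eqF.trans c4 (eqF.symm hh))
      · have eqG := conn_equiv G
        exact eqG.trans (eqG.symm (g1 _ _ k)) (eqG.trans (g1 _ _ c4) (eqG.symm g2))
    · refine ⟨a - x, d - x, by ring, Or.inl rfl, e1, e3, fun hh => hn ?_, fun G g1 g2 => ?_⟩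
      · exact eqF.trans (eqF.symm c1) (eqF.trans hh (eqF.trans c3 k))
      · have eqG := conn_equiv G
        exact eqG.trans (eqG.symm (g1 _ _ c1)) (eqG.trans g2 (g1 _ _ (eqF.trans c3 k)))
  obtain ⟨a', d', k1, k2, k3, k4, k5, k6⟩ := key
  obtain ⟨G, g1, g2, -, g4, g5, g6⟩ := par_flip f1 hx2 (a := a') (b := d') (by omega) k3 k4
  have n1 := (h5 (d - x) (by omega)).1
  have n2 := (h5 (d + x) (by omega)).1
  refine ⟨G, g1, fin G (g6 k5) (k6 G (g6 k5) (conn_edge g2)), g4 _ f2 ?_ ?_, ?_, 1, le_rfl, ?_⟩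
  · simp only [ne_eq, Prod.mk.injEq]; omega
  · simp only [ne_eq, Prod.mk.injEq]; omega
  · intro c hc m1 m2 m3 m4 m5 m6
    refine g4 c (pers c hc m1 m2) ?_ ?_
    · rintro rfl
      simp only at m3 m4
      omega
    · rintro rfl
      simp only at m5 m6
      omega
  · rw [len_shift v k1] at g5
    ext l
    have b1 := congrArg (Multiset.count l) f5
    have b2 := congrArg (Multiset.count l) g5
    simp only [Multiset.count_add, Multiset.count_replicate] at b1 b2 ⊢
    split_ifs at b1 b2 ⊢ <;> omega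

/-- a position all of whose translates by a few offsets avoid `U` -/
theorem pick (U : Finset ℤ) (O : List ℤ) (lo : ℤ) {n : ℕ} (hn : O.length * U.card < n) :
    ∃ t, lo ≤ t ∧ t < lo + n ∧ ∀ o ∈ O, t + o ∉ U := by
  by_contra hcon
  push Not at hcon
  have h1 : Finset.Ico lo (lo + n) ⊆ (O.toFinset ×ˢ U).image (fun p => p.2 - p.1) := by
    intro t ht
    rw [Finset.mem_Ico] at ht
    obtain ⟨o, o1, o2⟩ := hcon t ht.1 ht.2
    exact Finset.mem_image.2 ⟨(o, t + o), Finset.mem_product.2 ⟨List.mem_toFinset.2 o1, o2⟩,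
      by simp⟩
  have h2 := le_trans (Finset.card_le_card h1) Finset.card_image_le
  rw [Finset.card_product, Int.card_Ico] at h2
  have h3 : O.toFinset.card * U.card ≤ O.length * U.card :=
    Nat.mul_le_mul_right _ (List.toFinset_card_le O)
  omega

/-- a neutral flip in a short region of odd type -/
theorem neutral {v : ℕ} {E : Multiset (ℤ × ℤ)} {s e : ℤ} (h : Good v E s e) (hc : AllConn v E)
    {x y : ℕ} (hx : Odd x) (hy : 1 ≤ y) (hx2 : 2 * x ≤ v) (hy2 : 2 * y ≤ v) {a : ℤ}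
    (hp : Pure E x a (a + x + y)) :
    ∃ F, Good v F s e ∧ AllConn v F ∧ x ::ₘ x ::ₘ lens v F = y ::ₘ y ::ₘ lens v E ∧
      ∀ c ∈ E, (c.1 < a ∨ a + x + y ≤ c.1) → c ∈ F := by
  classical
  obtain ⟨f, h1, h2, h3, h4⟩ := ham h hc
  have hx1 : 1 ≤ x := hx.pos
  have hedge : ∀ c ∈ E, ∃ i, i + 1 < v ∧
      ((c.1 = f i ∧ c.2 = f (i + 1)) ∨ (c.1 = f (i + 1) ∧ c.2 = f i)) := by
    intro c hcE
    have h6 : key c ∈ E.map key := Multiset.mem_map_of_mem _ hcE
    rw [h1] at h6
    obtain ⟨i, hi, h7⟩ := Multiset.mem_map.1 h6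
    rw [Multiset.mem_range] at hi
    refine ⟨i, by omega, ?_⟩
    rcases key_eq h7 with ⟨b1, b2⟩ | ⟨b1, b2⟩
    · exact Or.inl ⟨b1.symm, b2.symm⟩
    · exact Or.inr ⟨b2.symm, b1.symm⟩
  have hpath : ∀ i, i + 1 < v → (f i, f (i + 1)) ∈ E ∨ (f (i + 1), f i) ∈ E := by
    intro i hi
    have h6 : key (f i, f (i + 1)) ∈ E.map key := by
      rw [h1]
      exact Multiset.mem_map.2 ⟨i, Multiset.mem_range.2 (by omega), rfl⟩
    obtain ⟨c, hcE, h7⟩ := Multiset.mem_map.1 h6
    rcases key_eq h7 with ⟨b1, b2⟩ | ⟨b1, b2⟩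
    · left
      have : c = (f i, f (i + 1)) := Prod.ext b1 b2
      rwa [← this]
    · right
      have : c = (f (i + 1), f i) := Prod.ext b1 b2
      rwa [← this]
  -- orientation
  let σ : ℤ → Prop := fun t => ∃ i, i + 1 < v ∧ t = f i ∧ t + x = f (i + 1)
  have hσ : ∀ t, a ≤ t → t < a + x + y → ¬ σ t → ∃ i, i + 1 < v ∧ t = f (i + 1) ∧ t + x = f i := by
    intro t t1 t2 t3
    obtain ⟨i, hi, h5 | h5⟩ := hedge _ (hp t t1 t2)
    · exact absurd ⟨i, hi, h5⟩ t3
    · exact ⟨i, hi, h5⟩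
  have hper : ∀ t, a ≤ t → t + x < a + x + y → (σ t ↔ σ (t + x)) := by
    intro t t1 t2
    constructor
    · rintro ⟨i, hi, b1, b2⟩
      by_contra b3
      obtain ⟨j, hj, b4, b5⟩ := hσ (t + x) (by omega) t2 b3
      have := h2 (i + 1) (j + 1) hi hj (b2.symm.trans b4)
      have b6 : i = j := by omega
      subst b6
      omega
    · rintro ⟨i, hi, b1, b2⟩
      by_contra b3
      obtain ⟨j, hj, b4, b5⟩ := hσ t t1 (by omega) b3
      have := h2 i j (by omega) (by omega) (b1.symm.trans b5)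
      subst this
      omega
  have hper2 : ∀ (n : ℕ) (t : ℤ), a ≤ t → t + x * n < a + x + y → (σ t ↔ σ (t + x * n)) := by
    intro n t t1
    induction n with
    | zero => simp
    | succ n ih =>
      intro hn
      have b0 : t + x * ((n + 1 : ℕ) : ℤ) = t + x * n + x := by push_cast; ring
      have b2 : (0 : ℤ) ≤ x * n := by positivity
      rw [b0] at hn ⊢
      rw [ih (by omega), hper (t + x * n) (by omega) hn]
  obtain ⟨b, hb1, hb2, hb3⟩ : ∃ b, a ≤ b ∧ b + y < a + x + y ∧ (σ b ↔ σ (b + y)) := by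
    by_contra hcon
    push Not at hcon
    have : ∀ n : ℕ, (σ (a + ((n * y % x : ℕ) : ℤ)) ↔ (σ a ↔ Even n)) := by
      intro n
      induction n with
      | zero => simp
      | succ n ih =>
        have b1 := Nat.mod_lt (n * y) (show x > 0 by omega)
        have b2 := Nat.div_add_mod (n * y % x + y) x
        have b6 : (n + 1) * y % x = (n * y % x + y) % x := by
          rw [add_mul, one_mul, Nat.mod_add_mod]
        have b3 := hcon (a + ((n * y % x : ℕ) : ℤ)) (by omega) (by omega)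
        have b5 : a + ((n * y % x : ℕ) : ℤ) + y =
            a + (((n + 1) * y % x : ℕ) : ℤ) + x * (((n * y % x + y) / x : ℕ) : ℤ) := by
          rw [b6]
          have b7 : ((x * ((n * y % x + y) / x) + (n * y % x + y) % x : ℕ) : ℤ) =
            ((n * y % x + y : ℕ) : ℤ) := by rw [b2]
          rw [Nat.cast_add, Nat.cast_mul, Nat.cast_add] at b7
          omega
        have b4 := hper2 ((n * y % x + y) / x) (a + (((n + 1) * y % x : ℕ) : ℤ)) (by omega)
          (by omega)
        rw [← b5] at b4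
        rw [b4, Nat.even_add_one]
        revert b3 ih
        generalize σ (a + ((n * y % x : ℕ) : ℤ)) = p1
        generalize σ (a + ((n * y % x : ℕ) : ℤ) + y) = p2
        generalize σ a = p3
        generalize Even n = p4
        clear * -
        tauto
    have b1 := this x
    rw [Nat.mul_mod_right, Nat.cast_zero, add_zero] at b1
    have b3 := Nat.not_even_iff_odd.2 hx
    revert b1 b3
    generalize σ a = p3
    generalize Even x = p4
    clear * -
    tauto
  have e1 := hp b hb1 (by omega)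
  have e2 := hp (b + y) (by omega) (by omega)
  obtain ⟨E1, rfl⟩ := Multiset.exists_cons_of_mem e1
  have e3 : (b + y, b + y + x) ∈ E1 := by
    rcases Multiset.mem_cons.1 e2 with e2 | e2
    · simp only [Prod.mk.injEq] at e2; omega
    · exact e2
  obtain ⟨E2, rfl⟩ := Multiset.exists_cons_of_mem e3
  refine ⟨(b, b + y) ::ₘ (b + x, b + y + x) ::ₘ E2, good_flip h, ?_, ?_, ?_⟩
  · have eq0 := conn_equiv ((b, b + y) ::ₘ (b + x, b + y + x) ::ₘ E2)
    have c1 : Conn ((b, b + y) ::ₘ (b + x, b + y + x) ::ₘ E2) b (b + y) := conn_edge (by simp)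
    have c2 : Conn ((b, b + y) ::ₘ (b + x, b + y + x) ::ₘ E2) (b + x) (b + y + x) :=
      conn_edge (by simp)
    obtain ⟨i, j, hi, hj, hij, c3, c4, c5⟩ : ∃ i j, i + 1 < v ∧ j + 1 < v ∧ i ≠ j ∧
        Conn ((b, b + y) ::ₘ (b + x, b + y + x) ::ₘ E2) (f i) (f j) ∧
        Conn ((b, b + y) ::ₘ (b + x, b + y + x) ::ₘ E2) (f (i + 1)) (f (j + 1)) ∧
        ((b = f i ∧ b + x = f (i + 1) ∧ b + y = f j ∧ b + y + x = f (j + 1)) ∨
         (b = f (i + 1) ∧ b + x = f i ∧ b + y = f (j + 1) ∧ b + y + x = f j)) := by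
      by_cases d1 : σ b
      · obtain ⟨j, hj, d3, d4⟩ := hb3.1 d1
        obtain ⟨i, hi, d1, d2⟩ := d1
        refine ⟨i, j, hi, hj, ?_, ?_, ?_, Or.inl ⟨d1, d2, d3, d4⟩⟩
        · rintro rfl; omega
        · rw [← d1, ← d3]; exact c1
        · rw [← d2, ← d4]; exact c2
      · obtain ⟨j, hj, d3, d4⟩ := hσ (b + y) (by omega) hb2 (fun hh => d1 (hb3.2 hh))
        obtain ⟨i, hi, d1, d2⟩ := hσ b hb1 (by omega) d1
        refine ⟨i, j, hi, hj, ?_, ?_, ?_, Or.inr ⟨d1, d2, d3, d4⟩⟩
        · rintro rfl; omega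
        · rw [← d2, ← d4]; exact c2
        · rw [← d1, ← d3]; exact c1
    have c6 : ∀ n, n + 1 < v → n ≠ i → n ≠ j →
        Conn ((b, b + y) ::ₘ (b + x, b + y + x) ::ₘ E2) (f n) (f (n + 1)) := by
      intro n hn n1 n2
      have i1 := h2 n i (by omega) (by omega)
      have i2 := h2 n j (by omega) (by omega)
      have i3 := h2 n (i + 1) (by omega) (by omega)
      have i4 := h2 n (j + 1) (by omega) (by omega)
      have i5 := h2 (n + 1) i (by omega) (by omega)
      have i6 := h2 (n + 1) j (by omega) (by omega)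
      rcases hpath n hn with d | d
      · simp only [Multiset.mem_cons, Prod.mk.injEq] at d
        rcases d with d | d | d
        · exfalso; omega
        · exfalso; omega
        · exact conn_edge (by simp [d])
      · simp only [Multiset.mem_cons, Prod.mk.injEq] at d
        rcases d with d | d | d
        · exfalso; omega
        · exfalso; omega
        · exact eq0.symm (conn_edge (by simp [d]))
    rcases Nat.lt_or_gt_of_ne hij with d | d
    · exact flip_path d hj h4 c6 c3 c4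
    · exact flip_path d hi h4 (fun n hn n1 n2 => c6 n hn n2 n1) (eq0.symm c3)
        (eq0.symm c4)
  · have : b + y + x = b + x + y := by ring
    simp only [lens_cons]
    rw [len_add b hx2, len_add (b + y) hx2, len_add b hy2, this, len_add (b + x) hy2]
    simp only [Multiset.cons_swap x y]
  · intro c hcE hc2
    simp only [Multiset.mem_cons] at hcE ⊢
    rcases hcE with rfl | rfl | hcE
    · exfalso; simp only at hc2; omega
    · exfalso; simp only at hc2; omega
    · exact Or.inr (Or.inr hcE)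

end Pool.Agent.BHR.Few
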