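import Pool.Agent.Lib.MP_7ae50b_co.FewCore

set_option autoImplicit false

namespace Pool.Agent.BHR.Few

def pDr (k u La : ℕ) : ℕ := (k + 1) * ((15 * k + 8) * u) + k * (La + u) + k * (2 * u)
def pDl (k u La : ℕ) : ℕ := pDr k u La + 5 * u * k + 170 * u
def pG (k u La : ℕ) : ℕ := 5 * u * k + 5 * u + pDl k u La
def pF (k u La : ℕ) : ℕ := pG k u La + k * La + La
def pKt (k u : ℕ) : ℕ := (k + 1) * ((15 * k + 8) * u) + u + 3 * (k * u) + 5 * u * k * (k + (k + 1))
def pS (k u La : ℕ) : ℕ := (7 * k + 9) * (pDl k u La + (5 * u + 5 * u * k)) + (5 * u + 5 * u * k) +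
  (5 * u * k + 4 * u + pDl k u La)
def pErr (k u La : ℕ) : ℕ := k * (pS k u La + 12 * u + 5 * u * k) + (pS k u La + 12 * u + 5 * u * k)
def pLen (k u La : ℕ) : ℕ := 42 * (k * (pErr k u La + pKt k u + 9 * u)) + 4 * (La + u) + u
def pNL (k u La : ℕ) : ℕ := pLen k u La + 2 * (La + u) * k
def pT (k u La : ℕ) : ℕ := pErr k u La + pKt k u + 8 * u + pS k u La + u +
  (7 * k + 9) * (pDl k u La + pNL k u La) + pNL k u La + pG k u La +
  2 * (5 * u * k + 5 * u + pDl k u La + (6 * k + 8) * (k + 1) * (pDl k u La + pDl k u La))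

theorem pDl_hom (k u l : ℕ) : pDl k u (l * u) = pDl k 1 l * u := by
  simp only [pDl, pDr]; ring

theorem pG_hom (k u l : ℕ) : pG k u (l * u) = pG k 1 l * u := by
  simp only [pG, pDl_hom]; ring

theorem pF_hom (k u l : ℕ) : pF k u (l * u) = pF k 1 l * u := by
  simp only [pF, pG_hom]; ring

theorem pKt_hom (k u : ℕ) : pKt k u = pKt k 1 * u := by
  simp only [pKt]; ring

theorem pS_hom (k u l : ℕ) : pS k u (l * u) = pS k 1 l * u := by
  simp only [pS, pDl_hom]; ring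

theorem pErr_hom (k u l : ℕ) : pErr k u (l * u) = pErr k 1 l * u := by
  simp only [pErr, pS_hom]; ring

theorem pNL_hom (k u l : ℕ) : pNL k u (l * u) = pNL k 1 l * u := by
  simp only [pNL, pLen, pErr_hom]
  rw [pKt_hom k u]
  ring

theorem pT_hom (k u l : ℕ) : pT k u (l * u) = pT k 1 l * u := by
  simp only [pT, pErr_hom, pS_hom, pDl_hom, pNL_hom, pG_hom]
  rw [pKt_hom k u]
  ring

theorem iter_hom {F f : ℕ → ℕ} {u : ℕ} (h : ∀ l, F (l * u) = f l * u) (j : ℕ) :
    F^[j] 0 = f^[j] 0 * u := by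
  induction j with
  | zero => simp
  | succ j ih => rw [Function.iterate_succ_apply', Function.iterate_succ_apply', ih, h]

theorem core (k : ℕ) : ∃ C, ∀ (v w τ : ℕ) (A : Finset ℕ) (L : Multiset ℕ), Gen A →
    (∀ x ∈ A, 1 ≤ x ∧ x ≤ w) → w ∈ A → L.card = v - 1 → (∀ x ∈ L, 1 ≤ x ∧ 2 * x ≤ v) →
    (∀ x ∈ A, C * (w + τ + 1) ≤ L.count x) → (L.filter (· ∉ A)).card ≤ τ →
    L.toFinset.card ≤ k → ∃ E s e, Good v E s e ∧ AllConn v E ∧ lens v E = L := by
  classical
  refine ⟨(Finset.range (k + k * k + 1)).sup (fun j => pT k 1 ((pF k 1)^[j] 0)) + 1, ?_⟩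
  intro v w τ A L hG hA hw h1 h2 h3 h4 h5
  obtain ⟨u, hu⟩ : ∃ u, u = w + τ + 1 := ⟨_, rfl⟩
  rw [← hu] at h3
  set R := (L.filter (· ∉ A)).toFinset with hR
  have r1 : R.card ≤ k := le_trans (Finset.card_le_card (fun y hy => Multiset.mem_toFinset.2
    (Multiset.mem_filter.1 (Multiset.mem_toFinset.1 hy)).1)) h5
  obtain ⟨j, hj, hX⟩ := scale (pF k u) (fun t => Nat.le_add_left _ _)
    (R ∪ (R ×ˢ R).image (fun p => p.2 - p.1)) (n := k + k * k) (by
      refine le_trans (Finset.card_union_le _ _) (Nat.add_le_add r1 ?_)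
      refine le_trans Finset.card_image_le ?_
      rw [Finset.card_product]
      exact Nat.mul_le_mul r1 r1)
  have hw1 := hA w hw
  have hT : ∀ x ∈ A, pT k u ((pF k u)^[j] 0) + u ≤ L.count x := by
    intro x hx
    refine le_trans ?_ (h3 x hx)
    rw [iter_hom (pF_hom k u), pT_hom, add_mul, one_mul]
    exact Nat.add_le_add_right (Nat.mul_le_mul_right _ (Finset.le_sup
      (f := fun j => pT k 1 ((pF k 1)^[j] 0)) (Finset.mem_range.2 (by omega)))) _
  have hAk : A.card ≤ k := le_trans (Finset.card_le_card (fun y hy => by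
    have := hT y hy
    exact Multiset.mem_toFinset.2 (Multiset.count_pos.1 (by omega)))) h5
  generalize (pF k u)^[j] 0 = La at hX hT
  have wu : w ≤ u := by omega
  have tu : τ ≤ u := by omega
  have ku : k ≤ k * u := Nat.le_mul_of_pos_right _ (by omega)
  obtain ⟨M, Cd, nB, m1, m2, m3, m4, m5⟩ : ∃ M Cd nB, 5 * w * (A.card - 1) ≤ M ∧ M ≤ 5 * u * k ∧
      ((w = 1 ∧ Cd = 0 ∧ M = 0 ∧ τ ≤ nB) ∨
        (2 ≤ w ∧ 3 * (M + w) + 4 * w ≤ Cd ∧ w ≤ M ∧ k ≤ nB)) ∧
      (nB + 1) * (w + Cd) ≤ (k + 1) * ((15 * k + 8) * u) ∧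
      (nB + 1) * Cd + nB + 2 * k + M * (k + (nB + 1)) ≤ pKt k u := by
    by_cases h : w = 1
    · have a1 := card_le_of_bounds hA
      have a2 : A.card - 1 = 0 := by omega
      have a3 : 1 * (1 * u) ≤ (k + 1) * ((15 * k + 8) * u) := by gcongr <;> omega
      refine ⟨0, 0, τ, by simp [a2], by omega, Or.inl ⟨h, rfl, rfl, le_rfl⟩, by rw [h]; omega, ?_⟩
      simp only [pKt]
      omega
    · obtain ⟨y, y1, y2⟩ := exists_other (z := w) hG hw (by omega)
      have a1 : 1 < A.card := Finset.one_lt_card.2 ⟨y, y1, w, hw, y2⟩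
      have a2 : 5 * w * 1 ≤ 5 * w * (A.card - 1) := Nat.mul_le_mul_left _ (by omega)
      have a3 : 5 * w * (A.card - 1) ≤ 5 * u * k := by gcongr; omega
      have a4 : (15 * k + 8) * u = 3 * (5 * u * k) + 8 * u := by ring
      generalize 5 * w * (A.card - 1) = M at a2 a3
      have a5 : (k + 1) * (w + (3 * (M + w) + 4 * w)) ≤ (k + 1) * ((15 * k + 8) * u) :=
        Nat.mul_le_mul_left _ (by omega)
      have a6 : (k + 1) * (3 * (M + w) + 4 * w) ≤ (k + 1) * ((15 * k + 8) * u) :=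
        Nat.mul_le_mul_left _ (by omega)
      have a7 : M * (k + (k + 1)) ≤ 5 * u * k * (k + (k + 1)) := Nat.mul_le_mul_right _ a3
      refine ⟨M, 3 * (M + w) + 4 * w, k, le_rfl, a3, Or.inr ⟨by omega, le_rfl, by omega, le_rfl⟩,
        a5, ?_⟩
      simp only [pKt]
      omega
  refine core_fixed (La := La) (Dr := pDr k u La) (Dl := pDl k u La) (G := pG k u La)
    (G' := pF k u La) (S := pS k u La) (Err := pErr k u La) (Len := pLen k u La)
    (NL := pNL k u La) (T := pT k u La) hG hA hw m1 m3 ?_ ?_ ?_ ?_ ?_ m5 ?_ ?_ ?_ ?_ ?_ h1 h2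
    (fun x hx => le_trans (Nat.le_add_right _ _) (hT x hx)) h4 h5 (fun x hx => ?_)
    (fun x hx y hy => ?_)
  · unfold pDr
    gcongr
  · unfold pDl
    omega
  · unfold pDl
    omega
  · unfold pG
    omega
  · unfold pF
    omega
  · unfold pS
    gcongr
  · unfold pErr
    gcongr
  · have : 42 * (k * (pErr k u La + pKt k u + 9 * τ)) + 4 * (La + w) ≤
        42 * (k * (pErr k u La + pKt k u + 9 * u)) + 4 * (La + u) := by gcongr
    unfold pLen
    omega
  · unfold pNL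
    gcongr
  · unfold pT
    gcongr
  · exact hX x (Finset.mem_union_left _ (Multiset.mem_toFinset.2 hx))
  · have := hX (y - x) (Finset.mem_union_right _ (Finset.mem_image.2 ⟨(x, y),
      Finset.mem_product.2 ⟨Multiset.mem_toFinset.2 hx, Multiset.mem_toFinset.2 hy⟩, rfl⟩))
    omega

end Pool.Agent.BHR.Few
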