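import Pool.Agent.Lib.MP_7ae50b_co.FewLin

set_option autoImplicit false

namespace Pool.Agent.BHR.Few

theorem main_set (k : ℕ) : ∃ C, ∀ (v m τ : ℕ) (A : Finset ℕ) (L : Multiset ℕ) (u : ℤ),
    IsCoprime u v → A.gcd id = 1 → (∀ x ∈ A, 1 ≤ x ∧ x ≤ m) → L.card = v - 1 →
    (∀ x ∈ L, 1 ≤ x ∧ 2 * x ≤ v) → (∀ x ∈ A, C * (m + τ + 1) ≤ L.count (nrm v (u * x))) →
    (L.filter (fun l => ∀ x ∈ A, l ≠ nrm v (u * x))).card ≤ τ → L.toFinset.card ≤ k →
    Real v L := by
  classical
  obtain ⟨C, hT⟩ := core k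
  refine ⟨C + 2, ?_⟩
  intro v m τ A L u hu hg hA h1 h2 h3 h4 h5
  simp only [add_mul] at h3
  have hne : A.Nonempty := by
    rw [Finset.nonempty_iff_ne_empty]
    rintro rfl
    simp at hg
  obtain ⟨w, hw, hw2⟩ := A.exists_max_image id hne
  have hv1 := le_trans (h3 w hw) (Multiset.count_le_card _ _)
  have hv : 1 ≤ v := by omega
  obtain ⟨a, b, hab⟩ := id hu
  have inv1 : ∀ x : ℕ, 2 * x ≤ v → nrm v (u * nrm v (a * x)) = x := by
    intro x hx
    rw [nrm_mul hv, nrm_congr (b := x) ⟨-(b * x), by linear_combination (x : ℤ) * hab⟩,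
      nrm_self hv hx]
  have inv2 : ∀ x : ℕ, 2 * x ≤ v → nrm v (a * nrm v (u * x)) = x := by
    intro x hx
    rw [nrm_mul hv, nrm_congr (b := x) ⟨-(b * x), by linear_combination (x : ℤ) * hab⟩,
      nrm_self hv hx]
  obtain ⟨E, s, e, g1, g2, g3⟩ := hT v w τ A (L.map (fun x : ℕ => nrm v (a * x))) (gen_of_gcd hg)
    (fun x hx => ⟨(hA x hx).1, hw2 x hx⟩) hw (by simpa using h1) (by
      intro x hx
      obtain ⟨y, hy, rfl⟩ := Multiset.mem_map.1 hx
      refine ⟨?_, nrm_le _ _⟩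
      by_contra h
      have a1 := inv1 y (h2 y hy).2
      have a2 : nrm v (a * y) = 0 := by omega
      rw [a2] at a1
      simp [nrm] at a1
      have := h2 y hy
      omega) (by
      intro x hx
      have a1 := h3 x hx
      have a2 := count_le_map (fun x : ℕ => nrm v (a * x)) L (nrm v (u * x))
      beta_reduce at a2
      rw [inv2 x (by have := hA x hx; omega)] at a2
      have a3 : C * (w + τ + 1) ≤ C * (m + τ + 1) :=
        Nat.mul_le_mul_left _ (by have := hA w hw; omega)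
      omega) (by
      rw [Multiset.filter_map, Multiset.card_map]
      refine le_trans (Multiset.card_le_card (Multiset.monotone_filter_right L ?_)) h4
      intro l hl x hx hh
      apply hl
      beta_reduce
      rw [hh, inv2 x (by have := hA x hx; omega)]
      exact hx) (by
      rw [Multiset.toFinset_map]
      exact le_trans Finset.card_image_le h5)
  have := real_of g1 g2 hu
  rw [g3, Multiset.map_map] at this
  have e1 : L.map ((fun x : ℕ => nrm v (u * x)) ∘ fun x : ℕ => nrm v (a * x)) = L.map id :=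
    Multiset.map_congr rfl (fun x hx => inv1 x (h2 x hx).2)
  rwa [e1, Multiset.map_id] at this

theorem short (k n : ℕ) : ∃ N, ∀ (v : ℕ) (L : Multiset ℕ) (u : ℤ), N ≤ v → 2 ≤ v →
    IsCoprime u v → L.card = v - 1 → (∀ x ∈ L, 1 ≤ x ∧ 2 * x ≤ v) → L.toFinset.card ≤ k →
    (∀ x ∈ L, ∃ y : ℕ, N * y ≤ v ∧ x = nrm v (u * y)) →
    (∀ q, q.Prime → q ∣ v → v ≤ n * (L.filter (fun x => ¬ q ∣ x)).card) → Real v L := by
  classical
  obtain ⟨C, hC⟩ := main_set k
  let f : ℕ → ℕ := fun l => C * (1 + k * l) + l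
  obtain ⟨B, hB⟩ : ∃ B, ∀ j, j ≤ k → n * (k * f^[j] 0) ≤ B :=
    ⟨(Finset.range (k + 1)).sup (fun j => n * (k * f^[j] 0)), fun j hj =>
      Finset.le_sup (f := fun j => n * (k * f^[j] 0)) (Finset.mem_range.2 (by omega))⟩
  refine ⟨4 * B + 1, ?_⟩
  intro v L u hN hv hu h1 h2 h5 h3 h4
  obtain ⟨m, hm⟩ : ∃ m, m = v / (4 * B + 1) := ⟨_, rfl⟩
  have m1 : (4 * B + 1) * m ≤ v := by rw [hm]; exact Nat.mul_div_le _ _
  have m2 : ∀ y, (4 * B + 1) * y ≤ v → y ≤ m := fun y hy => by
    rw [hm, Nat.le_div_iff_mul_le (by omega), mul_comm]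
    exact hy
  let F : ℕ → ℕ := fun t => C * (m + k * t + 1) + t
  obtain ⟨j, hj, hX⟩ := scale F (fun t => Nat.le_add_left _ _)
    (L.toFinset.image (fun x : ℕ => L.count x)) (n := k) (le_trans Finset.card_image_le h5)
  have hθ : 2 * (n * (k * F^[j] 0)) < v := by
    rw [iter_hom (F := F) (f := f) (u := m + 1) (fun l => by simp only [F, f]; ring)]
    have a1 : n * (k * (f^[j] 0 * (m + 1))) = n * (k * f^[j] 0) * (m + 1) := by ring
    have a2 : n * (k * f^[j] 0) * (m + 1) ≤ B * (m + 1) := Nat.mul_le_mul_right _ (hB j hj)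
    have a3 : (4 * B + 1) * m = 4 * (B * m) + m := by ring
    have a4 : B * (m + 1) = B * m + B := by ring
    omega
  generalize F^[j] 0 = t at hX hθ
  set A := (Finset.Icc 1 m).filter (fun x : ℕ => F t < L.count (nrm v (u * x))) with hA
  have a1 : ∀ x ∈ A, (1 ≤ x ∧ x ≤ m) ∧ F t < L.count (nrm v (u * x)) := fun x hx => by
    simpa only [hA, Finset.mem_filter, Finset.mem_Icc] using hx
  have a2 : (L.filter (fun l => ∀ x ∈ A, l ≠ nrm v (u * x))).card ≤ k * t := by
    set R := L.filter (fun l => ∀ x ∈ A, l ≠ nrm v (u * x)) with hR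
    rw [← Multiset.toFinset_sum_count_eq R]
    have b1 := Finset.sum_le_card_nsmul R.toFinset (fun l => R.count l) t (fun l hl => by
      obtain ⟨c1, c2⟩ := Multiset.mem_filter.1 (Multiset.mem_toFinset.1 hl)
      have c3 : R.count l ≤ L.count l := Multiset.count_le_of_le _ (Multiset.filter_le _ _)
      obtain ⟨y, y1, y2⟩ := h3 l c1
      have c5 : 1 ≤ y := by
        have := h2 l c1
        rcases y with _ | y
        · simp [nrm] at y2; omega
        · omega
      rcases hX _ (Finset.mem_image_of_mem _ (Multiset.mem_toFinset.2 c1)) with h | h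
      · omega
      · exact absurd y2 (c2 y (Finset.mem_filter.2 ⟨Finset.mem_Icc.2 ⟨c5, m2 y y1⟩, y2 ▸ h⟩)))
    rw [smul_eq_mul] at b1
    refine le_trans b1 (Nat.mul_le_mul_right _ (le_trans (Finset.card_le_card (fun l hl => ?_)) h5))
    exact Multiset.mem_toFinset.2 (Multiset.mem_filter.1 (Multiset.mem_toFinset.1 hl)).1
  have a3 : Nat.Coprime (A.gcd id) v := by
    apply Nat.coprime_of_dvd
    intro p hp p1 p2
    have b1 := h4 p hp p2
    have b2 : L.filter (fun x => ¬ p ∣ x) ≤ L.filter (fun l => ∀ x ∈ A, l ≠ nrm v (u * x)) := by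
      apply Multiset.monotone_filter_right
      intro l hl x hx hh
      apply hl
      have c1 : (p : ℤ) ∣ u * x := by
        have : p ∣ x := dvd_trans p1 (Finset.gcd_dvd hx)
        exact Dvd.dvd.mul_left (by exact_mod_cast this) _
      have c2 : (p : ℤ) ∣ v := by exact_mod_cast p2
      have c3 : (p : ℤ) ∣ l := by
        rw [hh]
        rcases nrm_cases (v := v) (by omega) (u * x) with h | h
        · exact (dvd_sub_right c1).1 (dvd_trans c2 h)
        · exact (dvd_add_right c1).1 (dvd_trans c2 h)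
      exact_mod_cast c3
    have b3 := Nat.mul_le_mul_left n (le_trans (Multiset.card_le_card b2) a2)
    omega
  have a4 : A.gcd id ≠ 0 := by
    intro h
    rw [h] at a3
    simp at a3
    omega
  obtain ⟨x0, hx0, hx1⟩ : ∃ x ∈ A, x ≠ 0 := by
    by_contra hcon
    push Not at hcon
    exact a4 (Finset.gcd_eq_zero_iff.2 hcon)
  have a5 : ∀ x ∈ A, (u * (A.gcd id : ℕ)) * ((x / A.gcd id : ℕ) : ℤ) = u * x := by
    intro x hx
    have : A.gcd id * (x / A.gcd id) = x := Nat.mul_div_cancel' (Finset.gcd_dvd hx)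
    rw [mul_assoc]
    congr 1
    exact_mod_cast this
  refine hC v m (k * t) (A.image (fun x => x / A.gcd id)) L (u * (A.gcd id : ℕ)) ?_ ?_ ?_ h1
    h2 ?_ ?_ h5
  · exact hu.mul_left (Nat.isCoprime_iff_coprime.2 a3)
  · rw [Finset.gcd_image]
    exact Finset.gcd_div_id_eq_one hx0 hx1
  · intro y hy
    obtain ⟨x, hx, rfl⟩ := Finset.mem_image.1 hy
    have := (a1 x hx).1
    exact ⟨Nat.div_pos (Nat.le_of_dvd this.1 (Finset.gcd_dvd hx)) (Nat.pos_of_ne_zero a4),
      le_trans (Nat.div_le_self _ _) this.2⟩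
  · intro y hy
    obtain ⟨x, hx, rfl⟩ := Finset.mem_image.1 hy
    rw [a5 x hx]
    have := (a1 x hx).2
    simp only [F] at this
    omega
  · refine le_trans (Multiset.card_le_card (Multiset.monotone_filter_right L ?_)) a2
    intro l hl x hx hh
    exact hl _ (Finset.mem_image_of_mem _ hx) (by rw [a5 x hx]; exact hh)

theorem nrm_le_abs {v : ℕ} {a b : ℤ} (a1 : 0 ≤ a) (a2 : a < v) (b1 : 0 ≤ b) (b2 : b < v) :
    nrm v (b - a) ≤ (b - a).natAbs := by
  rw [← len_eq_nrm a1 a2 b1 b2]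
  exact min_le_left _ _

theorem dirichlet {v Q : ℕ} (hv : 1 ≤ v) (hQ : 1 ≤ Q) (S : Finset ℕ) :
    ∃ t : ℕ, 1 ≤ t ∧ t ≤ Q ^ S.card ∧ ∀ c ∈ S, Q * nrm v (t * c) ≤ v := by
  classical
  have key : ∀ i j : ℕ, i < j → j ≤ Q ^ S.card →
      (∀ c ∈ S, i * c % v * Q / v = j * c % v * Q / v) →
      ∃ t : ℕ, 1 ≤ t ∧ t ≤ Q ^ S.card ∧ ∀ c ∈ S, Q * nrm v (t * c) ≤ v := by
    intro i j hij hj h
    refine ⟨j - i, by omega, by omega, fun c hc => ?_⟩
    have a1 := Nat.mod_lt (i * c) (show v > 0 by omega)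
    have a2 := Nat.mod_lt (j * c) (show v > 0 by omega)
    have a3 : nrm v (((j - i : ℕ) : ℤ) * c) = nrm v (((j * c % v : ℕ) : ℤ) - ((i * c % v : ℕ) : ℤ)) := by
      apply nrm_congr
      have b1 : ((v * (j * c / v) + j * c % v : ℕ) : ℤ) = ((j * c : ℕ) : ℤ) := by
        rw [Nat.div_add_mod]
      have b2 : ((v * (i * c / v) + i * c % v : ℕ) : ℤ) = ((i * c : ℕ) : ℤ) := by
        rw [Nat.div_add_mod]
      rw [Nat.cast_add, Nat.cast_mul, Nat.cast_mul] at b1 b2
      rw [Nat.cast_sub hij.le]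
      exact ⟨((j * c / v : ℕ) : ℤ) - ((i * c / v : ℕ) : ℤ), by linear_combination b2 - b1⟩
    have a4 := nrm_le_abs (v := v) (a := ((i * c % v : ℕ) : ℤ)) (b := ((j * c % v : ℕ) : ℤ))
      (by omega) (by omega) (by omega) (by omega)
    rw [← a3] at a4
    have a5 := h c hc
    generalize i * c % v = r at *
    generalize j * c % v = s at *
    have a6 := Nat.div_add_mod (r * Q) v
    have a7 := Nat.div_add_mod (s * Q) v
    have a8 := Nat.mod_lt (r * Q) (show v > 0 by omega)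
    have a9 := Nat.mod_lt (s * Q) (show v > 0 by omega)
    rw [a5] at a6
    refine le_trans (Nat.mul_le_mul_left Q a4) ?_
    rcases Nat.le_total r s with h1 | h1
    · obtain ⟨d, rfl⟩ := Nat.exists_eq_add_of_le h1
      have : (((r + d : ℕ) : ℤ) - r).natAbs = d := by omega
      rw [this]
      have : (r + d) * Q = r * Q + Q * d := by ring
      omega
    · obtain ⟨d, rfl⟩ := Nat.exists_eq_add_of_le h1
      have : ((s : ℤ) - ((s + d : ℕ) : ℤ)).natAbs = d := by omega
      rw [this]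
      have : (s + d) * Q = s * Q + Q * d := by ring
      omega
  obtain ⟨i, hi, j, hj, hij, h⟩ := Finset.exists_ne_map_eq_of_card_lt_of_maps_to
    (s := Finset.range (Q ^ S.card + 1)) (t := Fintype.piFinset (fun _ : S => Finset.range Q))
    (by simp) (f := fun j (c : S) => j * c.1 % v * Q / v) (fun j _ => by
      simp only [Finset.mem_coe, Fintype.mem_piFinset, Finset.mem_range]
      intro c
      rw [Nat.div_lt_iff_lt_mul (by omega), mul_comm Q]
      have := Nat.mod_lt (j * c.1) (show v > 0 by omega)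
      exact Nat.mul_lt_mul_of_pos_right this (by omega))
  rw [Finset.mem_range] at hi hj
  rcases Nat.lt_or_gt_of_ne hij with h1 | h1
  · exact key i j h1 (by omega) (fun c hc => congrFun h ⟨c, hc⟩)
  · exact key j i h1 (by omega) (fun c hc => (congrFun h ⟨c, hc⟩).symm)

theorem few (k n : ℕ) : ∃ N, ∀ (v : ℕ) (L : Multiset ℕ), 2 ≤ v → L.card = v - 1 →
    (∀ x ∈ L, 1 ≤ x ∧ x ≤ v / 2) → L.toFinset.card ≤ k →
    (∀ q, q.Prime → q ∣ v → N ≤ q ∧ v ≤ n * (L.filter (fun x => ¬ q ∣ x)).card) → Real v L := by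
  obtain ⟨N, hN⟩ := short k n
  refine ⟨(N + 1) ^ k + N + 1, fun v L hv h1 h2 h3 h4 => ?_⟩
  obtain ⟨t, t1, t2, t3⟩ := dirichlet (v := v) (Q := N + 1) (by omega) (by omega) L.toFinset
  have t4 : (N + 1) ^ L.toFinset.card ≤ (N + 1) ^ k := Nat.pow_le_pow_right (by omega) h3
  have t5 : Nat.Coprime t v := by
    apply Nat.coprime_of_dvd
    intro p hp p1 p2
    have a1 := (h4 p hp p2).1
    have a2 := Nat.le_of_dvd t1 p1
    omega
  obtain ⟨q, q1, q2⟩ := Nat.exists_prime_and_dvd (show v ≠ 1 by omega)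
  have q3 := (h4 q q1 q2).1
  have q4 := Nat.le_of_dvd (by omega) q2
  obtain ⟨a, b, hab⟩ := Nat.isCoprime_iff_coprime.2 t5
  refine hN v L a (by omega) hv ⟨t, b, by linear_combination hab⟩ h1
    (fun x hx => by have := h2 x hx; omega) h3 (fun x hx => ⟨nrm v (t * x), ?_, ?_⟩)
    (fun p hp p1 => (h4 p hp p1).2)
  · have := t3 x (Multiset.mem_toFinset.2 hx)
    rw [add_mul] at this
    omega
  · have := h2 x hx
    rw [nrm_mul (by omega), nrm_congr (b := x) ⟨-(b * x), by linear_combination (x : ℤ) * hab⟩,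
      nrm_self (by omega) (by omega)]

end Pool.Agent.BHR.Few
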