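import Pool.Agent.Lib.MP_7ae50b_co.FewStage

set_option autoImplicit false

namespace Pool.Agent.BHR.Few

theorem ord_aux {L G : ℕ} (l : List ℕ) (hs : l.Pairwise (· ≤ ·))
    (hg : ∀ x ∈ l, ∀ y ∈ l, y ≤ x + L ∨ x + G < y) (a : ℤ) (d : ℕ) (hd : ∀ x ∈ l, d ≤ x) :
    ∃ (f : ℕ → ℤ) (ρ : ℕ → ℕ), f 0 = a ∧ ∑ i ∈ Finset.range l.length, {ρ i} = (l : Multiset ℕ) ∧
      (∀ i, i < l.length → ρ i ∈ l ∧ (i % 2 = 0 → f (i + 1) = f i + ρ i) ∧
        (i % 2 = 1 → f (i + 1) = f i - ρ i)) ∧
      (∀ i, i % 2 = 1 → i ≤ l.length → a + d ≤ f i) ∧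
      (∀ i j, i % 2 = 1 → j % 2 = 1 → i ≤ j → j ≤ l.length → f i ≤ f j) ∧
      (∀ i j, i % 2 = 0 → j % 2 = 0 → i ≤ j → j ≤ l.length →
        f j ≤ f i + l.toFinset.card * L ∧
          (f i ≤ f j ∨ f j + G ≤ f i + l.toFinset.card * L)) ∧
      ∃ T : Finset ℤ, T.card ≤ 3 * l.toFinset.card + 1 ∧ (∀ i, i ≤ l.length → f i ∈ T) ∧
        ∀ x ∈ l, (∀ y ∈ l, x ≤ y) → a + x ∈ T := by
  induction l using List.twoStepInduction generalizing a d with
  | nil =>
    refine ⟨fun _ => a, fun _ => 0, rfl, by simp, by simp, fun i h1 h2 => ?_, by simp, by simp,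
      {a}, by simp, by simp, by simp⟩
    simp at h2; omega
  | singleton x =>
    have := hd x (by simp)
    refine ⟨fun i => if i = 0 then a else a + x, fun _ => x, rfl, by simp, ?_, ?_, ?_, ?_,
      {a, a + x}, le_trans Finset.card_le_two (by simp), fun i _ => ?_, by simp⟩
    · intro i hi
      obtain rfl : i = 0 := by simpa using hi
      simp
    · intro i h1 _
      beta_reduce
      rw [if_neg (by omega)]
      omega
    · intro i j h1 h2 _ _
      beta_reduce
      rw [if_neg (by omega), if_neg (by omega)]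
    · intro i j h1 h2 h3 h4
      simp only [List.length_singleton] at h4
      obtain rfl : j = 0 := by omega
      obtain rfl : i = 0 := by omega
      simp
    · beta_reduce
      split_ifs <;> simp
  | cons_cons x y l ih _ =>
    have hxy : x ≤ y := (List.pairwise_cons.1 hs).1 y (by simp)
    have hs2 := (List.pairwise_cons.1 hs).2
    have hx := hd x (by simp)
    obtain ⟨u, e, h1, h2, h3, h4, h5, h6⟩ : ∃ u e : ℕ, u ∈ x :: y :: l ∧ e ∈ x :: y :: l ∧
        u ::ₘ e ::ₘ (l : Multiset ℕ) = (x :: y :: l : List ℕ) ∧ d ≤ u ∧ e ≤ y ∧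
        ((e ≤ u ∧ u ≤ e + L ∧ u = y ∧ e = x) ∨ (u + G < e ∧ u = x ∧ e = y)) := by
      rcases hg x (by simp) y (by simp) with h | h
      · exact ⟨y, x, by simp, by simp, by rw [Multiset.cons_swap]; rfl, by omega, hxy,
          Or.inl ⟨hxy, h, rfl, rfl⟩⟩
      · exact ⟨x, y, by simp, by simp, rfl, hx, le_rfl, Or.inr ⟨h, rfl, rfl⟩⟩
    obtain ⟨f, ρ, f1, f2, f3, f4, f5, f6, T, t1, t2, t3⟩ := ih (List.pairwise_cons.1 hs2).2
      (fun p hp q hq => hg p (by simp [hp]) q (by simp [hq])) (a + u - e) e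
      (fun p hp => le_trans h5 ((List.pairwise_cons.1 hs2).1 p hp))
    have hyl : ∀ p ∈ l, y ≤ p := (List.pairwise_cons.1 hs2).1
    have k0 : l.toFinset.card ≤ (x :: y :: l).toFinset.card :=
      Finset.card_le_card (fun p hp => by
        rw [List.mem_toFinset] at hp ⊢
        simp [hp])
    have k1 : x ∉ l → l.toFinset.card + 1 ≤ (x :: y :: l).toFinset.card := fun hxl => by
      rw [← Finset.card_insert_of_notMem (a := x) (by simpa using hxl)]
      refine Finset.card_le_card (fun p hp => ?_)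
      rw [Finset.mem_insert, List.mem_toFinset] at hp
      rw [List.mem_toFinset]
      rcases hp with rfl | hp
      · simp
      · simp [hp]
    have k2 : x < y → x ∉ l := fun h hh => by have := hyl x hh; omega
    have k3 : (l.toFinset.card : ℤ) * L ≤ (x :: y :: l).toFinset.card * L := by
      have := Nat.mul_le_mul_right L k0
      exact_mod_cast this
    have k4 : x < y → (l.toFinset.card : ℤ) * L + L ≤ (x :: y :: l).toFinset.card * L := by
      intro h
      have := Nat.mul_le_mul_right L (k1 (k2 h))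
      rw [add_mul, one_mul] at this
      exact_mod_cast this
    have k5 : (0 : ℤ) ≤ (x :: y :: l).toFinset.card * L := by positivity
    generalize ((x :: y :: l).toFinset.card : ℤ) * L = K at k3 k4 k5
    generalize (l.toFinset.card : ℤ) * L = K' at k3 k4 f6
    refine ⟨fun i => if i = 0 then a else if i = 1 then a + u else f (i - 2),
      fun i => if i = 0 then u else if i = 1 then e else ρ (i - 2), rfl, ?_, ?_, ?_, ?_, ?_, ?_⟩
    · rw [List.length_cons, List.length_cons, Finset.sum_range_succ', Finset.sum_range_succ', ← h3,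
        ← f2]
      simp only [Nat.add_eq_zero_iff, one_ne_zero, and_false, if_false, zero_add, if_true,
        Nat.add_eq_right]
      rw [add_comm, add_comm _ ({e} : Multiset ℕ)]
      rfl
    · intro i hi
      rcases i with _ | _ | i
      · simp [h1]
      · simp [h2, f1]
      · simp only [List.length_cons] at hi
        obtain ⟨b1, b2, b3⟩ := f3 i (by omega)
        have e1 : i + 1 + 1 + 1 - 2 = i + 1 := by omega
        have e2 : i + 1 + 1 - 2 = i := by omega
        simp only [Nat.add_eq_zero_iff, one_ne_zero, and_false, if_false, Nat.add_eq_right, e1, e2]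
        exact ⟨by simp [b1], fun h => b2 (by omega), fun h => b3 (by omega)⟩
    · intro i i1 i2
      simp only [List.length_cons] at i2
      beta_reduce
      rw [if_neg (by omega)]
      split_ifs with h
      · omega
      · have := f4 (i - 2) (by omega) (by omega)
        omega
    · intro i j i1 j1 i2 j2
      simp only [List.length_cons] at j2
      beta_reduce
      rw [if_neg (by omega), if_neg (c := j = 0) (by omega)]
      split_ifs with h h' h'
      · exact le_rfl
      · have := f4 (j - 2) (by omega) (by omega)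
        omega
      · omega
      · exact f5 _ _ (by omega) (by omega) (by omega) (by omega)
    · intro i j i1 j1 i2 j2
      simp only [List.length_cons] at j2
      by_cases hj : j = 0
      · subst hj
        obtain rfl : i = 0 := by omega
        simp [k5]
      obtain ⟨j, rfl⟩ : ∃ k, j = k + 2 := ⟨j - 2, by omega⟩
      beta_reduce
      rw [if_neg hj, if_neg (c := j + 2 = 1) (by omega), Nat.add_sub_cancel]
      by_cases hi : i = 0
      · rw [if_pos hi]
        have := f6 0 j rfl (by omega) (by omega) (by omega)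
        omega
      · rw [if_neg hi, if_neg (by omega)]
        have := f6 (i - 2) j (by omega) (by omega) (by omega) (by omega)
        omega
    · have hT : ∀ T' : Finset ℤ, T ⊆ T' → a ∈ T' → a + x ∈ T' → a + y ∈ T' →
          (∀ i, i ≤ (x :: y :: l).length →
            (if i = 0 then a else if i = 1 then a + u else f (i - 2)) ∈ T') ∧
          ∀ p ∈ x :: y :: l, (∀ q ∈ x :: y :: l, p ≤ q) → a + p ∈ T' := by
        intro T' s1 s2 s3 s4
        refine ⟨fun i hi => ?_, fun p hp hq => ?_⟩
        · simp only [List.length_cons] at hi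
          split_ifs with c1 c2
          · exact s2
          · rcases h6 with h6 | h6
            · rw [h6.2.2.1]; exact s4
            · rw [h6.2.1]; exact s3
          · exact s1 (t2 _ (by omega))
        · have c1 := hq x (by simp)
          have c2 : x ≤ p := by
            rcases List.mem_cons.1 hp with rfl | hp
            · exact le_rfl
            · exact (List.pairwise_cons.1 hs).1 p hp
          obtain rfl : p = x := by omega
          exact s3
      by_cases hxl : x ∈ l
      · have c0 := hyl x hxl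
        obtain rfl : x = y := by omega
        have c1 : a + u - e = a := by omega
        have c2 : a + x ∈ T := by
          have := t3 x hxl hyl
          rwa [c1] at this
        have c3 : a ∈ T := by
          have := t2 0 (by omega)
          rwa [f1, c1] at this
        exact ⟨T, by omega, hT T subset_rfl c3 c2 c2⟩
      · refine ⟨insert a (insert (a + x) (insert (a + y) T)), ?_, hT _ (fun p hp => by simp [hp])
          (by simp) (by simp) (by simp)⟩
        have c1 := Finset.card_insert_le a (insert (a + x) (insert (a + y) T))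
        have c2 := Finset.card_insert_le (a + x) (insert (a + y) T)
        have c3 := Finset.card_insert_le (a + y) T
        have c4 := k1 hxl
        omega

theorem zigzag {v k L G G' : ℕ} (hG : G + k * L ≤ G') (B : Multiset ℕ) (hk : B.toFinset.card ≤ k)
    (hB : ∀ x ∈ B, G' < x ∧ 2 * x ≤ v) (hg : ∀ x ∈ B, ∀ y ∈ B, y ≤ x + L ∨ x + G' < y) :
    ∃ σ ρ, Zigzag v G B.card B σ ρ ∧
      ∃ T : Finset ℤ, T.card ≤ 3 * k + 3 ∧ ∀ i, i ≤ B.card → σ i ∈ T := by
  by_cases h0 : B = 0
  · subst h0
    exact ⟨fun _ => 0, fun _ => 0, ⟨rfl, by simp, by simp, by simp,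
      fun i _ h1 h2 => by simp at h2; omega, by simp, fun i h1 h2 => by simp at h2; omega,
      by simp⟩, {0}, by simp, by simp⟩
  obtain ⟨μ, hμ, hmax⟩ := Multiset.exists_max_image id h0
  obtain ⟨B1, rfl⟩ := Multiset.exists_cons_of_mem hμ
  have m1 := hB μ hμ
  by_cases h1 : B1 = 0
  · subst h1
    refine ⟨fun i => if i = 0 then 0 else μ, fun _ => μ, ⟨rfl, by simp, ?_, ?_,
      fun i _ h1 h2 => by simp at h2; omega, fun i j _ _ _ _ h2 => by simp at h2; omega, ?_, ?_⟩,
      {0, (μ : ℤ)}, le_trans Finset.card_le_two (by omega), fun i _ => ?_⟩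
    · intro i hi
      obtain rfl : i = 0 := by simpa using hi
      simp [m1.2]
    · intro i j i1 j1 _ _
      rw [if_neg (by omega), if_neg (by omega)]
    · intro i i1 _
      rw [if_neg (by omega)]
      omega
    · intro _
      rw [if_neg (by omega)]
      omega
    · beta_reduce
      split_ifs <;> simp
  obtain ⟨b, hb, hmin⟩ := Multiset.exists_min_image id h1
  obtain ⟨B2, rfl⟩ := Multiset.exists_cons_of_mem hb
  have m2 := hB b (by simp)
  have m3 : b ≤ μ := hmax b (by simp)
  have hl : ∀ x, x ∈ B2.sort (· ≤ ·) → x ∈ μ ::ₘ b ::ₘ B2 := fun x hx => by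
    simp [(Multiset.mem_sort _).1 hx]
  obtain ⟨f, ρ, f1, f2, f3, f4, f5, f6, T, t1, t2, -⟩ := ord_aux (L := L) (G := G') (B2.sort (· ≤ ·))
    (Multiset.pairwise_sort _ _) (fun x hx y hy => hg x (hl x hx) y (hl y hy)) (μ - b) b
    (fun x hx => hmin x (by simp [(Multiset.mem_sort _).1 hx]))
  rw [Multiset.length_sort] at f2 f3 f4 f5 f6 t2
  rw [Multiset.sort_eq] at f2
  rw [Multiset.card_cons, Multiset.card_cons]
  have k0 : (B2.sort (· ≤ ·)).toFinset.card ≤ k := by
    refine le_trans (Finset.card_le_card (fun p hp => ?_)) hk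
    exact Multiset.mem_toFinset.2 (hl p (List.mem_toFinset.1 hp))
  have kl : ((B2.sort (· ≤ ·)).toFinset.card : ℤ) * L + G ≤ G' := by
    have : (B2.sort (· ≤ ·)).toFinset.card * L ≤ k * L := Nat.mul_le_mul_right _ k0
    have h2 : (B2.sort (· ≤ ·)).toFinset.card * L + G ≤ G' := by omega
    exact_mod_cast h2
  have ev : ∀ i, i % 2 = 0 → i ≤ B2.card → 0 ≤ f i ∧ f i + G ≤ μ := by
    intro i i1 i2
    have a1 := f6 0 i rfl i1 (by omega) i2
    refine ⟨?_, by omega⟩
    rcases i with _ | i
    · omega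
    · obtain ⟨b1, _, b3⟩ := f3 i (by omega)
      have b4 := f4 i (by omega) (by omega)
      have b5 : ρ i ≤ μ := hmax _ (hl _ b1)
      have := b3 (by omega)
      omega
  refine ⟨fun i => if i = 0 then 0 else if i = 1 then μ else f (i - 2),
    fun i => if i = 0 then μ else if i = 1 then b else ρ (i - 2),
    ⟨rfl, ?_, ?_, ?_, ?_, ?_, ?_, ?_⟩, insert 0 (insert (μ : ℤ) T), ?_, fun i hi => ?_⟩
  · rw [Finset.sum_range_succ', Finset.sum_range_succ']
    simp only [Nat.add_eq_zero_iff, one_ne_zero, and_false, if_false, zero_add, if_true,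
      Nat.add_eq_right]
    have e1 : ∀ x : ℕ, x + 1 + 1 - 2 = x := fun x => by omega
    simp only [e1]
    rw [f2, add_comm, add_comm _ ({b} : Multiset ℕ)]
    rfl
  · intro i hi
    rcases i with _ | _ | i
    · simp [m1.2]
    · simp [m2.2, f1]
    · obtain ⟨b1, b2, b3⟩ := f3 i (by omega)
      have e1 : i + 1 + 1 + 1 - 2 = i + 1 := by omega
      have e2 : i + 1 + 1 - 2 = i := by omega
      simp only [Nat.add_eq_zero_iff, one_ne_zero, and_false, if_false, Nat.add_eq_right, e1, e2]
      refine ⟨(hB _ (hl _ b1)).2, ?_⟩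
      rcases Nat.mod_two_eq_zero_or_one i with h | h
      · exact Or.inl (b2 h)
      · exact Or.inr (b3 h)
  · intro i j i1 j1 i2 j2
    rw [if_neg (by omega), if_neg (c := j = 0) (by omega)]
    split_ifs with h h' h'
    · exact le_rfl
    · have := f4 (j - 2) (by omega) (by omega)
      omega
    · omega
    · exact f5 _ _ (by omega) (by omega) (by omega) (by omega)
  · intro i i1 i2 i3
    rw [if_neg (by omega), if_neg (by omega), if_neg (by omega), if_pos rfl]
    exact ev (i - 2) (by omega) (by omega)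
  · intro i j i1 j1 i2 i3 j2
    rw [if_neg (by omega), if_neg (by omega), if_neg (by omega), if_neg (by omega)]
    have a1 := f6 (i - 2) (j - 2) (by omega) (by omega) (by omega) (by omega)
    omega
  · intro i i1 i2
    rw [if_neg (by omega)]
    split_ifs with h
    · omega
    · obtain ⟨i, rfl⟩ : ∃ j, i = j + 3 := ⟨i - 3, by omega⟩
      obtain ⟨b1, b2, _⟩ := f3 i (by omega)
      have b3 := b2 (by omega)
      have b4 := ev i (by omega) (by omega)
      have b5 : ρ i ≤ μ := hmax _ (hl _ b1)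
      have e1 : i + 3 - 2 = i + 1 := by omega
      rw [e1]
      omega
  · intro _
    rw [if_neg (by omega), if_pos rfl]
    omega
  · have c1 := Finset.card_insert_le 0 (insert (μ : ℤ) T)
    have c2 := Finset.card_insert_le (μ : ℤ) T
    omega
  · beta_reduce
    split_ifs with c1 c2
    · simp
    · simp
    · simp [t2 (i - 2) (by omega)]

theorem base_thick {A : Finset ℕ} {v w M nI k : ℕ} (hk : A.card ≤ k) (hG : Gen A)
    (hA : ∀ x ∈ A, 1 ≤ x ∧ x ≤ w)
    (hw : w ∈ A) (hw2 : 2 ≤ w) (hM : w ≤ M) (hv : 2 * w ≤ v) {Dl S Err : ℤ} (hD : 5 * w ≤ Dl)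
    (hS1 : nI * (Dl + (5 * w + M)) + (5 * w + M) ≤ S) (hS2 : M + 4 * w + Dl ≤ S)
    (hE : k * (S + 12 * w + M) + (S + 12 * w + M) ≤ Err) {n : ℕ → ℤ}
    (hn : ∀ y ∈ A, S + w ≤ n y) (hsum : ∑ y ∈ A, n y = v) :
    ∃ e0 : ℤ, 0 ≤ e0 ∧ e0 ≤ M + 4 * w ∧ ∀ I : Finset ℤ, I.card ≤ nI →
      (∀ lo ∈ I, e0 ≤ lo ∧ lo + Dl + w ≤ v) →
      ∃ E0 s Zs, Base v w M A n I Dl (S + w) Err e0 E0 s Zs ∧ Zs.card ≤ k := by
  classical
  set l1 := (A.filter (fun y => y ≠ w ∧ y % 2 = w % 2)).toList with hl1
  set l2 := (A.filter (fun y => y % 2 ≠ w % 2)).toList with hl2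
  have m1 : ∀ y, y ∈ l1 ↔ y ∈ A ∧ y ≠ w ∧ y % 2 = w % 2 := by
    intro y; simp only [hl1, Finset.mem_toList, Finset.mem_filter]
  have m2 : ∀ y, y ∈ l2 ↔ y ∈ A ∧ y % 2 ≠ w % 2 := by
    intro y; simp only [hl2, Finset.mem_toList, Finset.mem_filter]
  have m3 : ∀ y, y ∈ l1 ++ l2 ↔ y ∈ A ∧ y ≠ w := by
    intro y
    rw [List.mem_append, m1, m2]
    constructor
    · rintro (h | h)
      · exact ⟨h.1, h.2.1⟩
      · exact ⟨h.1, fun h2 => h.2 (by rw [h2])⟩
    · intro h
      by_cases h2 : y % 2 = w % 2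
      · exact Or.inl ⟨h.1, h.2, h2⟩
      · exact Or.inr ⟨h.1, h2⟩
  have m4 : ∀ y, y ∈ w :: (l1 ++ l2) ↔ y ∈ A := by
    intro y
    rw [List.mem_cons, m3]
    constructor
    · rintro (h | h)
      · exact h ▸ hw
      · exact h.1
    · intro h
      by_cases h2 : y = w
      · exact Or.inl h2
      · exact Or.inr ⟨h, h2⟩
  have nd : (w :: (l1 ++ l2)).Nodup := by
    rw [List.nodup_cons, List.nodup_append]
    refine ⟨fun h => ((m3 w).1 h).2 rfl, Finset.nodup_toList _, Finset.nodup_toList _, ?_⟩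
    rintro a ha b hb rfl
    exact ((m2 a).1 hb).2 ((m1 a).1 ha).2.2
  have hp1 := pc_le w l1 l2 (fun y hy => ((m1 y).1 hy).2.2) (fun y hy => ((m2 y).1 hy).2)
  have hp2 := pc_mod w (l1 ++ l2)
  generalize l1 ++ l2 = ys at m3 m4 nd hp1 hp2
  have hfin : (w :: ys).toFinset = A := by
    ext y; rw [List.mem_toFinset, m4]
  have hsum2 : ((w :: ys).map n).sum = v := by
    rw [← List.sum_toFinset n nd, hfin, hsum]
  have hlen : ys.length + 1 ≤ w ∧ ys.length + 1 ≤ k := by
    have h1 := List.toFinset_card_of_nodup nd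
    rw [hfin, List.length_cons] at h1
    have := card_le_of_bounds hA
    omega
  have hne : ys ≠ [] := by
    rintro rfl
    have := hG (AddSubgroup.zmultiples (w : ℤ)) (fun x hx => by
      have : x = w := by simpa using (m4 x).2 hx
      rw [this]; exact AddSubgroup.mem_zmultiples _)
    rw [Int.mem_zmultiples_iff] at this
    have h2 : w ∣ 1 := by exact_mod_cast this
    have := Nat.dvd_one.1 h2
    omega
  obtain ⟨x, hx⟩ : ∃ x, x = ys.getLastD w := ⟨_, rfl⟩
  have hx1 : x ∈ ys := by
    rw [hx, List.getLastD_eq_getLast?, List.getLast?_eq_some_getLast hne]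
    exact List.getLast_mem hne
  rw [← hx] at hp2
  obtain ⟨hxA, hxw⟩ := (m3 x).1 hx1
  have hx2 := hA x hxA
  have L0 : Line 0 x 0 x 0 := by
    intro t
    simp only [deg_zero, Multiset.count_zero]
    split_ifs <;> omega
  have L1 := L0.ext (h' := M) le_rfl (by omega)
  obtain ⟨F, U, f1, f2, f3, f4, f5, -, f7, f8⟩ := trans_core (j := 2 - pc w ys) hG hA L1
    (by omega) hxA hw hxw (by omega)
  obtain ⟨e0, u1, u2, u3, u4, u5⟩ := f8 (by omega) (by omega)
  refine ⟨e0, by omega, by omega, fun I hI1 hI2 => ?_⟩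
  have L2 := f1.ext (h' := e0 + Dl) (by omega) (by omega)
  set E1 := 0 + run (Finset.Ico (0 : ℤ) M) x + F + run (Finset.Ico (M + 5 * w : ℤ) (e0 + Dl)) w
    with hE1
  have q1 : Pure E1 w e0 (e0 + Dl) := by
    intro t t1 t2
    by_cases h : t < M + 5 * w
    · simp [hE1, u4 t t1 h]
    · exact pure_run _ _ _ _ t (by omega) t2
  have q2 : Pure E1 x 0 M := ((pure_run _ _ _ _).add _).add _
  let P0 : (ℤ → ℤ → Prop) → Prop := fun Q => ∃ a, e0 < a ∧ a ≤ e0 + Dl ∧ ZI Q w a ∧
    ∀ c ∈ E1, c.1 < a → Q c.1 c.2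
  have hInv : Inv A w x M I Dl P0 E1 (e0 + Dl) w (0 + U) {(x, 0)} := by
    refine ⟨L2, by omega, (((by simp [Edges] : Edges A 0).add (edges_run hxA _)).add f3).add
      (edges_run hw _), ?_, ?_, by simp, ?_⟩
    · intro lo hlo
      have := hI2 lo hlo
      exact Or.inr (fun t t1 t2 => q1 t (by omega) t2)
    · intro p hp
      obtain rfl : p = (x, 0) := by simpa using hp
      refine ⟨hxA, by simpa using q2, by simp only; omega, fun lo hlo => ?_⟩
      have := hI2 lo hlo
      simp only
      omega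
    · rintro Q hQ - r2 ⟨a, r3, r4, r5, r6⟩ t t1 t2
      by_cases h1 : t < x
      · refine Or.inr ⟨0, le_rfl, t1, fun lo hlo => ?_,
          r2 (x, 0) (by simp) t (by simp only; omega) (by simp only; omega)⟩
        have := hI2 lo hlo
        omega
      by_cases h2 : t < M + x
      · exact Or.inl (((left_run hx2.1 hx2.2 _ (by omega) h2).add _).add _)
      by_cases h3 : t ≤ e0
      · have key : ∀ u : ℤ, M ≤ u → u < a + w → Q u a := by
          refine chain hQ r5 (fun u => (M : ℤ) ≤ u) (fun u v1 v2 => ?_)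
          by_cases h4 : u < M + 5 * w
          · obtain ⟨t2, b1, b2, b3, b4⟩ := f7 (by omega) u v1 h4
            exact ⟨t2, by omega, b1, by omega, r6 (u, t2) (by simp [hE1, b4]) v2⟩
          · exact ⟨u + w, by omega, by omega, by omega,
              r6 (u, u + w) (q1 u (by omega) (by omega)) v2⟩
        refine Or.inr ⟨M, by omega, by omega, fun lo hlo => ?_,
          hQ.trans (key t (by omega) (by omega)) (hQ.symm (key M le_rfl (by omega)))⟩
        have := hI2 lo hlo
        omega
      by_cases h4 : t < M + 5 * w + w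
      · left
        have := (u5 t (by omega) h4).add (0 + run (Finset.Ico (0 : ℤ) M) x)
        rw [add_comm] at this
        exact this.add _
      · exact Or.inl (left_run (by omega) le_rfl _ (by omega) t2)
  have hS3 : I.card * (Dl + (5 * w + M)) + (5 * w + M) ≤ S := by
    have h1 : (I.card : ℤ) ≤ nI := by exact_mod_cast hI1
    have h2 : (0 : ℤ) ≤ Dl + (5 * w + M) := by omega
    nlinarith
  obtain ⟨F2, U2, Zs, k1, k2, k3, -, k5, k6⟩ := build (v := v) hG hA hM hv (by omega) (c := x)
    (S := S) (Er := S + 12 * w + M) (by omega) hS3 (by omega) n ys w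
    (fun y hy => ⟨(m4 y).1 hy, by have := hn y ((m4 y).1 hy); omega⟩) nd hInv (a := 0)
    (by omega) (by omega)
  rw [hsum2, zero_add, ← hx] at k1
  obtain ⟨U3, rfl⟩ := Multiset.exists_cons_of_mem u1
  obtain ⟨s, hs⟩ : ∃ s, U3 + U2 = {s} := by
    rw [← Multiset.card_eq_one, Multiset.card_add, k2]
    rw [Multiset.card_cons] at f2
    clear * - f2 hp1
    omega
  have hU : 0 + e0 ::ₘ U3 + U2 = s ::ₘ e0 ::ₘ 0 := by
    rw [zero_add, Multiset.cons_add, hs, Multiset.cons_swap]
    rfl
  rw [hU] at k1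
  simp only [Finset.card_singleton] at k3
  refine ⟨E1 + F2 + run (Finset.Ico 0 x) (v - x), s, Zs, ⟨k1.line.close (by omega),
    (q1.add _).add _, ?_, ?_, k1.disj, by omega, ?_, ?_, ?_, ?_⟩, by omega⟩
  · intro lo hlo
    have := hI2 lo hlo
    rcases k1.ivl lo hlo with ⟨_, z', b2, b3⟩ | b2
    · exact ⟨z', b2, b3.add _⟩
    · exact ⟨x, hxA, fun t t1 t2 => b2.add _ t t1 (by omega)⟩
  · intro p hp
    obtain ⟨b1, b2, _, b4⟩ := k1.zone p hp
    exact ⟨b1, b2.add _, b4⟩
  · intro Q hQ a r1 r2 r3 r4 r5 t t1 t2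
    refine (k1.lc Q hQ (fun c hc h => r4 c (Multiset.mem_add.2 (Or.inl hc)) (Or.inr h)) r5
      ⟨a, r1, r2, r3, fun c hc h => r4 c (by simp [hc]) (Or.inl h)⟩ t t1 (by omega)).imp
      (fun h => h.add _) id
  · intro l hl
    rw [lens_add, Multiset.count_add, count_edges hA hv k1.edges hl, lens_close (by omega),
      Multiset.count_replicate, if_neg]
    rintro rfl
    exact hl hxA
  · intro l hl
    have c1 := k5 l
    rw [if_pos ((m4 l).2 hl)] at c1
    have c2 := count_lens_le v l E1
    have c3 := count_lens_le v l (run (Finset.Ico 0 x) (v - x))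
    have c4 : (E1.card : ℤ) ≤ M + 11 * w + Dl := by
      simp only [hE1, Multiset.card_add, card_run, Int.card_Ico, Multiset.card_zero]
      omega
    rw [card_run, Int.card_Ico] at c3
    have c5 : ((ys.length : ℤ) + 1) * (S + 12 * w + M) ≤ k * (S + 12 * w + M) := by
      have h1 : (ys.length : ℤ) + 1 ≤ k := by exact_mod_cast hlen.2
      have h2 : (0 : ℤ) ≤ S + 12 * w + M := by omega
      nlinarith
    rw [lens_add, lens_add, Multiset.count_add, Multiset.count_add]
    omega
  · intro y hy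
    obtain ⟨b, _, c2, c3⟩ := k6 y ((m4 y).2 hy)
    refine ⟨b, fun t t1 t2 => c2.add _ t t1 (by omega), fun p hp => ?_⟩
    have := c3 p hp
    omega

end Pool.Agent.BHR.Few
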