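import Pool.Agent.Lib.MP_7ae50b_co.FewOrder

set_option autoImplicit false

namespace Pool.Agent.BHR.Few

theorem rep_sum (g r : ℕ → ℕ) (R n l : ℕ) :
    ((∀ i, r i % 2 = 0) →
      (∑ i ∈ Finset.range n, Multiset.replicate (r i) (g i)).count l % 2 = 0) ∧
    ((∀ i, r i ≤ R) → (∑ i ∈ Finset.range n, Multiset.replicate (r i) (g i)).count l ≤ n * R) ∧
    ((∀ i, i < n → 0 < r i → g i ≠ l) →
      (∑ i ∈ Finset.range n, Multiset.replicate (r i) (g i)).count l = 0) := by
  induction n with
  | zero => simp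
  | succ n ih =>
    obtain ⟨a1, a2, a3⟩ := ih
    rw [Finset.sum_range_succ, Multiset.count_add, Multiset.count_replicate, add_mul, one_mul]
    refine ⟨fun h => ?_, fun h => ?_, fun h => ?_⟩
    · have := a1 h
      have := h n
      split_ifs <;> omega
    · have := a2 h
      have := h n
      split_ifs <;> omega
    · rw [a3 (fun i hi => h i (by omega))]
      split_ifs with h1
      · by_contra h2
        exact h n (by omega) (by omega) h1
      · rfl

theorem cost_rep (z r y : ℕ) : cost z (Multiset.replicate r y) = r * (y + z) := by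
  simp [cost]

theorem even_mult (X : ℕ) {d : ℕ} (hd : 1 ≤ d) :
    ∃ r, r % 2 = 0 ∧ X ≤ r * d ∧ r * d ≤ X + 2 * d := by
  have h1 := Nat.div_add_mod X (2 * d)
  have h2 := Nat.mod_lt X (show 2 * d > 0 by omega)
  have h3 : 2 * (X / (2 * d) + 1) * d = 2 * d * (X / (2 * d)) + 2 * d := by ring
  exact ⟨2 * (X / (2 * d) + 1), by omega, by omega, by omega⟩

theorem rot_stage {v w M k nB L Cd Dr G Kt : ℕ} {A : Finset ℕ} {n : ℕ → ℤ} {I I0 : Finset ℤ}
    {Dl S Err e0 s : ℤ} {E0 : Multiset (ℤ × ℤ)} {Zs : Finset (ℕ × ℤ)}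
    (hG : Gen A) (hA : ∀ x ∈ A, 1 ≤ x ∧ x ≤ w) (hw : w ∈ A) (hv : 2 * w ≤ v)
    (hAk : A.card ≤ k) (hM : 5 * w * (A.card - 1) ≤ M)
    (hn3 : (w = 1 ∧ Cd = 0 ∧ M = 0) ∨ (2 ≤ w ∧ 3 * (M + w) + 4 * w ≤ Cd))
    (hDr : (nB + 1) * (w + Cd) + k * (L + w) + k * (2 * w) ≤ Dr)
    (hDl : Dr + M + 2 * w + 1 ≤ Dl) (hGG : Dr + M + w + 1 ≤ G)
    (hKt : (nB + 1) * Cd + nB + 2 * k + M * (k + (nB + 1)) ≤ Kt)
    {B Sm : Multiset ℕ} {σ : ℕ → ℤ} {ρ : ℕ → ℕ} {N' : ℕ} (hk : N' ≤ nB)
    (hZ : Zigzag v G N' B σ ρ) (hBA : ∀ x ∈ B, x ∉ A)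
    (hSm : ∀ y ∈ Sm, 1 ≤ y ∧ y ≤ L ∧ y ∉ A ∧ 2 * y ≤ v) (hSk : Sm.card ≤ k)
    (hB : Base v w M A n I Dl S Err e0 E0 s Zs) (hZs : Zs.card ≤ k) (hsub : I0 ⊆ I)
    (hI0 : ∀ i, i ≤ N' → e0 + σ i - (if i % 2 = 1 then w else 0 : ℕ) ∈ I0) (a : ℕ → ℕ) :
    ∃ F e zN, Good v F s e ∧ AllConn v F ∧
      (∀ l, l ∉ A → (lens v F).count l = (Sm + B).count l) ∧
      (∀ l ∈ A, l ≠ zN → (lens v F).count l % 2 = a l % 2) ∧
      (∀ l ∈ A, (lens v F).count l ≤ (lens v E0).count l + Kt ∧
        (lens v E0).count l ≤ (lens v F).count l + Kt) ∧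
      ∀ c ∈ E0, Av I0 Dl c.1 → (∀ q ∈ Zs, c.1 < q.2 ∨ q.2 + M ≤ c.1) → c ∈ F := by
  classical
  obtain ⟨lo, hlo⟩ : ∃ lo : ℕ → ℤ, ∀ i, lo i = e0 + σ i - (if i % 2 = 1 then w else 0 : ℕ) :=
    ⟨_, fun _ => rfl⟩
  simp only [← hlo] at hI0
  have hI : ∀ i, i ≤ N' → lo i ∈ I := fun i hi => hsub (hI0 i hi)
  have lo1 : ∀ i, lo i ≤ e0 + σ i ∧ e0 + σ i ≤ lo i + w ∧ (i % 2 = 1 → lo i + w = e0 + σ i) := by
    intro i
    rw [hlo]
    split_ifs <;> omega
  have s0 := hZ.s0
  obtain ⟨z, hz0, hz⟩ : ∃ z : ℕ → ℕ, z 0 = w ∧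
      ∀ i, i ≤ N' → z i ∈ A ∧ Pure E0 (z i) (lo i) (lo i + Dl) := by
    have : ∀ i, ∃ z, (i = 0 → z = w) ∧ (i ≤ N' → z ∈ A ∧ Pure E0 z (lo i) (lo i + Dl)) := by
      intro i
      by_cases h0 : i = 0
      · refine ⟨w, fun _ => rfl, fun _ => ⟨hw, ?_⟩⟩
        have : lo i = e0 := by rw [hlo, h0, s0]; simp
        rw [this]
        exact hB.p0
      · by_cases h1 : i ≤ N'
        · obtain ⟨z, z1, z2⟩ := hB.ivl _ (hI i h1)
          exact ⟨z, fun h => absurd h h0, fun _ => ⟨z1, z2⟩⟩
        · exact ⟨0, fun h => absurd h h0, fun h => absurd h h1⟩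
    choose z z1 z2 using this
    exact ⟨z, z1 0 rfl, z2⟩
  obtain ⟨oth, ntr, hoth⟩ : ∃ oth ntr : ℕ → ℕ, ∀ i, (0 < ntr i → oth i ∈ A ∧ oth i ≠ z i) ∧
      ntr i % 2 = 0 ∧ ntr i ≤ Cd ∧ cost (z i) (Multiset.replicate (ntr i) (oth i)) ≤ Cd ∧
      (i ≤ N' → 2 ≤ w → 3 * (M + w) ≤ cost (z i) (Multiset.replicate (ntr i) (oth i))) := by
    have : ∀ i, ∃ y r, (0 < r → y ∈ A ∧ y ≠ z i) ∧ r % 2 = 0 ∧ r ≤ Cd ∧
        cost (z i) (Multiset.replicate r y) ≤ Cd ∧
        (i ≤ N' → 2 ≤ w → 3 * (M + w) ≤ cost (z i) (Multiset.replicate r y)) := by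
      intro i
      by_cases hi : i ≤ N' ∧ 2 ≤ w
      · obtain ⟨y, hy⟩ := exists_other (z := z i) hG hw hi.2
        have b1 := hA y hy.1
        have b2 := hA _ (hz i hi.1).1
        obtain ⟨r, r1, r2, r3⟩ := even_mult (3 * (M + w)) (d := y + z i) (by omega)
        have b3 : r * 1 ≤ r * (y + z i) := Nat.mul_le_mul_left _ (by omega)
        rw [← cost_rep (z i) r y] at r2 r3 b3
        exact ⟨y, r, fun _ => hy, r1, by omega, by omega, fun _ _ => r2⟩
      · exact ⟨0, 0, fun h => by omega, rfl, by omega, by simp [cost],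
          fun h1 h2 => absurd ⟨h1, h2⟩ hi⟩
    choose f g hfg using this
    exact ⟨f, g, hfg⟩
  obtain ⟨N, hN1, hN2⟩ : ∃ N, N % 2 = 0 ∧ (N' = N ∨ N' = N + 1) :=
    ⟨N' - N' % 2, by omega, by omega⟩
  set D : Multiset ℕ := ∑ i ∈ Finset.range N', {z (i + 1)} with hD
  set Fx := (A.filter (fun y => y ≠ z N ∧
    ((lens v E0).count y + D.count y + a y) % 2 = 1)).val with hFx
  have fx1 : ∀ y ∈ Fx, y ∈ A ∧ y ≠ z N := fun y hy => by
    have := Finset.mem_filter.1 hy
    exact ⟨this.1, this.2.1⟩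
  have fx2 : Fx.card ≤ k := le_trans (Finset.card_filter_le _ _) hAk
  obtain ⟨Y, y1, y2⟩ : ∃ Y : ℕ → Multiset ℕ, (∀ i, i < N → Y i = Multiset.replicate (ntr i) (oth i)) ∧
      Y N = Multiset.replicate (ntr N) (oth N) + (Sm + Fx) :=
    ⟨fun i => if i = N then Multiset.replicate (ntr N) (oth N) + (Sm + Fx) else
      Multiset.replicate (ntr i) (oth i), fun i hi => if_neg (by omega), if_pos rfl⟩
  have zb : ∀ i, i ≤ N → 1 ≤ z i ∧ z i ≤ w := fun i hi => hA _ (hz i (by omega)).1
  have rp : ∀ i, ∀ y ∈ Multiset.replicate (ntr i) (oth i), y ∈ A ∧ y ≠ z i := by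
    intro i y hy
    obtain ⟨h1, rfl⟩ := Multiset.mem_replicate.1 hy
    exact (hoth i).1 (by omega)
  have yc : ∀ i, i ≤ N → 2 ≤ w → 3 * (M + w) ≤ cost (z i) (Y i) := by
    intro i hi h2
    have := (hoth i).2.2.2.2 (by omega) h2
    rcases Nat.lt_or_eq_of_le hi with h | rfl
    · rw [y1 i h]; exact this
    · rw [y2, cost_add]; omega
  have c1 : ∀ i, i ≤ N → cost (z i) (Multiset.replicate (ntr i) (oth i)) ≤ Cd :=
    fun i _ => (hoth i).2.2.2.1
  have hZI : ZigIn v M Dr N E0 s (fun i => e0 + σ i) z Y ρ := by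
    refine ⟨by simpa [s0] using hB.good, fun i hi => by have := zb i hi; omega, ?_,
      fun i hi => by have := yc i hi; omega, ?_, ?_, ?_, ?_⟩
    · intro i hi y hy
      have h1 : y ∈ A ∧ y ≠ z i → 1 ≤ y ∧ y ≠ z i ∧ 2 * y ≤ v := fun h => by
        have := hA y h.1
        exact ⟨this.1, h.2, by omega⟩
      rcases Nat.lt_or_eq_of_le hi with h | rfl
      · rw [y1 i h] at hy
        exact h1 (rp i y hy)
      · rw [y2, Multiset.mem_add, Multiset.mem_add] at hy
        rcases hy with hy | hy | hy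
        · exact h1 (rp i y hy)
        · obtain ⟨b1, _, b3, b4⟩ := hSm y hy
          exact ⟨b1, fun hh => b3 (hh ▸ (hz i (by omega)).1), b4⟩
        · exact h1 (fx1 y hy)
    · intro i hi t t1 t2
      have := lo1 i
      exact (hz i (by omega)).2 t (by omega) (by omega)
    · have b1 : ∑ i ∈ Finset.range N, (z i + cost (z i) (Y i)) ≤ N * (w + Cd) := by
        have := Finset.sum_le_card_nsmul (Finset.range N) (fun i => z i + cost (z i) (Y i))
          (w + Cd) (fun i hi => by
            have h1 := Finset.mem_range.1 hi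
            have h2 := c1 i (by omega)
            have h3 := zb i (by omega)
            rw [y1 i h1]
            omega)
        simpa using this
      have b2 := c1 N le_rfl
      have b3 := zb N le_rfl
      have b4 := cost_le (z := z N) (b := L + w) (Y := Sm) (fun y hy => by
        have := hSm y hy
        omega)
      have b5 := cost_le (z := z N) (b := 2 * w) (Y := Fx) (fun y hy => by
        have := hA y (fx1 y hy).1
        omega)
      have b6 : N * (w + Cd) ≤ nB * (w + Cd) :=
        Nat.mul_le_mul_right _ (by omega)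
      have b7 : Sm.card * (L + w) ≤ k * (L + w) := Nat.mul_le_mul_right _ hSk
      have b8 : Fx.card * (2 * w) ≤ k * (2 * w) := Nat.mul_le_mul_right _ fx2
      rw [Finset.sum_range_succ, y2, cost_add, cost_add]
      rw [add_mul, one_mul] at hDr
      omega
    · intro i j hij hj
      have b0 := hZ.s5 (by omega)
      rcases Nat.mod_two_eq_zero_or_one i with i1 | i1 <;>
        rcases Nat.mod_two_eq_zero_or_one j with j1 | j1
      · have b1 := hZ.s2 j j1 (by omega) (by omega)
        by_cases h0 : i = 0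
        · subst h0
          omega
        · have b2 := hZ.s3 i j i1 j1 (by omega) (by omega) (by omega)
          omega
      · have b1 := hZ.s1 1 j rfl j1 (by omega) (by omega)
        by_cases h0 : i = 0
        · subst h0
          omega
        · have b2 := hZ.s2 i i1 (by omega) (by omega)
          omega
      · have b1 := hZ.s1 1 i rfl i1 (by omega) (by omega)
        have b2 := hZ.s2 j j1 (by omega) (by omega)
        omega
      · have b1 := hZ.s1 i j i1 j1 (by omega) (by omega)
        omega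
    · intro i hi
      have := hZ.jump i (by omega)
      omega
  obtain ⟨p, e, E, F, hO, f1, f2, f3, f4⟩ := conn_stage hG hA hv hM hB hZI hN1 (by simp [s0]) hz0
    (fun i hi => (hz i (by omega)).1) (lo := lo) (by omega) (fun i hi => by
      have := lo1 i
      exact ⟨hI i (by omega), by omega, by omega,
        fun t t1 t2 => (hz i (by omega)).2 t (by omega) (by omega)⟩)
    (fun i j i1 j1 hij hj => by
      have := hZ.s1 i j i1 j1 hij (by omega)
      omega)
    (fun i i1 i2 hi => by
      have := hZ.s2 i i1 i2 (by omega)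
      omega)
  have hP := hO.pos
  have b1 : ∀ i, i ≤ N → p i < e i ∧ e0 + σ i ≤ e i ∧ e i ≤ e0 + σ i + Dr ∧
      e0 + σ i ≤ p i + z i ∧ (1 ≤ i → e0 + σ i ≤ p i) := by
    intro i hi
    have a1 := hP.p1 i hi
    have a2 := zb i hi
    have a3 := hP.nonneg hZI le_rfl hi
    have a4 := hP.le_Dr hZI le_rfl hi
    by_cases h : i = 0
    · subst h
      have := hP.p0
      omega
    · have := hP.le_p hZI le_rfl (i := i) (by omega) hi
      omega
  have pers : ∀ c ∈ E0, Av I0 Dl c.1 → (∀ q ∈ Zs, c.1 < q.2 ∨ q.2 + M ≤ c.1) → c ∈ F := by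
    intro c hc h1 h2
    refine f4 c hc (fun i hi => ?_) (fun i i1 hi => ?_) h2
    · have d1 := h1 _ (hI0 i (by omega))
      have d2 := b1 i hi
      have d3 := lo1 i
      omega
    · have d1 := h1 _ (hI0 i (by omega))
      have d2 := b1 i hi
      have d3 := lo1 i
      omega
  obtain ⟨F', e', g1, g2, g3, g4⟩ : ∃ F' e', Good v F' s e' ∧ AllConn v F' ∧
      lens v F' + D + ∑ i ∈ Finset.range N, {ρ i} =
        lens v F + ∑ i ∈ Finset.range N, {z (i + 1)} + B ∧
      ∀ c ∈ F, Av I0 Dl c.1 → c ∈ F' := by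
    rcases hN2 with rfl | rfl
    · exact ⟨F, _, f1, f2, by rw [hZ.hB], fun c hc _ => hc⟩
    obtain ⟨z1, z2⟩ := hz (N + 1) le_rfl
    have z3 := hA _ z1
    have d0 := lo1 (N + 1)
    have d1 := b1 N le_rfl
    set q := e N + (σ (N + 1) - σ N) with hq
    have s5 := hZ.s5 (by omega)
    have s1 := hZ.s1 1 (N + 1) rfl (by omega) (by omega) le_rfl
    have fr : ∀ t, q - z (N + 1) ≤ t → t ≤ q → (t, t + z (N + 1)) ∈ F := by
      intro t t1 t2
      have key : ∀ i, i ≤ N → e i + M < t ∨ (M = 0 ∧ e i = t ∧ p i + z i = t) := by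
        intro i hi
        rcases Nat.mod_two_eq_zero_or_one i with i1 | i1
        · left
          have a1 := hP.mono hZI le_rfl hi le_rfl
          by_cases h0 : i = 0
          · subst h0
            omega
          · have := hZ.s2 i i1 (by omega) (by omega)
            omega
        · have a1 := hZ.s1 i (N + 1) i1 (by omega) (by omega) le_rfl
          obtain ⟨N, rfl⟩ : ∃ j, N = j + 1 := ⟨N - 1, by omega⟩
          have a2 := hP.mono hZI le_rfl (i := i) (j := N) (by omega) (by omega)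
          have a3 := hP.p2 N (by omega)
          have a4 := hP.p1 (N + 1) le_rfl
          have a5 := yc (N + 1) le_rfl
          have a6 := zb (N + 1) le_rfl
          rcases hn3 with h | h
          · have a7 := hP.p1 i hi
            have a8 := c1 i hi
            rw [y1 i (by omega)] at a7
            omega
          · omega
      refine f4 _ (z2 t (by omega) (by omega)) (fun i hi => ?_) (fun i _ hi => ?_)
        (fun r hr => ?_)
      · have := key i hi
        simp only
        omega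
      · have := key i hi
        have := b1 i hi
        have := zb i hi
        simp only
        omega
      · have := (hB.zone r hr).2.2 _ (hI (N + 1) le_rfl)
        simp only
        omega
    have e1 := fr (q - z (N + 1)) le_rfl (by omega)
    rw [sub_add_cancel] at e1
    have e2 := fr q (by omega) le_rfl
    obtain ⟨F1, rfl⟩ := Multiset.exists_cons_of_mem e1
    have e3 : (q, q + z (N + 1)) ∈ F1 := by
      rcases Multiset.mem_cons.1 e2 with e2 | e2
      · simp only [Prod.mk.injEq] at e2; omega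
      · exact e2
    obtain ⟨F2, rfl⟩ := Multiset.exists_cons_of_mem e3
    have l1 : len v (e N, q) = ρ N := by
      obtain ⟨j1, j2 | j2⟩ := hZ.jump N (by omega)
      · have : q = e N + ρ N := by omega
        rw [this, len_add _ j1]
      · have : q = e N - ρ N := by omega
        rw [this, len_sub _ j1]
    have l2 : len v (q - z (N + 1), q) = z (N + 1) := by
      have := len_add (v := v) (q - z (N + 1)) (y := z (N + 1)) (by omega)
      rwa [sub_add_cancel] at this
    have l3 : len v (q, q + z (N + 1)) = z (N + 1) := len_add _ (by omega)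
    have av : ∀ c : ℤ × ℤ, Av I0 Dl c.1 → c ≠ (q - z (N + 1), q) ∧ c ≠ (q, q + z (N + 1)) := by
      intro c hc
      have := hc _ (hI0 (N + 1) le_rfl)
      constructor
      · rintro rfl
        simp only at this
        omega
      · rintro rfl
        simp only at this
        omega
    rcases rotate f1 f2 with ⟨r1, r2⟩ | ⟨r1, r2⟩
    · refine ⟨_, _, r1, r2, ?_, fun c hc h1 => ?_⟩
      · rw [← hZ.hB, hD, Finset.sum_range_succ, Finset.sum_range_succ]
        simp only [lens_cons, l1, l2, l3]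
        ext l
        simp only [Multiset.count_add, Multiset.count_cons, Multiset.count_singleton]
        omega
      · have := av c h1
        simp only [Multiset.mem_cons] at hc ⊢
        tauto
    · refine ⟨_, _, r1, r2, ?_, fun c hc h1 => ?_⟩
      · rw [← hZ.hB, hD, Finset.sum_range_succ, Finset.sum_range_succ]
        simp only [lens_cons, l1, l2, l3]
        ext l
        simp only [Multiset.count_add, Multiset.count_cons, Multiset.count_singleton]
        omega
      · have := av c h1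
        simp only [Multiset.mem_cons] at hc ⊢
        tauto
  have q1 : ∑ i ∈ Finset.range (N + 1), Y i =
      ∑ i ∈ Finset.range (N + 1), Multiset.replicate (ntr i) (oth i) + (Sm + Fx) := by
    rw [Finset.sum_range_succ, Finset.sum_range_succ, y2,
      Finset.sum_congr rfl (fun i hi => y1 i (Finset.mem_range.1 hi)), add_assoc]
  have q2 : ∑ i ∈ Finset.range (N + 1), Multiset.replicate (Y i).card (z i) =
      ∑ i ∈ Finset.range (N + 1), Multiset.replicate (ntr i) (z i) +
        Multiset.replicate (Sm.card + Fx.card) (z N) := by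
    rw [Finset.sum_range_succ, Finset.sum_range_succ, y2,
      Finset.sum_congr rfl (g := fun i => Multiset.replicate (ntr i) (z i))
        (fun i hi => by rw [y1 i (Finset.mem_range.1 hi), Multiset.card_replicate]), add_assoc,
      ← Multiset.replicate_add]
    simp
  have q3 := hO.hlens
  rw [q1, q2] at q3
  have q4 : ∀ l, _ := fun l => congrArg (Multiset.count l) q3
  have q5 : ∀ l, _ := fun l => congrArg (Multiset.count l) g3
  simp only [Multiset.count_add, Multiset.count_replicate] at q4 q5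
  have q6 : (N + 1) * Cd ≤ (nB + 1) * Cd := Nat.mul_le_mul_right _ (by omega)
  have q7 : M * (Zs.card + (N + 1)) ≤ M * (k + (nB + 1)) :=
    Nat.mul_le_mul_left _ (by omega)
  refine ⟨F', e', z N, g1, g2, fun l hl => ?_, fun l hl hl2 => ?_, fun l hl => ?_,
    fun c hc h1 h2 => g4 c (pers c hc h1 h2) h1⟩
  · have a1 := q4 l
    have a2 := q5 l
    have a3 := (f3 l).2.2.2 hl
    have a4 := hB.cnt0 l hl
    have a5 := (rep_sum oth ntr Cd (N + 1) l).2.2 (fun i _ h hh => hl (hh ▸ ((hoth i).1 h).1))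
    have a6 := (rep_sum z ntr Cd (N + 1) l).2.2 (fun i hi _ hh => hl (hh ▸ (hz i (by omega)).1))
    have a7 : D.count l = 0 := (sing_sum (fun i => z (i + 1)) N' l).2
      (fun i hi hh => hl (hh ▸ (hz (i + 1) (by omega)).1))
    have a8 : Fx.count l = 0 := Multiset.count_eq_zero.2 (fun hh => hl (fx1 l hh).1)
    rw [if_neg (fun hh : z N = l => hl (hh ▸ (hz N (by omega)).1))] at a1
    rw [Multiset.count_add]
    omega
  · have a1 := q4 l
    have a2 := q5 l
    have a3 := (f3 l).1
    have a5 := (rep_sum oth ntr Cd (N + 1) l).1 (fun i => (hoth i).2.1)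
    have a6 := (rep_sum z ntr Cd (N + 1) l).1 (fun i => (hoth i).2.1)
    have a7 : Sm.count l = 0 := Multiset.count_eq_zero.2 (fun hh => (hSm l hh).2.2.1 hl)
    have a8 : B.count l = 0 := Multiset.count_eq_zero.2 (fun hh => hBA l hh hl)
    have a9 : Fx.count l = if ((lens v E0).count l + D.count l + a l) % 2 = 1 then 1 else 0 := by
      rw [hFx, Multiset.count_eq_of_nodup (Finset.nodup _)]
      simp [hl, hl2]
    rw [if_neg (Ne.symm hl2)] at a1
    split_ifs at a9 <;> omega
  · have a1 := q4 l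
    have a2 := q5 l
    obtain ⟨-, a3, a4, -⟩ := f3 l
    have a5 := (rep_sum oth ntr Cd (N + 1) l).2.1 (fun i => (hoth i).2.2.1)
    have a6 := (rep_sum z ntr Cd (N + 1) l).2.1 (fun i => (hoth i).2.2.1)
    have a7 : Sm.count l = 0 := Multiset.count_eq_zero.2 (fun hh => (hSm l hh).2.2.1 hl)
    have a8 : B.count l = 0 := Multiset.count_eq_zero.2 (fun hh => hBA l hh hl)
    have a9 := Multiset.count_le_card l Fx
    have a10 : D.count l ≤ N' := (sing_sum (fun i => z (i + 1)) N' l).1
    split_ifs at a1 <;> omega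

end Pool.Agent.BHR.Few
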