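import Pool.Agent.Lib.MP_7ae50b_co.FewMain

set_option autoImplicit false

/-! One statement for all scales: few values, the frequent ones short after a unit multiplier. -/

namespace Pool.Agent.BHR.Few

theorem nrm_of_mod {v u y x : ℕ} (hv : 1 ≤ v) (hx : 2 * x ≤ v)
    (h : u * y ≡ x [MOD v] ∨ u * y + x ≡ 0 [MOD v]) : x = nrm v ((u : ℤ) * y) := by
  rcases h with h | h
  · rw [nrm_congr (b := x) (by have := (Nat.modEq_iff_dvd.1 h.symm); exact_mod_cast this),
      nrm_self hv hx]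
  · rw [nrm_congr (b := -x) (by
      have := (Nat.modEq_iff_dvd.1 h.symm)
      push_cast at this
      simpa using this), nrm_neg hv, nrm_self hv hx]

theorem uni (k : ℕ) : ∃ N, ∀ (v m u : ℕ) (L : Multiset ℕ), 2 ≤ v → Nat.Coprime u v →
    L.card = v - 1 → (∀ x ∈ L, 1 ≤ x ∧ x ≤ v / 2) → L.toFinset.card ≤ k →
    (∀ x ∈ L, m < L.count x → ∃ y ≤ m, u * y ≡ x [MOD v] ∨ u * y + x ≡ 0 [MOD v]) →
    (∀ q, q.Prime → q ∣ v → N * (m + 1) ≤ (L.filter (fun x => ¬ q ∣ x)).card) → Real v L := by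
  classical
  obtain ⟨C, hC⟩ := main_set k
  let f : ℕ → ℕ := fun l => (C + 1) * (1 + k * l) + l
  obtain ⟨B, hB⟩ : ∃ B, ∀ j, j ≤ k → k * f^[j] 0 ≤ B :=
    ⟨(Finset.range (k + 1)).sup (fun j => k * f^[j] 0), fun j hj =>
      Finset.le_sup (f := fun j => k * f^[j] 0) (Finset.mem_range.2 (by omega))⟩
  refine ⟨B + 1, ?_⟩
  intro v m u L hv hu h1 h2' h5 h3 h4
  have h2 : ∀ x ∈ L, 1 ≤ x ∧ 2 * x ≤ v := fun x hx => by have := h2' x hx; omega
  let F : ℕ → ℕ := fun t => (C + 1) * (m + k * t + 1) + t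
  obtain ⟨j, hj, hX⟩ := scale F (fun t => Nat.le_add_left _ _)
    (L.toFinset.image (fun x : ℕ => L.count x)) (n := k) (le_trans Finset.card_image_le h5)
  have hθ : k * F^[j] 0 < (B + 1) * (m + 1) := by
    rw [iter_hom (F := F) (f := f) (u := m + 1) (fun l => by simp only [F, f]; ring), ← mul_assoc]
    exact Nat.mul_lt_mul_of_pos_right (Nat.lt_succ_of_le (hB j hj)) (by omega)
  generalize F^[j] 0 = t at hX hθ
  have hF : m < F t ∧ C * (m + k * t + 1) ≤ F t := by
    simp only [F, add_mul (a := C), one_mul]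
    omega
  set A := (Finset.Icc 1 m).filter (fun x : ℕ => F t < L.count (nrm v ((u : ℤ) * x))) with hA
  have a1 : ∀ x ∈ A, (1 ≤ x ∧ x ≤ m) ∧ F t < L.count (nrm v ((u : ℤ) * x)) := fun x hx => by
    simpa only [hA, Finset.mem_filter, Finset.mem_Icc] using hx
  have a2 : (L.filter (fun l => ∀ x ∈ A, l ≠ nrm v ((u : ℤ) * x))).card ≤ k * t := by
    set R := L.filter (fun l => ∀ x ∈ A, l ≠ nrm v ((u : ℤ) * x)) with hR
    rw [← Multiset.toFinset_sum_count_eq R]
    have b1 := Finset.sum_le_card_nsmul R.toFinset (fun l => R.count l) t (fun l hl => by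
      obtain ⟨c1, c2⟩ := Multiset.mem_filter.1 (Multiset.mem_toFinset.1 hl)
      have c3 : R.count l ≤ L.count l := Multiset.count_le_of_le _ (Multiset.filter_le _ _)
      rcases hX _ (Finset.mem_image_of_mem _ (Multiset.mem_toFinset.2 c1)) with h | h
      · omega
      · obtain ⟨y, y1, y2⟩ := h3 l c1 (by omega)
        replace y2 := nrm_of_mod (by omega) (h2 l c1).2 y2
        have c5 : 1 ≤ y := by
          have := h2 l c1
          rcases y with _ | y
          · simp [nrm] at y2; omega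
          · omega
        exact absurd y2 (c2 y (Finset.mem_filter.2 ⟨Finset.mem_Icc.2 ⟨c5, y1⟩, y2 ▸ h⟩)))
    rw [smul_eq_mul] at b1
    refine le_trans b1 (Nat.mul_le_mul_right _ (le_trans (Finset.card_le_card (fun l hl => ?_)) h5))
    exact Multiset.mem_toFinset.2 (Multiset.mem_filter.1 (Multiset.mem_toFinset.1 hl)).1
  have a3 : Nat.Coprime (A.gcd id) v := by
    apply Nat.coprime_of_dvd
    intro p hp p1 p2
    have b1 := h4 p hp p2
    have b2 : L.filter (fun x => ¬ p ∣ x) ≤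
        L.filter (fun l => ∀ x ∈ A, l ≠ nrm v ((u : ℤ) * x)) := by
      apply Multiset.monotone_filter_right
      intro l hl x hx hh
      apply hl
      have c1 : (p : ℤ) ∣ u * x := by
        have : p ∣ x := dvd_trans p1 (Finset.gcd_dvd hx)
        exact Dvd.dvd.mul_left (by exact_mod_cast this) _
      have c2 : (p : ℤ) ∣ v := by exact_mod_cast p2
      have c3 : (p : ℤ) ∣ l := by
        rw [hh]
        rcases nrm_cases (v := v) (by omega) (u * x) with h | h
        · exact (dvd_sub_right c1).1 (dvd_trans c2 h)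
        · exact (dvd_add_right c1).1 (dvd_trans c2 h)
      exact_mod_cast c3
    have b3 := le_trans (Multiset.card_le_card b2) a2
    omega
  have a4 : A.gcd id ≠ 0 := by
    intro h
    rw [h] at a3
    simp at a3
    omega
  obtain ⟨x0, hx0, hx1⟩ : ∃ x ∈ A, x ≠ 0 := by
    by_contra hcon
    push Not at hcon
    exact a4 (Finset.gcd_eq_zero_iff.2 hcon)
  have a5 : ∀ x ∈ A, ((u : ℤ) * (A.gcd id : ℕ)) * ((x / A.gcd id : ℕ) : ℤ) = u * x := by
    intro x hx
    have : A.gcd id * (x / A.gcd id) = x := Nat.mul_div_cancel' (Finset.gcd_dvd hx)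
    rw [mul_assoc]
    congr 1
    exact_mod_cast this
  refine hC v m (k * t) (A.image (fun x => x / A.gcd id)) L (u * (A.gcd id : ℕ)) ?_ ?_ ?_ h1
    h2 ?_ ?_ h5
  · exact (Nat.isCoprime_iff_coprime.2 hu).mul_left (Nat.isCoprime_iff_coprime.2 a3)
  · rw [Finset.gcd_image]
    exact Finset.gcd_div_id_eq_one hx0 hx1
  · intro y hy
    obtain ⟨x, hx, rfl⟩ := Finset.mem_image.1 hy
    have := (a1 x hx).1
    exact ⟨Nat.div_pos (Nat.le_of_dvd this.1 (Finset.gcd_dvd hx)) (Nat.pos_of_ne_zero a4),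
      le_trans (Nat.div_le_self _ _) this.2⟩
  · intro y hy
    obtain ⟨x, hx, rfl⟩ := Finset.mem_image.1 hy
    rw [a5 x hx]
    have := (a1 x hx).2
    omega
  · refine le_trans (Multiset.card_le_card (Multiset.monotone_filter_right L ?_)) a2
    intro l hl x hx hh
    exact hl _ (Finset.mem_image_of_mem _ hx) (by rw [a5 x hx]; exact hh)

end Pool.Agent.BHR.Few
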