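import Pool.Agent.Lib.MP_7ae50b_co.FewZone

set_option autoImplicit false

namespace Pool.Agent.BHR.Few

theorem move {v : ℕ} {E : Multiset (ℤ × ℤ)} {s e : ℤ} (h : Good v E s e) {z y : ℕ}
    (hz : 1 ≤ z) (hy : 1 ≤ y) (hyz : y ≠ z) (hz2 : 2 * z ≤ v) (hy2 : 2 * y ≤ v) {H : ℤ}
    (hp : Pure E z (e + 1) H) (hH : e + y + z < H) :
    ∃ F e', Good v F s e' ∧ 3 * e + y + z ≤ 3 * e' ∧ e' ≤ e + y + z ∧ z ::ₘ lens v F = y ::ₘ lens v E ∧
      (∀ c ∈ E, (c.1 ≤ e ∨ e' < c.1) → c ∈ F) ∧
      (∀ Q : ℤ → ℤ → Prop, Equivalence Q → (∀ c ∈ F, e ≤ c.1 → c.1 ≤ e' → Q c.1 c.2) →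
        Q e (e + z) → Q e' (e' + z)) ∧
      (∀ Q : ℤ → ℤ → Prop, Equivalence Q → ∀ a, e' < a → a ≤ H → ZI Q z a →
        (∀ c ∈ F, e ≤ c.1 → c.1 < a → Q c.1 c.2) → Q e (e + z) →
        ∀ c ∈ E, e ≤ c.1 → c.1 < a → Q c.1 c.2) := by
  by_cases hd : z ∣ y
  · obtain ⟨n, hn⟩ := hd
    have hn2 : 2 ≤ n := by
      rcases n with _ | _ | n
      · omega
      · omega
      · omega
    have hy3 : 2 * z ≤ y := by rw [hn]; nlinarith
    have e1 : (e + y - z, e + y - z + z) ∈ E := hp _ (by omega) (by omega)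
    rw [sub_add_cancel] at e1
    obtain ⟨E1, rfl⟩ := Multiset.exists_cons_of_mem e1
    have pers : ∀ c ∈ (e + y - z, e + y) ::ₘ E1, c.1 ≠ e + y - z → c ∈ (e, e + y) ::ₘ E1 := by
      intro c hc h2
      rcases Multiset.mem_cons.1 hc with rfl | hc
      · exact absurd rfl h2
      · exact Multiset.mem_cons_of_mem hc
    have inv : ∀ Q : ℤ → ℤ → Prop, Equivalence Q →
        (∀ c ∈ (e, e + y) ::ₘ E1, e ≤ c.1 → c.1 ≤ e + y - z → Q c.1 c.2) →
        Q e (e + z) → Q (e + y - z) (e + y - z + z) := by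
      intro Q hQ h1 h2
      have a1 : Q e (e + y) := h1 (e, e + y) (by simp) le_rfl (by simp only; omega)
      have a2 : Q (e + z) (e + z + z * ((n - 2 : ℕ) : ℤ)) := by
        refine pure_rel hQ _ (fun i hi => ?_)
        have b1 : (0 : ℤ) ≤ z * i := by positivity
        have b2 : (z : ℤ) * i + 3 * z ≤ y := by
          have : (i : ℤ) + 3 ≤ n := by omega
          rw [hn]; push_cast; nlinarith
        exact h1 (_, _) (pers _ (hp _ (by omega) (by omega)) (by simp only; omega))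
          (by simp only; omega) (by simp only; omega)
      have a3 : e + z + z * ((n - 2 : ℕ) : ℤ) = e + y - z := by
        rw [hn, Nat.cast_sub hn2]; push_cast; ring
      rw [a3] at a2
      rw [sub_add_cancel]
      exact hQ.trans (hQ.symm a2) (hQ.trans (hQ.symm h2) a1)
    refine ⟨(e, e + y) ::ₘ E1, e + y - z, ?_, by omega, by omega, ?_, ?_, inv, ?_⟩
    · intro t
      have := h t
      simp only [deg_cons] at this ⊢
      omega
    · have h5 : len v (e + y - z, e + y) = z := by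
        have := len_add (v := v) (e + y - z) hz2
        rwa [sub_add_cancel] at this
      simp only [lens_cons]
      rw [len_add e hy2, h5, Multiset.cons_swap]
    · intro c hc h2
      exact pers c hc (by omega)
    · intro Q hQ a a1 _ _ h1 h2 c hc c1 c2
      rcases Multiset.mem_cons.1 hc with rfl | hc
      · have := inv Q hQ (fun c hc c1 c2 => h1 c hc c1 (by omega)) h2
        rwa [sub_add_cancel] at this
      · exact h1 c (Multiset.mem_cons_of_mem hc) c1 c2
  · have e1 : (e + y, e + y + z) ∈ E := hp _ (by omega) (by omega)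
    obtain ⟨E1, rfl⟩ := Multiset.exists_cons_of_mem e1
    have pers : ∀ c ∈ (e + y, e + y + z) ::ₘ E1, c.1 ≠ e + y → c ∈ (e, e + y) ::ₘ E1 := by
      intro c hc h2
      rcases Multiset.mem_cons.1 hc with rfl | hc
      · exact absurd rfl h2
      · exact Multiset.mem_cons_of_mem hc
    refine ⟨(e, e + y) ::ₘ E1, e + y + z, ?_, by omega, by omega, ?_, ?_, ?_, ?_⟩
    · intro t
      have := h t
      simp only [deg_cons] at this ⊢
      omega
    · simp only [lens_cons]
      rw [len_add e hy2, len_add (e + y) hz2, Multiset.cons_swap]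
    · intro c hc h2
      exact pers c hc (by omega)
    · intro Q _ h1 _
      exact h1 (_, _) (pers _ (hp _ (by omega) (by omega)) (by simp only; omega))
        (by simp only; omega) (by simp only; omega)
    · intro Q hQ a a1 a2 a3 h1 h2 c hc c1 c2
      rcases Multiset.mem_cons.1 hc with rfl | hc
      · have b1 : Q e (e + y) := h1 (e, e + y) (by simp) le_rfl (by simp only; omega)
        have b2 : Q (e + z) a := by
          refine strand hQ hz a3 (by omega) (fun u u1 u2 u3 => ?_)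
          refine h1 (_, _) (pers _ (hp _ (by omega) (by omega)) ?_) (by simp only; omega) u2
          rintro rfl
          apply hd
          have : (z : ℤ) ∣ y := by
            have h6 : (y : ℤ) = e + y - (e + z) + z := by ring
            rw [h6]
            exact dvd_add u3 dvd_rfl
          exact_mod_cast this
        have b3 : Q (e + y + z) a := by
          refine strand hQ hz a3 (by omega) (fun u u1 u2 _ => ?_)
          exact h1 (_, _) (pers _ (hp _ (by omega) (by omega)) (by simp only; omega))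
            (by simp only; omega) u2
        exact hQ.trans (hQ.symm b1) (hQ.trans h2 (hQ.trans b2 (hQ.symm b3)))
      · exact h1 c (Multiset.mem_cons_of_mem hc) c1 c2

theorem visit {v z : ℕ} (hz : 1 ≤ z) (hz2 : 2 * z ≤ v) (Y : Multiset ℕ)
    (hY : ∀ y ∈ Y, 1 ≤ y ∧ y ≠ z ∧ 2 * y ≤ v) {E : Multiset (ℤ × ℤ)} {s e : ℤ} (h : Good v E s e)
    {H : ℤ} (hp : Pure E z (e + 1) H) (hH : e + cost z Y < H) :
    ∃ F e', Good v F s e' ∧ 3 * e + cost z Y ≤ 3 * e' ∧ e' ≤ e + cost z Y ∧
      lens v F + Multiset.replicate Y.card z = lens v E + Y ∧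
      (∀ c ∈ E, (c.1 ≤ e ∨ e' < c.1) → c ∈ F) ∧
      (∀ Q : ℤ → ℤ → Prop, Equivalence Q → ZI Q z (e' + 1) →
        (∀ c ∈ F, e ≤ c.1 → c.1 ≤ e' → Q c.1 c.2) → Q e (e + z) →
        ∀ c ∈ E, e ≤ c.1 → c.1 ≤ e' → Q c.1 c.2) := by
  induction Y using Multiset.induction_on generalizing E e with
  | empty =>
    exact ⟨E, e, h, by simp [cost], by simp [cost], by simp, fun c hc _ => hc,
      fun Q _ _ h1 _ => h1⟩
  | cons y Y ih =>
    have hy := hY y (Multiset.mem_cons_self _ _)
    have hc : cost z (y ::ₘ Y) = y + z + cost z Y := by simp [cost]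
    rw [hc] at hH ⊢
    push_cast at hH ⊢
    obtain ⟨F, e1, f1, f2, f3, f4, f5, f6, f7⟩ := move h hz hy.1 hy.2.1 hz2 hy.2.2 hp (by omega)
    obtain ⟨G, e2, g1, g2, g3, g4, g5, g6⟩ := ih (fun y hy => hY y (Multiset.mem_cons_of_mem hy))
      f1 (fun t t1 t2 => f5 _ (hp t (by omega) t2) (Or.inr (by simp only; omega))) (by omega)
    refine ⟨G, e2, g1, by omega, by omega, ?_, ?_, ?_⟩
    · ext l
      have c1 := congrArg (Multiset.count l) f4
      have c2 := congrArg (Multiset.count l) g4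
      simp only [Multiset.count_cons, Multiset.count_add, Multiset.count_replicate,
        Multiset.card_cons] at c1 c2 ⊢
      split_ifs at c1 c2 ⊢ <;> omega
    · intro c hc h2
      exact g5 c (f5 c hc (by omega)) (by omega)
    · intro Q hQ hZ h1 h2 c hc c1 c2
      have a1 : Q e1 (e1 + z) :=
        f6 Q hQ (fun c hc c1 c2 => h1 c (g5 c hc (Or.inl c2)) c1 (by omega)) h2
      have a2 := g6 Q hQ hZ (fun c hc c1 c2 => h1 c hc (by omega) c2) a1
      refine f7 Q hQ (e2 + 1) (by omega) (by omega) hZ (fun c hc c1 c2 => ?_) h2 c hc c1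
        (by omega)
      by_cases b1 : c.1 ≤ e1
      · exact h1 c (g5 c hc (Or.inl b1)) c1 (by omega)
      · exact a2 c hc (by omega) (by omega)

open Finset in
structure ZigIn (v M Dr N : ℕ) (E0 : Multiset (ℤ × ℤ)) (s : ℤ) (Nn : ℕ → ℤ) (z : ℕ → ℕ)
    (Y : ℕ → Multiset ℕ) (ρ : ℕ → ℕ) : Prop where
  good : Good v E0 s (Nn 0)
  hz : ∀ i, i ≤ N → 1 ≤ z i ∧ 2 * z i ≤ v
  hY : ∀ i, i ≤ N → ∀ y ∈ Y i, 1 ≤ y ∧ y ≠ z i ∧ 2 * y ≤ v
  hM : ∀ i, i ≤ N → 3 * M ≤ cost (z i) (Y i)
  pure : ∀ i, i ≤ N → Pure E0 (z i) (Nn i) (Nn i + Dr + M + 1)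
  hcost : ∑ i ∈ range (N + 1), (z i + cost (z i) (Y i)) ≤ Dr
  sep : ∀ i j, i < j → j ≤ N → (Nn i ≤ Nn j ∧ i + 2 ≤ j) ∨ Nn i + M + 1 ≤ Nn j ∨
    (1 ≤ i ∧ Nn j + Dr + M < Nn i)
  jump : ∀ i, i < N → 2 * ρ i ≤ v ∧ (Nn (i + 1) = Nn i + ρ i ∨ Nn (i + 1) = Nn i - ρ i)

structure Pos (t : ℕ) (Nn : ℕ → ℤ) (z : ℕ → ℕ) (Y : ℕ → Multiset ℕ) (p e : ℕ → ℤ) : Prop where
  p0 : p 0 + z 0 = Nn 0
  p1 : ∀ i, i ≤ t → 3 * (p i + z i) + cost (z i) (Y i) ≤ 3 * e i ∧
    e i ≤ p i + z i + cost (z i) (Y i)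
  p2 : ∀ i, i < t → p (i + 1) - Nn (i + 1) = e i - Nn i

open Finset in
structure ZigOut (v : ℕ) (E0 : Multiset (ℤ × ℤ)) (s : ℤ) (Nn : ℕ → ℤ) (z : ℕ → ℕ)
    (Y : ℕ → Multiset ℕ) (ρ : ℕ → ℕ) (t : ℕ) (p e : ℕ → ℤ) (E : Multiset (ℤ × ℤ)) : Prop where
  good : Good v E s (e t)
  hlens : lens v E + ∑ i ∈ range (t + 1), Multiset.replicate (Y i).card (z i) +
    ∑ i ∈ range t, {z (i + 1)} = lens v E0 + ∑ i ∈ range (t + 1), Y i + ∑ i ∈ range t, {ρ i}
  pos : Pos t Nn z Y p e
  pers : ∀ c ∈ E0, (∀ i, i ≤ t → c.1 ≤ p i + z i ∨ e i < c.1) →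
    (∀ i, 1 ≤ i → i ≤ t → c ≠ (p i, p i + z i)) → c ∈ E
  chord : ∀ i, i < t → (e i, p (i + 1)) ∈ E
  heal : ∀ i, i ≤ t → ∀ Q : ℤ → ℤ → Prop, Equivalence Q → ZI Q (z i) (e i + 1) →
    (∀ c ∈ E, p i + z i ≤ c.1 → c.1 ≤ e i → Q c.1 c.2) →
    ∀ c ∈ E0, p i + z i < c.1 → c.1 ≤ e i → Q c.1 c.2

section
variable {v M Dr N : ℕ} {E0 : Multiset (ℤ × ℤ)} {s : ℤ} {Nn : ℕ → ℤ} {z : ℕ → ℕ}
  {Y : ℕ → Multiset ℕ} {ρ : ℕ → ℕ} {t : ℕ} {p e : ℕ → ℤ}

theorem Pos.step (hI : ZigIn v M Dr N E0 s Nn z Y ρ) (ht : t ≤ N) (h : Pos t Nn z Y p e)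
    {i j : ℕ} (hij : i < j) (hj : j ≤ t) : e i - Nn i + M + 1 ≤ e j - Nn j := by
  induction j, hij using Nat.le_induction with
  | base =>
    have a1 := h.p1 (i + 1) hj
    have a2 := h.p2 i (by omega)
    have a3 := hI.hz (i + 1) (by omega)
    have a4 := hI.hM (i + 1) (by omega)
    simp only [Nat.succ_eq_add_one]
    omega
  | succ j hj2 ih =>
    have a0 := ih (by omega)
    have a1 := h.p1 (j + 1) hj
    have a2 := h.p2 j (by omega)
    omega

theorem Pos.mono (hI : ZigIn v M Dr N E0 s Nn z Y ρ) (ht : t ≤ N) (h : Pos t Nn z Y p e)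
    {i j : ℕ} (hij : i ≤ j) (hj : j ≤ t) : e i - Nn i ≤ e j - Nn j := by
  rcases Nat.eq_or_lt_of_le hij with rfl | hij
  · exact le_rfl
  · have := h.step hI ht hij hj
    omega

theorem Pos.nonneg (hI : ZigIn v M Dr N E0 s Nn z Y ρ) (ht : t ≤ N) (h : Pos t Nn z Y p e)
    {i : ℕ} (hi : i ≤ t) : 0 ≤ e i - Nn i := by
  have a1 := h.mono hI ht (Nat.zero_le i) hi
  have a2 := h.p0
  have a3 := h.p1 0 (by omega)
  omega

theorem Pos.upper (h : Pos t Nn z Y p e) {i : ℕ} (hi : i ≤ t) :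
    e i - Nn i ≤ (∑ j ∈ Finset.range (i + 1), (z j + cost (z j) (Y j)) : ℕ) := by
  induction i with
  | zero =>
    have a2 := h.p0
    have a3 := h.p1 0 (by omega)
    simp only [zero_add, Finset.range_one, Finset.sum_singleton]
    omega
  | succ i ih =>
    have a0 := ih (by omega)
    have a1 := h.p1 (i + 1) hi
    have a2 := h.p2 i (by omega)
    rw [Finset.sum_range_succ]
    omega

theorem ZigIn.sum_le (hI : ZigIn v M Dr N E0 s Nn z Y ρ) {i : ℕ} (hi : i ≤ N) :
    ∑ j ∈ Finset.range (i + 1), (z j + cost (z j) (Y j)) ≤ Dr :=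
  le_trans (Finset.sum_le_sum_of_subset (Finset.range_subset_range.2 (by omega))) hI.hcost

theorem Pos.le_Dr (hI : ZigIn v M Dr N E0 s Nn z Y ρ) (ht : t ≤ N) (h : Pos t Nn z Y p e)
    {i : ℕ} (hi : i ≤ t) : e i - Nn i ≤ Dr := by
  have a1 := h.upper hi
  have a2 := hI.sum_le (i := i) (by omega)
  omega

theorem Pos.le_p (hI : ZigIn v M Dr N E0 s Nn z Y ρ) (ht : t ≤ N) (h : Pos t Nn z Y p e)
    {i : ℕ} (h1 : 1 ≤ i) (hi : i ≤ t) : Nn i ≤ p i := by
  obtain ⟨i, rfl⟩ : ∃ j, i = j + 1 := ⟨i - 1, by omega⟩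
  have a1 := h.p2 i (by omega)
  have a2 := h.nonneg hI ht (i := i) (by omega)
  omega

theorem Pos.lt_of (hI : ZigIn v M Dr N E0 s Nn z Y ρ) (ht : t ≤ N) (h : Pos t Nn z Y p e)
    {i j : ℕ} (hij : i ≤ j) (hj : j ≤ t) {q : ℤ}
    (h1 : (Nn i ≤ q ∧ i < j) ∨ Nn i + M + 1 ≤ q) : e i + M < q + (e j - Nn j) := by
  rcases h1 with ⟨h1, h2⟩ | h1
  · have := h.step hI ht h2 hj
    omega
  · have := h.mono hI ht hij hj
    omega

theorem zig (hI : ZigIn v M Dr N E0 s Nn z Y ρ) (t : ℕ) (ht : t ≤ N) :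
    ∃ p e E, ZigOut v E0 s Nn z Y ρ t p e E := by
  induction t with
  | zero =>
    have a0 := hI.hz 0 ht
    have a1 := hI.sum_le ht
    simp only [zero_add, Finset.range_one, Finset.sum_singleton] at a1
    obtain ⟨F, e', f1, f2, f3, f4, f5, f6⟩ := visit a0.1 a0.2 (Y 0) (hI.hY 0 ht) hI.good
      (H := Nn 0 + Dr + M + 1) (fun u u1 u2 => hI.pure 0 ht u (by omega) u2) (by omega)
    refine ⟨fun _ => Nn 0 - z 0, fun _ => e', F, f1, by simpa using f4,
      ⟨by simp, ?_, fun i hi => by omega⟩, ?_, fun i hi => by omega, ?_⟩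
    · intro i hi
      obtain rfl : i = 0 := by omega
      omega
    · intro c hc h1 _
      have := h1 0 le_rfl
      exact f5 c hc (by omega)
    · intro i hi Q hQ hZ h1 c hc c1 c2
      obtain rfl : i = 0 := by omega
      refine f6 Q hQ hZ (fun c hc c1 c2 => h1 c hc (by omega) c2) ?_ c hc (by omega) c2
      exact h1 (_, _) (f5 _ (hI.pure 0 ht _ le_rfl (by omega)) (Or.inl le_rfl))
        (by simp only; omega) (by simp only; omega)
  | succ t ih =>
    obtain ⟨p, e, E, hO⟩ := ih (by omega)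
    have hP := hO.pos
    have ht' : t ≤ N := by omega
    have a0 := hI.hz (t + 1) ht
    have a1 := hI.sum_le ht
    rw [Finset.sum_range_succ] at a1
    have a2 := hP.upper (i := t) le_rfl
    have a3 := hP.nonneg hI ht' (i := t) le_rfl
    set q := Nn (t + 1) + (e t - Nn t) with hq
    have sp : ∀ i, i ≤ t → e i + M < q ∨ Nn (t + 1) + Dr + M < p i := by
      intro i hi
      rcases hI.sep i (t + 1) (by omega) ht with h1 | h1 | h1
      · exact Or.inl (hP.lt_of hI ht' hi le_rfl (Or.inl ⟨h1.1, by omega⟩))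
      · exact Or.inl (hP.lt_of hI ht' hi le_rfl (Or.inr h1))
      · have := hP.le_p hI ht' h1.1 hi
        exact Or.inr (by omega)
    have fresh : ∀ c ∈ E0, q ≤ c.1 → c.1 ≤ Nn (t + 1) + Dr + M → c ∈ E := by
      intro c hc c1 c2
      refine hO.pers c hc (fun i hi => ?_) (fun i _ hi hh => ?_)
      · have := sp i hi
        omega
      · have b1 := sp i hi
        have b2 := hP.p1 i hi
        have b3 := hI.hz i (by omega)
        have b4 : c.1 = p i := by rw [hh]
        omega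
    have e1 : (q, q + z (t + 1)) ∈ E :=
      fresh _ (hI.pure (t + 1) ht q (by omega) (by omega)) le_rfl (by simp only; omega)
    obtain ⟨E1, hE1⟩ := Multiset.exists_cons_of_mem e1
    have pers1 : ∀ c ∈ E, c ≠ (q, q + z (t + 1)) → c ∈ (e t, q) ::ₘ E1 := by
      intro c hc h2
      rw [hE1] at hc
      rcases Multiset.mem_cons.1 hc with rfl | hc
      · exact absurd rfl h2
      · exact Multiset.mem_cons_of_mem hc
    have pers2 : ∀ c ∈ E, c.1 ≠ q → c ∈ (e t, q) ::ₘ E1 :=
      fun c hc h2 => pers1 c hc (fun hh => h2 (by rw [hh]))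
    have g1 : Good v ((e t, q) ::ₘ E1) s (q + z (t + 1)) := by
      intro u
      have := hO.good u
      rw [hE1] at this
      simp only [deg_cons] at this ⊢
      omega
    obtain ⟨F, e', f1, f2, f3, f4, f5, f6⟩ := visit a0.1 a0.2 (Y (t + 1)) (hI.hY (t + 1) ht) g1
      (H := Nn (t + 1) + Dr + M + 1) (fun u u1 u2 => pers2 _ (fresh _
        (hI.pure (t + 1) ht u (by omega) u2) (by simp only; omega) (by simp only; omega))
        (by simp only; omega)) (by omega)
    have old : ∀ i, i ≤ t → ∀ c ∈ E, p i + z i ≤ c.1 → c.1 ≤ e i → c ∈ F := by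
      intro i hi c hc c1 c2
      have b1 := sp i hi
      exact f5 c (pers2 c hc (by omega)) (by omega)
    refine ⟨fun i => if i = t + 1 then q else p i, fun i => if i = t + 1 then e' else e i, F,
      by simpa using f1, ?_, ⟨by simpa using hP.p0, ?_, ?_⟩, ?_, ?_, ?_⟩
    · have b1 := hO.hlens
      have b2 : len v (e t, q) = ρ t := by
        obtain ⟨j1, j2 | j2⟩ := hI.jump t (by omega)
        · have : q = e t + ρ t := by omega
          rw [this, len_add _ j1]
        · have : q = e t - ρ t := by omega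
          rw [this, len_sub _ j1]
      rw [hE1, lens_cons, len_add _ a0.2] at b1
      rw [lens_cons, b2] at f4
      rw [Finset.sum_range_succ _ (t + 1), Finset.sum_range_succ _ (t + 1),
        Finset.sum_range_succ (fun i => ({z (i + 1)} : Multiset ℕ)) t,
        Finset.sum_range_succ (fun i => ({ρ i} : Multiset ℕ)) t]
      ext l
      have c1 := congrArg (Multiset.count l) b1
      have c2 := congrArg (Multiset.count l) f4
      simp only [Multiset.count_cons, Multiset.count_add, Multiset.count_singleton] at c1 c2 ⊢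
      omega
    · intro i hi
      by_cases b1 : i = t + 1
      · subst b1
        simp only [if_true]
        omega
      · simp only [b1, if_false]
        exact hP.p1 i (by omega)
    · intro i hi
      have b2 : i ≠ t + 1 := by omega
      by_cases b1 : i = t
      · subst b1
        simp only [if_true, b2, if_false]
        omega
      · have b3 : i + 1 ≠ t + 1 := by omega
        simp only [b2, b3, if_false]
        exact hP.p2 i (by omega)
    · intro c hc h1 h2
      have b1 := h1 (t + 1) le_rfl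
      have b2 := h2 (t + 1) (by omega) le_rfl
      simp only [if_true] at b1 b2
      refine f5 c (pers1 c (hO.pers c hc (fun i hi => ?_) (fun i i1 hi => ?_)) b2) b1
      · have := h1 i (by omega)
        rwa [if_neg (by omega), if_neg (by omega)] at this
      · have := h2 i i1 (by omega)
        rwa [if_neg (by omega)] at this
    · intro i hi
      have b2 : i ≠ t + 1 := by omega
      by_cases b1 : i = t
      · subst b1
        simp only [if_true, b2, if_false]
        have := sp i le_rfl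
        have b4 := hP.p1 i le_rfl
        exact f5 _ (by simp) (by simp only; omega)
      · have b3 : i + 1 ≠ t + 1 := by omega
        simp only [b2, b3, if_false]
        have b4 := hP.p1 i (by omega)
        exact old i (by omega) _ (hO.chord i (by omega)) (by simp only; omega) le_rfl
    · intro i hi Q hQ
      by_cases b1 : i = t + 1
      · subst b1
        simp only [if_true]
        intro hZ h1 c hc c1 c2
        refine f6 Q hQ hZ h1 ?_ c (pers2 c (fresh c hc (by omega) (by omega)) (by omega))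
          (by omega) c2
        exact h1 (_, _) (f5 _ (pers2 _ (fresh _ (hI.pure (t + 1) ht _ (by omega) (by omega))
          (by simp only; omega) (by simp only; omega)) (by simp only; omega)) (Or.inl le_rfl))
          le_rfl (by simp only; omega)
      · simp only [b1, if_false]
        intro hZ h1
        exact hO.heal i (by omega) Q hQ hZ
          (fun c hc c1 c2 => h1 c (old i (by omega) c hc c1 c2) c1 c2)

end

end Pool.Agent.BHR.Few
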