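import Pool.Agent.Lib.MP_7ae50b_co.Main

set_option autoImplicit false

namespace Pool.Agent.BHR.Few

theorem near_flip {A : Finset ℕ} {v z y : ℕ} (hz : z ∈ A) (hy : y ∈ A) (hz2 : 2 * z ≤ v)
    (hy2 : 2 * y ≤ v) (b : ℤ) (E2 : Multiset (ℤ × ℤ)) :
    Near A (lens v ((b, b + z) ::ₘ (b + y, b + y + z) ::ₘ E2))
      (lens v ((b, b + y) ::ₘ (b + z, b + y + z) ::ₘ E2)) 2 := by
  have h5 : b + y + z = b + z + y := by ring
  simp only [lens_cons]
  rw [len_add b hz2, len_add (b + y) hz2, len_add b hy2, h5, len_add (b + z) hy2]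
  intro l
  simp only [Multiset.count_cons]
  refine ⟨by split_ifs <;> omega, by split_ifs <;> omega, by split_ifs <;> omega, ?_⟩
  intro hl
  have n1 : l ≠ z := fun hh => hl (hh ▸ hz)
  have n2 : l ≠ y := fun hh => hl (hh ▸ hy)
  simp [n1, n2]

/-- merge all pairs `(b, b + y)` with `b` in the blocks of parity `ε` -/
theorem merge_sub {v : ℕ} {A : Finset ℕ} {z y : ℕ} (hz : z ∈ A) (hy : y ∈ A) (hy1 : 1 ≤ y)
    (hz2 : 2 * z ≤ v) (hy2 : 2 * y ≤ v) {E : Multiset (ℤ × ℤ)} {s e : ℤ} (h : Good v E s e)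
    {a : ℤ} (ε : ℕ) (n : ℕ) (hp : Pure E z a (a + n + y)) :
    ∃ F, Good v F s e ∧ (∀ x y, Conn E x y → Conn F x y) ∧
      Near A (lens v E) (lens v F) (2 * n) ∧
      (∀ c ∈ E, (∀ i : ℕ, i < n → (i / y) % 2 = ε → c.1 ≠ a + i ∧ c.1 ≠ a + i + y) → c ∈ F) ∧
      ∀ i : ℕ, i < n → (i / y) % 2 = ε → Conn F (a + i) (a + i + y) := by
  induction n with
  | zero => exact ⟨E, h, fun _ _ h => h, Near.refl _ _ _, fun c hc _ => hc, by simp⟩
  | succ n ih =>
    obtain ⟨F, f1, f2, f3, f4, f5⟩ := ih (fun t t1 t2 => hp t t1 (by push_cast; omega))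
    by_cases hc : (n / y) % 2 = ε → Conn F (a + n) (a + n + y)
    · refine ⟨F, f1, f2, f3.mono (by omega), fun c hc h2 => f4 c hc
        (fun i hi => h2 i (by omega)), fun i hi h3 => ?_⟩
      rcases Nat.lt_or_eq_of_le (Nat.lt_succ_iff.1 hi) with h4 | rfl
      · exact f5 i h4 h3
      · exact hc h3
    push Not at hc
    obtain ⟨hn, hc⟩ := hc
    have e1 : (a + n, a + n + z) ∈ F := by
      refine f4 _ (hp _ (by omega) (by push_cast; omega)) (fun i hi h3 => ⟨by simp only; omega, ?_⟩)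
      simp only
      intro h4
      have h5 : n = i + y := by omega
      rw [h5, Nat.add_div_right _ (by omega)] at hn
      omega
    have e2 : (a + n + y, a + n + y + z) ∈ F :=
      f4 _ (hp _ (by omega) (by push_cast; omega))
        (fun i hi _ => ⟨by simp only; omega, by simp only; omega⟩)
    obtain ⟨E1, rfl⟩ := Multiset.exists_cons_of_mem e1
    have e3 : (a + n + y, a + n + y + z) ∈ E1 := by
      rcases Multiset.mem_cons.1 e2 with e2 | e2
      · simp only [Prod.mk.injEq] at e2; omega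
      · exact e2
    obtain ⟨E2, rfl⟩ := Multiset.exists_cons_of_mem e3
    have g1 : ∀ x u, Conn ((a + n, a + n + z) ::ₘ (a + n + y, a + n + y + z) ::ₘ E2) x u →
        Conn ((a + n, a + n + y) ::ₘ (a + n + z, a + n + y + z) ::ₘ E2) x u :=
      fun x u hxy => flip_merge f1 hc hxy
    refine ⟨(a + n, a + n + y) ::ₘ (a + n + z, a + n + y + z) ::ₘ E2, good_flip f1,
      fun x u hxy => g1 x u (f2 x u hxy), ?_, ?_, ?_⟩
    · exact (f3.trans (near_flip hz hy hz2 hy2 _ _)).mono (by omega)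
    · intro c hcE hc2
      have h1 := f4 c hcE (fun i hi => hc2 i (by omega))
      have h2 := hc2 n (by omega) hn
      simp only [Multiset.mem_cons] at h1 ⊢
      rcases h1 with rfl | rfl | h1
      · exact absurd rfl h2.1
      · exact absurd rfl h2.2
      · exact Or.inr (Or.inr h1)
    · intro i hi h3
      rcases Nat.lt_or_eq_of_le (Nat.lt_succ_iff.1 hi) with h4 | rfl
      · exact g1 _ _ (f5 i h4 h3)
      · exact conn_edge (by simp)

theorem merge_one {v w : ℕ} {A : Finset ℕ} (hA : ∀ x ∈ A, 1 ≤ x ∧ x ≤ w) (hv : 2 * w ≤ v)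
    {z y : ℕ} (hz : z ∈ A) (hy : y ∈ A) {E : Multiset (ℤ × ℤ)} {s e : ℤ} (h : Good v E s e)
    {a : ℤ} (hp : Pure E z a (a + 5 * w)) :
    ∃ F, Good v F s e ∧ (∀ x y, Conn E x y → Conn F x y) ∧
      Near A (lens v E) (lens v F) (4 * w) ∧
      (∀ c ∈ E, (c.1 < a ∨ a + 5 * w ≤ c.1) → c ∈ F) ∧
      ∀ t : ℤ, ∃ b, a ≤ b ∧ b + y < a + 5 * w ∧ (z : ℤ) ∣ b - t ∧ Conn F b (b + y) := by
  have z1 := hA z hz
  have y1 := hA y hy
  obtain ⟨q, q1, q2⟩ : ∃ q : ℕ, y + z ≤ z * q ∧ z * q ≤ y + 2 * z := by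
    refine ⟨y / z + 2, ?_, ?_⟩
    · have := Nat.div_add_mod y z
      have := Nat.mod_lt y (show z > 0 by omega)
      rw [mul_add]
      omega
    · have := Nat.div_add_mod y z
      rw [mul_add]
      omega
  have q3 : ((z * q : ℕ) : ℤ) = z * q := by push_cast; ring
  obtain ⟨F, f1, f2, f3, f4, f5⟩ := merge_sub hz hy y1.1 (by omega) (by omega) h (a := a) 0 z
    (fun t t1 t2 => hp t t1 (by omega))
  obtain ⟨G, g1, g2, g3, g4, g5⟩ := merge_sub hz hy y1.1 (by omega) (by omega) f1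
    (a := a + z * q) 1 z (fun t t1 t2 => f4 _ (hp t (by omega) (by omega))
      (fun i hi _ => ⟨by simp only; omega, by simp only; omega⟩))
  refine ⟨G, g1, fun x u hxu => g2 x u (f2 x u hxu), (f3.trans g3).mono (by omega), ?_, ?_⟩
  · intro c hc h2
    exact g4 c (f4 c hc (fun i hi _ => by omega)) (fun i hi _ => by omega)
  · intro t
    have h6 := Int.emod_nonneg (t - a) (b := z) (by omega)
    have h7 := Int.emod_lt_of_pos (t - a) (b := z) (by omega)
    have h8 := Int.mul_ediv_add_emod (t - a) z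
    obtain ⟨i, hi⟩ : ∃ i : ℕ, (i : ℤ) = (t - a) % z := ⟨((t - a) % z).toNat, by omega⟩
    rcases Nat.mod_two_eq_zero_or_one (i / y) with h9 | h9
    · exact ⟨a + i, by omega, by omega, ⟨-((t - a) / z), by linarith⟩,
        g2 _ _ (f5 i (by omega) h9)⟩
    · exact ⟨a + z * q + i, by omega, by omega, ⟨q - ((t - a) / z), by linarith⟩,
        g5 i (by omega) h9⟩

theorem merge_aux {v w : ℕ} {A : Finset ℕ} (hA : ∀ x ∈ A, 1 ≤ x ∧ x ≤ w) (hv : 2 * w ≤ v)
    {z : ℕ} (hz : z ∈ A) {E : Multiset (ℤ × ℤ)} {s e : ℤ} (h : Good v E s e) {a : ℤ}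
    (S : Finset ℕ) (hS : ∀ p ∈ S, p ∈ A) (hp : Pure E z a (a + 5 * w * S.card)) :
    ∃ F, Good v F s e ∧ (∀ x y, Conn E x y → Conn F x y) ∧
      Near A (lens v E) (lens v F) (4 * w * S.card) ∧
      (∀ c ∈ E, (c.1 < a ∨ a + 5 * w * S.card ≤ c.1) → c ∈ F) ∧
      ∀ y ∈ S, ∀ t : ℤ, ∃ b, a ≤ b ∧ b + y < a + 5 * w * S.card ∧ (z : ℤ) ∣ b - t ∧
        Conn F b (b + y) := by
  induction S using Finset.induction_on with
  | empty => exact ⟨E, h, fun _ _ h => h, Near.refl _ _ _, fun c hc _ => hc, by simp⟩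
  | insert p S hpS ih =>
    rw [Finset.card_insert_of_notMem hpS] at hp ⊢
    have hw : (0 : ℤ) ≤ 5 * w * S.card := by positivity
    have hb : (5 : ℤ) * w * ((S.card + 1 : ℕ) : ℤ) = 5 * w * S.card + 5 * w := by push_cast; ring
    rw [hb] at hp ⊢
    obtain ⟨F, f1, f2, f3, f4, f5⟩ := ih (fun q hq => hS q (Finset.mem_insert_of_mem hq))
      (fun t t1 t2 => hp t t1 (by omega))
    obtain ⟨G, g1, g2, g3, g4, g5⟩ := merge_one hA hv hz (hS p (Finset.mem_insert_self _ _)) f1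
      (a := a + 5 * w * S.card) (fun t t1 t2 => f4 _ (hp t (by omega) (by omega)) (Or.inr t1))
    refine ⟨G, g1, fun x u hxu => g2 x u (f2 x u hxu), ?_, ?_, ?_⟩
    · rw [mul_add, mul_one]
      exact f3.trans g3
    · intro c hc h2
      exact g4 c (f4 c hc (by omega)) (by omega)
    · intro y hy t
      rcases Finset.mem_insert.1 hy with rfl | hy
      · obtain ⟨b, b1, b2, b3, b4⟩ := g5 t
        exact ⟨b, by omega, by omega, b3, b4⟩
      · obtain ⟨b, b1, b2, b3, b4⟩ := f5 y hy t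
        exact ⟨b, b1, by omega, b3, g2 _ _ b4⟩

theorem merge_zone {v w M : ℕ} {A : Finset ℕ} (hG : Gen A) (hA : ∀ x ∈ A, 1 ≤ x ∧ x ≤ w)
    (hv : 2 * w ≤ v) (hM : 5 * w * (A.card - 1) ≤ M)
    {z : ℕ} (hz : z ∈ A) {E : Multiset (ℤ × ℤ)} {s e : ℤ} (h : Good v E s e) {a : ℤ}
    (hp : Pure E z a (a + M)) :
    ∃ F, Good v F s e ∧ (∀ x y, Conn E x y → Conn F x y) ∧
      Near A (lens v E) (lens v F) M ∧
      (∀ c ∈ E, (c.1 < a ∨ a + M ≤ c.1) → c ∈ F) ∧ ZI (Conn F) z a := by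
  have hz' := hA z hz
  have hcard : (A.erase z).card = A.card - 1 := Finset.card_erase_of_mem hz
  rw [← hcard] at hM
  have hM2 : (5 : ℤ) * w * (A.erase z).card ≤ M := by exact_mod_cast hM
  obtain ⟨F, f1, f2, f3, f4, f5⟩ := merge_aux hA hv hz h (a := a) (A.erase z)
    (fun p hp => Finset.mem_of_mem_erase hp) (fun t t1 t2 => hp t t1 (by omega))
  refine ⟨F, f1, f2, f3.mono ?_, fun c hc h2 => f4 c hc (by omega), ?_⟩
  · have : 4 * w * (A.erase z).card ≤ 5 * w * (A.erase z).card :=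
      Nat.mul_le_mul_right _ (by omega)
    omega
  have eq0 := conn_equiv F
  let rep : ℤ → ℤ := fun t => a + (t - a) % z
  have r1 : ∀ t, a ≤ rep t ∧ rep t < a + z := fun t =>
    ⟨by have := Int.emod_nonneg (t - a) (b := z) (by omega); simp only [rep]; omega,
     by have := Int.emod_lt_of_pos (t - a) (b := z) (by omega); simp only [rep]; omega⟩
  have r2 : ∀ t b, a ≤ b → b < a + M + z → (z : ℤ) ∣ b - t → Conn F (rep t) b := by
    intro t b b1 b2 b3
    have h5 : (z : ℤ) ∣ b - rep t := by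
      have := Int.mul_ediv_add_emod (t - a) z
      have h6 : b - rep t = (b - t) + z * ((t - a) / z) := by simp only [rep]; linarith
      rw [h6]
      exact dvd_add b3 (dvd_mul_right _ _)
    apply f2
    by_cases h7 : rep t ≤ b
    · exact pure_conn hz'.1 hp (r1 t).1 h7 b2 h5
    · have := r1 t
      exact (conn_equiv E).symm (pure_conn hz'.1 hp b1 (by omega) (by omega)
        (by rw [← neg_sub]; exact (dvd_neg).2 h5))
  let H : AddSubgroup ℤ :=
    { carrier := {n | ∀ t, Conn F (rep t) (rep (t + n))}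
      zero_mem' := fun t => by simpa using eq0.refl _
      add_mem' := fun {m n} hm hn t => by
        have := eq0.trans (hm t) (hn (t + m))
        rwa [add_assoc] at this
      neg_mem' := fun {n} hn t => by
        have := hn (t + -n)
        rw [add_assoc, neg_add_cancel, add_zero] at this
        exact eq0.symm this }
  have h1 : (1 : ℤ) ∈ H := by
    apply hG
    intro y hy t
    by_cases hyz : y = z
    · have := r1 (t + y)
      refine r2 t _ this.1 (by omega) ?_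
      have h6 := Int.mul_ediv_add_emod (t + y - a) z
      refine ⟨1 - (t + y - a) / z, ?_⟩
      simp only [rep]
      subst hyz
      linarith
    · obtain ⟨b, b1, b2, b5, b4⟩ := f5 y (Finset.mem_erase.2 ⟨hyz, hy⟩) t
      refine eq0.trans (r2 t b b1 (by omega) b5) (eq0.trans b4 (eq0.symm
        (r2 (t + y) (b + y) (by omega) (by omega) ?_)))
      have : b + y - (t + y) = b - t := by ring
      rwa [this]
  intro r r3 r4
  have h2 : (r - a) • (1 : ℤ) ∈ H := H.zsmul_mem h1 _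
  have h3 := h2 a
  have h4 := r2 a a le_rfl (by omega) (by simp)
  have h5 := r2 (a + (r - a) • 1) r r3 (by omega) (by simp)
  exact eq0.trans (eq0.symm h5) (eq0.trans (eq0.symm h3) h4)

theorem merge_all {v w M : ℕ} {A : Finset ℕ} (hG : Gen A) (hA : ∀ x ∈ A, 1 ≤ x ∧ x ≤ w)
    (hv : 2 * w ≤ v) (hM : 5 * w * (A.card - 1) ≤ M)
    {E : Multiset (ℤ × ℤ)} {s e : ℤ} (h : Good v E s e) (Z : Finset (ℕ × ℤ))
    (hZ : ∀ p ∈ Z, p.1 ∈ A ∧ Pure E p.1 p.2 (p.2 + M))
    (hd : ∀ p ∈ Z, ∀ q ∈ Z, p ≠ q → p.2 + M ≤ q.2 ∨ q.2 + M ≤ p.2) :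
    ∃ F, Good v F s e ∧ (∀ x y, Conn E x y → Conn F x y) ∧
      Near A (lens v E) (lens v F) (M * Z.card) ∧
      (∀ c ∈ E, (∀ p ∈ Z, c.1 < p.2 ∨ p.2 + M ≤ c.1) → c ∈ F) ∧
      ∀ p ∈ Z, ZI (Conn F) p.1 p.2 := by
  induction Z using Finset.induction_on with
  | empty => exact ⟨E, h, fun _ _ h => h, Near.refl _ _ _, fun c hc _ => hc, by simp⟩
  | insert p Z hpZ ih =>
    obtain ⟨F, f1, f2, f3, f4, f5⟩ := ih (fun q hq => hZ q (Finset.mem_insert_of_mem hq))
      (fun q hq r hr => hd q (Finset.mem_insert_of_mem hq) r (Finset.mem_insert_of_mem hr))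
    have hp := hZ p (Finset.mem_insert_self _ _)
    obtain ⟨G, g1, g2, g3, g4, g5⟩ := merge_zone hG hA hv hM hp.1 f1 (a := p.2) (by
      intro t t1 t2
      refine f4 _ (hp.2 t t1 t2) (fun q hq => ?_)
      have := hd p (Finset.mem_insert_self _ _) q (Finset.mem_insert_of_mem hq)
        (fun hh => hpZ (hh ▸ hq))
      simp only
      omega)
    refine ⟨G, g1, fun x y hxy => g2 x y (f2 x y hxy), ?_, ?_, ?_⟩
    · rw [Finset.card_insert_of_notMem hpZ, mul_add, mul_one]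
      exact f3.trans g3
    · intro c hc h2
      exact g4 c (f4 c hc (fun q hq => h2 q (Finset.mem_insert_of_mem hq)))
        (h2 p (Finset.mem_insert_self _ _))
    · intro q hq
      rcases Finset.mem_insert.1 hq with rfl | hq
      · exact g5
      · exact fun r r1 r2 => g2 _ _ (f5 q hq r r1 r2)

end Pool.Agent.BHR.Few
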