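import Pool.Agent.Lib.MP_7ae50b_co.Zig

set_option autoImplicit false

namespace Pool.Agent.BHR

theorem glue {v w N : ℕ} {E0 : Multiset (ℤ × ℤ)} {Q : ℤ → ℤ → Prop} (hQ : Equivalence Q)
    (hN : N % 2 = 0) {p e lo : ℕ → ℤ} {z : ℕ → ℕ} {Dl : ℤ}
    (r0 : ∀ c ∈ E0, 0 ≤ c.1)
    (H1 : ∀ c ∈ E0, (∀ i, 1 ≤ i → i ≤ N → c ≠ (p i, p i + z i)) → Q c.1 c.2)
    (H2 : ∀ i, i < N → Q (e i) (p (i + 1)))
    (H3 : ∀ i, 1 ≤ i → i ≤ N → ZI Q (z i) (e i + 1))
    (H4 : ∀ i, 1 ≤ i → i ≤ N → 1 ≤ z i ∧ Pure E0 (z i) (p i) (e i + 1 + w) ∧ lo i ≤ p i ∧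
      p i < lo i + Dl ∧ p i + z i ≤ e i ∧ e i < v)
    (H5a : ∀ i j, i % 2 = 1 → j % 2 = 1 → i < j → j ≤ N → e i < p j)
    (H5b : ∀ i, i % 2 = 0 → 2 ≤ i → i ≤ N → e 0 ≤ p i ∧ e i < p 1)
    (H5c : ∀ i j, 1 ≤ i → i ≤ N → 1 ≤ j → j ≤ N → i ≠ j → e i < p j ∨ e j < p i)
    (H5d : 0 ≤ e 0)
    (H6 : ∀ t : ℤ, 0 < t → t < v → (∃ y : ℕ, 1 ≤ y ∧ y ≤ w ∧ (t - y, t) ∈ E0) ∨
      ∃ t', 0 ≤ t' ∧ t' < t ∧ (∀ i, 1 ≤ i → i ≤ N → lo i + Dl ≤ t' ∨ t ≤ lo i) ∧ Q t t')
    (t : ℤ) (t1 : 0 ≤ t) (t2 : t < v) : Q t 0 := by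
  have low : ∀ r : ℤ, (∀ i, 1 ≤ i → i ≤ N → p i + z i ≤ r → Q (p i) (p i + z i)) →
      ∀ t : ℤ, 0 ≤ t → t ≤ r → t < v → Q t 0 := by
    intro r hr
    have : ∀ n : ℕ, ∀ t : ℤ, 0 ≤ t → t ≤ r → t < v → t ≤ n → Q t 0 := by
      intro n
      induction n with
      | zero =>
        intro t t1 _ _ t4
        obtain rfl : t = 0 := by omega
        exact hQ.refl _
      | succ n ih =>
        intro t t1 t2 t3 t4
        by_cases h0 : t = 0
        · rw [h0]; exact hQ.refl _
        rcases H6 t (by omega) t3 with ⟨y, y1, y2, y3⟩ | ⟨t', a1, a2, _, a4⟩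
        · have b1 := r0 _ y3
          simp only at b1
          have b2 : Q (t - y) t := by
            by_cases b3 : ∀ i, 1 ≤ i → i ≤ N → (t - y, t) ≠ (p i, p i + z i)
            · exact H1 _ y3 b3
            · push Not at b3
              obtain ⟨i, i1, i2, i3⟩ := b3
              simp only [Prod.mk.injEq] at i3
              have := hr i i1 i2 (by omega)
              rwa [← i3.2, ← i3.1] at this
          exact hQ.trans (hQ.symm b2) (ih _ b1 (by omega) (by omega) (by omega))
        · exact hQ.trans a4 (ih _ a1 (by omega) (by omega) (by omega))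
    intro t t1 t2 t3
    exact this t.toNat t t1 t2 t3 (by omega)
  have near : ∀ i, 1 ≤ i → i ≤ N → ∀ t, p i < t → t ≤ e i + z i → Q t (e i + 1) := by
    intro i i1 i2 t t1 t2
    obtain ⟨a1, a2, a3, a4, a5, a6⟩ := H4 i i1 i2
    refine strand hQ a1 (H3 i i1 i2) (by omega) (fun u u1 u2 _ => ?_)
    refine H1 (_, _) (a2 u (by omega) (by omega)) (fun j j1 j2 hh => ?_)
    simp only [Prod.mk.injEq] at hh
    by_cases b1 : i = j
    · subst b1; omega
    · have b2 := H5c i j i1 i2 j1 j2 b1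
      have b3 := H4 j j1 j2
      omega
  have block : ∀ i, 1 ≤ i → i ≤ N → ∀ r : ℤ,
      (∀ j, 1 ≤ j → j ≤ N → p i < p j → p j + z j ≤ r → Q (p j) (p j + z j)) →
      ∀ t : ℤ, p i < t → t ≤ r → t < v → Q t (e i + 1) := by
    intro i i1 i2 r hr
    obtain ⟨a1, a2, a3, a4, a5, a6⟩ := H4 i i1 i2
    have edge : ∀ a b, (a, b) ∈ E0 → p i < a → b ≤ r → Q a b := by
      intro a b hab h1 h2
      by_cases b3 : ∀ j, 1 ≤ j → j ≤ N → (a, b) ≠ (p j, p j + z j)
      · exact H1 _ hab b3
      · push Not at b3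
        obtain ⟨j, j1, j2, j3⟩ := b3
        simp only [Prod.mk.injEq] at j3
        rw [j3.1, j3.2]
        exact hr j j1 j2 (by omega) (by omega)
    have : ∀ n : ℕ, ∀ t : ℤ, p i < t → t ≤ r → t < v → t - p i ≤ n → Q t (e i + 1) := by
      intro n
      induction n with
      | zero => intro t t1 _ _ t4; omega
      | succ n ih =>
        intro t t1 t2 t3 t4
        by_cases h0 : t ≤ e i + z i
        · exact near i i1 i2 t t1 h0
        by_cases h1 : t < e i + 1 + w
        · have b1 := a2 (t - z i) (by omega) (by omega)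
          rw [sub_add_cancel] at b1
          exact hQ.trans (hQ.symm (edge _ _ b1 (by omega) t2))
            (ih _ (by omega) (by omega) (by omega) (by omega))
        have h2 : 0 < t := by
          have := r0 _ (a2 (p i) le_rfl (by omega))
          simp only at this
          omega
        rcases H6 t h2 t3 with ⟨y, y1, y2, y3⟩ | ⟨t', b1, b2, b3, b4⟩
        · exact hQ.trans (hQ.symm (edge _ _ y3 (by omega) t2))
            (ih _ (by omega) (by omega) (by omega) (by omega))
        · have := b3 i i1 i2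
          exact hQ.trans b4 (ih _ (by omega) (by omega) (by omega) (by omega))
    intro t t1 t2 t3
    exact this (t - p i).toNat t t1 t2 t3 (by omega)
  have odd1 : ∀ j, j % 2 = 1 → j ≤ N → p 1 ≤ p j := by
    intro j j1 j2
    by_cases h1 : j = 1
    · rw [h1]
    · have := H5a 1 j rfl j1 (by omega) j2
      have := H4 1 le_rfl (by omega)
      omega
  have ee : ∀ i, 1 ≤ i → i ≤ N → Q (e i) (e i + 1) ∧ Q (p i + z i) (e i + 1) := by
    intro i i1 i2
    have := H4 i i1 i2
    exact ⟨near i i1 i2 _ (by omega) (by omega), near i i1 i2 _ (by omega) (by omega)⟩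
  have heal1 : ∀ i, i % 2 = 0 → 2 ≤ i → i < N → Q (p i) (p i + z i) := by
    intro i i0 i1 i2
    obtain ⟨k, rfl⟩ : ∃ k, i = k + 1 := ⟨i - 1, by omega⟩
    have a1 := H2 k (by omega)
    have a2 := H2 (k + 1) i2
    have a3 := ee k (by omega) (by omega)
    have a4 := ee (k + 1) (by omega) (by omega)
    have a5 := H4 k (by omega) (by omega)
    have a6 := H4 (k + 1 + 1) (by omega) (by omega)
    have a7 := H5a k (k + 1 + 1) (by omega) (by omega) (by omega) (by omega)
    have a8 : Q (p (k + 1 + 1)) (e k + 1) := by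
      refine block k (by omega) (by omega) (p (k + 1 + 1)) (fun j j1 j2 j3 j4 => ?_) _ (by omega)
        le_rfl (by omega)
      exfalso
      have b1 := H4 j j1 j2
      rcases Nat.mod_two_eq_zero_or_one j with b2 | b2
      · have := H5b j b2 (by omega) j2
        have := odd1 k (by omega) (by omega)
        omega
      · rcases Nat.lt_trichotomy j k with b3 | b3 | b3
        · have := H5a j k b2 (by omega) b3 (by omega)
          omega
        · subst b3; omega
        · by_cases b4 : j = k + 1 + 1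
          · subst b4; omega
          · have := H5a (k + 1 + 1) j (by omega) b2 (by omega) j2
            omega
    exact hQ.trans (hQ.symm a1) (hQ.trans a3.1 (hQ.trans (hQ.symm a8) (hQ.trans (hQ.symm a2)
      (hQ.trans a4.1 (hQ.symm a4.2)))))
  have heal2 : ∀ i, i % 2 = 0 → 2 ≤ i → i ≤ N → Q (p i) (p i + z i) := by
    intro i i0 i1 i2
    rcases Nat.lt_or_ge i N with h | h
    · exact heal1 i i0 i1 h
    obtain rfl : i = N := by omega
    have a1 := H4 i (by omega) le_rfl
    have a2 := H5b i i0 i1 le_rfl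
    have a3 := H4 1 le_rfl (by omega)
    have a4 : ∀ t, 0 ≤ t → t ≤ p i → t < v → Q t 0 := by
      refine low (p i) (fun j j1 j2 j3 => ?_)
      have b1 := H4 j j1 j2
      rcases Nat.mod_two_eq_zero_or_one j with b2 | b2
      · by_cases b3 : j = i
        · subst b3; omega
        · exact heal1 j b2 (by omega) (by omega)
      · have := odd1 j b2 j2
        omega
    have a5 : Q (p 1) (e i + 1) := by
      refine block i (by omega) le_rfl (p 1) (fun j j1 j2 j3 j4 => ?_) _ (by omega) le_rfl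
        (by omega)
      have b1 := H4 j j1 j2
      rcases Nat.mod_two_eq_zero_or_one j with b2 | b2
      · by_cases b3 : j = i
        · subst b3; omega
        · exact heal1 j b2 (by omega) (by omega)
      · have := odd1 j b2 j2
        omega
    have a6 := H2 0 (by omega)
    have a7 := ee i (by omega) le_rfl
    exact hQ.trans (a4 _ (by omega) le_rfl (by omega)) (hQ.trans (hQ.symm
      (a4 (e 0) H5d a2.1 (by omega))) (hQ.trans a6 (hQ.trans a5 (hQ.symm a7.2))))
  refine low v (fun i i1 i2 _ => ?_) t t1 (by omega) t2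
  rcases Nat.mod_two_eq_zero_or_one i with b2 | b2
  · exact heal2 i b2 (by omega) i2
  have a3 := H4 1 le_rfl (by omega)
  have a4 : ∀ t, 0 ≤ t → t ≤ p 1 → t < v → Q t 0 := by
    refine low (p 1) (fun j j1 j2 j3 => ?_)
    have b1 := H4 j j1 j2
    rcases Nat.mod_two_eq_zero_or_one j with b2 | b2
    · exact heal2 j b2 (by omega) j2
    · have := odd1 j b2 j2
      omega
  obtain ⟨k, rfl⟩ : ∃ k, i = k + 1 := ⟨i - 1, by omega⟩
  have a5 := H2 k (by omega)
  have a6 := H2 (k + 1) (by omega)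
  have a7 := ee (k + 1) i1 i2
  have a8 := H5b (k + 1 + 1) (by omega) (by omega) (by omega)
  have a9 := H4 (k + 1 + 1) (by omega) (by omega)
  have a10 : Q (e k) 0 := by
    by_cases h0 : k = 0
    · subst h0
      exact a4 _ H5d (by omega) (by omega)
    · have c1 := H5b k (by omega) (by omega) (by omega)
      have c2 := H4 k (by omega) (by omega)
      exact a4 _ (by omega) (by omega) (by omega)
  have a11 : Q (p (k + 1 + 1)) 0 := a4 _ (by omega) (by omega) (by omega)
  exact hQ.trans (hQ.symm a5) (hQ.trans a10 (hQ.trans (hQ.symm a11) (hQ.trans (hQ.symm a6)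
    (hQ.trans a7.1 (hQ.symm a7.2)))))

end Pool.Agent.BHR
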