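import Pool.Agent.Lib.MP_7ae50b_co.Basic

set_option autoImplicit false

namespace Pool.Agent.BHR

def key (c : ℤ × ℤ) : ℤ × ℤ := (min c.1 c.2, max c.1 c.2)

theorem key_eq {c d : ℤ × ℤ} (h : key c = key d) :
    (c.1 = d.1 ∧ c.2 = d.2) ∨ (c.1 = d.2 ∧ c.2 = d.1) := by
  simp only [key, Prod.mk.injEq] at h
  omega

theorem len_key (v : ℕ) (c : ℤ × ℤ) : len v (key c) = len v c := by
  have : (max c.1 c.2 - min c.1 c.2).natAbs = (c.2 - c.1).natAbs := by omega
  simp only [len, key, this]

open Classical in
theorem ham_aux {v : ℕ} {E : Multiset (ℤ × ℤ)} {s e : ℤ} (h : Good v E s e) (hc : AllConn v E)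
    (n : ℕ) (hn : n + 1 ≤ v) :
    ∃ f : ℕ → ℤ, ∃ R : Multiset (ℤ × ℤ),
      E.map key = R.map key + (Multiset.range n).map (fun i => key (f i, f (i + 1))) ∧
      (∀ i j, i ≤ n → j ≤ n → f i = f j → i = j) ∧
      ∀ t, deg R t + (if t = f n then 1 else 0) + (if t = e then 1 else 0) +
        (if ∃ i, i < n ∧ f i = t then 2 else 0) = if 0 ≤ t ∧ t < v then 2 else 0 := by
  induction n with
  | zero =>
    refine ⟨fun _ => s, E, by simp, fun i j hi hj _ => by omega, fun t => ?_⟩
    simpa using h t
  | succ n ih =>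
    obtain ⟨f, R, h1, h2, h3⟩ := ih (by omega)
    have hr : ∀ i, i ≤ n → 0 ≤ f i ∧ f i < v := by
      intro i hi
      by_contra h4
      have := h3 (f i)
      rw [if_neg h4] at this
      rcases Nat.lt_or_ge i n with h5 | h5
      · rw [if_pos (c := ∃ j, j < n ∧ f j = f i) ⟨i, h5, rfl⟩] at this
        omega
      · have : i = n := by omega
        subst this
        simp at this
    have hne : f n ≠ e := by
      intro he
      have hz : ∀ i, i ≤ n → deg R (f i) = 0 := by
        intro i hi
        have := h3 (f i)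
        rw [if_pos (hr i hi)] at this
        rcases Nat.lt_or_ge i n with h5 | h5
        · rw [if_pos (c := ∃ j, j < n ∧ f j = f i) ⟨i, h5, rfl⟩] at this
          omega
        · have h6 : i = n := by omega
          subst h6
          rw [if_pos rfl, if_pos he] at this
          omega
      have hall : ∀ t : ℤ, 0 ≤ t → t < v → ∃ i, i ≤ n ∧ f i = t := by
        intro t t1 t2
        have h5 := hc (f 0) t (hr 0 (by omega)).1 (hr 0 (by omega)).2 t1 t2
        have : (∃ i, i ≤ n ∧ f i = f 0) ↔ (∃ i, i ≤ n ∧ f i = t) := by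
          refine conn_le (Q := fun x y => (∃ i, i ≤ n ∧ f i = x) ↔ (∃ i, i ≤ n ∧ f i = y))
            ⟨fun _ => Iff.rfl, fun h => h.symm, fun h1 h2 => h1.trans h2⟩ ?_ h5
          intro c hcE
          have h6 : key c ∈ E.map key := Multiset.mem_map_of_mem _ hcE
          rw [h1, Multiset.mem_add] at h6
          rcases h6 with h6 | h6
          · obtain ⟨d, hd, h7⟩ := Multiset.mem_map.1 h6
            have a1 := deg_pos_fst hd
            have a2 := deg_pos_snd hd
            have a3 : ¬ ∃ i, i ≤ n ∧ f i = d.1 := by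
              rintro ⟨i, hi, h8⟩
              have := hz i hi
              rw [h8] at this
              omega
            have a4 : ¬ ∃ i, i ≤ n ∧ f i = d.2 := by
              rintro ⟨i, hi, h8⟩
              have := hz i hi
              rw [h8] at this
              omega
            rcases key_eq h7 with ⟨b1, b2⟩ | ⟨b1, b2⟩
            · rw [← b1, ← b2]; simp only [a3, a4]
            · rw [← b1, ← b2]; simp only [a3, a4]
          · obtain ⟨i, hi, h7⟩ := Multiset.mem_map.1 h6
            rw [Multiset.mem_range] at hi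
            have a3 : ∃ j, j ≤ n ∧ f j = f i := ⟨i, by omega, rfl⟩
            have a4 : ∃ j, j ≤ n ∧ f j = f (i + 1) := ⟨i + 1, by omega, rfl⟩
            rcases key_eq h7 with ⟨b1, b2⟩ | ⟨b1, b2⟩
            · simp only at b1 b2
              rw [← b1, ← b2]; simp only [a3, a4]
            · simp only at b1 b2
              rw [← b1, ← b2]; simp only [a3, a4]
        exact this.1 ⟨0, by omega, rfl⟩
      have hsub : Finset.Ico (0 : ℤ) v ⊆ (Finset.range (n + 1)).image f := by
        intro t ht
        rw [Finset.mem_Ico] at ht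
        obtain ⟨i, hi, h5⟩ := hall t ht.1 ht.2
        exact Finset.mem_image.2 ⟨i, Finset.mem_range.2 (by omega), h5⟩
      have h5 := Finset.card_le_card hsub
      have h6 := Finset.card_image_le (s := Finset.range (n + 1)) (f := f)
      simp at h5 h6
      omega
    have hd : deg R (f n) = 1 := by
      have := h3 (f n)
      rw [if_pos (hr n le_rfl), if_pos rfl, if_neg hne, if_neg] at this
      · omega
      · rintro ⟨i, hi, h5⟩
        have := h2 i n (by omega) le_rfl h5
        omega
    obtain ⟨c, hcR, hc2⟩ := exists_edge (E := R) (t := f n) (by omega)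
    obtain ⟨R', rfl⟩ := Multiset.exists_cons_of_mem hcR
    obtain ⟨q, hq1, hq2⟩ : ∃ q, key c = key (f n, q) ∧
        ∀ t, deg (c ::ₘ R') t = deg R' t + (if t = f n then 1 else 0) +
          (if t = q then 1 else 0) := by
      rcases hc2 with hc2 | hc2
      · refine ⟨c.2, by rw [← hc2], fun t => by rw [deg_cons, hc2]⟩
      · refine ⟨c.1, by rw [← hc2]; simp [key, min_comm, max_comm], fun t => ?_⟩
        rw [deg_cons, hc2]; omega
    have hq3 : ∀ i, i ≤ n → f i ≠ q := by
      intro i hi h5
      rcases Nat.lt_or_ge i n with h6 | h6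
      · have a1 := h3 q
        rw [hq2, if_pos (c := q = q) rfl, if_pos (c := ∃ i, i < n ∧ f i = q) ⟨i, h6, h5⟩] at a1
        split_ifs at a1 <;> omega
      · have h7 : i = n := by omega
        subst h7
        rw [hq2, if_pos rfl, if_pos h5] at hd
        omega
    refine ⟨fun i => if i = n + 1 then q else f i, R', ?_, ?_, ?_⟩
    · rw [h1, Multiset.range_succ, Multiset.map_cons, Multiset.map_cons, hq1]
      simp only [if_true, Nat.left_eq_add, one_ne_zero, if_false]
      rw [Multiset.cons_add, Multiset.add_cons]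
      congr 2
      apply Multiset.map_congr rfl
      intro i hi
      rw [Multiset.mem_range] at hi
      rw [if_neg (by omega), if_neg (by omega)]
    · intro i j hi hj hij
      by_cases a1 : i = n + 1 <;> by_cases a2 : j = n + 1
      · omega
      · simp only [a1, a2, if_true, if_false] at hij
        exact absurd hij.symm (hq3 j (by omega))
      · simp only [a1, a2, if_true, if_false] at hij
        exact absurd hij (hq3 i (by omega))
      · simp only [a1, a2, if_false] at hij
        exact h2 i j (by omega) (by omega) hij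
    · intro t
      have a1 := h3 t
      rw [hq2] at a1
      simp only [if_true]
      have a2 : (∃ i, i < n + 1 ∧ (if i = n + 1 then q else f i) = t) ↔
          ((∃ i, i < n ∧ f i = t) ∨ t = f n) := by
        constructor
        · rintro ⟨i, hi, h5⟩
          rw [if_neg (by omega)] at h5
          rcases Nat.lt_or_ge i n with h6 | h6
          · exact Or.inl ⟨i, h6, h5⟩
          · have h7 : i = n := by omega
            subst h7
            exact Or.inr h5.symm
        · rintro (⟨i, hi, h5⟩ | h5)
          · exact ⟨i, by omega, by rw [if_neg (by omega)]; exact h5⟩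
          · exact ⟨n, by omega, by rw [if_neg (by omega)]; exact h5.symm⟩
      simp only [a2]
      by_cases b1 : t = f n
      · have b2 : ¬ ∃ i, i < n ∧ f i = t := by
          rintro ⟨i, hi, h5⟩
          have := h2 i n (by omega) le_rfl (h5.trans b1)
          omega
        rw [if_neg b2] at a1
        rw [if_pos (Or.inr b1)]
        rw [if_pos b1] at a1
        omega
      · rw [if_neg b1] at a1
        simp only [b1, or_false]
        omega

theorem ham {v : ℕ} {E : Multiset (ℤ × ℤ)} {s e : ℤ} (h : Good v E s e) (hc : AllConn v E) :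
    ∃ f : ℕ → ℤ,
      E.map key = (Multiset.range (v - 1)).map (fun i => key (f i, f (i + 1))) ∧
      (∀ i j, i < v → j < v → f i = f j → i = j) ∧ (∀ i, i < v → 0 ≤ f i ∧ f i < v) ∧
      ∀ t : ℤ, 0 ≤ t → t < v → ∃ i, i < v ∧ f i = t := by
  classical
  have hv : 1 ≤ v := by have := h.e_mem; omega
  obtain ⟨f, R, h1, h2, h3⟩ := ham_aux h hc (v - 1) (by omega)
  have hr : ∀ i, i < v → 0 ≤ f i ∧ f i < v := by
    intro i hi
    by_contra h4
    have := h3 (f i)
    rw [if_neg h4] at this
    rcases Nat.lt_or_ge i (v - 1) with h5 | h5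
    · rw [if_pos (c := ∃ j, j < v - 1 ∧ f j = f i) ⟨i, h5, rfl⟩] at this
      omega
    · have h6 : i = v - 1 := by omega
      rw [if_pos (by rw [h6])] at this
      omega
  have hs : ∀ t : ℤ, 0 ≤ t → t < v → ∃ i, i < v ∧ f i = t := by
    have hsub : (Finset.range v).image f ⊆ Finset.Ico (0 : ℤ) v := by
      intro t ht
      obtain ⟨i, hi, rfl⟩ := Finset.mem_image.1 ht
      exact Finset.mem_Ico.2 (hr i (Finset.mem_range.1 hi))
    have hcard : ((Finset.range v).image f).card = v := by
      rw [Finset.card_image_of_injOn, Finset.card_range]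
      intro i hi j hj hij
      simp only [Finset.coe_range, Set.mem_Iio] at hi hj
      exact h2 i j (by omega) (by omega) hij
    have := Finset.eq_of_subset_of_card_le hsub (by rw [hcard]; simp)
    intro t t1 t2
    have h5 : t ∈ (Finset.range v).image f := by rw [this]; exact Finset.mem_Ico.2 ⟨t1, t2⟩
    obtain ⟨i, hi, h6⟩ := Finset.mem_image.1 h5
    exact ⟨i, Finset.mem_range.1 hi, h6⟩
  have he : e = f (v - 1) := by
    obtain ⟨i, hi, h5⟩ := hs e h.e_mem.1 h.e_mem.2
    rcases Nat.lt_or_ge i (v - 1) with h6 | h6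
    · have := h3 e
      rw [if_pos (c := e = e) rfl, if_pos (c := ∃ i, i < v - 1 ∧ f i = e) ⟨i, h6, h5⟩] at this
      split_ifs at this <;> omega
    · have h7 : i = v - 1 := by omega
      rw [← h7, h5]
  have hR : R = 0 := by
    by_contra h4
    obtain ⟨c, hcR⟩ := Multiset.exists_mem_of_ne_zero h4
    have a1 := deg_pos_fst hcR
    have a2 := h3 c.1
    by_cases a3 : 0 ≤ c.1 ∧ c.1 < v
    · rw [if_pos a3] at a2
      obtain ⟨i, hi, h5⟩ := hs c.1 a3.1 a3.2
      rcases Nat.lt_or_ge i (v - 1) with h6 | h6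
      · rw [if_pos (c := ∃ i, i < v - 1 ∧ f i = c.1) ⟨i, h6, h5⟩] at a2
        omega
      · have h7 : i = v - 1 := by omega
        rw [h7] at h5
        rw [if_pos h5.symm, if_pos (h5.symm.trans he.symm)] at a2
        omega
    · rw [if_neg a3] at a2
      omega
  refine ⟨f, by simpa [hR] using h1, fun i j hi hj => h2 i j (by omega) (by omega), hr, hs⟩

theorem card_of_conn {v : ℕ} {E : Multiset (ℤ × ℤ)} {s e : ℤ} (h : Good v E s e)
    (hc : AllConn v E) : (lens v E).card = v - 1 := by
  obtain ⟨f, h1, -⟩ := ham h hc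
  have := congrArg Multiset.card h1
  simpa [lens] using this

/-- the reversal of a segment of a Hamiltonian path -/
theorem flip_path {v : ℕ} {F : Multiset (ℤ × ℤ)} {f : ℕ → ℤ} {i j : ℕ} (hij : i < j)
    (hj : j + 1 < v)
    (hs : ∀ t : ℤ, 0 ≤ t → t < v → ∃ i, i < v ∧ f i = t)
    (h1 : ∀ n, n + 1 < v → n ≠ i → n ≠ j → Conn F (f n) (f (n + 1)))
    (h2 : Conn F (f i) (f j)) (h3 : Conn F (f (i + 1)) (f (j + 1))) : AllConn v F := by
  have eq0 := conn_equiv F
  have a1 : ∀ a b, a ≤ b → b < v → (∀ n, a ≤ n → n < b → n ≠ i ∧ n ≠ j) → Conn F (f a) (f b) := by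
    intro a b hab
    induction b, hab using Nat.le_induction with
    | base => intro _ _; exact eq0.refl _
    | succ b hb ih =>
      intro hb2 hh
      exact eq0.trans (ih (by omega) (fun n n1 n2 => hh n n1 (by omega)))
        (h1 b hb2 (hh b hb (by omega)).1 (hh b hb (by omega)).2)
  have a2 : ∀ n, n < v → Conn F (f i) (f n) := by
    intro n hn
    by_cases b1 : n ≤ i
    · exact eq0.symm (a1 n i b1 (by omega) (fun m m1 m2 => by omega))
    · by_cases b2 : n ≤ j
      · exact eq0.trans h2 (eq0.symm (a1 n j b2 (by omega) (fun m m1 m2 => by omega)))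
      · refine eq0.trans h2 (eq0.trans (eq0.symm (a1 (i + 1) j hij (by omega)
          (fun m m1 m2 => by omega))) (eq0.trans h3 (a1 (j + 1) n (by omega) hn
          (fun m m1 m2 => by omega))))
  intro a b a1' a2' b1 b2
  obtain ⟨n, hn, rfl⟩ := hs a a1' a2'
  obtain ⟨m, hm, rfl⟩ := hs b b1 b2
  exact eq0.trans (eq0.symm (a2 n hn)) (a2 m hm)

/-- a neutral flip in a long region of odd type -/
theorem neutral {v : ℕ} {E : Multiset (ℤ × ℤ)} {s e : ℤ} (h : Good v E s e) (hc : AllConn v E)
    {x y : ℕ} (hx : Odd x) (hy : 1 ≤ y) (hx2 : 2 * x ≤ v) (hy2 : 2 * y ≤ v) {a : ℤ}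
    (hp : Pure E x a (a + x * y + 1)) :
    ∃ F, Good v F s e ∧ AllConn v F ∧ x ::ₘ x ::ₘ lens v F = y ::ₘ y ::ₘ lens v E ∧
      ∀ c ∈ E, (c.1 < a ∨ a + x * y < c.1) → c ∈ F := by
  classical
  obtain ⟨f, h1, h2, h3, h4⟩ := ham h hc
  have hx1 : 1 ≤ x := hx.pos
  have hedge : ∀ c ∈ E, ∃ i, i + 1 < v ∧
      ((c.1 = f i ∧ c.2 = f (i + 1)) ∨ (c.1 = f (i + 1) ∧ c.2 = f i)) := by
    intro c hcE
    have h6 : key c ∈ E.map key := Multiset.mem_map_of_mem _ hcE
    rw [h1] at h6
    obtain ⟨i, hi, h7⟩ := Multiset.mem_map.1 h6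
    rw [Multiset.mem_range] at hi
    refine ⟨i, by omega, ?_⟩
    rcases key_eq h7 with ⟨b1, b2⟩ | ⟨b1, b2⟩
    · exact Or.inl ⟨b1.symm, b2.symm⟩
    · exact Or.inr ⟨b2.symm, b1.symm⟩
  have hpath : ∀ i, i + 1 < v → (f i, f (i + 1)) ∈ E ∨ (f (i + 1), f i) ∈ E := by
    intro i hi
    have h6 : key (f i, f (i + 1)) ∈ E.map key := by
      rw [h1]
      exact Multiset.mem_map.2 ⟨i, Multiset.mem_range.2 (by omega), rfl⟩
    obtain ⟨c, hcE, h7⟩ := Multiset.mem_map.1 h6
    rcases key_eq h7 with ⟨b1, b2⟩ | ⟨b1, b2⟩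
    · left
      have : c = (f i, f (i + 1)) := Prod.ext b1 b2
      rwa [← this]
    · right
      have : c = (f (i + 1), f i) := Prod.ext b1 b2
      rwa [← this]
  -- orientation
  let σ : ℤ → Prop := fun t => ∃ i, i + 1 < v ∧ t = f i ∧ t + x = f (i + 1)
  have hσ : ∀ t, a ≤ t → t ≤ a + x * y → ¬ σ t → ∃ i, i + 1 < v ∧ t = f (i + 1) ∧ t + x = f i := by
    intro t t1 t2 t3
    obtain ⟨i, hi, h5 | h5⟩ := hedge _ (hp t t1 (by omega))
    · exact absurd ⟨i, hi, h5⟩ t3
    · exact ⟨i, hi, h5⟩
  have hper : ∀ t, a ≤ t → t + x ≤ a + x * y → (σ t ↔ σ (t + x)) := by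
    intro t t1 t2
    constructor
    · rintro ⟨i, hi, b1, b2⟩
      by_contra b3
      obtain ⟨j, hj, b4, b5⟩ := hσ (t + x) (by omega) t2 b3
      have := h2 (i + 1) (j + 1) hi hj (b2.symm.trans b4)
      have b6 : i = j := by omega
      subst b6
      omega
    · rintro ⟨i, hi, b1, b2⟩
      by_contra b3
      obtain ⟨j, hj, b4, b5⟩ := hσ t t1 (by omega) b3
      have := h2 i j (by omega) (by omega) (b1.symm.trans b5)
      subst this
      omega
  have hper2 : ∀ n : ℕ, n ≤ y → (σ a ↔ σ (a + x * n)) := by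
    intro n
    induction n with
    | zero => simp
    | succ n ih =>
      intro hn
      have b1 : (x : ℤ) * n + x ≤ x * y := by
        have : (n : ℤ) + 1 ≤ y := by exact_mod_cast hn
        nlinarith
      have b2 : (0 : ℤ) ≤ x * n := by positivity
      rw [ih (by omega), hper (a + x * n) (by omega) (by omega)]
      push_cast
      rw [mul_add, mul_one, add_assoc]
  obtain ⟨b, hb1, hb2, hb3⟩ : ∃ b, a ≤ b ∧ b + y ≤ a + x * y ∧ (σ b ↔ σ (b + y)) := by
    by_contra hcon
    push Not at hcon
    have : ∀ n : ℕ, n ≤ x → (σ (a + n * y) ↔ (σ a ↔ Even n)) := by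
      intro n
      induction n with
      | zero => simp
      | succ n ih =>
        intro hn
        have b1 : (n : ℤ) * y + y ≤ x * y := by
          have : (n : ℤ) + 1 ≤ x := by exact_mod_cast hn
          nlinarith
        have b2 : (0 : ℤ) ≤ n * y := by positivity
        have b3 := hcon (a + n * y) (by omega) (by omega)
        have b4 := ih (by omega)
        have b5 : a + ((n + 1 : ℕ) : ℤ) * y = a + n * y + y := by push_cast; ring
        rw [b5, Nat.even_add_one]
        revert b3 b4
        generalize σ (a + n * y) = p1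
        generalize σ (a + n * y + y) = p2
        generalize σ a = p3
        generalize Even n = p4
        clear * -
        tauto
    have b1 := this x le_rfl
    have b2 := hper2 y le_rfl
    have b3 := Nat.not_even_iff_odd.2 hx
    revert b1 b2 b3
    generalize σ (a + x * y) = p1
    generalize σ a = p3
    generalize Even x = p4
    clear * -
    tauto
  have e1 := hp b hb1 (by omega)
  have e2 := hp (b + y) (by omega) (by omega)
  obtain ⟨E1, rfl⟩ := Multiset.exists_cons_of_mem e1
  have e3 : (b + y, b + y + x) ∈ E1 := by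
    rcases Multiset.mem_cons.1 e2 with e2 | e2
    · simp only [Prod.mk.injEq] at e2; omega
    · exact e2
  obtain ⟨E2, rfl⟩ := Multiset.exists_cons_of_mem e3
  refine ⟨(b, b + y) ::ₘ (b + x, b + y + x) ::ₘ E2, good_flip h, ?_, ?_, ?_⟩
  · have eq0 := conn_equiv ((b, b + y) ::ₘ (b + x, b + y + x) ::ₘ E2)
    have c1 : Conn ((b, b + y) ::ₘ (b + x, b + y + x) ::ₘ E2) b (b + y) := conn_edge (by simp)
    have c2 : Conn ((b, b + y) ::ₘ (b + x, b + y + x) ::ₘ E2) (b + x) (b + y + x) :=
      conn_edge (by simp)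
    obtain ⟨i, j, hi, hj, hij, c3, c4, c5⟩ : ∃ i j, i + 1 < v ∧ j + 1 < v ∧ i ≠ j ∧
        Conn ((b, b + y) ::ₘ (b + x, b + y + x) ::ₘ E2) (f i) (f j) ∧
        Conn ((b, b + y) ::ₘ (b + x, b + y + x) ::ₘ E2) (f (i + 1)) (f (j + 1)) ∧
        ((b = f i ∧ b + x = f (i + 1) ∧ b + y = f j ∧ b + y + x = f (j + 1)) ∨
         (b = f (i + 1) ∧ b + x = f i ∧ b + y = f (j + 1) ∧ b + y + x = f j)) := by
      by_cases d1 : σ b
      · obtain ⟨j, hj, d3, d4⟩ := hb3.1 d1
        obtain ⟨i, hi, d1, d2⟩ := d1
        refine ⟨i, j, hi, hj, ?_, ?_, ?_, Or.inl ⟨d1, d2, d3, d4⟩⟩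
        · rintro rfl; omega
        · rw [← d1, ← d3]; exact c1
        · rw [← d2, ← d4]; exact c2
      · obtain ⟨j, hj, d3, d4⟩ := hσ (b + y) (by omega) hb2 (fun hh => d1 (hb3.2 hh))
        obtain ⟨i, hi, d1, d2⟩ := hσ b hb1 (by omega) d1
        refine ⟨i, j, hi, hj, ?_, ?_, ?_, Or.inr ⟨d1, d2, d3, d4⟩⟩
        · rintro rfl; omega
        · rw [← d2, ← d4]; exact c2
        · rw [← d1, ← d3]; exact c1
    have c6 : ∀ n, n + 1 < v → n ≠ i → n ≠ j →
        Conn ((b, b + y) ::ₘ (b + x, b + y + x) ::ₘ E2) (f n) (f (n + 1)) := by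
      intro n hn n1 n2
      have i1 := h2 n i (by omega) (by omega)
      have i2 := h2 n j (by omega) (by omega)
      have i3 := h2 n (i + 1) (by omega) (by omega)
      have i4 := h2 n (j + 1) (by omega) (by omega)
      have i5 := h2 (n + 1) i (by omega) (by omega)
      have i6 := h2 (n + 1) j (by omega) (by omega)
      rcases hpath n hn with d | d
      · simp only [Multiset.mem_cons, Prod.mk.injEq] at d
        rcases d with d | d | d
        · exfalso; omega
        · exfalso; omega
        · exact conn_edge (by simp [d])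
      · simp only [Multiset.mem_cons, Prod.mk.injEq] at d
        rcases d with d | d | d
        · exfalso; omega
        · exfalso; omega
        · exact eq0.symm (conn_edge (by simp [d]))
    rcases Nat.lt_or_gt_of_ne hij with d | d
    · exact flip_path d hj h4 c6 c3 c4
    · exact flip_path d hi h4 (fun n hn n1 n2 => c6 n hn n2 n1) (eq0.symm c3)
        (eq0.symm c4)
  · have : b + y + x = b + x + y := by ring
    simp only [lens_cons]
    rw [len_add b hx2, len_add (b + y) hx2, len_add b hy2, this, len_add (b + x) hy2]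
    simp only [Multiset.cons_swap x y]
  · intro c hcE hc2
    simp only [Multiset.mem_cons] at hcE ⊢
    rcases hcE with rfl | rfl | hcE
    · exfalso; simp only at hc2; omega
    · exfalso; simp only at hc2; omega
    · exact Or.inr (Or.inr hcE)

end Pool.Agent.BHR
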