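import Pool.Agent.Lib.MP_7ae50b_co.Match

set_option autoImplicit false

namespace Pool.Agent.BHR

def Line (E : Multiset (ℤ × ℤ)) (x : ℕ) (h : ℤ) (z : ℕ) (U : Multiset ℤ) : Prop :=
  ∀ t : ℤ, deg E t + (if 0 ≤ t ∧ t < x then 1 else 0) + U.count t =
    if 0 ≤ t ∧ t < h then 2 else if h ≤ t ∧ t < h + z then 1 else 0

def run (S : Finset ℤ) (y : ℤ) : Multiset (ℤ × ℤ) := S.val.map (fun t => (t, t + y))

def Left (w : ℕ) (E : Multiset (ℤ × ℤ)) (t : ℤ) : Prop :=
  ∃ y : ℕ, 1 ≤ y ∧ y ≤ w ∧ (t - y, t) ∈ E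

theorem mem_run {S : Finset ℤ} {y t : ℤ} (h : t ∈ S) : (t, t + y) ∈ run S y :=
  Multiset.mem_map.2 ⟨t, h, rfl⟩

theorem of_mem_run {S : Finset ℤ} {y : ℤ} {c : ℤ × ℤ} (h : c ∈ run S y) :
    c.1 ∈ S ∧ c.2 = c.1 + y := by
  obtain ⟨t, ht, rfl⟩ := Multiset.mem_map.1 h
  exact ⟨ht, rfl⟩

theorem count_shift (D : Multiset ℤ) (y u : ℤ) : (D.map (· + y)).count u = D.count (u - y) := by
  have := Multiset.count_map_eq_count' (· + y) D (add_left_injective y) (u - y)
  simpa using this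

theorem count_val (S : Finset ℤ) (u : ℤ) : S.val.count u = if u ∈ S then 1 else 0 := by
  rw [Multiset.count_eq_of_nodup S.nodup]
  simp

theorem deg_run (S : Finset ℤ) (y u : ℤ) :
    deg (run S y) u = (if u ∈ S then 1 else 0) + (if u - y ∈ S then 1 else 0) := by
  simp only [deg, run, Multiset.map_map, Function.comp_def]
  rw [count_shift, Multiset.map_id', count_val, count_val]

theorem card_run (S : Finset ℤ) (y : ℤ) : (run S y).card = S.card := by simp [run]

theorem lens_run {v y : ℕ} (h : 2 * y ≤ v) (S : Finset ℤ) :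
    lens v (run S y) = Multiset.replicate S.card y := by
  simp only [lens, run, Multiset.map_map, Function.comp_def, len_add _ h]
  simp

theorem Line.ext {E : Multiset (ℤ × ℤ)} {x z : ℕ} {h h' : ℤ} {U : Multiset ℤ}
    (hL : Line E x h z U) (h0 : 0 ≤ h) (h1 : h ≤ h') :
    Line (E + run (Finset.Ico h h') z) x h' z U := by
  intro t
  have := hL t
  rw [deg_add, deg_run]
  simp only [Finset.mem_Ico]
  split_ifs at this ⊢ <;> omega

theorem Line.close {v : ℕ} {E : Multiset (ℤ × ℤ)} {x : ℕ} {s e : ℤ}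
    (hL : Line E x (v - x) x (s ::ₘ e ::ₘ 0)) (h0 : x ≤ v) :
    Good v (E + run (Finset.Ico 0 x) (v - x)) s e := by
  intro t
  have := hL t
  rw [deg_add, deg_run]
  simp only [Finset.mem_Ico, Multiset.count_cons, Multiset.count_zero] at this ⊢
  split_ifs at this ⊢ <;> omega

theorem lens_close {v x : ℕ} (h : 2 * x ≤ v) :
    lens v (run (Finset.Ico 0 x) (v - x)) = Multiset.replicate x x := by
  have : ∀ t : ℤ, len v (t, t + (v - x)) = x := by
    intro t
    simp only [len, add_sub_cancel_left]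
    omega
  simp only [lens, run, Multiset.map_map, Function.comp_def, this]
  simp

theorem trans_core {A : Finset ℕ} {w : ℕ} (hG : Gen A) (hA : ∀ x ∈ A, 1 ≤ x ∧ x ≤ w)
    {E : Multiset (ℤ × ℤ)} {x z z' j : ℕ} {h : ℤ} {U : Multiset ℤ} (hL : Line E x h z U)
    (h0 : 0 ≤ h) (hz : z ∈ A) (hz' : z' ∈ A) (hzz : z ≠ z')
    (hj : j = (z + z') % 2 ∨ (j = 2 ∧ (z + z') % 2 = 0)) :
    ∃ F U', Line (E + F) x (h + 5 * w) z' (U + U') ∧ U'.card = j ∧ Edges A F ∧
      F.card ≤ 11 * w ∧ (∀ c ∈ F, h ≤ c.1 ∧ c.1 < h + 5 * w) ∧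
      (z' < z → ∀ t, h + z ≤ t → t < h + 5 * w + z' → Left w F t) ∧
      (z < z' → ∀ t, h ≤ t → t < h + 5 * w →
        ∃ t2, t < t2 ∧ t2 < h + 5 * w + z' ∧ t2 ≤ t + w ∧ (t, t2) ∈ F) ∧
      (z < z' → 1 ≤ j → ∃ u ∈ U', h + z ≤ u ∧ u < h + 4 * w ∧ Pure F z' u (h + 5 * w) ∧
        ∀ t, u < t → t < h + 5 * w + z' → Left w F t) := by
  have a1 := hA z hz
  have a2 := hA z' hz'
  obtain ⟨d, c, o, hd⟩ : ∃ d c o : ℕ, (z < z' ∧ z' = z + d ∧ c = 0 ∧ o = z) ∨
      (z' < z ∧ z = z' + d ∧ c = d ∧ o = 0) := by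
    rcases Nat.lt_or_gt_of_ne hzz with h1 | h1
    · exact ⟨z' - z, 0, z, Or.inl ⟨h1, by omega, rfl, rfl⟩⟩
    · exact ⟨z - z', z - z', 0, Or.inr ⟨h1, by omega, rfl, rfl⟩⟩
  obtain ⟨M, U0, m1, m2, m3, m4, m5, m6⟩ := sys hG hA (d := d) (j := j) (by omega) (by omega)
    (by omega)
  set D := pts M + U0 with hD
  have i1 : ∀ t, ind d D t ≤ 1 := fun t => by rw [← m2 t]; exact ind_le _ _ _
  have i2 : ∀ t, t < 0 → ind d D t = 0 := fun t ht =>
    ind_zero (fun a ha => by have := m5 a ha; omega)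
  have i3 : ∀ t : ℤ, 3 * w ≤ t → ind d D t = 1 := fun t ht => by
    rw [← m2 t]; exact ind_eq (fun a ha => by have := m5 a ha; omega)
  have i4 := ind_step (d := d) (by omega) D
  set S1 := (Finset.Ico h (h + 5 * w)).filter (fun t => ind d D (t - h - c) = 1) with hS1
  set S0 := (Finset.Ico h (h + 5 * w)).filter (fun t => ind d D (t - h) = 0) with hS0
  set M1 := M.map (fun e : ℤ × ℤ => (e.1 + (h + o), e.2 + (h + o))) with hM1
  have s1 : ∀ t, t ∈ S1 ↔ (h ≤ t ∧ t < h + 5 * w) ∧ ind d D (t - h - c) = 1 := by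
    intro t; simp only [hS1, Finset.mem_filter, Finset.mem_Ico]
  have s0 : ∀ t, t ∈ S0 ↔ (h ≤ t ∧ t < h + 5 * w) ∧ ind d D (t - h) = 0 := by
    intro t; simp only [hS0, Finset.mem_filter, Finset.mem_Ico]
  have f1 : ∀ t, t ∈ S1 → (t, t + z') ∈ run S1 z' + run S0 z + M1 := fun t ht => by
    simp [mem_run ht]
  have f0 : ∀ t, t ∈ S0 → (t, t + z) ∈ run S1 z' + run S0 z + M1 := fun t ht => by
    simp [mem_run ht]
  have l1 : ∀ t : ℤ, t - z' ∈ S1 → Left w (run S1 z' + run S0 z + M1) t := fun t ht =>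
    ⟨z', a2.1, a2.2, by simpa using f1 _ ht⟩
  have l0 : ∀ t : ℤ, t - z ∈ S0 → Left w (run S1 z' + run S0 z + M1) t := fun t ht =>
    ⟨z, a1.1, a1.2, by simpa using f0 _ ht⟩
  refine ⟨run S1 z' + run S0 z + M1, U0.map (· + (h + o)), ?_, by simpa using m3, ?_, ?_, ?_, ?_,
    ?_, ?_⟩
  · intro u
    have b0 := hL u
    have b1 : deg M1 u + (U0.map (· + (h + o))).count u = D.count (u - (h + o)) := by
      rw [deg_pts, ← count_shift, hD, Multiset.map_add, Multiset.count_add]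
      simp only [hM1, pts, Multiset.map_map, Multiset.map_add, Function.comp_def]
    rw [deg_add, deg_add, deg_add, deg_run, deg_run, Multiset.count_add]
    simp only [s1, s0]
    rcases hd with ⟨d1, d2, d3, d4⟩ | ⟨d1, d2, d3, d4⟩
    · subst d3 d4
      have e1 : u - (z' : ℤ) - h - (0 : ℕ) = u - (h + o) - d := by rw [d2]; push_cast; ring
      have e2 : u - (o : ℤ) - h = u - (h + o) := by ring
      have e3 : u - h - (0 : ℕ) = u - h := by simp
      rw [e1, e2, e3]
      have c1 := i4 (u - (h + o))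
      have c2 := i1 (u - h)
      have c3 := i1 (u - (h + o))
      have c4 := i2 (u - (h + o))
      have c5 := i3 (u - (h + o) - d)
      have c6 := i2 (u - (h + o) - d)
      split_ifs at b0 ⊢ <;> omega
    · subst d3 d4
      have e1 : u - (z' : ℤ) - h - c = u - z - h := by rw [d2]; push_cast; ring
      have e2 : u - (h + (0 : ℕ)) = u - h := by simp
      rw [e2] at b1
      rw [e1]
      have c1 := i4 (u - h)
      have c2 := i1 (u - h)
      have c3 := i1 (u - z - h)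
      have c4 := i2 (u - z - h)
      have c5 := i3 (u - z - h)
      have c6 := i2 (u - h)
      have c7 := i3 (u - h - c)
      split_ifs at b0 ⊢ <;> omega
  · intro e he
    simp only [Multiset.mem_add] at he
    rcases he with (he | he) | he
    · exact ⟨z', hz', (of_mem_run he).2⟩
    · exact ⟨z, hz, (of_mem_run he).2⟩
    · obtain ⟨e', he', rfl⟩ := Multiset.mem_map.1 he
      obtain ⟨y, hy, hy2⟩ := m1 e' he'
      exact ⟨y, hy, by simp only; omega⟩
  · have b1 : S1.card ≤ 5 * w := by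
      refine le_trans (Finset.card_filter_le _ _) ?_
      rw [Int.card_Ico]; omega
    have b0 : S0.card ≤ 5 * w := by
      refine le_trans (Finset.card_filter_le _ _) ?_
      rw [Int.card_Ico]; omega
    simp only [Multiset.card_add, card_run, hM1, Multiset.card_map]
    omega
  · intro e he
    simp only [Multiset.mem_add] at he
    rcases he with (he | he) | he
    · exact ((s1 _).1 (of_mem_run he).1).1
    · exact ((s0 _).1 (of_mem_run he).1).1
    · obtain ⟨e', he', rfl⟩ := Multiset.mem_map.1 he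
      have := m5 e'.1 (by
        simp only [hD, pts, Multiset.mem_add]
        exact Or.inl (Or.inl (Multiset.mem_map_of_mem _ he')))
      simp only
      omega
  · intro hlt t t1 t2
    obtain ⟨d1, d2, d3, d4⟩ : z' < z ∧ z = z' + d ∧ c = d ∧ o = 0 := by omega
    have c3 := i1 (t - z - h)
    have c4 := i3 (t - z - h)
    by_cases b1 : ind d D (t - z - h) = 0
    · exact l0 t ((s0 _).2 ⟨by omega, b1⟩)
    · refine l1 t ((s1 _).2 ⟨by omega, ?_⟩)
      have e1 : t - (z' : ℤ) - h - c = t - z - h := by rw [d3, d2]; push_cast; ring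
      rw [e1]; omega
  · intro hlt t t1 t2
    obtain ⟨d1, d2, d3, d4⟩ : z < z' ∧ z' = z + d ∧ c = 0 ∧ o = z := by omega
    have c3 := i1 (t - h)
    have c4 := i3 (t - h)
    by_cases b1 : ind d D (t - h) = 0
    · exact ⟨t + z, by omega, by omega, by omega, f0 t ((s0 _).2 ⟨⟨t1, t2⟩, b1⟩)⟩
    · refine ⟨t + z', by omega, by omega, by omega, f1 t ((s1 _).2 ⟨⟨t1, t2⟩, ?_⟩)⟩
      have e1 : t - h - c = t - h := by rw [d3]; simp
      rw [e1]; omega
  · intro hlt hj1
    obtain ⟨d1, d2, d3, d4⟩ : z < z' ∧ z' = z + d ∧ c = 0 ∧ o = z := by omega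
    obtain ⟨u, hu, hu2⟩ := m6 hj1
    have b1 := m5 u (by simp [hD, hu])
    have i5 : ∀ t : ℤ, u ≤ t → ind d D t = 1 := fun t ht => by
      rw [← m2 t]; exact ind_eq (fun a ha => by have := hu2 a ha; omega)
    refine ⟨u + (h + o), Multiset.mem_map_of_mem _ hu, by omega, by omega, ?_, ?_⟩
    · intro t t1 t2
      exact f1 t ((s1 _).2 ⟨by omega, i5 _ (by omega)⟩)
    · intro t t1 t2
      have c1 := i4 (t - z - h)
      have c2 := i5 (t - z - h) (by omega)
      have c3 : D.count (t - z - h) = 0 := by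
        rw [Multiset.count_eq_zero]
        intro hh
        have := hu2 _ hh
        omega
      have c4 := i2 (t - z - h - d)
      refine l1 t ((s1 _).2 ⟨by omega, ?_⟩)
      have e1 : t - (z' : ℤ) - h - c = t - z - h - d := by rw [d3, d2]; push_cast; ring
      rw [e1]; omega

end Pool.Agent.BHR
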