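import Pool.Agent.Lib.MP_7ae50b_co.MLDef

set_option autoImplicit false
set_option linter.unusedSectionVars false

/-! Linear forests from arcs, and the heavy colours. -/

namespace Pool.Agent.Lib.MP_7ae50b_co.ML

open Finset
open scoped Classical

variable {G : Type} [AddCommGroup G] {ab : G → G}

theorem mlarc_aux {ι : Type} (src tgt : ι → G) (f : G → ℕ) (N : ℕ) :
    ∀ (V : Finset G) (P : Finset ι), V.card = N → Set.InjOn src P → Set.InjOn tgt P →
      (∀ i ∈ P, src i ∈ V ∧ tgt i ∈ V) → (∀ i ∈ P, f (src i) < f (tgt i)) →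
      ∃ Hd, SysH ab Hd V.val (P.val.map fun i => ab (tgt i - src i)) ∧
        ∀ y ∈ V, (∀ i ∈ P, tgt i ≠ y) → y ∈ Hd := by
  induction N with
  | zero =>
    intro V P hN _ _ hV _
    obtain rfl := card_eq_zero.1 hN
    obtain rfl : P = ∅ := eq_empty_of_forall_notMem fun i hi => notMem_empty _ (hV i hi).1
    exact ⟨0, SysH.zero, fun y hy => absurd hy (notMem_empty y)⟩
  | succ N ih =>
    intro V P hN hs ht hV hf
    obtain ⟨x, hx, hmin⟩ := exists_min_image V f (card_pos.1 (by omega))
    have hc : (V.erase x).card = N := by rw [card_erase_of_mem hx, hN]; rfl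
    have hin : ∀ i ∈ P, tgt i ≠ x := fun i hi e => by
      have h1 := hf i hi
      have h2 := hmin _ (hV i hi).1
      rw [e] at h1
      omega
    have hVx : x ::ₘ (V.erase x).val = V.val := by
      rw [erase_val]
      exact Multiset.cons_erase hx
    by_cases hex : ∃ i ∈ P, src i = x
    · obtain ⟨i₀, hi₀, e₀⟩ := hex
      have hsub : ((P.erase i₀ : Finset ι) : Set ι) ⊆ P := coe_subset.2 (erase_subset _ _)
      obtain ⟨Hd, h1, h2⟩ := ih (V.erase x) (P.erase i₀) hc (hs.mono hsub) (ht.mono hsub)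
        (fun i hi => ⟨mem_erase.2 ⟨fun e => (mem_erase.1 hi).1
          (hs (mem_erase.1 hi).2 hi₀ (e.trans e₀.symm)), (hV i (mem_erase.1 hi).2).1⟩,
          mem_erase.2 ⟨hin i (mem_erase.1 hi).2, (hV i (mem_erase.1 hi).2).2⟩⟩)
        fun i hi => hf i (mem_erase.1 hi).2
      have hy : tgt i₀ ∈ Hd := h2 _ (mem_erase.2 ⟨hin i₀ hi₀, (hV i₀ hi₀).2⟩)
        fun i hi e => (mem_erase.1 hi).1 (ht (mem_erase.1 hi).2 hi₀ e)
      refine ⟨_, (h1.prepend x hy).cast rfl hVx ?_, fun y hy1 hy2 => ?_⟩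
      · rw [← e₀, erase_val, ← Multiset.map_cons (fun i => ab (tgt i - src i)),
          Multiset.cons_erase hi₀]
      · by_cases e : y = x
        · exact e ▸ Multiset.mem_cons_self _ _
        · exact Multiset.mem_cons_of_mem ((Multiset.mem_erase_of_ne (hy2 i₀ hi₀).symm).2
            (h2 y (mem_erase.2 ⟨e, hy1⟩) fun i hi => hy2 i (mem_erase.1 hi).2))
    · obtain ⟨Hd, h1, h2⟩ := ih (V.erase x) P hc hs ht
        (fun i hi => ⟨mem_erase.2 ⟨fun e => hex ⟨i, hi, e⟩, (hV i hi).1⟩,
          mem_erase.2 ⟨hin i hi, (hV i hi).2⟩⟩) hf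
      refine ⟨_, (SysH.add (Pth.one x) h1).cast rfl
        ((Multiset.singleton_add _ _).trans hVx) (zero_add _), fun y hy1 hy2 => ?_⟩
      by_cases e : y = x
      · exact e ▸ Multiset.mem_cons_self _ _
      · exact Multiset.mem_cons_of_mem (h2 y (mem_erase.2 ⟨e, hy1⟩) hy2)

/-- Prove `SysH ab (V.filter fun y => ∀ i ∈ P, tgt i ≠ y).val V.val _` by induction on `V.card`:
remove a vertex `x` with least `f x` (no arc enters it) and the arc leaving it, if there is one;
then `SysH.prepend` or add the walk `Pth.one x`. -/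
theorem arc {ι : Type} (src tgt : ι → G) (f : G → ℕ) (V : Finset G) (P : Finset ι)
    (hs : Set.InjOn src P) (ht : Set.InjOn tgt P) (hV : ∀ i ∈ P, src i ∈ V ∧ tgt i ∈ V)
    (hf : ∀ i ∈ P, f (src i) < f (tgt i)) :
    ∃ n, Sys ab n V.val (P.val.map fun i => ab (tgt i - src i)) := by
  obtain ⟨Hd, h, -⟩ := mlarc_aux (ab := ab) src tgt f V.card V P rfl hs ht hV hf
  exact ⟨_, Hd, rfl, h⟩

/-- A maximal union of pieces of size at most `m`. -/
theorem take_pieces [Fintype G] {pc : G → G} {T : ℕ}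
    (hT : ∀ g, (univ.filter fun y => pc y = g).card ≤ T) (W : Finset G)
    (hW : ∀ x y, pc x = pc y → x ∈ W → y ∈ W) (m : ℕ) :
    ∃ W' ⊆ W, (∀ x y, pc x = pc y → x ∈ W' → y ∈ W') ∧ W'.card ≤ m ∧
      (W' = W ∨ m ≤ W'.card + T) := by
  obtain ⟨W', h1, hmax⟩ := exists_max_image (W.powerset.filter fun W' =>
    (∀ x y, pc x = pc y → x ∈ W' → y ∈ W') ∧ W'.card ≤ m) card
    ⟨∅, mem_filter.2 ⟨empty_mem_powerset W, fun _ _ _ h => absurd h (notMem_empty _), by simp⟩⟩
  obtain ⟨h2, h3, h4⟩ := mem_filter.1 h1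
  rw [mem_powerset] at h2
  refine ⟨W', h2, h3, h4, ?_⟩
  by_contra hcon
  push Not at hcon
  obtain ⟨x, hx, hx'⟩ := exists_of_ssubset (Finset.ssubset_iff_subset_ne.2 ⟨h2, hcon.1⟩)
  have h5 : (W' ∪ univ.filter fun y => pc y = pc x).card ≤ W'.card + T :=
    (card_union_le _ _).trans (Nat.add_le_add_left (hT _) _)
  have h6 := hmax (W' ∪ univ.filter fun y => pc y = pc x) (mem_filter.2 ⟨mem_powerset.2
    (union_subset h2 fun y hy => hW x y (mem_filter.1 hy).2.symm hx), fun y z e hy => ?_,
    h5.trans hcon.2.le⟩)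
  · refine absurd h6 (not_le.2 (card_lt_card ⟨subset_union_left, fun h => hx' (h ?_)⟩))
    exact mem_union_right _ (mem_filter.2 ⟨mem_univ _, rfl⟩)
  · rcases mem_union.1 hy with hy | hy
    · exact mem_union_left _ (h3 y z e hy)
    · exact mem_union_right _ (mem_filter.2 ⟨mem_univ _, e.symm.trans (mem_filter.1 hy).2⟩)

/-- `arc` with the arcs `x → x + a`, `x ∈ W`, `pc (x + a) = pc x`; `f x` is the least `j` with
`pc (x - (j + 1) • a) ≠ pc x` (it exists: otherwise `T + 1` different elements lie in a piece). -/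
theorem one_colour [Fintype G] {pc : G → G} {T e : ℕ}
    (hT : ∀ g, (univ.filter fun y => pc y = g).card ≤ T) {a : G} (ha : ab a = a)
    (ho : T < addOrderOf a) (cut : (univ.filter fun x => pc (x + a) ≠ pc x).card ≤ e)
    (W : Finset G) (hW : ∀ x y, pc x = pc y → x ∈ W → y ∈ W) :
    ∃ n k, Sys ab n W.val (Multiset.replicate k a) ∧ k ≤ W.card ∧ n ≤ e := by
  have ex : ∀ x, ∃ j : ℕ, pc (x - (j + 1) • a) ≠ pc x := by
    intro x
    by_contra hcon
    push Not at hcon
    have h1 : (range (T + 1)).card ≤ (univ.filter fun y => pc y = pc x).card := by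
      refine card_le_card_of_injOn (fun j => x - j • a) (fun j _ => ?_) fun i hi j hj e => ?_
      · refine mem_coe.2 (mem_filter.2 ⟨mem_univ _, ?_⟩)
        rcases j with _ | j
        · simp
        · exact hcon j
      · have hi' := mem_range.1 (mem_coe.1 hi)
        have hj' := mem_range.1 (mem_coe.1 hj)
        exact nsmul_injOn_Iio_addOrderOf (Set.mem_Iio.2 (by omega)) (Set.mem_Iio.2 (by omega))
          (sub_right_injective e)
    have h2 := hT (pc x)
    rw [card_range] at h1
    omega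
  obtain ⟨n, hn⟩ := arc (ab := ab) (fun x : G => x) (fun x => x + a) (fun x => Nat.find (ex x)) W
    (W.filter fun x => pc (x + a) = pc x) (fun _ _ _ _ h => h)
    (fun _ _ _ _ h => add_right_cancel h)
    (fun x hx => ⟨(mem_filter.1 hx).1, hW x _ (mem_filter.1 hx).2.symm (mem_filter.1 hx).1⟩)
    (fun x hx => by
      refine (Nat.lt_find_iff _ _).2 fun j hj h => h ?_
      rw [(mem_filter.1 hx).2]
      rcases j with _ | j
      · simp
      · have h1 := Nat.find_min (ex x) (m := j) hj
        rw [succ_nsmul, add_sub_add_right_eq_sub]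
        exact not_not.1 h1)
  have hn' : Sys ab n W.val (Multiset.replicate (W.filter fun x => pc (x + a) = pc x).card a) := by
    refine hn.cast rfl rfl ?_
    simp only [add_sub_cancel_left, ha, Multiset.map_const', card_val]
  refine ⟨n, _, hn', card_filter_le _ _, ?_⟩
  have h1 := hn'.card
  have h2 := card_filter_add_card_filter_not (s := W) fun x => pc (x + a) = pc x
  have h3 : (W.filter fun x => ¬ pc (x + a) = pc x).card ≤ e :=
    (card_le_card (filter_subset_filter _ (subset_univ W))).trans cut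
  rw [Multiset.card_replicate, card_val] at h1
  omega

/-- Induction on `Hv` for all `W` (`Sys.singles` for the empty set). -/
theorem heavy [Fintype G] {pc : G → G} {T e : ℕ}
    (hT : ∀ g, (univ.filter fun y => pc y = g).card ≤ T) (m : G → ℕ) (Hv : Finset G)
    (ha : ∀ a ∈ Hv, ab a = a ∧ T < addOrderOf a ∧
      (univ.filter fun x => pc (x + a) ≠ pc x).card ≤ e)
    (W : Finset G) (hW : ∀ x y, pc x = pc y → x ∈ W → y ∈ W) :
    ∃ n C, Sys ab n W.val C ∧ (∀ c, C.count c ≤ if c ∈ Hv then m c else 0) ∧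
      n ≤ (W.card - ∑ a ∈ Hv, m a) + Hv.card * (T + e) := by
  induction Hv using Finset.induction_on generalizing W with
  | empty => exact ⟨_, 0, Sys.singles W.val, fun c => by simp, by simp⟩
  | insert a Hv hna ih =>
    obtain ⟨h1, h2, h3⟩ := ha a (mem_insert_self _ _)
    obtain ⟨W', hs, hc, hm, hor⟩ := take_pieces hT W hW (m a)
    obtain ⟨n₁, k, s1, hk, hn₁⟩ := one_colour hT h1 h2 h3 W' hc
    obtain ⟨n₂, C, s2, hC, hn₂⟩ := ih (fun b hb => ha b (mem_insert_of_mem hb)) (W \ W')
      fun x y e hx => mem_sdiff.2 ⟨hW x y e (mem_sdiff.1 hx).1,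
        fun hy => (mem_sdiff.1 hx).2 (hc y x e.symm hy)⟩
    refine ⟨n₁ + n₂, _, (s1.add s2).cast rfl ?_ rfl, fun c => ?_, ?_⟩
    · rw [sdiff_val, add_tsub_cancel_of_le (val_le_iff.2 hs)]
    · have h4 := hC c
      rw [Multiset.count_add, Multiset.count_replicate]
      by_cases e : a = c
      · subst e
        rw [if_neg hna] at h4
        rw [if_pos rfl, if_pos (mem_insert_self _ _)]
        omega
      · rw [if_neg e, zero_add]
        simpa only [mem_insert, Ne.symm e, false_or] using h4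
    · rw [card_sdiff_of_subset hs] at hn₂
      rw [sum_insert hna, card_insert_of_notMem hna, add_mul, one_mul]
      rcases hor with rfl | hor
      · omega
      · omega

end Pool.Agent.Lib.MP_7ae50b_co.ML
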