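import Pool.Agent.Lib.MP_7ae50b_co.MLTrans

set_option autoImplicit false
set_option linter.unusedSectionVars false

/-! The uniform weighting and its correction. -/

namespace Pool.Agent.Lib.MP_7ae50b_co.ML

open Finset
open scoped Classical

variable {G : Type} [AddCommGroup G] [Fintype G] {ab : G → G} {E : Type} [Fintype E]

/-- The uniform weighting. -/
noncomputable def u0 (V Δ : Finset G) (col : E → G) (x : G) (e : E) : ℝ :=
  if col e ∉ Δ ∧ x ∈ V ∧ x + col e ∈ V then (prs V (col e) : ℝ)⁻¹ else 0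

theorem sum_deg (col : E → G) (u : G → E → ℝ) : ∑ x, deg col u x = 2 * ∑ x, ∑ e, u x e := by
  simp only [deg, sum_add_distrib, two_mul, add_right_inj]
  rw [sum_comm, sum_comm (f := u)]
  exact sum_congr rfl fun e _ => (Equiv.subRight (col e)).sum_comp fun x => u x e

theorem deg_eq_zero {V : Finset G} {col : E → G} {u : G → E → ℝ}
    (hs : ∀ x e, u x e ≠ 0 → x ∈ V ∧ x + col e ∈ V) {x : G} (hx : x ∉ V) : deg col u x = 0 := by
  refine sum_eq_zero fun e _ => ?_
  have h : u (x - col e) e = 0 := not_not.1 fun h => hx (by simpa using (hs _ e h).2)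
  rw [not_not.1 fun h => hx (hs x e h).1, h, add_zero]

/-- `card_filter_col` translates `nb` into counts of indices `e`. -/
theorem u0_facts (V Δ : Finset G) (col : E → G) {p₀ p₁ : ℝ} (h0 : 0 < p₀)
    (hp : ∀ c, c ∉ Δ → p₀ ≤ prs V c ∧ (prs V c : ℝ) ≤ p₁) :
    (∀ x e, 0 ≤ u0 V Δ col x e) ∧ (∀ x e, u0 V Δ col x e ≠ 0 → x ∈ V ∧ x + col e ∈ V) ∧
    (∀ e, ∑ x, u0 V Δ col x e = if col e ∈ Δ then 0 else 1) ∧
    (∀ x c, ∑ e ∈ univ.filter (fun e => col e = c), u0 V Δ col x e ≤
      (univ.val.map col).count c / p₀) ∧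
    (∀ x e, col e ∉ Δ → x ∈ V → x + col e ∈ V → p₁⁻¹ ≤ u0 V Δ col x e) ∧
    ∀ x ∈ V, nb ((univ.val.map col).filter fun c => c ∉ Δ) V x / p₁ ≤ deg col (u0 V Δ col) x ∧
      deg col (u0 V Δ col) x ≤ nb ((univ.val.map col).filter fun c => c ∉ Δ) V x / p₀ := by
  have hb : ∀ x e, ((if col e ∉ Δ ∧ x ∈ V ∧ x + col e ∈ V then 1 else 0) / p₁ ≤ u0 V Δ col x e) ∧
      u0 V Δ col x e ≤ (if col e ∉ Δ ∧ x ∈ V ∧ x + col e ∈ V then 1 else 0) / p₀ := by
    intro x e
    unfold u0
    split_ifs with h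
    · have := hp _ h.1
      rw [one_div, one_div]
      exact ⟨inv_anti₀ (h0.trans_le this.1) this.2, inv_anti₀ h0 this.1⟩
    · simp
  refine ⟨fun x e => ?_, fun x e h => ?_, fun e => ?_, fun x c => ?_, fun x e h1 h2 h3 => ?_,
    fun x hx => ?_⟩
  · unfold u0
    positivity
  · by_contra h'
    exact h (if_neg fun h'' => h' h''.2)
  · split_ifs with h
    · simp [u0, h]
    · have := h0.trans_le (hp _ h).1
      simp only [u0, h, not_false_eq_true, true_and]
      rw [← sum_filter, sum_const, nsmul_eq_mul]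
      exact mul_inv_cancel₀ this.ne'
  · refine (sum_le_card_nsmul _ _ (1 / p₀) fun e _ => (hb x e).2.trans ?_).trans_eq ?_
    · split_ifs
      · rfl
      · rw [zero_div]
        positivity
    · rw [nsmul_eq_mul, mul_one_div, Multiset.count_eq_card_filter_eq, card_filter_col]
      simp only [eq_comm]
  · simpa [h1, h2, h3] using (hb x e).1
  · have e : (nb ((univ.val.map col).filter fun c => c ∉ Δ) V x : ℝ) =
        ∑ e, ((if col e ∉ Δ ∧ x ∈ V ∧ x + col e ∈ V then 1 else 0) +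
          if col e ∉ Δ ∧ x - col e ∈ V ∧ x - col e + col e ∈ V then 1 else 0) := by
      rw [nb, Multiset.filter_filter, Multiset.filter_filter, Nat.cast_add, sum_add_distrib,
        sum_boole, sum_boole]
      congr 2
      · refine (congrArg _ ?_).trans ((card_filter_col col fun c => c ∉ Δ ∧ x ∈ V ∧ x + c ∈ V).trans ?_)
        · convert rfl using 2
          simp [hx, and_comm]
        · convert rfl
      · refine (congrArg _ ?_).trans
          ((card_filter_col col fun c => c ∉ Δ ∧ x - c ∈ V ∧ x - c + c ∈ V).trans ?_)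
        · convert rfl using 2
          simp [hx, and_comm]
        · convert rfl
    rw [e, sum_div, sum_div]
    constructor <;> refine sum_le_sum fun e _ => ?_ <;> rw [add_div]
    · exact add_le_add (hb _ e).1 (hb _ e).1
    · exact add_le_add (hb _ e).2 (hb _ e).2

/-- `trans` with `π x = (deg x - 2) / card V` for `x ∈ V \ O`, `π x = 0` otherwise,
`θ = κ / card V`.  Then `deg' x = 2 + ∑ π` on `V \ O`, `deg' x = deg x + ∑ π` on `V ∩ O`, and
`card V * ∑ π = ∑_{V \ O} (deg - 2) ≤ 2 (total - card V) + 2 card O ≤ 4 ε v`. -/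
theorem boost (H : Ab ab) {h : ℕ} (hh : 1 ≤ h) (col : E → G) (V D O : Finset G) (rep : G → E)
    (hrep : ∀ c ∈ D, col (rep c) = c) (u : G → E → ℝ) {lam κ N₀ a Bd ε : ℝ}
    (hu : ∀ x e, 0 ≤ u x e) (hs : ∀ x e, u x e ≠ 0 → x ∈ V ∧ x + col e ∈ V)
    (he : ∀ e, ∑ x, u x e ≤ 1) (ha : ∀ x c, ∑ e ∈ univ.filter (fun e => col e = c), u x e ≤ a)
    (hlam : ∀ c ∈ D, ∀ x ∈ V, x + c ∈ V → lam ≤ u x (rep c)) (hκ : 0 ≤ κ)
    (hd : ∀ x ∈ V, x ∉ O → |deg col u x - 2| ≤ κ) (hB : ∀ x, deg col u x ≤ Bd)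
    (hO : (O.card : ℝ) ≤ ε * Fintype.card G)
    (ht : |∑ x, ∑ e, u x e - V.card| ≤ ε * Fintype.card G) (hV : 0 < V.card)
    (hN : 0 < N₀) (hch : ∀ a ∈ V, ∀ b ∈ V, N₀ ≤ (Ch ab h 2 V D a b).card)
    (hnum : 4 * h * κ * (Fintype.card G : ℝ) ^ (h - 1) ≤ lam * N₀ * V.card) :
    ∃ u' : G → E → ℝ, Frac V col u' (2 * a) ((4 + Bd) * ε) := by
  have hn : (0 : ℝ) < V.card := Nat.cast_pos.2 hV
  have hd0 : ∀ x, 0 ≤ deg col u x := fun x => sum_nonneg fun e _ => add_nonneg (hu _ _) (hu _ _)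
  have hB0 := (hd0 0).trans (hB 0)
  have hε := (Nat.cast_nonneg _).trans hO
  obtain ⟨π, hπ⟩ : ∃ π : G → ℝ, ∀ x,
      π x = if x ∈ V ∧ x ∉ O then (deg col u x - 2) / V.card else 0 := ⟨_, fun _ => rfl⟩
  obtain ⟨u', h1, h2, h3⟩ := trans H hh col V D rep hrep u hu hlam π (θ := κ / V.card)
    (fun x => by
      rw [hπ]
      split_ifs with h
      · rw [abs_div, abs_of_pos hn]
        exact div_le_div_of_nonneg_right (hd x h.1 h.2) hn.le
      · rw [abs_zero]
        positivity) hN hch (by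
      rw [← div_le_iff₀ hn] at hnum
      exact le_of_eq_of_le (by ring) hnum)
  have h4 : V.card * ∑ y ∈ V, π y ≤ 4 * (ε * Fintype.card G) := by
    have h5 : V.card * ∑ y ∈ V, π y ≤
        ∑ y ∈ V, (deg col u y - 2 + if y ∈ O then 2 else 0) := by
      rw [mul_sum]
      refine sum_le_sum fun y hy => ?_
      rw [hπ]
      by_cases h : y ∈ O
      · simpa [h] using hd0 y
      · simp [h, hy, mul_div_cancel₀ _ hn.ne']
    have h6 := sum_le_sum_of_subset_of_nonneg (subset_univ V) fun x _ _ => hd0 x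
    have h7 : ((V ∩ O).card : ℝ) ≤ O.card := Nat.cast_le.2 (card_le_card inter_subset_right)
    rw [sum_add_distrib, sum_sub_distrib, sum_ite_mem, sum_const, sum_const, nsmul_eq_mul,
      nsmul_eq_mul] at h5
    rw [sum_deg] at h6
    linarith [(abs_le.1 ht).2]
  refine ⟨u', fun x e => (h1 x e).1, fun x e h => hs x e fun h0 => h ?_, fun e => h2 e ▸ he e,
    fun x c => ?_, ?_, ?_⟩
  · exact le_antisymm (by simpa [h0] using (h1 x e).2) (h1 x e).1
  · refine (sum_le_sum fun e _ => (h1 x e).2).trans ?_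
    rw [← mul_sum]
    linarith [ha x c]
  · have h5 : ∑ x, max (deg col u' x - 2) 0 ≤ ∑ x, ((if x ∈ V then max (∑ y ∈ V, π y) 0 else 0) +
        if x ∈ O then Bd else 0) := by
      refine sum_le_sum fun x _ => ?_
      rw [h3, hπ x]
      have := le_max_left (∑ y ∈ V, π y) 0
      have := le_max_right (∑ y ∈ V, π y) 0
      by_cases hx : x ∈ V
      · by_cases h : x ∈ O
        · simp only [hx, h, if_true, not_true, and_false, if_false]
          exact max_le (by linarith [hB x]) (by linarith)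
        · simp only [hx, h, if_true, if_false, not_false_eq_true, and_self,
            mul_div_cancel₀ _ hn.ne']
          exact max_le (by linarith) (by linarith)
      · simp only [hx, if_false, deg_eq_zero hs hx]
        exact max_le (by split_ifs <;> linarith) (by split_ifs <;> linarith)
    rw [sum_add_distrib, sum_ite_mem, sum_ite_mem, univ_inter, univ_inter, sum_const, sum_const,
      nsmul_eq_mul, nsmul_eq_mul, mul_max_of_nonneg _ _ hn.le, mul_zero] at h5
    have := max_le h4 (by positivity : 0 ≤ 4 * (ε * Fintype.card G))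
    nlinarith [mul_le_mul_of_nonneg_right hO hB0]
  · rw [sum_comm, sum_congr rfl fun e _ => h2 e, sum_comm]
    nlinarith [(abs_le.1 ht).1, mul_nonneg hB0 hε]

end Pool.Agent.Lib.MP_7ae50b_co.ML
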