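import Pool.Agent.Lib.MP_7ae50b_co.MLDef

set_option autoImplicit false
set_option linter.unusedSectionVars false

/-! Cutting the group into bounded pieces, and the choice of the thresholds. -/

namespace Pool.Agent.Lib.MP_7ae50b_co.ML

open Finset
open scoped Classical

/-- If `1 ≤ f 0`, `f R ≤ (2 R + 1) ^ k` then `f (r + 1) ≤ (1 + ε) f r` for some `r < R`. -/
theorem slow (k : ℕ) {ε : ℝ} (hε : 0 < ε) : ∃ R : ℕ, ∀ f : ℕ → ℕ, 1 ≤ f 0 →
    f R ≤ (2 * R + 1) ^ k → ∃ r < R, (f (r + 1) : ℝ) ≤ (1 + ε) * f r := by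
  have h1 : (1 : ℝ) < 1 + ε := by linarith
  obtain ⟨R, h2, h3⟩ := (((tendsto_pow_const_div_const_pow_of_one_lt k h1).eventually
    (gt_mem_nhds (show (0 : ℝ) < (3 ^ k)⁻¹ by positivity))).and (Filter.eventually_ge_atTop 1)).exists
  refine ⟨R, fun f h0 hR => ?_⟩
  by_contra h4
  push Not at h4
  have h5 : ∀ r ≤ R, (1 + ε) ^ r ≤ (f r : ℝ) := fun r => by
    induction r with
    | zero => exact fun _ => by simpa using h0
    | succ r ih =>
      intro hr
      rw [pow_succ']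
      exact (mul_le_mul_of_nonneg_left (ih (by omega)) (by linarith)).trans (h4 r hr).le
  have h6 : (f R : ℝ) ≤ 3 ^ k * (R : ℝ) ^ k := by
    rw [← mul_pow]
    exact_mod_cast hR.trans (Nat.pow_le_pow_left (by omega) k)
  rw [div_lt_iff₀ (by positivity), inv_mul_eq_div, lt_div_iff₀ (by positivity)] at h2
  linarith [h5 R le_rfl]

section Box

variable {G : Type} [AddCommGroup G] (Hv : Finset G)

/-- The sums with coefficients of size at most `r`. -/
noncomputable def mlcarveB (r : ℕ) : Finset G :=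
  (Fintype.piFinset fun _ : Hv => Icc (-(r : ℤ)) r).image fun n => ∑ a : Hv, n a • (a : G)

theorem mlcarve_mem {r : ℕ} {x : G} :
    x ∈ mlcarveB Hv r ↔ ∃ n : Hv → ℤ, (∀ a, -(r : ℤ) ≤ n a ∧ n a ≤ r) ∧ ∑ a, n a • (a : G) = x := by
  simp [mlcarveB]

theorem mlcarve_card {k : ℕ} (hk : Hv.card ≤ k) (r : ℕ) :
    (mlcarveB Hv r).card ≤ (2 * r + 1) ^ k := by
  refine card_image_le.trans ?_
  rw [Fintype.card_piFinset, prod_const, card_univ, Fintype.card_coe, Int.card_Icc,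
    show ((r : ℤ) + 1 - -r).toNat = 2 * r + 1 by omega]
  exact Nat.pow_le_pow_right (by omega) hk

theorem mlcarve_zero (r : ℕ) : (0 : G) ∈ mlcarveB Hv r :=
  (mlcarve_mem Hv).2 ⟨0, fun _ => by simp, by simp⟩

theorem mlcarve_sub {r s t : ℕ} {x y : G} (hx : x ∈ mlcarveB Hv r) (hy : y ∈ mlcarveB Hv s)
    (h : r + s ≤ t) : x - y ∈ mlcarveB Hv t := by
  obtain ⟨n, hn, rfl⟩ := (mlcarve_mem Hv).1 hx
  obtain ⟨m, hm, rfl⟩ := (mlcarve_mem Hv).1 hy
  refine (mlcarve_mem Hv).2 ⟨n - m, fun a => ?_, by simp [sub_smul]⟩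
  have := hn a
  have := hm a
  simp only [Pi.sub_apply]
  omega

theorem mlcarve_one {a : G} (ha : a ∈ Hv) : a ∈ mlcarveB Hv 1 := by
  refine (mlcarve_mem Hv).2 ⟨Pi.single ⟨a, ha⟩ 1, fun b => ?_, ?_⟩
  · rw [Pi.single_apply]
    split_ifs <;> simp
  · rw [Fintype.sum_eq_single ⟨a, ha⟩ fun b hb => by simp [hb]]
    simp

theorem mlcarve_ind {k R : ℕ} {ε : ℝ} (hk : Hv.card ≤ k) (hR : ∀ f : ℕ → ℕ, 1 ≤ f 0 →
    f R ≤ (2 * R + 1) ^ k → ∃ r < R, (f (r + 1) : ℝ) ≤ (1 + ε / 2) * f r) (W : Finset G) :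
    ∃ pc : G → G, (∀ x ∈ W, pc x ∈ W) ∧
      (∀ x ∈ W, ∀ y ∈ W, pc x = pc y → x - y ∈ mlcarveB Hv (2 * R)) ∧
      ∀ a ∈ Hv, ((W.filter fun x => x + a ∈ W ∧ pc (x + a) ≠ pc x).card : ℝ) ≤ ε * W.card := by
  induction W using Finset.strongInduction with
  | H W ih =>
  rcases W.eq_empty_or_nonempty with rfl | ⟨x₀, hx₀⟩
  · exact ⟨id, by simp, by simp, by simp⟩
  have h0 : ∀ r, x₀ ∈ W.filter fun x => x - x₀ ∈ mlcarveB Hv r := fun r =>
    mem_filter.2 ⟨hx₀, by rw [sub_self]; exact mlcarve_zero Hv r⟩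
  obtain ⟨r, hr, h1⟩ := hR (fun r => (W.filter fun x => x - x₀ ∈ mlcarveB Hv r).card)
    (card_pos.2 ⟨x₀, h0 0⟩) ((card_le_card_of_injOn (fun x => x - x₀)
      (fun x hx => (mem_filter.1 hx).2) fun x _ y _ e => sub_left_injective e).trans
      (mlcarve_card Hv hk R))
  set P := W.filter fun x => x - x₀ ∈ mlcarveB Hv r with hP
  set Q := W.filter fun x => x - x₀ ∈ mlcarveB Hv (r + 1) with hQ
  have hx : x₀ ∈ P := h0 r
  have hPW : P ⊆ W := filter_subset _ _
  have hPQ : P ⊆ Q := fun x hx => mem_filter.2 ⟨hPW hx, by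
    simpa using mlcarve_sub Hv (mem_filter.1 hx).2 (mlcarve_zero Hv 0) (Nat.le_succ r)⟩
  obtain ⟨pc, h2, h3, h4⟩ := ih (W \ P) (sdiff_ssubset hPW ⟨x₀, hx⟩)
  refine ⟨fun x => if x ∈ P then x₀ else pc x, fun x hxW => ?_, fun x hxW y hyW => ?_,
    fun a ha => ?_⟩
  · dsimp only
    split_ifs with h5
    exacts [hx₀, (mem_sdiff.1 (h2 x (mem_sdiff.2 ⟨hxW, h5⟩))).1]
  · dsimp only
    split_ifs with h5 h6 h6 <;> intro e
    · simpa using mlcarve_sub Hv (mem_filter.1 h5).2 (mem_filter.1 h6).2 (t := 2 * R) (by omega)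
    · exact absurd (e ▸ hx) (mem_sdiff.1 (h2 y (mem_sdiff.2 ⟨hyW, h6⟩))).2
    · exact absurd (e ▸ hx) (mem_sdiff.1 (h2 x (mem_sdiff.2 ⟨hxW, h5⟩))).2
    · exact h3 x (mem_sdiff.2 ⟨hxW, h5⟩) y (mem_sdiff.2 ⟨hyW, h6⟩) e
  · have h5 : (W.filter fun x => x + a ∈ W ∧
        (if x + a ∈ P then x₀ else pc (x + a)) ≠ if x ∈ P then x₀ else pc x) ⊆
        ((W \ P).filter fun x => x + a ∈ W \ P ∧ pc (x + a) ≠ pc x) ∪
          (Q \ P ∪ (Q \ P).image fun y => y - a) := by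
      intro x hxx
      obtain ⟨hxW, haW, hne⟩ := mem_filter.1 hxx
      rw [mem_union, mem_union]
      split_ifs at hne with h6 h7 h7
      · exact absurd rfl hne
      · refine Or.inr (Or.inl (mem_sdiff.2 ⟨mem_filter.2 ⟨hxW, ?_⟩, h7⟩))
        have h8 := mlcarve_sub Hv (mem_filter.1 h6).2 (mlcarve_one Hv ha) le_rfl
        rwa [show x + a - x₀ - a = x - x₀ by abel] at h8
      · refine Or.inr (Or.inr (mem_image.2 ⟨x + a, mem_sdiff.2 ⟨mem_filter.2 ⟨haW, ?_⟩, h6⟩,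
          add_sub_cancel_right _ _⟩))
        have h8 := mlcarve_sub Hv (mem_filter.1 h7).2
          (mlcarve_sub Hv (mlcarve_zero Hv 0) (mlcarve_one Hv ha) le_rfl) le_rfl
        rwa [show x - x₀ - (0 - a) = x + a - x₀ by abel] at h8
      · exact Or.inl (mem_filter.2 ⟨mem_sdiff.2 ⟨hxW, h7⟩, mem_sdiff.2 ⟨haW, h6⟩, hne⟩)
    have h6 := (card_le_card h5).trans ((card_union_le _ _).trans
      (add_le_add le_rfl ((card_union_le _ _).trans (add_le_add le_rfl card_image_le))))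
    have h7 : ((Q \ P).card : ℝ) + P.card = Q.card := by
      exact_mod_cast card_sdiff_add_card_eq_card hPQ
    have h8 : ((W \ P).card : ℝ) + P.card = W.card := by
      exact_mod_cast card_sdiff_add_card_eq_card hPW
    have h9 := h4 a ha
    refine (Nat.cast_le.2 h6).trans ?_
    push_cast
    rw [← h8]
    linarith

end Box

theorem mlcarve_sum {G : Type} (J : ℕ) (p : ℕ → G → Prop) [∀ j, DecidablePred (p j)]
    (h : ∀ i j c, i < j → p i c → p j c → False) (M : Multiset G) :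
    ∑ j ∈ range J, Multiset.card (M.filter (p j)) ≤ Multiset.card M := by
  induction M using Multiset.induction_on with
  | empty => simp
  | cons c M ih =>
    have h1 : ((range J).filter fun j => p j c).card ≤ 1 := card_le_one.2 fun i hi j hj => by
      rcases lt_trichotomy i j with e | e | e
      exacts [(h i j c e (mem_filter.1 hi).2 (mem_filter.1 hj).2).elim, e,
        (h j i c e (mem_filter.1 hj).2 (mem_filter.1 hi).2).elim]
    have h2 : ∀ j, Multiset.card ((c ::ₘ M).filter (p j)) =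
        (if p j c then 1 else 0) + Multiset.card (M.filter (p j)) := fun j => by
      rw [Multiset.filter_cons, Multiset.card_add]
      split_ifs <;> rfl
    rw [card_filter] at h1
    simp only [h2, sum_add_distrib, Multiset.card_cons]
    omega

/-- Let `Bx r` be the set of the sums `∑ a ∈ Hv, n a • a` with `|n a| ≤ r`; it has at most
`(2 r + 1) ^ k` elements; `Δ = Bx (2 R)`.  Prove by strong induction on a finset `W` that there is
`pc` with `pc x ∈ W` for `x ∈ W`, `pc x = pc y → x - y ∈ Δ` on `W`, and for each `a ∈ Hv` at most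
`ε card W` elements `x` with `x, x + a ∈ W`, `pc (x + a) ≠ pc x`: pick `x₀ ∈ W`, `r` from `slow`
(with `ε / 2`) for `f r = card (W ∩ (x₀ + Bx r))`, put `pc = x₀` on `P = W ∩ (x₀ + Bx r)` and use
the induction hypothesis for `W \ P`.  An edge with one end in `P` and the other in `W \ P` has the
other end in `W ∩ (x₀ + Bx (r + 1)) \ P`. -/
theorem carve (k : ℕ) {ε : ℝ} (hε : 0 < ε) : ∃ T : ℕ, 1 ≤ T ∧
    ∀ (G : Type) [AddCommGroup G] [Fintype G] (Hv : Finset G), Hv.card ≤ k →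
      ∃ (pc : G → G) (Δ : Finset G), Δ.card ≤ T ∧ (∀ x y, pc x = pc y → x - y ∈ Δ) ∧
        ∀ a ∈ Hv, ((univ.filter fun x => pc (x + a) ≠ pc x).card : ℝ) ≤ ε * Fintype.card G := by
  obtain ⟨R, hR⟩ := slow k (half_pos hε)
  refine ⟨(2 * (2 * R) + 1) ^ k, Nat.one_le_pow _ _ (by omega), fun G _ _ Hv hk => ?_⟩
  obtain ⟨pc, -, h1, h2⟩ := mlcarve_ind Hv hk hR univ
  refine ⟨pc, mlcarveB Hv (2 * R), mlcarve_card Hv hk _,
    fun x y => h1 x (mem_univ _) y (mem_univ _), fun a ha => ?_⟩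
  simpa using h2 a ha

/-- `K 0 = 0`, `K (j + 1) = max (K j) (F (K j))`, `N = K J`; the `J` classes are disjoint. -/
theorem pig {J : ℕ} (hJ : 0 < J) (F : ℕ → ℕ) : ∃ N : ℕ, ∀ (G : Type) (L : Multiset G) (v : ℕ),
    Multiset.card L ≤ v → ∃ K, F K ≤ N ∧ K ≤ N ∧
      J * Multiset.card (L.filter fun c => v < F K * L.count c ∧ K * L.count c < v) ≤ v := by
  obtain ⟨K, hK⟩ : ∃ K : ℕ → ℕ, ∀ j, K (j + 1) = max (K j) (F (K j)) :=
    ⟨fun j => Nat.rec 0 (fun _ x => max x (F x)) j, fun _ => rfl⟩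
  have h1 : Monotone K := monotone_nat_of_le_succ fun j => by
    rw [hK]
    exact le_max_left _ _
  have h2 : ∀ i j, i < j → F (K i) ≤ K j := fun i j h =>
    le_trans (by rw [hK]; exact le_max_right _ _) (h1 (Nat.succ_le_of_lt h))
  refine ⟨K J, fun G L v hv => ?_⟩
  have h3 := mlcarve_sum J (fun j c => v < F (K j) * L.count c ∧ K j * L.count c < v)
    (fun i j c hij hi hj => by
      have := Nat.mul_le_mul_right (L.count c) (h2 i j hij)
      omega) L
  obtain ⟨j, hj, h4⟩ := exists_le_of_sum_le (s := range J) (nonempty_range_iff.2 hJ.ne')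
    (f := fun j => J * Multiset.card
      (L.filter fun c => v < F (K j) * L.count c ∧ K j * L.count c < v)) (g := fun _ => v) (by
      rw [← mul_sum, sum_const, card_range, smul_eq_mul]
      exact Nat.mul_le_mul_left J (h3.trans hv))
  exact ⟨K j, h2 j J (mem_range.1 hj), h1 (mem_range.1 hj).le, h4⟩

end Pool.Agent.Lib.MP_7ae50b_co.ML
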