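import Pool.Agent.Lib.MP_7ae50b_co.MLDef

set_option autoImplicit false
set_option linter.unusedSectionVars false

/-! Counting chains that satisfy one more linear equation. -/

namespace Pool.Agent.Lib.MP_7ae50b_co.ML

open Finset
open scoped Classical

variable {G : Type} [AddCommGroup G] [Fintype G] {ab : G → G} {h m : ℕ}

theorem Dbl.smul_inj (hD : Dbl G) (hm : m = 1 ∨ m = 2) : Function.Injective fun g : G => m • g := by
  intro g g' e
  rcases hm with rfl | rfl
  · simpa using e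
  · refine sub_eq_zero.1 (hD _ ?_)
    simp only [two_nsmul] at e
    rw [sub_add_sub_comm, e, sub_self]

theorem mlcnt_forget (A : Finset (Fin h → G)) (T : Finset (Fin h))
    (hA : ∀ β ∈ A, ∀ β' ∈ A, (∀ l, l ∉ T → β l = β' l) → β = β') :
    A.card ≤ Fintype.card G ^ (h - T.card) := by
  have e : Fintype.card ({l // l ∉ T} → G) = Fintype.card G ^ (h - T.card) := by
    rw [Fintype.card_fun, Fintype.card_subtype_compl, Fintype.card_fin, Fintype.card_coe]
  rw [← e, ← card_univ]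
  exact card_le_card_of_injOn (fun β l => β l.1) (fun _ _ => mem_coe.2 (mem_univ _))
    fun β hβ β' hβ' e => hA β hβ β' hβ' fun l hl => congrFun e ⟨l, hl⟩

/-- Forget one coordinate: the map to `{l // l ≠ i} → G` is injective on the set. -/
theorem one_eq (hD : Dbl G) (hm : m = 1 ∨ m = 2) (hh : 1 ≤ h) (y : G) :
    (univ.filter fun β : Fin h → G => m • ∑ l, β l = y).card ≤ Fintype.card G ^ (h - 1) := by
  refine mlcnt_forget _ {⟨0, hh⟩} fun β hβ β' hβ' e => ?_
  have h1 : ∑ l, β l = ∑ l, β' l :=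
    hD.smul_inj hm ((mem_filter.1 hβ).2.trans (mem_filter.1 hβ').2.symm)
  rw [← sub_eq_zero, ← sum_sub_distrib, sum_eq_single ⟨0, hh⟩
    (fun l _ hl => sub_eq_zero.2 (e l (by simpa using hl))) (by simp), sub_eq_zero] at h1
  funext l
  by_cases hl : l = ⟨0, hh⟩
  · rw [hl, h1]
  · exact e l (by simpa using hl)

/-- Forget the coordinates `i ≠ j`: if two solutions agree elsewhere, their difference `d` has
`d i + d j = 0` and `k i • d i + k j • d j = 0`, so `(k i - k j) • d i = 0`. -/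
theorem two_eq (hD : Dbl G) (hm : m = 1 ∨ m = 2) (k : Fin h → ℤ) {i j : Fin h}
    (hk : k i - k j = 1 ∨ k i - k j = 2) (y x : G) :
    (univ.filter fun β : Fin h → G => m • ∑ l, β l = y ∧ ∑ l, k l • β l = x).card ≤
      Fintype.card G ^ (h - 2) := by
  have hij : i ≠ j := by
    rintro rfl
    omega
  rw [← card_pair hij]
  refine mlcnt_forget _ {i, j} fun β hβ β' hβ' e => ?_
  have h1 : ∑ l, β l = ∑ l, β' l :=
    hD.smul_inj hm ((mem_filter.1 hβ).2.1.trans (mem_filter.1 hβ').2.1.symm)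
  have h2 := (mem_filter.1 hβ).2.2.trans (mem_filter.1 hβ').2.2.symm
  rw [← sub_eq_zero, ← sum_sub_distrib, ← sum_subset (subset_univ {i, j})
    (fun l _ hl => by rw [e l hl, sub_self]), sum_pair hij] at h1 h2
  have h3 : β j - β' j = -(β i - β' i) := eq_neg_of_add_eq_zero_right h1
  rw [← smul_sub, ← smul_sub, h3, smul_neg, ← sub_eq_add_neg, ← sub_smul] at h2
  have h4 : β i - β' i = 0 := by
    rcases hk with hk | hk <;> rw [hk] at h2
    · simpa using h2
    · exact hD _ (by rwa [two_smul] at h2)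
  rw [h4, neg_zero] at h3
  funext l
  by_cases hl : l ∈ ({i, j} : Finset (Fin h))
  · rcases mem_insert.1 hl with rfl | hl
    · exact sub_eq_zero.1 h4
    · rw [mem_singleton.1 hl]
      exact sub_eq_zero.1 h3
  · exact e l hl

theorem mlcnt_last {a b : G} {β : Fin h → G} (e : pt m a β (m * h) = b) : m • ∑ l, β l = b - a := by
  rw [← e, pt_last, add_sub_cancel_left]

theorem card_Ch_le (hD : Dbl G) (hm : m = 1 ∨ m = 2) (hh : 3 ≤ h) (S D : Finset G) (a b : G) :
    (Ch ab h m S D a b).card ≤ Fintype.card G ^ (h - 1) := by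
  refine le_trans (card_le_card fun β hβ => ?_) (one_eq hD hm (by omega) (b - a))
  exact mem_filter.2 ⟨mem_univ _, mlcnt_last (mem_Ch.1 hβ).1⟩

/-- `k l = min m (s - m * l)`, `i` the first and `j` the last index. -/
theorem hit_pt (hD : Dbl G) (hm : m = 1 ∨ m = 2) (hh : 3 ≤ h) (a b x : G) {s : ℕ} (h0 : 0 < s)
    (h1 : s < m * h) :
    (univ.filter fun β : Fin h → G => pt m a β (m * h) = b ∧ pt m a β s = x).card ≤
      Fintype.card G ^ (h - 2) := by
  refine le_trans (card_le_card fun β hβ => ?_) (two_eq hD hm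
    (fun l => ((min m (s - m * l) : ℕ) : ℤ)) (i := ⟨0, by omega⟩) (j := ⟨h - 1, by omega⟩) ?_
    (b - a) (x - a))
  · refine mem_filter.2 ⟨mem_univ _, mlcnt_last (mem_filter.1 hβ).2.1, ?_⟩
    rw [← (mem_filter.1 hβ).2.2, pt, add_sub_cancel_left]
    simp only [natCast_zsmul]
  · rcases hm with rfl | rfl <;> simp only <;> omega

theorem mlcnt_other (hh : 3 ≤ h) (l l' : Fin h) : ∃ j : Fin h, j ≠ l ∧ j ≠ l' := by
  have : ({l, l'} : Finset (Fin h)).card < (univ : Finset (Fin h)).card := by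
    rw [card_univ, Fintype.card_fin]
    exact card_le_two.trans_lt hh
  obtain ⟨j, _, hj⟩ := exists_mem_notMem_of_card_lt_card this
  exact ⟨j, by simpa using hj⟩

theorem mlcnt_single (β : Fin h → G) (l : Fin h) :
    ∑ i, (Pi.single l 1 : Fin h → ℤ) i • β i = β l := by
  rw [sum_eq_single l (fun i _ hi => by simp [hi]) (by simp)]
  simp

/-- `β l = c` or `β l = -c` (`Ab.mem`). -/
theorem hit_col (H : Ab ab) (hD : Dbl G) (hm : m = 1 ∨ m = 2) (hh : 3 ≤ h) (a b c : G) (l : Fin h) :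
    (univ.filter fun β : Fin h → G => pt m a β (m * h) = b ∧ ab (β l) = c).card ≤
      2 * Fintype.card G ^ (h - 2) := by
  obtain ⟨j, hj, -⟩ := mlcnt_other hh l l
  have key := fun x => two_eq hD hm (Pi.single l 1) (i := l) (j := j) (by simp [hj]) (b - a) x
  rw [two_mul]
  refine le_trans (card_le_card fun β hβ => ?_) ((card_union_le _ _).trans
    (add_le_add (key c) (key (-c))))
  obtain ⟨h1, h2⟩ := (mem_filter.1 hβ).2
  simp only [mem_union, mem_filter, mem_univ, true_and, mlcnt_last h1, mlcnt_single]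
  rcases H.mem (β l) with e | e
  · exact Or.inl (e.symm.trans h2)
  · exact Or.inr (by rw [← h2, e, neg_neg])

/-- `k l = min m (s' - m * l) - min m (s - m * l)` takes values in `{0, 1, 2}` and is not constant
(compare the indices `0`, `1`, `h - 1` and the one containing `s`; here `h ≥ 3` is used). -/
theorem hit_pt_pt (hD : Dbl G) (hm : m = 1 ∨ m = 2) (hh : 3 ≤ h) (a b : G) {s s' : ℕ} (h0 : 0 < s)
    (h1 : s < s') (h2 : s' < m * h) :
    (univ.filter fun β : Fin h → G => pt m a β (m * h) = b ∧ pt m a β s = pt m a β s').card ≤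
      Fintype.card G ^ (h - 2) := by
  obtain ⟨i, j, hk⟩ : ∃ i j : Fin h, ((min m (s' - m * i) : ℕ) : ℤ) - (min m (s - m * i) : ℕ) -
      ((min m (s' - m * j) : ℕ) - (min m (s - m * j) : ℕ)) = 1 ∨
      ((min m (s' - m * i) : ℕ) : ℤ) - (min m (s - m * i) : ℕ) -
      ((min m (s' - m * j) : ℕ) - (min m (s - m * j) : ℕ)) = 2 := by
    rcases hm with rfl | rfl
    · exact ⟨⟨s, by omega⟩, ⟨0, by omega⟩, by simp only; omega⟩
    · by_cases h3 : 2 ≤ s
      · exact ⟨⟨s / 2, by omega⟩, ⟨0, by omega⟩, by simp only; omega⟩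
      · by_cases h4 : s' = 2 * h - 1
        · exact ⟨⟨1, by omega⟩, ⟨0, by omega⟩, by simp only; omega⟩
        · exact ⟨⟨0, by omega⟩, ⟨h - 1, by omega⟩, by simp only; omega⟩
  refine le_trans (card_le_card fun β hβ => ?_) (two_eq hD hm
    (fun l => ((min m (s' - m * l) : ℕ) : ℤ) - (min m (s - m * l) : ℕ)) hk (b - a) 0)
  refine mem_filter.2 ⟨mem_univ _, mlcnt_last (mem_filter.1 hβ).2.1, ?_⟩
  have e := (mem_filter.1 hβ).2.2
  rw [pt, pt, add_right_inj] at e
  simp only [sub_smul, natCast_zsmul, sum_sub_distrib, e, sub_self]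

/-- `β l = β l'` or `β l = -β l'` (`Ab.eq_or`); use a third index. -/
theorem hit_col_col (H : Ab ab) (hD : Dbl G) (hm : m = 1 ∨ m = 2) (hh : 3 ≤ h) (a b : G)
    {l l' : Fin h} (hl : l ≠ l') :
    (univ.filter fun β : Fin h → G => pt m a β (m * h) = b ∧ ab (β l) = ab (β l')).card ≤
      2 * Fintype.card G ^ (h - 2) := by
  obtain ⟨j, hj, hj'⟩ := mlcnt_other hh l l'
  have k1 := two_eq hD hm (Pi.single l 1 - Pi.single l' 1) (i := l) (j := j)
    (by simp [hj, hj', hl]) (b - a) 0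
  have k2 := two_eq hD hm (Pi.single l 1 + Pi.single l' 1) (i := l) (j := j)
    (by simp [hj, hj', hl]) (b - a) 0
  rw [two_mul]
  refine le_trans (card_le_card fun β hβ => ?_) ((card_union_le _ _).trans (add_le_add k1 k2))
  obtain ⟨h1, h2⟩ := (mem_filter.1 hβ).2
  simp only [mem_union, mem_filter, mem_univ, true_and, mlcnt_last h1, Pi.sub_apply, Pi.add_apply,
    sub_smul, add_smul, sum_sub_distrib, sum_add_distrib, mlcnt_single]
  exact (H.eq_or h2).imp sub_eq_zero.2 fun e => by rw [e, neg_add_cancel]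

theorem hit_set (H : Ab ab) (hD : Dbl G) (hm : m = 1 ∨ m = 2) (hh : 3 ≤ h) (a b : G)
    (X Y : Finset G) :
    (univ.filter fun β : Fin h → G => pt m a β (m * h) = b ∧
      ((∃ s, 0 < s ∧ s < m * h ∧ pt m a β s ∈ X) ∨ ∃ l, ab (β l) ∈ Y)).card ≤
      2 * h * (X.card + Y.card) * Fintype.card G ^ (h - 2) := by
  have k1 := card_biUnion_le_card_mul (range (m * h) ×ˢ X) (fun z => if 0 < z.1 then
    univ.filter fun β : Fin h → G => pt m a β (m * h) = b ∧ pt m a β z.1 = z.2 else ∅)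
    (Fintype.card G ^ (h - 2)) fun z hz => by
      split_ifs with h0
      · exact hit_pt hD hm hh a b _ h0 (mem_range.1 (mem_product.1 hz).1)
      · simp
  have k2 := card_biUnion_le_card_mul ((univ : Finset (Fin h)) ×ˢ Y) (fun z =>
    univ.filter fun β : Fin h → G => pt m a β (m * h) = b ∧ ab (β z.1) = z.2)
    (2 * Fintype.card G ^ (h - 2)) fun z _ => hit_col H hD hm hh a b _ _
  refine le_trans (card_le_card fun β hβ => ?_) ((card_union_le _ _).trans
    ((add_le_add k1 k2).trans ?_))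
  · obtain ⟨h1, ⟨s, h2, h3, h4⟩ | ⟨l, h2⟩⟩ := (mem_filter.1 hβ).2
    · refine mem_union_left _ (mem_biUnion.2 ⟨(s, _), mem_product.2 ⟨mem_range.2 h3, h4⟩, ?_⟩)
      rw [if_pos h2]
      exact mem_filter.2 ⟨mem_univ _, h1, rfl⟩
    · exact mem_union_right _ (mem_biUnion.2 ⟨(l, _), mem_product.2 ⟨mem_univ _, h2⟩,
        mem_filter.2 ⟨mem_univ _, h1, rfl⟩⟩)
  · rw [card_product, card_product, card_range, card_univ, Fintype.card_fin]
    have : m * h * X.card * Fintype.card G ^ (h - 2) ≤ 2 * h * X.card * Fintype.card G ^ (h - 2) := by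
      gcongr
      omega
    nlinarith

theorem ch_remove (H : Ab ab) (hD : Dbl G) (hm : m = 1 ∨ m = 2) (hh : 3 ≤ h) (S D X Y : Finset G)
    (a b : G) : (Ch ab h m S D a b).card ≤ (Ch ab h m (S \ X) (D \ Y) a b).card +
      2 * h * (X.card + Y.card) * Fintype.card G ^ (h - 2) := by
  refine le_trans (card_le_card fun β hβ => ?_) ((card_union_le _ _).trans
    (add_le_add le_rfl (hit_set H hD hm hh a b X Y)))
  obtain ⟨h1, h2, h3⟩ := mem_Ch.1 hβ
  rw [mem_union, or_iff_not_imp_right]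
  intro hn
  rw [mem_filter, not_and, not_and, not_or, not_exists, not_exists] at hn
  obtain ⟨h4, h5⟩ := hn (mem_univ _) h1
  exact mem_Ch.2 ⟨h1, fun l => mem_sdiff.2 ⟨h2 l, h5 l⟩,
    fun s a1 a2 => mem_sdiff.2 ⟨h3 s a1 a2, fun e => h4 s ⟨a1, a2, e⟩⟩⟩

theorem exists_chain (H : Ab ab) (hD : Dbl G) (hm : m = 1 ∨ m = 2) (hh : 3 ≤ h) {S D : Finset G}
    {a b : G} {φ : ℕ}
    (hc : (4 * h * φ + 6 * h ^ 2) * Fintype.card G ^ (h - 2) < (Ch ab h m S D a b).card)
    (UV UC : Multiset G) (hV : Multiset.card UV ≤ φ) (hC : Multiset.card UC ≤ φ) :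
    ∃ β ∈ Ch ab h m S D a b, (∀ s, 0 < s → s < m * h → pt m a β s ∉ UV) ∧ (∀ l, ab (β l) ∉ UC) ∧
      (∀ s s', 0 < s → s < s' → s' < m * h → pt m a β s ≠ pt m a β s') ∧
      Function.Injective fun l => ab (β l) := by
  have k0 := ch_remove H hD hm hh S D UV.toFinset UC.toFinset a b
  have k1 := card_biUnion_le_card_mul (range (m * h) ×ˢ range (m * h)) (fun z =>
    if 0 < z.1 ∧ z.1 < z.2 then univ.filter fun β : Fin h → G =>
      pt m a β (m * h) = b ∧ pt m a β z.1 = pt m a β z.2 else ∅)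
    (Fintype.card G ^ (h - 2)) fun z hz => by
      split_ifs with h0
      · exact hit_pt_pt hD hm hh a b h0.1 h0.2 (mem_range.1 (mem_product.1 hz).2)
      · simp
  have k2 := card_biUnion_le_card_mul ((univ : Finset (Fin h)) ×ˢ (univ : Finset (Fin h))) (fun z =>
    if z.1 ≠ z.2 then univ.filter fun β : Fin h → G =>
      pt m a β (m * h) = b ∧ ab (β z.1) = ab (β z.2) else ∅)
    (2 * Fintype.card G ^ (h - 2)) fun z _ => by
      split_ifs with h0
      · exact hit_col_col H hD hm hh a b h0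
      · simp
  have k3 := ((card_union_le _ _).trans (add_le_add k1 k2)).trans_lt
    (show _ < (Ch ab h m (S \ UV.toFinset) (D \ UC.toFinset) a b).card by
      rw [card_product, card_product, card_range, card_univ, Fintype.card_fin]
      have e1 := (Multiset.toFinset_card_le UV).trans hV
      have e2 := (Multiset.toFinset_card_le UC).trans hC
      have e3 : m * h * (m * h) * Fintype.card G ^ (h - 2) ≤
          2 * h * (2 * h) * Fintype.card G ^ (h - 2) := by
        gcongr <;> omega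
      have e4 : 2 * h * (UV.toFinset.card + UC.toFinset.card) * Fintype.card G ^ (h - 2) ≤
          2 * h * (φ + φ) * Fintype.card G ^ (h - 2) := by
        gcongr
      nlinarith)
  obtain ⟨β, h1, h2⟩ := exists_mem_notMem_of_card_lt_card k3
  obtain ⟨h3, h4, h5⟩ := mem_Ch.1 h1
  refine ⟨β, mem_Ch.2 ⟨h3, fun l => (mem_sdiff.1 (h4 l)).1,
    fun s a1 a2 => (mem_sdiff.1 (h5 s a1 a2)).1⟩,
    fun s a1 a2 e => (mem_sdiff.1 (h5 s a1 a2)).2 (Multiset.mem_toFinset.2 e),
    fun l e => (mem_sdiff.1 (h4 l)).2 (Multiset.mem_toFinset.2 e), fun s s' a1 a2 a3 e => h2 ?_,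
    fun l l' e => by_contra fun hl => h2 ?_⟩
  · refine mem_union_left _ (mem_biUnion.2 ⟨(s, s'),
      mem_product.2 ⟨mem_range.2 (a2.trans a3), mem_range.2 a3⟩, ?_⟩)
    rw [if_pos ⟨a1, a2⟩]
    exact mem_filter.2 ⟨mem_univ _, h3, e⟩
  · refine mem_union_right _ (mem_biUnion.2 ⟨(l, l'), mem_product.2 ⟨mem_univ _, mem_univ _⟩, ?_⟩)
    rw [if_pos hl]
    exact mem_filter.2 ⟨mem_univ _, h3, e⟩

end Pool.Agent.Lib.MP_7ae50b_co.ML
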