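import Pool.Agent.Lib.MP_7ae50b_co.MLDef

set_option autoImplicit false
set_option linter.unusedSectionVars false

/-! Linking everything through the reservoir. -/

namespace Pool.Agent.Lib.MP_7ae50b_co.ML

open Finset
open scoped Classical

variable {G : Type} [AddCommGroup G] {ab : G → G} {h φ : ℕ} {R D₁ : Finset G}

theorem mlfin_sdiff {S B : Finset G} (h : S ⊆ B) : (B \ S).val + S.val = B.val := by
  rw [Finset.sdiff_val, tsub_add_cancel_of_le (Finset.val_le_iff.2 h)]

/-- Each entry `c` of `J` becomes an edge `w, w + c`. -/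
theorem junk (pp : PairP R φ) (J : Multiset G) (hJ : ∀ c ∈ J, ab c = c ∧ c ≠ 0)
    (hφ : 2 * Multiset.card J ≤ φ) :
    ∃ I, Fresh R 0 I ∧ Multiset.card I = 2 * Multiset.card J ∧ Sys ab (Multiset.card J) I J := by
  induction J using Multiset.induction_on with
  | empty => exact ⟨0, Fresh.zero _ _, by simp, Sys.zero⟩
  | cons c J ih =>
    rw [Multiset.card_cons] at hφ ⊢
    obtain ⟨I, h1, h2, h3⟩ := ih (fun x hx => hJ x (Multiset.mem_cons_of_mem hx)) (by omega)
    obtain ⟨hc, hc0⟩ := hJ c (Multiset.mem_cons_self _ _)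
    obtain ⟨w, w1, w2, w3, w4⟩ := pp c I (by omega)
    refine ⟨I + (w ::ₘ {w + c}), h1.add ⟨?_, ?_⟩, ?_, ?_⟩
    · simpa using hc0
    · intro x hx
      rw [zero_add]
      rcases Multiset.mem_cons.1 hx with rfl | hx
      · exact ⟨w1, w3⟩
      · rw [Multiset.mem_singleton.1 hx]
        exact ⟨w2, w4⟩
    · simp only [Multiset.card_add, Multiset.card_cons, Multiset.card_singleton]
      omega
    · refine (h3.add (Pth.cons w (Pth.one (w + c))).sys).cast rfl rfl ?_
      rw [add_sub_cancel_left, hc, add_comm, Multiset.cons_add, zero_add]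

/-- Induction on `n` with `Sys.succ`, `Lk.card`. -/
theorem link_all (lk : LinkP ab R D₁ φ h) {n : ℕ} {V C : Multiset G} (hs : Sys ab n V C) (t : G)
    (UV UC : Multiset G) (hV : Multiset.card UV + n * h ≤ φ) (hC : Multiset.card UC + n * h ≤ φ) :
    ∃ b I K, Fresh R UV I ∧ Fresh D₁ UC K ∧ Multiset.card K = Multiset.card I + n ∧
      ∀ s V₀ C₀, Pth ab s t V₀ C₀ → Pth ab s b (V₀ + I + V) (C₀ + K + C) := by
  induction n generalizing V C t UV UC with
  | zero =>
    obtain ⟨rfl, rfl⟩ := hs.eq_zero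
    exact ⟨t, 0, 0, Fresh.zero _ _, Fresh.zero _ _, rfl, fun s V₀ C₀ hp => by simpa using hp⟩
  | succ n ih =>
    obtain ⟨a, b, V₁, C₁, V₂, C₂, hp, hs', rfl, rfl⟩ := hs.succ
    rw [add_mul, one_mul] at hV hC
    obtain ⟨I₁, K₁, l1, l2, l3, l4, l5⟩ := lk t a UV UC (by omega) (by omega)
    obtain ⟨b', I₂, K₂, m1, m2, m3, m4⟩ := ih hs' b (UV + I₁) (UC + K₁)
      (by rw [Multiset.card_add]; omega) (by rw [Multiset.card_add]; omega)
    refine ⟨b', I₁ + I₂, K₁ + K₂, l2.add m1, l3.add m2, ?_, fun s V₀ C₀ h0 => ?_⟩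
    · have := l1.card
      simp only [Multiset.card_add]
      omega
    · exact (m4 s _ _ (l1 s V₀ C₀ b V₁ C₁ h0 hp)).cast (by abel) (by abel)

/-- `J = L - (C + E)` has `n` entries (`Sys.card`, `Pth.card` for `S = S' = ∅`).  `junk`, `Sys.add`,
`link_all` for the `2 n` walks with `UV` the junk vertices and `UC = 0`; `S` is the set of all
used vertices of `R`, `S'` the set of used colours. -/
theorem finish [Fintype G] {L C : Multiset G} {B E : Finset G} {u t : G} {n : ℕ} (hRB : R ⊆ B)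
    (hDE : D₁ ⊆ E) (abs : ∀ S ⊆ R, ∀ S' ⊆ D₁, S.card = S'.card →
      Pth ab u t (B \ S).val (E \ S').val)
    (hs : Sys ab n (univ \ B).val C) (hC : C + E.val ≤ L)
    (hL : Multiset.card L + 1 = Fintype.card G) (hab : ∀ c ∈ L, ab c = c ∧ c ≠ 0)
    (lk : LinkP ab R D₁ φ h) (pp : PairP R φ) (hφ : 2 * n + 2 * n * h ≤ φ) :
    ∃ b, Pth ab u b univ.val L := by
  obtain ⟨J, rfl⟩ := Multiset.le_iff_exists_add.1 hC
  have hJ : Multiset.card J = n := by
    have h1 := (abs ∅ (empty_subset _) ∅ (empty_subset _) rfl).card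
    have h2 := hs.card
    have h3 := congrArg Multiset.card (mlfin_sdiff (subset_univ B))
    rw [sdiff_empty, sdiff_empty] at h1
    simp only [Multiset.card_add] at hL h3
    have h4 : Multiset.card (univ : Finset G).val = Fintype.card G := rfl
    omega
  obtain ⟨I₀, i1, i2, i3⟩ := junk (ab := ab) pp J
    (fun c hc => hab c (Multiset.mem_add.2 (Or.inr hc))) (by omega)
  rw [hJ] at i2 i3
  obtain ⟨b, I, K, k1, k2, k3, k4⟩ := link_all lk (hs.add i3) t I₀ 0
    (by rw [i2, ← two_mul]; exact hφ) (by rw [← two_mul, Multiset.card_zero]; omega)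
  have hf : Fresh R 0 (I₀ + I) := i1.add (by rwa [zero_add])
  have hS : (⟨I₀ + I, hf.1⟩ : Finset G) ⊆ R := fun x hx => (hf.2 x hx).1
  have hS' : (⟨K, k2.1⟩ : Finset G) ⊆ D₁ := fun x hx => (k2.2 x hx).1
  have hp := abs _ hS _ hS' (by
    show Multiset.card (I₀ + I) = Multiset.card K
    rw [Multiset.card_add]
    omega)
  refine ⟨b, (k4 u _ _ hp).cast ?_ ?_⟩
  · have e : (B \ ⟨I₀ + I, hf.1⟩).val + (I₀ + I) = B.val := mlfin_sdiff (hS.trans hRB)
    rw [← mlfin_sdiff (subset_univ B)]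
    calc _ = (univ \ B).val + ((B \ ⟨I₀ + I, hf.1⟩).val + (I₀ + I)) := by abel
      _ = _ := by rw [e]
  · have e : (E \ ⟨K, k2.1⟩).val + K = E.val := mlfin_sdiff (hS'.trans hDE)
    rw [e]
    abel

end Pool.Agent.Lib.MP_7ae50b_co.ML
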