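import Pool.Agent.Lib.MP_7ae50b_co.MLDef

set_option autoImplicit false
set_option linter.unusedSectionVars false

/-! Random cyclic layers. -/

namespace Pool.Agent.Lib.MP_7ae50b_co.ML

open Finset
open scoped Classical

variable {X : Type} [Fintype X] {M : ℕ} [NeZero M]

/-- The centred indicator of `λ y = λ x + 1`. -/
noncomputable def zz (lam : X → ZMod M) (x y : X) : ℝ := (if lam y = lam x + 1 then (M : ℝ) else 0) - 1

theorem mllayer_shift (F : (X → ZMod M) → ℝ) (p : X)
    (h : ∀ lam : X → ZMod M, ∑ t : ZMod M, F (lam + Pi.single p t) = 0) : ∑ lam, F lam = 0 := by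
  have h1 : ∀ t : ZMod M, ∑ lam, F lam = ∑ lam : X → ZMod M, F (lam + Pi.single p t) := fun t =>
    (Equiv.sum_comp (Equiv.addRight (Pi.single p t : X → ZMod M)) F).symm
  have h2 : ∑ _t : ZMod M, ∑ lam, F lam = 0 := by
    rw [sum_congr rfl fun t _ => h1 t, sum_comm]
    exact sum_eq_zero fun lam _ => h lam
  simpa [NeZero.ne M] using h2

theorem mllayer_right {x y : X} (h : x ≠ y) (lam : X → ZMod M) :
    ∑ t : ZMod M, zz (lam + Pi.single y t) x y = 0 := by
  simp [zz, Pi.single_eq_of_ne h, ← eq_sub_iff_add_eq']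

theorem mllayer_left {x y : X} (h : x ≠ y) (lam : X → ZMod M) :
    ∑ t : ZMod M, zz (lam + Pi.single x t) x y = 0 := by
  have h1 : ∀ t, lam y = lam x + t + 1 ↔ t = lam y - 1 - lam x := fun t =>
    ⟨fun e => by rw [e]; ring, fun e => by rw [e]; ring⟩
  simp [zz, Pi.single_eq_of_ne h.symm, h1]

theorem mllayer_other {x y p : X} (h : x ≠ p) (h' : y ≠ p) (lam : X → ZMod M) (t : ZMod M) :
    zz (lam + Pi.single p t) x y = zz lam x y := by
  simp [zz, Pi.single_eq_of_ne h, Pi.single_eq_of_ne h']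

/-- One of the four points, say `y'`, differs from the others of both pairs: sum over the value
`lam y'` first (`Equiv.piSplitAt`, or `Function.update`). -/
theorem zz_orth {x y x' y' : X} (h : x ≠ y) (h' : x' ≠ y') (h1 : ¬(x = x' ∧ y = y'))
    (h2 : ¬(x = y' ∧ y = x')) : ∑ lam : X → ZMod M, zz lam x y * zz lam x' y' = 0 := by
  by_cases e : x ≠ y' ∧ y ≠ y'
  · refine mllayer_shift _ y' fun lam => ?_
    simp only [mllayer_other e.1 e.2, ← mul_sum, mllayer_right h', mul_zero]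
  · have e' : x ≠ x' ∧ y ≠ x' := by grind
    refine mllayer_shift _ x' fun lam => ?_
    simp only [mllayer_other e'.1 e'.2, ← mul_sum, mllayer_left h', mul_zero]

theorem zz_sq {x y : X} (h : x ≠ y) :
    ∑ lam : X → ZMod M, zz lam x y ^ 2 ≤ M * Fintype.card (X → ZMod M) := by
  have h1 : ∀ lam : X → ZMod M, zz lam x y ^ 2 = (M - 2) * zz lam x y + (M - 1) := fun lam => by
    unfold zz
    split_ifs <;> ring
  rw [sum_congr rfl fun lam _ => h1 lam, sum_add_distrib, ← mul_sum,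
    mllayer_shift _ y (mllayer_right h), sum_const, card_univ, nsmul_eq_mul]
  nlinarith [Nat.cast_nonneg (α := ℝ) (Fintype.card (X → ZMod M))]

/-- Expand the square; `zz_orth`; `2 s t ≤ s ^ 2 + t ^ 2` for the pairs `(x, y)`, `(y, x)`. -/
theorem second_moment (w : X → X → ℝ) {a : ℝ} (h0 : ∀ x y, 0 ≤ w x y) (h1 : ∀ x, w x x = 0)
    (h2 : ∀ x y, w x y + w y x ≤ a) :
    ∑ lam : X → ZMod M, (∑ x, ∑ y, w x y * zz lam x y) ^ 2 ≤
      M * a * (∑ x, ∑ y, w x y) * Fintype.card (X → ZMod M) := by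
  obtain ⟨N, hN⟩ : ∃ N : ℝ, N = M * Fintype.card (X → ZMod M) := ⟨_, rfl⟩
  have hN0 : 0 ≤ N := by rw [hN]; positivity
  have key : ∀ p q : X × X, ∑ lam : X → ZMod M, w p.1 p.2 * zz lam p.1 p.2 *
      (w q.1 q.2 * zz lam q.1 q.2) ≤ w p.1 p.2 * N *
        ((if q = p then w q.1 q.2 else 0) + if q = p.swap then w q.1 q.2 else 0) := by
    rintro ⟨x, y⟩ ⟨x', y'⟩
    have a1 := h0 x y
    have a2 := h0 x' y'
    simp only [mul_mul_mul_comm (w x y), ← mul_sum]
    rcases eq_or_ne x y with rfl | e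
    · simp [h1]
    rcases eq_or_ne x' y' with rfl | e'
    · simp [h1]
    have b : ∑ lam : X → ZMod M, zz lam x y * zz lam x' y' ≤ N := by
      have b1 := zz_sq (M := M) e
      have b2 := zz_sq (M := M) e'
      have b3 : ∑ lam : X → ZMod M, 2 * zz lam x y * zz lam x' y' ≤ _ :=
        sum_le_sum fun lam _ => two_mul_le_add_sq (zz lam x y) (zz lam x' y')
      simp only [mul_assoc, ← mul_sum, sum_add_distrib] at b3
      linarith
    have c := mul_le_mul_of_nonneg_left b (mul_nonneg a1 a2)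
    have c0 : 0 ≤ w x y * w x' y' * N := by positivity
    split_ifs with d1 d2 d2
    · linarith
    · linarith
    · linarith
    · rw [zz_orth e e' (fun d => d1 (by rw [d.1, d.2])) fun d => d2 (by rw [d.1, d.2]; rfl)]
      simp
  simp only [← Fintype.sum_prod_type']
  simp only [sq, sum_mul_sum]
  rw [sum_comm, mul_right_comm, mul_right_comm _ a, ← hN, mul_sum]
  refine sum_le_sum fun p _ => ?_
  rw [sum_comm]
  refine (sum_le_sum fun q _ => key p q).trans ?_
  rw [← mul_sum, sum_add_distrib, sum_ite_eq', sum_ite_eq', if_pos (mem_univ _), if_pos (mem_univ _)]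
  exact (mul_le_mul_of_nonneg_left (h2 p.1 p.2) (mul_nonneg (h0 _ _) hN0)).trans_eq (by ring)

/-- Averaging and Cauchy-Schwarz. -/
theorem layer {J : Type} [Fintype J] (w : J → X → X → ℝ) {a : ℝ} (h0 : ∀ j x y, 0 ≤ w j x y)
    (h1 : ∀ j x, w j x x = 0) (h2 : ∀ j x y, w j x y + w j y x ≤ a) :
    ∃ lam : X → ZMod M, (∑ j, |∑ x, ∑ y, w j x y * zz lam x y|) ^ 2 ≤
      Fintype.card J * (M * a * ∑ j, ∑ x, ∑ y, w j x y) := by
  obtain ⟨lam, -, h⟩ := exists_le_of_sum_le (s := (univ : Finset (X → ZMod M))) univ_nonempty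
    (f := fun lam => (∑ j, |∑ x, ∑ y, w j x y * zz lam x y|) ^ 2)
    (g := fun _ => Fintype.card J * (M * a * ∑ j, ∑ x, ∑ y, w j x y)) (by
      refine (sum_le_sum fun lam _ => sq_sum_le_card_mul_sum_sq).trans ?_
      simp only [sq_abs]
      rw [← mul_sum, sum_comm, sum_const, card_univ, card_univ, nsmul_eq_mul, mul_left_comm]
      refine mul_le_mul_of_nonneg_left ?_ (Nat.cast_nonneg _)
      rw [mul_sum, mul_sum]
      exact sum_le_sum fun j _ => (second_moment (w j) (h0 j) (h1 j) (h2 j)).trans_eq (mul_comm _ _))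
  exact ⟨lam, h⟩

end Pool.Agent.Lib.MP_7ae50b_co.ML
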