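import Pool.Agent.Lib.MP_7ae50b_co.MLDef
import Pool.Agent.Lib.MP_f8e628_co.Nibble

set_option autoImplicit false
set_option linter.unusedSectionVars false

/-! Almost optimal matchings in 3-uniform hypergraphs. -/

namespace Pool.Agent.Lib.MP_7ae50b_co.ML

open Finset Pool.Agent.Lib.MP_f8e628_co
open scoped Classical

theorem mlpip_prod {X : Type} (s : Finset X) (t : X → ℝ) (h0 : ∀ u, 0 ≤ t u) (h1 : ∀ u, t u ≤ 1) :
    1 - ∑ u ∈ s, (1 - t u) ≤ ∏ u ∈ s, t u := by
  induction s using Finset.induction_on with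
  | empty => simp
  | insert a s ha ih =>
    rw [sum_insert ha, prod_insert ha]
    have h2 : ∏ u ∈ s, t u ≤ 1 := prod_le_one (fun u _ => h0 u) fun u _ => h1 u
    nlinarith [mul_nonneg (sub_nonneg.2 (h1 a)) (sub_nonneg.2 h2)]

theorem mlpip_dc {X ι : Type} [Fintype X] [DecidableEq X] (E : Finset ι) (r : ι → Finset X)
    (W : ι → ℝ) (f : X → ℝ) : ∑ e ∈ E, W e * ∑ u ∈ r e, f u = ∑ u, load E r W u * f u := by
  simp only [load, sum_mul, mul_sum]
  exact sum_comm' fun e u => by simp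

/-- `W' e = W e * (min over u ∈ r e of (max (load u) 1)⁻¹)`, or the product instead of the minimum;
`1 - ∏ t ≤ ∑ (1 - t)` and `∑_e W e ∑_{u ∈ r e} (1 - t u) = ∑_u load u (1 - t u)`. -/
theorem trim {X ι : Type} [Fintype X] [DecidableEq X] (E : Finset ι) (r : ι → Finset X) (W : ι → ℝ)
    (hW : ∀ e, 0 ≤ W e) : ∃ W' : ι → ℝ, (∀ e, 0 ≤ W' e ∧ W' e ≤ W e) ∧
      (∀ u, load E r W' u ≤ 1) ∧ ∑ e ∈ E, W e - ∑ u, max (load E r W u - 1) 0 ≤ ∑ e ∈ E, W' e := by
  obtain ⟨t, ht⟩ : ∃ t : X → ℝ, t = fun u => (max (load E r W u) 1)⁻¹ := ⟨_, rfl⟩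
  have hm : ∀ u, 0 < max (load E r W u) 1 := fun u => lt_max_of_lt_right one_pos
  have h0 : ∀ u, 0 ≤ t u := fun u => by rw [ht]; exact (inv_pos.2 (hm u)).le
  have h1 : ∀ u, t u ≤ 1 := fun u => by rw [ht]; exact inv_le_one_of_one_le₀ (le_max_right _ _)
  refine ⟨fun e => W e * ∏ u ∈ r e, t u, fun e => ⟨mul_nonneg (hW e) (prod_nonneg fun u _ => h0 u),
    mul_le_of_le_one_right (hW e) (prod_le_one (fun u _ => h0 u) fun u _ => h1 u)⟩,
    fun u => ?_, ?_⟩
  · have h2 : load E r (fun e => W e * ∏ u ∈ r e, t u) u ≤ load E r W u * t u := by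
      rw [load, load, sum_mul]
      refine sum_le_sum fun e he => mul_le_mul_of_nonneg_left ?_ (hW e)
      rw [← mul_prod_erase _ _ (mem_filter.1 he).2]
      exact mul_le_of_le_one_right (h0 u) (prod_le_one (fun u _ => h0 u) fun u _ => h1 u)
    refine h2.trans ?_
    rw [ht]
    exact mul_inv_le_one_of_le₀ (le_max_left _ _) (hm u).le
  · have h2 : ∑ e ∈ E, W e * (1 - ∑ u ∈ r e, (1 - t u)) ≤ ∑ e ∈ E, W e * ∏ u ∈ r e, t u :=
      sum_le_sum fun e _ => mul_le_mul_of_nonneg_left (mlpip_prod (r e) t h0 h1) (hW e)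
    have h3 : ∑ u, load E r W u * (1 - t u) ≤ ∑ u, max (load E r W u - 1) 0 := by
      refine sum_le_sum fun u _ => ?_
      rw [ht]
      rcases le_total (load E r W u) 1 with h | h
      · simp only [max_eq_right h, inv_one, sub_self, mul_zero]
        exact le_max_right _ _
      · simp only [max_eq_left h]
        rw [mul_sub, mul_one, mul_inv_cancel₀ (by linarith)]
        exact le_max_left _ _
    rw [← mlpip_dc] at h3
    simp only [mul_sub (W _) 1, mul_one, sum_sub_distrib (f := W)] at h2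
    linarith

/-- `nibble` with `C = Fin s` identical colours, `adj = True`, `ρ c v = v`, `Δ = card X + 1`,
`a = η s / (N + 1)`, `s` so large that the numerical condition holds.  Sum the conclusion over all
vertices: `∑_u load u = 3 ∑ W ≤ card X`, and a matching `P c` covers `3 card (P c)` vertices; take
the colour with the largest matching. -/
theorem pip {η : ℝ} (hη : 0 < η) : ∃ γ : ℝ, 0 < γ ∧ ∀ (X ι : Type) [Fintype X] [DecidableEq X]
    [Fintype ι] (E : Finset ι) (r : ι → Finset X) (W : ι → ℝ), FracM E r W γ →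
    (∀ e ∈ E, (r e).card = 3) → ∃ P ⊆ E, (∀ e ∈ P, ∀ e' ∈ P, e ≠ e' → Disjoint (r e) (r e')) ∧
      ∑ e ∈ E, W e - η * Fintype.card X ≤ P.card := by
  obtain ⟨γ, N, hγ, H⟩ := nibble η hη
  refine ⟨γ, hγ, fun X ι _ _ _ E r W hW h3 => ?_⟩
  obtain ⟨Δ, hΔ⟩ : ∃ Δ : ℝ, Δ = Fintype.card X + 1 := ⟨_, rfl⟩
  have hX : (0 : ℝ) ≤ Fintype.card X := Nat.cast_nonneg _
  have hΔ1 : 1 ≤ Δ := by linarith
  obtain ⟨s, hs⟩ := exists_nat_gt (4 * Δ ^ 7 * (2 * ((N : ℝ) + 1) ^ 2) / η ^ 2)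
  have hs0 : (0 : ℝ) < s := lt_of_le_of_lt (by positivity) hs
  have hnum : 4 * Real.exp (-((η * s / (N + 1)) ^ 2 / (2 * s))) * Δ ^ 7 ≤ 1 := by
    have h1 : 4 * Δ ^ 7 ≤ (η * s / (N + 1)) ^ 2 / (2 * s) := by
      have h2 : (η * s / (N + 1)) ^ 2 / (2 * s) = s * η ^ 2 / (2 * ((N : ℝ) + 1) ^ 2) := by
        field_simp
      rw [h2, le_div_iff₀ (by positivity)]
      exact ((div_lt_iff₀ (by positivity)).1 hs).le
    have h2 := Real.add_one_le_exp ((η * s / (N + 1)) ^ 2 / (2 * s))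
    rw [Real.exp_neg, mul_right_comm]
    exact mul_inv_le_one_of_le₀ (by linarith) (Real.exp_pos _).le
  obtain ⟨P, hP1, hP2, hP3⟩ := H (C := Fin s) (fun _ _ => True) (fun _ => trivial)
    (fun _ _ _ => trivial) Δ hΔ1 (fun u => by
      have h1 : ((ball (fun _ _ : X => True) 1 u).card : ℝ) ≤ Fintype.card X := by
        exact_mod_cast card_le_univ _
      linarith) (fun _ => E) (fun _ => r) (fun _ v => v) (fun _ _ _ _ _ _ _ => trivial)
    (fun _ _ => trivial) s hs0 (by simp) (η * s / (N + 1)) (by positivity) hnum (fun _ => W)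
    fun _ => hW
  have h1 : ∑ u, load E r W u = 3 * ∑ e ∈ E, W e := by
    have h2 := mlpip_dc E r W fun _ => 1
    simp only [mul_one] at h2
    rw [← h2, mul_sum]
    refine sum_congr rfl fun e he => ?_
    rw [sum_const, h3 e he, mul_comm]
    norm_num
  have h2 : ∑ u, load E r W u ≤ Fintype.card X := by
    refine (sum_le_sum fun u _ => hW.load_le u).trans ?_
    simp
  have h4 : ∀ c, ∑ v, ind (∃ e ∈ P c, v ∈ r e) ≤ 3 * ((P c).card : ℝ) := by
    intro c
    have h5 := mlpip_dc (P c) r (fun _ => 1) fun _ => 1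
    simp only [mul_one, one_mul] at h5
    rw [sum_congr rfl fun e he => by rw [sum_const, h3 e (hP1 c e he)], sum_const] at h5
    simp only [nsmul_eq_mul, Nat.cast_ofNat, mul_one] at h5
    rw [mul_comm, h5]
    refine sum_le_sum fun v _ => ?_
    by_cases h : ∃ e ∈ P c, v ∈ r e
    · rw [ind_pos h]
      obtain ⟨e, he⟩ := h
      exact single_le_sum (f := fun _ => (1 : ℝ)) (fun _ _ => zero_le_one) (mem_filter.2 he)
    · rw [ind_neg h]
      exact sum_nonneg fun _ _ => zero_le_one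
  have h5 := sum_le_sum fun v (_ : v ∈ univ) => hP3 v
  rw [sum_comm (f := fun v c => ind (∃ e ∈ P c, v ∈ r e))] at h5
  have h6 := h5.trans (sum_le_sum fun c _ => h4 c)
  simp only [sum_const, card_univ, Fintype.card_fin, nsmul_eq_mul, sum_sub_distrib,
    ← mul_sum] at h6
  have h7 : (N : ℝ) * (η * s / (N + 1)) ≤ η * s := by
    rw [← mul_div_assoc, div_le_iff₀ (by positivity)]
    nlinarith [mul_pos hη hs0]
  have h8 := mul_le_mul_of_nonneg_left h7 hX
  have h9 := mul_le_mul_of_nonneg_left h2 (mul_pos hη hs0).le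
  have hne : (univ : Finset (Fin s)).Nonempty := ⟨⟨0, by exact_mod_cast hs0⟩, mem_univ _⟩
  obtain ⟨c, -, hc⟩ := exists_le_of_sum_le (f := fun _ => ∑ e ∈ E, W e - η * Fintype.card X)
    (g := fun c => ((P c).card : ℝ)) hne (by
      rw [sum_const, card_univ, Fintype.card_fin, nsmul_eq_mul]
      rw [h1] at h6 h9
      nlinarith [mul_nonneg (mul_pos hη hs0).le hX])
  exact ⟨P c, hP1 c, hP2 c, hc⟩

end Pool.Agent.Lib.MP_7ae50b_co.ML
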