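import Pool.Agent.Lib.MP_7ae50b_co.MLArc
import Pool.Agent.Lib.MP_7ae50b_co.MLLayer
import Pool.Agent.Lib.MP_7ae50b_co.MLPip

set_option autoImplicit false
set_option linter.unusedSectionVars false

/-! Rounding a fractional 2-factor to a linear forest.
Arcs are triples `(x, e, d)`: from `x` to `x + col e` if `d`, and backwards otherwise; each has
weight `u x e / 2`.  The hypergraph has the vertices `inl (inl x)` (out), `inl (inr x)` (in) and
`inr e`. -/

namespace Pool.Agent.Lib.MP_7ae50b_co.ML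

open Finset Pool.Agent.Lib.MP_f8e628_co
open scoped Classical

variable {G : Type} [AddCommGroup G] [Fintype G] {E : Type} [Fintype E]

def src (col : E → G) (i : G × E × Bool) : G := if i.2.2 then i.1 else i.1 + col i.2.1

def tgt (col : E → G) (i : G × E × Bool) : G := if i.2.2 then i.1 + col i.2.1 else i.1

noncomputable def hr (col : E → G) (i : G × E × Bool) : Finset ((G ⊕ G) ⊕ E) :=
  {Sum.inl (Sum.inl (src col i)), Sum.inl (Sum.inr (tgt col i)), Sum.inr i.2.1}

/-- The weight of the arcs from `x` to `y` through the hypergraph vertex `j`. -/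
noncomputable def aw (col : E → G) (u : G → E → ℝ) (j : (G ⊕ G) ⊕ E) (x y : G) : ℝ :=
  ∑ i ∈ univ.filter (fun i => j ∈ hr col i ∧ src col i = x ∧ tgt col i = y), u i.1 i.2.1 / 2

theorem mlround_out {col : E → G} {i : G × E × Bool} {x : G} :
    Sum.inl (Sum.inl x) ∈ hr col i ↔ src col i = x := by
  simp [hr, eq_comm]

theorem mlround_in {col : E → G} {i : G × E × Bool} {x : G} :
    Sum.inl (Sum.inr x) ∈ hr col i ↔ tgt col i = x := by
  simp [hr, eq_comm]

theorem mlround_ent {col : E → G} {i : G × E × Bool} {e : E} :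
    Sum.inr e ∈ hr col i ↔ i.2.1 = e := by
  simp [hr, eq_comm]

theorem mlround_sum (F : G × E × Bool → ℝ) :
    ∑ i, F i = ∑ e, (∑ x, F (x, e, true) + ∑ x, F (x, e, false)) := by
  simp only [Fintype.sum_prod_type, Fintype.sum_bool, ← sum_add_distrib]
  exact sum_comm

theorem mlround_le {V : Finset G} {col : E → G} {u : G → E → ℝ} {a τ : ℝ} (F : Frac V col u a τ)
    (x : G) (e : E) : u x e ≤ a := by
  refine le_trans ?_ (F.pair x (col e))
  exact single_le_sum (f := fun e => u x e) (fun e _ => F.nonneg x e)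
    (mem_filter.2 ⟨mem_univ e, rfl⟩)

theorem mlround_pos {V : Finset G} {col : E → G} {u : G → E → ℝ} {a τ : ℝ} (F : Frac V col u a τ) :
    0 ≤ a := (sum_nonneg fun e _ => F.nonneg 0 e).trans (F.pair 0 0)

theorem mlround_pair {V : Finset G} {col : E → G} {u : G → E → ℝ} {a τ : ℝ} (F : Frac V col u a τ)
    {x y : G} {S : Finset (G × E × Bool)} (hS : ∀ i ∈ S, src col i = x ∧ tgt col i = y) :
    ∑ i ∈ S, u i.1 i.2.1 / 2 ≤ a := by
  have h1 := F.pair x (y - x)
  have h2 := F.pair y (x - y)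
  have h3 : ∑ i ∈ S, u i.1 i.2.1 / 2 ≤
      ∑ i ∈ univ.filter (fun i => src col i = x ∧ tgt col i = y), u i.1 i.2.1 / 2 :=
    sum_le_sum_of_subset_of_nonneg (fun i hi => mem_filter.2 ⟨mem_univ i, hS i hi⟩)
      fun i _ _ => div_nonneg (F.nonneg _ _) zero_le_two
  have h4 : ∑ i ∈ univ.filter (fun i => src col i = x ∧ tgt col i = y), u i.1 i.2.1 / 2 =
      (∑ e ∈ univ.filter (fun e => col e = y - x), u x e) / 2 +
        (∑ e ∈ univ.filter (fun e => col e = x - y), u y e) / 2 := by
    rw [sum_filter, sum_filter, sum_filter, mlround_sum, sum_div, sum_div, ← sum_add_distrib]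
    refine sum_congr rfl fun e _ => ?_
    congr 1
    · rw [sum_eq_single x (fun z _ hz => if_neg fun h => hz h.1) (by simp)]
      simp only [src, tgt, if_true, true_and, eq_sub_iff_add_eq']
      split_ifs <;> simp
    · rw [sum_eq_single y (fun z _ hz => if_neg fun h => hz h.2) (by simp)]
      simp only [src, tgt, Bool.false_eq_true, if_false, and_true, eq_sub_iff_add_eq']
      split_ifs <;> simp
  linarith

theorem mlround_two {V : Finset G} {col : E → G} {u : G → E → ℝ} {a τ : ℝ} (F : Frac V col u a τ)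
    {x : G} {e : E} {S : Finset (G × E × Bool)}
    (hS : (∀ i ∈ S, src col i = x ∧ i.2.1 = e) ∨ ∀ i ∈ S, tgt col i = x ∧ i.2.1 = e) :
    ∑ i ∈ S, u i.1 i.2.1 / 2 ≤ a := by
  have h1 : S.card ≤ 2 := by
    rcases hS with hS | hS
    · refine (card_le_card (t := {(x, e, true), (x - col e, e, false)}) ?_).trans card_le_two
      rintro ⟨z, e', _ | _⟩ hi <;> obtain ⟨h1, h2⟩ := hS _ hi <;> simp only at h2 <;> subst h2 <;>
        simp [← h1, src]
    · refine (card_le_card (t := {(x, e, false), (x - col e, e, true)}) ?_).trans card_le_two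
      rintro ⟨z, e', _ | _⟩ hi <;> obtain ⟨h1, h2⟩ := hS _ hi <;> simp only at h2 <;> subst h2 <;>
        simp [← h1, tgt]
  have h2 : (S.card : ℝ) ≤ 2 := by exact_mod_cast h1
  have h3 := sum_le_card_nsmul S (fun i => u i.1 i.2.1 / 2) (a / 2) fun i _ =>
    div_le_div_of_nonneg_right (mlround_le F _ _) zero_le_two
  rw [nsmul_eq_mul] at h3
  nlinarith [mlround_pos F]

theorem card_hr (col : E → G) (i : G × E × Bool) : (hr col i).card = 3 := by
  simp [hr]

theorem load_out (col : E → G) (u : G → E → ℝ) (x : G) :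
    load univ (hr col) (fun i => u i.1 i.2.1 / 2) (Sum.inl (Sum.inl x)) = deg col u x / 2 ∧
    load univ (hr col) (fun i => u i.1 i.2.1 / 2) (Sum.inl (Sum.inr x)) = deg col u x / 2 := by
  constructor
  · rw [load, sum_filter, mlround_sum, deg, sum_div]
    refine sum_congr rfl fun e _ => ?_
    simp [mlround_out, src, ← eq_sub_iff_add_eq, add_div]
  · rw [load, sum_filter, mlround_sum, deg, sum_div]
    refine sum_congr rfl fun e _ => ?_
    simp [mlround_in, tgt, ← eq_sub_iff_add_eq, add_div, add_comm]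

theorem load_ent (col : E → G) (u : G → E → ℝ) (e : E) :
    load univ (hr col) (fun i => u i.1 i.2.1 / 2) (Sum.inr e) = ∑ x, u x e := by
  rw [load, sum_filter, mlround_sum, sum_eq_single e (fun e' _ he => by simp [mlround_ent, he])
    (by simp)]
  simp only [mlround_ent, if_true, ← sum_div]
  ring

/-- All arcs from `x` to `y` together weigh at most `a`: `(x, e, true)` with `col e = y - x` and
`(y, e, false)` with `col e = x - y`. -/
theorem aw_facts {V : Finset G} {col : E → G} {u : G → E → ℝ} {a τ : ℝ} (F : Frac V col u a τ)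
    (h0 : ∀ e, col e ≠ 0) (j : (G ⊕ G) ⊕ E) :
    (∀ x y, 0 ≤ aw col u j x y) ∧ (∀ x, aw col u j x x = 0) ∧
      (∀ x y, aw col u j x y + aw col u j y x ≤ 2 * a) ∧
      ∀ f : G → G → ℝ, ∑ x, ∑ y, aw col u j x y * f x y =
        load univ (hr col) (fun i => u i.1 i.2.1 / 2 * f (src col i) (tgt col i)) j := by
  have hle : ∀ x y, aw col u j x y ≤ a := fun x y =>
    mlround_pair F fun i hi => (mem_filter.1 hi).2.2
  refine ⟨fun x y => sum_nonneg fun i _ => div_nonneg (F.nonneg _ _) zero_le_two, fun x => ?_,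
    fun x y => by linarith [hle x y, hle y x], fun f => ?_⟩
  · refine sum_eq_zero fun i hi => ?_
    obtain ⟨-, h1, h2⟩ := (mem_filter.1 hi).2
    have h3 := h1.trans h2.symm
    obtain ⟨z, e, _ | _⟩ := i <;> simp [src, tgt, h0 e] at h3
  · simp only [aw, load, sum_filter, sum_mul]
    rw [sum_congr rfl fun x _ => sum_comm, sum_comm]
    refine sum_congr rfl fun i _ => ?_
    rw [sum_eq_single (src col i) (fun x _ hx => sum_eq_zero fun y _ => by
      rw [if_neg fun h => hx h.2.1.symm, zero_mul]) (by simp),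
      sum_eq_single (tgt col i) (fun y _ hy => by rw [if_neg fun h => hy h.2.2.symm, zero_mul])
      (by simp)]
    simp

theorem codeg_le {V : Finset G} {col : E → G} {u : G → E → ℝ} {a τ : ℝ} (F : Frac V col u a τ)
    {j j' : (G ⊕ G) ⊕ E} (h : j ≠ j') :
    ∑ i ∈ univ.filter (fun i => j ∈ hr col i ∧ j' ∈ hr col i), u i.1 i.2.1 / 2 ≤ a := by
  have h0 := mlround_pos F
  rcases j with (x | x) | x <;> rcases j' with (y | y) | y <;>
    simp only [mlround_out, mlround_in, mlround_ent]
  · rw [filter_false_of_mem fun i _ hi => h (by rw [← hi.1, ← hi.2]), sum_empty]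
    exact h0
  · exact mlround_pair F fun i hi => (mem_filter.1 hi).2
  · exact mlround_two F (Or.inl fun i hi => (mem_filter.1 hi).2)
  · exact mlround_pair F fun i hi => (mem_filter.1 hi).2.symm
  · rw [filter_false_of_mem fun i _ hi => h (by rw [← hi.1, ← hi.2]), sum_empty]
    exact h0
  · exact mlround_two F (Or.inr fun i hi => (mem_filter.1 hi).2)
  · exact mlround_two F (Or.inl fun i hi => (mem_filter.1 hi).2.symm)
  · exact mlround_two F (Or.inr fun i hi => (mem_filter.1 hi).2.symm)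
  · rw [filter_false_of_mem fun i _ hi => h (by rw [← hi.1, ← hi.2]), sum_empty]
    exact h0

theorem mlround_inj {col : E → G} {P : Finset (G × E × Bool)}
    (hP : ∀ i ∈ P, ∀ i' ∈ P, i ≠ i' → Disjoint (hr col i) (hr col i')) :
    Set.InjOn (src col) P ∧ Set.InjOn (tgt col) P ∧
      Set.InjOn (fun i => i.2.1) (P : Set (G × E × Bool)) := by
  refine ⟨fun i hi i' hi' h => ?_, fun i hi i' hi' h => ?_, fun i hi i' hi' h => ?_⟩ <;>
    by_contra hne
  · exact disjoint_left.1 (hP i hi i' hi' hne) (mlround_out.2 h) (mlround_out.2 rfl)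
  · exact disjoint_left.1 (hP i hi i' hi' hne) (mlround_in.2 h) (mlround_in.2 rfl)
  · exact disjoint_left.1 (hP i hi i' hi' hne) (mlround_ent.2 h) (mlround_ent.2 rfl)

theorem mlround_val {M : ℕ} [NeZero M] {s : ZMod M} (h : s + 1 ≠ 0) : s.val < (s + 1).val := by
  have h1 : s + 1 = ((s.val + 1 : ℕ) : ZMod M) := by simp
  rcases (Nat.succ_le_of_lt (ZMod.val_lt s)).lt_or_eq with h2 | h2
  · rw [h1, ZMod.val_cast_of_lt h2]
    exact Nat.lt_succ_self _
  · exact absurd (by rw [h1, show s.val + 1 = M from h2, ZMod.natCast_self]) h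

theorem mlround_load (col : E → G) (W : G × E × Bool → ℝ) :
    ∑ j, load univ (hr col) W j = 3 * ∑ i, W i := by
  simp only [load, sum_filter]
  rw [sum_comm, mul_sum]
  refine sum_congr rfl fun i _ => ?_
  rw [← sum_filter, filter_mem_eq_inter, univ_inter, sum_const, card_hr, nsmul_eq_mul]
  norm_num

/-- A matching of arcs that go from a layer to the next one: remove the arcs that enter the layer
`k` with fewest entering arcs, and use `arc` with `f x = (lam x - k).val`; `Sys.card`.  The entries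
`i.2.1`, `i ∈ P`, are different, and `ab (tgt - src) = col`. -/
theorem cut_layer {ab : G → G} (H : Ab ab) {col : E → G} (hc : ∀ e, ab (col e) = col e) {M : ℕ}
    [NeZero M] (lam : G → ZMod M) (V : Finset G) (P : Finset (G × E × Bool))
    (hP : ∀ i ∈ P, ∀ i' ∈ P, i ≠ i' → Disjoint (hr col i) (hr col i'))
    (hV : ∀ i ∈ P, i.1 ∈ V ∧ i.1 + col i.2.1 ∈ V)
    (hl : ∀ i ∈ P, lam (tgt col i) = lam (src col i) + 1) :
    ∃ n C, Sys ab n V.val C ∧ C ≤ univ.val.map col ∧
      (n : ℝ) ≤ V.card - P.card + (P.card : ℝ) / M := by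
  obtain ⟨h1, h2, h3⟩ := mlround_inj hP
  have hM : (0 : ℝ) < M := Nat.cast_pos.2 (NeZero.pos M)
  obtain ⟨k, -, hk⟩ : ∃ k ∈ (univ : Finset (ZMod M)),
      ((P.filter fun i => lam (tgt col i) = k).card : ℝ) ≤ (P.card : ℝ) / M := by
    refine exists_le_of_sum_le univ_nonempty (le_of_eq ?_)
    rw [← Nat.cast_sum, ← card_eq_sum_card_fiberwise fun i _ => mem_univ _, sum_const, card_univ,
      ZMod.card, nsmul_eq_mul, mul_div_cancel₀ _ hM.ne']
  set P' := P.filter fun i => ¬ lam (tgt col i) = k with hP'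
  have hs : P' ⊆ P := filter_subset _ _
  obtain ⟨n, hn⟩ := arc (ab := ab) (src col) (tgt col) (fun x => (lam x - k).val) V P'
    (h1.mono hs) (h2.mono hs) (fun i hi => by
      obtain ⟨z, e, _ | _⟩ := i
      exacts [(hV _ (hs hi)).symm, hV _ (hs hi)]) fun i hi => by
      have h4 := sub_ne_zero.2 (mem_filter.1 hi).2
      rw [hl i (hs hi), ← sub_add_eq_add_sub] at h4 ⊢
      exact mlround_val h4
  refine ⟨n, _, hn, ?_, ?_⟩
  · have h5 : (P'.val.map fun i => ab (tgt col i - src col i)) =
        (P'.val.map fun i => i.2.1).map col := by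
      rw [Multiset.map_map]
      refine Multiset.map_congr rfl fun i _ => ?_
      obtain ⟨z, e, _ | _⟩ := i <;> simp [src, tgt, H.neg, hc]
    rw [h5]
    refine Multiset.map_le_map ((Multiset.le_iff_subset ?_).2 fun e _ => mem_univ e)
    exact Multiset.Nodup.map_on (fun i hi i' hi' h => h3 (hs hi) (hs hi') h) P'.nodup
  · have h6 := hn.card
    rw [Multiset.card_map, ← card_def, ← card_def] at h6
    have h7 := card_filter_add_card_filter_not (s := P) fun i => lam (tgt col i) = k
    have h8 : (V.card : ℝ) = P'.card + n := by exact_mod_cast h6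
    have h9 : ((P.filter fun i => lam (tgt col i) = k).card : ℝ) + P'.card = P.card := by
      exact_mod_cast h7
    linarith

/-- `M ≥ 1 / τ`, `γ` from `pip τ`, `a = min (γ / M) (τ ^ 2 / (18 M))`.  `layer` for `aw` gives `lam`
with total deviation `≤ τ v` (`card J ≤ 3 v`, `∑ load = 3 ∑ u ≤ 3 v`).  `W₁ i = u / 2 * (zz + 1)`;
`∑ W₁ = ∑_x load (out x) ≥ card V - 2 τ v`, `∑_j max (load - 1) 0 ≤ 2 τ v`; `trim`; `pip` for the
set of arcs with `W₁ i ≠ 0` gives `card P ≥ card V - 7 τ v`; `cut_layer`, `card P ≤ v` (the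
sources are different). -/
theorem round {τ : ℝ} (hτ : 0 < τ) : ∃ a : ℝ, 0 < a ∧
    ∀ (G : Type) [AddCommGroup G] [Fintype G] (ab : G → G) (E : Type) [Fintype E] (col : E → G)
      (V : Finset G) (u : G → E → ℝ), Ab ab → (∀ e, ab (col e) = col e ∧ col e ≠ 0) →
      Fintype.card E ≤ Fintype.card G → Frac V col u a τ →
      ∃ n C, Sys ab n V.val C ∧ C ≤ univ.val.map col ∧ (n : ℝ) ≤ 10 * τ * Fintype.card G := by
  obtain ⟨γ, hγ, hpip⟩ := pip hτ
  obtain ⟨M, hM⟩ := exists_nat_gt (1 / τ)
  have hM0 : (0 : ℝ) < M := (by positivity : 0 < 1 / τ).trans hM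
  have : NeZero M := ⟨(Nat.cast_pos.1 hM0).ne'⟩
  refine ⟨min (γ / M) (τ ^ 2 / (18 * M)), by positivity, ?_⟩
  intro G _ _ ab E _ col V u H hc hE F
  set a := min (γ / M) (τ ^ 2 / (18 * M)) with ha
  have ha1 : M * a ≤ γ := by
    rw [← le_div_iff₀' hM0]
    exact min_le_left _ _
  have ha2 : 18 * M * a ≤ τ ^ 2 := by
    rw [← le_div_iff₀' (by positivity)]
    exact min_le_right _ _
  have ha0 := mlround_pos F
  set v : ℝ := (Fintype.card G : ℝ) with hv
  have hv0 : 0 ≤ v := Nat.cast_nonneg _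
  have hEv : (Fintype.card E : ℝ) ≤ v := Nat.cast_le.2 hE
  have hJ : (Fintype.card ((G ⊕ G) ⊕ E) : ℝ) ≤ 3 * v := by
    simp only [Fintype.card_sum, Nat.cast_add]
    linarith
  have A := aw_facts F fun e => (hc e).2
  obtain ⟨lam, hlam⟩ := layer (M := M) (aw col u) (fun j => (A j).1) (fun j => (A j).2.1)
    fun j => (A j).2.2.1
  let w : G × E × Bool → ℝ := fun i => u i.1 i.2.1 / 2
  have hw0 : ∀ i, 0 ≤ w i := fun i => div_nonneg (F.nonneg _ _) zero_le_two
  have hw : ∑ i, w i = ∑ x, ∑ e, u x e := by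
    rw [mlround_sum, sum_comm]
    refine sum_congr rfl fun e _ => ?_
    simp only [w, ← sum_div]
    ring
  have hwv : ∑ i, w i ≤ v := by
    rw [hw, sum_comm]
    refine (sum_le_card_nsmul _ _ 1 fun e _ => F.ent e).trans ?_
    simpa using hEv
  let D : (G ⊕ G) ⊕ E → ℝ := load univ (hr col) fun i => w i * zz lam (src col i) (tgt col i)
  have hD : ∑ j, |D j| ≤ τ * v := by
    have h1 : ∑ j, ∑ x, ∑ y, aw col u j x y = 3 * ∑ i, w i := by
      rw [← mlround_load col]
      refine sum_congr rfl fun j _ => ?_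
      simpa using (A j).2.2.2 fun _ _ => 1
    simp only [(A _).2.2.2, h1] at hlam
    refine (pow_le_pow_iff_left₀ (sum_nonneg fun j _ => abs_nonneg _) (by positivity)
      two_ne_zero).1 (hlam.trans ?_)
    have h2 : 0 ≤ ∑ i, w i := sum_nonneg fun i _ => hw0 i
    calc _ ≤ 3 * v * (M * (2 * a) * (3 * v)) := by gcongr
      _ = 18 * M * a * v ^ 2 := by ring
      _ ≤ τ ^ 2 * v ^ 2 := by gcongr
      _ = _ := by ring
  let W : G × E × Bool → ℝ := fun i => w i * (zz lam (src col i) (tgt col i) + 1)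
  have hz : ∀ x y, 0 ≤ zz lam x y + 1 ∧ zz lam x y + 1 ≤ M := fun x y => by
    rw [zz, sub_add_cancel]
    split_ifs
    exacts [⟨hM0.le, le_rfl⟩, ⟨le_rfl, hM0.le⟩]
  have hW0 : ∀ i, 0 ≤ W i := fun i => mul_nonneg (hw0 i) (hz _ _).1
  have hWl : ∀ j, load univ (hr col) W j = D j + load univ (hr col) w j := fun j => by
    simp only [load, W, D, mul_add, mul_one, sum_add_distrib]
  have hW1 : V.card - 2 * (τ * v) ≤ ∑ i, W i := by
    have h1 := mlround_load col W
    simp only [hWl, sum_add_distrib, mlround_load col w] at h1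
    have h2 : -∑ j, |D j| ≤ ∑ j, D j := by
      rw [← sum_neg_distrib]
      exact sum_le_sum fun j _ => neg_abs_le _
    have h3 := F.tot
    have h4 : 0 ≤ τ * v := by positivity
    linarith
  have hW2 : ∑ j, max (load univ (hr col) W j - 1) 0 ≤ 2 * (τ * v) := by
    have h1 : ∑ j, max (load univ (hr col) W j - 1) 0 ≤
        ∑ j, (|D j| + max (load univ (hr col) w j - 1) 0) := sum_le_sum fun j _ => by
      rw [hWl]
      exact max_le (by linarith [le_abs_self (D j), le_max_left (load univ (hr col) w j - 1) 0])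
        (add_nonneg (abs_nonneg _) (le_max_right _ _))
    have h2 : ∀ x, max (deg col u x / 2 - 1) 0 = max (deg col u x - 2) 0 / 2 := fun x => by
      rw [← max_div_div_right zero_le_two, zero_div, sub_div, div_self two_ne_zero]
    have h3 : ∑ j, max (load univ (hr col) w j - 1) 0 = ∑ x, max (deg col u x - 2) 0 := by
      simp only [Fintype.sum_sum_type, w, (load_out col u _).1, (load_out col u _).2, load_ent, h2,
        ← sum_div]
      rw [sum_eq_zero fun e _ => max_eq_right (sub_nonpos.2 (F.ent e))]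
      ring
    rw [sum_add_distrib, h3] at h1
    linarith [F.exc]
  obtain ⟨W', hW', hl, hs⟩ := trim univ (hr col) W hW0
  set S := univ.filter fun i => W i ≠ 0 with hS
  have hsupp : ∀ i, i ∉ S → W' i = 0 := fun i hi =>
    le_antisymm ((hW' i).2.trans (le_of_eq (by simpa [hS] using hi))) (hW' i).1
  have hF : FracM S (hr col) W' γ := by
    refine ⟨fun i => (hW' i).1, hsupp, fun i _ => card_pos.1 (by rw [card_hr]; norm_num),
      fun i _ => (card_hr col i).le, fun j => le_trans ?_ (hl j), fun j j' hj => ?_⟩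
    · exact sum_le_sum_of_subset_of_nonneg (filter_subset_filter _ (subset_univ _))
        fun i _ _ => (hW' i).1
    · calc _ ≤ ∑ i ∈ univ.filter (fun i => j ∈ hr col i ∧ j' ∈ hr col i), W' i :=
            sum_le_sum_of_subset_of_nonneg (filter_subset_filter _ (subset_univ _))
              fun i _ _ => (hW' i).1
        _ ≤ ∑ i ∈ univ.filter (fun i => j ∈ hr col i ∧ j' ∈ hr col i), w i * M :=
            sum_le_sum fun i _ => (hW' i).2.trans (mul_le_mul_of_nonneg_left (hz _ _).2 (hw0 i))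
        _ ≤ a * M := by
            rw [← sum_mul]
            exact mul_le_mul_of_nonneg_right (codeg_le F hj) hM0.le
        _ ≤ γ := (mul_comm _ _).trans_le ha1
  obtain ⟨P, hPS, hP, hc'⟩ := hpip _ _ S (hr col) W' hF fun i _ => card_hr col i
  have hsum : ∑ i ∈ S, W' i = ∑ i, W' i := sum_subset (subset_univ _) fun i _ hi => hsupp i hi
  have hPW : ∀ i ∈ P, W i ≠ 0 := fun i hi => (mem_filter.1 (hPS hi)).2
  obtain ⟨n, C, h1, h2, h3⟩ := cut_layer H (fun e => (hc e).1) lam V P hP
    (fun i hi => F.supp _ _ fun h => hPW i hi (by simp [W, w, h])) fun i hi => by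
      by_contra h
      exact hPW i hi (by simp [W, zz, h])
  refine ⟨n, C, h1, h2, h3.trans ?_⟩
  have h4 : (P.card : ℝ) ≤ v :=
    Nat.cast_le.2 (card_le_card_of_injOn (t := univ) (src col) (fun _ _ => mem_univ _)
      (mlround_inj hP).1)
  have h5 : (P.card : ℝ) / M ≤ τ * v := by
    rw [div_le_iff₀ hM0]
    have h6 : 1 ≤ τ * M := by
      rw [div_lt_iff₀' hτ] at hM
      exact hM.le
    nlinarith
  have h7 : τ * (Fintype.card ((G ⊕ G) ⊕ E) : ℝ) ≤ τ * (3 * v) := by gcongr
  have h8 : 0 ≤ τ * v := by positivity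
  linarith

end Pool.Agent.Lib.MP_7ae50b_co.ML
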