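import Pool.Agent.Lib.MP_7ae50b_co.MLBoost
import Pool.Agent.Lib.MP_7ae50b_co.MLRound

set_option autoImplicit false
set_option linter.unusedSectionVars false

/-! The light colours cover `U \ B` by few paths. -/

namespace Pool.Agent.Lib.MP_7ae50b_co.ML

open Finset
open scoped Classical

variable {G : Type} [AddCommGroup G] [Fintype G]

theorem prs_remove (U B : Finset G) (c : G) :
    prs (U \ B) c ≤ prs U c ∧ prs U c ≤ prs (U \ B) c + 2 * B.card := by
  constructor
  · refine card_le_card fun x hx => ?_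
    simp only [mem_filter, mem_univ, true_and, mem_sdiff] at hx ⊢
    exact ⟨hx.1.1, hx.2.1⟩
  · have h1 : (univ.filter fun x => x ∈ U ∧ x + c ∈ U) ⊆
        (univ.filter fun x => x ∈ U \ B ∧ x + c ∈ U \ B) ∪ (B ∪ B.image fun y => y - c) := by
      intro x hx
      simp only [mem_filter, mem_univ, true_and, mem_sdiff, mem_union, mem_image] at hx ⊢
      by_cases e1 : x ∈ B
      · exact Or.inr (Or.inl e1)
      · by_cases e2 : x + c ∈ B
        · exact Or.inr (Or.inr ⟨x + c, e2, by simp⟩)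
        · exact Or.inl ⟨⟨hx.1, e1⟩, hx.2, e2⟩
    have h2 := card_le_card h1
    have h3 := card_union_le (univ.filter fun x => x ∈ U \ B ∧ x + c ∈ U \ B)
      (B ∪ B.image fun y => y - c)
    have h4 := card_union_le B (B.image fun y => y - c)
    have h5 : (B.image fun y => y - c).card ≤ B.card := card_image_le
    unfold prs
    omega

theorem mllight_one {L L' : Multiset G} (hL : L' ≤ L) {U B R₀ : Finset G} (hB : B ⊆ R₀)
    (f : G → G) :
    Multiset.card (L'.filter fun c => f c ∈ U \ B) ≤ Multiset.card (L.filter fun c => f c ∈ U) ∧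
      Multiset.card (L.filter fun c => f c ∈ U) ≤ Multiset.card (L'.filter fun c => f c ∈ U \ B) +
        Multiset.card (L.filter fun c => f c ∈ R₀) + (Multiset.card L - Multiset.card L') := by
  obtain ⟨M, rfl⟩ := Multiset.le_iff_exists_add.1 hL
  have h1 : Multiset.card (L'.filter fun c => f c ∈ U \ B) ≤
      Multiset.card (L'.filter fun c => f c ∈ U) :=
    Multiset.card_le_card (Multiset.monotone_filter_right _ fun c hc => (mem_sdiff.1 hc).1)
  have h2 : Multiset.card (L'.filter fun c => f c ∈ U) ≤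
      Multiset.card (L'.filter fun c => f c ∈ U \ B) +
        Multiset.card (L'.filter fun c => f c ∈ R₀) := by
    clear h1 hL
    induction L' using Multiset.induction_on with
    | empty => simp
    | cons a s ih =>
      simp only [Multiset.filter_cons, Multiset.card_add]
      by_cases e1 : f a ∈ U
      · by_cases e2 : f a ∈ B
        · have e3 : f a ∈ R₀ := hB e2
          rw [if_pos e1, if_pos e3]
          simp only [Multiset.card_singleton]
          omega
        · have e3 : f a ∈ U \ B := mem_sdiff.2 ⟨e1, e2⟩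
          rw [if_pos e1, if_pos e3]
          simp only [Multiset.card_singleton]
          omega
      · rw [if_neg e1]
        simp only [Multiset.card_zero]
        omega
  have h3 : Multiset.card (M.filter fun c => f c ∈ U) ≤ Multiset.card M :=
    Multiset.card_le_card (Multiset.filter_le _ _)
  simp only [Multiset.filter_add, Multiset.card_add]
  omega

/-- An entry counted on the left and not in the first term on the right leads into `R₀`, or is
one of the removed entries. -/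
theorem nb_remove {L L' : Multiset G} (hL : L' ≤ L) {U B R₀ : Finset G} (hB : B ⊆ R₀) (x : G) :
    nb L' (U \ B) x ≤ nb L U x ∧
      nb L U x ≤ nb L' (U \ B) x + nb L R₀ x + 2 * (Multiset.card L - Multiset.card L') := by
  have h1 := mllight_one hL (U := U) hB fun c => x + c
  have h2 := mllight_one hL (U := U) hB fun c => x - c
  unfold nb
  omega

theorem card_filter_mem_le (L : Multiset G) (Δ : Finset G) {t : ℝ} (h : ∀ c, (L.count c : ℝ) ≤ t) :
    (Multiset.card (L.filter fun c => c ∈ Δ) : ℝ) ≤ Δ.card * t := by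
  induction Δ using Finset.induction_on with
  | empty => simp
  | insert a s ha ih =>
    have h1 : Multiset.card (L.filter fun c => c ∈ insert a s) ≤
        L.count a + Multiset.card (L.filter fun c => c ∈ s) := by
      clear ih h
      induction L using Multiset.induction_on with
      | empty => simp
      | cons b M ihM =>
        simp only [Multiset.filter_cons, Multiset.card_add, Multiset.count_cons]
        by_cases e1 : a = b
        · subst e1
          rw [if_pos (mem_insert_self _ _), if_pos rfl]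
          simp only [Multiset.card_singleton]
          omega
        · by_cases e2 : b ∈ s
          · rw [if_pos (mem_insert_of_mem e2), if_pos e2]
            simp only [Multiset.card_singleton]
            omega
          · rw [if_neg (fun e => (mem_insert.1 e).elim (fun e => e1 e.symm) e2)]
            simp only [Multiset.card_zero]
            omega
    have h2 : (Multiset.card (L.filter fun c => c ∈ insert a s) : ℝ) ≤
        L.count a + Multiset.card (L.filter fun c => c ∈ s) := by exact_mod_cast h1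
    rw [card_insert_of_notMem ha]
    push_cast
    have := h a
    linarith

theorem mllight_mono {E : Type} [Fintype E] {V : Finset G} {col : E → G} {u : G → E → ℝ}
    {a τ a' τ' : ℝ} (F : Frac V col u a τ) (ha : a ≤ a') (hτ : τ ≤ τ') : Frac V col u a' τ' := by
  have h1 : τ * Fintype.card G ≤ τ' * Fintype.card G :=
    mul_le_mul_of_nonneg_right hτ (Nat.cast_nonneg _)
  exact ⟨F.nonneg, F.supp, F.ent, fun x c => (F.pair x c).trans ha, F.exc.trans h1,
    by linarith [F.tot]⟩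

theorem mllight_deg {σ η v N d : ℝ} (hσ : 0 < σ) (hη : 0 ≤ η) (hη' : 1800 * η ≤ σ) (hv : 0 < v)
    (h1 : (2 * σ - 10 * η) * v ≤ N) (h2 : N ≤ (2 * σ + 2 * η) * v)
    (h3 : N / ((σ + η) * v) ≤ d) (h4 : d ≤ N / ((σ - 3 * η) * v)) : |d - 2| ≤ 16 * η / σ := by
  have hp0 : 0 < (σ - 3 * η) * v := mul_pos (by linarith) hv
  have hp1 : 0 < (σ + η) * v := mul_pos (by linarith) hv
  set k := 16 * η / σ with hk
  have hk0 : 0 ≤ k := by positivity
  have hk1 : k * σ = 16 * η := by rw [hk]; field_simp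
  rw [abs_le]
  constructor
  · have : 2 - k ≤ N / ((σ + η) * v) := by
      rw [le_div_iff₀ hp1]
      refine le_trans ?_ h1
      rw [← mul_assoc]
      refine mul_le_mul_of_nonneg_right ?_ hv.le
      nlinarith [mul_nonneg hk0 hη]
    linarith
  · have : N / ((σ - 3 * η) * v) ≤ 2 + k := by
      rw [div_le_iff₀ hp0]
      refine h2.trans ?_
      rw [← mul_assoc]
      refine mul_le_mul_of_nonneg_right ?_ hv.le
      have : k * (σ / 2) ≤ k * (σ - 3 * η) := mul_le_mul_of_nonneg_left (by linarith) hk0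
      nlinarith
    linarith

theorem mllight_num {H c η ρ r v w Vc : ℝ} (hc : 0 < c) (hr : 0 < r) (hρ : r ≤ ρ)
    (hρ1 : ρ ≤ 1) (hη : 0 ≤ η) (hη1 : η ≤ 1) (h1 : 600 * H * η ≤ c * r ^ 3) (hv : 0 < v)
    (hw : 0 ≤ w) (hV : ρ * v / 2 ≤ Vc) :
    4 * H * (16 * η / ρ ^ 2) * w ≤ ((ρ ^ 2 + η) * v)⁻¹ * (c / 2 * w) * Vc := by
  have hρ0 : 0 < ρ := hr.trans_le hρ
  have h2 : ρ ^ 2 ≤ 1 := pow_le_one₀ hρ0.le hρ1
  have h3 : (2 * v)⁻¹ ≤ ((ρ ^ 2 + η) * v)⁻¹ :=
    inv_anti₀ (by positivity) (mul_le_mul_of_nonneg_right (by linarith) hv.le)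
  have h4 : (2 * v)⁻¹ * (c / 2 * w) * (ρ * v / 2) ≤ ((ρ ^ 2 + η) * v)⁻¹ * (c / 2 * w) * Vc :=
    mul_le_mul (mul_le_mul_of_nonneg_right h3 (by positivity)) hV (by positivity) (by positivity)
  refine le_trans ?_ h4
  have h5 : (2 * v)⁻¹ * (c / 2 * w) * (ρ * v / 2) = c * ρ / 8 * w := by
    field_simp
    ring
  rw [h5]
  refine mul_le_mul_of_nonneg_right ?_ hw
  have h6 : r ^ 3 ≤ ρ ^ 3 := pow_le_pow_left₀ hr.le hρ 3
  have h7 : c * r ^ 3 ≤ c * ρ ^ 3 := mul_le_mul_of_nonneg_left h6 hc.le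
  have h8 : 4 * H * (16 * η / ρ ^ 2) = 64 * (H * η) / ρ ^ 2 := by ring
  rw [h8, div_le_iff₀ (by positivity)]
  have h9 : 0 < c * ρ ^ 3 := by positivity
  nlinarith

/-- `η₁ = c₀ r₀ ^ (7 h + 3) / (600 h)`; `a` from `round (τ / 10)`; `ε₁ = r₀ ^ 2 * min (a / 4) (τ / 200)`.
Write `σ = ρL ^ 2`, `V = U \ B`, `L' = L - E.val`, `col` from `exists_index L'`, `D' = (D \ E) \ Δ`
(`rep c` is an index with `col = c`; it exists as `c ∈ L`, `c ∉ E`).
`u0_facts` with `p₀ = (σ - 3 η) v ≥ σ v / 2`, `p₁ = (σ + η) v ≤ 2 v`.  For `x ∉ O` the number `nb`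
lies in `[(2 σ - 10 η) v, (2 σ + 2 η) v]`, so `|deg - 2| ≤ κ = 16 η / σ`; always `deg ≤ 4 / σ`.
The total weight is `card L' - (entries in Δ)`, within `2 ε v` of `card V`.  `card V ≥ ρL v / 2`,
`N₀ = c₀ r₀ ^ (7 h) / 2 * v ^ (h - 1)` (`ch_remove`), `lam = p₁⁻¹`.  `boost` with `2 ε` in place of
`ε` gives `Frac V col u' (4 γ / σ) ((4 + 4 / σ) 2 ε)`; `Frac` is monotone in both parameters. -/
theorem light {h : ℕ} (hh : 3 ≤ h) {c₀ r₀ : ℝ} (hc : 0 < c₀) (hc1 : c₀ ≤ 1) (hr : 0 < r₀) :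
    ∃ η₁ : ℝ, 0 < η₁ ∧ ∀ τ : ℝ, 0 < τ → ∃ ε₁ : ℝ, 0 < ε₁ ∧
      ∀ (G : Type) [AddCommGroup G] [Fintype G] (ab : G → G) (ρL η ρ ε γ : ℝ) (pc : G → G)
        (Δ D : Finset G) (L : Multiset G) (U R₀ R D₁ O B E : Finset G), Ab ab → Dbl G →
        Good ab h c₀ ρL η ρ ε pc Δ D L U R₀ R D₁ O → r₀ ≤ ρL → ρL ≤ 1 → η ≤ η₁ → ε ≤ η → ε ≤ ε₁ →
        0 ≤ γ → γ ≤ ε → Δ.card * γ ≤ ε → (Δ.card : ℝ) ≤ ε * Fintype.card G →
        1 ≤ ε * Fintype.card G → (Multiset.card L : ℝ) = ρL * Fintype.card G →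
        (∀ c ∈ L, ab c = c ∧ c ≠ 0) → (∀ c, (L.count c : ℝ) ≤ γ * Fintype.card G) →
        (∀ c ∈ D, c ∈ L) → B ⊆ R₀ → E ⊆ D → B.card = E.card + 1 →
        (B.card : ℝ) ≤ η * Fintype.card G →
        ∃ n C, Sys ab n (U \ B).val C ∧ C + E.val ≤ L ∧ (n : ℝ) ≤ τ * Fintype.card G := by
  have hH : (3 : ℝ) ≤ h := by exact_mod_cast hh
  refine ⟨c₀ * r₀ ^ (7 * h + 3) / (600 * h), by positivity, fun τ hτ => ?_⟩
  obtain ⟨a, ha, hround⟩ := round (τ := τ / 10) (by positivity)
  refine ⟨r₀ ^ 2 * min (a / 4) (τ / 200), by positivity, ?_⟩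
  intro G _ _ ab ρL η ρ ε γ pc Δ D L U R₀ R D₁ O B E H hD Gd hρ hρ1 hη hεη hε hγ0 hγ hΔγ hΔ hv1 hL
    hab hcnt hDL hB hE hBE hBη
  have gcU := Gd.cU
  have gchU := Gd.chU
  have gprU := Gd.prU
  have gcO := Gd.cO
  have gnbU := Gd.nbU
  have gnb0 := Gd.nb0
  have hBU : B ⊆ U := hB.trans Gd.sub2
  clear Gd
  obtain ⟨v, hvdef⟩ : ∃ v : ℝ, v = Fintype.card G := ⟨_, rfl⟩
  rw [← hvdef] at hΔ hv1 hL hcnt hBη gcU gchU gprU gcO gnbU gnb0 ⊢
  have hv : 0 < v := by
    rw [hvdef]
    exact_mod_cast Fintype.card_pos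
  have hε0 : 0 < ε := by
    by_contra e
    have := mul_le_mul_of_nonneg_right (not_lt.1 e) hv.le
    linarith only [this, hv1]
  have hη0 : 0 < η := hε0.trans_le hεη
  have hρ0 : 0 < ρL := hr.trans_le hρ
  have hr1 : r₀ ≤ 1 := hρ.trans hρ1
  have hc7 : 0 < c₀ * r₀ ^ (7 * h) := by positivity
  have hc71 : c₀ * r₀ ^ (7 * h) ≤ 1 := mul_le_one₀ hc1 (by positivity) (pow_le_one₀ hr.le hr1)
  have hη1 : 600 * h * η ≤ c₀ * r₀ ^ (7 * h) * r₀ ^ 3 := by
    rw [le_div_iff₀ (by positivity), pow_add] at hη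
    linarith only [hη]
  have h8 : c₀ * r₀ ^ (7 * h) ≤ c₀ * ρL ^ (7 * h) :=
    mul_le_mul_of_nonneg_left (pow_le_pow_left₀ hr.le hρ _) hc.le
  clear hη
  generalize c₀ * r₀ ^ (7 * h) = c at hc7 hc71 hη1 h8
  have hr3 : r₀ ^ 3 ≤ 1 := pow_le_one₀ hr.le hr1
  have hr2 : r₀ ^ 2 ≤ ρL ^ 2 := pow_le_pow_left₀ hr.le hρ 2
  have hr32 : r₀ ^ 3 ≤ ρL ^ 2 := (pow_le_pow_of_le_one hr.le hr1 (by norm_num)).trans hr2
  have hσ : 0 < ρL ^ 2 := by positivity
  have hσ1 : ρL ^ 2 ≤ ρL := pow_le_of_le_one hρ0.le hρ1 two_ne_zero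
  have h3η : 3 * η ≤ h * η := mul_le_mul_of_nonneg_right hH hη0.le
  have hη2 : 1800 * η ≤ ρL ^ 2 := by
    have h1 : c * r₀ ^ 3 ≤ 1 * r₀ ^ 3 := mul_le_mul_of_nonneg_right hc71 (by positivity)
    linarith only [h1, hη1, h3η, hr32]
  have hη3 : 600 * h * η ≤ c := by
    have h1 : c * r₀ ^ 3 ≤ c * 1 := mul_le_mul_of_nonneg_left hr3 hc7.le
    linarith only [h1, hη1]
  have hεv : ε * v ≤ η * v := mul_le_mul_of_nonneg_right hεη hv.le
  have hηv : 1800 * (η * v) ≤ ρL ^ 2 * v := by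
    have := mul_le_mul_of_nonneg_right hη2 hv.le
    linarith only [this]
  have hσv : ρL ^ 2 * v ≤ ρL * v := mul_le_mul_of_nonneg_right hσ1 hv.le
  have hρv : ρL * v ≤ v := mul_le_of_le_one_left hv.le hρ1
  have hηv0 : 0 < η * v := by positivity
  have hBE' : (B.card : ℝ) = E.card + 1 := by exact_mod_cast hBE
  have hVc : ((U \ B).card : ℝ) = U.card - B.card := by
    rw [card_sdiff_of_subset hBU, Nat.cast_sub (card_le_card hBU)]
  have hUc := abs_le.1 gcU
  have hEL : E.val ≤ L := (Multiset.le_iff_subset E.nodup).2 fun c hc => hDL c (hE hc)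
  have hL'L : L - E.val ≤ L := Multiset.sub_le_self _ _
  have hL'c : (Multiset.card (L - E.val) : ℝ) = ρL * v - E.card := by
    rw [Multiset.card_sub hEL, Nat.cast_sub (Multiset.card_le_card hEL), hL]
    rfl
  obtain ⟨I, _, col, hcol⟩ := exists_index (L - E.val)
  have hIc : (Fintype.card I : ℝ) = ρL * v - E.card := by
    rw [← hL'c, ← hcol, Multiset.card_map]
    rfl
  have hI : Nonempty I := by
    rw [← Fintype.card_pos_iff]
    have : (0 : ℝ) < Fintype.card I := by linarith only [hIc, hBE', hBη, hηv, hσv, hηv0]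
    exact_mod_cast this
  have hrep : ∀ c : G, ∃ e : I, c ∈ D \ (E ∪ Δ) → col e = c := by
    intro c
    by_cases hc' : c ∈ D \ (E ∪ Δ)
    · have h1 : c ∈ L - E.val := by
        rw [← Multiset.one_le_count_iff_mem, Multiset.count_sub,
          Multiset.count_eq_zero_of_notMem
            (show c ∉ E.val from fun e => (mem_sdiff.1 hc').2 (mem_union_left _ e)),
          Nat.sub_zero, Multiset.one_le_count_iff_mem]
        exact hDL c (mem_sdiff.1 hc').1
      rw [← hcol] at h1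
      obtain ⟨e, -, he⟩ := Multiset.mem_map.1 h1
      exact ⟨e, fun _ => he⟩
    · exact ⟨hI.some, fun e => absurd e hc'⟩
  choose rep hrep using hrep
  have hp0 : 0 < (ρL ^ 2 - 3 * η) * v := mul_pos (by linarith only [hη2, hη0]) hv
  have hp : ∀ c, c ∉ Δ → (ρL ^ 2 - 3 * η) * v ≤ prs (U \ B) c ∧
      (prs (U \ B) c : ℝ) ≤ (ρL ^ 2 + η) * v := by
    intro c hc'
    have h1 := abs_le.1 (gprU c hc')
    have h2 : (prs (U \ B) c : ℝ) ≤ prs U c := by exact_mod_cast (prs_remove U B c).1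
    have h3 : (prs U c : ℝ) ≤ prs (U \ B) c + 2 * B.card := by exact_mod_cast (prs_remove U B c).2
    constructor <;> linarith only [h1.1, h1.2, h2, h3, hεv, hBη]
  obtain ⟨u1, u2, u3, u4, u5, u6⟩ := u0_facts (U \ B) Δ col hp0 hp
  have htot : ∑ x, ∑ e, u0 (U \ B) Δ col x e =
      Multiset.card ((univ.val.map col).filter fun c => c ∉ Δ) := by
    have h1 := card_filter_col col fun c => c ∉ Δ
    have h2 : Multiset.card ((univ.val.map col).filter fun c => c ∉ Δ) =
        (univ.filter fun e => col e ∉ Δ).card := by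
      refine Eq.trans ?_ (h1.trans ?_)
      · congr
      · congr
    rw [sum_comm, sum_congr rfl fun e _ => u3 e, h2, card_filter]
    push_cast
    refine sum_congr rfl fun e _ => ?_
    by_cases e1 : col e ∈ Δ <;> simp [e1]
  rw [hcol] at u4 u6 htot
  obtain ⟨L'', hL''⟩ : ∃ L'', L'' = (L - E.val).filter fun c => c ∉ Δ := ⟨_, rfl⟩
  rw [← hL''] at u6 htot
  have hL''L : L'' ≤ L := hL'' ▸ (Multiset.filter_le _ _).trans hL'L
  have hm : (Multiset.card ((L - E.val).filter fun c => c ∈ Δ) : ℝ) ≤ ε * v := by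
    have h1 := card_filter_mem_le (L - E.val) Δ (t := γ * v) fun c =>
      le_trans (by exact_mod_cast Multiset.count_le_of_le c hL'L) (hcnt c)
    have h2 := mul_le_mul_of_nonneg_right hΔγ hv.le
    linarith only [h1, h2]
  have hm0 : (0 : ℝ) ≤ Multiset.card ((L - E.val).filter fun c => c ∈ Δ) := Nat.cast_nonneg _
  have hL''c : (Multiset.card L'' : ℝ) =
      ρL * v - E.card - Multiset.card ((L - E.val).filter fun c => c ∈ Δ) := by
    have h1 := congrArg Multiset.card (Multiset.filter_add_not (fun c => c ∈ Δ) (L - E.val))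
    rw [Multiset.card_add, ← hL''] at h1
    rw [← hL'c, ← h1]
    push_cast
    ring
  generalize (Multiset.card ((L - E.val).filter fun c => c ∈ Δ) : ℝ) = m at hm hm0 hL''c
  have hE0 : (0 : ℝ) ≤ E.card := Nat.cast_nonneg _
  have hdeg : ∀ x ∈ U \ B, x ∉ O → |deg col (u0 (U \ B) Δ col) x - 2| ≤ 16 * η / ρL ^ 2 := by
    intro x hx hxO
    have h1 := abs_le.1 (gnbU x hxO)
    have h2 := gnb0 x hxO
    obtain ⟨h3, h4⟩ := nb_remove hL''L (U := U) hB x
    have h3' : (nb L'' (U \ B) x : ℝ) ≤ nb L U x := by exact_mod_cast h3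
    have h4' : (nb L U x : ℝ) ≤ nb L'' (U \ B) x + nb L R₀ x +
        2 * ((Multiset.card L : ℝ) - Multiset.card L'') := by
      rw [← Nat.cast_sub (Multiset.card_le_card hL''L)]
      exact_mod_cast h4
    rw [hL] at h1 h4'
    refine mllight_deg hσ hη0.le hη2 hv ?_ ?_ (u6 x hx).1 (u6 x hx).2
    · linarith only [h1.1, h2, h4', hL''c, hm, hBE', hBη, hεv]
    · linarith only [h1.2, h3', hεv]
  have hBd : ∀ x, deg col (u0 (U \ B) Δ col) x ≤ 4 / ρL ^ 2 := by
    intro x
    by_cases hx : x ∈ U \ B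
    · refine (u6 x hx).2.trans ?_
      have h1 : nb L'' (U \ B) x ≤ 2 * Multiset.card L'' := by
        unfold nb
        rw [two_mul]
        exact add_le_add (Multiset.card_le_card (Multiset.filter_le _ _))
          (Multiset.card_le_card (Multiset.filter_le _ _))
      have h1' : (nb L'' (U \ B) x : ℝ) ≤ 2 * Multiset.card L'' := by exact_mod_cast h1
      have h2 : (nb L'' (U \ B) x : ℝ) ≤ 2 * v := by linarith only [h1', hL''c, hm0, hE0, hρv]
      rw [div_le_div_iff₀ hp0 hσ]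
      have h3 := mul_le_mul_of_nonneg_right h2 hσ.le
      linarith only [h3, hηv, hηv0]
    · rw [deg_eq_zero u2 hx]
      positivity
  have hw : 0 < v ^ (h - 1) := by positivity
  have hch : ∀ a ∈ U \ B, ∀ b ∈ U \ B,
      c / 2 * v ^ (h - 1) ≤ (Ch ab h 2 (U \ B) (D \ (E ∪ Δ)) a b).card := by
    intro x _ y _
    have h1 := gchU x y
    have h2 : ((Ch ab h 2 U D x y).card : ℝ) ≤ (Ch ab h 2 (U \ B) (D \ (E ∪ Δ)) x y).card +
        2 * h * (B.card + (E ∪ Δ).card) * v ^ (h - 2) := by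
      rw [hvdef]
      exact_mod_cast ch_remove H hD (Or.inr rfl) hh U D B (E ∪ Δ) x y
    have h3 : ((E ∪ Δ).card : ℝ) ≤ E.card + Δ.card := by exact_mod_cast card_union_le E Δ
    have h4 : (B.card : ℝ) + (E ∪ Δ).card ≤ 3 * η * v := by
      linarith only [h3, hBE', hBη, hΔ, hεv]
    have h5 : v ^ (h - 1) = v * v ^ (h - 2) := by
      rw [← pow_succ']
      congr 1
      omega
    have h6 : 2 * h * ((B.card : ℝ) + (E ∪ Δ).card) * v ^ (h - 2) ≤
        2 * h * (3 * η * v) * v ^ (h - 2) :=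
      mul_le_mul_of_nonneg_right (mul_le_mul_of_nonneg_left h4 (by positivity)) (by positivity)
    have h7 : 2 * h * (3 * η * v) * v ^ (h - 2) = 6 * h * η * v ^ (h - 1) := by
      rw [h5]
      ring
    have h9 : c / 2 + 6 * h * η ≤ c₀ * ρL ^ (7 * h) - ε := by
      linarith only [h8, hη3, h3η, hεη, hη0]
    have h10 := mul_le_mul_of_nonneg_right h9 hw.le
    linarith only [h10, h1, h2, h6, h7]
  have hVlow : ρL * v / 2 ≤ ((U \ B).card : ℝ) := by
    linarith only [hUc.1, hVc, hBη, hεv, hηv, hσv, hηv0]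
  have hVpos : 0 < (U \ B).card := by
    have : (0 : ℝ) < (U \ B).card := lt_of_lt_of_le (by positivity) hVlow
    exact_mod_cast this
  have hεv0 : 0 < ε * v := by positivity
  have b1 : ∀ e, ∑ x, u0 (U \ B) Δ col x e ≤ 1 := fun e => by
    rw [u3 e]
    split_ifs <;> norm_num
  have b2 : ∀ x c, ∑ e ∈ univ.filter (fun e => col e = c), u0 (U \ B) Δ col x e ≤
      2 * γ / ρL ^ 2 := fun x c => by
    refine (u4 x c).trans ?_
    have h1 : ((L - E.val).count c : ℝ) ≤ γ * v :=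
      le_trans (by exact_mod_cast Multiset.count_le_of_le c hL'L) (hcnt c)
    rw [div_le_div_iff₀ hp0 hσ]
    have h2 := mul_le_mul_of_nonneg_right h1 hσ.le
    have h3 : γ * (ρL ^ 2 * v) ≤ γ * (2 * ((ρL ^ 2 - 3 * η) * v)) :=
      mul_le_mul_of_nonneg_left (by linarith only [hηv, hηv0]) hγ0
    linarith only [h2, h3]
  have b3 : ∀ c ∈ D \ (E ∪ Δ), ∀ x ∈ U \ B, x + c ∈ U \ B →
      ((ρL ^ 2 + η) * v)⁻¹ ≤ u0 (U \ B) Δ col x (rep c) := fun c hc' x hx hx' => u5 x (rep c)
    (by rw [hrep c hc']; exact fun e => (mem_sdiff.1 hc').2 (mem_union_right _ e)) hx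
    (by rw [hrep c hc']; exact hx')
  have b4 : (O.card : ℝ) ≤ 2 * ε * Fintype.card G := by
    rw [← hvdef]
    linarith only [gcO, hεv0]
  have b5 : |∑ x, ∑ e, u0 (U \ B) Δ col x e - (U \ B).card| ≤ 2 * ε * Fintype.card G := by
    rw [htot, abs_le, ← hvdef]
    constructor <;> linarith only [hUc.1, hUc.2, hVc, hBE', hL''c, hm, hm0, hv1]
  have b6 : 4 * h * (16 * η / ρL ^ 2) * (Fintype.card G : ℝ) ^ (h - 1) ≤
      ((ρL ^ 2 + η) * v)⁻¹ * (c / 2 * v ^ (h - 1)) * (U \ B).card := by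
    rw [← hvdef]
    exact mllight_num hc7 hr hρ hρ1 hη0.le (by linarith only [hη2, hσ1, hρ1, hη0]) hη1 hv hw.le hVlow
  obtain ⟨u', F⟩ := boost H (by omega : 1 ≤ h) col (U \ B) (D \ (E ∪ Δ)) O rep hrep
    (u0 (U \ B) Δ col) u1 u2 b1 b2 b3 (by positivity) hdeg hBd b4 b5 hVpos (by positivity) hch b6
  have hε1 : ε ≤ ρL ^ 2 * (a / 4) :=
    hε.trans (mul_le_mul hr2 (min_le_left _ _) (by positivity) hσ.le)
  have hε2 : ε ≤ ρL ^ 2 * (τ / 200) :=
    hε.trans (mul_le_mul hr2 (min_le_right _ _) (by positivity) hσ.le)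
  have F' : Frac (U \ B) col u' a (τ / 10) := by
    refine mllight_mono F ?_ ?_
    · rw [← mul_div_assoc, div_le_iff₀ hσ]
      linarith only [hε1, hγ]
    · have h1 : (4 : ℝ) ≤ 4 / ρL ^ 2 := by
        rw [le_div_iff₀ hσ]
        linarith only [hσ1, hρ1]
      have h2 : 4 / ρL ^ 2 * ε ≤ τ / 50 := by
        rw [div_mul_eq_mul_div, div_le_iff₀ hσ]
        linarith only [hε2]
      have h3 := mul_le_mul_of_nonneg_right h1 hε0.le
      linarith only [h2, h3, hτ]
  obtain ⟨n, C, hS, hC, hn⟩ := hround G ab I col (U \ B) u' H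
    (fun e => hab _ (Multiset.subset_of_le hL'L
      (hcol ▸ Multiset.mem_map_of_mem col (mem_univ e))))
    (by
      have : (Fintype.card I : ℝ) ≤ v := by linarith only [hIc, hρv, hE0]
      rw [hvdef] at this
      exact_mod_cast this) F'
  rw [← hvdef] at hn
  refine ⟨n, C, hS, ?_, by linarith only [hn]⟩
  rw [hcol] at hC
  exact (le_tsub_iff_right hEL).1 hC

end Pool.Agent.Lib.MP_7ae50b_co.ML
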