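import Pool.Agent.Lib.MP_7ae50b_co.MLCnt

set_option autoImplicit false
set_option linter.unusedSectionVars false

/-! From counts to robust existence of connectors, double chains and pairs. -/

namespace Pool.Agent.Lib.MP_7ae50b_co.ML

open Finset
open scoped Classical

variable {G : Type} [AddCommGroup G] [Fintype G] {ab : G → G} {h φ : ℕ} {S D : Finset G}

theorem mlprop_range (f : ℕ → G) (n : ℕ) :
    (Multiset.range (n + 1)).map f = f 0 ::ₘ (Multiset.range n).map fun i => f (i + 1) := by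
  induction n with
  | zero => simp
  | succ n ih =>
    rw [Multiset.range_succ, Multiset.map_cons, ih, Multiset.range_succ, Multiset.map_cons,
      Multiset.cons_swap]

theorem mlprop_Ioo (x : ℕ → G) (n : ℕ) :
    (Ioo 0 (n + 1)).val.map x = (Multiset.range n).map fun i => x (i + 1) := by
  have e : Ioo 0 (n + 1) = (range n).map ⟨fun i => i + 1, add_left_injective 1⟩ := by
    ext i
    simp only [mem_Ioo, mem_map, mem_range, Function.Embedding.coeFn_mk]
    exact ⟨fun hi => ⟨i - 1, by omega, by omega⟩, fun ⟨j, h1, h2⟩ => by omega⟩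
  rw [e, map_val, Multiset.map_map]
  rfl

theorem mlprop_univ (f : ℕ → G) :
    ((univ : Finset (Fin h)).val.map fun l : Fin h => f (l : ℕ)) = (Multiset.range h).map f := by
  have e : (univ : Finset (Fin h)).map Fin.valEmbedding = range h := by
    rw [Fin.map_valEmbedding_univ, Nat.Iio_eq_range]
  rw [← range_val, ← e, map_val, Multiset.map_map]
  rfl

theorem mlprop_lk (n : ℕ) (x : ℕ → G) :
    Lk ab (x 0) (x (n + 1)) ((Multiset.range n).map fun i => x (i + 1))
      ((Multiset.range (n + 1)).map fun l => ab (x (l + 1) - x l)) := by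
  induction n generalizing x with
  | zero => simpa using Lk.edge (x 0) (x 1)
  | succ n ih =>
    rw [mlprop_range, mlprop_range (fun l => ab (x (l + 1) - x l))]
    exact Lk.cons (x 0) (ih fun i => x (i + 1))

theorem mlprop_dc (n : ℕ) (x : ℕ → G)
    (hx : ∀ l < n, ab (x (2 * l + 1 + 1) - x (2 * l + 1)) = ab (x (2 * l + 1) - x (2 * l))) :
    DC ab n (x 0) (x (2 * n)) ((Multiset.range (2 * n + 1)).map x)
      ((Multiset.range n).map fun l => ab (x (2 * l + 1) - x (2 * l))) := by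
  induction n with
  | zero => simpa using DC.nil (x 0)
  | succ n ih =>
    refine ((ih fun l hl => hx l (by omega)).snoc (x (2 * n + 1)) (x (2 * n + 1 + 1))
      (hx n (by omega))).cast ?_ ?_
    · rw [show 2 * (n + 1) + 1 = 2 * n + 1 + 1 + 1 by ring, Multiset.range_succ (2 * n + 1 + 1),
        Multiset.range_succ (2 * n + 1), Multiset.map_cons, Multiset.map_cons, Multiset.cons_swap]
    · rw [Multiset.range_succ, Multiset.map_cons]

theorem mlprop_fresh {m : ℕ} {a b : G} {β : Fin h → G} {UV UC : Multiset G}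
    (h1 : β ∈ Ch ab h m S D a b) (h2 : ∀ s, 0 < s → s < m * h → pt m a β s ∉ UV)
    (h3 : ∀ l, ab (β l) ∉ UC)
    (h4 : ∀ s s', 0 < s → s < s' → s' < m * h → pt m a β s ≠ pt m a β s')
    (h5 : Function.Injective fun l => ab (β l)) :
    Fresh S UV ((Ioo 0 (m * h)).val.map (pt m a β)) ∧
      Fresh D UC (univ.val.map fun l => ab (β l)) := by
  obtain ⟨-, g2, g3⟩ := mem_Ch.1 h1
  refine ⟨⟨Multiset.Nodup.map_on (fun s hs s' hs' e => ?_) (Ioo _ _).nodup, fun x hx => ?_⟩,
    univ.nodup.map h5, fun x hx => ?_⟩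
  · obtain ⟨p1, p2⟩ := mem_Ioo.1 (mem_def.2 hs)
    obtain ⟨q1, q2⟩ := mem_Ioo.1 (mem_def.2 hs')
    rcases lt_trichotomy s s' with h | h | h
    · exact absurd e (h4 s s' p1 h q2)
    · exact h
    · exact absurd e.symm (h4 s' s q1 h p2)
  · obtain ⟨s, hs, rfl⟩ := Multiset.mem_map.1 hx
    obtain ⟨p1, p2⟩ := mem_Ioo.1 (mem_def.2 hs)
    exact ⟨g3 s p1 p2, h2 s p1 p2⟩
  · obtain ⟨l, -, rfl⟩ := Multiset.mem_map.1 hx
    exact ⟨g2 l, h3 l⟩

/-- Decreasing induction on `j`: a connector from `pt 1 a β j` to the end (`Lk.edge`, `Lk.cons`,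
`pt_succ`). -/
theorem lk_chain (hh : 1 ≤ h) (a : G) (β : Fin h → G) :
    Lk ab a (pt 1 a β (1 * h)) ((Ioo 0 (1 * h)).val.map (pt 1 a β))
      (univ.val.map fun l => ab (β l)) := by
  obtain ⟨n, rfl⟩ : ∃ n, h = n + 1 := ⟨h - 1, by omega⟩
  have h1 := mlprop_lk (ab := ab) n (pt 1 a β)
  rw [pt_zero, ← mlprop_univ (fun l => ab (pt 1 a β (l + 1) - pt 1 a β l))] at h1
  have e : (fun l : Fin (n + 1) => ab (pt 1 a β (l + 1) - pt 1 a β l)) = fun l => ab (β l) := by
    funext l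
    have := pt_succ 1 a β l (t := 0) one_pos
    simp only [one_mul, add_zero] at this
    rw [this, add_sub_cancel_left]
  rw [one_mul, mlprop_Ioo, ← e]
  exact h1

/-- Induction on `j ≤ h` with `DC.snoc` and `pt_succ`. -/
theorem dc_chain (hh : 1 ≤ h) (a : G) (β : Fin h → G) :
    DC ab h a (pt 2 a β (2 * h)) (a ::ₘ pt 2 a β (2 * h) ::ₘ (Ioo 0 (2 * h)).val.map (pt 2 a β))
      (univ.val.map fun l => ab (β l)) := by
  have s0 : ∀ l : Fin h, pt 2 a β (2 * l + 1) - pt 2 a β (2 * l) = β l := fun l => by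
    have := pt_succ 2 a β l (t := 0) two_pos
    simp only [add_zero] at this
    rw [this, add_sub_cancel_left]
  have s1 : ∀ l : Fin h, pt 2 a β (2 * l + 1 + 1) - pt 2 a β (2 * l + 1) = β l := fun l => by
    rw [pt_succ 2 a β l (t := 1) one_lt_two, add_sub_cancel_left]
  have h1 := mlprop_dc (ab := ab) h (pt 2 a β) fun l hl => by
    rw [s0 ⟨l, hl⟩, s1 ⟨l, hl⟩]
  rw [pt_zero, ← mlprop_univ (fun l => ab (pt 2 a β (2 * l + 1) - pt 2 a β (2 * l)))] at h1
  refine h1.cast ?_ (by simp only [s0])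
  obtain ⟨n, hn⟩ : ∃ n, 2 * h = n + 1 := ⟨2 * h - 1, by omega⟩
  rw [hn, mlprop_range, mlprop_Ioo, pt_zero, Multiset.range_succ, Multiset.map_cons]

theorem linkP_of (H : Ab ab) (hD : Dbl G) (hh : 3 ≤ h) (hc : ∀ a b,
    (4 * h * φ + 6 * h ^ 2) * Fintype.card G ^ (h - 2) < (Ch ab h 1 S D a b).card) :
    LinkP ab S D φ h := by
  intro a b UV UC hV hC
  obtain ⟨β, h1, h2, h3, h4, h5⟩ := exists_chain H hD (Or.inl rfl) hh (hc a b) UV UC hV hC
  obtain ⟨f1, f2⟩ := mlprop_fresh h1 h2 h3 h4 h5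
  have h6 := lk_chain (ab := ab) (by omega) a β
  rw [(mem_Ch.1 h1).1] at h6
  exact ⟨_, _, h6, f1, f2, by simp, by simp⟩

theorem dcP_of (H : Ab ab) (hD : Dbl G) (hh : 3 ≤ h) (hc : ∀ a b,
    (4 * h * φ + 6 * h ^ 2) * Fintype.card G ^ (h - 2) < (Ch ab h 2 S D a b).card) :
    DCP ab S D φ h := by
  intro a b UV UC hV hC
  obtain ⟨β, h1, h2, h3, h4, h5⟩ := exists_chain H hD (Or.inr rfl) hh (hc a b) UV UC hV hC
  obtain ⟨f1, f2⟩ := mlprop_fresh h1 h2 h3 h4 h5
  have h6 := dc_chain (ab := ab) (by omega) a β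
  rw [(mem_Ch.1 h1).1] at h6
  exact ⟨_, _, h6, f1, f2⟩

theorem pairP_of (hc : ∀ c, 2 * φ < prs S c) : PairP S φ := by
  intro c UV hV
  by_contra hne
  push Not at hne
  have h1 : (univ.filter fun x => x ∈ S ∧ x + c ∈ S) ⊆
      UV.toFinset ∪ UV.toFinset.image fun y => y - c := by
    intro w hw
    obtain ⟨w1, w2⟩ := (mem_filter.1 hw).2
    by_cases e : w ∈ UV
    · exact mem_union_left _ (Multiset.mem_toFinset.2 e)
    · exact mem_union_right _ (mem_image.2 ⟨w + c, Multiset.mem_toFinset.2 (hne w w1 w2 e),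
        add_sub_cancel_right _ _⟩)
  have h2 := (card_le_card h1).trans (card_union_le _ _)
  have h3 := card_image_le (s := UV.toFinset) (f := fun y => y - c)
  have h4 := UV.toFinset_card_le
  have h5 := hc c
  unfold prs at h5
  omega

end Pool.Agent.Lib.MP_7ae50b_co.ML
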