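import Pool.Agent.Lib.MP_7ae50b_co.MLRandB

set_option autoImplicit false
set_option linter.unusedSectionVars false

/-! The random choice of the sets `U, R₀, R, D₁`. -/

namespace Pool.Agent.Lib.MP_7ae50b_co.ML

open Finset Pool.Agent.Lib.MP_34bdde_co
open scoped Classical

section Gen

variable {ι : Type} [Fintype ι] {p : ι → ℝ} {G : Type} [AddCommGroup G] [Fintype G]

theorem mlrandc_or (hp : ∀ i, 0 ≤ p i ∧ p i ≤ 1) {b b' : Finset ι → Prop} {s t : ℝ}
    (h : Pr p b ≤ s) (h' : Pr p b' ≤ t) : Pr p (fun A => b A ∨ b' A) ≤ s + t :=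
  (Pr_or hp b b').trans (add_le_add h h')

theorem mlrandc_prod {s : Finset ι} {q : ℝ} {n : ℕ} (hq0 : 0 ≤ q) (hq1 : q ≤ 1) (hs : s.card ≤ n)
    (h : ∀ i ∈ s, q ≤ p i) : q ^ n ≤ ∏ i ∈ s, p i := by
  refine (pow_le_pow_of_le_one hq0 hq1 hs).trans ?_
  rw [← prod_const]
  exact prod_le_prod (fun _ _ => hq0) h

theorem mlrandc_exp {ε v K K' : ℝ} (hv : 0 ≤ v) (hK : 0 < K) (h : K ≤ K') :
    2 * Real.exp (-(ε ^ 2 * v / K)) ≤ 2 * Real.exp (-(ε ^ 2 / K' * v)) := by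
  refine mul_le_mul_of_nonneg_left (Real.exp_le_exp.2 (neg_le_neg ?_)) zero_le_two
  rw [div_mul_eq_mul_div]
  exact div_le_div_of_nonneg_left (by positivity) hK h

theorem mlrandc_nb (hp : ∀ i, 0 ≤ p i ∧ p i ≤ 1) {vb : G → Finset ι} {T : ℕ} (hT : 1 ≤ T)
    (hb : Bits vb T) (L : Multiset G) (hL : Multiset.card L ≤ Fintype.card G)
    {ε : ℝ} (hε : 0 < ε) (hε1 : ε ≤ 1)
    (hc : ∀ c, (L.count c : ℝ) ≤ ε ^ 3 / (192 * T) * Fintype.card G) (x : G) :
    Pr p (fun A => 2 * ε * Fintype.card G < |(nb L (sel vb univ A) x : ℝ) -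
      ((L.map fun c => ∏ i ∈ vb (x + c), p i).sum + (L.map fun c => ∏ i ∈ vb (x - c), p i).sum)|) ≤
      ε / 4 := by
  have hT' : (0 : ℝ) < T := by exact_mod_cast hT
  have h1 := nb_tail hp hT hb L hL (by positivity) hc (f := fun c => x + c)
    (add_right_injective x) hε.le hε1
  have h2 := nb_tail hp hT hb L hL (by positivity) hc (f := fun c => x - c)
    sub_right_injective hε.le hε1
  have h3 : Real.exp (-(ε ^ 2 / (12 * T * (ε ^ 3 / (192 * T))))) ≤ ε / 16 := by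
    have e : ε ^ 2 / (12 * T * (ε ^ 3 / (192 * T))) = (ε / 16)⁻¹ := by
      field_simp
      norm_num
    rw [e, Real.exp_neg, inv_le_comm₀ (Real.exp_pos _) (by positivity)]
    linarith [Real.add_one_le_exp (ε / 16)⁻¹]
  refine (Pr_mono hp ?_).trans ((mlrandc_or hp h1 h2).trans (by linarith))
  intro A hA
  by_contra hn
  rw [not_or, not_le, not_le, abs_lt, abs_lt] at hn
  rw [nb, Nat.cast_add, lt_abs] at hA
  rcases hA with hA | hA <;> linarith [hn.1.1, hn.1.2, hn.2.1, hn.2.2]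

theorem mlrandc_gen {h T : ℕ} (hh : 3 ≤ h) (hT : 1 ≤ T) {ε : ℝ} (hε : 0 < ε) (hε1 : ε ≤ 1)
    {ab : G → G} {c₀ ρL η ρ : ℝ} {pc : G → G} {Δ D : Finset G} {L : Multiset G} (H : Ab ab)
    (hD : Dbl G)
    (hN : (Fintype.card G : ℝ) ^ 2 *
      (2 * Real.exp (-(ε ^ 2 / (112 * h ^ 2 * T) * Fintype.card G))) ≤ 1 / 100)
    (r0 : 0 ≤ ρ) (r1 : ρ ≤ η) (r2 : η ≤ ρL) (r3 : ρL ≤ 1)
    (hL : Multiset.card L ≤ Fintype.card G)
    (hc : ∀ c, (L.count c : ℝ) ≤ ε ^ 3 / (192 * T) * Fintype.card G)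
    (hch : ∀ m, m = 1 ∨ m = 2 → ∀ a b : G,
      c₀ * (Fintype.card G : ℝ) ^ (h - 1) ≤ (Ch ab h m univ D a b).card)
    (hp : ∀ i, 0 ≤ p i ∧ p i ≤ 1) {vb0 vb1 vb2 cb : G → Finset ι} (b0 : Bits vb0 T)
    (b1 : Bits vb1 T) (b2 : Bits vb2 T) (b3 : Bits cb T) (c3 : ∀ c, (cb c).card ≤ 1)
    (s1 : ∀ x, vb0 x ⊆ vb1 x) (s2 : ∀ x, vb1 x ⊆ vb2 x) (hu : ∀ x y, pc x = pc y → vb0 x = vb0 y)
    (p0 : ∀ x, ∏ i ∈ vb0 x, p i = ρL) (p1 : ∀ x, ∏ i ∈ vb1 x, p i ≤ η)
    (p2 : ∀ x, ∏ i ∈ vb2 x, p i ≤ ρ) (p3 : ∀ x, ∏ i ∈ cb x, p i ≤ ρ)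
    (l0 : ∀ x, ∀ i ∈ vb0 x, ρL ≤ p i) (l1 : ∀ x, ∀ i ∈ vb1 x, η ≤ p i)
    (l2 : ∀ x, ∀ i ∈ vb2 x, ρ ≤ p i) (l3 : ∀ x, ∀ i ∈ cb x, ρ ≤ p i)
    (hdis : ∀ c, c ∉ Δ → ∀ x, Disjoint (vb0 x) (vb0 (x + c))) :
    ∃ U R₀ R D₁ O, Good ab h c₀ ρL η ρ ε pc Δ D L U R₀ R D₁ O := by
  have hT' : (1 : ℝ) ≤ T := by exact_mod_cast hT
  have hh' : (1 : ℝ) ≤ (h : ℝ) ^ 2 := one_le_pow₀ (by exact_mod_cast (by omega : 1 ≤ h))
  have hv : (1 : ℝ) ≤ Fintype.card G := by exact_mod_cast Fintype.card_pos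
  have hL' : (Multiset.card L : ℝ) ≤ Fintype.card G := by exact_mod_cast hL
  have hη0 : 0 ≤ η := r0.trans r1
  have hη1 : η ≤ 1 := r2.trans r3
  set δ : ℝ := 2 * Real.exp (-(ε ^ 2 / (112 * h ^ 2 * T) * Fintype.card G)) with hδ
  have hδ0 : 0 ≤ δ := by positivity
  have k1 : 2 * Real.exp (-(ε ^ 2 * Fintype.card G / (12 * T))) ≤ δ :=
    mlrandc_exp (by positivity) (by positivity) (by nlinarith)
  have k2 : 2 * Real.exp (-(ε ^ 2 * Fintype.card G / (48 * T))) ≤ δ :=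
    mlrandc_exp (by positivity) (by positivity) (by nlinarith)
  have k3 : 2 * Real.exp (-(ε ^ 2 * Fintype.card G / (112 * h ^ 2 * T))) ≤ δ :=
    mlrandc_exp (by positivity) (by positivity) le_rfl
  have d1 : (Fintype.card G : ℝ) * δ ≤ 1 / 100 :=
    (mul_le_mul_of_nonneg_right (by nlinarith) hδ0).trans hN
  have d0 : δ ≤ 1 / 100 := (le_mul_of_one_le_left hδ0 hv).trans d1
  have f1 : ∀ b : G → Finset ι → Prop, (∀ c, Pr p (b c) ≤ δ) →
      Pr p (fun A => ∃ c, b c A) ≤ 1 / 100 := fun b hb => (Pr_exists hp b hb).trans d1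
  have f2 : ∀ b : G × G → Finset ι → Prop, (∀ c, Pr p (b c) ≤ δ) →
      Pr p (fun A => ∃ c, b c A) ≤ 1 / 100 := fun b hb => (Pr_exists hp b hb).trans (by
    rw [Fintype.card_prod, Nat.cast_mul, ← pow_two]
    exact hN)
  have be : Bits (fun _ : G => (∅ : Finset ι)) T := ⟨fun _ => by simp, fun _ => by simp⟩
  have se : ∀ A : Finset ι, sel (fun _ : G => (∅ : Finset ι)) D A = D := fun A => by simp [sel]
  have up : ∀ {vb : G → Finset ι}, Bits vb T → (∀ x, ∏ i ∈ vb x, p i ≤ ρ) → ∀ S : Finset G,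
      Pr p (fun A => (ρ + ε) * Fintype.card G < (sel vb S A).card) ≤ 1 / 100 := by
    intro vb hb hq S
    refine (Pr_mono hp ?_).trans ((card_tail hp hT hb S hε.le hε1).trans (k1.trans d0))
    intro A hA
    have a1 : ∑ x ∈ S, ∏ i ∈ vb x, p i ≤ S.card • ρ := sum_le_card_nsmul _ _ _ fun x _ => hq x
    have a2 : (S.card : ℝ) ≤ Fintype.card G := by exact_mod_cast card_le_univ S
    rw [nsmul_eq_mul] at a1
    refine le_trans ?_ (le_abs_self _)
    nlinarith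
  have lo : ∀ {vb : G → Finset ι} {q : ℝ}, Bits vb T → 0 ≤ q → q ≤ 1 →
      (∀ x, ∀ i ∈ vb x, q ≤ p i) →
      Pr p (fun A => ∃ c, (prs (sel vb univ A) c : ℝ) < (q ^ 6 - ε) * Fintype.card G) ≤ 1 / 100 := by
    intro vb q hb q0 q1 hq
    refine f1 _ fun c => (Pr_mono hp ?_).trans ((prs_tail hp hT hb c hε.le hε1).trans k2)
    intro A hA
    have a1 : (univ : Finset G).card • q ^ 6 ≤ ∑ x, ∏ i ∈ vb x ∪ vb (x + c), p i :=
      card_nsmul_le_sum _ _ _ fun x _ => mlrandc_prod q0 q1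
        ((card_union_le _ _).trans (add_le_add (hb.three x) (hb.three (x + c))))
        fun i hi => (mem_union.1 hi).elim (hq _ i) (hq _ i)
    rw [nsmul_eq_mul, card_univ] at a1
    refine le_trans ?_ (neg_le_abs _)
    linarith
  have ch : ∀ {vb : G → Finset ι} {q : ℝ} (m : ℕ), m = 1 ∨ m = 2 → Bits vb T → 0 ≤ q → q ≤ 1 →
      (∀ x, ∀ i ∈ vb x, q ≤ p i) →
      Pr p (fun A => ∃ c : G × G, ((Ch ab h m (sel vb univ A) D c.1 c.2).card : ℝ) <
        (c₀ * q ^ (7 * h) - ε) * (Fintype.card G : ℝ) ^ (h - 1)) ≤ 1 / 100 := by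
    intro vb q m hm hb q0 q1 hq
    refine f2 _ fun c => ?_
    have := ch_tail hp H hD hm hh hT hb be (fun _ => by simp) q0 q1 hq (fun _ => by simp) D c.1 c.2
      (hch m hm c.1 c.2) hε.le hε1
    simp only [se] at this
    exact this.trans k3
  have e1 := up b2 p2 univ
  have e2 := up b3 p3 D
  have e3 : Pr p (fun A => ε * Fintype.card G <
      |((sel vb0 univ A).card : ℝ) - ρL * Fintype.card G|) ≤ 1 / 100 := by
    refine (Pr_mono hp ?_).trans ((card_tail hp hT b0 univ hε.le hε1).trans (k1.trans d0))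
    intro A hA
    simp only [p0, sum_const, card_univ, nsmul_eq_mul]
    rw [mul_comm _ ρL]
    exact hA.le
  have e4 := ch 2 (Or.inr rfl) b0 (hη0.trans r2) r3 l0
  have e5 := ch 1 (Or.inl rfl) b1 hη0 hη1 l1
  have e6 := ch 2 (Or.inr rfl) b1 hη0 hη1 l1
  have e7 : Pr p (fun A => ∃ c : G × G, ((Ch ab h 1 (sel vb2 univ A) (sel cb D A) c.1 c.2).card : ℝ) <
      (c₀ * ρ ^ (7 * h) - ε) * (Fintype.card G : ℝ) ^ (h - 1)) ≤ 1 / 100 :=
    f2 _ fun c => (ch_tail hp H hD (Or.inl rfl) hh hT b2 b3 c3 r0 (r1.trans hη1) l2 l3 D c.1 c.2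
      (hch 1 (Or.inl rfl) c.1 c.2) hε.le hε1).trans k3
  have e8 := lo b1 hη0 hη1 l1
  have e9 := lo b2 r0 (r1.trans hη1) l2
  have e10 : Pr p (fun A => ∃ c, c ∉ Δ ∧ ε * Fintype.card G <
      |(prs (sel vb0 univ A) c : ℝ) - ρL ^ 2 * Fintype.card G|) ≤ 1 / 100 := by
    refine f1 _ fun c => (Pr_mono hp ?_).trans ((prs_tail hp hT b0 c hε.le hε1).trans k2)
    intro A hA
    simp only [prod_union (hdis c hA.1 _), p0, sum_const, card_univ, nsmul_eq_mul]
    rw [mul_comm _ (ρL * ρL), ← pow_two]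
    exact hA.2.le
  have o1 : ∀ x, Pr p (fun A => 2 * ε * Fintype.card G <
      |(nb L (sel vb0 univ A) x : ℝ) - 2 * ρL * Multiset.card L|) ≤ ε / 4 := by
    intro x
    refine (Pr_mono hp ?_).trans (mlrandc_nb hp hT b0 L hL hε hε1 hc x)
    intro A hA
    simp only [p0, Multiset.map_const', Multiset.sum_replicate, nsmul_eq_mul]
    rwa [show (Multiset.card L : ℝ) * ρL + Multiset.card L * ρL = 2 * ρL * Multiset.card L by ring]
  have o2 : ∀ x, Pr p (fun A => 2 * (η + ε) * Fintype.card G < (nb L (sel vb1 univ A) x : ℝ)) ≤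
      ε / 4 := by
    intro x
    refine (Pr_mono hp ?_).trans (mlrandc_nb hp hT b1 L hL hε hε1 hc x)
    intro A hA
    have a1 : ∀ f : G → G, (L.map fun c => ∏ i ∈ vb1 (f c), p i).sum ≤ Fintype.card G * η := by
      intro f
      have := Multiset.sum_le_card_nsmul (L.map fun c => ∏ i ∈ vb1 (f c), p i) η fun y hy => by
        obtain ⟨c, -, rfl⟩ := Multiset.mem_map.1 hy
        exact p1 _
      rw [Multiset.card_map, nsmul_eq_mul] at this
      exact this.trans (mul_le_mul_of_nonneg_right hL' hη0)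
    have a2 := a1 fun c => x + c
    have a3 := a1 fun c => x - c
    refine lt_of_lt_of_le ?_ (le_abs_self _)
    linarith
  have e11 := (Pr_many hp _ (by positivity) hε fun x => mlrandc_or hp (o1 x) (o2 x)).trans
    (show (ε / 4 + ε / 4) / ε ≤ 1 / 2 by rw [div_le_iff₀ hε]; linarith)
  obtain ⟨A, hA⟩ := exists_of_Pr hp ((mlrandc_or hp e1 (mlrandc_or hp e2 (mlrandc_or hp e3
    (mlrandc_or hp e4 (mlrandc_or hp e5 (mlrandc_or hp e6 (mlrandc_or hp e7 (mlrandc_or hp e8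
    (mlrandc_or hp e9 (mlrandc_or hp e10 e11)))))))))).trans_lt (by norm_num))
  simp only [not_or, not_exists, not_and, not_lt] at hA
  obtain ⟨g1, g2, g3, g4, g5, g6, g7, g8, g9, g10, g11⟩ := hA
  refine ⟨sel vb0 univ A, sel vb1 univ A, sel vb2 univ A, sel cb D A, _,
    { uni := fun x y e hx => ?_
      sub1 := fun x hx => ?_
      sub2 := fun x hx => ?_
      sub3 := filter_subset _ _
      cR := g1
      cD := g2
      cU := g3
      chU := fun a b => g4 (a, b)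
      ch0 := ?_
      ch1 := fun a b => g7 (a, b)
      pr0 := g8
      pr1 := g9
      prU := g10
      cO := g11
      nbU := fun x hx => ?_
      nb0 := fun x hx => ?_ }⟩
  · simp only [sel, mem_filter, mem_univ, true_and] at hx ⊢
    rwa [← hu x y e]
  · simp only [sel, mem_filter, mem_univ, true_and] at hx ⊢
    exact (s2 x).trans hx
  · simp only [sel, mem_filter, mem_univ, true_and] at hx ⊢
    exact (s1 x).trans hx
  · rintro m (rfl | rfl) a b
    · exact g5 (a, b)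
    · exact g6 (a, b)
  · simp only [mem_filter, mem_univ, true_and, not_or, not_lt] at hx
    exact hx.1
  · simp only [mem_filter, mem_univ, true_and, not_or, not_lt] at hx
    exact hx.2

end Gen

/-- Bits `ι = Fin 4 × G` with probabilities `ρL, η, ρ, ρ`; `vb0 x = {(0, pc x)}`,
`vb1 x = {(0, pc x), (1, x)}`, `vb2 x = {(0, pc x), (1, x), (2, x)}`, `cb c = {(3, c)}` or `∅`
(`sel (fun _ => ∅) D A = D`); `Bits` by `piece_le`.  `U, R₀, R = sel vb0, vb1, vb2 univ A`,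
`D₁ = sel cb D A`, `O` is the set of `x` for which one of the four `nb_tail` events (for `vb0`,
`vb1` and `f c = x + c`, `x - c`) occurs.  All other failures have probability at most
`2 exp (-κ v)`, `κ = ε ^ 2 / (112 h ^ 2 T)`; there are at most `10` families indexed by at most
`v ^ 2` parameters (`Pr_or`, `Pr_exists`, `small_exp`); `Pr_many` for `O` with `γ` so small that
`8 exp (-(ε ^ 2 / (12 T γ))) ≤ ε / 2`. -/
theorem rand {h T : ℕ} (hh : 3 ≤ h) (hT : 1 ≤ T) {ε : ℝ} (hε : 0 < ε) (hε1 : ε ≤ 1) :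
    ∃ (γ : ℝ) (N : ℕ), 0 < γ ∧ ∀ (G : Type) [AddCommGroup G] [Fintype G] (ab : G → G)
      (c₀ ρL η ρ : ℝ) (pc : G → G) (Δ D : Finset G) (L : Multiset G), Ab ab → Dbl G →
      N ≤ Fintype.card G → 0 ≤ ρ → ρ ≤ η → η ≤ ρL → ρL ≤ 1 → Δ.card ≤ T →
      (∀ x y, pc x = pc y → x - y ∈ Δ) → Multiset.card L ≤ Fintype.card G →
      (∀ c, (L.count c : ℝ) ≤ γ * Fintype.card G) →
      (∀ m, m = 1 ∨ m = 2 → ∀ a b : G,
        c₀ * (Fintype.card G : ℝ) ^ (h - 1) ≤ (Ch ab h m univ D a b).card) →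
      ∃ U R₀ R D₁ O, Good ab h c₀ ρL η ρ ε pc Δ D L U R₀ R D₁ O := by
  have hT' : (0 : ℝ) < T := by exact_mod_cast hT
  have hh' : (0 : ℝ) < h := by exact_mod_cast (by omega : 0 < h)
  obtain ⟨N, hN⟩ := small_exp (κ := ε ^ 2 / (112 * h ^ 2 * T)) (by positivity)
  refine ⟨ε ^ 3 / (192 * T), N, by positivity, ?_⟩
  intro G _ _ ab c₀ ρL η ρ pc Δ D L H hD hv r0 r1 r2 r3 hΔ hpc hL hc hch
  let p : Fin 4 × G → ℝ := fun i => if i.1 = 0 then ρL else if i.1 = 1 then η else ρ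
  have q0 : ∀ x, p (0, x) = ρL := fun x => rfl
  have q1 : ∀ x, p (1, x) = η := fun x => rfl
  have q2 : ∀ x, p (2, x) = ρ := fun x => rfl
  have q3 : ∀ x, p (3, x) = ρ := fun x => rfl
  have hp : ∀ i, 0 ≤ p i ∧ p i ≤ 1 := by
    intro i
    simp only [p]
    split_ifs <;> constructor <;> linarith
  have use : ∀ (vb : G → Finset (Fin 4 × G)),
      (∀ x, ∀ i ∈ vb x, if i.1 = 0 then pc x = i.2 else x = i.2) → (∀ x, (vb x).card ≤ 3) →
      Bits vb T := by
    intro vb h1 h2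
    refine ⟨h2, fun i => ?_⟩
    by_cases hi : i.1 = 0
    · refine (card_le_card fun x hx => ?_).trans (piece_le hΔ hpc i.2)
      have := h1 x i (by simpa using hx)
      rw [if_pos hi] at this
      exact mem_filter.2 ⟨mem_univ _, this⟩
    · refine (card_le_card (t := {i.2}) fun x hx => ?_).trans (by rwa [card_singleton])
      have := h1 x i (by simpa using hx)
      rw [if_neg hi] at this
      exact mem_singleton.2 this
  have hsub : ∀ {s : Finset (Fin 4 × G)} {i : Fin 4 × G}, i ∈ s → ∏ j ∈ s, p j ≤ p i := by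
    intro s i hi
    rw [← mul_prod_erase s p hi]
    exact mul_le_of_le_one_right (hp i).1 (prod_le_one (fun j _ => (hp j).1) fun j _ => (hp j).2)
  refine mlrandc_gen hh hT hε hε1 H hD (hN _ hv) r0 r1 r2 r3 hL hc hch hp
    (vb0 := fun x => {(0, pc x)}) (vb1 := fun x => {(0, pc x), (1, x)})
    (vb2 := fun x => {(0, pc x), (1, x), (2, x)}) (cb := fun c => {(3, c)})
    (use _ ?_ fun x => by simp) (use _ ?_ fun x => card_le_two.trans (by norm_num))
    (use _ ?_ fun x => card_le_three) (use _ ?_ fun x => by simp) (fun c => by simp)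
    (fun x => by simp) (fun x => ?_) (fun x y e => by rw [e]) (fun x => by simp [q0])
    (fun x => (hsub (i := (1, x)) (by simp)).trans (q1 x).le)
    (fun x => (hsub (i := (2, x)) (by simp)).trans (q2 x).le) (fun x => by simp [q3])
    (fun x => by simp [q0]) (fun x => by simp [q0, q1, r2])
    (fun x => by simp [q0, q1, q2, r1, r1.trans r2]) (fun x => by simp [q3]) fun c hc x => ?_
  · simp
  · simp
  · simp
  · simp
  · intro i hi
    simp only [mem_insert, mem_singleton] at hi ⊢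
    tauto
  · rw [disjoint_singleton]
    intro e
    have := hpc (x + c) x (Prod.ext_iff.1 e).2.symm
    rw [add_sub_cancel_left] at this
    exact hc this

end Pool.Agent.Lib.MP_7ae50b_co.ML
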