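import Pool.Agent.Lib.MP_7ae50b_co.MLGad
import Pool.Agent.Lib.MP_34bdde_co.Template

set_option autoImplicit false
set_option linter.unusedSectionVars false

/-! The absorber: a bounded degree template between vertices and colours. -/

namespace Pool.Agent.Lib.MP_7ae50b_co.ML

open Finset
open scoped Classical

variable {G : Type}

theorem mltem_val {α : Type} {A : Finset α} {f : α → G} {B : Finset G}
    (h1 : ∀ x ∈ B, ∃ a ∈ A, f a = x) (h2 : A.card ≤ B.card) : A.val.map f = B.val := by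
  refine (Multiset.eq_of_le_of_card_le ((Multiset.le_iff_subset B.nodup).2 fun x hx => ?_) ?_).symm
  · exact Multiset.mem_map.2 (h1 x hx)
  · rwa [Multiset.card_map]

theorem mltem_sdiff {W S B : Finset G} (hS : S ⊆ W) {J : Multiset G} (hB : B.val = J + W.val) :
    (B \ S).val = J + (W \ S).val := by
  rw [sdiff_val, sdiff_val, hB, add_tsub_assoc_of_le (val_le_iff.2 hS)]

theorem mltem_sub {A R : Finset G} (h : A ⊆ R) : (A.subtype (· ∈ R)).card = A.card := by
  rw [card_subtype, filter_true_of_mem fun x hx => h hx]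

theorem exists_fresh {S : Finset G} {φ : ℕ}
    (h : ∀ U : Multiset G, Multiset.card U ≤ φ → ∃ x ∈ S, x ∉ U) (k : ℕ) (U : Multiset G)
    (hk : Multiset.card U + k ≤ φ) : ∃ I, Fresh S U I ∧ Multiset.card I = k := by
  induction k with
  | zero => exact ⟨0, ⟨Multiset.nodup_zero, fun _ hx => absurd hx (Multiset.notMem_zero _)⟩, rfl⟩
  | succ k ih =>
    obtain ⟨I, hI, cI⟩ := ih (by omega)
    obtain ⟨x, hx, hx'⟩ := h (U + I) (by rw [Multiset.card_add]; omega)
    rw [Multiset.mem_add, not_or] at hx'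
    refine ⟨x ::ₘ I, ⟨Multiset.nodup_cons.2 ⟨hx'.2, hI.1⟩, fun y hy => ?_⟩, by simp [cI]⟩
    rcases Multiset.mem_cons.1 hy with rfl | hy
    · exact ⟨hx, hx'.1⟩
    · exact hI.2 y hy

/-- `Pool.Agent.Lib.MP_34bdde_co.template` with `Z = R ⊕ D₁` (coerced to types), `Y = Fin (2 * s)`,
`T = Y'`.  Fix an equivalence `σ : D₁ ⊕ Fin (2 * s) ≃ X'`; the left vertex `inl (inl x)` is `x`,
`inl (inr c)` is `σ (inl c)`, `inr y` is `σ (inr y)`.  `F` consists of the template edges and the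
pairs `(σ (inl c), c)`.  Given `S, S'` take `Z' = (R \ S) ⊕ S'`, the matching `g`, and the pairs
`(σ (inl c), c)` with `c ∉ S'`.  To prove the two equalities use `Multiset.Nodup.ext`. -/
theorem tem_graph (R D₁ X' Y' : Finset G) (hX : Disjoint R X') (hY : Disjoint D₁ Y') {s : ℕ}
    (hs : s = R.card + D₁.card) (cX : X'.card = D₁.card + 2 * s) (cY : Y'.card = 2 * s + R.card) :
    ∃ F : Finset (G × G), (∀ e ∈ F, e.2 ∈ D₁ ∪ Y') ∧ F.card ≤ 181 * s ∧
      ∀ S ⊆ R, ∀ S' ⊆ D₁, S.card = S'.card → ∃ M ⊆ F,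
        M.val.map Prod.fst = ((R ∪ X') \ S).val ∧ M.val.map Prod.snd = ((D₁ ∪ Y') \ S').val := by
  obtain ⟨N, n1, n2, n3⟩ := Pool.Agent.Lib.MP_34bdde_co.template (R ⊕ D₁) (Fin (2 * s)) Y' s
    (by simp [hs]) (by simp) (by simp [cY]) (by simp only [Fintype.card_coe]; omega)
  let σ : D₁ ⊕ Fin (2 * s) ≃ X' := Fintype.equivOfCardEq (by simp [cX])
  let lf : (R ⊕ D₁) ⊕ Fin (2 * s) → G :=
    Sum.elim (Sum.elim (fun x => x.1) fun c => (σ (.inl c)).1) fun y => (σ (.inr y)).1
  refine ⟨(univ.biUnion fun l => (N l).image fun t => (lf l, t.1)) ∪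
    univ.image fun c : D₁ => ((σ (.inl c)).1, c.1), fun e he => ?_, ?_, fun S hS S' hS' hc => ?_⟩
  · simp only [mem_union, mem_biUnion, mem_image] at he ⊢
    rcases he with ⟨l, -, t, -, rfl⟩ | ⟨c, -, rfl⟩
    · exact Or.inr t.2
    · exact Or.inl c.2
  · have h1 : (univ.biUnion fun l => (N l).image fun t => (lf l, t.1)).card ≤ ∑ l, (N l).card :=
      card_biUnion_le.trans (sum_le_sum fun l _ => card_image_le)
    have h2 : ∑ z, (N (.inl z)).card ≤ s * 30 := by
      simpa [hs] using sum_le_card_nsmul univ _ 30 fun z _ => n1 z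
    have h3 : (univ.image fun c : D₁ => ((σ (.inl c)).1, c.1)).card ≤ D₁.card := by
      simpa using card_image_le (s := (univ : Finset D₁)) (f := fun c => ((σ (.inl c)).1, c.1))
    rw [Fintype.sum_sum_type] at h1
    refine (card_union_le _ _).trans ?_
    omega
  · have c1 := card_le_card hS
    have c2 := card_le_card hS'
    obtain ⟨g, g1, g2, g3⟩ := n3 (((R \ S).subtype (· ∈ R)).disjSum (S'.subtype (· ∈ D₁))) (by
      rw [card_disjSum, mltem_sub sdiff_subset, mltem_sub hS', card_sdiff_of_subset hS,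
        Fintype.card_coe]
      omega)
    let p : (R ⊕ D₁) ⊕ Fin (2 * s) → G :=
      Sum.elim (Sum.elim (fun x => (g (.inl (.inl x))).1)
        fun c => if c.1 ∈ S' then (g (.inl (.inr c))).1 else c.1) fun y => (g (.inr y)).1
    let A : Finset ((R ⊕ D₁) ⊕ Fin (2 * s)) :=
      (((R \ S).subtype (· ∈ R)).disjSum univ).disjSum univ
    have cA : A.card = R.card - S.card + D₁.card + 2 * s := by
      rw [card_disjSum, card_disjSum, mltem_sub sdiff_subset, card_sdiff_of_subset hS]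
      simp
    have e1 : A.val.map lf = ((R ∪ X') \ S).val := by
      refine mltem_val (fun x hx => ?_) ?_
      · obtain ⟨h1, h2⟩ := mem_sdiff.1 hx
        rcases mem_union.1 h1 with h1 | h1
        · exact ⟨.inl (.inl ⟨x, h1⟩), by simp [A, h1, h2], rfl⟩
        · obtain ⟨c | y, e⟩ := σ.surjective ⟨x, h1⟩
          · exact ⟨.inl (.inr c), by simp [A], congrArg Subtype.val e⟩
          · exact ⟨.inr y, by simp [A], congrArg Subtype.val e⟩
      · rw [cA, card_sdiff_of_subset (hS.trans subset_union_left), card_union_of_disjoint hX]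
        omega
    have e2 : A.val.map p = ((D₁ ∪ Y') \ S').val := by
      refine mltem_val (fun x hx => ?_) ?_
      · obtain ⟨h1, h2⟩ := mem_sdiff.1 hx
        rcases mem_union.1 h1 with h1 | h1
        · exact ⟨.inl (.inr ⟨x, h1⟩), by simp [A], if_neg h2⟩
        · obtain ⟨(y | c) | y, hl, e⟩ := g3.surjOn (Set.mem_univ ⟨x, h1⟩)
          · exact ⟨.inl (.inl y), by simpa [A] using hl _ rfl, congrArg Subtype.val e⟩
          · have h3 : c.1 ∈ S' := by simpa using hl _ rfl
            exact ⟨.inl (.inr c), by simp [A], (if_pos h3).trans (congrArg Subtype.val e)⟩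
          · exact ⟨.inr y, by simp [A], congrArg Subtype.val e⟩
      · rw [cA, card_sdiff_of_subset (hS'.trans subset_union_left), card_union_of_disjoint hY]
        omega
    have f1 : (A.val.map fun l => (lf l, p l)).map Prod.fst = ((R ∪ X') \ S).val := by
      rw [Multiset.map_map]
      exact e1
    have f2 : (A.val.map fun l => (lf l, p l)).map Prod.snd = ((D₁ ∪ Y') \ S').val := by
      rw [Multiset.map_map]
      exact e2
    refine ⟨⟨A.val.map fun l => (lf l, p l),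
      Multiset.Nodup.of_map Prod.fst (f1 ▸ Finset.nodup _)⟩, fun e he => ?_, f1, f2⟩
    obtain ⟨l, hl, rfl⟩ := Multiset.mem_map.1 he
    have k : ∀ l, g l ∈ N l → (lf l, (g l).1) ∈
        (univ.biUnion fun l => (N l).image fun t => (lf l, t.1)) ∪
          univ.image fun c : D₁ => ((σ (.inl c)).1, c.1) := fun l hl =>
      mem_union_left _ (mem_biUnion.2 ⟨l, mem_univ _, mem_image.2 ⟨_, hl, rfl⟩⟩)
    rcases l with (y | c) | y
    · exact k _ (g1 _ (by simpa [A] using hl))
    · by_cases h3 : c.1 ∈ S'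
      · have h4 : p (.inl (.inr c)) = (g (.inl (.inr c))).1 := if_pos h3
        rw [h4]
        exact k _ (g1 _ (by simpa using h3))
      · have h4 : p (.inl (.inr c)) = c.1 := if_neg h3
        rw [h4]
        exact mem_union_right _ (mem_image.2 ⟨c, mem_univ _, rfl⟩)
    · exact k _ (g2 y)

/-- Fresh vertices come from `pp` with `c = 0`, fresh colours from `lk` (`Lk.card`: `K ≠ 0`).
Choose `X'`, `Y'`, a vertex `u`, then `tem_graph` and `gad_chain` with `UV = (R ∪ X') + u`,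
`UC = D₁ ∪ Y'`; `B = R ∪ X' ∪ {u} ∪ I`, `E = D₁ ∪ Y' ∪ K`.  The equation for the cardinalities
follows from `Pth.card` with `S = S' = ∅`. -/
theorem absorber [AddCommGroup G] {ab : G → G} (H : Ab ab) {h φ : ℕ} (hh : 1 ≤ h)
    {R₀ D R D₁ : Finset G} (hR : R ⊆ R₀) (hD : D₁ ⊆ D) (hab : ∀ c ∈ D, ab c = c ∧ c ≠ 0)
    (lk : LinkP ab R₀ D φ h) (dc : DCP ab R₀ D φ h) (pp : PairP R₀ φ)
    (hφ : 1100 * h ^ 2 * (R.card + D₁.card + 1) ≤ φ) :
    ∃ (u t : G) (B E : Finset G), R ⊆ B ∧ B ⊆ R₀ ∧ D₁ ⊆ E ∧ E ⊆ D ∧ B.card ≤ φ ∧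
      B.card = E.card + 1 ∧ ∀ S ⊆ R, ∀ S' ⊆ D₁, S.card = S'.card →
        Pth ab u t (B \ S).val (E \ S').val := by
  set s := R.card + D₁.card with hs
  have h1 : 1 ≤ h ^ 2 := Nat.one_le_pow _ _ hh
  have h2 : 6 * h ^ 2 * (181 * s) + 3 * s + 1 ≤ φ := by nlinarith
  have h3 : 3 * s + 1 ≤ φ := by omega
  have fv : ∀ U : Multiset G, Multiset.card U ≤ φ → ∃ x ∈ R₀, x ∉ U := fun U hU =>
    let ⟨w, a, _, b, _⟩ := pp 0 U hU
    ⟨w, a, b⟩
  have fc : ∀ U : Multiset G, Multiset.card U ≤ φ → ∃ x ∈ D, x ∉ U := fun U hU => by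
    obtain ⟨I, K, a, -, b, -⟩ := lk 0 0 0 U (by simp) hU
    obtain ⟨x, hx⟩ := Multiset.card_pos_iff_exists_mem.1 ((Nat.succ_pos _).trans_eq a.card.symm)
    exact ⟨x, b.2 x hx⟩
  obtain ⟨X, hX, cX⟩ := exists_fresh fv (D₁.card + 2 * s) R.val (by rw [card_val]; omega)
  obtain ⟨Y, hY, cY⟩ := exists_fresh fc (2 * s + R.card) D₁.val (by rw [card_val]; omega)
  lift X to Finset G using hX.1
  lift Y to Finset G using hY.1
  rw [card_val] at cX cY
  have dX : Disjoint R X := disjoint_right.2 fun x hx => (hX.2 x hx).2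
  have dY : Disjoint D₁ Y := disjoint_right.2 fun x hx => (hY.2 x hx).2
  have sX : R ∪ X ⊆ R₀ := union_subset hR fun x hx => (hX.2 x hx).1
  have sY : D₁ ∪ Y ⊆ D := union_subset hD fun x hx => (hY.2 x hx).1
  have c1 : (R ∪ X).card = 3 * s := by rw [card_union_of_disjoint dX]; omega
  have c2 : (D₁ ∪ Y).card = 3 * s := by rw [card_union_of_disjoint dY]; omega
  obtain ⟨u, hu, hu'⟩ := fv (R ∪ X).val (by rw [card_val]; omega)
  obtain ⟨F, hF, cF, hM⟩ := tem_graph R D₁ X Y dX dY hs cX cY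
  have h4 : 6 * h ^ 2 * F.card ≤ 6 * h ^ 2 * (181 * s) := Nat.mul_le_mul_left _ cF
  obtain ⟨t, I, K, hI, hK, cI, cK, hP⟩ := gad_chain H hh lk dc pp F (fun e he => hab _ (sY (hF e he)))
    u (u ::ₘ (R ∪ X).val) (D₁ ∪ Y).val (by rw [Multiset.card_cons, card_val]; omega)
    (by rw [card_val]; omega)
  let B : Finset G := ⟨_, hI.nodup_add (Multiset.nodup_cons.2 ⟨hu', (R ∪ X).nodup⟩)⟩
  let E : Finset G := ⟨_, hK.nodup_add (D₁ ∪ Y).nodup⟩
  have eB : B.val = (u ::ₘ I) + (R ∪ X).val := by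
    change u ::ₘ (R ∪ X).val + I = _
    rw [Multiset.cons_add, Multiset.cons_add, add_comm]
  have eE : E.val = K + (D₁ ∪ Y).val := add_comm _ _
  have key : ∀ S ⊆ R, ∀ S' ⊆ D₁, S.card = S'.card → Pth ab u t (B \ S).val (E \ S').val := by
    intro S hS S' hS' hc
    obtain ⟨M, m1, m2, m3⟩ := hM S hS S' hS' hc
    refine (hP M m1).cast ?_ ?_
    · rw [mltem_sdiff (hS.trans subset_union_left) eB, m2, Multiset.cons_add]
    · rw [mltem_sdiff (hS'.trans subset_union_left) eE, m3]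
  refine ⟨u, t, B, E, fun x hx => ?_, fun x hx => ?_, fun x hx => ?_, fun x hx => ?_, ?_, ?_, key⟩
  · rw [← mem_val, eB]
    exact Multiset.mem_add.2 (Or.inr (mem_union_left _ hx))
  · rw [← mem_val, eB] at hx
    rcases Multiset.mem_add.1 hx with hx | hx
    · rcases Multiset.mem_cons.1 hx with rfl | hx
      · exact hu
      · exact (hI.2 x hx).1
    · exact sX hx
  · rw [← mem_val, eE]
    exact Multiset.mem_add.2 (Or.inr (mem_union_left _ hx))
  · rw [← mem_val, eE] at hx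
    rcases Multiset.mem_add.1 hx with hx | hx
    · exact (hK.2 x hx).1
    · exact sY hx
  · rw [← card_val, eB, Multiset.card_add, Multiset.card_cons, card_val]
    omega
  · simpa using (key ∅ (empty_subset _) ∅ (empty_subset _) rfl).card

end Pool.Agent.Lib.MP_7ae50b_co.ML
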