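import Pool.Agent.Lib.MP_7ae50b_co.MLMix
import Pool.Agent.Lib.MP_7ae50b_co.MLProp
import Pool.Agent.Lib.MP_7ae50b_co.MLTem
import Pool.Agent.Lib.MP_7ae50b_co.MLFin
import Pool.Agent.Lib.MP_7ae50b_co.MLCarve
import Pool.Agent.Lib.MP_7ae50b_co.MLRandC
import Pool.Agent.Lib.MP_7ae50b_co.MLLight

set_option autoImplicit false
set_option linter.unusedSectionVars false

/-! The theorem for fixed thresholds. -/

namespace Pool.Agent.Lib.MP_7ae50b_co.ML

open Finset
open scoped Classical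

theorem core_cnt {h a v N : ℕ} (hh : 3 ≤ h) (hv : 0 < v) {t : ℝ} (h1 : (a : ℝ) < t * v)
    (h2 : t * (v : ℝ) ^ (h - 1) ≤ N) : a * v ^ (h - 2) < N := by
  have h3 : (v : ℝ) ^ (h - 1) = v * (v : ℝ) ^ (h - 2) := by
    rw [← pow_succ']
    congr 1
    omega
  have h4 : (0 : ℝ) < (v : ℝ) ^ (h - 2) := by positivity
  have : (a : ℝ) * (v : ℝ) ^ (h - 2) < N := by
    refine lt_of_lt_of_le ?_ h2
    rw [h3, ← mul_assoc]
    exact mul_lt_mul_of_pos_right h1 h4
  exact_mod_cast this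

/-- The numerical conditions for `φ ≤ k h ^ j x v`. -/
theorem core_num {h φ : ℕ} (hh : 3 ≤ h) {c q x ε v : ℝ} (hc1 : c ≤ 1) (hq0 : 0 ≤ q) (hq1 : q ≤ 1)
    (hv : 0 ≤ v) (hεx : ε ≤ x) (h1 : 1 ≤ ε * v) (hφ : (4 * h * φ : ℝ) + 8 * h ^ 2 * (x * v) ≤
      c * q ^ (7 * h) * v) :
    ((4 * h * φ + 6 * h ^ 2 : ℕ) : ℝ) < (c * q ^ (7 * h) - ε) * v ∧
      ((2 * φ : ℕ) : ℝ) < (q ^ 6 - ε) * v := by
  have a1 : (3 : ℝ) ≤ h := by exact_mod_cast hh
  have a2 : ε * v ≤ x * v := mul_le_mul_of_nonneg_right hεx hv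
  have a3 : c * q ^ (7 * h) ≤ q ^ 6 :=
    (mul_le_of_le_one_left (by positivity) hc1).trans (pow_le_pow_of_le_one hq0 hq1 (by omega))
  have a4 := mul_le_mul_of_nonneg_right a3 hv
  have a5 : (9 : ℝ) ≤ h ^ 2 := by nlinarith
  have a6 : (h : ℝ) ^ 2 * 1 ≤ h ^ 2 * (x * v) := mul_le_mul_of_nonneg_left (by linarith) (by positivity)
  have a7 : 9 * (x * v) ≤ h ^ 2 * (x * v) := mul_le_mul_of_nonneg_right a5 (by linarith)
  have a8 : (3 : ℝ) * φ ≤ h * φ := mul_le_mul_of_nonneg_right a1 (Nat.cast_nonneg _)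
  have a9 : (0 : ℝ) ≤ φ := Nat.cast_nonneg _
  push_cast
  constructor <;> linarith

variable {G : Type} [AddCommGroup G] [Fintype G]

/-- Few colours have a large multiplicity. -/
theorem core_few (L : Multiset G) {v F : ℕ} (hL : Multiset.card L < v) (S : Finset G)
    (h : ∀ c ∈ S, v ≤ F * L.count c) : S.card ≤ F := by
  have h1 : ∑ c ∈ S, L.count c ≤ Multiset.card L := by
    rw [← Multiset.sum_count_eq_card (s := univ) fun a _ => mem_univ a]
    exact sum_le_sum_of_subset (subset_univ S)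
  have h2 : S.card * v ≤ F * ∑ c ∈ S, L.count c := by
    rw [mul_sum]
    exact card_nsmul_le_sum _ _ _ h
  exact Nat.le_of_mul_le_mul_right (h2.trans (Nat.mul_le_mul_left _ (h1.trans hL.le))) (by omega)

theorem core_split (L : Multiset G) (v K F : ℕ) :
    Multiset.card L ≤ Multiset.card (L.filter fun c => F * L.count c ≤ v) +
      Multiset.card (L.filter fun c => v < F * L.count c ∧ K * L.count c < v) +
      ∑ c ∈ L.toFinset.filter (fun c => v ≤ K * L.count c), L.count c := by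
  have h1 : ∑ c ∈ L.toFinset.filter (fun c => v ≤ K * L.count c), L.count c =
      Multiset.card (L.filter fun c => v ≤ K * L.count c) := by
    rw [← Multiset.toFinset_sum_count_eq, Multiset.toFinset_filter]
    exact sum_congr rfl fun c hc => (Multiset.count_filter_of_pos
      (p := fun c => v ≤ K * L.count c) (mem_filter.1 hc).2).symm
  rw [h1, ← Multiset.card_add, ← Multiset.card_add]
  refine Multiset.card_le_card (Multiset.le_iff_count.2 fun c => ?_)
  simp only [Multiset.count_add, Multiset.count_filter]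
  split_ifs <;> omega

theorem core {δ : ℝ} (hδ : 0 < δ) (hδ1 : δ ≤ 1) : ∃ J : ℕ, 0 < J ∧ ∀ K : ℕ, ∃ F : ℕ,
    ∀ (G : Type) [AddCommGroup G] [Fintype G] (ab : G → G) (L : Multiset G), Ab ab → Dbl G →
      F ^ 2 ≤ Fintype.card G → Multiset.card L + 1 = Fintype.card G →
      (∀ c ∈ L, ab c = c ∧ c ≠ 0) →
      (∀ H : AddSubgroup G, H ≠ ⊤ →
        δ * Fintype.card G ≤ (L.toFinset.filter fun c => c ∉ H).card) →
      (∀ c ∈ L, Fintype.card G ≤ K * L.count c → F ≤ addOrderOf c) →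
      J * Multiset.card (L.filter fun c => Fintype.card G < F * L.count c ∧
        K * L.count c < Fintype.card G) ≤ Fintype.card G →
      ∃ a b, Pth ab a b univ.val L := by
  obtain ⟨h, c₀, hh, hc0, hc1, hmix⟩ := mix (half_pos hδ)
  obtain ⟨η₁, hη₁, hlight⟩ := light hh hc0 hc1 (half_pos hδ)
  have hh3 : (3 : ℝ) ≤ h := by exact_mod_cast hh
  obtain ⟨η, hη0, hη1, hη2⟩ : ∃ η : ℝ, 0 < η ∧ η ≤ η₁ ∧ η ≤ δ / 2 :=
    ⟨min η₁ (δ / 2), by positivity, min_le_left _ _, min_le_right _ _⟩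
  obtain ⟨ρ, hρ0, hρ⟩ : ∃ ρ : ℝ, 0 < ρ ∧ 40000 * h ^ 3 * ρ = c₀ * η ^ (7 * h) :=
    ⟨c₀ * η ^ (7 * h) / (40000 * h ^ 3), by positivity, by field_simp⟩
  obtain ⟨τ, hτ0, hτ⟩ : ∃ τ : ℝ, 0 < τ ∧ 400 * h ^ 2 * τ = c₀ * ρ ^ (7 * h) :=
    ⟨c₀ * ρ ^ (7 * h) / (400 * h ^ 2), by positivity, by field_simp⟩
  have hη3 : η ≤ 1 := by linarith
  have p2 : (9 : ℝ) ≤ h ^ 2 := by nlinarith only [hh3]
  have p3 : 3 * (h : ℝ) ^ 2 ≤ h ^ 3 := by
    linarith only [mul_le_mul_of_nonneg_left hh3 (sq_nonneg (h : ℝ))]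
  have hρη : 40000 * h ^ 3 * ρ ≤ η := hρ ▸ (mul_le_of_le_one_left (by positivity) hc1).trans
    (pow_le_of_le_one hη0.le hη3 (by omega))
  have hρ2 : 3 * (h ^ 2 * ρ) ≤ h ^ 3 * ρ := by
    linarith only [mul_le_mul_of_nonneg_right p3 hρ0.le]
  have hρ3 : 9 * ρ ≤ h ^ 2 * ρ := mul_le_mul_of_nonneg_right p2 hρ0.le
  have hρ1 : ρ ≤ η := by linarith
  have hτρ : τ ≤ ρ := by
    have : 400 * h ^ 2 * τ ≤ ρ := hτ ▸ (mul_le_of_le_one_left (by positivity) hc1).trans
      (pow_le_of_le_one hρ0.le (by linarith) (by omega))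
    linarith only [this, hτ0, mul_le_mul_of_nonneg_right p2 hτ0.le]
  obtain ⟨ε₁, hε₁, hlight⟩ := hlight τ hτ0
  obtain ⟨ε, hε0, hε1, hετ⟩ : ∃ ε : ℝ, 0 < ε ∧ ε ≤ ε₁ ∧ ε ≤ τ :=
    ⟨min ε₁ τ, by positivity, min_le_left _ _, min_le_right _ _⟩
  obtain ⟨J, hJ⟩ := exists_nat_gt (1 / τ)
  have hJ0 : (0 : ℝ) < J := lt_trans (by positivity) hJ
  refine ⟨J, by exact_mod_cast hJ0, fun K => ?_⟩
  obtain ⟨T, hT, hcarve⟩ := carve K (ε := τ / (K + 1)) (by positivity)
  obtain ⟨γ₀, N, hγ₀, hrand⟩ := rand hh hT hε0 (by linarith)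
  obtain ⟨F, hF⟩ := exists_nat_gt (K + T + N + 1 / γ₀ + (T + 1) / ε + K * T / ε + 2 / δ : ℝ)
  refine ⟨F, fun G _ _ ab L H hD hv hL hab hsub hord hmed => ?_⟩
  set v := Fintype.card G with hvdef
  have n1 : (0 : ℝ) ≤ K := Nat.cast_nonneg _
  have n2 : (1 : ℝ) ≤ T := by exact_mod_cast hT
  have n3 : (0 : ℝ) ≤ N := Nat.cast_nonneg _
  have n4 : 0 < 1 / γ₀ := by positivity
  have n5 : 0 < ((T : ℝ) + 1) / ε := by positivity
  have n6 : 0 ≤ (K : ℝ) * T / ε := by positivity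
  have n7 : 2 ≤ 2 / δ := by
    rw [le_div_iff₀ hδ]
    linarith
  have hF1 : (1 : ℝ) < F := by linarith
  have hFv2 : (F : ℝ) ^ 2 ≤ v := by exact_mod_cast hv
  have hFv : (F : ℝ) ≤ v := by nlinarith only [hF1, hFv2]
  have hv0 : (0 : ℝ) < v := by linarith
  have hv1 : 0 < v := by exact_mod_cast hv0
  have f1 : T + 1 ≤ ε * F := by
    have : ((T : ℝ) + 1) / ε ≤ F := by linarith
    rw [div_le_iff₀ hε0] at this
    linarith
  have f2 : K * T ≤ ε * F := by
    have : ((K : ℝ) * T) / ε ≤ F := by linarith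
    rw [div_le_iff₀ hε0] at this
    linarith
  have f3 : ε * F ≤ ε * v := mul_le_mul_of_nonneg_left hFv hε0.le
  have f4 : (F : ℝ) ≤ δ / 2 * v := by
    have : 2 / δ ≤ F := by linarith
    rw [div_le_iff₀ hδ] at this
    linarith only [mul_le_mul_of_nonneg_left this (Nat.cast_nonneg F),
      mul_le_mul_of_nonneg_right hFv2 hδ.le]
  have hKF : K < F := by
    have : (K : ℝ) < F := by linarith
    exact_mod_cast this
  have hTF : T < F := by
    have : (T : ℝ) < F := by linarith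
    exact_mod_cast this
  have hNv : N ≤ v := by
    have : (N : ℝ) ≤ v := by linarith
    exact_mod_cast this
  -- the light and the heavy part
  set Ll := L.filter fun c => F * L.count c ≤ v with hLl
  set Hv := L.toFinset.filter fun c => v ≤ K * L.count c with hHv
  have hLle : Ll ≤ L := Multiset.filter_le _ _
  have hHK : Hv.card ≤ K := core_few L (by omega) _ fun c hc => (mem_filter.1 hc).2
  have hsub' : ∀ H : AddSubgroup G, H ≠ ⊤ → δ / 2 * v ≤ (Ll.toFinset.filter fun c => c ∉ H).card := by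
    intro H' hH'
    have a1 := core_few L (v := v) (F := F) (by omega) (univ.filter fun c => v ≤ F * L.count c)
      fun c hc => (mem_filter.1 hc).2
    have a2 : (L.toFinset.filter fun c => c ∉ H').card ≤ (Ll.toFinset.filter fun c => c ∉ H').card +
        (univ.filter fun c => v ≤ F * L.count c).card := by
      refine (card_le_card fun c hc => ?_).trans (card_union_le _ _)
      simp only [hLl, mem_union, mem_filter, Multiset.mem_toFinset, Multiset.mem_filter, mem_univ,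
        true_and] at hc ⊢
      by_cases e : F * L.count c ≤ v
      · exact Or.inl ⟨⟨hc.1, e⟩, hc.2⟩
      · exact Or.inr (by omega)
    have a3 : ((L.toFinset.filter fun c => c ∉ H').card : ℝ) ≤
        (Ll.toFinset.filter fun c => c ∉ H').card + F := by exact_mod_cast a2.trans (by omega)
    linarith [hsub H' hH']
  have : Nontrivial G := Fintype.one_lt_card_iff_nontrivial.1 (by
    have : (1 : ℝ) < v := by linarith
    exact_mod_cast this)
  have hDc : δ / 2 * v ≤ Ll.toFinset.card :=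
    (hsub' ⊥ bot_ne_top).trans (by exact_mod_cast card_filter_le _ _)
  have habD : ∀ c ∈ Ll.toFinset, ab c = c ∧ c ≠ 0 := fun c hc =>
    hab c (Multiset.mem_of_le hLle (Multiset.mem_toFinset.1 hc))
  obtain ⟨ρL, hρL⟩ : ∃ ρL : ℝ, (Multiset.card Ll : ℝ) = ρL * v :=
    ⟨Multiset.card Ll / v, by field_simp⟩
  have hLlv : Multiset.card Ll ≤ v := (Multiset.card_le_card hLle).trans (by omega)
  have r1 : δ / 2 ≤ ρL := le_of_mul_le_mul_right (hDc.trans (by
    rw [← hρL]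
    exact_mod_cast Multiset.toFinset_card_le _)) hv0
  have r2 : ρL ≤ 1 := le_of_mul_le_mul_right (by
    rw [← hρL, one_mul]
    exact_mod_cast hLlv) hv0
  have hF0 : (0 : ℝ) < F := by linarith
  have hcnt : ∀ c, (Ll.count c : ℝ) ≤ 1 / F * v := fun c => by
    have : F * Ll.count c ≤ v := by
      rw [hLl, Multiset.count_filter]
      split_ifs <;> omega
    rw [one_div, inv_mul_eq_div, le_div_iff₀ hF0, mul_comm]
    exact_mod_cast this
  obtain ⟨pc, Δ, hΔ, hpc, hcut⟩ := hcarve G Hv hHK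
  have hΔ' : (Δ.card : ℝ) ≤ T := by exact_mod_cast hΔ
  obtain ⟨U, R₀, R, D₁, O, Gd⟩ := hrand G ab c₀ ρL η ρ pc Δ Ll.toFinset Ll H hD hNv hρ0.le hρ1
    (by linarith) r2 hΔ hpc hLlv (fun c => (hcnt c).trans (mul_le_mul_of_nonneg_right
      ((one_div_le hF0 hγ₀).2 (by linarith)) hv0.le))
    (hmix G ab _ H hD (fun c hc => (habD c hc).1) hDc hsub')
  -- the absorber
  have e1 : 1 ≤ ε * v := by linarith
  have e2 : ε * v ≤ τ * v := mul_le_mul_of_nonneg_right hετ hv0.le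
  have e3 : τ * v ≤ ρ * v := mul_le_mul_of_nonneg_right hτρ hv0.le
  obtain ⟨φ, hφ⟩ : ∃ φ, φ = 1100 * h ^ 2 * (R.card + D₁.card + 1) := ⟨_, rfl⟩
  have hφ1 : (φ : ℝ) ≤ 5500 * h ^ 2 * (ρ * v) := by
    have : ((R.card : ℝ) + D₁.card + 1) ≤ 5 * (ρ * v) := by linarith [Gd.cR, Gd.cD]
    rw [hφ]
    push_cast
    linarith only [mul_le_mul_of_nonneg_left this (sq_nonneg (h : ℝ))]
  have hρv : 0 ≤ ρ * v := by positivity
  have hφ2 : (4 * h * φ : ℝ) ≤ 22000 * h ^ 3 * (ρ * v) := by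
    have := mul_le_mul_of_nonneg_left hφ1 (show (0 : ℝ) ≤ 4 * h by positivity)
    linarith
  have p4 : 3 * (h ^ 2 * (ρ * v)) ≤ h ^ 3 * (ρ * v) := by
    linarith only [mul_le_mul_of_nonneg_right p3 hρv]
  have p5 : 0 ≤ (h : ℝ) ^ 2 * (ρ * v) := by positivity
  obtain ⟨q1, q2⟩ := core_num (φ := φ) hh hc1 hη0.le hη3 hv0.le (hετ.trans hτρ) e1
    (by rw [← hρ]; linarith)
  obtain ⟨u, t, B, E, hRB, hBR, hDE, hED, hBφ, hBE, habs⟩ := absorber H (by omega) Gd.sub1 Gd.sub3 habD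
    (linkP_of H hD hh fun a b => core_cnt hh hv1 q1 (Gd.ch0 1 (Or.inl rfl) a b))
    (dcP_of H hD hh fun a b => core_cnt hh hv1 q1 (Gd.ch0 2 (Or.inr rfl) a b))
    (pairP_of fun c => by exact_mod_cast q2.trans_le (Gd.pr0 c)) hφ.ge
  -- the two linear forests
  obtain ⟨n₂, C₂, s2, hC₂, hn₂⟩ := hlight G ab ρL η ρ ε (1 / F) pc Δ _ Ll U R₀ R D₁ O B E H hD Gd r1 r2
    hη1 (by linarith) hε1 (by positivity) (by rw [div_le_iff₀ hF0]; linarith)
    (by rw [mul_one_div, div_le_iff₀ hF0]; linarith) (by linarith) e1 hρL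
    (fun c hc => hab c (Multiset.mem_of_le hLle hc)) hcnt (fun c hc => Multiset.mem_toFinset.1 hc)
    hBR hED hBE (by
      have a1 : (B.card : ℝ) ≤ φ := by exact_mod_cast hBφ
      have a2 := mul_le_mul_of_nonneg_right hρη hv0.le
      linarith)
  obtain ⟨n₁, C₁, s1, hC₁, hn₁⟩ := heavy (ab := ab) (e := ⌊τ / (K + 1) * v⌋₊) (piece_le hΔ hpc) L.count
    Hv (fun a ha => by
      have ha' := mem_filter.1 ha
      have hm := Multiset.mem_toFinset.1 ha'.1
      exact ⟨(hab a hm).1, hTF.trans_le (hord a hm ha'.2), Nat.le_floor (hcut a ha)⟩)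
    (univ \ U) fun x y e hx => by
      simp only [mem_sdiff, mem_univ, true_and] at hx ⊢
      exact fun hy => hx (Gd.uni y x e.symm hy)
  have hn : ((n₁ + n₂ : ℕ) : ℝ) ≤ 6 * (τ * v) := by
    have a1 := core_split L v K F
    rw [← hLl, ← hHv] at a1
    generalize Multiset.card (L.filter fun c => v < F * L.count c ∧ K * L.count c < v) = md
      at a1 hmed
    have a2 : (md : ℝ) ≤ τ * v := by
      have b1 : (J : ℝ) * md ≤ v := by exact_mod_cast hmed
      rw [div_lt_iff₀ hτ0] at hJ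
      linarith only [mul_le_mul_of_nonneg_left hJ.le (Nat.cast_nonneg md),
        mul_le_mul_of_nonneg_left b1 hτ0.le]
    have a3 : (((univ \ U).card - ∑ a ∈ Hv, L.count a : ℕ) : ℝ) ≤ 3 * (τ * v) := by
      rcases le_total (univ \ U).card (∑ a ∈ Hv, L.count a) with e | e
      · rw [Nat.sub_eq_zero_of_le e, Nat.cast_zero]
        linarith
      · have b1 : ((univ \ U).card : ℝ) + U.card = v := by
          exact_mod_cast card_sdiff_add_card_eq_card (subset_univ U)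
        have b2 : (v : ℝ) ≤ Multiset.card Ll + md + (∑ a ∈ Hv, L.count a : ℕ) + 1 := by
          exact_mod_cast (show v ≤ _ by omega)
        rw [Nat.cast_sub e]
        linarith [(abs_le.1 Gd.cU).1]
    have a4 : ((Hv.card * (T + ⌊τ / (K + 1) * v⌋₊) : ℕ) : ℝ) ≤ K * T + τ * v := by
      have b1 : (⌊τ / (K + 1) * v⌋₊ : ℝ) ≤ τ / (K + 1) * v := Nat.floor_le (by positivity)
      have b2 : (Hv.card : ℝ) ≤ K := by exact_mod_cast hHK
      have b3 : (K : ℝ) * (τ / (K + 1) * v) ≤ τ * v := by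
        rw [← mul_assoc, mul_div_assoc', div_mul_eq_mul_div, div_le_iff₀ (by positivity)]
        linarith only [e1, e2]
      push_cast
      calc _ ≤ (K : ℝ) * (T + τ / (K + 1) * v) := by gcongr
        _ ≤ _ := by linarith
    have a5 : (n₁ : ℝ) ≤ ((univ \ U).card - ∑ a ∈ Hv, L.count a : ℕ) +
        (Hv.card * (T + ⌊τ / (K + 1) * v⌋₊) : ℕ) := by exact_mod_cast hn₁
    push_cast at a4 a5 ⊢
    linarith
  obtain ⟨q3, q4⟩ := core_num (φ := 2 * (n₁ + n₂) + 2 * (n₁ + n₂) * h) hh hc1 hρ0.le (by linarith)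
    hv0.le hετ e1 (by
      rw [← hτ]
      generalize n₁ + n₂ = n at hn
      have b1 := mul_le_mul_of_nonneg_left hn (show (0 : ℝ) ≤ h ^ 2 by positivity)
      have b2 : (h : ℝ) * n * 1 ≤ h * n * h := mul_le_mul_of_nonneg_left (by linarith) (by positivity)
      have b3 : 0 ≤ (h : ℝ) ^ 2 * (τ * v) := by positivity
      push_cast
      linarith only [b1, b2, b3])
  refine ⟨u, finish hRB hDE habs (C := C₁ + C₂) ((s1.add s2).cast rfl ?_ rfl) ?_ hL hab
    (linkP_of H hD hh fun a b => core_cnt hh hv1 q3 (Gd.ch1 a b))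
    (pairP_of fun c => by exact_mod_cast q4.trans_le (Gd.pr1 c)) le_rfl⟩
  · have hBU : B ⊆ U := hBR.trans Gd.sub2
    rw [← Finset.disjUnion_val _ _ (disjoint_of_subset_right sdiff_subset sdiff_disjoint)]
    congr 1
    ext x
    have := @hBU x
    simp only [mem_disjUnion, mem_sdiff, mem_univ, true_and]
    tauto
  · refine Multiset.le_iff_count.2 fun c => ?_
    have b1 := hC₁ c
    have b2 := Multiset.le_iff_count.1 hC₂ c
    rw [hLl, Multiset.count_filter] at b2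
    rw [add_assoc, Multiset.count_add]
    split_ifs at b1 b2 with e e'
    · have b3 := mem_filter.1 e
      have b4 := Multiset.count_pos.2 (Multiset.mem_toFinset.1 b3.1)
      have := Nat.mul_lt_mul_of_pos_right hKF b4
      omega
    all_goals omega

end Pool.Agent.Lib.MP_7ae50b_co.ML
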