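import Mathlib

set_option autoImplicit false
set_option linter.unusedSectionVars false

/-! Lists with many different lengths: definitions and basic lemmas. -/

namespace Pool.Agent.Lib.MP_7ae50b_co.ML

open Finset
open scoped Classical

variable {G : Type} [AddCommGroup G]

/-- `ab` picks one of `g`, `-g`. -/
structure Ab (ab : G → G) : Prop where
  neg : ∀ g, ab (-g) = ab g
  mem : ∀ g, ab g = g ∨ ab g = -g

/-- Doubling is injective. -/
def Dbl (G : Type) [AddCommGroup G] : Prop := ∀ g : G, g + g = 0 → g = 0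

/-- A walk from `a` to `b` with vertex multiset `V` and colour multiset `C`. -/
inductive Pth (ab : G → G) : G → G → Multiset G → Multiset G → Prop
  | one (a : G) : Pth ab a a {a} 0
  | cons (a : G) {x b : G} {V C : Multiset G} :
      Pth ab x b V C → Pth ab a b (a ::ₘ V) (ab (x - a) ::ₘ C)

/-- A connector from `a` to `b` with interior `I` and colours `K`. -/
def Lk (ab : G → G) (a b : G) (I K : Multiset G) : Prop :=
  ∀ s V C t V' C', Pth ab s a V C → Pth ab b t V' C' → Pth ab s t (V + I + V') (C + K + C')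

/-- A system of walks with first vertices `Hd`. -/
inductive SysH (ab : G → G) : Multiset G → Multiset G → Multiset G → Prop
  | zero : SysH ab 0 0 0
  | add {a b : G} {V C Hd V' C' : Multiset G} :
      Pth ab a b V C → SysH ab Hd V' C' → SysH ab (a ::ₘ Hd) (V + V') (C + C')

/-- A system of `n` walks. -/
def Sys (ab : G → G) (n : ℕ) (V C : Multiset G) : Prop :=
  ∃ Hd, Multiset.card Hd = n ∧ SysH ab Hd V C

/-- A chain of `n` double steps: both steps of a double step have the same colour. -/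
inductive DC (ab : G → G) : ℕ → G → G → Multiset G → Multiset G → Prop
  | nil (a : G) : DC ab 0 a a {a} 0
  | cons (a m : G) {n : ℕ} {e b : G} {V C : Multiset G} : ab (e - m) = ab (m - a) →
      DC ab n e b V C → DC ab (n + 1) a b (a ::ₘ m ::ₘ V) (ab (m - a) ::ₘ C)

/-- `I` consists of different elements of `S` outside `U`. -/
def Fresh (S : Finset G) (U I : Multiset G) : Prop := I.Nodup ∧ ∀ x ∈ I, x ∈ S ∧ x ∉ U

/-- Robust existence of connectors. -/
def LinkP (ab : G → G) (S D : Finset G) (φ h : ℕ) : Prop :=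
  ∀ (a b : G) (UV UC : Multiset G), Multiset.card UV ≤ φ → Multiset.card UC ≤ φ →
    ∃ I K, Lk ab a b I K ∧ Fresh S UV I ∧ Fresh D UC K ∧
      Multiset.card I ≤ h ∧ Multiset.card K ≤ h

/-- Robust existence of double chains. -/
def DCP (ab : G → G) (S D : Finset G) (φ h : ℕ) : Prop :=
  ∀ (a b : G) (UV UC : Multiset G), Multiset.card UV ≤ φ → Multiset.card UC ≤ φ →
    ∃ I K, DC ab h a b (a ::ₘ b ::ₘ I) K ∧ Fresh S UV I ∧ Fresh D UC K

/-- Robust existence of pairs with a given difference. -/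
def PairP (S : Finset G) (φ : ℕ) : Prop :=
  ∀ (c : G) (UV : Multiset G), Multiset.card UV ≤ φ →
    ∃ w, w ∈ S ∧ w + c ∈ S ∧ w ∉ UV ∧ w + c ∉ UV

/-- The walk from `a` that makes `m` steps `β 0`, then `m` steps `β 1`, and so on. -/
def pt {h : ℕ} (m : ℕ) (a : G) (β : Fin h → G) (s : ℕ) : G :=
  a + ∑ l : Fin h, min m (s - m * l) • β l

/-- Chains from `a` to `b` with colours in `D` and interior points in `S`. -/
noncomputable def Ch [Fintype G] (ab : G → G) (h m : ℕ) (S D : Finset G) (a b : G) :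
    Finset (Fin h → G) :=
  univ.filter fun β => pt m a β (m * h) = b ∧ (∀ l, ab (β l) ∈ D) ∧
    ∀ s, 0 < s → s < m * h → pt m a β s ∈ S

/-- The number of pairs `x, x + c` in `S`. -/
noncomputable def prs [Fintype G] (S : Finset G) (c : G) : ℕ :=
  (univ.filter fun x => x ∈ S ∧ x + c ∈ S).card

/-- The number of neighbours of `x` in `S`, counted with the multiplicities of `L`. -/
noncomputable def nb (L : Multiset G) (S : Finset G) (x : G) : ℕ :=
  Multiset.card (L.filter fun c => x + c ∈ S) + Multiset.card (L.filter fun c => x - c ∈ S)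

/-- The weight at `x`; `u x e` is the weight of the edge from `x` to `x + col e`. -/
noncomputable def deg {E : Type} [Fintype E] (col : E → G) (u : G → E → ℝ) (x : G) : ℝ :=
  ∑ e, (u x e + u (x - col e) e)

/-- An almost perfect fractional 2-factor. -/
structure Frac [Fintype G] {E : Type} [Fintype E] (V : Finset G) (col : E → G) (u : G → E → ℝ)
    (a τ : ℝ) : Prop where
  nonneg : ∀ x e, 0 ≤ u x e
  supp : ∀ x e, u x e ≠ 0 → x ∈ V ∧ x + col e ∈ V
  ent : ∀ e, ∑ x, u x e ≤ 1
  pair : ∀ x c, ∑ e ∈ univ.filter (fun e => col e = c), u x e ≤ a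
  exc : ∑ x, max (deg col u x - 2) 0 ≤ τ * Fintype.card G
  tot : V.card - τ * Fintype.card G ≤ ∑ x, ∑ e, u x e

/-- The outcome of the random choices. -/
structure Good [Fintype G] (ab : G → G) (h : ℕ) (c₀ ρL η ρ ε : ℝ) (pc : G → G) (Δ D : Finset G)
    (L : Multiset G) (U R₀ R D₁ O : Finset G) : Prop where
  uni : ∀ x y, pc x = pc y → x ∈ U → y ∈ U
  sub1 : R ⊆ R₀
  sub2 : R₀ ⊆ U
  sub3 : D₁ ⊆ D
  cR : (R.card : ℝ) ≤ (ρ + ε) * Fintype.card G
  cD : (D₁.card : ℝ) ≤ (ρ + ε) * Fintype.card G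
  cU : |(U.card : ℝ) - ρL * Fintype.card G| ≤ ε * Fintype.card G
  chU : ∀ a b, (c₀ * ρL ^ (7 * h) - ε) * (Fintype.card G : ℝ) ^ (h - 1) ≤ (Ch ab h 2 U D a b).card
  ch0 : ∀ m, m = 1 ∨ m = 2 → ∀ a b,
    (c₀ * η ^ (7 * h) - ε) * (Fintype.card G : ℝ) ^ (h - 1) ≤ (Ch ab h m R₀ D a b).card
  ch1 : ∀ a b, (c₀ * ρ ^ (7 * h) - ε) * (Fintype.card G : ℝ) ^ (h - 1) ≤ (Ch ab h 1 R D₁ a b).card
  pr0 : ∀ c, (η ^ 6 - ε) * Fintype.card G ≤ prs R₀ c
  pr1 : ∀ c, (ρ ^ 6 - ε) * Fintype.card G ≤ prs R c
  prU : ∀ c, c ∉ Δ → |(prs U c : ℝ) - ρL ^ 2 * Fintype.card G| ≤ ε * Fintype.card G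
  cO : (O.card : ℝ) ≤ ε * Fintype.card G
  nbU : ∀ x, x ∉ O → |(nb L U x : ℝ) - 2 * ρL * Multiset.card L| ≤ 2 * ε * Fintype.card G
  nb0 : ∀ x, x ∉ O → (nb L R₀ x : ℝ) ≤ 2 * (η + ε) * Fintype.card G

variable {ab : G → G}

theorem Ab.sub (H : Ab ab) (x y : G) : ab (x - y) = ab (y - x) := by
  rw [← H.neg, neg_sub]

theorem Ab.eq_or (H : Ab ab) {x y : G} (h : ab x = ab y) : x = y ∨ x = -y := by
  rcases H.mem x with h1 | h1 <;> rcases H.mem y with h2 | h2 <;> rw [h1, h2] at h
  · exact Or.inl h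
  · exact Or.inr h
  · exact Or.inr (neg_eq_iff_eq_neg.1 h)
  · exact Or.inl (neg_injective h)

theorem Pth.cast {a b : G} {V C V' C' : Multiset G} (h : Pth ab a b V C) (h1 : V = V')
    (h2 : C = C') : Pth ab a b V' C' := h1 ▸ h2 ▸ h

theorem Pth.card {a b : G} {V C : Multiset G} (h : Pth ab a b V C) :
    Multiset.card V = Multiset.card C + 1 := by
  induction h with
  | one a => simp
  | cons a _ ih => simp [ih]

/-- Joining two walks by an edge. -/
theorem Pth.join {a b a' b' : G} {V C V' C' : Multiset G} (h : Pth ab a b V C)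
    (h' : Pth ab a' b' V' C') : Pth ab a b' (V + V') (ab (a' - b) ::ₘ (C + C')) := by
  induction h with
  | one a => simpa using Pth.cons a h'
  | cons a _ ih =>
    refine (Pth.cons a ih).cast (by simp) ?_
    rw [Multiset.cons_swap, Multiset.cons_add]

/-- Gluing two walks at a common vertex. -/
theorem Pth.glue {a b c : G} {V C V' C' : Multiset G} (h : Pth ab a b V C)
    (h' : Pth ab b c (b ::ₘ V') C') : Pth ab a c (V + V') (C + C') := by
  induction h with
  | one a => simpa using h'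
  | cons a _ ih => exact (Pth.cons a (ih h')).cast (by simp) (by simp)

theorem Pth.symm (H : Ab ab) {a b : G} {V C : Multiset G} (h : Pth ab a b V C) :
    Pth ab b a V C := by
  induction h with
  | one a => exact Pth.one a
  | cons a _ ih =>
    refine (ih.join (Pth.one a)).cast ?_ ?_
    · rw [add_comm, Multiset.singleton_add]
    · rw [add_zero, H.sub]

theorem Pth.exists_list {a b : G} {V C : Multiset G} (h : Pth ab a b V C) :
    ∃ l : List G, ((a :: l : List G) : Multiset G) = V ∧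
      ((List.zipWith (fun x y => ab (y - x)) (a :: l) l : List G) : Multiset G) = C := by
  induction h with
  | one a => exact ⟨[], rfl, rfl⟩
  | @cons a x b V C _ ih =>
    obtain ⟨l, h1, h2⟩ := ih
    exact ⟨x :: l, by rw [← h1]; rfl, by rw [← h2]; rfl⟩

theorem Lk.symm (H : Ab ab) {a b : G} {I K : Multiset G} (h : Lk ab a b I K) : Lk ab b a I K := by
  intro s V C t V' C' h1 h2
  exact ((h t V' C' s V C (h2.symm H) (h1.symm H)).symm H).cast (by abel) (by abel)

theorem Lk.edge (a b : G) : Lk ab a b 0 {ab (b - a)} := by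
  intro s V C t V' C' h1 h2
  refine (h1.join h2).cast (by simp) ?_
  rw [← Multiset.singleton_add]
  abel

theorem Lk.cons (a : G) {x b : G} {I K : Multiset G} (h : Lk ab x b I K) :
    Lk ab a b (x ::ₘ I) (ab (x - a) ::ₘ K) := by
  intro s V C t V' C' h1 h2
  refine (h s _ _ t V' C' (h1.join (Pth.one x)) h2).cast ?_ ?_ <;>
    simp only [← Multiset.singleton_add] <;> abel

theorem Lk.card {a b : G} {I K : Multiset G} (h : Lk ab a b I K) :
    Multiset.card K = Multiset.card I + 1 := by
  have := (h a _ _ b _ _ (Pth.one a) (Pth.one b)).card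
  simp at this
  omega

theorem SysH.cast {Hd V C Hd' V' C' : Multiset G} (h : SysH ab Hd V C) (h0 : Hd = Hd')
    (h1 : V = V') (h2 : C = C') : SysH ab Hd' V' C' := h0 ▸ h1 ▸ h2 ▸ h

theorem SysH.append {Hd V C Hd' V' C' : Multiset G} (h : SysH ab Hd V C)
    (h' : SysH ab Hd' V' C') : SysH ab (Hd + Hd') (V + V') (C + C') := by
  induction h with
  | zero => simpa using h'
  | add h1 _ ih => exact (SysH.add h1 ih).cast (by simp) (by abel) (by abel)

theorem SysH.card {Hd V C : Multiset G} (h : SysH ab Hd V C) :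
    Multiset.card V = Multiset.card C + Multiset.card Hd := by
  induction h with
  | zero => simp
  | add h1 _ ih =>
    have := h1.card
    simp only [Multiset.card_add, Multiset.card_cons]
    omega

/-- Prepending a vertex to the walk that starts at `y`. -/
theorem SysH.prepend {Hd V C : Multiset G} (h : SysH ab Hd V C) (x : G) {y : G} (hy : y ∈ Hd) :
    SysH ab (x ::ₘ Hd.erase y) (x ::ₘ V) (ab (y - x) ::ₘ C) := by
  induction h with
  | zero => simp at hy
  | @add a b V C Hd V' C' h1 h2 ih =>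
    by_cases e : a = y
    · subst e
      exact (SysH.add (Pth.cons x h1) h2).cast (by simp) (by simp) (by simp)
    · have hy' : y ∈ Hd := (Multiset.mem_cons.1 hy).resolve_left fun h => e h.symm
      refine (SysH.add h1 (ih hy')).cast ?_ (by simp) (by simp)
      rw [Multiset.erase_cons_tail _ e, Multiset.cons_swap]

theorem Sys.cast {n n' : ℕ} {V C V' C' : Multiset G} (h : Sys ab n V C) (h0 : n = n')
    (h1 : V = V') (h2 : C = C') : Sys ab n' V' C' := h0 ▸ h1 ▸ h2 ▸ h

theorem Sys.zero : Sys ab 0 0 0 := ⟨0, rfl, SysH.zero⟩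

theorem Sys.add {n n' : ℕ} {V C V' C' : Multiset G} (h : Sys ab n V C) (h' : Sys ab n' V' C') :
    Sys ab (n + n') (V + V') (C + C') :=
  let ⟨_, h1, h2⟩ := h; let ⟨_, h3, h4⟩ := h'
  ⟨_, by rw [Multiset.card_add, h1, h3], h2.append h4⟩

theorem Pth.sys {a b : G} {V C : Multiset G} (h : Pth ab a b V C) : Sys ab 1 V C :=
  ⟨{a}, rfl, (SysH.add h SysH.zero).cast rfl (add_zero _) (add_zero _)⟩

theorem Sys.card {n : ℕ} {V C : Multiset G} (h : Sys ab n V C) :
    Multiset.card V = Multiset.card C + n :=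
  let ⟨_, h1, h2⟩ := h; h1 ▸ h2.card

theorem Sys.singles (V : Multiset G) : Sys ab (Multiset.card V) V 0 := by
  induction V using Multiset.induction_on with
  | empty => exact Sys.zero
  | cons a V ih => exact ((Pth.one a).sys.add ih).cast (by simp [add_comm]) (by simp) (by simp)

/-- Induction over the walks of a system. -/
theorem Sys.succ {n : ℕ} {V C : Multiset G} (h : Sys ab (n + 1) V C) :
    ∃ a b V₁ C₁ V₂ C₂, Pth ab a b V₁ C₁ ∧ Sys ab n V₂ C₂ ∧ V = V₁ + V₂ ∧ C = C₁ + C₂ := by
  obtain ⟨Hd, h1, h2⟩ := h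
  cases h2 with
  | zero => simp at h1
  | add h3 h4 => exact ⟨_, _, _, _, _, _, h3, ⟨_, by simpa using h1, h4⟩, rfl, rfl⟩

theorem Sys.eq_zero {V C : Multiset G} (h : Sys ab 0 V C) : V = 0 ∧ C = 0 := by
  obtain ⟨Hd, h1, h2⟩ := h
  cases h2 with
  | zero => exact ⟨rfl, rfl⟩
  | add h3 h4 => simp at h1

theorem DC.cast {n : ℕ} {a b : G} {V C V' C' : Multiset G} (h : DC ab n a b V C) (h1 : V = V')
    (h2 : C = C') : DC ab n a b V' C' := h1 ▸ h2 ▸ h

theorem DC.card {n : ℕ} {a b : G} {V C : Multiset G} (h : DC ab n a b V C) :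
    Multiset.card V = 2 * n + 1 ∧ Multiset.card C = n := by
  induction h with
  | nil a => simp
  | cons a m _ _ ih =>
    simp only [Multiset.card_cons]
    omega

theorem DC.snoc {n : ℕ} {a b : G} {V C : Multiset G} (h : DC ab n a b V C) (m e : G)
    (he : ab (e - m) = ab (m - b)) :
    DC ab (n + 1) a e (m ::ₘ e ::ₘ V) (ab (m - b) ::ₘ C) := by
  induction h with
  | nil a =>
    refine (DC.cons a m he (DC.nil e)).cast ?_ rfl
    simp only [← Multiset.singleton_add]
    abel
  | cons a m' h1 _ ih =>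
    refine (DC.cons a m' h1 (ih he)).cast ?_ (Multiset.cons_swap _ _ _)
    simp only [← Multiset.singleton_add]
    abel

theorem DC.symm (H : Ab ab) {n : ℕ} {a b : G} {V C : Multiset G} (h : DC ab n a b V C) :
    DC ab n b a V C := by
  induction h with
  | nil a => exact DC.nil a
  | @cons a m n e b V C h1 _ ih =>
    refine (ih.snoc m a (by rw [H.sub a, H.sub m e, h1])).cast (Multiset.cons_swap _ _ _) ?_
    rw [H.sub m e, h1]

theorem Fresh.zero (S : Finset G) (U : Multiset G) : Fresh S U 0 :=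
  ⟨Multiset.nodup_zero, fun _ h => absurd h (Multiset.notMem_zero _)⟩

theorem Fresh.add {S : Finset G} {U I I' : Multiset G} (h : Fresh S U I)
    (h' : Fresh S (U + I) I') : Fresh S U (I + I') := by
  refine ⟨Multiset.nodup_add.2 ⟨h.1, h'.1, Multiset.disjoint_left.2 fun hx hx' => ?_⟩,
    fun x hx => ?_⟩
  · exact (h'.2 _ hx').2 (Multiset.mem_add.2 (Or.inr hx))
  · rcases Multiset.mem_add.1 hx with hx | hx
    · exact h.2 x hx
    · exact ⟨(h'.2 x hx).1, fun e => (h'.2 x hx).2 (Multiset.mem_add.2 (Or.inl e))⟩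

theorem Fresh.mono {S S' : Finset G} {U U' I : Multiset G} (h : Fresh S U I) (hS : S ⊆ S')
    (hU : U' ⊆ U) : Fresh S' U' I :=
  ⟨h.1, fun x hx => ⟨hS (h.2 x hx).1, fun e => (h.2 x hx).2 (hU e)⟩⟩

theorem Fresh.nodup_add {S : Finset G} {U I : Multiset G} (h : Fresh S U I) (hU : U.Nodup) :
    (U + I).Nodup :=
  Multiset.nodup_add.2 ⟨hU, h.1, Multiset.disjoint_left.2 fun hx hx' => (h.2 _ hx').2 hx⟩

theorem pt_zero {h : ℕ} (m : ℕ) (a : G) (β : Fin h → G) : pt m a β 0 = a := by simp [pt]

theorem pt_last {h : ℕ} (m : ℕ) (a : G) (β : Fin h → G) :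
    pt m a β (m * h) = a + m • ∑ l, β l := by
  rw [pt, Finset.smul_sum]
  congr 1
  refine Finset.sum_congr rfl fun l _ => ?_
  have : m * (l + 1) ≤ m * h := Nat.mul_le_mul_left m l.2
  rw [min_eq_left (by rw [mul_add, mul_one] at this; omega)]

/-- The step number `m * l + t` with `t < m` is `β l`. -/
theorem pt_succ {h : ℕ} (m : ℕ) (a : G) (β : Fin h → G) (l : Fin h) {t : ℕ} (ht : t < m) :
    pt m a β (m * l + t + 1) = pt m a β (m * l + t) + β l := by
  rw [pt, pt, add_assoc a]
  congr 1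
  rw [← Finset.add_sum_erase _ _ (Finset.mem_univ l), ← Finset.add_sum_erase _ _ (Finset.mem_univ l),
    add_right_comm (min m (m * l + t - m * l) • β l), ← succ_nsmul]
  congr 1
  · congr 1
    omega
  · refine Finset.sum_congr rfl fun j hj => ?_
    congr 1
    rcases lt_or_gt_of_ne (Fin.val_ne_of_ne (Finset.ne_of_mem_erase hj)) with e | e
    · have : m * (j + 1) ≤ m * l := Nat.mul_le_mul_left m e
      rw [mul_add, mul_one] at this
      omega
    · have : m * (l + 1) ≤ m * j := Nat.mul_le_mul_left m e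
      rw [mul_add, mul_one] at this
      omega

theorem mem_Ch [Fintype G] {h m : ℕ} {S D : Finset G} {a b : G} {β : Fin h → G} :
    β ∈ Ch ab h m S D a b ↔ pt m a β (m * h) = b ∧ (∀ l, ab (β l) ∈ D) ∧
      ∀ s, 0 < s → s < m * h → pt m a β s ∈ S := by
  simp [Ch]

/-- A piece has at most `T` elements. -/
theorem piece_le [Fintype G] {pc : G → G} {Δ : Finset G} {T : ℕ} (hT : Δ.card ≤ T)
    (h : ∀ x y, pc x = pc y → x - y ∈ Δ) (g : G) : (univ.filter fun y => pc y = g).card ≤ T := by
  rcases (univ.filter fun y => pc y = g).eq_empty_or_nonempty with e | ⟨x, hx⟩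
  · simp [e]
  · refine (card_le_card_of_injOn (fun y => y - x) (fun y hy => ?_)
      fun y _ z _ e => sub_left_injective e).trans hT
    exact h y x ((mem_filter.1 hy).2.trans (mem_filter.1 hx).2.symm)

/-- Counting the entries of a multiset through an index type. -/
theorem card_filter_col {E : Type} [Fintype E] (col : E → G) (p : G → Prop) :
    Multiset.card ((univ.val.map col).filter p) = (univ.filter fun e => p (col e)).card := by
  rw [Multiset.filter_map, Multiset.card_map]
  rfl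

theorem exists_index (L : Multiset G) :
    ∃ (E : Type) (_ : Fintype E) (col : E → G), univ.val.map col = L :=
  ⟨L.ToType, inferInstance, fun e => e.1, Multiset.map_univ_coe L⟩

end Pool.Agent.Lib.MP_7ae50b_co.ML
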