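import Pool.Agent.Lib.MP_7ae50b_co.MLDef

set_option autoImplicit false
set_option linter.unusedSectionVars false

/-! The absorbing gadget for one vertex `z` and one colour `c`, and chains of gadgets. -/

namespace Pool.Agent.Lib.MP_7ae50b_co.ML

open Finset
open scoped Classical

variable {G : Type} [AddCommGroup G] {ab : G → G} {h φ : ℕ} {S D : Finset G}

/-- Induction on the first chain, `cases` on the second.  Chains `a, m, e, ..` and `b, m', e', ..`;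
take connectors `m ~ b` and `m' ~ e` (`lk`, `Fresh.add`).  First path: `a m ~ b m' ~ e ..`
(first path of the induction hypothesis).  Second path: `b ~ m e ~ m' e' ..` (`Lk.symm`, second
path of the induction hypothesis). -/
theorem ladder (H : Ab ab) (lk : LinkP ab S D φ h) {n : ℕ} {a a' b b' : G} {V C V' C' : Multiset G}
    (h1 : DC ab n a a' V C) (h2 : DC ab n b b' V' C') (UV UC : Multiset G)
    (hV : Multiset.card UV + 2 * n * h ≤ φ) (hC : Multiset.card UC + 2 * n * h ≤ φ) :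
    ∃ I K, Fresh S UV I ∧ Fresh D UC K ∧ Multiset.card I ≤ 2 * n * h ∧
      Multiset.card K ≤ 2 * n * h ∧ Pth ab a b' (V + V' + I) (ab (b' - a') ::ₘ (C + C' + K)) ∧
      ∃ V₀, V = a ::ₘ V₀ ∧ Pth ab b b' (V₀ + V' + I) (C + C' + K) := by
  induction h1 generalizing b V' C' UV UC with
  | nil a =>
    cases h2
    exact ⟨0, 0, Fresh.zero _ _, Fresh.zero _ _, by simp, by simp,
      (Pth.cons a (Pth.one _)).cast (by simp) (by simp), 0, rfl,
      (Pth.one _).cast (by simp) (by simp)⟩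
  | @cons a m n e a' V C he _ ih =>
    cases h2 with
    | @cons _ m' _ e' _ V' C' he' h2 =>
      have hn : 2 * (n + 1) * h = 2 * n * h + 2 * h := by ring
      obtain ⟨I₁, K₁, l1, f1, g1, c1, d1⟩ := lk m b UV UC (by omega) (by omega)
      obtain ⟨I₂, K₂, l2, f2, g2, c2, d2⟩ := lk m' e (UV + I₁) (UC + K₁)
        (by rw [Multiset.card_add]; omega) (by rw [Multiset.card_add]; omega)
      obtain ⟨I, K, f3, g3, c3, d3, p1, V₀, rfl, p2⟩ := ih h2 (UV + (I₁ + I₂)) (UC + (K₁ + K₂))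
        (by simp only [Multiset.card_add]; omega) (by simp only [Multiset.card_add]; omega)
      refine ⟨I₁ + I₂ + I, K₁ + K₂ + K, (f1.add f2).add f3, (g1.add g2).add g3,
        by simp only [Multiset.card_add]; omega, by simp only [Multiset.card_add]; omega,
        (l1 _ _ _ _ _ _ (Pth.cons a (Pth.one m))
          (l2 _ _ _ _ _ _ (Pth.cons b (Pth.one m')) p1)).cast ?_ ?_, _, rfl,
        (l1.symm H _ _ _ _ _ _ (Pth.one b)
          (l2.symm H _ _ _ _ _ _ (Pth.cons m (Pth.one e)) (Pth.cons m' p2))).cast ?_ ?_⟩ <;>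
        simp only [← Multiset.singleton_add, he, he'] <;> abel

theorem mlgad_inv {n : ℕ} {a b : G} {V C : Multiset G} (h : DC ab (n + 1) a b (a ::ₘ V) C) :
    ∃ m e V' C', ab (e - m) = ab (m - a) ∧ DC ab n e b V' C' ∧ V = m ::ₘ V' ∧
      C = ab (m - a) ::ₘ C' := by
  generalize hW : a ::ₘ V = W at h
  cases h with
  | cons _ m he h => exact ⟨m, _, _, _, he, h, (Multiset.cons_inj_right a).1 hW, rfl⟩

/-- Take `w, w + c` (`pp`), chains `z, a₁, a₂, .., w` and `z, b₁, b₂, .., w + c` (`dc`; write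
`h = n + 1` and use `cases` after generalizing the vertex multiset), `ladder` for the tails from
`a₂`, `b₂`, connectors `u ~ a₁` and `b₁ ~ a₂`; `t = w + c`.  Without `z`: `u ~ a₁ a₂ ~ b₁ b₂ ..`
(second path).  With `z`: `u ~ a₁ z b₁ ~ a₂ ..` (first path; `Ab.sub`). -/
theorem gadget (H : Ab ab) (hh : 1 ≤ h) (lk : LinkP ab S D φ h) (dc : DCP ab S D φ h)
    (pp : PairP S φ) (u z c : G) (hc : ab c = c) (hc0 : c ≠ 0) (UV UC : Multiset G)
    (hV : Multiset.card UV + 6 * h ^ 2 ≤ φ) (hC : Multiset.card UC + 6 * h ^ 2 ≤ φ) :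
    ∃ t I K, Fresh S UV I ∧ Fresh D UC K ∧ Multiset.card I ≤ 6 * h ^ 2 ∧
      Multiset.card K ≤ 6 * h ^ 2 ∧ Pth ab u t (u ::ₘ I) K ∧
      Pth ab u t (u ::ₘ z ::ₘ I) (c ::ₘ K) := by
  obtain ⟨n, rfl⟩ : ∃ n, h = n + 1 := ⟨h - 1, by omega⟩
  have hn : 2 * n * (n + 1) + 6 * n + 6 ≤ 6 * (n + 1) ^ 2 := by nlinarith
  obtain ⟨w, w1, w2, w3, w4⟩ := pp c UV (by omega)
  have f0 : Fresh S UV (w ::ₘ {w + c}) := ⟨by simpa using hc0, by simp [*]⟩
  obtain ⟨I₁, K₁, q1, f1, g1⟩ := dc z w (UV + w ::ₘ {w + c}) UC (by simp; omega) (by omega)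
  obtain ⟨c1, d1⟩ := q1.card
  simp only [Multiset.card_cons] at c1
  obtain ⟨I₂, K₂, q2, f2, g2⟩ := dc z (w + c) (UV + (w ::ₘ {w + c} + I₁)) (UC + K₁)
    (by simp; omega) (by simp; omega)
  obtain ⟨c2, d2⟩ := q2.card
  simp only [Multiset.card_cons] at c2
  obtain ⟨a₁, a₂, V, C, ha, r1, e1, rfl⟩ := mlgad_inv q1
  obtain ⟨b₁, b₂, V', C', hb, r2, e2, rfl⟩ := mlgad_inv q2
  simp only [Multiset.card_cons] at d1 d2
  obtain ⟨I₃, K₃, f3, g3, c3, d3, p1, V₀, rfl, p2⟩ := ladder H lk r1 r2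
    (UV + (w ::ₘ {w + c} + I₁ + I₂)) (UC + (ab (a₁ - z) ::ₘ C + ab (b₁ - z) ::ₘ C'))
    (by simp; omega) (by simp; omega)
  obtain ⟨I₄, K₄, l4, f4, g4, c4, d4⟩ := lk u a₁ (UV + (w ::ₘ {w + c} + I₁ + I₂ + I₃))
    (UC + (ab (a₁ - z) ::ₘ C + ab (b₁ - z) ::ₘ C' + K₃)) (by simp; omega) (by simp; omega)
  obtain ⟨I₅, K₅, l5, f5, g5, c5, d5⟩ := lk b₁ a₂ (UV + (w ::ₘ {w + c} + I₁ + I₂ + I₃ + I₄))
    (UC + (ab (a₁ - z) ::ₘ C + ab (b₁ - z) ::ₘ C' + K₃ + K₄)) (by simp; omega) (by simp; omega)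
  have e3 : w ::ₘ {w + c} + I₁ + I₂ = a₁ ::ₘ a₂ ::ₘ V₀ + b₁ ::ₘ V' := by
    rw [← e1, ← e2]
    simp only [← Multiset.singleton_add]
    abel
  rw [add_sub_cancel_left, hc] at p1
  have f6 := ((((f0.add f1).add f2).add f3).add f4).add f5
  have c6 : Multiset.card (w ::ₘ {w + c} + I₁ + I₂ + I₃ + I₄ + I₅) ≤ 6 * (n + 1) ^ 2 := by
    simp
    omega
  rw [e3] at f6 c6
  refine ⟨w + c, _, _, f6, (((g1.add g2).add g3).add g4).add g5, c6, by simp; omega,
    (l4 _ _ _ _ _ _ (Pth.one u)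
      (l5.symm H _ _ _ _ _ _ (Pth.cons a₁ (Pth.one a₂)) (Pth.cons b₁ p2))).cast ?_ ?_,
    (l4 _ _ _ _ _ _ (Pth.one u)
      (l5 _ _ _ _ _ _ (Pth.cons a₁ (Pth.cons z (Pth.one b₁))) p1)).cast ?_ ?_⟩ <;>
    simp only [← Multiset.singleton_add, ha, hb, H.sub z] <;> abel

/-- Induction on `F`, `Pth.glue`. -/
theorem gad_chain (H : Ab ab) (hh : 1 ≤ h) (lk : LinkP ab S D φ h) (dc : DCP ab S D φ h)
    (pp : PairP S φ) (F : Finset (G × G)) (hF : ∀ e ∈ F, ab e.2 = e.2 ∧ e.2 ≠ 0) (u : G)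
    (UV UC : Multiset G) (hV : Multiset.card UV + 6 * h ^ 2 * F.card ≤ φ)
    (hC : Multiset.card UC + 6 * h ^ 2 * F.card ≤ φ) :
    ∃ t I K, Fresh S UV I ∧ Fresh D UC K ∧ Multiset.card I ≤ 6 * h ^ 2 * F.card ∧
      Multiset.card K ≤ 6 * h ^ 2 * F.card ∧
      ∀ M ⊆ F, Pth ab u t (u ::ₘ (I + M.val.map Prod.fst)) (K + M.val.map Prod.snd) := by
  induction F using Finset.induction_on generalizing u UV UC with
  | empty =>
    refine ⟨u, 0, 0, Fresh.zero _ _, Fresh.zero _ _, by simp, by simp, fun M hM => ?_⟩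
    rw [subset_empty.1 hM]
    exact (Pth.one u).cast (by simp) (by simp)
  | insert e F he ih =>
    rw [card_insert_of_notMem he, mul_add_one] at hV hC ⊢
    obtain ⟨h1, h2⟩ := hF e (mem_insert_self e F)
    obtain ⟨t₁, I₁, K₁, f1, g1, c1, d1, p1, p2⟩ := gadget H hh lk dc pp u e.1 e.2 h1 h2 UV UC
      (by omega) (by omega)
    obtain ⟨t, I, K, f2, g2, c2, d2, p3⟩ := ih (fun x hx => hF x (mem_insert_of_mem hx)) t₁
      (UV + I₁) (UC + K₁) (by rw [Multiset.card_add]; omega) (by rw [Multiset.card_add]; omega)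
    refine ⟨t, I₁ + I, K₁ + K, f1.add f2, g1.add g2, by rw [Multiset.card_add]; omega,
      by rw [Multiset.card_add]; omega, fun M hM => ?_⟩
    by_cases h3 : e ∈ M
    · have h4 := p2.glue (p3 _ (subset_insert_iff.1 hM))
      rw [← insert_erase h3, insert_val_of_notMem (notMem_erase e M)]
      refine h4.cast ?_ ?_ <;> simp only [Multiset.map_cons] <;>
        simp only [← Multiset.singleton_add] <;> abel
    · refine (p1.glue (p3 _ ((subset_insert_iff_of_notMem h3).1 hM))).cast ?_ (by abel)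
      simp only [← Multiset.singleton_add]
      abel

end Pool.Agent.Lib.MP_7ae50b_co.ML
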