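import Pool.Agent.Lib.MP_7ae50b_co.MLCore

set_option autoImplicit false
set_option linter.unusedSectionVars false

/-! The theorem for abelian groups of odd order and for `ZMod v`. -/

namespace Pool.Agent.Lib.MP_7ae50b_co.ML

open Finset
open scoped Classical

theorem main_group (n : ℕ) : ∃ N : ℕ,
    ∀ (G : Type) [AddCommGroup G] [Fintype G] (ab : G → G) (L : Multiset G), Ab ab → Dbl G →
      N ≤ Fintype.card G → Multiset.card L + 1 = Fintype.card G → (∀ c ∈ L, ab c = c ∧ c ≠ 0) →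
      (∀ H : AddSubgroup G, H ≠ ⊤ →
        Fintype.card G ≤ n * (L.toFinset.filter fun c => c ∉ H).card) →
      (∀ c ∈ L, Fintype.card G ≤ N * L.count c → N ≤ addOrderOf c) →
      ∃ a b, Pth ab a b univ.val L := by
  have hn : (0 : ℝ) < n + 1 := by positivity
  obtain ⟨J, hJ, h⟩ := core (δ := 1 / (n + 1)) (by positivity)
    ((div_le_one hn).2 (by linarith [(Nat.cast_nonneg n : (0 : ℝ) ≤ n)]))
  choose F hF using h
  obtain ⟨N, hN⟩ := pig hJ F
  refine ⟨N ^ 2 + N, fun G _ _ ab L H hD hv hL hab hsub hord => ?_⟩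
  obtain ⟨K, h1, h2, h3⟩ := hN G L (Fintype.card G) (by omega)
  refine hF K G ab L H hD ((Nat.pow_le_pow_left h1 2).trans (by omega)) hL hab (fun H' hH' => ?_)
    (fun c hc e => ?_) h3
  · rw [one_div, inv_mul_le_iff₀ hn]
    exact_mod_cast (hsub H' hH').trans (Nat.mul_le_mul_right _ (Nat.le_succ n))
  · exact le_trans (by omega) (hord c hc (e.trans (Nat.mul_le_mul_right _ (by omega))))

variable {v : ℕ} [NeZero v]

/-- The representative of `± g` in the lower half. -/
def zab (v : ℕ) (g : ZMod v) : ZMod v := if g.val ≤ v / 2 then g else -g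

theorem zab_val (g : ZMod v) : (zab v g).val = min g.val (v - g.val) := by
  have := ZMod.val_lt g
  unfold zab
  split_ifs with h
  · omega
  · rw [ZMod.neg_val, if_neg fun e => h (by simp [e])]
    omega

theorem zab_ab : Ab (zab v) := by
  refine ⟨fun g => ZMod.val_injective v ?_, fun g => ?_⟩
  · have := ZMod.val_lt g
    rw [zab_val, zab_val, ZMod.neg_val]
    split_ifs with e
    · simp [e]
    · omega
  · unfold zab
    split_ifs
    exacts [Or.inl rfl, Or.inr rfl]

theorem zab_sub (a b : ZMod v) : (zab v (b - a)).val =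
    min (a.val - b.val + (b.val - a.val)) (v - (a.val - b.val + (b.val - a.val))) := by
  rcases le_total a.val b.val with h | h
  · rw [zab_val, ZMod.val_sub h]
    omega
  · rw [zab_ab.sub, zab_val, ZMod.val_sub h]
    omega

theorem z_dbl (hv : Odd v) : Dbl (ZMod v) := fun g hg => by
  obtain ⟨k, hk⟩ := hv
  have h1 : ((2 * k + 1 : ℕ) : ZMod v) = 0 := by rw [← hk, ZMod.natCast_self]
  push_cast at h1
  linear_combination g * h1 - k * hg

/-- A proper subgroup of `ZMod v` consists of multiples of a prime divisor of `v`. -/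
theorem z_sub (H : AddSubgroup (ZMod v)) (hH : H ≠ ⊤) :
    ∃ q : ℕ, q.Prime ∧ q ∣ v ∧ ∀ x : ℕ, (x : ZMod v) ∈ H → q ∣ x := by
  obtain ⟨d, hd⟩ := Int.subgroup_cyclic (H.comap (Int.castAddHom (ZMod v)))
  have h1 : ∀ x : ℤ, (x : ZMod v) ∈ H ↔ d ∣ x := fun x => by
    rw [← Int.mem_zmultiples_iff, AddSubgroup.zmultiples_eq_closure, ← hd]
    rfl
  have h2 : d.natAbs ≠ 1 := fun e => hH ((AddSubgroup.eq_top_iff' H).2 fun g => by
    rw [← ZMod.intCast_zmod_cast g, h1]
    exact (Int.isUnit_iff_natAbs_eq.2 e).dvd)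
  have h3 : ∀ x : ℕ, (x : ZMod v) ∈ H → d.natAbs.minFac ∣ x := fun x hx =>
    (Nat.minFac_dvd _).trans (Int.natCast_dvd_natCast.1 (Int.natAbs_dvd.2
      ((h1 x).1 (by simpa using hx))))
  exact ⟨_, Nat.minFac_prime h2, h3 v (by simp), h3⟩

theorem many (n : ℕ) : ∃ N : ℕ, ∀ (v : ℕ) (L : Multiset ℕ), N ≤ v → Odd v →
    Multiset.card L = v - 1 → (∀ x ∈ L, 1 ≤ x ∧ x ≤ v / 2) →
    (∀ q : ℕ, q.Prime → q ∣ v → v ≤ n * (L.toFinset.filter fun x => ¬ q ∣ x).card) →
    (∀ x ∈ L, v ≤ N * L.count x → N * Nat.gcd x v ≤ v) →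
    ∃ P : List ℕ, P.Perm (List.range v) ∧
      Multiset.ofList
        (List.zipWith (fun a b => min (a - b + (b - a)) (v - (a - b + (b - a)))) P P.tail) = L := by
  obtain ⟨N, hN⟩ := main_group n
  refine ⟨N, fun v L hv ho hL hx h1 h2 => ?_⟩
  have hv0 : 0 < v := ho.pos
  have : NeZero v := ⟨hv0.ne'⟩
  have hval : ∀ x ∈ L, (x : ZMod v).val = x := fun x h =>
    ZMod.val_cast_of_lt (by have := hx x h; omega)
  have hinj : Set.InjOn (Nat.cast : ℕ → ZMod v) {x | x ∈ L} := fun x h y h' e => by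
    rw [← hval x h, ← hval y h', e]
  obtain ⟨a, b, hp⟩ := hN (ZMod v) (zab v) (L.map Nat.cast) zab_ab (z_dbl ho)
    (by rwa [ZMod.card]) (by rw [ZMod.card, Multiset.card_map]; omega)
    (fun c hc => by
      obtain ⟨x, h, rfl⟩ := Multiset.mem_map.1 hc
      refine ⟨if_pos (by rw [hval x h]; exact (hx x h).2), fun e => ?_⟩
      have := hval x h
      rw [e, ZMod.val_zero] at this
      have := (hx x h).1
      omega)
    (fun H hH => by
      obtain ⟨q, q1, q2, q3⟩ := z_sub H hH
      rw [ZMod.card]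
      refine (h1 q q1 q2).trans (Nat.mul_le_mul_left _ (card_le_card_of_injOn Nat.cast
        (fun x h => ?_) (hinj.mono fun x h => ?_)))
      · simp only [coe_filter, Multiset.mem_toFinset, Set.mem_ofPred_eq] at h ⊢
        exact ⟨Multiset.mem_map_of_mem _ h.1, fun e => h.2 (q3 x e)⟩
      · exact Multiset.mem_toFinset.1 (mem_filter.1 h).1)
    (fun c hc e => by
      obtain ⟨x, h, rfl⟩ := Multiset.mem_map.1 hc
      rw [ZMod.card] at e
      rw [ZMod.addOrderOf_coe x hv0.ne', Nat.gcd_comm]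
      refine (Nat.le_div_iff_mul_le (Nat.gcd_pos_of_pos_right _ hv0)).2
        (h2 x h (e.trans_eq (congrArg _ ?_)))
      exact @Multiset.count_map_eq_count _ _ _ (fun a b => Classical.propDecidable (a = b)) _ L
        hinj x h)
  obtain ⟨l, l1, l2⟩ := hp.exists_list
  refine ⟨(a :: l).map ZMod.val, Multiset.coe_eq_coe.1 ?_, ?_⟩
  · rw [← Multiset.map_coe, l1]
    refine (Multiset.Nodup.ext (univ.nodup.map (ZMod.val_injective v))
      (Multiset.nodup_range v)).2 fun x => ?_
    simp only [Multiset.mem_map, mem_val, mem_univ, true_and, Multiset.mem_range]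
    exact ⟨fun ⟨g, e⟩ => e ▸ ZMod.val_lt g, fun h => ⟨x, ZMod.val_cast_of_lt h⟩⟩
  · have e : L = (L.map (Nat.cast : ℕ → ZMod v)).map ZMod.val := by
      rw [Multiset.map_map]
      exact (Multiset.map_id L).symm.trans (Multiset.map_congr rfl fun x h => (hval x h).symm)
    rw [e, ← l2, Multiset.map_coe, ← List.map_tail, List.tail_cons, List.zipWith_map,
      List.map_zipWith]
    simp only [zab_sub]

end Pool.Agent.Lib.MP_7ae50b_co.ML
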