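import Pool.Agent.Lib.MP_7ae50b_co.MLDef

set_option autoImplicit false
set_option linter.unusedSectionVars false

/-! Mixing: every element is a sum of `h` elements of a dense symmetric set in many ways.
Characters are `ψ : AddChar G ℂ`; use `AddChar.sum_apply_eq_ite` (sum over `ψ`),
`AddChar.sum_eq_ite` (sum over `g`), `AddChar.card_eq`, `AddChar.norm_apply`. -/

namespace Pool.Agent.Lib.MP_7ae50b_co.ML

open Finset
open scoped Classical

variable {G : Type} [AddCommGroup G] [Fintype G]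

theorem mlmix_pow {z : ℂ} (hz : ‖z‖ = 1) (j : ℕ) : ‖z ^ j - 1‖ ≤ j * ‖z - 1‖ := by
  induction j with
  | zero => simp
  | succ j ih =>
    have e : z ^ (j + 1) - 1 = z * (z ^ j - 1) + (z - 1) := by ring
    have h := norm_add_le (z * (z ^ j - 1)) (z - 1)
    rw [norm_mul, hz, one_mul] at h
    rw [e]
    push_cast
    linarith

theorem mlmix_geom {z : ℂ} (hz : ‖z‖ = 1) {J n : ℕ} (hJ : 0 < J) (hn : n ≤ J)
    (h : ‖z - 1‖ ≤ 1 / (2 * J)) : (n : ℝ) / 2 ≤ ‖∑ j ∈ range n, z ^ j‖ := by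
  have hJ' : (0 : ℝ) < J := by exact_mod_cast hJ
  have h1 : ‖∑ j ∈ range n, (z ^ j - 1)‖ ≤ ∑ j ∈ range n, (1 / 2 : ℝ) := by
    refine norm_sum_le_of_le _ fun j hj => (mlmix_pow hz j).trans ?_
    have h2 : (j : ℝ) ≤ J := by exact_mod_cast ((mem_range.1 hj).le.trans hn)
    calc (j : ℝ) * ‖z - 1‖ ≤ J * (1 / (2 * J)) := mul_le_mul h2 h (norm_nonneg _) hJ'.le
      _ = 1 / 2 := by field_simp
  rw [sum_sub_distrib, sum_const, sum_const, card_range, nsmul_eq_mul, nsmul_eq_mul, mul_one,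
    norm_sub_rev] at h1
  have h3 := norm_sub_norm_le (n : ℂ) (∑ j ∈ range n, z ^ j)
  rw [Complex.norm_natCast] at h3
  linarith

theorem mlmix_sq (w : ℂ) : ((‖w‖ ^ 2 : ℝ) : ℂ) = w * (starRingEnd ℂ) w := by
  rw [Complex.mul_conj, Complex.normSq_eq_norm_sq]

theorem mlmix_orth {ι : Type} (s : Finset ι) (χ : ι → AddChar G ℂ)
    (hχ : ∀ i ∈ s, ∀ j ∈ s, χ i = χ j → i = j) :
    ∑ g, ‖∑ i ∈ s, χ i g‖ ^ 2 = s.card * (Fintype.card G : ℝ) := by
  apply Complex.ofReal_injective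
  push_cast
  have e : ∀ g, ((‖∑ i ∈ s, χ i g‖ : ℝ) : ℂ) ^ 2 = ∑ i ∈ s, ∑ j ∈ s, (χ i - χ j) g := by
    intro g
    have := mlmix_sq (∑ i ∈ s, χ i g)
    push_cast at this
    rw [this, map_sum, sum_mul_sum]
    simp only [AddChar.sub_apply, AddChar.map_neg_eq_conj]
  simp only [e]
  rw [sum_comm, ← nsmul_eq_mul, ← sum_const]
  refine sum_congr rfl fun i hi => ?_
  rw [sum_comm]
  simp only [AddChar.sum_eq_ite, sub_eq_zero]
  rw [sum_eq_single i (fun j hj hji => if_neg fun h => hji (hχ j hj i hi h.symm))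
    fun h => absurd hi h, if_pos rfl]

/-- If `ψ ^ n = 1` for some `0 < n < J` the set is empty: `z = ψ g ≠ 1` has `∑_{j<n} z ^ j = 0`,
but `‖z ^ j - 1‖ ≤ j ‖z - 1‖ ≤ 1 / 2`.  Otherwise the characters `ψ ^ j`, `j < J`, are different,
so `∑_g ‖∑_{j<J} ψ g ^ j‖ ^ 2 = J * card G`, and each `g` of the set contributes `≥ (J / 2) ^ 2`. -/
theorem near_one (ψ : AddChar G ℂ) {J : ℕ} (hJ : 0 < J) :
    J * (univ.filter fun g => ψ g ≠ 1 ∧ ‖ψ g - 1‖ ≤ 1 / (2 * J)).card ≤ 4 * Fintype.card G := by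
  by_cases hc : ∃ n, 0 < n ∧ n < J ∧ n • ψ = 0
  · obtain ⟨n, hn0, hn, h0⟩ := hc
    have : (univ.filter fun g => ψ g ≠ 1 ∧ ‖ψ g - 1‖ ≤ 1 / (2 * J)) = ∅ := by
      refine filter_eq_empty_iff.2 fun g _ hg => ?_
      have h1 := mlmix_geom (ψ.norm_apply g) hJ hn.le hg.2
      have h2 : ψ g ^ n = 1 := AddChar.eq_zero_iff.1 h0 g
      rw [geom_sum_eq hg.1, h2, sub_self, zero_div, norm_zero] at h1
      have h3 : (0 : ℝ) < n := by exact_mod_cast hn0
      linarith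
    rw [this, card_empty, mul_zero]
    exact Nat.zero_le _
  · have key : ∀ i j, i < j → j < J → i • ψ ≠ j • ψ := by
      intro i j hij hj h
      obtain ⟨k, rfl⟩ := Nat.exists_eq_add_of_lt hij
      refine hc ⟨k + 1, Nat.succ_pos k, by omega, ?_⟩
      rw [add_assoc, add_nsmul] at h
      exact (add_eq_left.1 h.symm)
    have h1 := mlmix_orth (range J) (fun j => j • ψ) fun i hi j hj h => by
      rcases lt_trichotomy i j with e | e | e
      · exact absurd h (key i j e (mem_range.1 hj))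
      · exact e
      · exact absurd h.symm (key j i e (mem_range.1 hi))
    simp only [AddChar.nsmul_apply, card_range] at h1
    set S := univ.filter fun g => ψ g ≠ 1 ∧ ‖ψ g - 1‖ ≤ 1 / (2 * J) with hS
    have h2 : ∑ g ∈ S, ((J : ℝ) / 2) ^ 2 ≤ ∑ g, ‖∑ j ∈ range J, ψ g ^ j‖ ^ 2 := by
      refine (sum_le_sum fun g hg => ?_).trans
        (sum_le_sum_of_subset_of_nonneg (subset_univ S) fun _ _ _ => sq_nonneg _)
      exact pow_le_pow_left₀ (by positivity)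
        (mlmix_geom (ψ.norm_apply g) hJ le_rfl (mem_filter.1 hg).2.2) 2
    rw [h1, sum_const, nsmul_eq_mul] at h2
    have hJ' : (0 : ℝ) < J := by exact_mod_cast hJ
    have h3 : (J : ℝ) * (J * S.card) ≤ J * (4 * Fintype.card G) := by nlinarith
    exact_mod_cast le_of_mul_le_mul_left h3 hJ'

theorem mlmix_inj (hD : Dbl G) : Function.Injective fun g : G => g + g := by
  intro x y h
  have h' : x + x = y + y := h
  refine sub_eq_zero.1 (hD _ ?_)
  rw [sub_add_sub_comm, h', sub_self]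

theorem mlmix_ne (hD : Dbl G) (ψ : AddChar G ℂ) (g : G) : ψ g ≠ -1 := by
  intro h
  have ho : Odd (Fintype.card G) := by
    rw [← Nat.not_even_iff_odd, even_iff_two_dvd]
    intro h2
    have : Fact (Nat.Prime 2) := ⟨Nat.prime_two⟩
    obtain ⟨x, hx⟩ := exists_prime_addOrderOf_dvd_card 2 h2
    have h3 : x + x = 0 := by rw [← two_nsmul, ← hx, addOrderOf_nsmul_eq_zero]
    rw [hD x h3, addOrderOf_zero] at hx
    omega
  have h1 := ψ.map_nsmul_eq_pow (Fintype.card G) g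
  rw [card_nsmul_eq_zero, ψ.map_zero_eq_one, h, ho.neg_one_pow] at h1
  norm_num at h1

/-- `card G` is odd (Cauchy: `exists_prime_addOrderOf_dvd_card`), so `ψ g ≠ -1`.  If
`‖ψ g + 1‖ ≤ 1 / (4 J)` then `ψ (g + g) ≠ 1` and `‖ψ (g + g) - 1‖ ≤ 1 / (2 J)`; `g ↦ g + g` is
injective. -/
theorem near_neg_one (hD : Dbl G) (ψ : AddChar G ℂ) {J : ℕ} (hJ : 0 < J) :
    J * (univ.filter fun g => ‖ψ g + 1‖ ≤ 1 / (4 * J)).card ≤ 4 * Fintype.card G := by
  refine le_trans (Nat.mul_le_mul_left J ?_) (near_one ψ hJ)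
  have hJ' : (1 : ℝ) ≤ J := by exact_mod_cast hJ
  refine card_le_card_of_injOn (fun g => g + g) (fun g hg => ?_) (mlmix_inj hD).injOn
  have hg' : ‖ψ g + 1‖ ≤ 1 / (4 * J) := (mem_filter.1 hg).2
  have e : ψ (g + g) - 1 = (ψ g - 1) * (ψ g + 1) := by rw [ψ.map_add_eq_mul]; ring
  refine mem_filter.2 ⟨mem_univ _, fun h => ?_, ?_⟩
  · rw [h, sub_self] at e
    rcases mul_eq_zero.1 e.symm with h1 | h1
    · rw [sub_eq_zero.1 h1, one_add_one_eq_two, Complex.norm_two,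
        le_div_iff₀ (by positivity)] at hg'
      linarith
    · exact mlmix_ne hD ψ g (eq_neg_of_add_eq_zero_left h1)
  · have h1 : ‖ψ g - 1‖ ≤ 2 := by
      have := norm_sub_le (ψ g) 1
      rw [ψ.norm_apply, norm_one] at this
      linarith
    show ‖ψ (g + g) - 1‖ ≤ _
    rw [e, norm_mul]
    calc ‖ψ g - 1‖ * ‖ψ g + 1‖ ≤ 2 * (1 / (4 * J)) :=
          mul_le_mul h1 hg' (norm_nonneg _) (by norm_num)
      _ = 1 / (2 * J) := by field_simp; ring

theorem mlmix_re (A B : Finset G) (hB : B ⊆ A) (u : G → ℂ) (hu : ∀ a, ‖u a‖ = 1) {ρ : ℝ}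
    (hρ : 0 ≤ ρ) (h : ∀ a ∈ B, ρ ≤ ‖u a - 1‖) :
    (∑ a ∈ A, u a).re ≤ A.card - ρ ^ 2 / 2 * B.card := by
  have e : ∀ a, 1 - (u a).re = ‖u a - 1‖ ^ 2 / 2 := by
    intro a
    have h1 : ‖u a‖ ^ 2 = 1 := by rw [hu a]; norm_num
    rw [← Complex.normSq_eq_norm_sq, Complex.normSq_apply] at h1
    rw [← Complex.normSq_eq_norm_sq, Complex.normSq_apply]
    simp only [Complex.sub_re, Complex.sub_im, Complex.one_re, Complex.one_im]
    linarith
  have h1 : ∑ a ∈ B, ρ ^ 2 / 2 ≤ ∑ a ∈ A, (1 - (u a).re) := by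
    simp only [e]
    refine (sum_le_sum fun a ha => ?_).trans
      (sum_le_sum_of_subset_of_nonneg hB fun _ _ _ => by positivity)
    have := pow_le_pow_left₀ hρ (h a ha) 2
    linarith
  rw [sum_sub_distrib, sum_const, sum_const, nsmul_eq_mul, nsmul_eq_mul] at h1
  rw [Complex.re_sum]
  linarith

theorem mlmix_card {X Y Z : Finset G} (h : ∀ a ∈ X, a ∉ Z → a ∈ Y) :
    (X.card : ℝ) ≤ Y.card + Z.card := by
  have : X ⊆ Y ∪ Z := fun a ha => by
    by_cases h' : a ∈ Z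
    · exact mem_union_right _ h'
    · exact mem_union_left _ (h a ha h')
  exact_mod_cast (card_le_card this).trans (card_union_le _ _)

/-- Take `J ≥ 8 / δ`, `H` the kernel of `ψ`.  The sum is real as `A` is symmetric.  At least
`δ v / 2` elements of `A` have `‖ψ a - 1‖ > 1 / (2 J)`, so `re (ψ a) = 1 - ‖ψ a - 1‖ ^ 2 / 2` is at
most `1 - 1 / (8 J ^ 2)`; the same near `-1`.  `c = δ / (64 J ^ 2)`, `card A ≤ v`. -/
theorem gap {δ : ℝ} (hδ : 0 < δ) : ∃ c : ℝ, 0 < c ∧ c ≤ 1 ∧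
    ∀ (G : Type) [AddCommGroup G] [Fintype G] (A : Finset G), Dbl G → (∀ a ∈ A, -a ∈ A) →
      (∀ H : AddSubgroup G, H ≠ ⊤ → δ * Fintype.card G ≤ (A.filter fun a => a ∉ H).card) →
      ∀ ψ : AddChar G ℂ, ψ ≠ 0 → ‖∑ a ∈ A, ψ a‖ ≤ (1 - c) * A.card := by
  obtain ⟨J, hJ⟩ := exists_nat_ge (8 / δ)
  have hJ' : (0 : ℝ) < J := lt_of_lt_of_le (by positivity) hJ
  have hJ0 : 0 < J := by exact_mod_cast hJ'
  rw [div_le_iff₀ hδ] at hJ
  refine ⟨min (δ / (64 * J ^ 2)) 1, lt_min (by positivity) one_pos, min_le_right _ _,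
    fun G _ _ A hD hs hH ψ hψ => ?_⟩
  set v : ℝ := (Fintype.card G : ℝ) with hv
  have hv0 : 0 ≤ v := Nat.cast_nonneg _
  have hAv : (A.card : ℝ) ≤ v := by rw [hv]; exact_mod_cast card_le_univ A
  let H : AddSubgroup G :=
    { carrier := {g | ψ g = 1}
      add_mem' := fun {a b} ha hb => by
        show ψ (a + b) = 1
        rw [ψ.map_add_eq_mul, show ψ a = 1 from ha, show ψ b = 1 from hb, one_mul]
      zero_mem' := ψ.map_zero_eq_one
      neg_mem' := fun {a} ha => by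
        show ψ (-a) = 1
        rw [ψ.map_neg_eq_inv, show ψ a = 1 from ha, inv_one] }
  have hne : H ≠ ⊤ := by
    obtain ⟨x, hx⟩ := AddChar.ne_zero_iff.1 hψ
    intro h
    have : x ∈ H := h ▸ AddSubgroup.mem_top x
    exact hx this
  have h1 : δ * v ≤ (A.filter fun a => ψ a ≠ 1).card := by
    refine (hH H hne).trans (le_of_eq ?_)
    congr 2
  have half : ∀ N : ℕ, J * N ≤ 4 * Fintype.card G → (N : ℝ) ≤ δ * v / 2 := by
    intro N hN
    have h2 : (J : ℝ) * N ≤ 4 * v := by rw [hv]; exact_mod_cast hN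
    have h3 : (J : ℝ) * N ≤ J * (δ * v / 2) := by nlinarith
    exact le_of_mul_le_mul_left h3 hJ'
  have fin : ∀ (B : Finset G) (u : G → ℂ), B ⊆ A → (∀ a, ‖u a‖ = 1) → δ * v / 2 ≤ B.card →
      (∀ a ∈ B, 1 / (4 * J) ≤ ‖u a - 1‖) →
      (∑ a ∈ A, u a).re ≤ (1 - min (δ / (64 * J ^ 2)) 1) * A.card := by
    intro B u hB hu hc h
    have h2 := mlmix_re A B hB u hu (by positivity) h
    have h3 : min (δ / (64 * J ^ 2)) 1 * A.card ≤ δ / (64 * J ^ 2) * v :=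
      mul_le_mul (min_le_left _ _) hAv (Nat.cast_nonneg _) (by positivity)
    have h4 : δ / (64 * J ^ 2) * v = (1 / (4 * J)) ^ 2 / 2 * (δ * v / 2) := by field_simp; ring
    have h5 : (1 / (4 * J)) ^ 2 / 2 * (δ * v / 2) ≤ (1 / (4 * (J : ℝ))) ^ 2 / 2 * B.card :=
      mul_le_mul_of_nonneg_left hc (by positivity)
    linarith
  have him : (∑ a ∈ A, ψ a).im = 0 := by
    rw [← Complex.conj_eq_iff_im, map_sum]
    simp only [← AddChar.map_neg_eq_conj]
    exact sum_nbij' (fun a => -a) (fun a => -a) hs hs (fun _ _ => neg_neg _) (fun _ _ => neg_neg _)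
      fun _ _ => rfl
  rw [← Complex.abs_re_eq_norm.2 him, abs_le]
  constructor
  · have h2 := mlmix_card (X := A) (Y := A.filter fun a => ¬ ‖ψ a + 1‖ ≤ 1 / (4 * J))
      (Z := univ.filter fun g => ‖ψ g + 1‖ ≤ 1 / (4 * J))
      fun a ha h => mem_filter.2 ⟨ha, fun h' => h (mem_filter.2 ⟨mem_univ _, h'⟩)⟩
    have h3 := half _ (near_neg_one hD ψ hJ0)
    have h4 : ((A.filter fun a => ψ a ≠ 1).card : ℝ) ≤ A.card := by
      exact_mod_cast card_filter_le _ _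
    have h5 := fin (A.filter fun a => ¬ ‖ψ a + 1‖ ≤ 1 / (4 * J)) (fun a => -ψ a) (filter_subset _ _)
      (fun a => by rw [norm_neg, ψ.norm_apply]) (by linarith) fun a ha => by
        rw [← neg_add', norm_neg]
        exact (not_le.1 (mem_filter.1 ha).2).le
    rw [sum_neg_distrib, Complex.neg_re] at h5
    linarith
  · have h2 := mlmix_card (X := A.filter fun a => ψ a ≠ 1)
      (Y := A.filter fun a => ψ a ≠ 1 ∧ ¬ ‖ψ a - 1‖ ≤ 1 / (2 * J))
      (Z := univ.filter fun g => ψ g ≠ 1 ∧ ‖ψ g - 1‖ ≤ 1 / (2 * J))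
      fun a ha h => mem_filter.2 ⟨(mem_filter.1 ha).1, (mem_filter.1 ha).2,
        fun h' => h (mem_filter.2 ⟨mem_univ _, (mem_filter.1 ha).2, h'⟩)⟩
    have h3 := half _ (near_one ψ hJ0)
    refine fin (A.filter fun a => ψ a ≠ 1 ∧ ¬ ‖ψ a - 1‖ ≤ 1 / (2 * J)) ψ (filter_subset _ _)
      ψ.norm_apply (by linarith) fun a ha => ?_
    refine le_trans ?_ (not_le.1 (mem_filter.1 ha).2.2).le
    exact one_div_le_one_div_of_le (by positivity) (by linarith)

theorem mlmix_map_sum {ι : Type} (ψ : AddChar G ℂ) (s : Finset ι) (f : ι → G) :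
    ψ (∑ i ∈ s, f i) = ∏ i ∈ s, ψ (f i) := by
  induction s using Finset.induction_on with
  | empty => simp
  | insert a s ha ih => rw [sum_insert ha, prod_insert ha, ψ.map_add_eq_mul, ih]

theorem mlmix_parseval (A : Finset G) :
    ∑ ψ : AddChar G ℂ, ‖∑ a ∈ A, ψ a‖ ^ 2 = A.card * (Fintype.card G : ℝ) := by
  apply Complex.ofReal_injective
  push_cast
  have e : ∀ ψ : AddChar G ℂ, ((‖∑ a ∈ A, ψ a‖ : ℝ) : ℂ) ^ 2 = ∑ a ∈ A, ∑ b ∈ A, ψ (a - b) := by
    intro ψ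
    have := mlmix_sq (∑ a ∈ A, ψ a)
    push_cast at this
    rw [this, map_sum, sum_mul_sum]
    simp only [sub_eq_add_neg, ψ.map_add_eq_mul, AddChar.map_neg_eq_conj]
  simp only [e]
  rw [sum_comm, ← nsmul_eq_mul, ← sum_const]
  refine sum_congr rfl fun a ha => ?_
  rw [sum_comm]
  simp only [AddChar.sum_apply_eq_ite, sub_eq_zero]
  rw [sum_ite_eq, if_pos ha]

theorem mlmix_count (A : Finset G) (h : ℕ) (y : G) :
    ∑ ψ : AddChar G ℂ, ψ (-y) * (∑ a ∈ A, ψ a) ^ h =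
      ((univ.filter fun β : Fin h → G => (∀ l, β l ∈ A) ∧ ∑ l, β l = y).card : ℂ) *
        Fintype.card G := by
  have e : ∀ ψ : AddChar G ℂ, ψ (-y) * (∑ a ∈ A, ψ a) ^ h =
      ∑ β ∈ Fintype.piFinset fun _ : Fin h => A, ψ (∑ l, β l - y) := by
    intro ψ
    rw [sum_pow', mul_sum]
    refine sum_congr rfl fun β _ => ?_
    rw [sub_eq_neg_add, ψ.map_add_eq_mul, mlmix_map_sum]
  simp only [e]
  rw [sum_comm]
  simp only [AddChar.sum_apply_eq_ite, sub_eq_zero]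
  rw [← sum_filter, sum_const, nsmul_eq_mul]
  congr 3
  ext β
  simp [Fintype.mem_piFinset]

/-- `v * count = ∑_ψ ψ (-y) (∑_{a ∈ A} ψ a) ^ h`, Parseval `∑_ψ ‖∑_{a ∈ A} ψ a‖ ^ 2 = v * card A`;
so `v * count ≥ A ^ h - ((1 - c) A) ^ (h - 2) v A ≥ A ^ h / 2`. -/
theorem count_ge (A : Finset G) {c δ : ℝ} (hδ : 0 < δ) (hc : c ≤ 1) {h : ℕ} (hh : 3 ≤ h)
    (hA : δ * Fintype.card G ≤ A.card)
    (hg : ∀ ψ : AddChar G ℂ, ψ ≠ 0 → ‖∑ a ∈ A, ψ a‖ ≤ (1 - c) * A.card)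
    (hnum : 2 * (1 - c) ^ (h - 2) ≤ δ) (y : G) :
    δ ^ h / 2 * (Fintype.card G : ℝ) ^ (h - 1) ≤
      (univ.filter fun β : Fin h → G => (∀ l, β l ∈ A) ∧ ∑ l, β l = y).card := by
  obtain ⟨k, rfl⟩ : ∃ k, h = k + 2 := ⟨h - 2, by omega⟩
  rw [Nat.add_sub_cancel] at hnum
  rw [show k + 2 - 1 = k + 1 from rfl]
  have h1 := mlmix_count A (k + 2) y
  generalize (univ.filter fun β : Fin (k + 2) → G => (∀ l, β l ∈ A) ∧ ∑ l, β l = y).card = N
    at h1 ⊢
  set v : ℝ := (Fintype.card G : ℝ) with hv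
  have hv0 : 0 < v := by rw [hv]; exact_mod_cast Fintype.card_pos
  have ha0 : (0 : ℝ) ≤ A.card := Nat.cast_nonneg _
  rw [← add_sum_erase _ _ (mem_univ (0 : AddChar G ℂ))] at h1
  simp only [AddChar.zero_apply, sum_const, nsmul_eq_mul, mul_one, one_mul] at h1
  have h2 : ‖∑ ψ ∈ univ.erase (0 : AddChar G ℂ), ψ (-y) * (∑ a ∈ A, ψ a) ^ (k + 2)‖ ≤
      ((1 - c) * A.card) ^ k * (A.card * v) := by
    have h0 : 0 ≤ ((1 - c) * A.card) ^ k := pow_nonneg (mul_nonneg (by linarith) ha0) _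
    rw [hv, ← mlmix_parseval, mul_sum univ]
    refine (norm_sum_le _ _).trans (le_trans (sum_le_sum fun ψ hψ => ?_)
      (sum_le_sum_of_subset_of_nonneg (subset_univ (univ.erase (0 : AddChar G ℂ))) fun _ _ _ =>
        mul_nonneg h0 (sq_nonneg _)))
    rw [norm_mul, ψ.norm_apply, one_mul, norm_pow, pow_add]
    exact mul_le_mul_of_nonneg_right
      (pow_le_pow_left₀ (norm_nonneg _) (hg ψ (ne_of_mem_erase hψ)) k) (sq_nonneg _)
  rw [eq_sub_of_add_eq' h1] at h2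
  have h3 : ((N * v - (A.card : ℝ) ^ (k + 2) : ℝ) : ℂ) =
      (N : ℂ) * Fintype.card G - (A.card : ℂ) ^ (k + 2) := by
    rw [hv]; push_cast; rfl
  rw [← h3, Complex.norm_real, Real.norm_eq_abs] at h2
  have h4 := (abs_le.1 h2).1
  have h5 : (1 - c) ^ k * v ≤ A.card / 2 := by nlinarith
  have h6 : ((1 - c) * A.card) ^ k * (A.card * v) ≤ (A.card : ℝ) ^ (k + 2) / 2 := by
    calc ((1 - c) * A.card) ^ k * (A.card * v) = (A.card : ℝ) ^ (k + 1) * ((1 - c) ^ k * v) := by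
          rw [mul_pow]; ring
      _ ≤ (A.card : ℝ) ^ (k + 1) * (A.card / 2) := mul_le_mul_of_nonneg_left h5 (by positivity)
      _ = _ := by ring
  have h7 : (δ * v) ^ (k + 2) ≤ (A.card : ℝ) ^ (k + 2) := pow_le_pow_left₀ (by positivity) hA _
  have h8 : δ ^ (k + 2) / 2 * v ^ (k + 1) * v ≤ N * v := by
    have : δ ^ (k + 2) / 2 * v ^ (k + 1) * v = (δ * v) ^ (k + 2) / 2 := by rw [mul_pow]; ring
    linarith
  exact le_of_mul_le_mul_right h8 hv0

/-- `A = {β | ab β ∈ D} ⊇ D`; `g ↦ m • g` is injective, hence onto; `pt_last`.  Note `δ ≤ 1` may be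
assumed (replace `δ` by `min δ 1`). -/
theorem mix {δ : ℝ} (hδ : 0 < δ) : ∃ (h : ℕ) (c₀ : ℝ), 3 ≤ h ∧ 0 < c₀ ∧ c₀ ≤ 1 ∧
    ∀ (G : Type) [AddCommGroup G] [Fintype G] (ab : G → G) (D : Finset G), Ab ab → Dbl G →
      (∀ c ∈ D, ab c = c) → δ * Fintype.card G ≤ D.card →
      (∀ H : AddSubgroup G, H ≠ ⊤ → δ * Fintype.card G ≤ (D.filter fun c => c ∉ H).card) →
      ∀ m, m = 1 ∨ m = 2 → ∀ a b : G,
        c₀ * (Fintype.card G : ℝ) ^ (h - 1) ≤ (Ch ab h m univ D a b).card := by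
  obtain ⟨c, hc0, hc1, hgap⟩ := gap hδ
  have hδ' : 0 < min δ 1 := lt_min hδ one_pos
  obtain ⟨k, hk⟩ := exists_pow_lt_of_lt_one (half_pos hδ') (by linarith : 1 - c < 1)
  refine ⟨k + 3, min δ 1 ^ (k + 3) / 2, by omega, by positivity, ?_,
    fun G _ _ ab D hab hD hD1 hcard hH m hm a b => ?_⟩
  · have := pow_le_one₀ (n := k + 3) hδ'.le (min_le_right δ 1)
    linarith
  set A : Finset G := univ.filter fun β => ab β ∈ D with hA
  have hDA : D ⊆ A := fun x hx => mem_filter.2 ⟨mem_univ _, by rwa [hD1 x hx]⟩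
  obtain ⟨y, hy⟩ : ∃ y : G, m • y = b - a := by
    rcases hm with rfl | rfl
    · exact ⟨b - a, one_nsmul _⟩
    · obtain ⟨y, hy⟩ := Finite.injective_iff_surjective.1 (mlmix_inj hD) (b - a)
      exact ⟨y, by rw [two_nsmul]; exact hy⟩
  have h1 := count_ge A (c := c) hδ' hc1 (h := k + 3) (by omega)
    ((mul_le_mul_of_nonneg_right (min_le_left _ _) (Nat.cast_nonneg _)).trans
      (hcard.trans (by exact_mod_cast card_le_card hDA)))
    (hgap G A hD (fun x hx => mem_filter.2 ⟨mem_univ _, by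
        rw [hab.neg]; exact (mem_filter.1 hx).2⟩)
      fun H hH' => (hH H hH').trans (by exact_mod_cast card_le_card (filter_subset_filter _ hDA)))
    (by
      rw [show k + 3 - 2 = k + 1 from rfl, pow_succ]
      have : 0 ≤ (1 - c) ^ k := pow_nonneg (by linarith) _
      nlinarith) y
  refine h1.trans ?_
  refine Nat.cast_le.2 (card_le_card fun β hβ => ?_)
  obtain ⟨-, h2, h3⟩ := mem_filter.1 hβ
  refine mem_Ch.2 ⟨?_, fun l => (mem_filter.1 (h2 l)).2, fun _ _ _ => mem_univ _⟩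
  rw [pt_last, h3, hy, add_sub_cancel]

end Pool.Agent.Lib.MP_7ae50b_co.ML
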