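import Pool.Agent.Lib.MP_7ae50b_co.MLDef
import Pool.Agent.Lib.MP_34bdde_co.Reserve

set_option autoImplicit false
set_option linter.unusedSectionVars false

/-! Probabilities of events for random subsets. -/

namespace Pool.Agent.Lib.MP_7ae50b_co.ML

open Finset Pool.Agent.Lib.MP_34bdde_co
open scoped Classical

variable {ι : Type} [Fintype ι] {p : ι → ℝ}

/-- The probability of an event. -/
noncomputable def Pr (p : ι → ℝ) (bad : Finset ι → Prop) : ℝ := Ex p fun A => if bad A then 1 else 0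

theorem mlranda_le (hp : ∀ i, 0 ≤ p i ∧ p i ≤ 1) {b : Finset ι → Prop} {f : Finset ι → ℝ}
    (h0 : ∀ A, 0 ≤ f A) (h1 : ∀ A, b A → 1 ≤ f A) : Pr p b ≤ Ex p f :=
  Ex_mono hp fun A => by
    by_cases h : b A
    · rw [if_pos h]
      exact h1 A h
    · rw [if_neg h]
      exact h0 A

theorem mlranda_nn (P : Prop) : (0 : ℝ) ≤ if P then 1 else 0 := by
  split_ifs <;> norm_num

theorem mlranda_sum {J : Type} [Fintype J] (b : J → Finset ι → Prop) {t : ℝ}
    (h : ∀ j, Pr p (b j) ≤ t) :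
    Ex p (fun A => ∑ j, if b j A then 1 else 0) ≤ Fintype.card J * t := by
  rw [Ex_sum, ← card_univ, ← nsmul_eq_mul]
  exact sum_le_card_nsmul _ _ _ fun j _ => h j

theorem Pr_mono (hp : ∀ i, 0 ≤ p i ∧ p i ≤ 1) {b b' : Finset ι → Prop} (h : ∀ A, b A → b' A) :
    Pr p b ≤ Pr p b' := by
  exact mlranda_le hp (fun A => mlranda_nn _) fun A a => (if_pos (h A a)).ge

theorem Pr_or (hp : ∀ i, 0 ≤ p i ∧ p i ≤ 1) (b b' : Finset ι → Prop) :
    Pr p (fun A => b A ∨ b' A) ≤ Pr p b + Pr p b' := by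
  refine (mlranda_le hp (fun A => add_nonneg (mlranda_nn _) (mlranda_nn _)) fun A a => ?_).trans
    (Ex_add _ _).le
  rcases a with a | a
  · exact le_add_of_le_of_nonneg (if_pos a).ge (mlranda_nn _)
  · exact le_add_of_nonneg_of_le (mlranda_nn _) (if_pos a).ge

theorem Pr_exists (hp : ∀ i, 0 ≤ p i ∧ p i ≤ 1) {J : Type} [Fintype J] (b : J → Finset ι → Prop)
    {t : ℝ} (h : ∀ j, Pr p (b j) ≤ t) : Pr p (fun A => ∃ j, b j A) ≤ Fintype.card J * t := by
  exact (mlranda_le hp (fun A => sum_nonneg fun j _ => mlranda_nn _) fun A ⟨j, a⟩ =>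
    (if_pos a).ge.trans (single_le_sum (f := fun j => if b j A then (1 : ℝ) else 0)
      (fun j _ => mlranda_nn _) (mem_univ j))).trans (mlranda_sum b h)

/-- Markov's inequality. -/
theorem Pr_many (hp : ∀ i, 0 ≤ p i ∧ p i ≤ 1) {J : Type} [Fintype J] (b : J → Finset ι → Prop)
    {t ε : ℝ} (ht : 0 ≤ t) (hε : 0 < ε) (h : ∀ j, Pr p (b j) ≤ t) :
    Pr p (fun A => ε * Fintype.card J < (univ.filter fun j => b j A).card) ≤ t / ε := by
  refine (mlranda_le hp (f := fun A => (ε * Fintype.card J)⁻¹ * ∑ j, if b j A then 1 else 0)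
    (fun A => mul_nonneg (by positivity) (sum_nonneg fun j _ => mlranda_nn _))
    fun A a => ?_).trans ?_
  · have h1 : (0 : ℝ) < Fintype.card J :=
      (lt_of_le_of_lt (by positivity) a).trans_le (Nat.cast_le.2 (card_le_univ _))
    rw [le_inv_mul_iff₀ (mul_pos hε h1), mul_one, sum_boole]
    exact a.le
  · rw [Ex_mul]
    refine (mul_le_mul_of_nonneg_left (mlranda_sum b h) (by positivity)).trans ?_
    rw [mul_inv, mul_assoc, ← mul_assoc _ _ t, div_eq_inv_mul]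
    exact mul_le_mul_of_nonneg_left (mul_le_of_le_one_left ht inv_mul_le_one) (by positivity)

theorem exists_of_Pr (hp : ∀ i, 0 ≤ p i ∧ p i ≤ 1) {b : Finset ι → Prop} (h : Pr p b < 1) :
    ∃ A, ¬b A := by
  exact (exists_of_Ex_lt_one hp b h).imp fun A a => a.1

/-- `bern` with `c i = cnt (q z ∧ i ∈ T z)`, `m = K`, `v = K Λ n`, `lam = ε / (2 K Λ)`. -/
theorem blk_tail (hp : ∀ i, 0 ≤ p i ∧ p i ≤ 1) {I : Type} [Fintype I] (q : I → Prop)
    (T : I → Finset ι) {Λ K n ε : ℝ} (hΛ : 1 ≤ Λ) (hK : 0 < K) (hε : 0 ≤ ε) (hε1 : ε ≤ 1)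
    (h1 : ∀ z, q z → ((T z).card : ℝ) ≤ Λ) (h2 : ∀ i, (cnt (fun z => q z ∧ i ∈ T z) : ℝ) ≤ K)
    (h3 : (cnt q : ℝ) ≤ n) :
    Pr p (fun A => ε * n ≤ |blk q T A - Ex p (blk q T)|) ≤
      2 * Real.exp (-(ε ^ 2 * n / (4 * Λ * K))) := by
  have e : ∀ i, (cnt (fun z => q z ∧ i ∈ T z) : ℝ) =
      ∑ z ∈ univ.filter q, if i ∈ T z then 1 else 0 := by
    intro i
    rw [sum_boole, filter_filter, cnt_def]
  have key := bern hp (blk q T) (fun i => cnt fun z => q z ∧ i ∈ T z) K (K * (Λ * n)) (ε * n)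
    (ε / (2 * K * Λ)) (fun A i _ => ?_) h2 ?_ (by positivity) ?_
  · refine le_of_eq_of_le (congrArg (Ex p) (funext fun A => by congr)) (key.trans (le_of_eq ?_))
    congr 2
    field_simp
    ring
  · rw [blk_eq_sum, blk_eq_sum, ← sum_sub_distrib, e]
    refine (abs_sum_le_sum_abs _ _).trans (sum_le_sum fun z _ => ?_)
    by_cases hi : i ∈ T z
    · rw [if_pos hi]
      split_ifs <;> norm_num
    · simp only [subset_insert_iff_of_notMem hi, sub_self, abs_zero, if_neg hi, le_refl]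
  · calc _ ≤ ∑ i, K * (cnt (fun z => q z ∧ i ∈ T z) : ℝ) := sum_le_sum fun i _ =>
          (mul_le_of_le_one_left (sq_nonneg _) (hp i).2).trans
            ((sq _).trans_le (mul_le_mul_of_nonneg_right (h2 i) (Nat.cast_nonneg _)))
      _ = K * ∑ z ∈ univ.filter q, ((T z).card : ℝ) := by
          simp only [e]
          rw [← mul_sum, sum_comm]
          simp
      _ ≤ K * (Λ * n) := by
          refine mul_le_mul_of_nonneg_left ((sum_le_card_nsmul _ _ Λ fun z hz =>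
            h1 z (mem_filter.1 hz).2).trans ?_) hK.le
          rw [nsmul_eq_mul, mul_comm]
          exact mul_le_mul_of_nonneg_left h3 (by linarith)
  · rw [div_mul_eq_mul_div, div_le_one (by positivity)]
    nlinarith [mul_le_mul_of_nonneg_left hΛ hK.le, mul_le_mul_of_nonneg_right hε1 hK.le]

theorem small_exp {κ : ℝ} (hκ : 0 < κ) : ∃ N : ℕ, ∀ v : ℕ, N ≤ v →
    (v : ℝ) ^ 2 * (2 * Real.exp (-(κ * v))) ≤ 1 / 100 := by
  obtain ⟨N, -, h⟩ := small_union hκ
  refine ⟨max N 20, fun v hv => ?_⟩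
  have h1 := h v (le_of_max_le_left hv)
  have h2 : (20 : ℝ) ≤ v := by exact_mod_cast le_of_max_le_right hv
  have h3 : 0 ≤ (v : ℝ) ^ 2 * (2 * Real.exp (-(κ * v))) := by positivity
  nlinarith

end Pool.Agent.Lib.MP_7ae50b_co.ML
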