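import Pool.Agent.Lib.MP_7ae50b_co.MLRandA
import Pool.Agent.Lib.MP_7ae50b_co.MLCnt

set_option autoImplicit false
set_option linter.unusedSectionVars false

/-! Tail bounds for the statistics of a random selection.  Each one is `blk_tail` for a suitable
family of blocks (`blk_eq`, `Ex_blk`, `le_Ex_blk`, `Pr_mono`). -/

namespace Pool.Agent.Lib.MP_7ae50b_co.ML

open Finset Pool.Agent.Lib.MP_34bdde_co
open scoped Classical

variable {ι : Type} [Fintype ι] {p : ι → ℝ} {G : Type} [AddCommGroup G] [Fintype G]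

/-- The elements of `S` all of whose bits are chosen. -/
noncomputable def sel (vb : G → Finset ι) (S : Finset G) (A : Finset ι) : Finset G :=
  S.filter fun x => vb x ⊆ A

/-- At most three bits per element, each bit is used by at most `T` elements. -/
structure Bits (vb : G → Finset ι) (T : ℕ) : Prop where
  three : ∀ x, (vb x).card ≤ 3
  use : ∀ i, (univ.filter fun x => i ∈ vb x).card ≤ T

/-- `Λ = 3`, `K = T`, `n = v`. -/
theorem card_tail (hp : ∀ i, 0 ≤ p i ∧ p i ≤ 1) {vb : G → Finset ι} {T : ℕ} (hT : 1 ≤ T)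
    (hb : Bits vb T) (S : Finset G) {ε : ℝ} (hε : 0 ≤ ε) (hε1 : ε ≤ 1) :
    Pr p (fun A => ε * Fintype.card G ≤ |((sel vb S A).card : ℝ) - ∑ x ∈ S, ∏ i ∈ vb x, p i|) ≤
      2 * Real.exp (-(ε ^ 2 * Fintype.card G / (12 * T))) := by
  have key := blk_tail hp (fun x : G => x ∈ S) vb (Λ := 3) (K := T) (n := Fintype.card G)
    (ε := ε) (by norm_num) (by exact_mod_cast hT) hε hε1
    (fun z _ => by exact_mod_cast hb.three z)
    (fun i => by
      have : cnt (fun z => z ∈ S ∧ i ∈ vb z) ≤ T :=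
        (cnt_mono fun z hz => hz.2).trans (by rw [cnt_def]; exact hb.use i)
      exact_mod_cast this)
    (by exact_mod_cast cnt_le_card _)
  refine (Pr_mono hp fun A hA => ?_).trans (key.trans (le_of_eq ?_))
  · have h1 : blk (fun x : G => x ∈ S) vb A = ((sel vb S A).card : ℝ) := by
      rw [blk_eq _ _ _ (r := fun x => x ∈ sel vb S A) fun z => by simp [sel], cnt_def]
      simp
    rw [h1, Ex_blk]
    simpa using hA
  · norm_num

/-- `Λ = 6`, `K = 2 T`, `n = v`. -/
theorem prs_tail (hp : ∀ i, 0 ≤ p i ∧ p i ≤ 1) {vb : G → Finset ι} {T : ℕ} (hT : 1 ≤ T)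
    (hb : Bits vb T) (c : G) {ε : ℝ} (hε : 0 ≤ ε) (hε1 : ε ≤ 1) :
    Pr p (fun A => ε * Fintype.card G ≤
      |(prs (sel vb univ A) c : ℝ) - ∑ x, ∏ i ∈ vb x ∪ vb (x + c), p i|) ≤
      2 * Real.exp (-(ε ^ 2 * Fintype.card G / (48 * T))) := by
  have key := blk_tail hp (fun _ : G => True) (fun x => vb x ∪ vb (x + c)) (Λ := 6) (K := 2 * T)
    (n := Fintype.card G) (ε := ε) (by norm_num)
    (by have : (1 : ℝ) ≤ T := by exact_mod_cast hT
        linarith) hε hε1
    (fun z _ => by
      have h1 := hb.three z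
      have h2 := hb.three (z + c)
      have h3 := card_union_le (vb z) (vb (z + c))
      exact_mod_cast (show (vb z ∪ vb (z + c)).card ≤ 6 by omega))
    (fun i => by
      have h1 : cnt (fun z => i ∈ vb z) ≤ T := by rw [cnt_def]; exact hb.use i
      have h2 : cnt (fun z => i ∈ vb (z + c)) ≤ cnt (fun z => i ∈ vb z) :=
        cnt_le_of_injOn (fun z => z + c) (fun _ hz => hz) fun _ _ _ _ e => add_right_cancel e
      have h3 : cnt (fun z => True ∧ i ∈ vb z ∪ vb (z + c)) ≤
          cnt (fun z => i ∈ vb z ∨ i ∈ vb (z + c)) := cnt_mono fun z hz => mem_union.1 hz.2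
      have h4 := cnt_or_le (fun z => i ∈ vb z) (fun z => i ∈ vb (z + c))
      exact_mod_cast (show cnt (fun z => True ∧ i ∈ vb z ∪ vb (z + c)) ≤ 2 * T by omega))
    (by exact_mod_cast cnt_le_card _)
  refine (Pr_mono hp fun A hA => ?_).trans (key.trans (le_of_eq ?_))
  · have h1 : blk (fun _ : G => True) (fun x => vb x ∪ vb (x + c)) A =
        (prs (sel vb univ A) c : ℝ) := by
      rw [blk_eq _ _ _ (r := fun x => x ∈ sel vb univ A ∧ x + c ∈ sel vb univ A)
        fun z => by simp [sel, union_subset_iff], cnt_def]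
      rfl
    rw [h1, Ex_blk]
    simpa using hA
  · congr 3
    ring

/-- `exists_index`; `Λ = 3`, `K = T γ v`, `n = v`. -/
theorem nb_tail (hp : ∀ i, 0 ≤ p i ∧ p i ≤ 1) {vb : G → Finset ι} {T : ℕ} (hT : 1 ≤ T)
    (hb : Bits vb T) (L : Multiset G) (hL : Multiset.card L ≤ Fintype.card G) {γ : ℝ} (hγ : 0 < γ)
    (hc : ∀ c, (L.count c : ℝ) ≤ γ * Fintype.card G) {f : G → G} (hf : Function.Injective f)
    {ε : ℝ} (hε : 0 ≤ ε) (hε1 : ε ≤ 1) :
    Pr p (fun A => ε * Fintype.card G ≤
      |(Multiset.card (L.filter fun c => f c ∈ sel vb univ A) : ℝ) -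
        (L.map fun c => ∏ i ∈ vb (f c), p i).sum|) ≤
      2 * Real.exp (-(ε ^ 2 / (12 * T * γ))) := by
  obtain ⟨E, _, col, rfl⟩ := exists_index L
  have hv : (0 : ℝ) < Fintype.card G := by exact_mod_cast Fintype.card_pos
  have hT' : (1 : ℝ) ≤ T := by exact_mod_cast hT
  have hfib : ∀ x : G, ((univ.filter fun e : E => f (col e) = x).card : ℝ) ≤
      γ * Fintype.card G := by
    intro x
    rcases (univ.filter fun e : E => f (col e) = x).eq_empty_or_nonempty with e | ⟨e, he⟩
    · rw [e, card_empty, Nat.cast_zero]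
      positivity
    · refine le_trans ?_ (hc (col e))
      rw [Multiset.count_eq_card_filter_eq]
      have := card_filter_col col fun g => col e = g
      have h2 : (univ.filter fun e : E => f (col e) = x).card ≤
          (univ.filter fun e' : E => col e = col e').card := by
        refine card_le_card fun e' he' => ?_
        rw [mem_filter] at he he' ⊢
        exact ⟨mem_univ _, hf (he.2.trans he'.2.symm)⟩
      have h3 := h2.trans (le_of_eq (by convert this.symm))
      exact_mod_cast h3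
  have key := blk_tail hp (fun _ : E => True) (fun e => vb (f (col e))) (Λ := 3)
    (K := T * γ * Fintype.card G) (n := Fintype.card G) (ε := ε) (by norm_num)
    (by positivity) hε hε1
    (fun z _ => by exact_mod_cast hb.three _)
    (fun i => by
      have h1 : cnt (fun e : E => True ∧ i ∈ vb (f (col e))) ≤
          ∑ x ∈ univ.filter fun x => i ∈ vb x, (univ.filter fun e : E => f (col e) = x).card := by
        rw [cnt_def]
        refine le_trans (card_le_card fun e he => ?_) card_biUnion_le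
        rw [mem_filter] at he
        exact mem_biUnion.2 ⟨f (col e), mem_filter.2 ⟨mem_univ _, he.2.2⟩,
          mem_filter.2 ⟨mem_univ _, rfl⟩⟩
      have h2 : ((∑ x ∈ univ.filter fun x => i ∈ vb x,
          (univ.filter fun e : E => f (col e) = x).card : ℕ) : ℝ) ≤
          (univ.filter fun x => i ∈ vb x).card • (γ * Fintype.card G) := by
        rw [Nat.cast_sum]
        exact sum_le_card_nsmul _ _ _ fun x _ => hfib x
      have h3 : ((univ.filter fun x => i ∈ vb x).card : ℝ) ≤ T := by exact_mod_cast hb.use i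
      rw [nsmul_eq_mul] at h2
      have h4 := mul_le_mul_of_nonneg_right h3 (show 0 ≤ γ * Fintype.card G by positivity)
      have h5 : (cnt (fun e : E => True ∧ i ∈ vb (f (col e))) : ℝ) ≤ _ := Nat.cast_le.2 h1
      linarith)
    (by
      rw [cnt_true]
      rw [Multiset.card_map] at hL
      exact_mod_cast hL)
  refine (Pr_mono hp fun A hA => ?_).trans (key.trans (le_of_eq ?_))
  · have h1 : blk (fun _ : E => True) (fun e => vb (f (col e))) A =
        (Multiset.card ((univ.val.map col).filter fun c => f c ∈ sel vb univ A) : ℝ) := by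
      rw [blk_eq _ _ _ (r := fun e => f (col e) ∈ sel vb univ A) fun z => by simp [sel], cnt_def]
      have := card_filter_col col fun c => f c ∈ sel vb univ A
      congr 1
      convert this.symm
    rw [h1, Ex_blk, filter_true]
    rw [Multiset.map_map] at hA
    exact hA
  · congr 2
    field_simp
    ring

/-- The block of `β ∈ Ch ab h m univ D a b` is the union of the bits of its interior points and of
its colours, at most `3 (2 h) + h` bits.  `Λ = 7 h`, `K = 4 h T v ^ (h - 2)` (`hit_set`),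
`n = v ^ (h - 1)` (`card_Ch_le`). -/
theorem ch_tail (hp : ∀ i, 0 ≤ p i ∧ p i ≤ 1) {ab : G → G} (H : Ab ab) (hD : Dbl G) {h m : ℕ}
    (hm : m = 1 ∨ m = 2) (hh : 3 ≤ h) {vb cb : G → Finset ι} {T : ℕ} (hT : 1 ≤ T) (hb : Bits vb T)
    (hb' : Bits cb T) (h1 : ∀ c, (cb c).card ≤ 1) {q : ℝ} (hq0 : 0 ≤ q) (hq1 : q ≤ 1)
    (hq : ∀ x, ∀ i ∈ vb x, q ≤ p i) (hq' : ∀ x, ∀ i ∈ cb x, q ≤ p i) (D : Finset G) (a b : G)
    {c₀ : ℝ} (hc : c₀ * (Fintype.card G : ℝ) ^ (h - 1) ≤ (Ch ab h m univ D a b).card)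
    {ε : ℝ} (hε : 0 ≤ ε) (hε1 : ε ≤ 1) :
    Pr p (fun A => ((Ch ab h m (sel vb univ A) (sel cb D A) a b).card : ℝ) <
      (c₀ * q ^ (7 * h) - ε) * (Fintype.card G : ℝ) ^ (h - 1)) ≤
      2 * Real.exp (-(ε ^ 2 * Fintype.card G / (112 * h ^ 2 * T))) := by
  have hv : (0 : ℝ) < Fintype.card G := by exact_mod_cast Fintype.card_pos
  have hT' : (1 : ℝ) ≤ T := by exact_mod_cast hT
  have hh' : (3 : ℝ) ≤ h := by exact_mod_cast hh
  set B : (Fin h → G) → Finset ι := fun β =>
    (Ioo 0 (m * h)).biUnion (fun s => vb (pt m a β s)) ∪ univ.biUnion fun l => cb (ab (β l))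
    with hB
  have hcard : ∀ β, (B β).card ≤ 7 * h := by
    intro β
    have e1 : ((Ioo 0 (m * h)).biUnion fun s => vb (pt m a β s)).card ≤ (Ioo 0 (m * h)).card * 3 :=
      card_biUnion_le_card_mul _ _ _ fun s _ => hb.three _
    have e2 : ((univ : Finset (Fin h)).biUnion fun l => cb (ab (β l))).card ≤
        (univ : Finset (Fin h)).card * 1 := card_biUnion_le_card_mul _ _ _ fun s _ => h1 _
    have e3 := card_union_le ((Ioo 0 (m * h)).biUnion fun s => vb (pt m a β s))
      ((univ : Finset (Fin h)).biUnion fun l => cb (ab (β l)))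
    rw [Nat.card_Ioo] at e1
    rw [card_univ, Fintype.card_fin] at e2
    simp only [hB]
    rcases hm with rfl | rfl <;> omega
  have hcnt : cnt (fun β => β ∈ Ch ab h m univ D a b) = (Ch ab h m univ D a b).card := by
    rw [cnt_def]
    simp
  have key := blk_tail hp (fun β => β ∈ Ch ab h m univ D a b) B (Λ := 7 * h)
    (K := 4 * h * T * (Fintype.card G : ℝ) ^ (h - 2)) (n := (Fintype.card G : ℝ) ^ (h - 1))
    (ε := ε) (by linarith) (by positivity) hε hε1
    (fun z _ => by exact_mod_cast hcard z)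
    (fun i => by
      have e1 := hit_set H hD hm hh a b (univ.filter fun x => i ∈ vb x)
        (univ.filter fun x => i ∈ cb x)
      have e2 : cnt (fun β => β ∈ Ch ab h m univ D a b ∧ i ∈ B β) ≤
          2 * h * (T + T) * Fintype.card G ^ (h - 2) := by
        refine le_trans ?_ (e1.trans (Nat.mul_le_mul_right _
          (Nat.mul_le_mul_left _ (Nat.add_le_add (hb.use i) (hb'.use i)))))
        rw [cnt_def]
        refine card_le_card fun β hβ => ?_
        rw [mem_filter] at hβ ⊢
        refine ⟨mem_univ _, (mem_Ch.1 hβ.2.1).1, ?_⟩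
        rcases mem_union.1 hβ.2.2 with e | e
        · obtain ⟨s, hs, hi⟩ := mem_biUnion.1 e
          exact Or.inl ⟨s, (mem_Ioo.1 hs).1, (mem_Ioo.1 hs).2, mem_filter.2 ⟨mem_univ _, hi⟩⟩
        · obtain ⟨l, -, hi⟩ := mem_biUnion.1 e
          exact Or.inr ⟨l, mem_filter.2 ⟨mem_univ _, hi⟩⟩
      have e3 : (cnt (fun β => β ∈ Ch ab h m univ D a b ∧ i ∈ B β) : ℝ) ≤ _ := Nat.cast_le.2 e2
      push_cast at e3
      linarith)
    (by
      rw [hcnt]
      exact_mod_cast card_Ch_le hD hm hh univ D a b)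
  refine (Pr_mono hp fun A hA => ?_).trans (key.trans (le_of_eq ?_))
  · have e1 : blk (fun β => β ∈ Ch ab h m univ D a b) B A =
        ((Ch ab h m (sel vb univ A) (sel cb D A) a b).card : ℝ) := by
      rw [blk_eq _ _ _ (r := fun β => β ∈ Ch ab h m (sel vb univ A) (sel cb D A) a b)
        fun β => ?_, cnt_def]
      · simp
      · simp only [mem_Ch, hB, sel, union_subset_iff, biUnion_subset, mem_filter, mem_univ,
          true_and, mem_Ioo, implies_true, and_true, forall_const]
        constructor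
        · rintro ⟨⟨e1, e2⟩, e3, e4⟩
          exact ⟨e1, fun l => ⟨e2 l, e4 l⟩, fun s s1 s2 => e3 s ⟨s1, s2⟩⟩
        · rintro ⟨e1, e2, e3⟩
          exact ⟨⟨e1, fun l => (e2 l).1⟩, fun s hs => e3 s hs.1 hs.2, fun l => (e2 l).2⟩
    have e2 : q ^ (7 * h) * (cnt (fun β => β ∈ Ch ab h m univ D a b) : ℕ) ≤
        Ex p (blk (fun β => β ∈ Ch ab h m univ D a b) B) := by
      refine le_Ex_blk _ _ fun β _ => ?_
      refine (pow_le_pow_of_le_one hq0 hq1 (hcard β)).trans ?_
      rw [← prod_const]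
      refine prod_le_prod (fun _ _ => hq0) fun i hi => ?_
      rcases mem_union.1 hi with e | e
      · obtain ⟨s, -, hi⟩ := mem_biUnion.1 e
        exact hq _ i hi
      · obtain ⟨l, -, hi⟩ := mem_biUnion.1 e
        exact hq' _ i hi
    rw [hcnt] at e2
    have e3 := mul_le_mul_of_nonneg_left hc (pow_nonneg hq0 (7 * h))
    rw [e1]
    refine le_trans ?_ (neg_le_abs _)
    nlinarith
  · congr 2
    obtain ⟨k, rfl⟩ : ∃ k, h = k + 2 := ⟨h - 2, by omega⟩
    rw [show k + 2 - 1 = k + 1 by omega, show k + 2 - 2 = k by omega]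
    field_simp
    ring

end Pool.Agent.Lib.MP_7ae50b_co.ML
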