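import Pool.Agent.Lib.MP_7ae50b_co.MLCnt

set_option autoImplicit false
set_option linter.unusedSectionVars false

/-! Moving weight along double chains. -/

namespace Pool.Agent.Lib.MP_7ae50b_co.ML

open Finset
open scoped Classical

variable {G : Type} [AddCommGroup G] [Fintype G] {ab : G → G} {E : Type} [Fintype E]

/-- The base point of the edge from `P` to `P + β`. -/
noncomputable def bp (ab : G → G) (P β : G) : G := if ab β = β then P else P + β

/-- One double step from `P`: `+1` on the first edge, `-1` on the second one. -/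
noncomputable def mv (ab : G → G) (rep : G → E) (P β : G) (x : G) (e : E) : ℝ :=
  if e = rep (ab β) then
    (if x = bp ab P β then 1 else 0) - (if x = bp ab (P + β) β then 1 else 0) else 0

theorem sum_mv (rep : G → E) (P β : G) (e : E) : ∑ x, mv ab rep P β x e = 0 := by
  unfold mv
  by_cases he : e = rep (ab β)
  · simp [he, Finset.sum_sub_distrib]
  · simp [he]

theorem mltrans_bp (H : Ab ab) (P β : G) :
    (bp ab P β = P ∧ bp ab P β + ab β = P + β) ∨ (bp ab P β = P + β ∧ bp ab P β + ab β = P) := by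
  unfold bp
  by_cases h : ab β = β
  · left
    simp [h]
  · right
    have := (H.mem β).resolve_left h
    rw [if_neg h, this]
    simp

theorem mltrans_ind (H : Ab ab) (P β y : G) :
    (if y = bp ab P β then (1 : ℝ) else 0) + (if y - ab β = bp ab P β then 1 else 0) =
      (if y = P then 1 else 0) + (if y = P + β then 1 else 0) := by
  simp only [sub_eq_iff_eq_add]
  rcases mltrans_bp H P β with ⟨h1, h2⟩ | ⟨h1, h2⟩
  · rw [h2, h1]
  · rw [h2, h1, add_comm]

/-- `{bp P β, bp P β + ab β} = {P, P + β}` by `Ab.mem`. -/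
theorem deg_mv (H : Ab ab) {col : E → G} {rep : G → E} (P β : G) (hc : col (rep (ab β)) = ab β)
    (y : G) : deg col (mv ab rep P β) y =
      (if y = P then 1 else 0) - (if y = P + β + β then 1 else 0) := by
  unfold deg
  rw [Finset.sum_eq_single (rep (ab β))]
  · simp only [mv, if_true, hc]
    have h1 := mltrans_ind H P β y
    have h2 := mltrans_ind H (P + β) β y
    linarith
  · intro e _ he
    simp [mv, he]
  · simp

theorem mltrans_deg_sum {ι : Type} (col : E → G) (s : Finset ι) (f : ι → G → E → ℝ) (y : G) :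
    deg col (fun x e => ∑ i ∈ s, f i x e) y = ∑ i ∈ s, deg col (f i) y := by
  unfold deg
  rw [Finset.sum_comm]
  simp only [Finset.sum_add_distrib]

theorem mltrans_deg_mul (col : E → G) (c : ℝ) (f : G → E → ℝ) (y : G) :
    deg col (fun x e => c * f x e) y = c * deg col f y := by
  unfold deg
  simp only [Finset.mul_sum, mul_add]

theorem mltrans_deg_add (col : E → G) (f g : G → E → ℝ) (y : G) :
    deg col (fun x e => f x e + g x e) y = deg col f y + deg col g y := by
  unfold deg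
  rw [← Finset.sum_add_distrib]
  exact Finset.sum_congr rfl fun e _ => by ring

theorem mltrans_pt1 {h : ℕ} (a : G) (β : Fin h → G) (l : Fin h) :
    pt 2 a β (2 * l) + β l = pt 2 a β (2 * l + 1) :=
  (pt_succ 2 a β l (t := 0) (by norm_num)).symm

theorem mltrans_pt2 {h : ℕ} (a : G) (β : Fin h → G) (l : Fin h) :
    pt 2 a β (2 * l) + β l + β l = pt 2 a β (2 * (l + 1)) := by
  rw [mltrans_pt1]
  exact (pt_succ 2 a β l (t := 1) (by norm_num)).symm

theorem mltrans_chain (H : Ab ab) {h : ℕ} {col : E → G} {V D : Finset G} {rep : G → E}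
    (hrep : ∀ c ∈ D, col (rep c) = c) {a b : G} {β : Fin h → G} (hβ : β ∈ Ch ab h 2 V D a b)
    (y : G) : deg col (fun x e => ∑ l : Fin h, mv ab rep (pt 2 a β (2 * l)) (β l) x e) y =
      (if y = a then 1 else 0) - (if y = b then 1 else 0) := by
  obtain ⟨h1, h2, -⟩ := mem_Ch.1 hβ
  rw [mltrans_deg_sum]
  have : ∀ l : Fin h, deg col (mv ab rep (pt 2 a β (2 * l)) (β l)) y =
      (fun n : ℕ => (if y = pt 2 a β (2 * n) then (1 : ℝ) else 0) -
        (if y = pt 2 a β (2 * (n + 1)) then 1 else 0)) l := fun l => by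
    rw [deg_mv H _ _ (hrep _ (h2 l)), mltrans_pt2]
  rw [Finset.sum_congr rfl fun l _ => this l, Fin.sum_univ_eq_sum_range
    (fun n : ℕ => (if y = pt 2 a β (2 * n) then (1 : ℝ) else 0) -
        (if y = pt 2 a β (2 * (n + 1)) then 1 else 0)) h,
    Finset.sum_range_sub' (fun n : ℕ => if y = pt 2 a β (2 * n) then (1 : ℝ) else 0) h, h1]
  simp [pt_zero]

theorem mltrans_mem {h : ℕ} {V D : Finset G} {a b : G} (ha : a ∈ V) (hb : b ∈ V) {β : Fin h → G}
    (hβ : β ∈ Ch ab h 2 V D a b) {s : ℕ} (hs : s ≤ 2 * h) : pt 2 a β s ∈ V := by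
  obtain ⟨h1, -, h3⟩ := mem_Ch.1 hβ
  rcases Nat.eq_zero_or_pos s with rfl | h0
  · rwa [pt_zero]
  · rcases hs.lt_or_eq with h4 | rfl
    · exact h3 s h0 h4
    · rwa [h1]

theorem mltrans_supp (H : Ab ab) {h : ℕ} {V D : Finset G} {rep : G → E} {a b : G} (ha : a ∈ V)
    (hb : b ∈ V) {β : Fin h → G} (hβ : β ∈ Ch ab h 2 V D a b) (l : Fin h) {x : G} {e : E}
    (hne : mv ab rep (pt 2 a β (2 * l)) (β l) x e ≠ 0) :
    ∃ c ∈ D, e = rep c ∧ x ∈ V ∧ x + c ∈ V := by
  have hl := l.2
  have m0 : pt 2 a β (2 * l) ∈ V := mltrans_mem ha hb hβ (by omega)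
  have m1 : pt 2 a β (2 * l) + β l ∈ V := by
    rw [mltrans_pt1]; exact mltrans_mem ha hb hβ (by omega)
  have m2 : pt 2 a β (2 * l) + β l + β l ∈ V := by
    rw [mltrans_pt2]; exact mltrans_mem ha hb hβ (by omega)
  unfold mv at hne
  by_cases he : e = rep (ab (β l))
  · refine ⟨_, (mem_Ch.1 hβ).2.1 l, he, ?_⟩
    rw [if_pos he] at hne
    by_cases h1 : x = bp ab (pt 2 a β (2 * l)) (β l)
    · rcases mltrans_bp H (pt 2 a β (2 * l)) (β l) with ⟨k1, k2⟩ | ⟨k1, k2⟩
      · rw [h1, k2, k1]; exact ⟨m0, m1⟩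
      · rw [h1, k2, k1]; exact ⟨m1, m0⟩
    · by_cases h2 : x = bp ab (pt 2 a β (2 * l) + β l) (β l)
      · rcases mltrans_bp H (pt 2 a β (2 * l) + β l) (β l) with ⟨k1, k2⟩ | ⟨k1, k2⟩
        · rw [h2, k2, k1]; exact ⟨m1, m2⟩
        · rw [h2, k2, k1]; exact ⟨m2, m1⟩
      · simp [h1, h2] at hne
  · simp [he] at hne

theorem mltrans_shift {h : ℕ} (a : G) (β : Fin h → G) (s : ℕ) (γ δ : G) :
    bp ab (pt 2 a β s + δ) γ = a + bp ab (pt 2 0 β s + δ) γ := by
  unfold bp pt
  split_ifs <;> abel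

theorem mltrans_one {h : ℕ} (β : Fin h → G) (s : ℕ) (γ δ x : G) :
    ∑ a : G, (if x = bp ab (pt 2 a β s + δ) γ then (1 : ℝ) else 0) = 1 := by
  have : ∀ a : G, (x = bp ab (pt 2 a β s + δ) γ) ↔ a = x - bp ab (pt 2 0 β s + δ) γ := fun a => by
    rw [mltrans_shift, eq_sub_iff_add_eq, eq_comm]
  simp [this]

theorem mltrans_cnt {h : ℕ} (l : Fin h) (c : G) :
    ∑ β : Fin h → G, (if β l = c then (1 : ℝ) else 0) = (Fintype.card G : ℝ) ^ (h - 1) := by
  have := Fintype.card_filter_piFinset_const_eq_of_mem (univ : Finset G) l (mem_univ c)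
  rw [Fintype.piFinset_univ] at this
  rw [Finset.sum_boole]
  convert congrArg (Nat.cast : ℕ → ℝ) this
  simp

theorem mltrans_total (H : Ab ab) {h : ℕ} {col : E → G} (V : Finset G) {D : Finset G}
    {rep : G → E} (hrep : ∀ c ∈ D, col (rep c) = c) (x : G) (e : E) :
    ∑ a ∈ V, ∑ b ∈ V, ∑ β ∈ Ch ab h 2 V D a b, ∑ l : Fin h,
      |mv ab rep (pt 2 a β (2 * l)) (β l) x e| ≤ 4 * h * (Fintype.card G : ℝ) ^ (h - 1) := by
  let F : G → G → (Fin h → G) → Fin h → ℝ := fun a b β l =>
    (if pt 2 a β (2 * h) = b then 1 else 0) *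
      (((if β l = col e then 1 else 0) + (if β l = -col e then 1 else 0)) *
      ((if x = bp ab (pt 2 a β (2 * l) + 0) (β l) then 1 else 0) +
        (if x = bp ab (pt 2 a β (2 * l) + β l) (β l) then 1 else 0)))
  have F0 : ∀ a b β l, 0 ≤ F a b β l := fun a b β l => by
    simp only [F]; positivity
  have F1 : ∀ a b, ∀ β ∈ Ch ab h 2 V D a b, ∀ l : Fin h,
      |mv ab rep (pt 2 a β (2 * l)) (β l) x e| ≤ F a b β l := by
    intro a b β hβ l
    obtain ⟨h1, h2, -⟩ := mem_Ch.1 hβ
    unfold mv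
    by_cases he : e = rep (ab (β l))
    · have hc : col e = ab (β l) := by rw [he, hrep _ (h2 l)]
      have k : (1 : ℝ) ≤ (if β l = col e then 1 else 0) + (if β l = -col e then 1 else 0) := by
        rcases H.mem (β l) with k | k
        · rw [if_pos (by rw [hc, k])]
          split_ifs <;> norm_num
        · rw [if_pos (c := β l = -col e) (by rw [hc, k, neg_neg])]
          split_ifs <;> norm_num
      simp only [F, if_pos he, if_pos h1, one_mul, add_zero]
      refine le_trans ?_ (le_mul_of_one_le_left (by positivity) k)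
      split_ifs <;> norm_num
    · rw [if_neg he, abs_zero]
      exact F0 _ _ _ _
  calc _ ≤ ∑ a : G, ∑ b : G, ∑ β : Fin h → G, ∑ l : Fin h, F a b β l := by
        refine (Finset.sum_le_sum fun a _ => ?_).trans (Finset.sum_le_sum_of_subset_of_nonneg
          (subset_univ V) fun a _ _ => by positivity)
        refine (Finset.sum_le_sum fun b _ => ?_).trans (Finset.sum_le_sum_of_subset_of_nonneg
          (subset_univ V) fun b _ _ => by positivity)
        exact (Finset.sum_le_sum fun β hβ => Finset.sum_le_sum fun l _ => F1 a b β hβ l).trans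
          (Finset.sum_le_sum_of_subset_of_nonneg (subset_univ _) fun β _ _ => by positivity)
    _ = ∑ l : Fin h, ∑ β : Fin h → G, ∑ a : G, ∑ b : G, F a b β l := by
        rw [Finset.sum_congr rfl fun a _ => Finset.sum_comm, Finset.sum_comm,
          Finset.sum_congr rfl fun β _ => Finset.sum_congr rfl fun a _ => Finset.sum_comm,
          Finset.sum_congr rfl fun β _ => Finset.sum_comm, Finset.sum_comm]
    _ = ∑ _l : Fin h, 4 * (Fintype.card G : ℝ) ^ (h - 1) := by
        refine Finset.sum_congr rfl fun l _ => ?_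
        have : ∀ β : Fin h → G, ∑ a : G, ∑ b : G, F a b β l =
            2 * ((if β l = col e then 1 else 0) + (if β l = -col e then 1 else 0)) := fun β => by
          simp only [F, ← Finset.sum_mul, Finset.sum_ite_eq, mem_univ, if_true, one_mul]
          rw [← Finset.mul_sum, Finset.sum_add_distrib, mltrans_one, mltrans_one]
          ring
        rw [Finset.sum_congr rfl fun β _ => this β, ← Finset.mul_sum, Finset.sum_add_distrib,
          mltrans_cnt, mltrans_cnt]
        ring
    _ = _ := by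
        simp only [Finset.sum_const, card_univ, Fintype.card_fin, nsmul_eq_mul]
        ring

/-- Put `u' x e = u x e + ∑ a ∈ V, ∑ b ∈ V, ∑ β ∈ Ch ab h 2 V D a b, (π b / card (Ch ..)) *
∑ l, mv ab rep (pt 2 a β (2 l)) (β l) x e`.  Degrees: `deg` is linear, `deg_mv`, `pt_succ`,
telescoping gives `[y = a] - [y = b]`.  Size: if some `mv .. x e ≠ 0` then `e = rep c`, `c ∈ D` and
`x, x + c ∈ V`, so `lam ≤ u x e`.  For fixed `l` and `β` with `e = rep (ab (β l))` (at most
`2 v ^ (h - 1)` such `β`, as `β l = ± col e`) each of the two equations for `x` determines `a`, and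
then `b`; so the change is at most `(θ / N₀) * h * 2 v ^ (h - 1) * 2 ≤ lam`. -/
theorem trans (H : Ab ab) {h : ℕ} (hh : 1 ≤ h) (col : E → G) (V D : Finset G) (rep : G → E)
    (hrep : ∀ c ∈ D, col (rep c) = c) (u : G → E → ℝ) {lam θ N₀ : ℝ} (hu : ∀ x e, 0 ≤ u x e)
    (hlam : ∀ c ∈ D, ∀ x ∈ V, x + c ∈ V → lam ≤ u x (rep c)) (π : G → ℝ) (hπ : ∀ x, |π x| ≤ θ)
    (hN : 0 < N₀) (hch : ∀ a ∈ V, ∀ b ∈ V, N₀ ≤ (Ch ab h 2 V D a b).card)
    (hnum : 4 * h * θ * (Fintype.card G : ℝ) ^ (h - 1) ≤ lam * N₀) :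
    ∃ u' : G → E → ℝ, (∀ x e, 0 ≤ u' x e ∧ u' x e ≤ 2 * u x e) ∧
      (∀ e, ∑ x, u' x e = ∑ x, u x e) ∧
      ∀ x, deg col u' x = deg col u x +
        if x ∈ V then ∑ y ∈ V, π y - V.card * π x else 0 := by
  have hθ : 0 ≤ θ := (abs_nonneg _).trans (hπ 0)
  let d : G → E → ℝ := fun x e => ∑ a ∈ V, ∑ b ∈ V, ∑ β ∈ Ch ab h 2 V D a b,
    π b / (Ch ab h 2 V D a b).card * ∑ l : Fin h, mv ab rep (pt 2 a β (2 * l)) (β l) x e
  have hd : ∀ x e, |d x e| ≤ u x e := by
    intro x e
    by_cases hz : ∀ a ∈ V, ∀ b ∈ V, ∀ β ∈ Ch ab h 2 V D a b, ∀ l : Fin h,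
        mv ab rep (pt 2 a β (2 * l)) (β l) x e = 0
    · have : d x e = 0 := Finset.sum_eq_zero fun a ha => Finset.sum_eq_zero fun b hb =>
        Finset.sum_eq_zero fun β hβ => by
          rw [Finset.sum_eq_zero fun l _ => hz a ha b hb β hβ l, mul_zero]
      rw [this, abs_zero]
      exact hu x e
    · push Not at hz
      obtain ⟨a, ha, b, hb, β, hβ, l, hne⟩ := hz
      obtain ⟨c, hc, rfl, h1, h2⟩ := mltrans_supp H ha hb hβ l hne
      refine le_trans ?_ (hlam c hc x h1 h2)
      have k1 : |d x (rep c)| ≤ θ / N₀ * ∑ a ∈ V, ∑ b ∈ V, ∑ β ∈ Ch ab h 2 V D a b, ∑ l : Fin h,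
          |mv ab rep (pt 2 a β (2 * l)) (β l) x (rep c)| := by
        rw [Finset.mul_sum]
        refine (Finset.abs_sum_le_sum_abs _ _).trans (Finset.sum_le_sum fun a ha => ?_)
        rw [Finset.mul_sum]
        refine (Finset.abs_sum_le_sum_abs _ _).trans (Finset.sum_le_sum fun b hb => ?_)
        rw [Finset.mul_sum]
        refine (Finset.abs_sum_le_sum_abs _ _).trans (Finset.sum_le_sum fun β _ => ?_)
        rw [abs_mul, abs_div, Nat.abs_cast]
        exact mul_le_mul (div_le_div₀ hθ (hπ b) hN (hch a ha b hb)) (Finset.abs_sum_le_sum_abs _ _)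
          (abs_nonneg _) (by positivity)
      refine k1.trans ((mul_le_mul_of_nonneg_left (mltrans_total H V hrep x _)
        (by positivity)).trans ?_)
      rw [div_mul_eq_mul_div, div_le_iff₀ hN]
      linarith
  refine ⟨fun x e => u x e + d x e, fun x e => ?_, fun e => ?_, fun y => ?_⟩
  · have := abs_le.1 (hd x e)
    constructor <;> linarith [this.1, this.2]
  · rw [Finset.sum_add_distrib, add_eq_left]
    simp only [d]
    rw [Finset.sum_comm]
    refine Finset.sum_eq_zero fun a _ => ?_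
    rw [Finset.sum_comm]
    refine Finset.sum_eq_zero fun b _ => ?_
    rw [Finset.sum_comm]
    refine Finset.sum_eq_zero fun β _ => ?_
    rw [← Finset.mul_sum, Finset.sum_comm, Finset.sum_eq_zero fun l _ => sum_mv _ _ _ _, mul_zero]
  · rw [mltrans_deg_add]
    congr 1
    have : deg col d y = ∑ a ∈ V, ∑ b ∈ V,
        π b * ((if y = a then 1 else 0) - (if y = b then 1 else 0)) := by
      simp only [d]
      rw [mltrans_deg_sum]
      refine Finset.sum_congr rfl fun a ha => ?_
      rw [mltrans_deg_sum]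
      refine Finset.sum_congr rfl fun b hb => ?_
      rw [mltrans_deg_sum, Finset.sum_congr rfl fun β hβ => by
        rw [mltrans_deg_mul, mltrans_chain H hrep hβ], Finset.sum_const, nsmul_eq_mul]
      have : ((Ch ab h 2 V D a b).card : ℝ) ≠ 0 := (hN.trans_le (hch a ha b hb)).ne'
      field_simp
    rw [this]
    simp only [mul_sub, Finset.sum_sub_distrib, mul_ite, mul_one, mul_zero]
    rw [Finset.sum_comm]
    by_cases hy : y ∈ V <;> simp [hy]

end Pool.Agent.Lib.MP_7ae50b_co.ML
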