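import Pool.Agent.Lib.MP_7ae50b_co.Scale

set_option autoImplicit false

namespace Pool.Agent.BHR

theorem count_le_map (f : ℕ → ℕ) (L : Multiset ℕ) (a : ℕ) : L.count a ≤ (L.map f).count (f a) := by
  induction L using Multiset.induction_on with
  | empty => simp
  | cons b L ih =>
    simp only [Multiset.map_cons, Multiset.count_cons]
    by_cases h : a = b
    · simp only [h, if_true] at ih ⊢; omega
    · rw [if_neg h]; omega

theorem main_set (m k : ℕ) : ∃ T, ∀ (v : ℕ) (A : Finset ℕ) (L : Multiset ℕ) (u : ℤ),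
    IsCoprime u v → A.gcd id = 1 → (∀ x ∈ A, 1 ≤ x ∧ x ≤ m) → L.card = v - 1 →
    (∀ x ∈ L, 1 ≤ x ∧ 2 * x ≤ v) → (∀ x ∈ A, T ≤ L.count (nrm v (u * x))) →
    (L.filter (fun l => ∀ x ∈ A, l ≠ nrm v (u * x))).card ≤ k → Real v L := by
  classical
  choose T hT using fun w => core w k
  refine ⟨(Finset.range (m + 1)).sup T + 2 * m + 1, ?_⟩
  intro v A L u hu hg hA h1 h2 h3 h4
  have hne : A.Nonempty := by
    rw [Finset.nonempty_iff_ne_empty]
    rintro rfl
    simp at hg
  obtain ⟨w, hw, hw2⟩ := A.exists_max_image id hne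
  have hv1 := le_trans (h3 w hw) (Multiset.count_le_card _ _)
  have hv : 1 ≤ v := by omega
  obtain ⟨a, b, hab⟩ := id hu
  have inv1 : ∀ x : ℕ, 2 * x ≤ v → nrm v (u * nrm v (a * x)) = x := by
    intro x hx
    rw [nrm_mul hv, nrm_congr (b := x) ⟨-(b * x), by linear_combination (x : ℤ) * hab⟩,
      nrm_self hv hx]
  have inv2 : ∀ x : ℕ, 2 * x ≤ v → nrm v (a * nrm v (u * x)) = x := by
    intro x hx
    rw [nrm_mul hv, nrm_congr (b := x) ⟨-(b * x), by linear_combination (x : ℤ) * hab⟩,
      nrm_self hv hx]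
  obtain ⟨E, s, e, g1, g2, g3⟩ := hT w v A (L.map (fun x : ℕ => nrm v (a * x))) (gen_of_gcd hg)
    (fun x hx => ⟨(hA x hx).1, hw2 x hx⟩) hw (by simpa using h1) (by
      intro x hx
      obtain ⟨y, hy, rfl⟩ := Multiset.mem_map.1 hx
      refine ⟨?_, nrm_le _ _⟩
      by_contra h
      have a1 := inv1 y (h2 y hy).2
      have a2 : nrm v (a * y) = 0 := by omega
      rw [a2] at a1
      simp [nrm] at a1
      have := h2 y hy
      omega) (by
      intro x hx
      have a1 := h3 x hx
      have a2 := count_le_map (fun x : ℕ => nrm v (a * x)) L (nrm v (u * x))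
      beta_reduce at a2
      rw [inv2 x (by have := hA x hx; omega)] at a2
      have a3 : T w ≤ (Finset.range (m + 1)).sup T :=
        Finset.le_sup (Finset.mem_range.2 (by have := hA w hw; omega))
      omega) (by
      rw [Multiset.filter_map, Multiset.card_map]
      refine le_trans (Multiset.card_le_card (Multiset.monotone_filter_right L ?_)) h4
      intro l hl x hx hh
      apply hl
      beta_reduce
      rw [hh, inv2 x (by have := hA x hx; omega)]
      exact hx)
  have := real_of g1 g2 hu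
  rw [g3, Multiset.map_map] at this
  have e1 : L.map ((fun x : ℕ => nrm v (u * x)) ∘ fun x : ℕ => nrm v (a * x)) = L.map id :=
    Multiset.map_congr rfl (fun x hx => inv1 x (h2 x hx).2)
  rwa [e1, Multiset.map_id] at this

theorem card_filter_le_sum (L : Multiset ℕ) (S : Finset ℕ) (f : ℕ → ℕ)
    {_ : DecidablePred (fun l => ∃ x ∈ S, l = f x)} :
    (L.filter (fun l => ∃ x ∈ S, l = f x)).card ≤ ∑ x ∈ S, L.count (f x) := by
  induction L using Multiset.induction_on with
  | empty => simp
  | cons a L ih =>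
    simp only [Multiset.count_cons, Finset.sum_add_distrib]
    by_cases h : ∃ x ∈ S, a = f x
    · rw [Multiset.filter_cons_of_pos (p := fun l => ∃ x ∈ S, l = f x) _ h, Multiset.card_cons]
      obtain ⟨x, hx, h1⟩ := h
      have := Finset.single_le_sum (f := fun x => if f x = a then 1 else 0)
        (fun _ _ => Nat.zero_le _) hx
      simp only [h1, if_true] at this ⊢
      omega
    · rw [Multiset.filter_cons_of_neg (p := fun l => ∃ x ∈ S, l = f x) _ h]
      omega

theorem main (m k : ℕ) : ∃ N, ∀ (v : ℕ) (L : Multiset ℕ) (u : ℕ), 2 ≤ v → Nat.Coprime u v →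
    L.card = v - 1 → (∀ x ∈ L, 1 ≤ x ∧ x ≤ v / 2) →
    (L.filter (fun x => ¬ ∃ y ≤ m, u * y ≡ x [MOD v] ∨ u * y + x ≡ 0 [MOD v])).card ≤ k →
    (∀ p, p.Prime → p ∣ v → N ≤ (L.filter (fun x => ¬ p ∣ x)).card) → Real v L := by
  classical
  choose T hT using main_set m
  let F : ℕ → ℕ := fun t => t + T (m * t + k)
  refine ⟨(Finset.range (m + 1)).sup (fun j => m * F^[j] 0 + k + 1), ?_⟩
  intro v L u hv hu h1 h2 h3 h4
  obtain ⟨j, hj, hX⟩ := scale F (fun t => Nat.le_add_right _ _)
    ((Finset.Icc 1 m).image (fun x : ℕ => L.count (nrm v (u * x)))) (n := m)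
    (le_trans Finset.card_image_le (by simp))
  have hN : m * F^[j] 0 + k + 1 ≤ (Finset.range (m + 1)).sup (fun j => m * F^[j] 0 + k + 1) :=
    Finset.le_sup (f := fun j => m * F^[j] 0 + k + 1) (Finset.mem_range.2 (by omega))
  generalize (Finset.range (m + 1)).sup (fun j => m * F^[j] 0 + k + 1) = N at hN h4
  generalize F^[j] 0 = t at hX hN
  set A := (Finset.Icc 1 m).filter (fun x : ℕ => F t < L.count (nrm v (u * x))) with hA
  have a1 : ∀ x ∈ A, (1 ≤ x ∧ x ≤ m) ∧ F t < L.count (nrm v (u * x)) := fun x hx => by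
    simpa only [hA, Finset.mem_filter, Finset.mem_Icc] using hx
  have a2 : (L.filter (fun l => ∀ x ∈ A, l ≠ nrm v (u * x))).card ≤ m * t + k := by
    have b2 : ∑ x ∈ Finset.Icc 1 m \ A, L.count (nrm v (u * x)) ≤ m * t := by
      have := Finset.sum_le_card_nsmul (Finset.Icc 1 m \ A)
        (fun x : ℕ => L.count (nrm v (u * x))) t (fun x hx => by
          obtain ⟨c1, c2⟩ := Finset.mem_sdiff.1 hx
          rcases hX _ (Finset.mem_image_of_mem _ c1) with h | h
          · exact h
          · exact absurd (Finset.mem_filter.2 ⟨c1, h⟩) c2)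
      rw [smul_eq_mul] at this
      refine le_trans this (Nat.mul_le_mul_right _ ?_)
      exact le_trans (Finset.card_le_card Finset.sdiff_subset) (by simp)
    have b3 : L.filter (fun l => ∀ x ∈ A, l ≠ nrm v (u * x)) ≤
        L.filter (fun l => ∃ x ∈ Finset.Icc 1 m \ A, l = nrm v (u * x)) +
        L.filter (fun x => ¬ ∃ y ≤ m, u * y ≡ x [MOD v] ∨ u * y + x ≡ 0 [MOD v]) := by
      rw [Multiset.le_iff_count]
      intro l
      simp only [Multiset.count_add, Multiset.count_filter]
      by_cases hl : l ∈ L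
      swap
      · simp [Multiset.count_eq_zero.2 hl]
      have c0 := h2 l hl
      split_ifs with c1 c2 c3 c3
      any_goals omega
      exfalso
      obtain ⟨y, y1, y2⟩ := c3
      have c4 : l = nrm v (u * y) := by
        rcases y2 with y2 | y2
        · have : (v : ℤ) ∣ (l : ℤ) - u * y := by exact_mod_cast y2.dvd
          rw [← nrm_congr this, nrm_self (by omega) (by omega)]
        · have : (v : ℤ) ∣ (u * y : ℤ) - -(l : ℤ) := by
            have := (Nat.modEq_zero_iff_dvd.1 y2)
            rw [sub_neg_eq_add]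
            exact_mod_cast this
          rw [nrm_congr this, nrm_neg (by omega), nrm_self (by omega) (by omega)]
      have c5 : 1 ≤ y := by
        rcases y with _ | y
        · simp [nrm] at c4; omega
        · omega
      exact c2 ⟨y, Finset.mem_sdiff.2 ⟨Finset.mem_Icc.2 ⟨c5, y1⟩, fun hy => c1 y hy c4⟩, c4⟩
    have b4 := Multiset.card_le_card b3
    rw [Multiset.card_add] at b4
    exact le_trans b4 (Nat.add_le_add (le_trans (card_filter_le_sum L _ (fun x : ℕ => nrm v (u * x))) b2) h3)
  have a3 : Nat.Coprime (A.gcd id) v := by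
    apply Nat.coprime_of_dvd
    intro p hp p1 p2
    have b1 := h4 p hp p2
    have b2 : L.filter (fun x => ¬ p ∣ x) ≤ L.filter (fun l => ∀ x ∈ A, l ≠ nrm v (u * x)) := by
      apply Multiset.monotone_filter_right
      intro l hl x hx hh
      apply hl
      have c1 : (p : ℤ) ∣ u * x := by
        have : p ∣ x := dvd_trans p1 (Finset.gcd_dvd hx)
        exact Dvd.dvd.mul_left (by exact_mod_cast this) _
      have c2 : (p : ℤ) ∣ v := by exact_mod_cast p2
      have c3 : (p : ℤ) ∣ l := by
        rw [hh]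
        rcases nrm_cases (v := v) (by omega) (u * x) with h | h
        · exact (dvd_sub_right c1).1 (dvd_trans c2 h)
        · exact (dvd_add_right c1).1 (dvd_trans c2 h)
      exact_mod_cast c3
    have := Multiset.card_le_card b2
    omega
  have a4 : A.gcd id ≠ 0 := by
    intro h
    rw [h] at a3
    simp at a3
    omega
  obtain ⟨x0, hx0, hx1⟩ : ∃ x ∈ A, x ≠ 0 := by
    by_contra hcon
    push Not at hcon
    exact a4 (Finset.gcd_eq_zero_iff.2 hcon)
  have a5 : ∀ x ∈ A, ((u : ℤ) * (A.gcd id : ℕ)) * ((x / A.gcd id : ℕ) : ℤ) = u * x := by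
    intro x hx
    have : A.gcd id * (x / A.gcd id) = x := Nat.mul_div_cancel' (Finset.gcd_dvd hx)
    rw [mul_assoc]
    congr 1
    exact_mod_cast this
  refine hT (m * t + k) v (A.image (fun x => x / A.gcd id)) L (u * (A.gcd id : ℕ)) ?_ ?_ ?_ h1
    (fun x hx => by have := h2 x hx; omega) ?_ ?_
  · exact (Nat.isCoprime_iff_coprime.2 hu).mul_left (Nat.isCoprime_iff_coprime.2 a3)
  · rw [Finset.gcd_image]
    exact Finset.gcd_div_id_eq_one hx0 hx1
  · intro y hy
    obtain ⟨x, hx, rfl⟩ := Finset.mem_image.1 hy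
    have := (a1 x hx).1
    exact ⟨Nat.div_pos (Nat.le_of_dvd this.1 (Finset.gcd_dvd hx)) (Nat.pos_of_ne_zero a4),
      le_trans (Nat.div_le_self _ _) this.2⟩
  · intro y hy
    obtain ⟨x, hx, rfl⟩ := Finset.mem_image.1 hy
    rw [a5 x hx]
    have := (a1 x hx).2
    simp only [F] at this
    omega
  · refine le_trans (Multiset.card_le_card (Multiset.monotone_filter_right L ?_)) a2
    intro l hl x hx hh
    exact hl _ (Finset.mem_image_of_mem _ hx) (by rw [a5 x hx]; exact hh)

end Pool.Agent.BHR
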