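import Pool.Agent.Lib.MP_7ae50b_co.Glue

set_option autoImplicit false

namespace Pool.Agent.BHR

def cls (d : ℕ) (t : ℤ) (D : Multiset ℤ) : ℕ := D.countP (fun a => (d : ℤ) ∣ t - a)

def pts (M : Multiset (ℤ × ℤ)) : Multiset ℤ := M.map Prod.fst + M.map Prod.snd

def Edges (A : Finset ℕ) (M : Multiset (ℤ × ℤ)) : Prop := ∀ c ∈ M, ∃ y ∈ A, c.2 = c.1 + y

theorem cls_add (d : ℕ) (t : ℤ) (D D' : Multiset ℤ) : cls d t (D + D') = cls d t D + cls d t D' := by
  simp [cls]

theorem cls_cons (d : ℕ) (t a : ℤ) (D : Multiset ℤ) :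
    cls d t (a ::ₘ D) = cls d t D + if (d : ℤ) ∣ t - a then 1 else 0 := by
  simp [cls, Multiset.countP_cons]

theorem pts_add (M M' : Multiset (ℤ × ℤ)) : pts (M + M') = pts M + pts M' := by
  simp only [pts, Multiset.map_add]
  abel

theorem pts_cons (c : ℤ × ℤ) (M : Multiset (ℤ × ℤ)) : pts (c ::ₘ M) = c.1 ::ₘ c.2 ::ₘ pts M := by
  simp only [pts, Multiset.map_cons, Multiset.cons_add, Multiset.add_cons]
  rw [Multiset.cons_swap]

theorem deg_pts (M : Multiset (ℤ × ℤ)) (t : ℤ) : deg M t = (pts M).count t := by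
  simp [deg, pts]

theorem orbit {g q s : ℕ} (hg : 1 ≤ g) (hq : 1 ≤ q) (hs : Nat.Coprime s q) (u t : ℤ) :
    cls (g * q) t ((Multiset.range q).map (fun i : ℕ => u + i * (g * s))) =
      if (g : ℤ) ∣ t - u then 1 else 0 := by
  rw [cls, Multiset.countP_map]
  have hg0 : (g : ℤ) ≠ 0 := by omega
  split_ifs with h
  · obtain ⟨r, hr⟩ := h
    have key : ∀ i : ℕ, ((g * q : ℕ) : ℤ) ∣ t - (u + i * (g * s)) ↔ (q : ℤ) ∣ r - i * s := by
      intro i
      have : t - (u + i * (g * s)) = g * (r - i * s) := by linarith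
      rw [this]
      push_cast
      exact mul_dvd_mul_iff_left hg0
    simp only [key]
    have hc : IsCoprime (s : ℤ) (q : ℤ) := Nat.isCoprime_iff_coprime.2 hs
    obtain ⟨a, b, hab⟩ := hc
    have h1 := Int.emod_nonneg (r * a) (b := q) (by omega)
    have h2 := Int.emod_lt_of_pos (r * a) (b := q) (by omega)
    have h3 := Int.mul_ediv_add_emod (r * a) q
    rw [Multiset.card_eq_one]
    refine ⟨((r * a) % q).toNat, ?_⟩
    ext i
    rw [Multiset.count_filter, Multiset.count_singleton,
      Multiset.count_eq_of_nodup (Multiset.nodup_range q)]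
    simp only [Multiset.mem_range]
    by_cases hi : i = ((r * a) % q).toNat
    · have h4 : (i : ℤ) = (r * a) % q := by omega
      have h5 : (q : ℤ) ∣ r - i * s := by
        refine ⟨r * b + (r * a / q) * s, ?_⟩
        rw [h4]
        have h6 : r * a % q = r * a - q * (r * a / q) := by linarith
        rw [h6]
        linear_combination (-r) * hab
      rw [if_pos h5, if_pos (by omega), if_pos hi]
    · rw [if_neg hi]
      split_ifs with h5 h6
      · exfalso
        apply hi
        obtain ⟨k, hk⟩ := h5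
        have h7 : (q : ℤ) ∣ (i : ℤ) - (r * a) % q := by
          refine ⟨i * b - k * a + r * a / q, ?_⟩
          have h6 : r * a % q = r * a - q * (r * a / q) := by linarith
          rw [h6]
          linear_combination (-(i : ℤ)) * hab - a * hk
        have := Int.eq_zero_of_abs_lt_dvd h7 (by rw [abs_lt]; omega)
        omega
      · rfl
      · rfl
  · rw [Multiset.card_eq_zero, Multiset.filter_eq_nil]
    intro i _ h1
    apply h
    have h2 : (g : ℤ) ∣ t - (u + i * (g * s)) := dvd_trans ⟨q, by push_cast; ring⟩ h1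
    have h3 : t - u = t - (u + i * (g * s)) + g * (i * s) := by ring
    rw [h3]
    exact dvd_add h2 (dvd_mul_right _ _)

theorem pair_up (u : ℤ) (y q : ℕ) : ∃ (M : Multiset (ℤ × ℤ)) (U : Multiset ℤ),
    (∀ c ∈ M, c.2 = c.1 + y) ∧ pts M + U = (Multiset.range q).map (fun i : ℕ => u + i * y) ∧
      U.card = q % 2 ∧ 2 * M.card + U.card = q := by
  induction q using Nat.twoStepInduction with
  | zero => exact ⟨0, 0, by simp, by simp [pts], by simp, by simp⟩
  | one => exact ⟨0, {u}, by simp, by simp [pts], by simp, by simp⟩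
  | more q ih _ =>
    obtain ⟨M, U, h1, h2, h3, h4⟩ := ih
    refine ⟨(u + q * y, u + (q + 1 : ℕ) * y) ::ₘ M, U, ?_, ?_, by omega,
      by rw [Multiset.card_cons]; omega⟩
    · intro c hc
      rcases Multiset.mem_cons.1 hc with rfl | hc
      · push_cast; ring
      · exact h1 c hc
    · rw [pts_cons, Multiset.range_succ, Multiset.range_succ, Multiset.map_cons, Multiset.map_cons,
        ← h2, Multiset.cons_add, Multiset.cons_add, Multiset.cons_swap]

theorem lift_sys {A : Finset ℕ} {g q s : ℕ} (hg : 1 ≤ g) (hq : 1 ≤ q) (hs : Nat.Coprime s q)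
    (hA : g * s ∈ A) (M : Multiset (ℤ × ℤ)) (hM : Edges A M) (U : Multiset ℤ) :
    ∃ (M' : Multiset (ℤ × ℤ)) (U' : Multiset ℤ), Edges A M' ∧
      (∀ t, cls (g * q) t (pts M' + U') = cls g t (pts M + U)) ∧ U'.card = U.card * (q % 2) ∧
      2 * M'.card + U'.card = (2 * M.card + U.card) * q := by
  induction U using Multiset.induction_on with
  | empty =>
    induction M using Multiset.induction_on with
    | empty => exact ⟨0, 0, hM, by simp [cls, pts], by simp, by simp⟩
    | cons c M ih =>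
      obtain ⟨M', U', h1, h2, h3, h4⟩ := ih (fun d hd => hM d (Multiset.mem_cons_of_mem hd))
      obtain ⟨y, hy, hy2⟩ := hM c (Multiset.mem_cons_self _ _)
      refine ⟨(Multiset.range q).map (fun i : ℕ => (c.1 + i * (g * (1 : ℕ)),
        c.2 + i * (g * (1 : ℕ)))) + M', U', ?_, ?_, h3, ?_⟩
      · intro d hd
        rcases Multiset.mem_add.1 hd with hd | hd
        · obtain ⟨i, _, rfl⟩ := Multiset.mem_map.1 hd
          exact ⟨y, hy, by simp only; rw [hy2]; ring⟩
        · exact h1 d hd
      · intro t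
        rw [pts_add, add_assoc, cls_add, h2, pts_cons, pts, Multiset.map_map, Multiset.map_map,
          cls_add]
        have a1 := orbit hg hq (Nat.coprime_one_left q) c.1 t
        have a2 := orbit hg hq (Nat.coprime_one_left q) c.2 t
        simp only [Function.comp_def]
        rw [a1, a2]
        simp only [add_zero, cls_cons]
        omega
      · simp only [Multiset.card_add, Multiset.card_map, Multiset.card_range, Multiset.card_cons,
          Multiset.card_zero] at h4 ⊢
        linarith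
  | cons u U ih =>
    obtain ⟨M', U', h1, h2, h3, h4⟩ := ih
    obtain ⟨M1, U1, k1, k2, k3, k4⟩ := pair_up u (g * s) q
    refine ⟨M1 + M', U1 + U', ?_, ?_, ?_, ?_⟩
    · intro d hd
      rcases Multiset.mem_add.1 hd with hd | hd
      · exact ⟨g * s, hA, k1 d hd⟩
      · exact h1 d hd
    · intro t
      have a0 : pts (M1 + M') + (U1 + U') = (pts M1 + U1) + (pts M' + U') := by
        rw [pts_add]; abel
      have a1 := orbit hg hq hs u t
      push_cast at k2
      rw [a0, cls_add, h2, k2, a1, Multiset.add_cons, cls_cons]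
      omega
    · rw [Multiset.card_add, Multiset.card_cons, k3, h3]; ring
    · simp only [Multiset.card_add, Multiset.card_cons]
      linarith

theorem res_match {A : Finset ℕ} (hG : Gen A) (d : ℕ) (hd : 1 ≤ d) :
    ∃ (M : Multiset (ℤ × ℤ)) (U : Multiset ℤ), Edges A M ∧ (∀ t, cls d t (pts M + U) = 1) ∧
      U.card = d % 2 ∧ 2 * M.card + U.card = d := by
  induction d using Nat.strong_induction_on with
  | _ d ih =>
  by_cases h1 : d = 1
  · subst h1
    exact ⟨0, {0}, by simp [Edges], by simp [cls, pts], by simp, by simp⟩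
  obtain ⟨y, hy, hy2⟩ : ∃ y ∈ A, ¬ d ∣ y := by
    by_contra hcon
    push Not at hcon
    have := hG (AddSubgroup.zmultiples (d : ℤ)) (fun x hx => by
      rw [Int.mem_zmultiples_iff]; exact_mod_cast hcon x hx)
    rw [Int.mem_zmultiples_iff] at this
    have h2 : d ∣ 1 := by exact_mod_cast this
    exact h1 (Nat.dvd_one.1 h2)
  obtain ⟨g, s, q, hg, hc, rfl, rfl⟩ := Nat.exists_coprime' (m := y) (n := d)
    (Nat.gcd_pos_of_pos_right _ hd)
  have hq : 1 ≤ q := by
    rcases q with _ | q
    · simp at hd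
    · omega
  have hq2 : q ≠ 1 := by
    rintro rfl
    exact hy2 (by simp)
  rw [mul_comm] at hy
  rw [mul_comm q g] at ih ⊢
  rcases Nat.mod_two_eq_zero_or_one q with h2 | h2
  · obtain ⟨M', U', k1, k2, k3, k4⟩ := lift_sys hg hq hc hy 0 (by simp [Edges])
      ((Multiset.range g).map (fun i : ℕ => (0 : ℤ) + i * ((1 : ℕ) * (1 : ℕ))))
    refine ⟨M', U', k1, fun t => ?_, ?_, by simpa using k4⟩
    · have := orbit (g := 1) le_rfl hg (Nat.coprime_one_left g) 0 t
      rw [one_mul] at this
      rw [k2]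
      simpa [pts] using this
    · rw [k3, h2, Nat.mul_mod, h2]; simp
  · obtain ⟨M, U, j1, j2, j3, j4⟩ := ih g (by nlinarith [show 2 ≤ q by omega]) hg
    obtain ⟨M', U', k1, k2, k3, k4⟩ := lift_sys hg hq hc hy M j1 U
    refine ⟨M', U', k1, fun t => by rw [k2, j2], ?_, by rw [k4, j4]⟩
    rw [k3, h2, j3, Nat.mul_mod, h2]; simp

theorem cls_map {d : ℕ} (t : ℤ) {B : Type} (D : Multiset B) (f g : B → ℤ)
    (h : ∀ a, (d : ℤ) ∣ f a - g a) : cls d t (D.map f) = cls d t (D.map g) := by
  induction D using Multiset.induction_on with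
  | empty => simp
  | cons a D ih =>
    simp only [Multiset.map_cons, cls_cons, ih]
    have : (d : ℤ) ∣ t - f a ↔ (d : ℤ) ∣ t - g a := by
      have h1 : t - g a = t - f a + (f a - g a) := by ring
      rw [h1]
      exact (dvd_add_left (h a)).symm
    simp only [this]

theorem dvd_emod_sub (d a : ℤ) : d ∣ a % d - a :=
  ⟨-(a / d), by have := Int.mul_ediv_add_emod a d; linarith⟩

theorem sys {A : Finset ℕ} {w : ℕ} (hG : Gen A) (hA : ∀ x ∈ A, 1 ≤ x ∧ x ≤ w) {d j : ℕ}
    (hd : 1 ≤ d) (hdw : d ≤ w) (hj : j = d % 2 ∨ (j = 2 ∧ d % 2 = 0)) :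
    ∃ (M : Multiset (ℤ × ℤ)) (U : Multiset ℤ), Edges A M ∧ (∀ t, cls d t (pts M + U) = 1) ∧
      U.card = j ∧ M.card ≤ w ∧ (∀ a ∈ pts M + U, 0 ≤ a ∧ a < 3 * w) ∧
      (1 ≤ j → ∃ u ∈ U, ∀ a ∈ pts M + U, a ≤ u) := by
  obtain ⟨M, U, h1, h2, h3, h4⟩ : ∃ (M : Multiset (ℤ × ℤ)) (U : Multiset ℤ), Edges A M ∧
      (∀ t, cls d t (pts M + U) = 1) ∧ U.card = j ∧ M.card ≤ w := by
    obtain ⟨M, U, h1, h2, h3, h4⟩ := res_match hG d hd
    rcases hj with hj | hj
    · exact ⟨M, U, h1, h2, by omega, by omega⟩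
    · obtain ⟨c, hc⟩ := Multiset.card_pos_iff_exists_mem.1 (show 0 < M.card by omega)
      obtain ⟨M', rfl⟩ := Multiset.exists_cons_of_mem hc
      rw [Multiset.card_cons] at h4
      refine ⟨M', c.1 ::ₘ c.2 ::ₘ U, fun d hd => h1 d (Multiset.mem_cons_of_mem hd), fun t => ?_,
        by simp only [Multiset.card_cons]; omega, by omega⟩
      rw [← h2 t, pts_cons]
      simp only [Multiset.cons_add, Multiset.add_cons]
  set M1 := M.map (fun c : ℤ × ℤ => (c.1 % (d : ℤ), c.1 % (d : ℤ) + (c.2 - c.1))) with hM1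
  have e1 : Edges A M1 := by
    intro c hc
    obtain ⟨c', hc', rfl⟩ := Multiset.mem_map.1 hc
    obtain ⟨y, hy, hy2⟩ := h1 c' hc'
    exact ⟨y, hy, by simp only; omega⟩
  have e2 : ∀ t, cls d t (pts M1) = cls d t (pts M) := by
    intro t
    simp only [hM1, pts, Multiset.map_map, cls_add]
    congr 1
    · exact cls_map t M _ Prod.fst (fun a => dvd_emod_sub _ _)
    · refine cls_map t M _ Prod.snd (fun a => ?_)
      have := dvd_emod_sub d a.1
      have h5 : a.1 % d + (a.2 - a.1) - a.2 = a.1 % d - a.1 := by ring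
      simp only [Function.comp]
      rwa [h5]
  have e3 : ∀ a ∈ pts M1, 0 ≤ a ∧ a < 2 * w := by
    intro a ha
    simp only [hM1, pts, Multiset.map_map, Multiset.mem_add, Multiset.mem_map,
      Function.comp] at ha
    rcases ha with ⟨c, hc, rfl⟩ | ⟨c, hc, rfl⟩
    · have a1 := Int.emod_nonneg c.1 (b := d) (by omega)
      have a2 := Int.emod_lt_of_pos c.1 (b := d) (by omega)
      omega
    · have a1 := Int.emod_nonneg c.1 (b := d) (by omega)
      have a2 := Int.emod_lt_of_pos c.1 (b := d) (by omega)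
      obtain ⟨y, hy, hy2⟩ := h1 c hc
      have := hA y hy
      omega
  have e4 : ∀ (V : Multiset ℤ), ∀ a ∈ V.map (fun u : ℤ => u % (d : ℤ)), 0 ≤ a ∧ a < 2 * w := by
    intro V a ha
    obtain ⟨u, _, rfl⟩ := Multiset.mem_map.1 ha
    have a1 := Int.emod_nonneg u (b := d) (by omega)
    have a2 := Int.emod_lt_of_pos u (b := d) (by omega)
    omega
  have e5 : ∀ (V : Multiset ℤ) t, cls d t (V.map (fun u : ℤ => u % (d : ℤ))) = cls d t V := by
    intro V t
    rw [cls_map t V (fun u : ℤ => u % (d : ℤ)) id (fun a => dvd_emod_sub _ _), Multiset.map_id]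
  by_cases hU : U = 0
  · subst hU
    refine ⟨M1, 0, e1, fun t => by rw [← h2 t, cls_add, cls_add, e2], h3, by simpa [hM1] using h4,
      fun a ha => ?_, fun hj => by simp at h3; omega⟩
    have := e3 a (by simpa using ha)
    omega
  · obtain ⟨u, hu⟩ := Multiset.exists_mem_of_ne_zero hU
    obtain ⟨V, rfl⟩ := Multiset.exists_cons_of_mem hu
    have a1 := Int.emod_nonneg (u - 2 * w) (b := d) (by omega)
    have a2 := Int.emod_lt_of_pos (u - 2 * w) (b := d) (by omega)
    have e6 : ∀ a ∈ pts M1 + (2 * w + (u - 2 * w) % d) ::ₘ V.map (fun u : ℤ => u % (d : ℤ)),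
        0 ≤ a ∧ a ≤ 2 * w + (u - 2 * w) % d := by
      intro a ha
      rcases Multiset.mem_add.1 ha with ha | ha
      · have := e3 a ha; omega
      · rcases Multiset.mem_cons.1 ha with rfl | ha
        · omega
        · have := e4 V a ha; omega
    refine ⟨M1, (2 * w + (u - 2 * w) % d) ::ₘ V.map (fun u : ℤ => u % (d : ℤ)), e1, fun t => ?_,
      by simpa using h3, by simpa [hM1] using h4, fun a ha => ?_,
      fun _ => ⟨_, Multiset.mem_cons_self _ _, fun a ha => (e6 a ha).2⟩⟩
    · rw [← h2 t, cls_add, cls_add, e2, cls_cons, cls_cons, e5]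
      have : (d : ℤ) ∣ t - (2 * w + (u - 2 * w) % d) ↔ (d : ℤ) ∣ t - u := by
        have h5 : t - u = t - (2 * w + (u - 2 * w) % d) + ((u - 2 * w) % d - (u - 2 * w)) := by
          ring
        rw [h5]
        exact (dvd_add_left (dvd_emod_sub _ _)).symm
      simp only [this]
    · have := e6 a ha
      omega

def ind (d : ℕ) (D : Multiset ℤ) (t : ℤ) : ℕ := D.countP (fun a => a ≤ t ∧ (d : ℤ) ∣ t - a)

theorem ind_cons (d : ℕ) (t a : ℤ) (D : Multiset ℤ) :
    ind d (a ::ₘ D) t = ind d D t + if a ≤ t ∧ (d : ℤ) ∣ t - a then 1 else 0 := by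
  simp [ind, Multiset.countP_cons]

theorem ind_le (d : ℕ) (D : Multiset ℤ) (t : ℤ) : ind d D t ≤ cls d t D := by
  induction D using Multiset.induction_on with
  | empty => simp [ind]
  | cons a D ih =>
    rw [ind_cons, cls_cons]
    split_ifs with h1 h2
    · omega
    · exact absurd h1.2 h2
    · omega
    · omega

theorem ind_eq {d : ℕ} {D : Multiset ℤ} {t : ℤ} (h : ∀ a ∈ D, a ≤ t) : ind d D t = cls d t D := by
  induction D using Multiset.induction_on with
  | empty => simp [ind, cls]
  | cons a D ih =>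
    rw [ind_cons, cls_cons, ih (fun b hb => h b (Multiset.mem_cons_of_mem hb))]
    simp [h a (Multiset.mem_cons_self _ _)]

theorem ind_zero {d : ℕ} {D : Multiset ℤ} {t : ℤ} (h : ∀ a ∈ D, t < a) : ind d D t = 0 := by
  rw [ind, Multiset.countP_eq_zero]
  intro a ha h1
  have := h a ha
  omega

theorem ind_step {d : ℕ} (hd : 1 ≤ d) (D : Multiset ℤ) (t : ℤ) :
    ind d D t = ind d D (t - d) + D.count t := by
  induction D using Multiset.induction_on with
  | empty => simp [ind]
  | cons a D ih =>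
    rw [ind_cons, ind_cons, Multiset.count_cons, ih]
    have h1 : (d : ℤ) ∣ t - d - a ↔ (d : ℤ) ∣ t - a := by
      have : t - a = t - d - a + d := by ring
      rw [this]
      exact (dvd_add_left dvd_rfl).symm
    simp only [h1]
    by_cases h2 : t = a
    · subst h2
      rw [if_pos ⟨le_rfl, by simp⟩, if_neg (by omega), if_pos rfl]
      omega
    · rw [if_neg h2]
      by_cases h3 : (d : ℤ) ∣ t - a
      · by_cases h4 : a ≤ t
        · have := Int.le_of_dvd (by omega) h3
          rw [if_pos ⟨h4, h3⟩, if_pos ⟨by omega, h3⟩]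
          omega
        · rw [if_neg (by tauto), if_neg (by omega)]
          omega
      · simp [h3]

end Pool.Agent.BHR
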