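import Pool.Agent.Lib.MP_7ae50b_co.Base

set_option autoImplicit false

namespace Pool.Agent.BHR

theorem scale (F : ℕ → ℕ) (hF : ∀ t, t ≤ F t) (X : Finset ℕ) {n : ℕ} (hn : X.card ≤ n) :
    ∃ j, j ≤ n ∧ ∀ x ∈ X, x ≤ F^[j] 0 ∨ F (F^[j] 0) < x := by
  by_contra hcon
  push Not at hcon
  have mono : Monotone (fun j => F^[j] 0) := by
    refine monotone_nat_of_le_succ (fun j => ?_)
    rw [Function.iterate_succ_apply']
    exact hF _
  have h1 : ∀ j : ℕ, ∃ x, j ∈ Finset.range (n + 1) →
      x ∈ X ∧ F^[j] 0 < x ∧ x ≤ F^[j + 1] 0 := by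
    intro j
    by_cases hj : j ∈ Finset.range (n + 1)
    · obtain ⟨x, hx⟩ := hcon j (by have := Finset.mem_range.1 hj; omega)
      rw [Function.iterate_succ_apply']
      exact ⟨x, fun _ => hx⟩
    · exact ⟨0, fun h => absurd h hj⟩
  choose f hf using h1
  obtain ⟨i, hi, j, hj, hij, h2⟩ := Finset.exists_ne_map_eq_of_card_lt_of_maps_to
    (s := Finset.range (n + 1)) (t := X) (by simp; omega) (f := f) (fun j hj => (hf j hj).1)
  obtain ⟨-, a1, a2⟩ := hf i hi
  obtain ⟨-, a3, a4⟩ := hf j hj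
  rcases Nat.lt_or_gt_of_ne hij with h3 | h3
  · have := mono (show i + 1 ≤ j from h3)
    simp only at this
    omega
  · have := mono (show j + 1 ≤ i from h3)
    simp only at this
    omega

theorem ord_aux {L G : ℕ} (l : List ℕ) (hs : l.Pairwise (· ≤ ·))
    (hg : ∀ x ∈ l, ∀ y ∈ l, y ≤ x + L ∨ x + G < y) (a : ℤ) (d : ℕ) (hd : ∀ x ∈ l, d ≤ x) :
    ∃ (f : ℕ → ℤ) (ρ : ℕ → ℕ), f 0 = a ∧ ∑ i ∈ Finset.range l.length, {ρ i} = (l : Multiset ℕ) ∧
      (∀ i, i < l.length → ρ i ∈ l ∧ (i % 2 = 0 → f (i + 1) = f i + ρ i) ∧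
        (i % 2 = 1 → f (i + 1) = f i - ρ i)) ∧
      (∀ i, i % 2 = 1 → i ≤ l.length → a + d ≤ f i) ∧
      (∀ i j, i % 2 = 1 → j % 2 = 1 → i ≤ j → j ≤ l.length → f i ≤ f j) ∧
      (∀ i j, i % 2 = 0 → j % 2 = 0 → i ≤ j → j ≤ l.length →
        f j ≤ f i + j * L ∧ (f i ≤ f j ∨ f j + G ≤ f i + j * L)) := by
  induction l using List.twoStepInduction generalizing a d with
  | nil =>
    refine ⟨fun _ => a, fun _ => 0, rfl, by simp, by simp, fun i h1 h2 => ?_, by simp, ?_⟩
    · simp at h2; omega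
    · intro i j _ _ _ _
      have : (0 : ℤ) ≤ j * L := by positivity
      beta_reduce
      omega
  | singleton x =>
    have := hd x (by simp)
    refine ⟨fun i => if i = 0 then a else a + x, fun _ => x, rfl, by simp, ?_, ?_, ?_, ?_⟩
    · intro i hi
      obtain rfl : i = 0 := by simpa using hi
      simp
    · intro i h1 _
      beta_reduce
      rw [if_neg (by omega)]
      omega
    · intro i j h1 h2 _ _
      beta_reduce
      rw [if_neg (by omega), if_neg (by omega)]
    · intro i j h1 h2 h3 h4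
      simp only [List.length_singleton] at h4
      obtain rfl : j = 0 := by omega
      obtain rfl : i = 0 := by omega
      simp
  | cons_cons x y l ih _ =>
    have hxy : x ≤ y := (List.pairwise_cons.1 hs).1 y (by simp)
    have hs2 := (List.pairwise_cons.1 hs).2
    have hx := hd x (by simp)
    obtain ⟨u, e, h1, h2, h3, h4, h5, h6⟩ : ∃ u e : ℕ, u ∈ x :: y :: l ∧ e ∈ x :: y :: l ∧
        u ::ₘ e ::ₘ (l : Multiset ℕ) = (x :: y :: l : List ℕ) ∧ d ≤ u ∧ e ≤ y ∧
        ((e ≤ u ∧ u ≤ e + L) ∨ u + G < e) := by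
      rcases hg x (by simp) y (by simp) with h | h
      · exact ⟨y, x, by simp, by simp, by rw [Multiset.cons_swap]; rfl, by omega, hxy,
          Or.inl ⟨hxy, h⟩⟩
      · exact ⟨x, y, by simp, by simp, rfl, hx, le_rfl, Or.inr h⟩
    obtain ⟨f, ρ, f1, f2, f3, f4, f5, f6⟩ := ih (List.pairwise_cons.1 hs2).2
      (fun p hp q hq => hg p (by simp [hp]) q (by simp [hq])) (a + u - e) e
      (fun p hp => le_trans h5 ((List.pairwise_cons.1 hs2).1 p hp))
    refine ⟨fun i => if i = 0 then a else if i = 1 then a + u else f (i - 2),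
      fun i => if i = 0 then u else if i = 1 then e else ρ (i - 2), rfl, ?_, ?_, ?_, ?_, ?_⟩
    · rw [List.length_cons, List.length_cons, Finset.sum_range_succ', Finset.sum_range_succ', ← h3,
        ← f2]
      simp only [Nat.add_eq_zero_iff, one_ne_zero, and_false, if_false, zero_add, if_true,
        Nat.add_eq_right]
      rw [add_comm, add_comm _ ({e} : Multiset ℕ)]
      rfl
    · intro i hi
      rcases i with _ | _ | i
      · simp [h1]
      · simp [h2, f1]
      · simp only [List.length_cons] at hi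
        obtain ⟨b1, b2, b3⟩ := f3 i (by omega)
        have e1 : i + 1 + 1 + 1 - 2 = i + 1 := by omega
        have e2 : i + 1 + 1 - 2 = i := by omega
        simp only [Nat.add_eq_zero_iff, one_ne_zero, and_false, if_false, Nat.add_eq_right, e1, e2]
        exact ⟨by simp [b1], fun h => b2 (by omega), fun h => b3 (by omega)⟩
    · intro i i1 i2
      simp only [List.length_cons] at i2
      beta_reduce
      rw [if_neg (by omega)]
      split_ifs with h
      · omega
      · have := f4 (i - 2) (by omega) (by omega)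
        omega
    · intro i j i1 j1 i2 j2
      simp only [List.length_cons] at j2
      beta_reduce
      rw [if_neg (by omega), if_neg (c := j = 0) (by omega)]
      split_ifs with h h' h'
      · exact le_rfl
      · have := f4 (j - 2) (by omega) (by omega)
        omega
      · omega
      · exact f5 _ _ (by omega) (by omega) (by omega) (by omega)
    · intro i j i1 j1 i2 j2
      simp only [List.length_cons] at j2
      by_cases hj : j = 0
      · subst hj
        obtain rfl : i = 0 := by omega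
        simp
      obtain ⟨j, rfl⟩ : ∃ k, j = k + 2 := ⟨j - 2, by omega⟩
      have e1 : ((j + 2 : ℕ) : ℤ) * L = j * L + 2 * L := by push_cast; ring
      beta_reduce
      rw [e1, if_neg hj, if_neg (c := j + 2 = 1) (by omega), Nat.add_sub_cancel]
      by_cases hi : i = 0
      · rw [if_pos hi]
        have := f6 0 j rfl (by omega) (by omega) (by omega)
        omega
      · rw [if_neg hi, if_neg (by omega)]
        have := f6 (i - 2) j (by omega) (by omega) (by omega) (by omega)
        omega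

structure Zigzag (v G N : ℕ) (B : Multiset ℕ) (σ : ℕ → ℤ) (ρ : ℕ → ℕ) : Prop where
  s0 : σ 0 = 0
  hB : ∑ i ∈ Finset.range N, {ρ i} = B
  jump : ∀ i, i < N → 2 * ρ i ≤ v ∧ (σ (i + 1) = σ i + ρ i ∨ σ (i + 1) = σ i - ρ i)
  s1 : ∀ i j, i % 2 = 1 → j % 2 = 1 → i ≤ j → j ≤ N → σ i ≤ σ j
  s2 : ∀ i, i % 2 = 0 → 2 ≤ i → i ≤ N → 0 ≤ σ i ∧ σ i + G ≤ σ 1
  s3 : ∀ i j, i % 2 = 0 → j % 2 = 0 → 2 ≤ i → i ≤ j → j ≤ N → σ i ≤ σ j ∨ σ j + G ≤ σ i
  s4 : ∀ i, i % 2 = 1 → i ≤ N → σ i + G ≤ v
  s5 : 1 ≤ N → G ≤ σ 1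

theorem zigzag {v k L G G' : ℕ} (hG : G + k * L ≤ G') (B : Multiset ℕ) (hk : B.card ≤ k)
    (hB : ∀ x ∈ B, G' < x ∧ 2 * x ≤ v) (hg : ∀ x ∈ B, ∀ y ∈ B, y ≤ x + L ∨ x + G' < y) :
    ∃ σ ρ, Zigzag v G B.card B σ ρ := by
  by_cases h0 : B = 0
  · subst h0
    exact ⟨fun _ => 0, fun _ => 0, rfl, by simp, by simp, by simp,
      fun i _ h1 h2 => by simp at h2; omega, by simp, fun i h1 h2 => by simp at h2; omega, by simp⟩
  obtain ⟨μ, hμ, hmax⟩ := Multiset.exists_max_image id h0
  obtain ⟨B1, rfl⟩ := Multiset.exists_cons_of_mem hμ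
  have m1 := hB μ hμ
  by_cases h1 : B1 = 0
  · subst h1
    refine ⟨fun i => if i = 0 then 0 else μ, fun _ => μ, rfl, by simp, ?_, ?_,
      fun i _ h1 h2 => by simp at h2; omega, fun i j _ _ _ _ h2 => by simp at h2; omega, ?_, ?_⟩
    · intro i hi
      obtain rfl : i = 0 := by simpa using hi
      simp [m1.2]
    · intro i j i1 j1 _ _
      rw [if_neg (by omega), if_neg (by omega)]
    · intro i i1 _
      rw [if_neg (by omega)]
      omega
    · intro _
      rw [if_neg (by omega)]
      omega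
  obtain ⟨b, hb, hmin⟩ := Multiset.exists_min_image id h1
  obtain ⟨B2, rfl⟩ := Multiset.exists_cons_of_mem hb
  have m2 := hB b (by simp)
  have m3 : b ≤ μ := hmax b (by simp)
  have hl : ∀ x, x ∈ B2.sort (· ≤ ·) → x ∈ μ ::ₘ b ::ₘ B2 := fun x hx => by
    simp [(Multiset.mem_sort _).1 hx]
  obtain ⟨f, ρ, f1, f2, f3, f4, f5, f6⟩ := ord_aux (L := L) (G := G') (B2.sort (· ≤ ·))
    (Multiset.pairwise_sort _ _) (fun x hx y hy => hg x (hl x hx) y (hl y hy)) (μ - b) b
    (fun x hx => hmin x (by simp [(Multiset.mem_sort _).1 hx]))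
  rw [Multiset.length_sort] at f2 f3 f4 f5 f6
  rw [Multiset.sort_eq] at f2
  rw [Multiset.card_cons, Multiset.card_cons] at hk ⊢
  have kl : ∀ j : ℕ, j ≤ k → (j : ℤ) * L + G ≤ G' := by
    intro j hj
    have : j * L ≤ k * L := Nat.mul_le_mul_right _ hj
    have h2 : j * L + G ≤ G' := by omega
    exact_mod_cast h2
  have ev : ∀ i, i % 2 = 0 → i ≤ B2.card → 0 ≤ f i ∧ f i + G ≤ μ := by
    intro i i1 i2
    have a1 := f6 0 i rfl i1 (by omega) i2
    have a2 := kl i (by omega)
    refine ⟨?_, by omega⟩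
    rcases i with _ | i
    · omega
    · obtain ⟨b1, _, b3⟩ := f3 i (by omega)
      have b4 := f4 i (by omega) (by omega)
      have b5 : ρ i ≤ μ := hmax _ (hl _ b1)
      have := b3 (by omega)
      omega
  refine ⟨fun i => if i = 0 then 0 else if i = 1 then μ else f (i - 2),
    fun i => if i = 0 then μ else if i = 1 then b else ρ (i - 2), rfl, ?_, ?_, ?_, ?_, ?_, ?_, ?_⟩
  · rw [Finset.sum_range_succ', Finset.sum_range_succ']
    simp only [Nat.add_eq_zero_iff, one_ne_zero, and_false, if_false, zero_add, if_true,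
      Nat.add_eq_right]
    have e1 : ∀ x : ℕ, x + 1 + 1 - 2 = x := fun x => by omega
    simp only [e1]
    rw [f2, add_comm, add_comm _ ({b} : Multiset ℕ)]
    rfl
  · intro i hi
    rcases i with _ | _ | i
    · simp [m1.2]
    · simp [m2.2, f1]
    · obtain ⟨b1, b2, b3⟩ := f3 i (by omega)
      have e1 : i + 1 + 1 + 1 - 2 = i + 1 := by omega
      have e2 : i + 1 + 1 - 2 = i := by omega
      simp only [Nat.add_eq_zero_iff, one_ne_zero, and_false, if_false, Nat.add_eq_right, e1, e2]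
      refine ⟨(hB _ (hl _ b1)).2, ?_⟩
      rcases Nat.mod_two_eq_zero_or_one i with h | h
      · exact Or.inl (b2 h)
      · exact Or.inr (b3 h)
  · intro i j i1 j1 i2 j2
    rw [if_neg (by omega), if_neg (c := j = 0) (by omega)]
    split_ifs with h h' h'
    · exact le_rfl
    · have := f4 (j - 2) (by omega) (by omega)
      omega
    · omega
    · exact f5 _ _ (by omega) (by omega) (by omega) (by omega)
  · intro i i1 i2 i3
    rw [if_neg (by omega), if_neg (by omega), if_neg (by omega), if_pos rfl]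
    exact ev (i - 2) (by omega) (by omega)
  · intro i j i1 j1 i2 i3 j2
    rw [if_neg (by omega), if_neg (by omega), if_neg (by omega), if_neg (by omega)]
    have a1 := f6 (i - 2) (j - 2) (by omega) (by omega) (by omega) (by omega)
    have a2 := kl (j - 2) (by omega)
    omega
  · intro i i1 i2
    rw [if_neg (by omega)]
    split_ifs with h
    · omega
    · obtain ⟨i, rfl⟩ : ∃ j, i = j + 3 := ⟨i - 3, by omega⟩
      obtain ⟨b1, b2, _⟩ := f3 i (by omega)
      have b3 := b2 (by omega)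
      have b4 := ev i (by omega) (by omega)
      have b5 : ρ i ≤ μ := hmax _ (hl _ b1)
      have e1 : i + 3 - 2 = i + 1 := by omega
      rw [e1]
      omega
  · intro _
    rw [if_neg (by omega), if_pos rfl]
    omega

end Pool.Agent.BHR
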