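import Pool.Agent.Lib.MP_7ae50b_co.Core

set_option autoImplicit false

namespace Pool.Agent.BHR

/-- cyclic length of an integer -/
def nrm (v : ℕ) (a : ℤ) : ℕ := min (a % v).toNat (v - (a % v).toNat)

def Real (v : ℕ) (L : Multiset ℕ) : Prop :=
  ∃ P : List ℕ, P.Perm (List.range v) ∧
    Multiset.ofList
      (List.zipWith (fun a b => min (a - b + (b - a)) (v - (a - b + (b - a)))) P P.tail) = L

theorem nrm_congr {v : ℕ} {a b : ℤ} (h : (v : ℤ) ∣ a - b) : nrm v a = nrm v b := by
  have : a % v = b % v := (Int.emod_emod_of_dvd a dvd_rfl).symm.trans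
    (by rw [Int.emod_emod_of_dvd a dvd_rfl]; exact (Int.emod_eq_emod_iff_emod_sub_eq_zero.2
      (Int.emod_eq_zero_of_dvd h)))
  simp only [nrm, this]

theorem nrm_small {v : ℕ} {a : ℤ} (h0 : 0 ≤ a) (h1 : a < v) :
    nrm v a = min a.toNat (v - a.toNat) := by
  simp only [nrm, Int.emod_eq_of_lt h0 h1]

theorem nrm_neg {v : ℕ} (hv : 1 ≤ v) (a : ℤ) : nrm v (-a) = nrm v a := by
  have a1 := Int.emod_nonneg a (b := v) (by omega)
  have a2 := Int.emod_lt_of_pos a (b := v) (by omega)
  have a3 := Int.mul_ediv_add_emod a v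
  by_cases h : a % v = 0
  · have : nrm v (-a) = nrm v 0 := nrm_congr ⟨-(a / v), by linarith⟩
    rw [this]
    simp [nrm, h]
  · have : nrm v (-a) = nrm v (v - a % v) := nrm_congr ⟨-(a / v) - 1, by linarith⟩
    rw [this, nrm_small (by omega) (by omega)]
    simp only [nrm]
    omega

theorem nrm_cases {v : ℕ} (hv : 1 ≤ v) (a : ℤ) :
    (v : ℤ) ∣ a - nrm v a ∨ (v : ℤ) ∣ a + nrm v a := by
  have a1 := Int.emod_nonneg a (b := v) (by omega)
  have a2 := Int.emod_lt_of_pos a (b := v) (by omega)
  have a3 := Int.mul_ediv_add_emod a v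
  by_cases h : (a % v).toNat ≤ v - (a % v).toNat
  · left
    have : (nrm v a : ℤ) = a % v := by simp only [nrm]; omega
    exact ⟨a / v, by linarith⟩
  · right
    have : (nrm v a : ℤ) = v - a % v := by simp only [nrm]; omega
    exact ⟨a / v + 1, by linarith⟩

theorem nrm_mul {v : ℕ} (hv : 1 ≤ v) (u a : ℤ) : nrm v (u * nrm v a) = nrm v (u * a) := by
  rcases nrm_cases hv a with ⟨k, hk⟩ | ⟨k, hk⟩
  · exact nrm_congr ⟨-(u * k), by linear_combination (-u) * hk⟩
  · rw [← nrm_neg hv]
    exact nrm_congr ⟨-(u * k), by linear_combination (-u) * hk⟩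

theorem nrm_self {v x : ℕ} (hv : 1 ≤ v) (h : 2 * x ≤ v) : nrm v x = x := by
  rw [nrm_small (by omega) (by omega)]
  omega

theorem nrm_le (v : ℕ) (a : ℤ) : 2 * nrm v a ≤ v := by
  simp only [nrm]
  omega

theorem len_eq_nrm {v : ℕ} {a b : ℤ} (a1 : 0 ≤ a) (a2 : a < v) (b1 : 0 ≤ b) (b2 : b < v) :
    len v (a, b) = nrm v (b - a) := by
  by_cases h : a ≤ b
  · rw [nrm_small (by omega) (by omega)]
    simp only [len]
    omega
  · rw [← nrm_neg (by omega), nrm_small (by omega) (by omega)]
    simp only [len]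
    omega

theorem zip_range (φ : ℕ → ℕ → ℕ) (g : ℕ → ℕ) (n : ℕ) :
    List.zipWith φ ((List.range n).map g) ((List.range n).map g).tail =
      (List.range (n - 1)).map (fun i => φ (g i) (g (i + 1))) := by
  apply List.ext_getElem
  · simp
  · intro i h1 h2
    simp

theorem real_of {v : ℕ} {E : Multiset (ℤ × ℤ)} {s e : ℤ} (h : Good v E s e) (hc : AllConn v E)
    {u : ℤ} (hu : IsCoprime u v) : Real v ((lens v E).map (fun x : ℕ => nrm v (u * x))) := by
  obtain ⟨f, h1, h2, h3, -⟩ := ham h hc
  have hv : 1 ≤ v := by have := h.e_mem; omega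
  have m1 : ∀ i, 0 ≤ u * f i % v ∧ u * f i % v < v := fun i =>
    ⟨Int.emod_nonneg _ (by omega), Int.emod_lt_of_pos _ (by omega)⟩
  refine ⟨(List.range v).map (fun i => (u * f i % v).toNat), ?_, ?_⟩
  · apply List.Subperm.perm_of_length_le _ (by simp)
    apply List.Nodup.subperm
    · refine List.Nodup.map_on (fun i hi j hj hij => ?_) List.nodup_range
      rw [List.mem_range] at hi hj
      have a1 := m1 i
      have a2 := m1 j
      have a3 : u * f i % v = u * f j % v := by omega
      have a4 : (v : ℤ) ∣ u * (f i - f j) := by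
        rw [mul_sub]
        exact Int.dvd_of_emod_eq_zero (Int.emod_eq_emod_iff_emod_sub_eq_zero.1 a3)
      have a5 := hu.symm.dvd_of_dvd_mul_left a4
      have a6 := h3 i hi
      have a7 := h3 j hj
      have := Int.eq_zero_of_abs_lt_dvd a5 (by rw [abs_lt]; omega)
      exact h2 i j hi hj (by omega)
    · intro x hx
      obtain ⟨i, _, rfl⟩ := List.mem_map.1 hx
      have := m1 i
      rw [List.mem_range]
      omega
  · have e1 : lens v E = (E.map key).map (len v) := by
      simp only [lens, Multiset.map_map, Function.comp_def, len_key]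
    rw [zip_range, e1, h1, Multiset.map_map, Multiset.map_map, ← Multiset.map_coe]
    apply Multiset.map_congr rfl
    intro i hi
    have hi2 : i < v - 1 := by simpa using hi
    have a1 := h3 i (by omega)
    have a2 := h3 (i + 1) (by omega)
    have a3 := m1 i
    have a4 := m1 (i + 1)
    simp only [Function.comp_def, len_key]
    rw [len_eq_nrm a1.1 a1.2 a2.1 a2.2, nrm_mul hv]
    have a5 : nrm v (u * (f (i + 1) - f i)) = nrm v (u * f (i + 1) % v - u * f i % v) := by
      apply nrm_congr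
      have b1 := Int.mul_ediv_add_emod (u * f i) v
      have b2 := Int.mul_ediv_add_emod (u * f (i + 1)) v
      exact ⟨u * f (i + 1) / v - u * f i / v, by linarith⟩
    rw [a5, ← len_eq_nrm a3.1 a3.2 a4.1 a4.2]
    simp only [len]
    omega

theorem gen_of_gcd {A : Finset ℕ} (h : A.gcd id = 1) : Gen A := by
  intro H hH
  have : ∀ B : Finset ℕ, (∀ x ∈ B, (x : ℤ) ∈ H) → ((B.gcd id : ℕ) : ℤ) ∈ H := by
    intro B
    induction B using Finset.induction_on with
    | empty => intro _; simp
    | insert a B _ ih =>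
      intro hB
      have a1 := ih (fun x hx => hB x (Finset.mem_insert_of_mem hx))
      have a2 := hB a (Finset.mem_insert_self _ _)
      rw [Finset.gcd_insert, id, gcd_eq_nat_gcd, Nat.gcd_eq_gcd_ab, mul_comm, mul_comm _ (Nat.gcdB _ _)]
      exact H.add_mem (H.zsmul_mem a2 _) (H.zsmul_mem a1 _)
  have h1 := this A hH
  rwa [h] at h1

end Pool.Agent.BHR
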