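import Pool.Agent.Lib.MP_7ae50b_co.Order

set_option autoImplicit false

namespace Pool.Agent.BHR

section
variable {v M Dr N : ℕ} {E0 : Multiset (ℤ × ℤ)} {s : ℤ} {Nn : ℕ → ℤ} {z : ℕ → ℕ}
  {Y : ℕ → Multiset ℕ} {ρ : ℕ → ℕ} {p e : ℕ → ℤ}

theorem Pos.lt_p (hI : ZigIn v M Dr N E0 s Nn z Y ρ) (h : Pos N Nn z Y p e)
    {i j : ℕ} (hij : i < j) (hj : j ≤ N)
    (h1 : (Nn i ≤ Nn j ∧ i + 2 ≤ j) ∨ Nn i + M + 1 ≤ Nn j) : e i + M < p j := by
  obtain ⟨j, rfl⟩ : ∃ k, j = k + 1 := ⟨j - 1, by omega⟩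
  have a1 := h.p2 j (by omega)
  have a2 := h.lt_of hI le_rfl (i := i) (j := j) (by omega) (by omega) (q := Nn (j + 1))
    (by omega)
  omega

theorem Pos.lt_p' (hI : ZigIn v M Dr N E0 s Nn z Y ρ) (h : Pos N Nn z Y p e)
    {i j : ℕ} (hi1 : 1 ≤ i) (hi : i ≤ N) (hj : j ≤ N) (h1 : Nn j + Dr + M < Nn i) :
    e j + M < p i := by
  have a1 := h.le_p hI le_rfl hi1 hi
  have a2 := h.le_Dr hI le_rfl hj
  omega

theorem Pos.sep (hI : ZigIn v M Dr N E0 s Nn z Y ρ) (h : Pos N Nn z Y p e)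
    {i j : ℕ} (hi : i ≤ N) (hj : j ≤ N) (hij : i ≠ j) : e i + M < p j ∨ e j + M < p i := by
  have key : ∀ i j, i < j → j ≤ N → e i + M < p j ∨ e j + M < p i := by
    intro i j hij hj
    rcases hI.sep i j hij hj with h1 | h1 | h1
    · exact Or.inl (h.lt_p hI hij hj (Or.inl h1))
    · exact Or.inl (h.lt_p hI hij hj (Or.inr h1))
    · exact Or.inr (h.lt_p' hI h1.1 (by omega) hj h1.2)
  rcases Nat.lt_or_gt_of_ne hij with h1 | h1
  · exact key i j h1 hj
  · exact (key j i h1 hi).symm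

theorem conn_stage {w : ℕ} {A : Finset ℕ} {n : ℕ → ℤ} {I : Finset ℤ} {Dl S Err e0 : ℤ}
    {Zs : Finset (ℕ × ℤ)} (hG : Gen A) (hA : ∀ x ∈ A, 1 ≤ x ∧ x ≤ w) (hv : 2 * w ≤ v)
    (hM : 2 * w * (w * (w - 1)) ≤ M)
    (hB : Base v w M A n I Dl S Err e0 E0 s Zs) (hI : ZigIn v M Dr N E0 s Nn z Y ρ)
    (hN : N % 2 = 0) (h0 : Nn 0 = e0) (hz0 : z 0 = w) (hzA : ∀ i, i ≤ N → z i ∈ A)
    {lo : ℕ → ℤ} (hD : Dr + 1 ≤ Dl)
    (hlo : ∀ i, i ≤ N → lo i ∈ I ∧ lo i ≤ Nn i ∧ Nn i + Dr + M + w + 1 ≤ lo i + Dl ∧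
      Pure E0 (z i) (Nn i) (Nn i + Dr + M + w + 1))
    (o1 : ∀ i j, i % 2 = 1 → j % 2 = 1 → i ≤ j → j ≤ N → Nn i ≤ Nn j)
    (o2 : ∀ i, i % 2 = 0 → 2 ≤ i → i ≤ N → Nn 0 ≤ Nn i ∧ Nn i + Dr + M < Nn 1) :
    ∃ p e E F, ZigOut v E0 s Nn z Y ρ N p e E ∧ Good v F s (e N) ∧ AllConn v F ∧
      Near A (lens v E) (lens v F) (2 * (w * w) * (w + 1 + (N + 1))) ∧
      ∀ c ∈ E0, (∀ i, i ≤ N → (c.1 ≤ p i + z i ∨ e i < c.1) ∧ (c.1 ≤ e i ∨ e i + M < c.1)) →
        (∀ i, 1 ≤ i → i ≤ N → c.1 ≠ p i) → (∀ q ∈ Zs, c.1 < q.2 ∨ q.2 + M ≤ c.1) → c ∈ F := by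
  classical
  obtain ⟨p, e, E, hO⟩ := zig hI N le_rfl
  have hP := hO.pos
  have b1 : ∀ i, i ≤ N → p i < e i ∧ Nn i ≤ e i ∧ e i ≤ Nn i + Dr := by
    intro i hi
    have a1 := hP.p1 i hi
    have a2 := hI.hz i hi
    have a3 := hP.nonneg hI le_rfl hi
    have a4 := hP.le_Dr hI le_rfl hi
    omega
  have b2 : ∀ i, i ≤ N → Nn i ≤ p i + z i := by
    intro i hi
    by_cases h : i = 0
    · subst h; exact hP.p0.ge
    · have := hP.le_p hI le_rfl (i := i) (by omega) hi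
      omega
  have pers : ∀ c ∈ E0, (∀ i, i ≤ N → c.1 ≤ p i + z i ∨ e i < c.1) →
      (∀ i, 1 ≤ i → i ≤ N → c.1 ≠ p i) → c ∈ E :=
    fun c hc h1 h2 => hO.pers c hc h1 (fun i i1 i2 hh => h2 i i1 i2 (by rw [hh]))
  set Z := Zs ∪ (Finset.range (N + 1)).image (fun i => (z i, e i + 1)) with hZ
  have mZ : ∀ q ∈ Z, q ∈ Zs ∨ ∃ i, i ≤ N ∧ q = (z i, e i + 1) := by
    intro q hq
    rcases Finset.mem_union.1 hq with hq | hq
    · exact Or.inl hq
    · obtain ⟨i, hi, rfl⟩ := Finset.mem_image.1 hq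
      exact Or.inr ⟨i, by have := Finset.mem_range.1 hi; omega, rfl⟩
  obtain ⟨F, f1, f2, f3, f4, f5⟩ := merge_all hG hA hv hM hO.good Z (by
    intro q hq
    rcases mZ q hq with hq | ⟨i, hi, rfl⟩
    · obtain ⟨c1, c2, c3⟩ := hB.zone q hq
      refine ⟨c1, fun t t1 t2 => pers _ (c2 t t1 t2) (fun i hi => ?_) (fun i i1 hi => ?_)⟩
      · have d1 := hlo i hi
        have d2 := c3 _ d1.1
        have d3 := b1 i hi
        have d4 := b2 i hi
        simp only
        omega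
      · have d1 := hlo i hi
        have d2 := c3 _ d1.1
        have d3 := b1 i hi
        have d4 := hP.le_p hI le_rfl i1 hi
        simp only
        omega
    · have d1 := hlo i hi
      have d3 := b1 i hi
      refine ⟨hzA i hi, fun t t1 t2 => ?_⟩
      simp only at t1 t2
      refine pers _ (d1.2.2.2 t (by omega) (by omega)) (fun j hj => ?_) (fun j j1 hj => ?_)
      · by_cases h : i = j
        · subst h; simp only; omega
        · have d2 := hP.sep hI hi hj h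
          simp only
          omega
      · by_cases h : i = j
        · subst h; simp only; omega
        · have d2 := hP.sep hI hi hj h
          have d4 := b1 j hj
          simp only
          omega) (by
    intro q hq r hr hqr
    rcases mZ q hq with hq | ⟨i, hi, rfl⟩ <;> rcases mZ r hr with hr | ⟨j, hj, rfl⟩
    · exact hB.disj q hq r hr hqr
    · have d1 := hlo j hj
      have d2 := (hB.zone q hq).2.2 _ d1.1
      have d3 := b1 j hj
      simp only
      omega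
    · have d1 := hlo i hi
      have d2 := (hB.zone r hr).2.2 _ d1.1
      have d3 := b1 i hi
      simp only
      omega
    · have d2 := hP.sep hI hi hj (fun hh => hqr (by rw [hh]))
      have d3 := b1 i hi
      have d4 := b1 j hj
      simp only
      omega)
  have hQ := conn_equiv F
  have qE : ∀ c ∈ E, Conn F c.1 c.2 := fun c hc => f2 _ _ (conn_edge hc)
  have qZ : ∀ i, i ≤ N → ZI (Conn F) (z i) (e i + 1) := fun i hi =>
    f5 (z i, e i + 1) (Finset.mem_union_right _ (Finset.mem_image.2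
      ⟨i, Finset.mem_range.2 (by omega), rfl⟩))
  have H1 : ∀ c ∈ E0, (∀ i, 1 ≤ i → i ≤ N → c ≠ (p i, p i + z i)) → Conn F c.1 c.2 := by
    intro c hc h1
    by_cases h2 : ∀ i, i ≤ N → c.1 ≤ p i + z i ∨ e i < c.1
    · exact qE c (hO.pers c hc h2 h1)
    · push Not at h2
      obtain ⟨i, hi, h3, h4⟩ := h2
      exact hO.heal i hi _ hQ (qZ i hi) (fun c hc _ _ => qE c hc) c hc h3 h4
  have e0p : ∀ i, 1 ≤ i → i ≤ N → e 0 < p i := by
    intro i i1 i2
    rcases hI.sep 0 i i1 i2 with h1 | h1 | h1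
    · have := hP.lt_p hI i1 i2 (Or.inl h1); omega
    · have := hP.lt_p hI i1 i2 (Or.inr h1); omega
    · omega
  have he0 := hB.good.e_mem
  have tot := glue (v := v) (w := w) (E0 := E0) hQ hN (p := p) (e := e) (lo := lo) (z := z)
    (Dl := Dl) (fun c hc => (hB.good.fst hc).1) H1 (fun i hi => qE _ (hO.chord i hi))
    (fun i _ hi => qZ i hi) (by
      intro i i1 hi
      have d1 := hlo i hi
      have d3 := b1 i hi
      have d4 := hP.le_p hI le_rfl i1 hi
      have d5 := hP.p1 i hi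
      have d6 := (hB.good.fst (d1.2.2.2 (e i) (by omega) (by omega))).2
      exact ⟨(hI.hz i hi).1, fun t t1 t2 => d1.2.2.2 t (by omega) (by omega), by omega, by omega,
        by omega, d6⟩) (by
      intro i j i1 j1 hij hj
      have := hP.lt_p hI hij hj (Or.inl ⟨o1 i j i1 j1 (by omega) hj, by omega⟩)
      omega) (by
      intro i i1 i2 hi
      have d1 := e0p i (by omega) hi
      have := hP.lt_p' hI le_rfl (by omega) hi (o2 i i1 i2 hi).2
      omega) (by
      intro i j _ hi _ hj hij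
      have := hP.sep hI hi hj hij
      omega) (by
      have := b1 0 (by omega)
      omega) (by
      intro t t1 t2
      have d0 := b1 0 (by omega)
      rcases hB.lc _ hQ (e 0 + 1) (by omega) (by omega) (hz0 ▸ qZ 0 (by omega)) (by
        intro c hc h1
        refine H1 c hc (fun i i1 hi hh => ?_)
        have d1 : c.1 = p i := by rw [hh]
        rcases h1 with h1 | h1
        · have := e0p i i1 hi
          omega
        · have d2 := hlo i hi
          have d3 := h1 _ d2.1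
          have d4 := b1 i hi
          have d5 := hP.le_p hI le_rfl i1 hi
          omega) (fun q hq => f5 q (Finset.mem_union_left _ hq)) t t1 t2 with h | h
      · exact Or.inl h
      · obtain ⟨t', c1, c2, c3, c4⟩ := h
        exact Or.inr ⟨t', c1, c2, fun i _ hi => c3 _ (hlo i hi).1, c4⟩)
  refine ⟨p, e, E, F, hO, f1, fun a b a1 a2 c1 c2 => hQ.trans (tot a a1 a2)
    (hQ.symm (tot b c1 c2)), f3.mono (Nat.mul_le_mul_left _ ?_), ?_⟩
  · refine le_trans (Finset.card_union_le _ _) (Nat.add_le_add hB.zcard ?_)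
    exact le_trans Finset.card_image_le (by simp)
  · intro c hc h1 h2 h3
    refine f4 c (pers c hc (fun i hi => (h1 i hi).1) h2) (fun q hq => ?_)
    rcases mZ q hq with hq | ⟨i, hi, rfl⟩
    · exact h3 q hq
    · have := (h1 i hi).2
      simp only
      omega

end

end Pool.Agent.BHR
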