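import Pool.Agent.Lib.MP_7ae50b_co.Zone

set_option autoImplicit false

namespace Pool.Agent.BHR

theorem strand {Q : ℤ → ℤ → Prop} (hQ : Equivalence Q) {z : ℕ} (hz : 1 ≤ z) {a : ℤ}
    (hZ : ZI Q z a) {t : ℤ} (ht : t < a + z)
    (h : ∀ u, t ≤ u → u < a → (z : ℤ) ∣ u - t → Q u (u + z)) : Q t a := by
  refine chain hQ hZ (fun u => t ≤ u ∧ (z : ℤ) ∣ u - t) ?_ t ⟨le_rfl, by simp⟩ ht
  rintro u ⟨u1, u2⟩ u3
  refine ⟨u + z, ⟨by omega, ?_⟩, by omega, by omega, h u u1 u3 u2⟩
  have : u + z - t = (u - t) + z := by ring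
  rw [this]
  exact dvd_add u2 dvd_rfl

theorem move {v : ℕ} {E : Multiset (ℤ × ℤ)} {s e : ℤ} (h : Good v E s e) {z y : ℕ}
    (hz : 1 ≤ z) (hy : 1 ≤ y) (hyz : y ≠ z) (hz2 : 2 * z ≤ v) (hy2 : 2 * y ≤ v) {H : ℤ}
    (hp : Pure E z (e + 1) H) (hH : e + y + z < H) :
    ∃ F e', Good v F s e' ∧ e < e' ∧ e' ≤ e + y + z ∧ z ::ₘ lens v F = y ::ₘ lens v E ∧
      (∀ c ∈ E, (c.1 ≤ e ∨ e' < c.1) → c ∈ F) ∧
      (∀ Q : ℤ → ℤ → Prop, Equivalence Q → (∀ c ∈ F, e ≤ c.1 → c.1 ≤ e' → Q c.1 c.2) →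
        Q e (e + z) → Q e' (e' + z)) ∧
      (∀ Q : ℤ → ℤ → Prop, Equivalence Q → ∀ a, e' < a → a ≤ H → ZI Q z a →
        (∀ c ∈ F, e ≤ c.1 → c.1 < a → Q c.1 c.2) → Q e (e + z) →
        ∀ c ∈ E, e ≤ c.1 → c.1 < a → Q c.1 c.2) := by
  by_cases hd : z ∣ y
  · obtain ⟨n, hn⟩ := hd
    have hn2 : 2 ≤ n := by
      rcases n with _ | _ | n
      · omega
      · omega
      · omega
    have hy3 : 2 * z ≤ y := by rw [hn]; nlinarith
    have e1 : (e + y - z, e + y - z + z) ∈ E := hp _ (by omega) (by omega)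
    rw [sub_add_cancel] at e1
    obtain ⟨E1, rfl⟩ := Multiset.exists_cons_of_mem e1
    have pers : ∀ c ∈ (e + y - z, e + y) ::ₘ E1, c.1 ≠ e + y - z → c ∈ (e, e + y) ::ₘ E1 := by
      intro c hc h2
      rcases Multiset.mem_cons.1 hc with rfl | hc
      · exact absurd rfl h2
      · exact Multiset.mem_cons_of_mem hc
    have inv : ∀ Q : ℤ → ℤ → Prop, Equivalence Q →
        (∀ c ∈ (e, e + y) ::ₘ E1, e ≤ c.1 → c.1 ≤ e + y - z → Q c.1 c.2) →
        Q e (e + z) → Q (e + y - z) (e + y - z + z) := by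
      intro Q hQ h1 h2
      have a1 : Q e (e + y) := h1 (e, e + y) (by simp) le_rfl (by simp only; omega)
      have a2 : Q (e + z) (e + z + z * ((n - 2 : ℕ) : ℤ)) := by
        refine pure_rel hQ _ (fun i hi => ?_)
        have b1 : (0 : ℤ) ≤ z * i := by positivity
        have b2 : (z : ℤ) * i + 3 * z ≤ y := by
          have : (i : ℤ) + 3 ≤ n := by omega
          rw [hn]; push_cast; nlinarith
        exact h1 (_, _) (pers _ (hp _ (by omega) (by omega)) (by simp only; omega))
          (by simp only; omega) (by simp only; omega)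
      have a3 : e + z + z * ((n - 2 : ℕ) : ℤ) = e + y - z := by
        rw [hn, Nat.cast_sub hn2]; push_cast; ring
      rw [a3] at a2
      rw [sub_add_cancel]
      exact hQ.trans (hQ.symm a2) (hQ.trans (hQ.symm h2) a1)
    refine ⟨(e, e + y) ::ₘ E1, e + y - z, ?_, by omega, by omega, ?_, ?_, inv, ?_⟩
    · intro t
      have := h t
      simp only [deg_cons] at this ⊢
      omega
    · have h5 : len v (e + y - z, e + y) = z := by
        have := len_add (v := v) (e + y - z) hz2
        rwa [sub_add_cancel] at this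
      simp only [lens_cons]
      rw [len_add e hy2, h5, Multiset.cons_swap]
    · intro c hc h2
      exact pers c hc (by omega)
    · intro Q hQ a a1 _ _ h1 h2 c hc c1 c2
      rcases Multiset.mem_cons.1 hc with rfl | hc
      · have := inv Q hQ (fun c hc c1 c2 => h1 c hc c1 (by omega)) h2
        rwa [sub_add_cancel] at this
      · exact h1 c (Multiset.mem_cons_of_mem hc) c1 c2
  · have e1 : (e + y, e + y + z) ∈ E := hp _ (by omega) (by omega)
    obtain ⟨E1, rfl⟩ := Multiset.exists_cons_of_mem e1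
    have pers : ∀ c ∈ (e + y, e + y + z) ::ₘ E1, c.1 ≠ e + y → c ∈ (e, e + y) ::ₘ E1 := by
      intro c hc h2
      rcases Multiset.mem_cons.1 hc with rfl | hc
      · exact absurd rfl h2
      · exact Multiset.mem_cons_of_mem hc
    refine ⟨(e, e + y) ::ₘ E1, e + y + z, ?_, by omega, by omega, ?_, ?_, ?_, ?_⟩
    · intro t
      have := h t
      simp only [deg_cons] at this ⊢
      omega
    · simp only [lens_cons]
      rw [len_add e hy2, len_add (e + y) hz2, Multiset.cons_swap]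
    · intro c hc h2
      exact pers c hc (by omega)
    · intro Q _ h1 _
      exact h1 (_, _) (pers _ (hp _ (by omega) (by omega)) (by simp only; omega))
        (by simp only; omega) (by simp only; omega)
    · intro Q hQ a a1 a2 a3 h1 h2 c hc c1 c2
      rcases Multiset.mem_cons.1 hc with rfl | hc
      · have b1 : Q e (e + y) := h1 (e, e + y) (by simp) le_rfl (by simp only; omega)
        have b2 : Q (e + z) a := by
          refine strand hQ hz a3 (by omega) (fun u u1 u2 u3 => ?_)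
          refine h1 (_, _) (pers _ (hp _ (by omega) (by omega)) ?_) (by simp only; omega) u2
          rintro rfl
          apply hd
          have : (z : ℤ) ∣ y := by
            have h6 : (y : ℤ) = e + y - (e + z) + z := by ring
            rw [h6]
            exact dvd_add u3 dvd_rfl
          exact_mod_cast this
        have b3 : Q (e + y + z) a := by
          refine strand hQ hz a3 (by omega) (fun u u1 u2 _ => ?_)
          exact h1 (_, _) (pers _ (hp _ (by omega) (by omega)) (by simp only; omega))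
            (by simp only; omega) u2
        exact hQ.trans (hQ.symm b1) (hQ.trans h2 (hQ.trans b2 (hQ.symm b3)))
      · exact h1 c (Multiset.mem_cons_of_mem hc) c1 c2

def cost (z : ℕ) (Y : Multiset ℕ) : ℕ := (Y.map (· + z)).sum

theorem visit {v z : ℕ} (hz : 1 ≤ z) (hz2 : 2 * z ≤ v) (Y : Multiset ℕ)
    (hY : ∀ y ∈ Y, 1 ≤ y ∧ y ≠ z ∧ 2 * y ≤ v) {E : Multiset (ℤ × ℤ)} {s e : ℤ} (h : Good v E s e)
    {H : ℤ} (hp : Pure E z (e + 1) H) (hH : e + cost z Y < H) :
    ∃ F e', Good v F s e' ∧ e + Y.card ≤ e' ∧ e' ≤ e + cost z Y ∧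
      lens v F + Multiset.replicate Y.card z = lens v E + Y ∧
      (∀ c ∈ E, (c.1 ≤ e ∨ e' < c.1) → c ∈ F) ∧
      (∀ Q : ℤ → ℤ → Prop, Equivalence Q → ZI Q z (e' + 1) →
        (∀ c ∈ F, e ≤ c.1 → c.1 ≤ e' → Q c.1 c.2) → Q e (e + z) →
        ∀ c ∈ E, e ≤ c.1 → c.1 ≤ e' → Q c.1 c.2) := by
  induction Y using Multiset.induction_on generalizing E e with
  | empty =>
    exact ⟨E, e, h, by simp, by simp [cost], by simp, fun c hc _ => hc,
      fun Q _ _ h1 _ => h1⟩
  | cons y Y ih =>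
    have hy := hY y (Multiset.mem_cons_self _ _)
    have hc : cost z (y ::ₘ Y) = y + z + cost z Y := by simp [cost]
    rw [hc] at hH ⊢
    push_cast at hH ⊢
    obtain ⟨F, e1, f1, f2, f3, f4, f5, f6, f7⟩ := move h hz hy.1 hy.2.1 hz2 hy.2.2 hp (by omega)
    obtain ⟨G, e2, g1, g2, g3, g4, g5, g6⟩ := ih (fun y hy => hY y (Multiset.mem_cons_of_mem hy))
      f1 (fun t t1 t2 => f5 _ (hp t (by omega) t2) (Or.inr (by simp only; omega))) (by omega)
    refine ⟨G, e2, g1, ?_, by omega, ?_, ?_, ?_⟩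
    · rw [Multiset.card_cons]; push_cast; omega
    · ext l
      have c1 := congrArg (Multiset.count l) f4
      have c2 := congrArg (Multiset.count l) g4
      simp only [Multiset.count_cons, Multiset.count_add, Multiset.count_replicate,
        Multiset.card_cons] at c1 c2 ⊢
      split_ifs at c1 c2 ⊢ <;> omega
    · intro c hc h2
      exact g5 c (f5 c hc (by omega)) (by omega)
    · intro Q hQ hZ h1 h2 c hc c1 c2
      have a1 : Q e1 (e1 + z) :=
        f6 Q hQ (fun c hc c1 c2 => h1 c (g5 c hc (Or.inl c2)) c1 (by omega)) h2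
      have a2 := g6 Q hQ hZ (fun c hc c1 c2 => h1 c hc (by omega) c2) a1
      refine f7 Q hQ (e2 + 1) (by omega) (by omega) hZ (fun c hc c1 c2 => ?_) h2 c hc c1
        (by omega)
      by_cases b1 : c.1 ≤ e1
      · exact h1 c (g5 c hc (Or.inl b1)) c1 (by omega)
      · exact a2 c hc (by omega) (by omega)

end Pool.Agent.BHR
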