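import Pool.Agent.Lib.MP_7ae50b_co.Ham

set_option autoImplicit false

namespace Pool.Agent.BHR

def Gen (A : Finset ℕ) : Prop :=
  ∀ H : AddSubgroup ℤ, (∀ x ∈ A, (x : ℤ) ∈ H) → (1 : ℤ) ∈ H

def Near (A : Finset ℕ) (L L' : Multiset ℕ) (n : ℕ) : Prop :=
  ∀ l, L'.count l % 2 = L.count l % 2 ∧ L'.count l ≤ L.count l + n ∧
    L.count l ≤ L'.count l + n ∧ (l ∉ A → L'.count l = L.count l)

theorem Near.refl (A : Finset ℕ) (L : Multiset ℕ) (n : ℕ) : Near A L L n := by
  intro l; simp

theorem Near.trans {A : Finset ℕ} {L L' L'' : Multiset ℕ} {n m : ℕ} (h : Near A L L' n)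
    (h' : Near A L' L'' m) : Near A L L'' (n + m) := by
  intro l
  obtain ⟨a1, a2, a3, a4⟩ := h l
  obtain ⟨b1, b2, b3, b4⟩ := h' l
  exact ⟨by omega, by omega, by omega, fun hl => by rw [b4 hl, a4 hl]⟩

theorem Near.mono {A : Finset ℕ} {L L' : Multiset ℕ} {n m : ℕ} (h : Near A L L' n)
    (hm : n ≤ m) : Near A L L' m := by
  intro l
  obtain ⟨a1, a2, a3, a4⟩ := h l
  exact ⟨by omega, by omega, by omega, a4⟩

theorem pure_rel {Q : ℤ → ℤ → Prop} (hQ : Equivalence Q) {z : ℕ}
    {a : ℤ} (n : ℕ) (h : ∀ i : ℕ, i < n → Q (a + z * i) (a + z * i + z)) : Q a (a + z * n) := by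
  induction n with
  | zero => simpa using hQ.refl a
  | succ n ih =>
    have := hQ.trans (ih (fun i hi => h i (by omega))) (h n (by omega))
    have h2 : a + z * ((n + 1 : ℕ) : ℤ) = a + z * n + z := by push_cast; ring
    rwa [h2]

theorem pure_conn {E : Multiset (ℤ × ℤ)} {z : ℕ} (hz : 1 ≤ z) {a b t t' : ℤ} (h : Pure E z a b)
    (h1 : a ≤ t) (h2 : t ≤ t') (h3 : t' < b + z) (h4 : (z : ℤ) ∣ t' - t) : Conn E t t' := by
  obtain ⟨n, hn⟩ := h4
  have hn0 : 0 ≤ n := by
    by_contra h5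
    have : (z : ℤ) * n < 0 := mul_neg_of_pos_of_neg (by omega) (by omega)
    omega
  obtain ⟨n, rfl⟩ := Int.eq_ofNat_of_zero_le hn0
  have h5 : t' = t + z * n := by omega
  rw [h5]
  refine pure_rel (conn_equiv E) n (fun i hi => conn_edge (h _ ?_ ?_))
  · have : (0 : ℤ) ≤ z * i := by positivity
    omega
  · have : (z : ℤ) * i + z ≤ z * n := by
      have : (i : ℤ) + 1 ≤ n := by exact_mod_cast hi
      nlinarith
    omega

theorem merge_aux {v w : ℕ} {A : Finset ℕ} (hA : ∀ x ∈ A, 1 ≤ x ∧ x ≤ w) (hv : 2 * w ≤ v)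
    {z : ℕ} (hz : z ∈ A) {E : Multiset (ℤ × ℤ)} {s e : ℤ} (h : Good v E s e) {a : ℤ}
    (S : Finset (ℕ × ℕ)) (hS : ∀ p ∈ S, p.2 ∈ A) (hp : Pure E z a (a + 2 * w * S.card)) :
    ∃ F, Good v F s e ∧ (∀ x y, Conn E x y → Conn F x y) ∧
      Near A (lens v E) (lens v F) (2 * S.card) ∧
      (∀ c ∈ E, (c.1 < a ∨ a + 2 * w * S.card ≤ c.1) → c ∈ F) ∧
      ∀ p ∈ S, ∃ b, a ≤ b ∧ b + p.2 < a + 2 * w * S.card ∧ (z : ℤ) ∣ b - p.1 ∧
        Conn F b (b + p.2) := by
  induction S using Finset.induction_on with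
  | empty => exact ⟨E, h, fun _ _ h => h, Near.refl _ _ _, fun c hc _ => hc, by simp⟩
  | insert p S hpS ih =>
    rw [Finset.card_insert_of_notMem hpS] at hp ⊢
    have hw : (0 : ℤ) ≤ 2 * w * S.card := by positivity
    have hb : (2 : ℤ) * w * ((S.card + 1 : ℕ) : ℤ) = 2 * w * S.card + 2 * w := by push_cast; ring
    rw [hb] at hp ⊢
    obtain ⟨F, f1, f2, f3, f4, f5⟩ := ih (fun q hq => hS q (Finset.mem_insert_of_mem hq))
      (fun t t1 t2 => hp t t1 (by omega))
    have hy := hA _ (hS p (Finset.mem_insert_self _ _))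
    have hz' := hA z hz
    set a' := a + 2 * w * S.card with ha'
    obtain ⟨b, b1, b2, b3⟩ : ∃ b, a' ≤ b ∧ b < a' + z ∧ (z : ℤ) ∣ b - p.1 := by
      refine ⟨a' + (p.1 - a') % z, ?_, ?_, ?_⟩
      · have := Int.emod_nonneg (p.1 - a') (b := z) (by omega)
        omega
      · have := Int.emod_lt_of_pos (p.1 - a') (b := z) (by omega)
        omega
      · have := Int.mul_ediv_add_emod (p.1 - a') z
        exact ⟨-((p.1 - a') / z), by linarith⟩
    by_cases hc : Conn F b (b + p.2)
    · refine ⟨F, f1, f2, f3.mono (by omega), fun c hc h2 => f4 c hc (by omega), ?_⟩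
      intro q hq
      rcases Finset.mem_insert.1 hq with rfl | hq
      · exact ⟨b, by omega, by omega, b3, hc⟩
      · obtain ⟨b', c1, c2, c3, c4⟩ := f5 q hq
        exact ⟨b', c1, by omega, c3, c4⟩
    · have e1 : (b, b + z) ∈ F := f4 _ (hp b (by omega) (by omega)) (Or.inr b1)
      have e2 : (b + p.2, b + p.2 + z) ∈ F :=
        f4 _ (hp (b + p.2) (by omega) (by omega)) (Or.inr (by simp only; omega))
      obtain ⟨E1, rfl⟩ := Multiset.exists_cons_of_mem e1
      have e3 : (b + p.2, b + p.2 + z) ∈ E1 := by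
        rcases Multiset.mem_cons.1 e2 with e2 | e2
        · simp only [Prod.mk.injEq] at e2; omega
        · exact e2
      obtain ⟨E2, rfl⟩ := Multiset.exists_cons_of_mem e3
      have g1 : ∀ x y, Conn ((b, b + z) ::ₘ (b + p.2, b + p.2 + z) ::ₘ E2) x y →
          Conn ((b, b + p.2) ::ₘ (b + z, b + p.2 + z) ::ₘ E2) x y :=
        fun x y hxy => flip_merge f1 hc hxy
      refine ⟨(b, b + p.2) ::ₘ (b + z, b + p.2 + z) ::ₘ E2, good_flip f1,
        fun x y hxy => g1 x y (f2 x y hxy), ?_, ?_, ?_⟩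
      · have : Near A (lens v ((b, b + z) ::ₘ (b + p.2, b + p.2 + z) ::ₘ E2))
            (lens v ((b, b + p.2) ::ₘ (b + z, b + p.2 + z) ::ₘ E2)) 2 := by
          have h5 : b + p.2 + z = b + z + p.2 := by ring
          simp only [lens_cons]
          rw [len_add b (by omega), len_add (b + p.2) (by omega), len_add b (by omega), h5,
            len_add (b + z) (by omega)]
          intro l
          simp only [Multiset.count_cons]
          refine ⟨by split_ifs <;> omega, by split_ifs <;> omega, by split_ifs <;> omega, ?_⟩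
          intro hl
          have n1 : l ≠ z := fun hh => hl (hh ▸ hz)
          have n2 : l ≠ p.2 := fun hh => hl (hh ▸ hS p (Finset.mem_insert_self _ _))
          simp [n1, n2]
        exact (f3.trans this).mono (by omega)
      · intro c hcE hc2
        have := f4 c hcE (by omega)
        simp only [Multiset.mem_cons] at this ⊢
        rcases this with rfl | rfl | this
        · exfalso; simp only at hc2; omega
        · exfalso; simp only at hc2; omega
        · exact Or.inr (Or.inr this)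
      · intro q hq
        rcases Finset.mem_insert.1 hq with rfl | hq
        · exact ⟨b, by omega, by omega, b3, conn_edge (by simp)⟩
        · obtain ⟨b', c1, c2, c3, c4⟩ := f5 q hq
          exact ⟨b', c1, by omega, c3, g1 _ _ c4⟩

theorem card_le_of_bounds {w : ℕ} {A : Finset ℕ} (hA : ∀ x ∈ A, 1 ≤ x ∧ x ≤ w) :
    A.card ≤ w := by
  have : A ⊆ Finset.Icc 1 w := fun x hx => Finset.mem_Icc.2 (hA x hx)
  simpa using Finset.card_le_card this

theorem merge_zone {v w M : ℕ} {A : Finset ℕ} (hG : Gen A) (hA : ∀ x ∈ A, 1 ≤ x ∧ x ≤ w)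
    (hv : 2 * w ≤ v) (hM : 2 * w * (w * (w - 1)) ≤ M)
    {z : ℕ} (hz : z ∈ A) {E : Multiset (ℤ × ℤ)} {s e : ℤ} (h : Good v E s e) {a : ℤ}
    (hp : Pure E z a (a + M)) :
    ∃ F, Good v F s e ∧ (∀ x y, Conn E x y → Conn F x y) ∧
      Near A (lens v E) (lens v F) (2 * (w * w)) ∧
      (∀ c ∈ E, (c.1 < a ∨ a + M ≤ c.1) → c ∈ F) ∧ ZI (Conn F) z a := by
  have hz' := hA z hz
  set S : Finset (ℕ × ℕ) := Finset.range z ×ˢ A.erase z with hS
  have hcard : S.card ≤ w * (w - 1) := by
    rw [hS, Finset.card_product, Finset.card_range, Finset.card_erase_of_mem hz]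
    have := card_le_of_bounds hA
    exact Nat.mul_le_mul hz'.2 (by omega)
  have hM2 : (2 : ℤ) * w * S.card ≤ M := by
    have : 2 * w * S.card ≤ M := le_trans (Nat.mul_le_mul_left _ hcard) hM
    exact_mod_cast this
  obtain ⟨F, f1, f2, f3, f4, f5⟩ := merge_aux hA hv hz h (a := a) S
    (fun p hp => Finset.mem_of_mem_erase (Finset.mem_product.1 hp).2)
    (fun t t1 t2 => hp t t1 (by omega))
  refine ⟨F, f1, f2, f3.mono ?_, fun c hc h2 => f4 c hc (by omega), ?_⟩
  · have : w * (w - 1) ≤ w * w := Nat.mul_le_mul_left _ (by omega)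
    omega
  have eq0 := conn_equiv F
  let rep : ℤ → ℤ := fun t => a + (t - a) % z
  have r1 : ∀ t, a ≤ rep t ∧ rep t < a + z := fun t =>
    ⟨by have := Int.emod_nonneg (t - a) (b := z) (by omega); simp only [rep]; omega,
     by have := Int.emod_lt_of_pos (t - a) (b := z) (by omega); simp only [rep]; omega⟩
  have r2 : ∀ t b, a ≤ b → b < a + M + z → (z : ℤ) ∣ b - t → Conn F (rep t) b := by
    intro t b b1 b2 b3
    have h5 : (z : ℤ) ∣ b - rep t := by
      have := Int.mul_ediv_add_emod (t - a) z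
      have h6 : b - rep t = (b - t) + z * ((t - a) / z) := by simp only [rep]; linarith
      rw [h6]
      exact dvd_add b3 (dvd_mul_right _ _)
    apply f2
    by_cases h7 : rep t ≤ b
    · exact pure_conn hz'.1 hp (r1 t).1 h7 b2 h5
    · have := r1 t
      exact (conn_equiv E).symm (pure_conn hz'.1 hp b1 (by omega) (by omega)
        (by rw [← neg_sub]; exact (dvd_neg).2 h5))
  let H : AddSubgroup ℤ :=
    { carrier := {n | ∀ t, Conn F (rep t) (rep (t + n))}
      zero_mem' := fun t => by simpa using eq0.refl _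
      add_mem' := fun {m n} hm hn t => by
        have := eq0.trans (hm t) (hn (t + m))
        rwa [add_assoc] at this
      neg_mem' := fun {n} hn t => by
        have := hn (t + -n)
        rw [add_assoc, neg_add_cancel, add_zero] at this
        exact eq0.symm this }
  have h1 : (1 : ℤ) ∈ H := by
    apply hG
    intro y hy t
    by_cases hyz : y = z
    · have := r1 (t + y)
      refine r2 t _ this.1 (by omega) ?_
      have h6 := Int.mul_ediv_add_emod (t + y - a) z
      refine ⟨1 - (t + y - a) / z, ?_⟩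
      simp only [rep]
      subst hyz
      linarith
    · have h6 := Int.emod_nonneg t (b := z) (by omega)
      have h7 := Int.emod_lt_of_pos t (b := z) (by omega)
      obtain ⟨b, b1, b2, b3, b4⟩ := f5 ((t % z).toNat, y) (by
        rw [hS, Finset.mem_product, Finset.mem_range, Finset.mem_erase]
        exact ⟨by simp only; omega, hyz, hy⟩)
      simp only at b2 b3 b4
      have b5 : (z : ℤ) ∣ b - t := by
        have h8 := Int.mul_ediv_add_emod t z
        have h9 : b - t = (b - ((t % z).toNat : ℤ)) - z * (t / z) := by omega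
        rw [h9]
        exact dvd_sub b3 (dvd_mul_right _ _)
      refine eq0.trans (r2 t b b1 (by omega) b5) (eq0.trans b4 (eq0.symm
        (r2 (t + y) (b + y) (by omega) (by omega) ?_)))
      have : b + y - (t + y) = b - t := by ring
      rwa [this]
  intro r r3 r4
  have h2 : (r - a) • (1 : ℤ) ∈ H := H.zsmul_mem h1 _
  have h3 := h2 a
  have h4 := r2 a a le_rfl (by omega) (by simp)
  have h5 := r2 (a + (r - a) • 1) r r3 (by omega) (by simp)
  exact eq0.trans (eq0.symm h5) (eq0.trans (eq0.symm h3) h4)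

theorem merge_all {v w M : ℕ} {A : Finset ℕ} (hG : Gen A) (hA : ∀ x ∈ A, 1 ≤ x ∧ x ≤ w)
    (hv : 2 * w ≤ v) (hM : 2 * w * (w * (w - 1)) ≤ M)
    {E : Multiset (ℤ × ℤ)} {s e : ℤ} (h : Good v E s e) (Z : Finset (ℕ × ℤ))
    (hZ : ∀ p ∈ Z, p.1 ∈ A ∧ Pure E p.1 p.2 (p.2 + M))
    (hd : ∀ p ∈ Z, ∀ q ∈ Z, p ≠ q → p.2 + M ≤ q.2 ∨ q.2 + M ≤ p.2) :
    ∃ F, Good v F s e ∧ (∀ x y, Conn E x y → Conn F x y) ∧
      Near A (lens v E) (lens v F) (2 * (w * w) * Z.card) ∧
      (∀ c ∈ E, (∀ p ∈ Z, c.1 < p.2 ∨ p.2 + M ≤ c.1) → c ∈ F) ∧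
      ∀ p ∈ Z, ZI (Conn F) p.1 p.2 := by
  induction Z using Finset.induction_on with
  | empty => exact ⟨E, h, fun _ _ h => h, Near.refl _ _ _, fun c hc _ => hc, by simp⟩
  | insert p Z hpZ ih =>
    obtain ⟨F, f1, f2, f3, f4, f5⟩ := ih (fun q hq => hZ q (Finset.mem_insert_of_mem hq))
      (fun q hq r hr => hd q (Finset.mem_insert_of_mem hq) r (Finset.mem_insert_of_mem hr))
    have hp := hZ p (Finset.mem_insert_self _ _)
    obtain ⟨G, g1, g2, g3, g4, g5⟩ := merge_zone hG hA hv hM hp.1 f1 (a := p.2) (by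
      intro t t1 t2
      refine f4 _ (hp.2 t t1 t2) (fun q hq => ?_)
      have := hd p (Finset.mem_insert_self _ _) q (Finset.mem_insert_of_mem hq)
        (fun hh => hpZ (hh ▸ hq))
      simp only
      omega)
    refine ⟨G, g1, fun x y hxy => g2 x y (f2 x y hxy), ?_, ?_, ?_⟩
    · rw [Finset.card_insert_of_notMem hpZ, mul_add, mul_one]
      exact f3.trans g3
    · intro c hc h2
      exact g4 c (f4 c hc (fun q hq => h2 q (Finset.mem_insert_of_mem hq)))
        (h2 p (Finset.mem_insert_self _ _))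
    · intro q hq
      rcases Finset.mem_insert.1 hq with rfl | hq
      · exact g5
      · exact fun r r1 r2 => g2 _ _ (f5 q hq r r1 r2)

theorem neutral_all {v w x : ℕ} (hx : Odd x) (hxw : x ≤ w) (hv : 2 * w ≤ v) (Y : Multiset ℕ)
    (hY : ∀ y ∈ Y, 1 ≤ y ∧ y ≤ w) {E : Multiset (ℤ × ℤ)} {s e : ℤ} (h : Good v E s e)
    (hc : AllConn v E) {a : ℤ} (hp : Pure E x a (a + (w * w + 1) * Y.card)) :
    ∃ F, Good v F s e ∧ AllConn v F ∧
      lens v F + Multiset.replicate (2 * Y.card) x = lens v E + Y + Y := by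
  induction Y using Multiset.induction_on generalizing E a with
  | empty => exact ⟨E, h, hc, by simp⟩
  | cons y Y ih =>
    have hy := hY y (Multiset.mem_cons_self _ _)
    have h1 : (x : ℤ) * y ≤ w * w := by
      have : x * y ≤ w * w := Nat.mul_le_mul hxw hy.2
      exact_mod_cast this
    have h2 : ((w : ℤ) * w + 1) * ((y ::ₘ Y).card : ℤ) = (w * w + 1) + (w * w + 1) * Y.card := by
      rw [Multiset.card_cons]; push_cast; ring
    have h3 : (0 : ℤ) ≤ (w * w + 1) * Y.card := by positivity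
    rw [h2] at hp
    obtain ⟨F, f1, f2, f3, f4⟩ := neutral h hc hx hy.1 (by omega) (by omega) (a := a)
      (fun t t1 t2 => hp t t1 (by omega))
    obtain ⟨G, g1, g2, g3⟩ := ih (fun y hy => hY y (Multiset.mem_cons_of_mem hy)) f1 f2
      (a := a + (w * w + 1)) (fun t t1 t2 => f4 _ (hp t (by nlinarith) (by omega))
        (Or.inr (by simp only; omega)))
    refine ⟨G, g1, g2, ?_⟩
    ext l
    have c1 := congrArg (Multiset.count l) f3
    have c2 := congrArg (Multiset.count l) g3
    simp only [Multiset.count_cons, Multiset.count_add, Multiset.count_replicate,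
      Multiset.card_cons] at c1 c2 ⊢
    split_ifs at c1 c2 ⊢ <;> omega

end Pool.Agent.BHR
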